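import Pool.Agent.SIM.VCount
import Pool.Agent.SDN.Defs

/-!
# SIM (no double points): the sum over the free bridge between the two parts of a near touch (helper69)

* `NearQ`: the word has a near touching pair `i ≤ n1`, `n2 ≤ j`, good around the vertex number `i` at every scale, and
  both parts leave the balls;
* **`xbound`**: for fixed `A`, `B` the weight of the bridges `Z` with `A ++ (Z ++ B)` nearly touching is at most
  `C 4 ^ K UU n / n ^ 2` divided by the sum of `ρ s / R s`.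
-/

set_option autoImplicit false

namespace HexObs

namespace SIM

open Finset TS SDN

open scoped ENNReal

/-- the position of the end of the bridge Z behind A -/
def dsp (A Z : List Bool) : Pt := mulE (rotTo up (dx up A A.length)) (vx oo up Z Z.length)

/-- the word t has a near touching pair i ≤ n1, n2 ≤ j -/
def NearQ (S d : ℕ) (ρ R : ℕ → ℕ) (n1 n2 : ℕ) (t : List Bool) : Prop :=
  ∃ i x e j, i ≤ x ∧ x ≤ n1 ∧ n2 ≤ e ∧ e ≤ j ∧ j ≤ t.length ∧ vx oo up t i ∈ Bl (vx oo up t j) d ∧
    (∀ s, s < S → vx oo up t x ∉ Bl (vx oo up t i) (R s)) ∧ (∀ s, s < S → vx oo up t e ∉ Bl (vx oo up t j) (R s)) ∧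
    ∀ s, s < S → GoodPt (vx oo up t) x (vx oo up t i) (ρ s) (R s)

lemma NearQ_mono {S d : ℕ} {ρ R : ℕ → ℕ} (t : List Bool) (n1 n2 n1' n2' : ℕ) (h1 : n1 ≤ n1') (h2 : n2' ≤ n2)
    (h : NearQ S d ρ R n1 n2 t) : NearQ S d ρ R n1' n2' t := by
  obtain ⟨i, x, e, j, a1, a2, a3, a4⟩ := h
  exact ⟨i, x, e, j, a1, a2.trans h1, h2.trans a3, a4⟩

lemma vx_general (A w : List Bool) (k : ℕ) : vx oo up (A ++ w) (A.length + k) =
    vx oo up A A.length + mulE (rotTo up (dx up A A.length)) (vx oo up w k) := by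
  have h1 : vx oo up (A ++ w) (A.length + k) = vx (vx oo up (A ++ w) A.length) (dx up (A ++ w) A.length) w k := by
    unfold vx dx
    rw [vs_shift]
    apply vs_congr
    intro k _
    exact tf_append_right k
  have e1 : vx oo up (A ++ w) A.length = vx oo up A A.length := vx_append (by omega)
  have e2 : dx up (A ++ w) A.length = dx up A A.length := dx_append le_rfl
  rw [e1, e2] at h1
  rw [h1]
  have h2 := vx_mulE (rotTo up (dx up A A.length)) oo (vx oo up A A.length) up w k
  rw [rotTo_apply _ upd] at h2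
  rw [h2]
  congr 2
  exact sub_zero _

/-- vertices behind Z -/
lemma vx_behind {A Z B : List Bool} (hZ : dx up Z Z.length = up) (k : ℕ) :
    vx oo up (A ++ (Z ++ B)) (A.length + Z.length + k) = vx oo up (A ++ B) (A.length + k) + dsp A Z := by
  rw [add_assoc, vx_general A (Z ++ B) (Z.length + k), vx_cat hZ, vx_general A B k, mulE_add]
  unfold dsp
  abel

lemma cl_dsp {A Z : List Bool} (hZ : dx up Z Z.length = up) : cl (dsp A Z) = 0 := by
  unfold dsp
  rw [cl_mulE, cl_vx]
  have h := cl_dx up Z Z.length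
  rw [hZ] at h
  split_ifs at h ⊢ with h1
  · exact mul_zero _
  · exfalso
    revert h
    decide

lemma dsp_inj {A Z Z' : List Bool} (h : dsp A Z = dsp A Z') : vx oo up Z Z.length = vx oo up Z' Z'.length :=
  mulE_inj (nrm_rotTo upd (dx_mem upd A A.length)) h

lemma pth_vx (t : List Bool) (m : ℕ) : Pth (fun k => vx oo up t k) m := by
  intro k _
  show AdP (vx oo up t k) (vx oo up t (k + 1))
  have h0 : cl oo = 0 := by decide
  have h2 : cl up = 2 := by decide
  by_cases hk : Even k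
  · left
    refine ⟨?_, ?_, ?_⟩
    · rw [cl_vx, if_pos hk, h0]
    · rw [vx_succ, add_sub_cancel_left]
      exact dx_mem upd t k
    · rw [vx_succ, add_sub_cancel_left, cl_dx, if_pos hk, h2]
  · right
    refine ⟨?_, ?_, ?_⟩
    · rw [cl_vx, if_pos (by rw [Nat.even_add_one]; exact hk), h0]
    · rw [vx_succ, sub_add_cancel_left]
      exact neg_mem_dirs (dx_mem upd t k)
    · rw [vx_succ, sub_add_cancel_left, cl_neg, cl_dx, if_neg hk, h2]
      decide

/-- the box of radius 2 ^ K: coordinates -/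
lemma WL_bd {K : ℕ} {t : List Bool} (ht : t ∈ WL K) {i : ℕ} (hi : i ≤ t.length) :
    vx oo up t i ∈ Bl 0 (2 ^ (K + 3)) := by
  have h1 := ht.2 i hi false
  have h2 := ht.2 i hi true
  have k1 : (1 : ℤ) ≤ 2 ^ K := one_le_pow₀ (by norm_num)
  obtain ⟨p, hp⟩ : ∃ p, p = vx oo up t i := ⟨_, rfl⟩
  rw [← hp] at h1 h2 ⊢
  have e1 : lvl false p = p.1 + 2 * p.2 := by
    show ip p up = _
    simp only [ip, up]
    ring
  have e2 : lvl true p = -(2 * p.1 + p.2) := by
    show ip p (-1, 0) = _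
    simp only [ip]
    ring
  unfold row at h1 h2
  rw [abs_le] at h1 h2
  rw [mem_Bl]
  push_cast
  rw [pow_add]
  simp only [Prod.fst_zero, Prod.snd_zero]
  refine ⟨⟨?_, ?_⟩, ?_, ?_⟩ <;> omega

open Classical in
/-- **the sum over the free bridge** -/
theorem xbound : ∃ C : ℝ, 0 < C ∧ ∀ (A B : List Bool) (n K S d : ℕ) (ρ R : ℕ → ℕ), 1 ≤ n →
    (∀ s, s < S → 64 ≤ ρ s ∧ 320 * ρ s ≤ R s ∧ d ≤ R s ∧ R s ≤ 2 ^ (K + 4)) →
    (∀ s, s + 1 < S → 80 * R (s + 1) ≤ ρ s) → 0 < ∑ s ∈ range S, (ρ s : ℝ) / R s →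
    gf {Z | Z ∈ BU ∧ n ≤ hgt Z ∧ A ++ (Z ++ B) ∈ WL K ∧ NearQ S d ρ R A.length (A.length + Z.length) (A ++ (Z ++ B))} ≤
      ENNReal.ofReal (C * 4 ^ K * (UU n / n ^ 2) / ∑ s ∈ range S, (ρ s : ℝ) / R s) := by
  obtain ⟨C, hC, hanti⟩ := anti_end
  refine ⟨2 * 10 ^ 9 * 256 * C, by positivity, fun A B n K S d ρ R hn hS hR hsum => ?_⟩
  obtain ⟨E, hE⟩ : ∃ E : Set (List Bool), E = {Z | Z ∈ BU ∧ n ≤ hgt Z ∧ A ++ (Z ++ B) ∈ WL K ∧
    NearQ S d ρ R A.length (A.length + Z.length) (A ++ (Z ++ B))} := ⟨_, rfl⟩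
  rw [← hE]
  obtain ⟨V, hV⟩ : ∃ V : Finset Pt, V = (bl 0 (2 ^ (K + 4))).filter (fun v => ∃ Z ∈ E, dsp A Z = v) := ⟨_, rfl⟩
  have hBU : ∀ Z ∈ BU, dx up Z Z.length = up := fun Z ⟨h, hZ⟩ => (mem_Brd.1 hZ).2.2.1
  have hbox : ∀ Z ∈ E, dsp A Z ∈ Bl 0 (2 ^ (K + 4)) := by
    intro Z hZ
    rw [hE] at hZ
    obtain ⟨z1, z2, z3, z4⟩ := hZ
    have h1 := WL_bd z3 (i := A.length) (by simp)
    have h2 := WL_bd z3 (i := A.length + Z.length) (by rw [List.length_append, List.length_append]; omega)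
    have h3 := vx_behind (A := A) (B := B) (hBU Z z1) 0
    rw [add_zero, add_zero] at h3
    have h4 : vx oo up (A ++ (Z ++ B)) A.length = vx oo up (A ++ B) A.length := by
      rw [vx_append (by omega), vx_append (by omega)]
    rw [h3] at h2
    rw [h4] at h1
    rw [mem_Bl] at h1 h2 ⊢
    push_cast at h1 h2 ⊢
    rw [show (2 : ℤ) ^ (K + 4) = 2 * 2 ^ (K + 3) by ring]
    simp only [Prod.fst_zero, Prod.snd_zero, Prod.fst_add, Prod.snd_add] at h1 h2 ⊢
    refine ⟨⟨?_, ?_⟩, ?_, ?_⟩ <;> omega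
  -- the number of the translations
  have hcount : (V.card : ℝ) * ∑ s ∈ range S, (ρ s : ℝ) / R s ≤ 2 * 10 ^ 9 * ((2 ^ (K + 4) : ℕ) : ℝ) ^ 2 := by
    have hb : Pth (fun k => vx oo up (A ++ B) (A.length + k)) B.length :=
      Pth_le (Pth_tail (j := A.length) (pth_vx (A ++ B) (A.length + B.length)) (by omega)) (by omega)
    refine vcount (a := fun k => vx oo up (A ++ B) k) (b := fun k => vx oo up (A ++ B) (A.length + k)) (n := A.length)
      (m := B.length) (d := d) hb hS hR ?_
    · intro v hv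
      rw [hV, Finset.mem_filter] at hv
      obtain ⟨-, Z, hZ, rfl⟩ := hv
      refine ⟨hbox Z hZ, ?_⟩
      rw [hE] at hZ
      obtain ⟨z1, z2, z3, z4⟩ := hZ
      have hZu := hBU Z z1
      refine ⟨cl_dsp hZu, ?_, ?_⟩
      · intro i hi j hj
        show vx oo up (A ++ B) i ≠ vx oo up (A ++ B) (A.length + j) + dsp A Z
        rw [← vx_behind hZu]
        have h1 : vx oo up (A ++ B) i = vx oo up (A ++ (Z ++ B)) i := by
          rw [vx_append (by omega), vx_append (by omega)]
        rw [h1]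
        have hZ0 : 1 ≤ Z.length := by
          by_contra hcon
          have h2 : Z = [] := List.eq_nil_of_length_eq_zero (by omega)
          rw [h2] at z2
          have : hgt [] = 0 := rfl
          omega
        refine z3.1.inj _ _ (by omega) ?_
        rw [List.length_append, List.length_append]
        omega
      · obtain ⟨i, x, e, j, a1, a2, a3, a4, a5, a6, a7, a8, a9⟩ := z4
        have hpre : ∀ k, k ≤ A.length → vx oo up (A ++ B) k = vx oo up (A ++ (Z ++ B)) k := by
          intro k hk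
          rw [vx_append (by omega), vx_append (by omega)]
        have hpost : ∀ k, A.length + Z.length ≤ k → vx oo up (A ++ (Z ++ B)) k =
            vx oo up (A ++ B) (A.length + (k - (A.length + Z.length))) + dsp A Z := by
          intro k hk
          rw [← vx_behind hZu]
          congr 1
          omega
        rw [List.length_append, List.length_append] at a5
        refine ⟨i, by omega, j - (A.length + Z.length), by omega, ?_, ?_, ?_⟩
        · show vx oo up (A ++ B) i ∈ Bl (vx oo up (A ++ B) (A.length + (j - (A.length + Z.length))) + dsp A Z) d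
          rw [← hpost j (by omega), hpre i (by omega)]
          exact a6
        · intro s hs
          show GoodPt (fun k => vx oo up (A ++ B) k) A.length (vx oo up (A ++ B) i) (ρ s) (R s)
          rw [hpre i (by omega)]
          obtain ⟨c, c1, c2⟩ := a9 s hs
          refine ⟨c, c1, fun g m hg hk => ?_⟩
          obtain ⟨cg, b1, t, b2⟩ := c2 g m hg hk
          refine ⟨cg, b1, t, fun u hu hu2 => ?_⟩
          obtain ⟨k, hk1, k', hk2, e1⟩ := b2 u hu hu2
          exact ⟨k, hk1, k', by omega, by rw [e1]; exact (hpre k' (by omega)).symm⟩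
        · intro s hs
          refine ⟨e - (A.length + Z.length), by omega, fun hcon => a8 s hs ?_⟩
          have hcon' : vx oo up (A ++ B) (A.length + (e - (A.length + Z.length))) ∈
            Bl (vx oo up (A ++ B) (A.length + (j - (A.length + Z.length)))) (R s) := hcon
          rw [hpost e (by omega), hpost j (by omega)]
          rw [mem_Bl] at hcon' ⊢
          simp only [Prod.fst_add, Prod.snd_add]
          refine ⟨⟨?_, ?_⟩, ?_, ?_⟩ <;> omega
  -- one translation
  have hone : ∀ v, gf {Z | Z ∈ E ∧ dsp A Z = v} ≤ ENNReal.ofReal (C * (UU n / n ^ 2)) := by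
    intro v
    by_cases hex : ∃ Z0, Z0 ∈ E ∧ dsp A Z0 = v
    · obtain ⟨Z0, hZ0, hv0⟩ := hex
      have hZ0' := hZ0
      rw [hE] at hZ0'
      obtain ⟨⟨h, hh⟩, z2, -, -⟩ := hZ0'
      have hlev := (mem_Brd.1 hh).2.2.2
      have hg0 : hgt Z0 = h := by
        unfold hgt
        rw [hlev]
        omega
      rw [hg0] at z2
      refine (gf_mono (Q := {t | t ∈ Brd h ∧ latE t = latE Z0}) ?_).trans ((hanti h (by omega) _).trans ?_)
      · rintro Z ⟨hZ, hZv⟩
        rw [hE] at hZ
        obtain ⟨⟨h', hh'⟩, -, -, -⟩ := hZ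
        have h3 : vx oo up Z Z.length = vx oo up Z0 Z0.length := dsp_inj (A := A) (by rw [hZv, hv0])
        have h4 := (mem_Brd.1 hh').2.2.2
        have h5 : lev Z Z.length = lev Z0 Z0.length := by
          unfold lev
          rw [h3]
        have h6 : h' = h := by omega
        refine ⟨h6 ▸ hh', ?_⟩
        unfold latE lat
        rw [h3]
      · apply ENNReal.ofReal_le_ofReal
        have hn0 : (0 : ℝ) < n := by exact_mod_cast hn
        have hnh : (n : ℝ) ≤ h := by exact_mod_cast z2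
        have h7 : uu h ≤ uu n := Num2Aux.anti z2
        have h8 := Num2Aux.mul_le_UU n
        have h9 := Num2Aux.nonneg n
        refine mul_le_mul_of_nonneg_left ?_ hC.le
        calc uu h / h ≤ uu n / n := div_le_div₀ h9 h7 hn0 hnh
          _ ≤ UU n / n ^ 2 := by
            rw [div_le_div_iff₀ hn0 (by positivity)]
            nlinarith
    · have : {Z | Z ∈ E ∧ dsp A Z = v} = ∅ := Set.eq_empty_of_forall_notMem fun Z hZ => hex ⟨Z, hZ⟩
      rw [this]
      simp [gf]
  have hsub : E ⊆ ⋃ v ∈ V, {Z | Z ∈ E ∧ dsp A Z = v} := by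
    intro Z hZ
    rw [Set.mem_iUnion₂]
    refine ⟨dsp A Z, ?_, hZ, rfl⟩
    rw [hV, Finset.mem_filter, mem_bl]
    exact ⟨hbox Z hZ, Z, hZ, rfl⟩
  refine (gf_mono hsub).trans ((ENNReal.tsum_biUnion_le wE V _).trans ((Finset.sum_le_sum fun v _ => hone v).trans ?_))
  rw [Finset.sum_const, ← ENNReal.ofReal_nsmul]
  apply ENNReal.ofReal_le_ofReal
  rw [nsmul_eq_mul, le_div_iff₀ hsum]
  have hx : 0 ≤ C * (UU n / n ^ 2) := by
    have := (Num2Aux.UU_pos n).le
    positivity
  calc (V.card : ℝ) * (C * (UU n / n ^ 2)) * ∑ s ∈ range S, (ρ s : ℝ) / R s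
      = (C * (UU n / n ^ 2)) * ((V.card : ℝ) * ∑ s ∈ range S, (ρ s : ℝ) / R s) := by ring
    _ ≤ (C * (UU n / n ^ 2)) * (2 * 10 ^ 9 * ((2 ^ (K + 4) : ℕ) : ℝ) ^ 2) := mul_le_mul_of_nonneg_left hcount hx
    _ = 2 * 10 ^ 9 * 256 * C * 4 ^ K * (UU n / n ^ 2) := by
      push_cast
      rw [show ((2 : ℝ) ^ (K + 4)) ^ 2 = 256 * 4 ^ K by
        rw [pow_add, mul_pow, ← pow_mul, mul_comm K 2, pow_mul]
        norm_num
        ring]
      ring

end SIM

end HexObs
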