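import Pool.Agent.SIM.FirstC

/-!
SIM (no double points), half words (HL): **the mass of the walks whose first fold of the scale kc + 5 is the start of the
walk is at most C^J Ub Xb**; the same with a marked run of small norm at the start.
-/

set_option autoImplicit false

namespace HexObs

namespace SIM

open Finset TS SDN SDN.CN NTm NTW NTA EN

open scoped ENNReal

lemma wnd_pos {kc J n : ℕ} {W : ℕ → Set (List Bool)} {kp : ℕ → ℕ} (hW : Wnd kc J n W kp) {i : ℕ} (hi : i < n) :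
    kc ≤ kp i ∧ kp i ≤ kc + J := ⟨by rw [← hW.zero]; exact hW.mono 0 i (Nat.zero_le i), hW.top i hi⟩

open Classical in
/-- **the first fold is the start, at most lam letters** -/
theorem first_l_of : ∃ (C : ℝ) (k0 : ℕ), 1 ≤ C ∧
    ∀ (kc J lam lam' : ℕ) (R : Set (List (List Bool))) (δ : ℝ), k0 ≤ kc → 6 ≤ J → 0 < δ →
      QL (kc + J + 8) lam' → SmR DmJ kc R δ →
      gf {t | t ∈ SAL lam ∧ t ∈ FirstR kc J R} ≤
        ENNReal.ofReal (C ^ J * δ * Ub (kc + J)) * bl (lam + lam' + 50) (kc + J + 8) := by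
  obtain ⟨V, Kf, k0, hV, hKf, hset⟩ := setup_exists
  obtain ⟨Q, hQ, hfun⟩ := right_norm
  obtain ⟨Kd, hKd, hdom⟩ := dom_end
  obtain ⟨Kc, hKc, hcov⟩ := coverVR
  obtain ⟨c, hc, hc0⟩ := norm_FE0
  obtain ⟨c', hc'⟩ : ∃ c', c' = 2 * Kd * c := ⟨_, rfl⟩
  have hc'1 : 1 ≤ c' := by
    have a1 : 1 ≤ Kd * c := one_le_mul_of_one_le_of_one_le hKd hc
    rw [hc']
    linarith
  have hC1 : 1 ≤ 8 * Kc * Kf * c' * Q ^ (2 * V + 2) := by
    have a1 : 1 ≤ Kc * Kf := one_le_mul_of_one_le_of_one_le hKc hKf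
    have a2 : 1 ≤ Kc * Kf * c' := one_le_mul_of_one_le_of_one_le a1 hc'1
    have a3 : 1 ≤ Q ^ (2 * V + 2) := one_le_pow₀ hQ
    have a4 : 1 ≤ Kc * Kf * c' * Q ^ (2 * V + 2) := one_le_mul_of_one_le_of_one_le a2 a3
    linarith
  refine ⟨8 * Kc * Kf * c' * Q ^ (2 * V + 2), max k0 1, hC1, ?_⟩
  intro kc J lam lam' R δ hkc hJ hδ hQL hS
  have hk0 : k0 ≤ kc := (le_max_left _ _).trans hkc
  have hk1 : 1 ≤ kc := (le_max_right _ _).trans hkc
  have hUL := Ub_pos (kc + J)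
  obtain ⟨B, hB⟩ : ∃ B, B = bl (lam + lam' + 50) (kc + J + 8) := ⟨_, rfl⟩
  obtain ⟨W, kp, idx, hW⟩ := hset kc J lam lam' hk0 hJ hQL
  rw [← hB] at hW ⊢
  by_cases hBt : B = ⊤
  · rw [hBt]
    have h1 : ENNReal.ofReal ((8 * Kc * Kf * c' * Q ^ (2 * V + 2)) ^ J * δ * Ub (kc + J)) ≠ 0 := by
      rw [Ne, ENNReal.ofReal_eq_zero, not_le]
      positivity
    rw [ENNReal.mul_top h1]
    exact le_top
  obtain ⟨b, hb⟩ : ∃ b, b = B.toReal := ⟨_, rfl⟩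
  have hb0 : 0 ≤ b := by rw [hb]; exact ENNReal.toReal_nonneg
  have hBb : B = ENNReal.ofReal b := by rw [hb, ENNReal.ofReal_toReal hBt]
  obtain ⟨n, hn⟩ : ∃ n, n = V * (J + 2) := ⟨_, rfl⟩
  rw [← hn] at hW
  have hn1 : 0 < n := by
    rw [hn]
    exact Nat.mul_pos hV (by omega)
  have hX : ENNReal.ofReal Kf * B = ENNReal.ofReal (Kf * b) := by
    rw [hBb, ENNReal.ofReal_mul (by linarith)]
  rw [hX] at hW
  have hKb0 : 0 ≤ Kf * b := by positivity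
  obtain ⟨M, hM⟩ : ∃ M, M = 100 * 4 ^ (kc + J) := ⟨_, rfl⟩
  obtain ⟨φ, hφ⟩ : ∃ φ : ℕ → List Bool → ℝ≥0∞,
    φ = fun i => FE (2 ^ (kp i + 4)) (2 ^ (kp i + 6)) (lam + 20) := ⟨_, rfl⟩
  obtain ⟨Φ, hΦ⟩ : ∃ Φ : ℕ → ℕ → List Bool → ℝ≥0∞, Φ = fun i _ g => φ i g := ⟨_, rfl⟩
  obtain ⟨Ψ, hΨ⟩ : ∃ Ψ : ℕ → List Bool → ℝ≥0∞, Ψ = Z0 (FE (2 ^ (kc + 4)) 0 (lam + 20)) := ⟨_, rfl⟩
  obtain ⟨X, hXd⟩ : ∃ X : List Bool → ℝ≥0∞, X = Rx W kp n φ M 0 := ⟨_, rfl⟩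
  have hdm : ∀ i, i < n → DmJ (kp i) (ENNReal.ofReal (Kf * b)) (φ i) := fun i hi => by
    rw [hφ]
    exact hW.dmi i hi
  have hφ0 : DmJ kc (ENNReal.ofReal (Kf * b)) (φ 0) := by
    have h1 := hdm 0 hn1
    rwa [hW.wnd.zero] at h1
  -- the right functional
  have hXn : xT (2 ^ (kc + 4)) kc X ≤ ENNReal.ofReal (Q ^ (n + (J + 2) + 1) * (Kd * (Kf * b))) := by
    rw [hXd]
    exact hfun kc (J + 2) n W kp (Kd * (Kf * b)) φ hW.wnd (by positivity) (fun i i' h1 h2 =>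
      hdom kc (J + 2) n W kp hW.wnd (Kf * b) i i' (kp i') (φ i') hKb0 h1 h2 le_rfl (dmP.dom _ _ _ (hdm i' h2))) M
  have hXh : HerD (2 ^ (kc + 4)) X := by
    have := QF.herD_Rx (W := W) (kp := kp) (n := n) (Φ := φ) M 0
    rw [hW.wnd.zero] at this
    rw [hXd]
    exact this
  have hXD : DmJ kc (xT (2 ^ (kc + 4)) kc X) X := dmP.dm kc _ hXh
  have hR' : SmR DmJ kc (RBx kc J R) δ := SmR_mono (fun gs h => h.1) hS
  have hQn : 1 ≤ Q ^ (n + (J + 2) + 1) := one_le_pow₀ hQ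
  obtain ⟨y, hy⟩ : ∃ y : ℝ, y = Q ^ (n + (J + 2) + 1) * (2 * Kd * (Kf * b)) := ⟨_, rfl⟩
  have hy0 : 0 ≤ y := by rw [hy]; positivity
  have hfree : Rec8.sw (HB (2 ^ (kc + 4))) (fun g => FE (2 ^ (kc + 4)) 0 (lam + 20) (rev g) *
      runF (RBx kc J R) (fun s => φ 0 s + X s) g) ≤ ENNReal.ofReal (δ * Ub kc * (c * y)) := by
    have e1 : ∀ g, FE (2 ^ (kc + 4)) 0 (lam + 20) (rev g) * runF (RBx kc J R) (fun s => φ 0 s + X s) g =
        FE (2 ^ (kc + 4)) 0 (lam + 20) (rev g) * runF (RBx kc J R) (φ 0) g +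
          FE (2 ^ (kc + 4)) 0 (lam + 20) (rev g) * runF (RBx kc J R) X g := fun g => by
      rw [runF_add, mul_add]
    simp only [e1]
    rw [Rec8.sw_add]
    refine (add_le_add (hR'.free _ _ _ _ (hc0 kc (lam + 20)).2.2.1 (hc0 kc (lam + 20)).2.2.2 hφ0)
      ((hR'.free _ _ _ _ (hc0 kc (lam + 20)).2.2.1 (hc0 kc (lam + 20)).2.2.2 hXD).trans
        (mul_le_mul_right (mul_le_mul_right hXn _) _))).trans ?_
    have hUk := Ub_pos kc
    have hc00 : 0 ≤ c := by linarith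
    have hKd0 : 0 ≤ Kd := by linarith
    rw [← mul_add, ← mul_add, ← ENNReal.ofReal_add hKb0 (by positivity), ← ENNReal.ofReal_mul hc00,
      ← ENNReal.ofReal_mul (by positivity)]
    apply ENNReal.ofReal_le_ofReal
    rw [hy]
    have h5 : Kf * b + Q ^ (n + (J + 2) + 1) * (Kd * (Kf * b)) ≤ Q ^ (n + (J + 2) + 1) * (2 * Kd * (Kf * b)) := by
      have a1 : Kf * b ≤ Q ^ (n + (J + 2) + 1) * (Kd * (Kf * b)) := by
        calc Kf * b = 1 * (1 * (Kf * b)) := by ring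
          _ ≤ Q ^ (n + (J + 2) + 1) * (Kd * (Kf * b)) := by gcongr
      nlinarith
    gcongr
  have hrb : EN.OU.RB (2 ^ (kc + 4)) (EN.OU.PI W n M Φ) (fun _ s => φ 0 s + X s) := by
    intro g e N hg
    refine (EN.OU.rb_PI hW.wnd M Φ g e N hg).trans ?_
    rw [hΦ, hXd]
    exact add_le_add le_rfl (Rg_le_Rx W kp n φ M 0 N g)
  have hRH : ∀ gs ∈ RBx kc J R, ∀ g ∈ gs, g ∈ HB (2 ^ (kc + 4)) := fun gs hgs g hg =>
    (NTW.EX.Brd_HB le_rfl (hgs.2 g hg)).1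
  let A : Bool → Set (List Bool) := fun a => {t | t ∈ SAL lam ∧ ∃ (r u : ℕ) (E : ℕ → ℕ),
    1 ≤ r ∧ FoldG t r u E ∧
      (∀ i, i < E 0 → Tight.sg u (lev t i) - Tight.sg u (lev t (E 0)) ≤ 3 * ((fun _ : ℕ => 0) (RG t u E 0).toNat : ℕ)) ∧
      (∀ i, E r < i → i ≤ t.length → Tight.sg (u + (r - 1)) (lev t (E r)) - Tight.sg (u + (r - 1)) (lev t i) ≤
        3 * (fE kc a (RG t u E (r - 1)).toNat : ℕ)) ∧
      ∀ gs, RepG t r u E gs → ChF M (RBx kc J R) (EN.OU.PI W n M Φ) Ψ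
        (fun gs c => Z0 (EE0 0 lam) c (rev (gs.headD [])))
        (fun gs _ => EE0 (fE kc a (3 * hgt (gs.getLastD []) + 8)) lam (gs.getLastD [])) gs}
  have h2 : gf {t | t ∈ SAL lam ∧ t ∈ FirstR kc J R} ≤
      2 * (ENNReal.ofReal Kc * ENNReal.ofReal (δ * Ub kc * (c * y))) := by
    refine gf_two (A' := A) ?_ ?_
    · rintro t ⟨ht2, ht3⟩
      obtain ⟨a, r, u, E, b1, b2, b3, b4, b5⟩ := first_class (Φ := Φ) (Ψ := Ψ) hk1 hW.mono hW.mem ht3
        (fun c g => Z0 (EE0 0 lam) c g) (fun N _ g => EE0 N lam g)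
        (fun g hg q => by
          rw [hΨ]
          unfold Z0
          split_ifs
          · exact (hW.e2 (rev g) (rev_box hg)).2
          · exact le_rfl)
        (fun g hg q => by
          rw [hΦ, hφ]
          simp only [hW.wnd.zero]
          exact (hW.e0 g hg (2 ^ (kc + 5)) (Nat.pow_le_pow_right (by norm_num) (by omega))).2)
        (fun g hg q => by
          rw [hΦ, hφ]
          exact (hW.e1 g hg).2)
      rw [← hM] at b5
      exact ⟨a, ht2, r, u, E, b1, b2, b3, b4, b5⟩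
    · intro a
      refine (hcov (A a) (fun _ => 0) (fE kc a) lam (fun gs => ChF M (RBx kc J R) (EN.OU.PI W n M Φ) Ψ
        (fun gs c => Z0 (EE0 0 lam) c (rev (gs.headD [])))
        (fun gs _ => EE0 (fE kc a (3 * hgt (gs.getLastD []) + 8)) lam (gs.getLastD [])) gs) monotone_const (fE_mono kc a)
        ?_).trans (mul_le_mul_right ?_ _)
      · rintro t ⟨ht2, r, u, E, b1, b2, b3, b4, b5⟩
        exact ⟨ht2, r, u, E, b1, b2, b3, b4, b5⟩
      · refine sum_lim fun N => ?_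
        have m1 := EN.OU.massA (M := M) hrb hRH Ψ (fun gs c => Z0 (EE0 0 lam) c (rev (gs.headD [])))
          (fun gs _ => EE0 (fE kc a (3 * hgt (gs.getLastD []) + 8)) lam (gs.getLastD [])) (fun _ _ => rfl) N
        refine le_trans (ENNReal.tsum_le_tsum fun gs => ?_) (m1.trans (le_trans (Rec8.sw_mono' fun g _ => ?_) hfree))
        · by_cases hcc : gs ≠ [] ∧ gs.IsChain LFold ∧ (∀ g ∈ gs, ∃ k : ℕ, 1 ≤ k ∧ g ∈ Brd k) ∧
            ChF M (RBx kc J R) (EN.OU.PI W n M Φ) Ψ (fun gs c => Z0 (EE0 0 lam) c (rev (gs.headD [])))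
              (fun gs _ => EE0 (fE kc a (3 * hgt (gs.getLastD []) + 8)) lam (gs.getLastD [])) gs
          · rw [if_pos hcc, if_pos ⟨hcc.2.2.2.1, hcc.2.1, hcc.2.2.2.2⟩]
            rfl
          · rw [if_neg hcc]
            exact zero_le
        · rw [hΨ, sum_Z0 _ _ (fun m => sh (runG (RBx kc J R) (fun _ s => φ 0 s + X s)) m g)]
          refine mul_le_mul_right (sh_le (fun m => runG_le_runF (F := fun _ s => φ 0 s + X s)
            (Φ := fun s => φ 0 s + X s) (fun _ _ => le_rfl) m g) N) _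
  refine h2.trans ?_
  have e2 : (2 : ℝ≥0∞) = ENNReal.ofReal 2 := by simp
  rw [e2, hBb, ← ENNReal.ofReal_mul (by linarith), ← ENNReal.ofReal_mul (by norm_num),
    ← ENNReal.ofReal_mul (by positivity)]
  refine ENNReal.ofReal_le_ofReal (le_trans (le_of_eq ?_) (half_num (U' := Ub kc) hQ hKc hKf hc'1 hδ.le hb0 hUL.le
    (Ub_pos _).le ?_ hn hJ))
  · rw [hy, hc']
    ring
  · have h3 : Ub kc ≤ Ub (kc + J) := Ub_mono (by omega)
    linarith

/-- **half words with a marked run at the start** -/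
theorem first_l : ∃ (C : ℝ) (k0 : ℕ), 1 ≤ C ∧
    ∀ (kc J : ℕ) (R : Set (List (List Bool))) (δ : ℝ), k0 ≤ kc → 6 ≤ J → 0 < δ → SmR DmJ kc R δ →
      gf (FirstR kc J R) ≤ ENNReal.ofReal (C ^ J * δ * Ub (kc + J)) * Xb (kc + J) := by
  obtain ⟨C0, k0, hC0, h0⟩ := first_l_of
  obtain ⟨D, hD, hDX⟩ := Xb_pow
  refine ⟨C0 * D ^ 8, k0, one_le_mul_of_one_le_of_one_le hC0 (one_le_pow₀ hD), fun kc J R δ hk hJ hδ hS => ?_⟩
  obtain ⟨lam', hQ⟩ := QL_exists (kc + J + 8)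
  refine half_up hC0 hD hδ.le (Ub_pos _).le hJ (bl_le_Xb _ _) (hDX (kc + J) 8)
    (le_trans (gf_mono fun t ht => ?_) (h0 kc J (100 * 4 ^ (kc + J)) lam' R δ hk hJ hδ hQ hS))
  exact ⟨⟨ht.1.1, WL_length ht.1⟩, ht⟩

/-- walks of the box whose first fold of the scale b is their start -/
def FirstF (b K : ℕ) : Set (List Bool) :=
  {t | t ∈ WL K ∧ ∃ (m u : ℕ) (e : ℕ → ℕ), Fd b t m u e ∧ e 0 = 0}

lemma first_sub (kc J : ℕ) : FirstF (kc + 5) (kc + J) ⊆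
    FirstR kc J (One (BrR (2 ^ (kc + 4)) (2 ^ (kc + J + 2)))) := by
  rintro t ⟨ht, m, u, e, hF, he⟩
  refine ⟨ht, m, u, e, hF, he, 1, le_rfl, hF.1, fun ms hms _ _ _ hB => ?_⟩
  obtain ⟨g, rfl⟩ := List.length_eq_one_iff.1 hms
  exact ⟨g, hB g List.mem_cons_self, rfl⟩

/-- **(HL): the mass of the walks whose first fold of the scale kc + 5 is their start** -/
theorem half_first : ∃ (C : ℝ) (k0 : ℕ), 1 ≤ C ∧ ∀ kc J : ℕ, k0 ≤ kc → 6 ≤ J →
    gf (FirstF (kc + 5) (kc + J)) ≤ ENNReal.ofReal (C ^ J * Ub (kc + J)) * Xb (kc + J) := by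
  obtain ⟨C, k0, hC, h0⟩ := first_l
  obtain ⟨K, hK, hbox⟩ := smD_box
  have hK2 : 1 ≤ 2 * K := by linarith
  refine ⟨C * (2 * K), k0, one_le_mul_of_one_le_of_one_le hC hK2, fun kc J hk hJ => ?_⟩
  have hU := Ub_pos (kc + J)
  refine (gf_mono (first_sub kc J)).trans ((h0 kc J _ (K * 2 ^ J) hk hJ (by positivity) (smR_one (hbox kc J))).trans ?_)
  refine mul_le_mul_left (ENNReal.ofReal_le_ofReal ?_) _
  have h1 : K * 2 ^ J ≤ (2 * K) ^ J := by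
    rw [mul_pow]
    have : K ≤ K ^ J := by
      calc K = K ^ 1 := (pow_one _).symm
        _ ≤ _ := pow_le_pow_right₀ hK (by omega)
    nlinarith [show (0 : ℝ) < 2 ^ J by positivity]
  have hC0 : 0 ≤ C := by linarith
  calc C ^ J * (K * 2 ^ J) * Ub (kc + J) ≤ C ^ J * (2 * K) ^ J * Ub (kc + J) := by gcongr
    _ = (C * (2 * K)) ^ J * Ub (kc + J) := by rw [← mul_pow]

end SIM

end HexObs
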