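import Pool.Agent.SIM.TopCut

/-!
SIM (the weak limits are simple curves): a word that ends at an extremum has its last fold at its end, a word that starts
with a leaf has its first fold at its start.
-/

set_option autoImplicit false

namespace HexObs

namespace SIM

open Finset TS SDN NTW

lemma sg_add_cases (a : ℕ) (y : ℤ) : Tight.sg a y = y ∨ Tight.sg a y = -y := by
  unfold Tight.sg
  split_ifs
  · exact Or.inr rfl
  · exact Or.inl rfl

lemma sg_par (a b : ℕ) : (∀ y : ℤ, Tight.sg a y = Tight.sg b y) ∨ ∀ y : ℤ, Tight.sg a y = -Tight.sg b y := by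
  unfold Tight.sg
  by_cases ha : Even a
  · by_cases hb : Even b
    · exact Or.inl fun y => by rw [if_pos ha, if_pos hb]
    · exact Or.inr fun y => by rw [if_pos ha, if_neg hb]
  · by_cases hb : Even b
    · exact Or.inr fun y => by rw [if_neg ha, if_pos hb, neg_neg]
    · exact Or.inl fun y => by rw [if_neg ha, if_neg hb]

lemma sg_lt_of {a : ℕ} {x y R : ℤ} (h1 : x - y < R) (h2 : y - x < R) : Tight.sg a x - Tight.sg a y < R := by
  unfold Tight.sg
  split_ifs <;> omega

/-- **the last fold of a word of TopE is its end** -/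
theorem last_of_topE {b K : ℕ} {t : List Bool} (h : t ∈ TopE b K) {m u : ℕ} {e : ℕ → ℕ} (hF : Fd b t m u e) :
    e m = t.length := by
  obtain ⟨-, s, a, ha, hR, hmax, hmin⟩ := h
  obtain ⟨hm, hG, hbig, hsm, hst, hfin⟩ := hF
  by_contra hne
  have hle := hG.le
  have hlt : e m < t.length := by omega
  -- a is before the last fold
  have hae : a < e m := by
    by_contra hn
    have a1 := hfin t.length a (by omega) le_rfl (by omega) ha.le
    have a2 := hfin a t.length (by omega) ha.le (by omega) le_rfl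
    have := sg_lt_of (a := s) a1 a2
    omega
  have hm1 := hmax (e m) hae.le hle
  have hf1 := hG.fin t.length hlt le_rfl
  have b1 := hfin t.length (e m) hle le_rfl le_rfl hle
  have b2 := hfin (e m) t.length le_rfl hle hle le_rfl
  have b3 := sg_lt_of (a := s) b1 b2
  rcases sg_par (u + (m - 1)) s with hsg | hsg
  · rw [hsg, hsg] at hf1
    omega
  · have hmin1 := hmin (e m) hae hle
    obtain ⟨l, rfl⟩ : ∃ l, m = l + 1 := ⟨m - 1, by omega⟩
    rw [Nat.add_sub_cancel] at hsg hf1
    have hbg := hbig l (by omega)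
    rw [hsg, hsg] at hbg
    rcases Nat.lt_or_ge a (e l) with h1 | h1
    · have hlt1 := hG.lt l (by omega)
      have h2 := hmax (e l) h1.le (by omega)
      omega
    · have h2 := hG.hi l (by omega) a h1 hae.le
      rw [hsg, hsg] at h2
      omega

/-- **the first fold of a word of BotS is its start** -/
theorem first_of_botS {b K : ℕ} {t : List Bool} (hb : 1 ≤ b) (h : t ∈ BotS b K) {m u : ℕ} {e : ℕ → ℕ}
    (hF : Fd b t m u e) : e 0 = 0 := by
  obtain ⟨-, a, ha, hR, hpos⟩ := h
  obtain ⟨hm, hG, hbig, hsm, hst, hfin⟩ := hF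
  by_contra hne
  have h0 := lev_zero t
  have hR4 := RR_ge hb
  have hea : e 0 < a := by
    by_contra hn
    have a1 := hst a 0 (by omega) (by omega)
    omega
  have hp := hpos (e 0) (by omega) hea.le
  have hbeg := hG.beg 0 (by omega)
  have hs := hst (e 0) 0 le_rfl (by omega)
  rcases sg_par u 1 with hsg | hsg
  · rw [hsg, hsg, Tight.sg_one, Tight.sg_one] at hbeg
    omega
  · have hbg := hbig 0 (by omega)
    simp only [Nat.add_zero, Nat.zero_add] at hbg
    rw [hsg, hsg, Tight.sg_one, Tight.sg_one] at hbg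
    have hlt1 := hG.lt 0 (by omega)
    simp only [Nat.zero_add] at hlt1
    have ha1 : a < e 1 := by
      by_contra hn
      have := hpos (e 1) (by omega) (by omega)
      omega
    have h2 := hG.lo0 a hea.le ha1.le
    rw [hsg, hsg, Tight.sg_one, Tight.sg_one] at h2
    omega

theorem fd_topE {b K : ℕ} (hb : 1 ≤ b) {t : List Bool} (h : t ∈ TopE b K) : ∃ m u e, Fd b t m u e := by
  rcases fd_exists hb h.1.1 with h1 | h1
  · exfalso
    obtain ⟨-, s, a, ha, hR, -⟩ := h
    have := sg_lt_of (a := s) (h1 t.length a le_rfl ha.le) (h1 a t.length ha.le le_rfl)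
    omega
  · exact h1

theorem fd_botS {b K : ℕ} (hb : 1 ≤ b) {t : List Bool} (h : t ∈ BotS b K) : ∃ m u e, Fd b t m u e := by
  rcases fd_exists hb h.1.1 with h1 | h1
  · exfalso
    obtain ⟨-, a, ha, hR, -⟩ := h
    have := h1 a 0 ha (by omega)
    rw [lev_zero] at this
    omega
  · exact h1

/-- **TopE: walks whose last fold is their end** -/
theorem topE_sub {b K : ℕ} (hb : 1 ≤ b) : TopE b K ⊆ {t | t ∈ WL K ∧ ∃ m u e, Fd b t m u e ∧ e m = t.length} := by
  intro t ht
  obtain ⟨m, u, e, h⟩ := fd_topE hb ht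
  exact ⟨ht.1, m, u, e, h, last_of_topE ht h⟩

/-- **BotS: walks whose first fold is their start** -/
theorem botS_sub {b K : ℕ} (hb : 1 ≤ b) : BotS b K ⊆ {t | t ∈ WL K ∧ ∃ m u e, Fd b t m u e ∧ e 0 = 0} := by
  intro t ht
  obtain ⟨m, u, e, h⟩ := fd_botS hb ht
  exact ⟨ht.1, m, u, e, h, first_of_botS hb ht h⟩

/-- **both ends** (K and K' need not be equal) -/
theorem topE_botS {b K K' : ℕ} (hb : 1 ≤ b) {t : List Bool} (h1 : t ∈ TopE b K) (h2 : t ∈ BotS b K') :
    ∃ m u e, Fd b t m u e ∧ e 0 = 0 ∧ e m = t.length := by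
  obtain ⟨m, u, e, h⟩ := fd_topE hb h1
  exact ⟨m, u, e, h, first_of_botS hb h2 h, last_of_topE h1 h⟩

end SIM

end HexObs
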