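import Pool.Agent.SIM.Grid
import Pool.Agent.HexObs.Cut

/-!
SIM: the crossing lemma on the hexagonal lattice: a path that crosses a box from the bottom to the top (levels ip v up)
meets a path that crosses it laterally (first coordinate).
-/

set_option autoImplicit false

namespace HexObs

namespace SIM

open Finset

/-- the level of a vertex: multiples of 3 for the class 0, 2 mod 3 for the class -1 -/
def lv (p : Pt) : ℤ := 2 * p.2 + p.1

/-- neighbours in the hexagonal lattice -/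
def HN (a b : Pt) : Prop :=
  (3 ∣ lv a ∧ (b = a + (0, 1) ∨ b = a + (-1, 0) ∨ b = a + (1, -1))) ∨
  (3 ∣ lv b ∧ (a = b + (0, 1) ∨ a = b + (-1, 0) ∨ a = b + (1, -1)))

lemma HN.symm {a b : Pt} (h : HN a b) : HN b a := Or.symm h

/-- vertices of the hexagonal lattice -/
def HV (a : Pt) : Prop := 3 ∣ lv a ∨ 3 ∣ lv a + 1

lemma HN.left {a b : Pt} (h : HN a b) : HV a := by
  obtain ⟨a1, a2⟩ := a
  obtain ⟨b1, b2⟩ := b
  simp only [HN, HV, lv, Prod.mk_add_mk, Prod.mk.injEq] at *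
  omega

lemma HN.right {a b : Pt} (h : HN a b) : HV b := h.symm.left

/-- the brick wall -/
def bw (p : Pt) : ℤ × ℤ := ((lv p + 1) / 3, p.1)

lemma bw_nb {a b : Pt} (h : HN a b) : Nb (bw a) (bw b) := by
  obtain ⟨a1, a2⟩ := a
  obtain ⟨b1, b2⟩ := b
  simp only [HN, Nb, bw, lv, Prod.mk_add_mk, Prod.mk.injEq] at *
  omega

lemma bw_inj {a b : Pt} (ha : HV a) (hb : HV b) (h : bw a = bw b) : a = b := by
  obtain ⟨a1, a2⟩ := a
  obtain ⟨b1, b2⟩ := b
  simp only [HV, bw, lv, Prod.mk.injEq] at *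
  omega

/-- **the crossing lemma** -/
theorem hex_cross {P Q : ℕ → Pt} {n m : ℕ} (hP : ∀ i < n, HN (P i) (P (i + 1))) (hQ : ∀ j < m, HN (Q j) (Q (j + 1)))
    (hn : 1 ≤ n) (hm : 1 ≤ m) (hlo : ∀ j ≤ m, lv (P 0) + 3 ≤ lv (Q j)) (hhi : ∀ j ≤ m, lv (Q j) + 3 ≤ lv (P n))
    (hl : ∀ i ≤ n, (Q 0).1 ≤ (P i).1) (hr : ∀ i ≤ n, (P i).1 < (Q m).1) : ∃ i ≤ n, ∃ j ≤ m, P i = Q j := by
  obtain ⟨i, hi, j, hj, h⟩ := grid_cross (P := fun i => bw (P i)) (Q := fun j => bw (Q j)) (n := n) (m := m)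
    (fun i hi => bw_nb (hP i hi)) (fun j hj => bw_nb (hQ j hj))
    (fun j hj => by
      have := hlo j hj
      show (lv (P 0) + 1) / 3 < (lv (Q j) + 1) / 3
      omega)
    (fun j hj => by
      have := hhi j hj
      show (lv (Q j) + 1) / 3 < (lv (P n) + 1) / 3
      omega) (fun i hi => hl i hi) (fun i hi => hr i hi)
  refine ⟨i, hi, j, hj, bw_inj ?_ ?_ h⟩
  · rcases Nat.lt_or_ge i n with h1 | h1
    · exact (hP i h1).left
    · have e : i = n - 1 + 1 := by omega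
      rw [e]
      exact (hP (n - 1) (by omega)).right
  · rcases Nat.lt_or_ge j m with h1 | h1
    · exact (hQ j h1).left
    · have e : j = m - 1 + 1 := by omega
      rw [e]
      exact (hQ (m - 1) (by omega)).right

/-- the steps of a word are steps of the hexagonal lattice -/
lemma HN_of_dirs {a d : Pt} (hd : d ∈ dirs) (h : (cl a = 0 ∧ cl (a + d) = -1) ∨ (cl a = -1 ∧ cl (a + d) = 0)) :
    HN a (a + d) := by
  have h3 : ∀ p : Pt, cl p = 0 → 3 ∣ lv p := by
    intro p hp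
    unfold cl at hp
    rw [ZMod.intCast_zmod_eq_zero_iff_dvd] at hp
    unfold lv
    have h1 : (3 : ℤ) ∣ p.1 - p.2 := by exact_mod_cast hp
    omega
  rcases h with ⟨h1, h2⟩ | ⟨h1, h2⟩
  · left
    refine ⟨h3 a h1, ?_⟩
    rw [cl_add, h1, zero_add] at h2
    have key : ∀ d ∈ dirs, cl d = -1 → d = (0, 1) ∨ d = (-1, 0) ∨ d = (1, -1) := by decide
    rcases key d hd h2 with rfl | rfl | rfl
    · exact Or.inl rfl
    · exact Or.inr (Or.inl rfl)
    · exact Or.inr (Or.inr rfl)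
  · right
    refine ⟨h3 _ h2, ?_⟩
    rw [cl_add, h1] at h2
    have h4 : cl d = 1 := by
      have : cl d = (-1 + cl d) + 1 := by ring
      rw [this, h2, zero_add]
    have key : ∀ d ∈ dirs, cl d = 1 → -d = (0, 1) ∨ -d = (-1, 0) ∨ -d = (1, -1) := by decide
    rcases key d hd h4 with e | e | e
    · left
      rw [← e]
      simp
    · right; left
      rw [← e]
      simp
    · right; right
      rw [← e]
      simp

/-- the steps of a walk -/
theorem HN_vx {v0 d0 : Pt} (hd : d0 ∈ dirs) (h : (cl v0 = 0 ∧ cl d0 = -1) ∨ (cl v0 = -1 ∧ cl d0 = 1)) (t : List Bool)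
    (i : ℕ) : HN (vx v0 d0 t i) (vx v0 d0 t (i + 1)) := by
  rw [vx_succ]
  refine HN_of_dirs (dx_mem hd t i) ?_
  rw [cl_add, cl_vx, cl_dx]
  have h2 : (-1 : ZMod 3) + 1 = 0 := by decide
  have h3 : (0 : ZMod 3) + -1 + 1 = 0 := by decide
  by_cases hi : Even i
  · rw [if_pos hi, if_pos hi]
    rcases h with ⟨h1, h4⟩ | ⟨h1, h4⟩
    · left
      rw [h1, h4]
      exact ⟨rfl, zero_add _⟩
    · right
      rw [h1, h4]
      exact ⟨rfl, h2⟩
  · rw [if_neg hi, if_neg hi]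
    rcases h with ⟨h1, h4⟩ | ⟨h1, h4⟩
    · right
      rw [h1, h4]
      exact ⟨zero_add _, by decide⟩
    · left
      rw [h1, h4]
      exact ⟨h2, by decide⟩

end SIM

end HexObs
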