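import Pool.Agent.SIM.TopFd
import Pool.Agent.SDN.AltLe

/-!
SIM (the weak limits are simple curves): one weak structure for the two kinds of folds (Hyst and Fd); the top fold of a far
excursion; the number of folds is at least the number of alternating displacements; the cuts of one leaf.
-/

set_option autoImplicit false

namespace HexObs

namespace SIM

open Finset TS SDN NTW

/-- folds of the sequence f on [0, n] with hysteresis R, weak form common to Hyst and Fd -/
structure HW (f : ℕ → ℤ) (n : ℕ) (R : ℤ) (m u : ℕ) (e : ℕ → ℕ) : Prop where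
  lt : ∀ j, j < m → e j < e (j + 1)
  le : e m ≤ n
  lo : ∀ j, j < m → ∀ i, e j ≤ i → i ≤ e (j + 1) → Tight.sg (u + j) (f (e j)) ≤ Tight.sg (u + j) (f i)
  hi : ∀ j, j < m → ∀ i, e j ≤ i → i ≤ e (j + 1) → Tight.sg (u + j) (f i) ≤ Tight.sg (u + j) (f (e (j + 1)))
  big : ∀ j, j < m → R ≤ Tight.sg (u + j) (f (e (j + 1))) - Tight.sg (u + j) (f (e j))
  small : ∀ j, j < m → ∀ i i', e j ≤ i → i ≤ i' → i' ≤ e (j + 1) → Tight.sg (u + j) (f i) - Tight.sg (u + j) (f i') < R
  start : ∀ i i', i ≤ e 0 → i' ≤ e 0 → f i - f i' < R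
  fin : ∀ i i', e m ≤ i → i ≤ n → e m ≤ i' → i' ≤ n → f i - f i' < R

lemma HW.of_hyst {f : ℕ → ℤ} {n : ℕ} {R : ℤ} {m u : ℕ} {e : ℕ → ℕ} (h : Hyst f n R m u e) : HW f n R m u e := by
  refine ⟨h.lt, h.le, ?_, h.hi, h.big, h.small, h.start, h.fin⟩
  intro j hj i i1 i2
  rcases Nat.lt_or_ge (e j) i with h3 | h3
  · exact (h.lo j hj i h3 i2).le
  · have : i = e j := by omega
    rw [this]

lemma HW.of_fd {b m u : ℕ} {t : List Bool} {e : ℕ → ℕ} (h : Fd b t m u e) : HW (lev t) t.length (RR b) m u e := by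
  obtain ⟨hm, hG, hbig, hsm, hst, hfin⟩ := h
  refine ⟨hG.lt, hG.le, ?_, hG.hi, hbig, hsm, hst, hfin⟩
  intro j hj i i1 i2
  rcases Nat.lt_or_ge (e j) i with h3 | h3
  · rcases Nat.eq_zero_or_pos j with h4 | h4
    · subst h4
      have := hG.lo0 i i1 (by simpa using i2)
      simpa using this
    · exact (hG.lo j h4 hj i h3 i2).le
  · have : i = e j := by omega
    rw [this]

lemma HW.of_lf {b m u : ℕ} {t : List Bool} {e : ℕ → ℕ} (h : Lf false b t m u e) :
    HW (lev t) t.length (RR b) m u e := HW.of_hyst h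

section HW

variable {f : ℕ → ℤ} {n : ℕ} {R : ℤ} {m u : ℕ} {e : ℕ → ℕ}

lemma HW.mono (h : HW f n R m u e) {j k : ℕ} (hjk : j ≤ k) (hk : k ≤ m) : e j ≤ e k := by
  induction k, hjk using Nat.le_induction with
  | base => exact le_rfl
  | succ k hjk ih => exact (ih (by omega)).trans (h.lt k (by omega)).le

lemma HW.start_sg (h : HW f n R m u e) (w : ℕ) {x y : ℕ} (hx : x ≤ e 0) (hy : y ≤ e 0) :
    Tight.sg w (f y) - Tight.sg w (f x) < R :=
  sg_lt_of (h.start y x hy hx) (h.start x y hx hy)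

lemma HW.fin_sg (h : HW f n R m u e) (w : ℕ) {x y : ℕ} (hx : e m ≤ x) (hx' : x ≤ n) (hy : e m ≤ y) (hy' : y ≤ n) :
    Tight.sg w (f y) - Tight.sg w (f x) < R :=
  sg_lt_of (h.fin y x hy hy' hx hx') (h.fin x y hx hx' hy hy')

/-- the top fold between i and j; it is not the last fold -/
theorem HW.top (h : HW f n R m u e) {i x j s : ℕ} (hix : i ≤ x) (hxj : x ≤ j) (hj : j ≤ n)
    (h1 : R ≤ Tight.sg s (f x) - Tight.sg s (f i)) (h2 : R ≤ Tight.sg s (f x) - Tight.sg s (f j)) :
    ∃ l, l + 2 ≤ m ∧ (∀ y : ℤ, Tight.sg (u + l) y = Tight.sg s y) ∧ i ≤ e (l + 1) ∧ e (l + 1) ≤ j ∧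
      Tight.sg s (f x) ≤ Tight.sg s (f (e (l + 1))) := by
  have hx0 : e 0 < x := by
    by_contra hn
    have := h.start_sg s (x := i) (y := x) (by omega) (by omega)
    omega
  have hx1 : x < e m := by
    by_contra hn
    have := h.fin_sg s (x := j) (y := x) (by omega) hj (by omega) (by omega)
    omega
  obtain ⟨q, q1, q2, q3⟩ : ∃ q, q < m ∧ e q ≤ x ∧ x < e (q + 1) := by
    by_contra hn
    have : ∀ q, q ≤ m → e q ≤ x := by
      intro q
      induction q with
      | zero => intro _; exact hx0.le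
      | succ q ih =>
        intro hq
        have h3 := ih (by omega)
        by_contra h4
        exact hn ⟨q, by omega, h3, by omega⟩
    have := this m le_rfl
    omega
  have hhi := h.hi q q1 x q2 q3.le
  have hlo := h.lo q q1 x q2 q3.le
  rcases sg_par (u + q) s with hsg | hsg
  · rw [hsg, hsg] at hhi
    have hqj : e (q + 1) ≤ j := by
      by_contra hn
      have h3 := h.small q q1 x j q2 hxj (by omega)
      rw [hsg, hsg] at h3
      omega
    refine ⟨q, ?_, hsg, by omega, hqj, hhi⟩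
    by_contra hn
    have h4 : q + 1 = m := by omega
    rw [h4] at hqj hhi
    have := h.fin_sg s (x := j) (y := e m) hqj hj le_rfl (by omega)
    omega
  · rw [hsg, hsg] at hlo
    have hi' : i ≤ e q := by
      by_contra hn
      have h3 := h.small q q1 i x (by omega) hix q3.le
      rw [hsg, hsg] at h3
      omega
    rcases Nat.eq_zero_or_pos q with hq0 | hq0
    · exfalso
      subst hq0
      have := h.start_sg s (x := i) (y := e 0) hi' le_rfl
      omega
    · obtain ⟨l, rfl⟩ : ∃ l, q = l + 1 := ⟨q - 1, by omega⟩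
      refine ⟨l, by omega, ?_, hi', by omega, by omega⟩
      intro y
      have h3 := hsg y
      rw [← add_assoc, Tight.sg_succ] at h3
      omega

/-- a displacement of at least R meets a piece of its direction -/
lemma HW.meet (h : HW f n R m u e) (hm : 1 ≤ m) {w x y : ℕ} (hxy : x < y) (hy : y ≤ n)
    (hd : R ≤ Tight.sg w (f y) - Tight.sg w (f x)) :
    ∃ j, j < m ∧ (Even (u + j) ↔ Even w) ∧ e j < y ∧ x < e (j + 1) := by
  classical
  have h0 : e 0 < y := by
    by_contra hc
    have := h.start_sg w (x := x) (y := y) (by omega) (by omega)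
    omega
  obtain ⟨j, hj1, hj2, hj3⟩ : ∃ j, j ≤ m ∧ e j < y ∧ ∀ l, j < l → l ≤ m → y ≤ e l := by
    refine ⟨Nat.findGreatest (fun j => e j < y) m, Nat.findGreatest_le m, ?_, ?_⟩
    · exact Nat.findGreatest_spec (P := fun j => e j < y) (Nat.zero_le m) h0
    · intro l hl hlm
      have := Nat.findGreatest_is_greatest (P := fun j => e j < y) hl hlm
      omega
  have adj : ∀ j, ¬ (Even (u + (j + 1)) ↔ Even w) → (Even (u + j) ↔ Even w) := by
    intro j hne
    rw [← add_assoc, Nat.even_add_one] at hne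
    tauto
  rcases Nat.lt_or_ge j m with hjm | hjm
  · have hy1 := hj3 (j + 1) (by omega) (by omega)
    by_cases hs : (Even (u + j) ↔ Even w)
    · exact ⟨j, hjm, hs, hj2, by omega⟩
    · have hsg : ∀ z, Tight.sg w z = -Tight.sg (u + j) z := fun z => by rw [sg_opp hs z, neg_neg]
      rw [hsg, hsg] at hd
      have hx : x < e j := by
        by_contra hc
        have := h.small j hjm x y (by omega) (by omega) hy1
        omega
      rcases Nat.eq_zero_or_pos j with hj0 | hj0
      · exfalso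
        subst hj0
        have a1 := h.lo 0 hm y hj2.le hy1
        have a2 := h.start_sg (u + 0) (x := e 0) (y := x) le_rfl (by omega)
        omega
      · obtain ⟨j', rfl⟩ : ∃ j', j = j' + 1 := ⟨j - 1, by omega⟩
        have a1 := h.lt j' (by omega)
        exact ⟨j', by omega, adj j' hs, by omega, hx⟩
  · have hj : j = m := by omega
    subst hj
    obtain ⟨l, rfl⟩ : ∃ l, j = l + 1 := ⟨j - 1, by omega⟩
    have hx : x < e (l + 1) := by
      by_contra hc
      have := h.fin_sg w (x := x) (y := y) (by omega) (by omega) hj2.le hy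
      omega
    have a0 := h.lt l (by omega)
    by_cases hs : (Even (u + l) ↔ Even w)
    · exact ⟨l, by omega, hs, by omega, hx⟩
    · have hsg : ∀ z, Tight.sg w z = -Tight.sg (u + l) z := fun z => by rw [sg_opp hs z, neg_neg]
      rw [hsg, hsg] at hd
      have b1 := h.fin_sg (u + l) (x := y) (y := e (l + 1)) hj2.le hy le_rfl h.le
      have hx' : x < e l := by
        by_contra hc
        have := h.hi l (by omega) x (by omega) hx.le
        omega
      rcases Nat.eq_zero_or_pos l with hl0 | hl0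
      · exfalso
        subst hl0
        have a1 := h.big 0 (by omega)
        have a2 := h.start_sg (u + 0) (x := e 0) (y := x) le_rfl (by omega)
        rw [zero_add] at a1 b1
        omega
      · obtain ⟨l', rfl⟩ : ∃ l', l = l' + 1 := ⟨l - 1, by omega⟩
        have a1 := h.lt l' (by omega)
        exact ⟨l', by omega, adj l' hs, by omega, hx'⟩

/-- alternating displacements -/
theorem HW.alt_le (h : HW f n R m u e) (hm : 1 ≤ m) {k v : ℕ} {i : ℕ → ℕ} (hi : ∀ a, a < k → i a < i (a + 1)) (hn : i k ≤ n)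
    (hd : ∀ a, a < k → R ≤ Tight.sg (v + a) (f (i (a + 1))) - Tight.sg (v + a) (f (i a))) : k ≤ m := by
  have hik : ∀ a, a ≤ k → i a ≤ n := by
    intro a ha
    have : ∀ c, a ≤ c → c ≤ k → i a ≤ i c := by
      intro c hc
      induction c, hc using Nat.le_induction with
      | base => intro _; exact le_rfl
      | succ c _ ih =>
        intro hc'
        exact (ih (by omega)).trans (hi c (by omega)).le
    exact (this k ha le_rfl).trans hn
  have hJ : ∀ a, a < k → ∃ j, j < m ∧ (Even (u + j) ↔ Even (v + a)) ∧ e j < i (a + 1) ∧ i a < e (j + 1) :=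
    fun a ha => h.meet hm (hi a ha) (hik _ (by omega)) (hd a ha)
  have key : ∀ a, a < k → ∀ j, j < m → (Even (u + j) ↔ Even (v + a)) → i a < e (j + 1) → a ≤ j := by
    intro a
    induction a with
    | zero => intro _ j _ _ _; exact Nat.zero_le _
    | succ a ih =>
      intro ha j hj hpar hlt
      obtain ⟨l, l1, l2, l3, l4⟩ := hJ a (by omega)
      have h1 := ih (by omega) l l1 l2 l4
      have h2 : l ≤ j := by
        by_contra hc
        have := h.mono (j := j + 1) (k := l) (by omega) (by omega)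
        omega
      have h3 : l ≠ j := by
        rintro rfl
        rw [← add_assoc, Nat.even_add_one] at hpar
        tauto
      omega
  rcases Nat.eq_zero_or_pos k with hk | hk
  · omega
  · obtain ⟨j, j1, j2, j3, j4⟩ := hJ (k - 1) (by omega)
    have := key (k - 1) (by omega) j j1 j2 j4
    omega

end HW

/-- the word of an interior leaf of Lf -/
theorem posL_lw {b m u : ℕ} {t : List Bool} {e : ℕ → ℕ} (ht : t ∈ SA) (hb : 1 ≤ b) (h : Lf false b t m u e) {j : ℕ}
    (h1 : 1 ≤ j) (h2 : j + 2 ≤ m) : PosL t u e j (lw t (e j) (e (j + 1))) := by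
  obtain ⟨c, c1, c2, c3, c4, c5⟩ := lw_frame ht hb h h1 h2
  have hc : nrm c = 1 := mem_dirs.1 c1
  refine ⟨e j + 1, by omega, by omega, by omega, by omega, ?_⟩
  intro i i1 i2
  have key : ∀ k, k ≤ (lw t (e j) (e (j + 1))).length → Tight.sg (u + j) (lev t (e j + 1 + k)) =
      Tight.sg (u + j) (lev t (e j + 1)) + lev (lw t (e j) (e (j + 1))) k := by
    intro k hk
    rw [← xD_lev, ← xD_lev]
    unfold xD
    rw [c5 k hk, ip_add_left]
    have h3 : dD false (u + j) = mulE c up := by
      rw [c2]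
      rfl
    rw [h3, ip_mulE, hc, one_mul]
    rfl
  have a1 := key i i2
  have a2 := key 1 (by omega)
  have h4 : ∀ x y : ℤ, Tight.sg (u + j) (x - y) = Tight.sg (u + j) x - Tight.sg (u + j) y := by
    intro x y
    unfold Tight.sg
    split_ifs <;> ring
  rw [h4]
  omega

/-- **the cuts of one leaf**: the leaf is in [v + 1, z] -/
theorem leaf_cut {kc : ℕ} {t : List Bool} {u l : ℕ} {e : ℕ → ℕ} {g : List Bool} (hpos : PosL t u e l g) {hh : ℕ}
    (hg : g ∈ Brd hh) (hD1 : 2 ^ (kc + 4) ≤ hh) :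
    ∃ v z : ℕ, e l ≤ v + 1 ∧ v ≤ e l + 1 ∧ z ≤ e (l + 1) ∧ e (l + 1) ≤ z + 1 ∧
      xD (dD false (u + l)) t (e (l + 1)) ≤ xD (dD false (u + l)) t z + 2 ∧
      ∀ c r, c + r ≤ kc + 3 → g ∉ NoCut c r → ∃ p H : ℕ, CutAt (dD false (u + l)) t (v + 1) z p ∧
        xD (dD false (u + l)) t z - xD (dD false (u + l)) t p = 3 * H ∧ 2 ^ c ≤ H ∧ H ≤ 2 ^ (c + r) ∧
        3 * 2 ^ (kc + 3) - 2 ≤ xD (dD false (u + l)) t p - xD (dD false (u + l)) t (v + 1) := by
  obtain ⟨v, v1, v2, v3, v4, v5⟩ := hpos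
  obtain ⟨D, hD⟩ : ∃ D, D = dD false (u + l) := ⟨_, rfl⟩
  have hDm : D ∈ dirs := by rw [hD]; exact dD_mem _ _
  have hxD' : ∀ k, xD D t k = Tight.sg (u + l) (lev t k) := by
    intro k
    rw [hD, xD_lev]
  obtain ⟨z, hz⟩ : ∃ z, z = v + g.length := ⟨_, rfl⟩
  have hlev : ∀ k, 1 ≤ k → k ≤ g.length → lev g k - lev g 1 = xD D t (v + k) - xD D t (v + 1) := by
    intro k k1 k2
    rw [v5 k k1 k2, hxD', hxD']
    unfold Tight.sg
    split_ifs <;> ring
  have hpk : 2 ^ (kc + 4) = 2 * 2 ^ (kc + 3) := by ring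
  rw [← hD]
  refine ⟨v, z, v1, v2, by omega, by omega, ?_, ?_⟩
  · rcases Nat.lt_or_ge z (e (l + 1)) with h3 | h3
    · have h4 : e (l + 1) = z + 1 := by omega
      rw [h4]
      exact xD_step_le hDm t z
    · have h4 : e (l + 1) = z := by omega
      rw [h4]
      omega
  · intro c r hcr hno
    obtain ⟨A, B, hA, hB, hgAB, w1, w2⟩ : ∃ A B : List Bool, A ∈ BU ∧ B ∈ BU ∧ g = A ++ B ∧ 2 ^ c ≤ hgt B ∧
        hgt B ≤ 2 ^ (c + r) := by
      by_contra hn
      push Not at hn
      apply hno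
      intro A B hA hB hgAB
      rcases Nat.lt_or_ge (hgt B) (2 ^ c) with h3 | h3
      · exact Or.inl h3
      · exact Or.inr (hn A B hA hB hgAB h3)
    have hw3 : 2 ^ (c + r) ≤ 2 ^ (kc + 3) := Nat.pow_le_pow_right (by norm_num) hcr
    have hadd : hgt A + hgt B = hh := by
      obtain ⟨a, ha⟩ := hA
      obtain ⟨b, hb⟩ := hB
      rw [hgt_eq ha, hgt_eq hb]
      rw [hgAB] at hg
      exact Brd_height (Brd_append ha hb) hg
    have hB0 : B ≠ [] := by
      rintro rfl
      have h3 : hgt ([] : List Bool) = 0 := hgt_eq nil_mem_Brd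
      have h4 : 0 < 2 ^ c := by positivity
      omega
    have hA0 : A ≠ [] := by
      rintro rfl
      have h3 : hgt ([] : List Bool) = 0 := hgt_eq nil_mem_Brd
      have h4 : 0 < 2 ^ (kc + 3) := by positivity
      omega
    rw [hgAB] at hlev
    obtain ⟨c1, c2, c3⟩ := cut_of_split hDm hA hB hA0 hB0 hlev
    rw [← hgAB, ← hz] at c1 c2
    refine ⟨v + A.length, hgt B, c1, c2, w1, w2, ?_⟩
    rw [c3]
    have h5 : 2 ^ (kc + 3) ≤ hgt A := by omega
    have h6 : ((2 ^ (kc + 3) : ℕ) : ℤ) ≤ (hgt A : ℤ) := by exact_mod_cast h5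
    push_cast at h6
    omega

end SIM

end HexObs
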