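import Pool.Agent.NTW.QDefs
import Pool.Agent.NTW.FoldEx

/-!
SIM: the unimodal chain of leaves between the first and the last fold.
-/

set_option autoImplicit false

namespace HexObs

namespace SIM

open Finset TS SDN NTW

namespace GU1

variable {t : List Bool} {r u q : ℕ} {E : ℕ → ℕ} {B : ℤ}

lemma sg2 (k : ℕ) (x : ℤ) : Tight.sg (k + 2) x = Tight.sg k x := by
  unfold Tight.sg
  by_cases h : Even k
  · rw [if_pos h, if_pos (by rw [Nat.even_add]; simpa using h)]
  · rw [if_neg h, if_neg (by rw [Nat.even_add]; simpa using h)]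

lemma sg1 (k : ℕ) (x : ℤ) : Tight.sg (k + 1) x = -Tight.sg k x := by
  unfold Tight.sg
  by_cases h : Even k
  · rw [if_pos h, if_neg (by rw [Nat.even_add_one]; simpa using h)]
    ring
  · rw [if_neg h, if_pos (by rw [Nat.even_add_one]; exact h)]

/-- the removal of a small piece -/
lemma remove (h : FoldG t r u E) (hq : 1 ≤ q) (hr : q + 1 < r) (h1 : RG t u E q < RG t u E (q - 1))
    (h2 : RG t u E q ≤ RG t u E (q + 1)) (hB : ∀ j, j < r → B ≤ RG t u E j) :
    ∃ E' : ℕ → ℕ, FoldG t (r - 2) u E' ∧ E' 0 = E 0 ∧ E' (r - 2) = E r ∧ ∀ j, j < r - 2 → B ≤ RG t u E' j := by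
  obtain ⟨k, rfl⟩ : ∃ k, q = k + 1 := ⟨q - 1, by omega⟩
  obtain ⟨s, rfl⟩ : ∃ s, r = s + 2 := ⟨r - 2, by omega⟩
  rw [show s + 2 - 2 = s by omega]
  rw [show k + 1 - 1 = k by omega] at h1
  obtain ⟨E', hE'⟩ : ∃ E' : ℕ → ℕ, E' = fun j => if j ≤ k then E j else E (j + 2) := ⟨_, rfl⟩
  have e1 : ∀ j, j ≤ k → E' j = E j := fun j hj => by
    rw [hE']
    exact if_pos hj
  have e2 : ∀ j, k < j → E' j = E (j + 2) := fun j hj => by
    rw [hE']
    exact if_neg (by omega)
  -- the merged piece
  have hlt : E k < E (k + 3) := by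
    have a1 := h.lt k (by omega)
    have a2 := h.lt (k + 1) (by omega)
    have a3 := h.lt (k + 2) (by omega)
    rw [show k + 1 + 1 = k + 2 by omega] at a2
    rw [show k + 2 + 1 = k + 3 by omega] at a3
    omega
  unfold RG at h1 h2 hB
  rw [show u + (k + 1) = u + k + 1 by omega, sg1, sg1] at h1
  rw [show u + (k + 1) = u + k + 1 by omega, show u + (k + 1 + 1) = u + k + 2 by omega, sg1, sg1, sg2, sg2] at h2
  have hB3 := hB (k + 2) (by omega)
  rw [show u + (k + 2) = u + k + 2 by omega, sg2, sg2] at hB3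
  have hi0 := h.hi k (by omega)
  have hi1 := h.hi (k + 1) (by omega)
  have hi2 := h.hi (k + 2) (by omega)
  have lo1 := h.lo (k + 1) (by omega) (by omega)
  have lo2 := h.lo (k + 2) (by omega) (by omega)
  rw [show u + (k + 1) = u + k + 1 by omega] at hi1 lo1
  rw [show u + (k + 2) = u + k + 2 by omega] at hi2 lo2
  have hs2 : ∀ x, Tight.sg (u + k + 2) x = Tight.sg (u + k) x := fun x => sg2 _ x
  have hs1 : ∀ x, Tight.sg (u + k + 1) x = -Tight.sg (u + k) x := fun x => sg1 _ x
  simp only [hs2] at hi2 lo2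
  simp only [hs1] at hi1 lo1
  simp only [show k + 1 + 1 = k + 2 by omega, show k + 2 + 1 = k + 3 by omega] at *
  -- the merged piece is above its start and below its end
  have mlo : ∀ i, E (k + 1) < i → i ≤ E (k + 3) → Tight.sg (u + k) (lev t (E k)) < Tight.sg (u + k) (lev t i) := by
    intro i i1 i2
    rcases Nat.lt_or_ge (E (k + 2)) i with h3 | h3
    · have := lo2 i h3 i2
      linarith
    · have := hi1 i i1.le h3
      linarith
  have mhi : ∀ i, E k ≤ i → i ≤ E (k + 3) → Tight.sg (u + k) (lev t i) ≤ Tight.sg (u + k) (lev t (E (k + 3))) := by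
    intro i i1 i2
    rcases Nat.lt_or_ge (E (k + 2)) i with h3 | h3
    · exact hi2 i h3.le i2
    · rcases Nat.lt_or_ge (E (k + 1)) i with h4 | h4
      · have := lo1 i h4 h3
        linarith
      · have := hi0 i i1 h4
        linarith
  have a1 := h.lt k (by omega)
  have hgap : ∀ j, j < s + 2 → (4 : ℤ) ≤ Tight.sg (u + j) (lev t (E (j + 1))) - Tight.sg (u + j) (lev t (E j)) := h.gap
  have hk0 : Tight.sg (u + k) (lev t (E k)) + 4 ≤ Tight.sg (u + k) (lev t (E (k + 1))) := by
    have := hgap k (by omega)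
    linarith
  refine ⟨E', ⟨?_, ?_, ?_, ?_, ?_, ?_, ?_, ?_⟩, e1 0 (by omega), ?_, ?_⟩
  · intro j hj
    rcases Nat.lt_trichotomy j k with h3 | h3 | h3
    · rw [e1 j h3.le, e1 (j + 1) (by omega)]
      exact h.lt j (by omega)
    · rw [h3, e1 k le_rfl, e2 (k + 1) (by omega)]
      exact hlt
    · rw [e2 j h3, e2 (j + 1) (by omega), show j + 1 + 2 = j + 2 + 1 by omega]
      exact h.lt (j + 2) (by omega)
  · rw [e2 s (by omega)]
    exact h.le
  · intro i i1 i2
    rw [e1 0 (by omega)] at i1 ⊢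
    rcases Nat.eq_zero_or_pos k with rfl | hk
    · rw [e2 1 (by omega)] at i2
      rcases Nat.lt_or_ge (E 1) i with h3 | h3
      · have := mlo i h3 i2
        simp only [add_zero] at this
        exact this.le
      · exact h.lo0 i i1 h3
    · rw [e1 1 (by omega)] at i2
      exact h.lo0 i i1 i2
  · intro j hj1 hj i i1 i2
    rcases Nat.lt_trichotomy j k with h3 | h3 | h3
    · rw [e1 j h3.le] at i1 ⊢
      rw [e1 (j + 1) (by omega)] at i2
      exact h.lo j hj1 (by omega) i i1 i2
    · rw [h3] at i1 i2 ⊢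
      rw [e1 k le_rfl] at i1 ⊢
      rw [e2 (k + 1) (by omega)] at i2
      rcases Nat.lt_or_ge (E (k + 1)) i with h4 | h4
      · exact mlo i h4 i2
      · exact h.lo k (by omega) (by omega) i i1 h4
    · rw [e2 j h3] at i1 ⊢
      rw [e2 (j + 1) (by omega), show j + 1 + 2 = j + 2 + 1 by omega] at i2
      have := h.lo (j + 2) (by omega) (by omega) i i1 i2
      rwa [show u + (j + 2) = u + j + 2 by omega, sg2, sg2] at this
  · intro j hj i i1 i2
    rcases Nat.lt_trichotomy j k with h3 | h3 | h3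
    · rw [e1 j h3.le] at i1
      rw [e1 (j + 1) (by omega)] at i2 ⊢
      exact h.hi j (by omega) i i1 i2
    · rw [h3] at i1 i2 ⊢
      rw [e1 k le_rfl] at i1
      rw [e2 (k + 1) (by omega)] at i2 ⊢
      exact mhi i i1 i2
    · rw [e2 j h3] at i1
      rw [e2 (j + 1) (by omega), show j + 1 + 2 = j + 2 + 1 by omega] at i2 ⊢
      have := h.hi (j + 2) (by omega) i i1 i2
      rwa [show u + (j + 2) = u + j + 2 by omega, sg2, sg2] at this
  · intro j hj
    rcases Nat.lt_trichotomy j k with h3 | h3 | h3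
    · rw [e1 j h3.le, e1 (j + 1) (by omega)]
      exact hgap j (by omega)
    · rw [h3, e1 k le_rfl, e2 (k + 1) (by omega)]
      have := mhi (E (k + 1)) a1.le (by
        have a2 := h.lt (k + 1) (by omega)
        have a3 := h.lt (k + 2) (by omega)
        simp only [show k + 1 + 1 = k + 2 by omega, show k + 2 + 1 = k + 3 by omega] at a2 a3
        omega)
      show (4 : ℤ) ≤ Tight.sg (u + k) (lev t (E (k + 3))) - Tight.sg (u + k) (lev t (E k))
      linarith
    · rw [e2 j h3, e2 (j + 1) (by omega), show j + 1 + 2 = j + 2 + 1 by omega]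
      have := hgap (j + 2) (by omega)
      rwa [show u + (j + 2) = u + j + 2 by omega, sg2, sg2] at this
  · intro i i1
    rw [e1 0 (by omega)] at i1 ⊢
    exact h.beg i i1
  · intro i i1 i2
    rw [e2 s (by omega)] at i1 ⊢
    have := h.fin i i1 i2
    rwa [show u + (s + 2 - 1) = u + (s - 1) + 2 by omega, sg2, sg2] at this
  · rw [e2 s (by omega)]
  · intro j hj
    unfold RG
    rcases Nat.lt_trichotomy j k with h3 | h3 | h3
    · rw [e1 j h3.le, e1 (j + 1) (by omega)]
      exact hB j (by omega)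
    · rw [h3, e1 k le_rfl, e2 (k + 1) (by omega)]
      have := hB k (by omega)
      show B ≤ Tight.sg (u + k) (lev t (E (k + 3))) - Tight.sg (u + k) (lev t (E k))
      linarith
    · rw [e2 j h3, e2 (j + 1) (by omega), show j + 1 + 2 = j + 2 + 1 by omega]
      have := hB (j + 2) (by omega)
      rwa [show u + (j + 2) = u + j + 2 by omega, sg2, sg2] at this

/-- the unimodal chain -/
theorem uni (n : ℕ) : ∀ (r : ℕ) (E : ℕ → ℕ), r ≤ n → 1 ≤ r → FoldG t r u E → (∀ j, j < r → B ≤ RG t u E j) →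
    ∃ (r' p : ℕ) (E' : ℕ → ℕ), p < r' ∧ FoldG t r' u E' ∧ E' 0 = E 0 ∧ E' r' = E r ∧
      (∀ j, j < r' → B ≤ RG t u E' j) ∧ (∀ j, j < p → RG t u E' j ≤ RG t u E' (j + 1)) ∧
      ∀ j, p ≤ j → j + 1 < r' → RG t u E' (j + 1) ≤ RG t u E' j := by
  classical
  induction n with
  | zero => intro r E h1 h2; omega
  | succ n ih =>
    intro r E hr h1 hG hB
    by_cases hex : ∃ q, 1 ≤ q ∧ q + 1 < r ∧ RG t u E q < RG t u E (q - 1) ∧ RG t u E q ≤ RG t u E (q + 1)
    · obtain ⟨q, q1, q2, q3, q4⟩ := hex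
      obtain ⟨E', a1, a2, a3, a4⟩ := remove hG q1 q2 q3 q4 hB
      obtain ⟨r', p, E'', b1, b2, b3, b4, b5⟩ := ih (r - 2) E' (by omega) (by omega) a1 a4
      exact ⟨r', p, E'', b1, b2, b3.trans a2, b4.trans a3, b5⟩
    · push Not at hex
      by_cases hd : ∃ p, p + 1 < r ∧ RG t u E (p + 1) < RG t u E p
      · obtain ⟨hp1, hp2⟩ := Nat.find_spec hd
        refine ⟨r, Nat.find hd, E, by omega, hG, rfl, rfl, hB, fun j hj => ?_, ?_⟩
        · have := Nat.find_min hd hj
          push Not at this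
          exact this (by omega)
        · have key : ∀ j, Nat.find hd ≤ j → j + 1 < r → RG t u E (j + 1) < RG t u E j := by
            intro j hj
            induction j, hj using Nat.le_induction with
            | base => intro _; exact hp2
            | succ j hj ihj =>
              intro hjr
              have h3 := ihj (by omega)
              have h4 := hex (j + 1) (by omega) hjr (by simpa using h3)
              exact h4
          exact fun j hj hjr => (key j hj hjr).le
      · push Not at hd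
        exact ⟨r, r - 1, E, by omega, hG, rfl, rfl, hB, fun j hj => hd j (by omega), fun j hj hjr => by omega⟩

end GU1

/-- **the unimodal chain between the first and the last fold**: same first fold, same last fold, ranges increasing up to the
piece p and decreasing from the piece p on -/
theorem geoUni {b m u : ℕ} {t : List Bool} {e : ℕ → ℕ} (h : Fd b t m u e) :
    ∃ (r p : ℕ) (E : ℕ → ℕ), p < r ∧ FoldG t r u E ∧ E 0 = e 0 ∧ E r = e m ∧ (∀ q, q < r → RR b ≤ RG t u E q) ∧
      (∀ q, q < p → RG t u E q ≤ RG t u E (q + 1)) ∧ ∀ q, p ≤ q → q + 1 < r → RG t u E (q + 1) ≤ RG t u E q :=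
  GU1.uni m m e le_rfl h.1 h.2.1 h.2.2.1

end SIM

end HexObs
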