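import Pool.Agent.SIM.HalfU
import Pool.Agent.EN.Seq
import Pool.Agent.EN.Marks

/-!
SIM (no double points), half words (HL), no hypothesis: **the mass of the walks whose last fold of the scale kc + 5 is the
end of the walk is at most C^J Ub Xb**; the same with a marked run of small norm at the end, and with exactly n letters.
-/

set_option autoImplicit false

namespace HexObs

namespace SIM

open Finset TS SDN SDN.CN NTm NTW NTA EN

open scoped ENNReal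

lemma half_up {C0 D δ U : ℝ} {J : ℕ} {X X8 B : ℝ≥0∞} {m : ℝ≥0∞} (hC0 : 1 ≤ C0) (hD : 1 ≤ D) (hδ : 0 ≤ δ) (hU : 0 ≤ U)
    (hJ : 6 ≤ J) (hB : B ≤ X8) (hX : X8 ≤ ENNReal.ofReal (D ^ 8) * X) (hm : m ≤ ENNReal.ofReal (C0 ^ J * δ * U) * B) :
    m ≤ ENNReal.ofReal ((C0 * D ^ 8) ^ J * δ * U) * X := by
  have hC0' : 0 ≤ C0 := by linarith
  have hD0 : 0 ≤ D := by linarith
  refine hm.trans ((mul_le_mul_right (hB.trans hX) _).trans ?_)
  rw [← mul_assoc, ← ENNReal.ofReal_mul (by positivity)]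
  refine mul_le_mul_left (ENNReal.ofReal_le_ofReal ?_) _
  have e1 : D ^ 8 ≤ (D ^ 8) ^ J := by
    calc D ^ 8 = (D ^ 8) ^ 1 := by rw [pow_one]
      _ ≤ (D ^ 8) ^ J := pow_le_pow_right₀ (one_le_pow₀ hD) (by omega)
  rw [mul_pow]
  calc C0 ^ J * δ * U * D ^ 8 = C0 ^ J * D ^ 8 * δ * U := by ring
    _ ≤ C0 ^ J * (D ^ 8) ^ J * δ * U := by gcongr

/-- **half words with a marked run at the end** -/
theorem half_l : ∃ (C : ℝ) (k0 : ℕ), 1 ≤ C ∧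
    ∀ (kc J : ℕ) (R : Set (List (List Bool))) (δ : ℝ), k0 ≤ kc → 6 ≤ J → 0 < δ → SmR DmJ kc R δ →
      gf (LastR kc J R) ≤ ENNReal.ofReal (C ^ J * δ * Ub (kc + J)) * Xb (kc + J) := by
  obtain ⟨Ci, δi, hI⟩ := inp_exists
  obtain ⟨C0, k0, hC0, h0⟩ := half_l_of (ssA hI) ssDP
  obtain ⟨D, hD, hDX⟩ := Xb_pow
  refine ⟨C0 * D ^ 8, k0, one_le_mul_of_one_le_of_one_le hC0 (one_le_pow₀ hD), fun kc J R δ hk hJ hδ hS => ?_⟩
  obtain ⟨lam', hQ⟩ := QL_exists (kc + J + 8)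
  refine half_up hC0 hD hδ.le (Ub_pos _).le hJ (bl_le_Xb _ _) (hDX (kc + J) 8)
    (le_trans (gf_mono fun t ht => ?_) (h0 kc J (100 * 4 ^ (kc + J)) lam' R δ hk hJ hδ hQ hS))
  exact ⟨⟨ht.1.1, WL_length ht.1⟩, ht⟩

/-- **half words with a marked run at the end, exactly n letters** -/
theorem half_lx : ∃ (C : ℝ) (k0 : ℕ), 1 ≤ C ∧
    ∀ (kc J n : ℕ) (R : Set (List (List Bool))) (δ : ℝ), k0 ≤ kc → 6 ≤ J → 0 < δ → SmRX DmJ kc R δ →
      gf {t | t.length = n ∧ t ∈ LastR kc J R} ≤ ENNReal.ofReal (C ^ J * δ * Ub (kc + J)) * Xb (kc + J) := by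
  obtain ⟨Ci, δi, hI⟩ := inp_exists
  obtain ⟨C0, k0, hC0, h0⟩ := half_lx_of (ssA hI) ssDP
  obtain ⟨D, hD, hDX⟩ := Xb_pow
  refine ⟨C0 * D ^ 8, k0, one_le_mul_of_one_le_of_one_le hC0 (one_le_pow₀ hD), fun kc J n R δ hk hJ hδ hS => ?_⟩
  obtain ⟨lam', hQ⟩ := QL_exists (kc + J + 8)
  refine half_up hC0 hD hδ.le (Ub_pos _).le hJ (bl_le_Xb _ _) (hDX (kc + J) 8)
    (le_trans (gf_mono fun t ht => ?_) (h0 kc J n lam' n R δ hk hJ hδ hQ hS))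
  exact ⟨ht.1, ⟨ht.2.1.1, ht.1.le⟩, ht.2⟩

/-- walks of the box whose last fold of the scale b is their end -/
def LastF (b K : ℕ) : Set (List Bool) :=
  {t | t ∈ WL K ∧ ∃ (m u : ℕ) (e : ℕ → ℕ), Fd b t m u e ∧ e m = t.length}

lemma last_sub (kc J : ℕ) : LastF (kc + 5) (kc + J) ⊆
    LastR kc J (One (BrR (2 ^ (kc + 4)) (2 ^ (kc + J + 2)))) := by
  rintro t ⟨ht, m, u, e, hF, he⟩
  refine ⟨ht, m, u, e, hF, he, m - 1, 1, le_rfl, Nat.sub_add_cancel hF.1, fun ms hms _ _ _ hB => ?_⟩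
  obtain ⟨g, rfl⟩ := List.length_eq_one_iff.1 hms
  exact ⟨g, hB g List.mem_cons_self, rfl⟩

/-- **(HL): the mass of the walks whose last fold of the scale kc + 5 is their end** -/
theorem half_last : ∃ (C : ℝ) (k0 : ℕ), 1 ≤ C ∧ ∀ kc J : ℕ, k0 ≤ kc → 6 ≤ J →
    gf (LastF (kc + 5) (kc + J)) ≤ ENNReal.ofReal (C ^ J * Ub (kc + J)) * Xb (kc + J) := by
  obtain ⟨C, k0, hC, h0⟩ := half_l
  obtain ⟨K, hK, hbox⟩ := smD_box
  have hK2 : 1 ≤ 2 * K := by linarith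
  refine ⟨C * (2 * K), k0, one_le_mul_of_one_le_of_one_le hC hK2, fun kc J hk hJ => ?_⟩
  have hU := Ub_pos (kc + J)
  refine (gf_mono (last_sub kc J)).trans ((h0 kc J _ (K * 2 ^ J) hk hJ (by positivity) (smR_one (hbox kc J))).trans ?_)
  refine mul_le_mul_left (ENNReal.ofReal_le_ofReal ?_) _
  have h1 : K * 2 ^ J ≤ (2 * K) ^ J := by
    rw [mul_pow]
    have : K ≤ K ^ J := by
      calc K = K ^ 1 := (pow_one _).symm
        _ ≤ _ := pow_le_pow_right₀ hK (by omega)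
    nlinarith [show (0 : ℝ) < 2 ^ J by positivity]
  have hC0 : 0 ≤ C := by linarith
  calc C ^ J * (K * 2 ^ J) * Ub (kc + J) ≤ C ^ J * (2 * K) ^ J * Ub (kc + J) := by gcongr
    _ = (C * (2 * K)) ^ J * Ub (kc + J) := by rw [← mul_pow]

end SIM

end HexObs
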