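import Pool.Agent.SIM.MidN
import Pool.Agent.SIM.GeoUni
import Pool.Agent.SIM.HalfW

/-!
SIM (no double points), the middle words (MID), no hypothesis: **the mass of the walks whose first fold of the scale kc + 5
is the start and whose last fold is the end of the walk is at most C^J Ub**.
-/

set_option autoImplicit false

namespace HexObs

namespace SIM

open Finset TS SDN SDN.CN NTm NTW NTA EN

open scoped ENNReal

/-- walks of the box whose first fold of the scale b is their start and whose last fold is their end -/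
def TwoF (b K : ℕ) : Set (List Bool) :=
  {t | t ∈ WL K ∧ ∃ (m u : ℕ) (e : ℕ → ℕ), Fd b t m u e ∧ e 0 = 0 ∧ e m = t.length}

/-- the leaves of a unimodal chain -/
lemma uni_class {kc J n : ℕ} {W : ℕ → Set (List Bool)} {idx : ℕ → ℕ} (hidx : ∀ h h' : ℕ, h ≤ h' → idx h ≤ idx h')
    (hmem : ∀ (g : List Bool) (h : ℕ), g ∈ Brd h → 2 ^ (kc + 4) ≤ h → h ≤ 2 ^ (kc + J + 2) → idx h < n ∧ g ∈ W (idx h))
    {t : List Bool} {r u p : ℕ} {E : ℕ → ℕ} {gs : List (List Bool)} (ht : t ∈ SA) (hF : FoldG t r u E) (hp : p < r)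
    (hup : ∀ q, q < p → RG t u E q ≤ RG t u E (q + 1))
    (hdn : ∀ q, p ≤ q → q + 1 < r → RG t u E (q + 1) ≤ RG t u E q)
    (hR : RepG t r u E gs) (hB : ∀ g ∈ gs, g ∈ BrR (2 ^ (kc + 4)) (2 ^ (kc + J + 2))) :
    ∃ x xs, gs = x :: xs ∧ x ∈ BrR (2 ^ (kc + 4)) (2 ^ (kc + J + 2)) ∧
      UniU W n (BrR (2 ^ (kc + 4)) (2 ^ (kc + J + 2))) xs 0 := by
  have hlen := hR.len
  have cmp : ∀ (q q' : ℕ) (hq : q < gs.length) (hq' : q' < gs.length), 1 ≤ q' → q' + 2 ≤ r → RG t u E q' ≤ RG t u E q →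
      hgt gs[q'] ≤ hgt gs[q] := by
    intro q q' hq hq' h1 h2 h3
    obtain ⟨k, hk1, hk⟩ := hR.brd _ (List.getElem_mem hq)
    obtain ⟨k', hk1', hk'⟩ := hR.brd _ (List.getElem_mem hq')
    have h4 := (FoldA.foldG_ht hF (by omega) (hR.pos q hq) hk).2.1
    have h5 := hR.mid q' hq' h1 h2
    have h6 := QF.mid_hgt ht hF h1 h2 (h5 ▸ hk')
    rw [hgt_eq hk, hgt_eq hk']
    unfold RG at h3
    omega
  have win : ∀ (q : ℕ) (hq : q < gs.length), idx (hgt gs[q]) < n ∧ gs[q] ∈ W (idx (hgt gs[q])) := by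
    intro q hq
    obtain ⟨h, a1, a2, a3⟩ := hB _ (List.getElem_mem hq)
    have b := hmem _ h a3 a1 a2
    rwa [← hgt_eq a3] at b
  have hdrop : ∀ (q : ℕ) (hq : q < gs.length), gs.drop q = gs[q] :: gs.drop (q + 1) := fun q hq =>
    List.drop_eq_getElem_cons hq
  have hD : ∀ d k : ℕ, k + d = r → p < k → ∀ i, (∀ hk : k < gs.length, k + 2 ≤ r → idx (hgt gs[k]) ≤ i) →
      DecU W (BrR (2 ^ (kc + 4)) (2 ^ (kc + J + 2))) (gs.drop k) i := by
    intro d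
    induction d with
    | zero =>
      intro k hk _ i _
      rw [List.drop_eq_nil_of_le (by omega)]
      trivial
    | succ d ih =>
      intro k hk hpk i hi
      have hkl : k < gs.length := by omega
      rw [hdrop k hkl]
      by_cases h2 : k + 2 ≤ r
      · obtain ⟨w1, w2⟩ := win k hkl
        refine Or.inr ⟨idx (hgt gs[k]), hi hkl h2, w2, ih (k + 1) (by omega) (by omega) _ fun hk' h3 => ?_⟩
        exact hidx _ _ (cmp k (k + 1) hkl hk' (by omega) (by omega) (hdn k (by omega) (by omega)))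
      · refine Or.inl ⟨List.drop_eq_nil_of_le (by omega), hB _ (List.getElem_mem hkl)⟩
  have hU : ∀ d k : ℕ, k + d = r → 1 ≤ k → ∀ i, (∀ hk : k < gs.length, i ≤ idx (hgt gs[k])) →
      UniU W n (BrR (2 ^ (kc + 4)) (2 ^ (kc + J + 2))) (gs.drop k) i := by
    intro d
    induction d with
    | zero =>
      intro k hk _ i _
      rw [List.drop_eq_nil_of_le (by omega)]
      trivial
    | succ d ih =>
      intro k hk hk1 i hi
      have hkl : k < gs.length := by omega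
      rw [hdrop k hkl]
      obtain ⟨w1, w2⟩ := win k hkl
      refine Or.inr ⟨idx (hgt gs[k]), hi hkl, w1, w2, ?_⟩
      by_cases h2 : k + 1 ≤ p
      · exact ih (k + 1) (by omega) (by omega) _ fun hk' =>
          hidx _ _ (cmp (k + 1) k hk' hkl hk1 (by omega) (hup k (by omega)))
      · exact UniU_of (hD d (k + 1) (by omega) (by omega) _ fun hk' h3 =>
          hidx _ _ (cmp k (k + 1) hkl hk' (by omega) (by omega) (hdn k (by omega) (by omega))))
  have h0 : 0 < gs.length := by omega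
  exact ⟨gs[0], gs.drop 1, by rw [← hdrop 0 h0, List.drop_zero], hB _ (List.getElem_mem h0),
    hU (r - 1) 1 (by omega) le_rfl 0 fun _ => Nat.zero_le _⟩

/-- the number of the end -/
lemma mid_num {A Q K : ℝ} {V J : ℕ} (hA : 1 ≤ A) (hQ : 1 ≤ Q) (hK : 1 ≤ K) (hJ : 6 ≤ J) :
    A * (Q ^ (V * (J + 2) + (J + 2) + 1) * (2 + K * 2 ^ J * 2)) ≤ (A * Q ^ (3 * V + 4) * (8 * K)) ^ J := by
  have hA0 : 0 ≤ A := by linarith
  have hQ0 : 0 ≤ Q := by linarith
  have hK0 : 0 ≤ K := by linarith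
  have a1 : A ≤ A ^ J := by
    calc A = A ^ 1 := (pow_one _).symm
      _ ≤ _ := pow_le_pow_right₀ hA (by omega)
  have a2 : Q ^ (V * (J + 2) + (J + 2) + 1) ≤ (Q ^ (3 * V + 4)) ^ J := by
    rw [← pow_mul]
    refine pow_le_pow_right₀ hQ ?_
    nlinarith [Nat.zero_le V, mul_le_mul_right hJ V]
  have a3 : 2 + K * 2 ^ J * 2 ≤ (8 * K) ^ J := by
    have b1 : (1 : ℝ) ≤ 2 ^ J := one_le_pow₀ (by norm_num)
    have b2 : 4 * K ≤ (4 * K) ^ J := by
      calc 4 * K = (4 * K) ^ 1 := (pow_one _).symm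
        _ ≤ _ := pow_le_pow_right₀ (by linarith) (by omega)
    have b3 : 1 ≤ K * 2 ^ J := one_le_mul_of_one_le_of_one_le hK b1
    calc 2 + K * 2 ^ J * 2 ≤ 4 * K * 2 ^ J := by linarith
      _ ≤ (4 * K) ^ J * 2 ^ J := by gcongr
      _ = (8 * K) ^ J := by
          rw [← mul_pow]
          congr 1
          ring
  calc A * (Q ^ (V * (J + 2) + (J + 2) + 1) * (2 + K * 2 ^ J * 2))
      ≤ A ^ J * ((Q ^ (3 * V + 4)) ^ J * (8 * K) ^ J) := by gcongr
    _ = _ := by rw [mul_pow, mul_pow]; ring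

open Classical in
/-- **(MID): the mass of the walks whose first fold of the scale kc + 5 is the start and whose last fold is the end** -/
theorem mid_mass : ∃ (C : ℝ) (k0 : ℕ), 1 ≤ C ∧ ∀ kc J : ℕ, k0 ≤ kc → 6 ≤ J →
    gf (TwoF (kc + 5) (kc + J)) ≤ ENNReal.ofReal (C ^ J * Ub (kc + J)) := by
  obtain ⟨Ci, δi, hI⟩ := inp_exists
  obtain ⟨V, k0, hV, hwin⟩ := win_family
  obtain ⟨Q, hQ, hfun⟩ := uni_norm
  obtain ⟨Kt, hKt, htot⟩ := totD_of (ssA hI)
  obtain ⟨K4, hK4, hX⟩ := Dom_xT hI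
  obtain ⟨Kc, hKc, hcov⟩ := coverVR
  obtain ⟨K, hK, hbox⟩ := smD_box
  have hfin : 1 + gf (SSt 0) ≠ ⊤ := ENNReal.add_ne_top.2 ⟨ENNReal.one_ne_top, PLW.gf_SSt_fin _⟩
  obtain ⟨c, hc⟩ : ∃ c, c = (1 + gf (SSt 0)).toReal := ⟨_, rfl⟩
  have hcc : 1 + gf (SSt 0) = ENNReal.ofReal c := by rw [hc, ENNReal.ofReal_toReal hfin]
  have hc1 : 1 ≤ c := by
    have h1 : ENNReal.ofReal 1 ≤ ENNReal.ofReal c := by
      rw [← hcc, ENNReal.ofReal_one]
      exact le_self_add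
    by_contra h2
    push Not at h2
    exact absurd h1 (not_le.2 ((ENNReal.ofReal_lt_ofReal_iff zero_lt_one).2 h2))
  obtain ⟨A, hA⟩ : ∃ A, A = 8 * Kc * Kt * K4 * (c * c) := ⟨_, rfl⟩
  have hA1 : 1 ≤ A := by
    have a1 : 1 ≤ Kc * Kt := one_le_mul_of_one_le_of_one_le hKc hKt
    have a2 : 1 ≤ Kc * Kt * K4 := one_le_mul_of_one_le_of_one_le a1 hK4
    have a3 : 1 ≤ c * c := one_le_mul_of_one_le_of_one_le hc1 hc1
    have a4 : 1 ≤ Kc * Kt * K4 * (c * c) := one_le_mul_of_one_le_of_one_le a2 a3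
    rw [hA]
    linarith
  refine ⟨A * Q ^ (3 * V + 4) * (8 * K), max k0 1, ?_, ?_⟩
  · have a1 : 1 ≤ Q ^ (3 * V + 4) := one_le_pow₀ hQ
    have a2 : 1 ≤ A * Q ^ (3 * V + 4) := one_le_mul_of_one_le_of_one_le hA1 a1
    exact one_le_mul_of_one_le_of_one_le a2 (by linarith)
  intro kc J hkc hJ
  have hk0 : k0 ≤ kc := (le_max_left _ _).trans hkc
  have hk1 : 1 ≤ kc := (le_max_right _ _).trans hkc
  obtain ⟨W, kp, idx, hW, hidx, hmem⟩ := hwin kc (J + 2) hk0 (by omega)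
  obtain ⟨n, hn⟩ : ∃ n, n = V * (J + 2) := ⟨_, rfl⟩
  rw [← hn] at hW hmem
  have hn1 : 0 < n := by
    rw [hn]
    exact Nat.mul_pos hV (by omega)
  obtain ⟨B, hB⟩ : ∃ B, B = BrR (2 ^ (kc + 4)) (2 ^ (kc + J + 2)) := ⟨_, rfl⟩
  have hmem' : ∀ (g : List Bool) (h : ℕ), g ∈ Brd h → 2 ^ (kc + 4) ≤ h → h ≤ 2 ^ (kc + J + 2) →
      idx h < n ∧ g ∈ W (idx h) := hmem
  have hBH : B ⊆ HB (2 ^ (kc + 4)) := by
    rw [hB]
    exact inH_box
  obtain ⟨M, hM⟩ : ∃ M, M = 100 * 4 ^ (kc + J) := ⟨_, rfl⟩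
  obtain ⟨G, hG⟩ : ∃ G, G = GB1 kc B := ⟨_, rfl⟩
  obtain ⟨g, hg⟩ : ∃ g : ℝ, g = 2 + K * 2 ^ J * 2 := ⟨_, rfl⟩
  have hg0 : 0 ≤ g := by rw [hg]; positivity
  have hGh : Hered G := by
    rw [hG]
    exact Ch.hered_add Ch.hered_one (hered_vA _ _ _)
  have h1D : DmJ kc 2 (fun _ => 1) :=
    (dmP.dm kc _ (⟨fun _ _ _ => le_rfl, fun _ _ _ _ => le_rfl⟩ : HerD (2 ^ (kc + 4)) (fun _ => (1 : ℝ≥0∞)))).mono
      ((NTW.xT_const _ _ _).trans (by rw [mul_one]))
  have hGn : xT (2 ^ (kc + 4)) kc G ≤ ENNReal.ofReal g := by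
    have e1 : G = fun s => (fun _ => (1 : ℝ≥0∞)) s + vA (2 ^ (kc + 4)) B (fun _ => 1) s := hG
    rw [e1]
    refine (Ch.xT_add _ _ _ _).trans ?_
    have e2 : (2 : ℝ≥0∞) = ENNReal.ofReal 2 := by simp
    rw [hg, ENNReal.ofReal_add (by norm_num) (by positivity), ENNReal.ofReal_mul (by positivity), ← e2]
    refine add_le_add ((NTW.xT_const _ _ _).trans (by rw [mul_one])) ?_
    rw [hB]
    exact (hbox kc J).near _ _ h1D
  obtain ⟨hF1, hF2⟩ := hfun kc (J + 2) n W kp G g hW hn1 hg0 hGh hGn M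
  obtain ⟨y, hy⟩ : ∃ y, y = Q ^ (n + (J + 2) + 1) * g := ⟨_, rfl⟩
  rw [← hy] at hF1 hF2
  have hy0 : 0 ≤ y := by rw [hy]; positivity
  have hU4 : UU (2 ^ (kc + J + 2)) ≤ 4 * Ub (kc + J) := Ub_two kc J
  have hU0 := Ub_pos (kc + J)
  -- the total sum
  have hsw : ∀ Φ : List Bool → ℝ≥0∞, Hered Φ → xT (2 ^ (kc + 4)) kc Φ ≤ ENNReal.ofReal y →
      Rec8.sw B Φ ≤ ENNReal.ofReal (Kt * (4 * Ub (kc + J)) * (K4 * y)) := by
    intro Φ hΦ hx
    have h1 := htot (2 ^ (kc + 4)) (2 ^ (kc + J + 2)) kc _ Φ (hX (2 ^ (kc + 4)) kc kc Φ hΦ le_rfl le_rfl)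
      (Nat.pow_le_pow_right (by norm_num) (by omega))
    rw [hB]
    refine h1.trans ?_
    have e3 : ENNReal.ofReal (Kt * (4 * Ub (kc + J)) * (K4 * y)) =
        ENNReal.ofReal (Kt * (4 * Ub (kc + J))) * (ENNReal.ofReal K4 * ENNReal.ofReal y) := by
      rw [ENNReal.ofReal_mul (by positivity), ENNReal.ofReal_mul (by linarith : 0 ≤ K4)]
    rw [e3]
    exact mul_le_mul' (ENNReal.ofReal_le_ofReal (mul_le_mul_of_nonneg_left hU4 (by linarith)))
      (mul_le_mul_right hx _)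
  have hS : Rec8.sw B (FX W kp n (fun i => FL W kp G M i) M 0) ≤
      ENNReal.ofReal (2 * (Kt * (4 * Ub (kc + J)) * (K4 * y))) := by
    have e1 : (FX W kp n (fun i => FL W kp G M i) M 0) =
        fun t => FL W kp G M 0 t + Rx W kp n (fun i => FL W kp G M i) M 0 t := rfl
    rw [e1, Rec8.sw_add, two_mul, ENNReal.ofReal_add (by positivity) (by positivity)]
    exact add_le_add (hsw _ (FB.hered_FL hGh M 0) hF2) (hsw _ (QF.hered_Rx M 0) hF1)
  have hall := all_sum hW hn1 hBH M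
  rw [← hG] at hall
  -- the cover
  obtain ⟨Qp, hQp⟩ : ∃ Qp : List (List Bool) → Prop,
    Qp = fun gs => gs.length ≤ M ∧ ∃ x xs, gs = x :: xs ∧ x ∈ B ∧ UniU W n B xs 0 := ⟨_, rfl⟩
  refine (hcov (TwoF (kc + 5) (kc + J)) (fun _ => 0) (fun _ => 0) M Qp monotone_const monotone_const ?_).trans ?_
  · rintro t ⟨ht, m, u, e, hF, he0, hem⟩
    obtain ⟨r, p, E, hp, g2, gE0, gEr, g4, g5, g6⟩ := geoUni hF
    refine ⟨⟨ht.1, by rw [hM]; exact WL_length ht⟩, r, u, E, by omega, g2, fun i hi => ?_, fun i hi1 hi2 => ?_,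
      fun gs hR => ?_⟩
    · rw [gE0, he0] at hi
      omega
    · rw [gEr, hem] at hi1
      omega
    · rw [hQp]
      refine ⟨?_, ?_⟩
      · rw [hR.len, hM]
        exact (QF.fold_card g2).trans (WL_length ht)
      · have hBr := QF.rep_brr' ht g2 g4 hR
        have := uni_class hidx hmem' ht.1 g2 hp g5 g6 hR hBr
        rwa [hB]
  · have hle : (∑' gs : List (List Bool), if gs ≠ [] ∧ gs.IsChain LFold ∧ (∀ g ∈ gs, ∃ k : ℕ, 1 ≤ k ∧ g ∈ Brd k) ∧
          Qp gs then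
        SDN.wl gs * (EE0 ((fun _ : ℕ => 0) (3 * hgt (gs.headD []) + 8)) M (rev (gs.headD [])) *
          EE0 ((fun _ : ℕ => 0) (3 * hgt (gs.getLastD []) + 8)) M (gs.getLastD [])) else 0) ≤
        ENNReal.ofReal (c * c) * Rec8.sw B (FX W kp n (fun i => FL W kp G M i) M 0) := by
      refine le_trans ?_ (mul_le_mul_right hall _)
      rw [← ENNReal.tsum_mul_left]
      refine ENNReal.tsum_le_tsum fun gs => ?_
      by_cases hcn : gs ≠ [] ∧ gs.IsChain LFold ∧ (∀ g ∈ gs, ∃ k : ℕ, 1 ≤ k ∧ g ∈ Brd k) ∧ Qp gs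
      · have hq := hcn.2.2.2
        rw [hQp] at hq
        rw [if_pos hcn, if_pos ⟨hq.1, hcn.2.1, hq.2⟩, mul_one, mul_comm (ENNReal.ofReal (c * c))]
        refine mul_le_mul_right ?_ _
        have hE : ∀ z, EE0 0 M z ≤ ENNReal.ofReal c := fun z => by
          rw [← hcc]
          exact add_le_add le_rfl (gf_mono fun w hw => hw.1)
        rw [ENNReal.ofReal_mul (by linarith)]
        exact mul_le_mul' (hE _) (hE _)
      · rw [if_neg hcn]
        exact zero_le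
    refine (mul_le_mul_right (hle.trans (mul_le_mul_right hS _)) _).trans ?_
    rw [← ENNReal.ofReal_mul (by positivity), ← ENNReal.ofReal_mul (by linarith)]
    refine ENNReal.ofReal_le_ofReal ?_
    have h1 := mid_num (V := V) hA1 hQ hK hJ
    calc Kc * (c * c * (2 * (Kt * (4 * Ub (kc + J)) * (K4 * y))))
        = A * (Q ^ (V * (J + 2) + (J + 2) + 1) * (2 + K * 2 ^ J * 2)) * Ub (kc + J) := by
          rw [hA, hy, hg, hn]
          ring
      _ ≤ (A * Q ^ (3 * V + 4) * (8 * K)) ^ J * Ub (kc + J) := by gcongr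

end SIM

end HexObs
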