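import Pool.Agent.EN.GB

/-!
SIM: the leaves without a cut level in a window of rows below the top (or over the foot) are a class of small norm.
-/

set_option autoImplicit false

namespace HexObs

namespace SIM

open Finset TS SDN NTW NTA

open scoped ENNReal

open LQ

/-- no cut level between 2 ^ e and 2 ^ (e + r) rows before the end -/
def NoCutT (e r : ℕ) : Set (List Bool) := {g | ∀ B V : List Bool, B ∈ BU → V ∈ BU → B ++ V = g → 2 ^ e ≤ hgt V →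
  2 ^ (e + r) < hgt V}

/-- no cut level between 2 ^ e and 2 ^ (e + r) rows after the start -/
def NoCutH (e r : ℕ) : Set (List Bool) := {g | ∀ B V : List Bool, B ∈ BU → V ∈ BU → B ++ V = g → 2 ^ e ≤ hgt B →
  2 ^ (e + r) < hgt B}

lemma ezw_noT {D N e r : ℕ} : EZW D N (e + r) e {g | g ∈ BrR D N ∧ g ∈ NoCutT e r} 0 := by
  intro M hM P1 hP1 P2 hP2 Q hQ h1 h2 h3 h4
  refine EN.sum_none fun Z hZ => ?_
  rintro ⟨⟨-, hg⟩, -⟩
  have hMP := BU_app hM (IU_BU hP1)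
  have hPQ := BU_app (IU_BU hP2) hQ
  have h5 := hg _ _ (BU_app hMP hZ) hPQ (by simp only [List.append_assoc]) (by
    rw [hgt_app (IU_BU hP2) hQ]
    omega)
  rw [hgt_app (IU_BU hP2) hQ] at h5
  omega

lemma ezw_noH {D N e r : ℕ} : EZW D N (e + r) e {g | g ∈ BrR D N ∧ g ∈ NoCutH e r} 0 := by
  intro M hM P1 hP1 P2 hP2 Q hQ h1 h2 h3 h4
  refine EN.sum_none fun Z hZ => ?_
  rintro ⟨⟨-, hg⟩, -⟩
  have hMP := BU_app hM (IU_BU hP1)
  have hPQ := BU_app (IU_BU hP2) hQ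
  have h5 := hg _ _ hMP (BU_app hZ hPQ) (by simp only [List.append_assoc]) (by
    rw [hgt_app hM (IU_BU hP1)]
    omega)
  rw [hgt_app hM (IU_BU hP1)] at h5
  omega

/-- **the leaves without a cut level in a window before the end, or after the start** -/
theorem tail_win : ∃ K c : ℝ, 1 ≤ K ∧ 0 < c ∧ ∀ k N e r : ℕ, 3 ≤ r → e + r ≤ k →
    SmD DmJ k {g | g ∈ BrR (2 ^ (k + 4)) N ∧ (g ∈ NoCutT e r ∨ g ∈ NoCutH e r)}
      (K * (1 + UU N / Ub k) ^ 2 * (4 ^ (k - (e + r)) * (2 : ℝ) ^ (-(c * r)))) := by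
  obtain ⟨K, c, hK, hc, hsp⟩ := sp_winR
  refine ⟨2 * K, c, by linarith, hc, fun k N e r hr hk => ?_⟩
  have hU := Ub_pos k
  have hX : 0 ≤ K * (1 + UU N / Ub k) ^ 2 * (4 ^ (k - (e + r)) * (2 : ℝ) ^ (-(c * r))) := by positivity
  have h : ∀ W : Set (List Bool), W ⊆ BrR (2 ^ (k + 4)) N → EZW (2 ^ (k + 4)) N (e + r) e W 0 →
      SmD DmJ k W (K * (1 + UU N / Ub k) ^ 2 * (4 ^ (k - (e + r)) * (2 : ℝ) ^ (-(c * r)))) := by
    intro W hW hE
    refine LQ.SmD_le ?_ (hsp k N (e + r) e 0 W (by omega) hk le_rfl hW hE)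
    have e1 : ((e + r : ℕ) : ℝ) - (e : ℝ) = r := by
      push_cast
      ring
    rw [e1, zero_div, mul_zero, add_zero]
  have h1 := h {g | g ∈ BrR (2 ^ (k + 4)) N ∧ g ∈ NoCutT e r} (fun g hg => hg.1) ezw_noT
  have h2 := h {g | g ∈ BrR (2 ^ (k + 4)) N ∧ g ∈ NoCutH e r} (fun g hg => hg.1) ezw_noH
  refine LQ.SmD_le (le_of_eq ?_) (QF.SmD_mono ?_ (LQ.SmD_union hX hX h1 h2))
  · ring
  · rintro g ⟨hg, hn | hn⟩
    · exact Or.inl ⟨hg, hn⟩
    · exact Or.inr ⟨hg, hn⟩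

end SIM

end HexObs
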