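import Pool.Agent.SIM.HumpDefs
import Pool.Agent.EN.EmoMass
import Pool.Agent.EN.EspM

/-!
SIM, exactly n letters: few leaves in two directions before a time i that is a positive part of n.
-/

set_option autoImplicit false

namespace HexObs

namespace SIM

open Finset TS SDN NTW NTA EN

open scoped ENNReal

lemma fx_take {t : List Bool} {i a : ℕ} (ha : a ≤ i) : vx oo up (t.take i) a = vx oo up t a := by
  rcases Nat.lt_or_ge t.length i with h | h
  · rw [List.take_of_length_le h.le]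
  · have h1 : vx oo up (t.take i ++ t.drop i) a = vx oo up (t.take i) a := vx_append (by
      rw [List.length_take]
      omega)
    rw [List.take_append_drop] at h1
    exact h1.symm

lemma fx_WL {K : ℕ} {t : List Bool} (ht : t ∈ WL K) (n : ℕ) : t.take n ∈ WL K := by
  refine ⟨SA_take ht.1 n, fun i hi dir => ?_⟩
  rw [List.length_take] at hi
  rw [fx_take (by omega)]
  exact ht.2 i (by omega) dir

lemma fx_alt {t : List Bool} {i M : ℕ} {R : ℤ} (d : Fin 3) (hi : i ≤ t.length) :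
    EN.A3 d (t.take i) M R → EN.Alt (fun a => lv3 d (vx oo up t a)) i M R := by
  rintro ⟨τ, s, hs, h1, h2, h3⟩
  have hl : (t.take i).length = i := by
    rw [List.length_take]
    omega
  rw [hl] at h2
  refine ⟨τ, s, hs, h1, h2, fun j hj => ?_⟩
  have h4 := h3 j hj
  simp only at h4
  rw [fx_take (h2 j hj.le), fx_take (h2 (j + 1) (by omega))] at h4
  exact h4

/-- **few leaves in two directions in a positive part of the times** -/
theorem fewX_of {m : ℕ → ℝ} (hm : MLow m) (hE : EXT m) : FewX m := by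
  intro M J ρ e hρ he
  obtain ⟨C, hC, hE⟩ := hE
  have hP := EN.partOf M
  obtain ⟨N, hN⟩ : ∃ N, N = M + 2 := ⟨_, rfl⟩
  rw [← hN] at hP
  -- the power
  obtain ⟨Q, hQ⟩ : ∃ Q : ℕ, 2 * C ^ 4 ≤ (2 : ℝ) ^ Q := by
    obtain ⟨q, hq⟩ := pow_unbounded_of_one_lt (2 * C ^ 4) (show (1 : ℝ) < 2 by norm_num)
    exact ⟨q, hq.le⟩
  obtain ⟨A, hA, hE⟩ := hE Q
  have hC0 : 0 < C := by linarith
  have hA0 : 0 < A := by linarith
  -- lam = 2 ^ j / L
  obtain ⟨L, hL⟩ : ∃ L : ℝ, L = ((N : ℝ) ^ 2 + 1) * 2 ^ (J + 10) / ρ := ⟨_, rfl⟩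
  have hL0 : 0 < L := by rw [hL]; positivity
  obtain ⟨j0, hj0⟩ : ∃ j0 : ℕ, A * L ^ Q * C ^ J * (1 / 2) ^ j0 ≤ e := by
    obtain ⟨n, hn⟩ := exists_pow_lt_of_lt_one (show 0 < e / (A * L ^ Q * C ^ J) by positivity)
      (show (1 / 2 : ℝ) < 1 by norm_num)
    refine ⟨n, ?_⟩
    calc A * L ^ Q * C ^ J * (1 / 2) ^ n
        ≤ A * L ^ Q * C ^ J * (e / (A * L ^ Q * C ^ J)) := by gcongr
      _ = e := by field_simp
  obtain ⟨j1, hj1⟩ : ∃ j1 : ℕ, L ≤ (2 : ℝ) ^ j1 := by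
    obtain ⟨q, hq⟩ := pow_unbounded_of_one_lt L (show (1 : ℝ) < 2 by norm_num)
    exact ⟨q, hq.le⟩
  obtain ⟨j, hj⟩ : ∃ j, j = j0 + j1 := ⟨_, rfl⟩
  -- m b is at least 1
  obtain ⟨b0, hb0⟩ : ∃ b0 : ℕ, ∀ b, b0 ≤ b → 1 ≤ m b := by
    have hm0 := hm.pos 0
    obtain ⟨q, hq⟩ := pow_unbounded_of_one_lt (1 / m 0) (show (1 : ℝ) < 2 by norm_num)
    refine ⟨q, fun b hb => ?_⟩
    have h1 := hm.low 0 b
    rw [zero_add] at h1
    have h2 : (2 : ℝ) ^ b ≤ (2 : ℝ) ^ (5 / 4 * (b : ℝ)) := by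
      rw [← Real.rpow_natCast]
      exact Real.rpow_le_rpow_of_exponent_le (by norm_num) (by
        have : (0 : ℝ) ≤ b := Nat.cast_nonneg _
        linarith)
    have h3 : (2 : ℝ) ^ q ≤ 2 ^ b := pow_le_pow_right₀ (by norm_num) hb
    have h4 : 1 / m 0 ≤ (2 : ℝ) ^ (5 / 4 * (b : ℝ)) := by linarith
    rw [div_le_iff₀ hm0] at h4
    linarith
  refine ⟨4 * j, 4 * j + 5 + b0, fun k n hk hn => ?_⟩
  obtain ⟨b, hb⟩ : ∃ b, b = k - 4 * j := ⟨_, rfl⟩
  rw [← hb]
  have hkb : k = b + 4 * j := by omega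
  have hmb := hb0 b (by omega)
  obtain ⟨lam, hlam⟩ : ∃ lam : ℝ, lam = 2 ^ j / L := ⟨_, rfl⟩
  have hlam1 : 1 ≤ lam := by
    rw [hlam, le_div_iff₀ hL0, one_mul]
    exact hj1.trans (pow_le_pow_right₀ (by norm_num) (by omega))
  have hlam0 : 0 < lam := by linarith
  have hmk : (2 : ℝ) ^ (5 * j) * m b ≤ m k := by
    have h1 := hm.low b (4 * j)
    rw [← hkb] at h1
    have h2 : (5 / 4 * ((4 * j : ℕ) : ℝ)) = ((5 * j : ℕ) : ℝ) := by
      push_cast
      ring
    rw [h2, Real.rpow_natCast] at h1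
    exact h1
  have hsub : {t | (t.length = n ∧ t ∈ WL (k + J)) ∧ ∃ i : ℕ, ρ * n ≤ i ∧ i ≤ t.length ∧ ∃ p q : Fin 3, p ≠ q ∧
      ∀ d, d = p ∨ d = q → ¬ EN.Alt (fun a => EN.lv3 d (vx oo up t a)) i M (RR b)} ⊆
      {t | t.length = n ∧ t ∈ WL (k + J) ∧ ∃ x z, Bx (b + 2) t x z ∧ lam * m b ≤ (z : ℝ) - x} := by
    rintro t ⟨⟨h1, h2⟩, i, hi1, hi2, p, q, hpq, hd⟩
    refine ⟨h1, h2, ?_⟩
    have hl : (t.take i).length = i := by
      rw [List.length_take]
      omega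
    obtain ⟨x, z, ⟨g1, g2, g3⟩, h4⟩ := few_stay hP (K := k + J) (b := b) (S1 := lam * m b) (fx_WL h2 i) (by omega)
      (by omega) hpq (fun h => hd p (Or.inl rfl) (fx_alt p hi2 h)) (fun h => hd q (Or.inr rfl) (fx_alt q hi2 h))
      (by positivity) (by
        rw [hl]
        refine lt_of_lt_of_le ?_ hi1
        refine lt_of_lt_of_le ?_ (mul_le_mul_of_nonneg_left hn hρ.le)
        refine lt_of_lt_of_le ?_ (mul_le_mul_of_nonneg_left hmk hρ.le)
        have e1 : k + J - b + 8 = 4 * j + (J + 8) := by omega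
        rw [e1]
        have e2 : (1 : ℝ) ≤ lam * m b := one_le_mul_of_one_le_of_one_le hlam1 hmb
        have e3 : lam * L = 2 ^ j := by
          rw [hlam]
          field_simp
        have e4 : ρ * L = ((N : ℝ) ^ 2 + 1) * 2 ^ (J + 10) := by
          rw [hL]
          field_simp
        calc (N : ℝ) ^ 2 * (2 ^ (4 * j + (J + 8)) * (lam * m b + 1))
            ≤ (N : ℝ) ^ 2 * (2 ^ (4 * j + (J + 8)) * (2 * (lam * m b))) := by
              gcongr
              linarith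
          _ < ((N : ℝ) ^ 2 + 1) * (2 ^ (4 * j + (J + 8)) * (2 * (lam * m b))) := by
              apply mul_lt_mul_of_pos_right (by linarith)
              positivity
          _ ≤ 2 ^ (4 * j) * (lam * (ρ * L)) * m b := by
              rw [e4, pow_add, show J + 10 = (J + 8) + 2 by ring, pow_add 2 (J + 8) 2]
              have : (0 : ℝ) ≤ ((N : ℝ) ^ 2 + 1) * 2 ^ (4 * j) * 2 ^ (J + 8) * (lam * m b) := by positivity
              nlinarith
          _ = 2 ^ (4 * j) * (ρ * (lam * L)) * m b := by ring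
          _ = ρ * (2 ^ (5 * j) * m b) := by
              rw [e3, show 5 * j = 4 * j + j by ring, pow_add]
              ring)
    refine ⟨x, z, ⟨g1, by rw [hl] at g2; omega, fun dir i' j' a1 a2 a3 a4 => ?_⟩, h4.le⟩
    rw [hl] at g2
    have := g3 dir i' j' a1 a2 a3 a4
    rwa [fx_take (by omega), fx_take (by omega)] at this
  refine (gf_mono hsub).trans ((hE n (k + J) b lam (by omega) hlam1).trans ?_)
  rw [← mul_assoc, ← ENNReal.ofReal_mul (by positivity)]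
  refine mul_le_mul_left (ENNReal.ofReal_le_ofReal ?_) _
  have hU := Ub_pos (k + J)
  have hmK := hm.pos (k + J)
  refine mul_le_mul_of_nonneg_right ?_ (by positivity)
  have e1 : k + J - b = 4 * j + J := by omega
  rw [e1, hlam, div_pow, pow_add, pow_mul C 4 j]
  have e2 : (C ^ 4) ^ j ≤ (2 ^ Q) ^ j * (1 / 2) ^ j := by
    rw [← mul_pow]
    exact pow_le_pow_left₀ (by positivity) (by linarith) j
  calc A / ((2 ^ j) ^ Q / L ^ Q) * ((C ^ 4) ^ j * C ^ J)
      ≤ A / ((2 ^ j) ^ Q / L ^ Q) * (((2 ^ Q) ^ j * (1 / 2) ^ j) * C ^ J) := by gcongr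
    _ = A * L ^ Q * C ^ J * (1 / 2) ^ j := by
        rw [← pow_mul, ← pow_mul, mul_comm Q j]
        field_simp
    _ ≤ A * L ^ Q * C ^ J * (1 / 2) ^ j0 := by
        have : (1 / 2 : ℝ) ^ j ≤ (1 / 2) ^ j0 := pow_le_pow_of_le_one (by norm_num) (by norm_num) (by omega)
        gcongr
    _ ≤ e := hj0

/-- **few leaves in two directions, no hypothesis** -/
theorem fewX_M : FewX (fun k => PW.mZ (2 ^ k)) := by
  obtain ⟨J00, h⟩ := EN.gbm_M
  exact fewX_of NTA.mlow_M (EN.ext_M (h J00 le_rfl))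

end SIM

end HexObs
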