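import Pool.Agent.SIM.RegDefs
import Pool.Agent.NC.RunI
import Pool.Agent.SDN.TvLaw

/-!
SIM (simple limit curves), regularity: from an irregular piece to a run of bad leaves or a tall leaf.
-/

set_option autoImplicit false

namespace HexObs

namespace SIM

open Finset TS SDN NTW NTA

open scoped ENNReal

namespace GI

lemma cross_mulE (c p q : Pt) : cross (mulE c p) (mulE c q) = nrm c * cross p q := by
  unfold cross mulE nrm
  ring

lemma crs_add (dir : Bool) (v w : Pt) : crs dir (v + w) = crs dir v + crs dir w := by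
  unfold crs cross
  simp only [Prod.fst_add, Prod.snd_add]
  ring

/-- the coordinates of an interior leaf -/
lemma leaf_coord {dir : Bool} {b m u : ℕ} {t : List Bool} {e : ℕ → ℕ} (ht : t ∈ SA) (hb : 1 ≤ b)
    (h : Lf dir b t m u e) {j : ℕ} (h1 : 1 ≤ j) (h2 : j + 2 ≤ m) :
    ∃ σ : ℤ, (σ = 1 ∨ σ = -1) ∧ (lw t (e j) (e (j + 1))).length = e (j + 1) - (e j + 1) ∧ e j + 1 < e (j + 1) ∧
      ∀ i, i ≤ (lw t (e j) (e (j + 1))).length →
        lp dir t (e j + 1 + i) = lp dir t (e j + 1) + σ * lev (lw t (e j) (e (j + 1))) i ∧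
        lq dir t (e j + 1 + i) = lq dir t (e j + 1) - σ * lat (lw t (e j) (e (j + 1))) i := by
  obtain ⟨c, M, r1, r2, r3, r4, r5, r6, r7, r8, r9, -⟩ := leaf_at ht hb h h1 h2
  obtain ⟨σ, hσ, hσ2⟩ : ∃ σ : ℤ, (σ = 1 ∨ σ = -1) ∧ ∀ w : Pt, ip w (hd dir) = σ * ip w (mulE c up) ∧
      cross (hd dir) w = σ * cross (mulE c up) w := by
    rw [r2]
    unfold dD
    by_cases he : Even (u + j)
    · refine ⟨-1, Or.inr rfl, fun w => ?_⟩
      rw [if_pos he, ip_neg_right]
      refine ⟨by ring, ?_⟩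
      unfold cross
      simp only [Prod.fst_neg, Prod.snd_neg]
      ring
    · refine ⟨1, Or.inl rfl, fun w => ?_⟩
      rw [if_neg he]
      exact ⟨by ring, by ring⟩
  refine ⟨σ, hσ, r7, r4, fun i hi => ?_⟩
  have hn : nrm c = 1 := mem_dirs.1 r1
  have e1 : lvl dir (mulE c (vx oo up (t.drop (e j + 1)) i)) = σ * lev (lw t (e j) (e (j + 1))) i := by
    unfold lvl
    rw [(hσ2 _).1, ip_mulE, hn, one_mul, ← r9 i hi]
    rfl
  have e2 : crs dir (mulE c (vx oo up (t.drop (e j + 1)) i)) = -(σ * lat (lw t (e j) (e (j + 1))) i) := by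
    unfold crs
    rw [(hσ2 _).2, cross_mulE, hn, one_mul, ← r9 i hi]
    unfold lat
    ring
  unfold lp lq
  rw [r8, SDN.lvl_add, crs_add, e1, e2]
  exact ⟨rfl, rfl⟩

/-- no shape in the piece, no shape in its leaves -/
lemma leaf_PA {dir : Bool} {b m u : ℕ} {t : List Bool} {e : ℕ → ℕ} (ht : t ∈ SA) (hb : 1 ≤ b)
    (h : Lf dir b t m u e) {j : ℕ} (h1 : 1 ≤ j) (h2 : j + 2 ≤ m) {A : ℤ} {r x y : ℕ} (hx : x ≤ e j) (hy : e (j + 1) ≤ y)
    (hno : ∀ a b, x ≤ a → b ≤ y → ¬ Al A (2 ^ r) (lp dir t) (lq dir t) a b) :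
    lw t (e j) (e (j + 1)) ∈ PA A r := by
  obtain ⟨σ, hσ, hl, hlt, hc⟩ := leaf_coord ht hb h h1 h2
  intro a b hbl hal
  refine hno (e j + 1 + a) (e j + 1 + b) (by omega) (by omega) ?_
  obtain ⟨c1, c2, c3⟩ := hal
  refine ⟨by omega, ?_, fun i i' h3 h4 h5 h6 => ?_⟩
  · rw [(hc a (by omega)).1, (hc b hbl).1]
    rcases hσ with rfl | rfl
    · simpa using c2
    · rw [show lp dir t (e j + 1) + -1 * lev (lw t (e j) (e (j + 1))) b -
        (lp dir t (e j + 1) + -1 * lev (lw t (e j) (e (j + 1))) a) =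
        -(lev (lw t (e j) (e (j + 1))) b - lev (lw t (e j) (e (j + 1))) a) by ring, abs_neg]
      exact c2
  · obtain ⟨i1, rfl⟩ : ∃ i1, i = e j + 1 + i1 := ⟨i - (e j + 1), by omega⟩
    obtain ⟨i2, rfl⟩ : ∃ i2, i' = e j + 1 + i2 := ⟨i' - (e j + 1), by omega⟩
    rw [(hc i1 (by omega)).2, (hc i2 (by omega)).2]
    have h7 := c3 i1 i2 (by omega) (by omega) (by omega) (by omega)
    rcases hσ with rfl | rfl
    · rw [show lq dir t (e j + 1) - 1 * lat (lw t (e j) (e (j + 1))) i1 -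
        (lq dir t (e j + 1) - 1 * lat (lw t (e j) (e (j + 1))) i2) =
        -(lat (lw t (e j) (e (j + 1))) i1 - lat (lw t (e j) (e (j + 1))) i2) by ring, abs_neg]
      exact h7
    · rw [show lq dir t (e j + 1) - -1 * lat (lw t (e j) (e (j + 1))) i1 -
        (lq dir t (e j + 1) - -1 * lat (lw t (e j) (e (j + 1))) i2) =
        lat (lw t (e j) (e (j + 1))) i1 - lat (lw t (e j) (e (j + 1))) i2 by ring]
      exact h7

/-- no shape in the piece, no shape in its leaves -/
lemma leaf_PB {dir : Bool} {b m u : ℕ} {t : List Bool} {e : ℕ → ℕ} (ht : t ∈ SA) (hb : 1 ≤ b)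
    (h : Lf dir b t m u e) {j : ℕ} (h1 : 1 ≤ j) (h2 : j + 2 ≤ m) {B : ℤ} {r x y : ℕ} (hx : x ≤ e j) (hy : e (j + 1) ≤ y)
    (hno : ∀ a b, x ≤ a → b ≤ y → ¬ Be B (2 ^ r) (lp dir t) (lq dir t) a b) :
    lw t (e j) (e (j + 1)) ∈ PB B r := by
  obtain ⟨σ, hσ, hl, hlt, hc⟩ := leaf_coord ht hb h h1 h2
  intro a b hbl hal
  refine hno (e j + 1 + a) (e j + 1 + b) (by omega) (by omega) ?_
  obtain ⟨c1, c2, c3⟩ := hal
  refine ⟨by omega, ?_, fun i i' h3 h4 h5 h6 => ?_⟩
  · rw [(hc a (by omega)).2, (hc b hbl).2]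
    rcases hσ with rfl | rfl
    · rw [show lq dir t (e j + 1) - 1 * lat (lw t (e j) (e (j + 1))) b -
        (lq dir t (e j + 1) - 1 * lat (lw t (e j) (e (j + 1))) a) =
        -(lat (lw t (e j) (e (j + 1))) b - lat (lw t (e j) (e (j + 1))) a) by ring, abs_neg]
      exact c2
    · rw [show lq dir t (e j + 1) - -1 * lat (lw t (e j) (e (j + 1))) b -
        (lq dir t (e j + 1) - -1 * lat (lw t (e j) (e (j + 1))) a) =
        lat (lw t (e j) (e (j + 1))) b - lat (lw t (e j) (e (j + 1))) a by ring]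
      exact c2
  · obtain ⟨i1, rfl⟩ : ∃ i1, i = e j + 1 + i1 := ⟨i - (e j + 1), by omega⟩
    obtain ⟨i2, rfl⟩ : ∃ i2, i' = e j + 1 + i2 := ⟨i' - (e j + 1), by omega⟩
    rw [(hc i1 (by omega)).1, (hc i2 (by omega)).1]
    have h7 := c3 i1 i2 (by omega) (by omega) (by omega) (by omega)
    rcases hσ with rfl | rfl
    · rw [show lp dir t (e j + 1) + 1 * lev (lw t (e j) (e (j + 1))) i1 -
        (lp dir t (e j + 1) + 1 * lev (lw t (e j) (e (j + 1))) i2) =
        lev (lw t (e j) (e (j + 1))) i1 - lev (lw t (e j) (e (j + 1))) i2 by ring]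
      exact h7
    · rw [show lp dir t (e j + 1) + -1 * lev (lw t (e j) (e (j + 1))) i1 -
        (lp dir t (e j + 1) + -1 * lev (lw t (e j) (e (j + 1))) i2) =
        -(lev (lw t (e j) (e (j + 1))) i1 - lev (lw t (e j) (e (j + 1))) i2) by ring, abs_neg]
      exact h7

/-- the oscillation of a piece -/
lemma lf_osc {dir : Bool} {b m u : ℕ} {t : List Bool} {e : ℕ → ℕ} (hF : Lf dir b t m u e) {T : ℤ}
    (hT : ∀ j, j < m → |lp dir t (e (j + 1)) - lp dir t (e j)| ≤ T) (hR : RR b ≤ T) {p : ℕ} (hp : p < m + 2) {i j : ℕ}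
    (hi : T2.cpt t.length m e p ≤ i) (hi' : i ≤ T2.cpt t.length m e (p + 1)) (hj : T2.cpt t.length m e p ≤ j)
    (hj' : j ≤ T2.cpt t.length m e (p + 1)) : |lp dir t i - lp dir t j| ≤ T := by
  have hH := hF
  unfold Lf at hH
  rcases Nat.eq_zero_or_pos p with h0 | h0
  · subst h0
    rw [zero_add, show (1 : ℕ) = 0 + 1 from rfl, T2.cpt_mid _ _ _ (by omega)] at hi' hj'
    have a1 := hH.start i j hi' hj'
    have a2 := hH.start j i hj' hi'
    unfold lp
    rw [abs_le]
    constructor <;> linarith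
  · obtain ⟨q, rfl⟩ : ∃ q, p = q + 1 := ⟨p - 1, by omega⟩
    rw [T2.cpt_mid _ _ _ (by omega)] at hi hj
    by_cases h1 : q + 1 ≤ m
    · rw [T2.cpt_mid _ _ _ h1] at hi' hj'
      have key : ∀ z, e q ≤ z → z ≤ e (q + 1) → Tight.sg (u + q) (lp dir t (e q)) ≤ Tight.sg (u + q) (lp dir t z) ∧
          Tight.sg (u + q) (lp dir t z) ≤ Tight.sg (u + q) (lp dir t (e (q + 1))) := by
        intro z z1 z2
        refine ⟨?_, hH.hi q (by omega) z z1 z2⟩
        rcases Nat.eq_or_lt_of_le z1 with h2 | h2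
        · rw [h2]
        · exact (hH.lo q (by omega) z h2 z2).le
      have a1 := key i hi hi'
      have a2 := key j hj hj'
      have a3 := hT q (by omega)
      rw [abs_le] at a3 ⊢
      unfold Tight.sg at a1 a2
      split_ifs at a1 a2
      · constructor <;> linarith [a1.1, a1.2, a2.1, a2.2, a3.1, a3.2]
      · constructor <;> linarith [a1.1, a1.2, a2.1, a2.2, a3.1, a3.2]
    · have h2 : q = m := by omega
      subst h2
      rw [T2.cpt_end] at hi' hj'
      have a1 := hH.fin i j hi hi' hj hj'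
      have a2 := hH.fin j i hj hj' hi hi'
      unfold lp
      rw [abs_le]
      constructor <;> linarith

/-- the displacement over a few pieces -/
lemma few_osc {F : ℕ → ℤ} {T : ℤ} (hT : 0 ≤ T) {a : ℕ → ℕ} {M : ℕ}
    (hpc : ∀ p, p < M → ∀ i j, a p ≤ i → i ≤ a (p + 1) → a p ≤ j → j ≤ a (p + 1) → |F i - F j| ≤ T) {z : ℕ} :
    ∀ (r q z' : ℕ), q + r ≤ M → a q ≤ z → z ≤ z' → z' ≤ a (q + r) → |F z' - F z| ≤ r * T := by
  intro r
  induction r with
  | zero =>
    intro q z' _ h1 h2 h3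
    rw [add_zero] at h3
    have : z = z' := by omega
    subst this
    simp
  | succ r ih =>
    intro q z' hq h1 h2 h3
    by_cases h4 : z' ≤ a (q + r)
    · refine (ih q z' (by omega) h1 h2 h4).trans ?_
      push_cast
      nlinarith
    rw [not_le] at h4
    by_cases h5 : a (q + r) ≤ z
    · refine (hpc (q + r) (by omega) z' z h4.le h3 h5 (h2.trans h3)).trans ?_
      push_cast
      nlinarith [Int.natCast_nonneg r]
    · rw [not_le] at h5
      have c1 := ih q (a (q + r)) (by omega) h1 h5.le le_rfl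
      have c2 := hpc (q + r) (by omega) z' (a (q + r)) h4.le h3 le_rfl (h4.le.trans h3)
      have c3 : |F z' - F z| ≤ |F z' - F (a (q + r))| + |F (a (q + r)) - F z| := abs_sub_le _ _ _
      push_cast
      linarith

/-- the displacement over consecutive leaves -/
lemma sum_osc {F : ℕ → ℤ} {e : ℕ → ℕ} {D : ℕ → ℤ} (l : ℕ) : ∀ d : ℕ,
    (∀ i, i < d → |F (e (l + i + 1)) - F (e (l + i))| ≤ D i) → |F (e (l + d)) - F (e l)| ≤ ∑ i ∈ range d, D i := by
  intro d
  induction d with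
  | zero =>
    intro _
    simp
  | succ d ih =>
    intro h
    rw [Finset.sum_range_succ]
    have h1 := ih fun i hi => h i (by omega)
    have h2 := h d (by omega)
    have h3 : |F (e (l + (d + 1))) - F (e l)| ≤ |F (e (l + (d + 1))) - F (e (l + d))| + |F (e (l + d)) - F (e l)| :=
      abs_sub_le _ _ _
    rw [← add_assoc] at h3 ⊢
    linarith

end GI

open GI in
/-- **from an irregular piece to a run of bad leaves or a tall leaf** -/
theorem geoIrg (A B : ℤ) : GeoIrg A B := by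
  intro s c
  refine ⟨2 ^ (c + s + 10), Nat.one_le_two_pow, fun k K V t hck _ htW hirg => ?_⟩
  obtain ⟨dir, x, y, hxy, hy, hdis, hshape⟩ := hirg
  have ht := htW.1
  obtain ⟨m, u, e, hF⟩ := lf_exists dir (k + 5) t
  by_cases htall : ∃ j, j < m ∧ 3 * ((V : ℤ) * 2 ^ (k + s)) ≤ |lp dir t (e (j + 1)) - lp dir t (e j)|
  · exact Or.inr (Or.inr ⟨dir, m, u, e, hF, htall⟩)
  push Not at htall
  obtain ⟨T, hT⟩ : ∃ T : ℤ, T = 3 * ((V + 1 : ℤ) * 2 ^ (k + s + 5)) := ⟨_, rfl⟩
  have hV0 : (0 : ℤ) ≤ V := Int.natCast_nonneg V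
  have hp1 : (1 : ℤ) ≤ 2 ^ (k + s) := one_le_pow₀ (by norm_num)
  have hp5 : (2 : ℤ) ^ (k + s + 5) = 32 * 2 ^ (k + s) := by rw [pow_add]; ring
  have hT0 : 0 ≤ T := by rw [hT]; positivity
  have hTR : RR (k + 5) ≤ T := by
    have h1 : (2 : ℤ) ^ (k + 5) ≤ 2 ^ (k + s + 5) := pow_le_pow_right₀ (by norm_num) (by omega)
    have h2 : (0 : ℤ) < 2 ^ (k + s + 5) := by positivity
    unfold RR
    rw [hT]
    nlinarith
  have hTj : ∀ j, j < m → |lp dir t (e (j + 1)) - lp dir t (e j)| ≤ T := by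
    intro j hj
    refine (htall j hj).le.trans ?_
    rw [hT, hp5]
    nlinarith
  obtain ⟨a, ha⟩ : ∃ a, a = T2.cpt t.length m e := ⟨_, rfl⟩
  have a0 : a 0 = 0 := by rw [ha]; exact T2.cpt_zero _ _ _
  have aM : a (m + 2) = t.length := by rw [ha]; exact T2.cpt_end _ _ _
  have am : ∀ p, p < m + 2 → a p ≤ a (p + 1) := by
    intro p hp
    rw [ha]
    exact cpt_mono hF hp
  have ai : ∀ i, i ≤ m → a (i + 1) = e i := by
    intro i hi
    rw [ha]
    exact T2.cpt_mid _ _ _ hi
  have amm : ∀ i j, i ≤ j → j ≤ m + 2 → a i ≤ a j := by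
    intro i j hij
    induction j, hij using Nat.le_induction with
    | base => intro _; exact le_rfl
    | succ j hj ih => intro hjM; exact (ih (by omega)).trans (am j (by omega))
  have hpc : ∀ p, p < m + 2 → ∀ i j, a p ≤ i → i ≤ a (p + 1) → a p ≤ j → j ≤ a (p + 1) →
      |lp dir t i - lp dir t j| ≤ T := by
    intro p hp i j hi hi' hj hj'
    rw [ha] at hi hi' hj hj'
    exact lf_osc hF hTj hTR hp hi hi' hj hj'
  -- the displacement
  have hbig : 96 * ((V + 1 : ℤ) * 2 ^ (k + s + 5)) ≤ |lp dir t y - lp dir t x| := by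
    refine le_trans (le_of_eq ?_) hdis
    have e1 : (2 : ℤ) ^ (c + s + 10) * 2 ^ (k - c) = 32 * 2 ^ (k + s + 5) := by
      rw [← pow_add, show c + s + 10 + (k - c) = k + s + 5 + 5 by omega, pow_add _ (k + s + 5)]
      ring
    push_cast
    calc 96 * ((V + 1 : ℤ) * 2 ^ (k + s + 5)) = 3 * ((V + 1) * (32 * 2 ^ (k + s + 5))) := by ring
      _ = 3 * ((V + 1) * (2 ^ (c + s + 10) * 2 ^ (k - c))) := by rw [e1]
      _ = _ := by ring
  have hxy' : x < y := by
    rcases Nat.eq_or_lt_of_le hxy with h1 | h1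
    · rw [h1, sub_self, abs_zero] at hbig
      have : (0 : ℤ) < (V + 1 : ℤ) * 2 ^ (k + s + 5) := by positivity
      omega
    · exact h1
  obtain ⟨p0, d, hpd, hx1, hx2, hy1, hy2⟩ := cut_restrict a0 aM am hxy' hy
  obtain ⟨la, hla⟩ : ∃ la, la = max p0 2 := ⟨_, rfl⟩
  obtain ⟨lb, hlb⟩ : ∃ lb, lb = min (p0 + d - 1) (m - 1) := ⟨_, rfl⟩
  obtain ⟨d', hd'⟩ : ∃ d', d' = lb - la := ⟨_, rfl⟩
  rcases Nat.eq_zero_or_pos d' with h0 | h0
  · -- no run
    exfalso
    have h1 := few_osc hT0 hpc (z := x) (d + 1) p0 y (by omega) hx1 hxy (by rw [← add_assoc]; exact hy2)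
    have h2 : ((d + 1 : ℕ) : ℤ) ≤ 6 := by
      have : d + 1 ≤ 6 := by omega
      exact_mod_cast this
    have h3 : ((d + 1 : ℕ) : ℤ) * T ≤ 6 * T := mul_le_mul_of_nonneg_right h2 hT0
    have h4 : (0 : ℤ) < (V + 1 : ℤ) * 2 ^ (k + s + 5) := by positivity
    rw [hT] at h3
    rw [hT] at h1
    linarith
  · -- a run
    have e1 : la + d' ≤ m - 1 := by omega
    have hlbe : lb = la + d' := by omega
    have z1 : a (la + 1) = e la := ai la (by omega)
    have z2 : a (lb + 1) = e lb := ai lb (by omega)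
    have hz1 : x ≤ a (la + 1) := hx2.le.trans (amm _ _ (by omega) (by omega))
    have hz2 : a (lb + 1) ≤ y := (amm _ (p0 + d) (by omega) (by omega)).trans hy1.le
    have hz12 : a (la + 1) ≤ a (lb + 1) := amm _ _ (by omega) (by omega)
    have h1 := few_osc hT0 hpc (z := x) (la + 1 - p0) p0 (a (la + 1)) (by omega) hx1 hz1
      (by rw [show p0 + (la + 1 - p0) = la + 1 by omega])
    have h2 := few_osc hT0 hpc (z := a (lb + 1)) (p0 + d - lb) (lb + 1) y (by omega) le_rfl hz2
      (by rw [show lb + 1 + (p0 + d - lb) = p0 + d + 1 by omega]; exact hy2)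
    have h3 := sum_osc (F := lp dir t) (e := e) (D := fun i => 3 * (hgt (lw t (e (la + i)) (e (la + i + 1))) : ℤ) + 1) la d'
      (fun i hi => by
        obtain ⟨n, n1, -, -, n4⟩ := NC.int_leafD ht (by omega : 1 ≤ k + 5) hF (j := la + i) (by omega) (by omega)
        show _ ≤ 3 * (hgt (lw t (e (la + i)) (e (la + i + 1))) : ℤ) + 1
        rw [hgt_eq n1]
        exact n4.le)
    rw [← hlbe] at h3
    have c1 : ((la + 1 - p0 : ℕ) : ℤ) ≤ 3 := by
      have : la + 1 - p0 ≤ 3 := by omega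
      exact_mod_cast this
    have c2 : ((p0 + d - lb : ℕ) : ℤ) ≤ 3 := by
      have : p0 + d - lb ≤ 3 := by omega
      exact_mod_cast this
    have c3 : ((la + 1 - p0 : ℕ) : ℤ) * T ≤ 3 * T := mul_le_mul_of_nonneg_right c1 hT0
    have c4 : ((p0 + d - lb : ℕ) : ℤ) * T ≤ 3 * T := mul_le_mul_of_nonneg_right c2 hT0
    rw [z1] at h1
    rw [z2] at h2
    have h4 : |lp dir t y - lp dir t x| ≤ |lp dir t y - lp dir t (e lb)| + |lp dir t (e lb) - lp dir t (e la)| +
        |lp dir t (e la) - lp dir t x| := by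
      have b1 := abs_sub_le (lp dir t y) (lp dir t (e lb)) (lp dir t x)
      have b2 := abs_sub_le (lp dir t (e lb)) (lp dir t (e la)) (lp dir t x)
      linarith
    -- the sum of the heights
    have hbr : ∀ g ∈ lws t e la d', ∃ n : ℕ, g ∈ Brd n ∧ 2 ^ (k + 4) ≤ n ∧ g ∈ CL (k + 5) := by
      intro g hg
      obtain ⟨i, hi, rfl⟩ := NC.lws_mem hg
      obtain ⟨n, n1, n2, n3, -⟩ := NC.int_leafD ht (by omega : 1 ≤ k + 5) hF (j := la + i) (by omega) (by omega)
      refine ⟨n, n1, ?_, n3⟩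
      have h5 : 2 ^ (k + 5) = 2 * 2 ^ (k + 4) := by rw [← pow_succ']
      have h6 := Nat.one_le_two_pow (n := k + 4)
      omega
    have hsum : (∑ i ∈ range d', (3 * (hgt (lw t (e (la + i)) (e (la + i + 1))) : ℤ) + 1)) ≤
        4 * (((lws t e la d').map hgt).sum : ℤ) := by
      rw [sum_lws hgt t e la d']
      push_cast
      rw [Finset.mul_sum]
      refine Finset.sum_le_sum fun i hi => ?_
      obtain ⟨n, n1, n2, n3, -⟩ := NC.int_leafD ht (by omega : 1 ≤ k + 5) hF (j := la + i)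
        (by omega) (by rw [Finset.mem_range] at hi; omega)
      rw [hgt_eq n1]
      have h5 : 2 ≤ 2 ^ (k + 5) := by
        calc 2 = 2 ^ 1 := rfl
          _ ≤ 2 ^ (k + 5) := Nat.pow_le_pow_right (by norm_num) (by omega)
      have h6 : (1 : ℤ) ≤ n := by
        have : 1 ≤ n := by omega
        exact_mod_cast this
      linarith
    have hVsum : V ≤ ((lws t e la d').map fun g => hgt g / 2 ^ (k + s) + 1).sum := by
      by_contra hcon
      rw [not_le] at hcon
      have h5 : ((lws t e la d').map hgt).sum ≤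
          2 ^ (k + s) * ((lws t e la d').map fun g => hgt g / 2 ^ (k + s) + 1).sum := by
        generalize lws t e la d' = gs
        induction gs with
        | nil => simp
        | cons g gs ih =>
          rw [List.map_cons, List.sum_cons, List.map_cons, List.sum_cons, mul_add]
          refine Nat.add_le_add ?_ ih
          exact (Nat.lt_mul_div_succ (hgt g) (by positivity)).le
      have h6 : 2 ^ (k + s) * ((lws t e la d').map fun g => hgt g / 2 ^ (k + s) + 1).sum ≤ 2 ^ (k + s) * V :=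
        Nat.mul_le_mul_left _ hcon.le
      have h7 : (((lws t e la d').map hgt).sum : ℤ) ≤ 2 ^ (k + s) * V := by exact_mod_cast h5.trans h6
      obtain ⟨P, hP⟩ : ∃ P : ℤ, P = (V + 1 : ℤ) * 2 ^ (k + s) := ⟨_, rfl⟩
      have h8 : 0 < P := by
        rw [hP]
        positivity
      have h9 : (2 : ℤ) ^ (k + s) * V ≤ P := by
        rw [hP, add_mul, one_mul, mul_comm]
        linarith
      have h10 : (V + 1 : ℤ) * 2 ^ (k + s + 5) = 32 * P := by
        rw [hP, hp5]
        ring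
      rw [h10] at hbig hT
      linarith
    have hrun : ∀ S : Set (List Bool), (∀ g ∈ lws t e la d', g ∈ S) → t ∈ ERL dir k K (RunB k s S V) := by
      intro S hS
      refine ⟨htW, m, u, e, hF, la, d', by omega, h0, by omega, ?_, fun g hg => ?_, hVsum⟩
      · intro h5
        have h6 := congrArg List.length h5
        rw [PE.lws_length, List.length_nil] at h6
        omega
      · obtain ⟨n, n1, n2, n3⟩ := hbr g hg
        exact ⟨hS g hg, n3, n, n2, n1⟩
    rcases hshape with hno | hno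
    · left
      refine ⟨dir, hrun _ fun g hg => ?_⟩
      obtain ⟨i, hi, rfl⟩ := NC.lws_mem hg
      refine leaf_PA ht (by omega : 1 ≤ k + 5) hF (j := la + i) (by omega) (by omega) (x := x) (y := y) ?_ ?_ hno
      · rw [z1] at hz1
        exact hz1.trans (lf_mono hF (by omega) (by omega))
      · rw [z2] at hz2
        exact (lf_mono hF (by omega) (by omega)).trans hz2
    · right
      left
      refine ⟨dir, hrun _ fun g hg => ?_⟩
      obtain ⟨i, hi, rfl⟩ := NC.lws_mem hg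
      refine leaf_PB ht (by omega : 1 ≤ k + 5) hF (j := la + i) (by omega) (by omega) (x := x) (y := y) ?_ ?_ hno
      · rw [z1] at hz1
        exact hz1.trans (lf_mono hF (by omega) (by omega))
      · rw [z2] at hz2
        exact (lf_mono hF (by omega) (by omega)).trans hz2

end SIM

end HexObs
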