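import Pool.Agent.PHW.GgJump
import Pool.Agent.TightS.DefsS

/-!
SIM: bridges without a piece of a given class between two cuts are rare.
-/

set_option autoImplicit false

namespace HexObs

namespace SIM

open Finset TS

open scoped ENNReal

/-- the bridges with a piece of S between two cuts -/
def HasP (S : Set (List Bool)) : Set (List Bool) := {Z | ∃ A G B, A ∈ BU ∧ G ∈ S ∧ B ∈ BU ∧ Z = A ++ (G ++ B)}

namespace RareA

lemma sum_rev (K : ℕ) (f : ℕ → ℝ) : ∑ y ∈ range (K + 1), f (K + 1 - y) = ∑ m ∈ Icc 1 (K + 1), f m := by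
  refine sum_bij' (fun y _ => K + 1 - y) (fun m _ => K + 1 - m) ?_ ?_ ?_ ?_ ?_
  · intro y hy
    rw [mem_range] at hy
    rw [mem_Icc]
    omega
  · intro m hm
    rw [mem_Icc] at hm
    rw [mem_range]
    omega
  · intro y hy
    rw [mem_range] at hy
    omega
  · intro m hm
    rw [mem_Icc] at hm
    omega
  · intro y _
    rfl

/-- the mean of the truncated first piece -/
lemma sum_KK (n : ℕ) : ((n : ℝ) + 1) ≤ UU n * ∑ m ∈ Icc 1 (n + 1), KK' m := by
  have h1 : ∑ N ∈ range (n + 1), ∑ y ∈ range (N + 1), uu y * KK' (N + 1 - y) = (n : ℝ) + 1 := by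
    rw [sum_congr rfl fun N _ => KK_renewal N, sum_const, card_range, nsmul_eq_mul, mul_one]
    push_cast
    ring
  rw [← h1]
  unfold UU
  calc ∑ N ∈ range (n + 1), ∑ y ∈ range (N + 1), uu y * KK' (N + 1 - y)
      = ∑ N ∈ range (n + 1), ∑ y ∈ range (n + 1), (if y ≤ N then uu y * KK' (N + 1 - y) else 0) := by
        refine sum_congr rfl fun N hN => ?_
        rw [mem_range] at hN
        rw [← sum_filter]
        refine sum_congr ?_ fun _ _ => rfl
        ext y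
        rw [mem_filter, mem_range, mem_range]
        omega
    _ = ∑ y ∈ range (n + 1), ∑ N ∈ range (n + 1), (if y ≤ N then uu y * KK' (N + 1 - y) else 0) := sum_comm
    _ ≤ ∑ y ∈ range (n + 1), uu y * ∑ m ∈ Icc 1 (n + 1), KK' m := by
        refine sum_le_sum fun y hy => ?_
        rw [← sum_filter, ← mul_sum]
        refine mul_le_mul_of_nonneg_left ?_ (uu_pos y).le
        calc ∑ N ∈ (range (n + 1)).filter (fun N => y ≤ N), KK' (N + 1 - y)
            = ∑ m ∈ ((range (n + 1)).filter (fun N => y ≤ N)).image (fun N => N + 1 - y), KK' m := by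
              rw [sum_image]
              intro a ha b hb hab
              simp only [coe_filter, mem_range, Set.mem_ofPred_eq] at ha hb hab
              omega
          _ ≤ ∑ m ∈ Icc 1 (n + 1), KK' m := by
              refine sum_le_sum_of_subset_of_nonneg ?_ fun m _ _ => KK_nonneg m
              intro m hm
              rw [mem_image] at hm
              obtain ⟨N, hN, rfl⟩ := hm
              rw [mem_filter, mem_range] at hN
              rw [mem_Icc]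
              omega
    _ = (∑ y ∈ range (n + 1), uu y) * ∑ m ∈ Icc 1 (n + 1), KK' m := (sum_mul _ _ _).symm

lemma CW0 : 0 < 6 + CW := by
  have := Num2Aux.CW_pos
  linarith

/-- the good trials have a positive mass -/
lemma trial : ∃ c : ℝ, 0 < c ∧ ∀ ρ : ℕ, 1 ≤ ρ → c ≤ ∑ b ∈ Icc (2 * ρ) (3 * ρ), uu b * KK' (3 * ρ + 1 - b) := by
  have hC := CW0
  refine ⟨1 / ((6 + CW) * (2 * (6 + CW) * (2 * (6 + CW)))), by positivity, fun ρ hρ => ?_⟩
  have h1 : uu (3 * ρ) * ∑ m ∈ Icc 1 (ρ + 1), KK' m ≤ ∑ b ∈ Icc (2 * ρ) (3 * ρ), uu b * KK' (3 * ρ + 1 - b) := by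
    rw [mul_sum]
    have e : ∑ b ∈ Icc (2 * ρ) (3 * ρ), uu b * KK' (3 * ρ + 1 - b) =
        ∑ m ∈ Icc 1 (ρ + 1), uu (3 * ρ + 1 - m) * KK' m := by
      refine sum_bij' (fun b _ => 3 * ρ + 1 - b) (fun m _ => 3 * ρ + 1 - m) ?_ ?_ ?_ ?_ ?_
      · intro y hy
        rw [mem_Icc] at hy
        rw [mem_Icc]
        omega
      · intro m hm
        rw [mem_Icc] at hm
        rw [mem_Icc]
        omega
      · intro y hy
        rw [mem_Icc] at hy
        omega
      · intro m hm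
        rw [mem_Icc] at hm
        omega
      · intro y hy
        rw [mem_Icc] at hy
        have : 3 * ρ + 1 - (3 * ρ + 1 - y) = y := by omega
        rw [this]
    rw [e]
    refine sum_le_sum fun m hm => ?_
    rw [mem_Icc] at hm
    exact mul_le_mul_of_nonneg_right (uu_anti (by omega)) (KK_nonneg m)
  refine le_trans ?_ h1
  have h2 := sum_KK ρ
  have h3 := UU_le_mul hρ
  have h4 := uu_double hρ
  have h5 := uu_double (T := 2 * ρ) (by omega)
  have h6 : uu (2 * (2 * ρ)) ≤ uu (3 * ρ) := uu_anti (by omega)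
  have hS : 0 ≤ ∑ m ∈ Icc 1 (ρ + 1), KK' m := sum_nonneg fun m _ => KK_nonneg m
  obtain ⟨S, hSe⟩ : ∃ S : ℝ, S = ∑ m ∈ Icc 1 (ρ + 1), KK' m := ⟨_, rfl⟩
  rw [← hSe] at h2 hS ⊢
  have hρ' : (1 : ℝ) ≤ ρ := by exact_mod_cast hρ
  have h7 : uu ρ ≤ 2 * (6 + CW) * (2 * (6 + CW)) * uu (3 * ρ) := by
    calc uu ρ ≤ 2 * (6 + CW) * uu (2 * ρ) := h4
      _ ≤ 2 * (6 + CW) * (2 * (6 + CW) * uu (2 * (2 * ρ))) := mul_le_mul_of_nonneg_left h5 (by positivity)
      _ ≤ 2 * (6 + CW) * (2 * (6 + CW) * uu (3 * ρ)) := by gcongr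
      _ = _ := by ring
  rw [div_le_iff₀ (by positivity)]
  have h8 : (ρ : ℝ) * 1 ≤ ρ * (uu (3 * ρ) * S * ((6 + CW) * (2 * (6 + CW) * (2 * (6 + CW))))) := by
    calc (ρ : ℝ) * 1 ≤ ρ + 1 := by linarith
      _ ≤ UU ρ * S := h2
      _ ≤ (6 + CW) * (ρ * uu ρ) * S := mul_le_mul_of_nonneg_right h3 hS
      _ ≤ (6 + CW) * (ρ * (2 * (6 + CW) * (2 * (6 + CW)) * uu (3 * ρ))) * S := by gcongr
      _ = _ := by ring
  exact le_of_mul_le_mul_left h8 (by linarith)

/-- a long jump over the level K, seen from L -/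
lemma jumpL {K L : ℕ} (h : K ≤ L) : ∑ b ∈ range (K + 1), uu b * KK' (L + 1 - b) ≤ UU K / UU (L - K) := no_cut h

lemma kk_Ico (m n : ℕ) : ∑ r ∈ Ico (m + 1) n, kk r ≤ KK' (m + 1) := by
  unfold KK'
  rcases Nat.lt_or_ge n (m + 1) with h | h
  · rw [Ico_eq_empty (by omega), sum_empty]
    linarith [sum_kk_le (m + 1)]
  · have h2 := sum_range_add_sum_Ico (fun r => kk r) h
    linarith [sum_kk_le n]

/-- the probability that there is no mark up to the level L -/
noncomputable def pL (a : ℕ → ℝ) (L : ℕ) : ℝ := ∑ x ∈ range (L + 1), a x * KK' (L + 1 - x)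

section Num

variable {a s : ℕ → ℝ} {K : ℕ} (ha0 : ∀ x, 0 ≤ a x) (hau : ∀ x, a x ≤ uu x) (hs0 : ∀ x, 0 ≤ s x)
  (hsu : ∀ x, s x ≤ uu x)
  (hrec : ∀ x, K < x → a x ≤ ∑ b ∈ range (K + 1), ∑ r ∈ Ico (K + 1 - b) (x - b + 1), s b * kk r * a (x - b - r))

include ha0 hau in
lemma pL_bd (L : ℕ) : 0 ≤ pL a L ∧ pL a L ≤ 1 := by
  refine ⟨sum_nonneg fun x _ => mul_nonneg (ha0 x) (KK_nonneg _), ?_⟩
  rw [← KK_renewal L]
  exact sum_le_sum fun x _ => mul_le_mul_of_nonneg_right (hau x) (KK_nonneg _)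

include hau hrec in
lemma pL_rec {L : ℕ} (hL : K ≤ L) : pL a L ≤ ∑ b ∈ range (K + 1), uu b * KK' (L + 1 - b) +
    ∑ b ∈ range (K + 1), ∑ r ∈ Ico (K + 1 - b) (L - b + 1), s b * kk r * pL a (L - b - r) := by
  have h0 : pL a L = ∑ x ∈ range (K + 1), a x * KK' (L + 1 - x) + ∑ x ∈ Ico (K + 1) (L + 1), a x * KK' (L + 1 - x) := by
    unfold pL
    rw [sum_range_add_sum_Ico _ (by omega)]
  rw [h0]
  refine add_le_add (sum_le_sum fun x _ => mul_le_mul_of_nonneg_right (hau x) (KK_nonneg _)) ?_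
  calc ∑ x ∈ Ico (K + 1) (L + 1), a x * KK' (L + 1 - x)
      ≤ ∑ x ∈ Ico (K + 1) (L + 1), ∑ b ∈ range (K + 1), ∑ r ∈ Ico (K + 1 - b) (L - b + 1),
          (if b + r ≤ x then s b * kk r * (a (x - b - r) * KK' (L + 1 - x)) else 0) := by
        refine sum_le_sum fun x hx => ?_
        rw [mem_Ico] at hx
        refine (mul_le_mul_of_nonneg_right (hrec x (by omega)) (KK_nonneg _)).trans (le_of_eq ?_)
        rw [sum_mul]
        refine sum_congr rfl fun b hb => ?_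
        rw [mem_range] at hb
        rw [sum_mul, ← sum_filter]
        refine sum_congr ?_ fun r _ => by ring
        ext r
        rw [mem_filter, mem_Ico, mem_Ico]
        omega
    _ = ∑ b ∈ range (K + 1), ∑ r ∈ Ico (K + 1 - b) (L - b + 1), ∑ x ∈ Ico (K + 1) (L + 1),
          (if b + r ≤ x then s b * kk r * (a (x - b - r) * KK' (L + 1 - x)) else 0) := by
        rw [sum_comm]
        exact sum_congr rfl fun b _ => sum_comm
    _ ≤ _ := by
        refine sum_le_sum fun b hb => sum_le_sum fun r hr => le_of_eq ?_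
        rw [mem_range] at hb
        rw [mem_Ico] at hr
        rw [← sum_filter, ← mul_sum]
        congr 1
        unfold pL
        have e1 : (Ico (K + 1) (L + 1)).filter (fun x => b + r ≤ x) = Ico (b + r) (L + 1) := by
          ext x
          rw [mem_filter, mem_Ico, mem_Ico]
          omega
        rw [e1, sum_Ico_eq_sum_range]
        have e2 : L + 1 - (b + r) = L - b - r + 1 := by omega
        rw [e2]
        refine sum_congr rfl fun x hx => ?_
        rw [mem_range] at hx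
        have e3 : b + r + x - b - r = x := by omega
        have e4 : L + 1 - (b + r + x) = L - b - r + 1 - x := by omega
        rw [e3, e4]

include ha0 hau hs0 hsu hrec in
lemma pL_step {c : ℝ} (hc : ∑ b ∈ range (K + 1), s b * KK' (K + 1 - b) ≤ 1 - c) {R : ℕ} (hR : K ≤ R)
    {B : ℝ} (hB : 0 ≤ B) {L : ℕ} (hL : R ≤ L) (h : ∀ L', L' ≤ L → L ≤ L' + R → pL a L' ≤ B) :
    pL a L ≤ (1 - c) * B + 2 * (UU K / UU (R - K)) := by
  have h1 := pL_rec hau hrec (hR.trans hL)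
  have h2 : ∑ b ∈ range (K + 1), uu b * KK' (L + 1 - b) ≤ UU K / UU (R - K) := by
    refine (jumpL (hR.trans hL)).trans ?_
    have := Num2Aux.UU_pos (R - K)
    have h4 := Num2Aux.UU_pos K
    exact div_le_div_of_nonneg_left h4.le this (Num2Aux.UU_mono (by omega))
  have h3 : ∑ b ∈ range (K + 1), ∑ r ∈ Ico (K + 1 - b) (L - b + 1), s b * kk r * pL a (L - b - r) ≤
      (1 - c) * B + UU K / UU (R - K) := by
    calc ∑ b ∈ range (K + 1), ∑ r ∈ Ico (K + 1 - b) (L - b + 1), s b * kk r * pL a (L - b - r)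
        ≤ ∑ b ∈ range (K + 1), (s b * KK' (K + 1 - b) * B + uu b * KK' (R + 1 - b)) := by
          refine sum_le_sum fun b hb => ?_
          rw [mem_range] at hb
          have e : Ico (K + 1 - b) (L - b + 1) ⊆ Ico (K + 1 - b) (R - b + 1) ∪ Ico (R - b + 1) (L - b + 1) := by
            intro r hr
            rw [mem_Ico] at hr
            rw [mem_union, mem_Ico, mem_Ico]
            omega
          have hnn : ∀ r, 0 ≤ s b * kk r * pL a (L - b - r) := fun r =>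
            mul_nonneg (mul_nonneg (hs0 b) (kk_nonneg r)) (pL_bd ha0 hau _).1
          refine (sum_le_sum_of_subset_of_nonneg e fun r _ _ => hnn r).trans ?_
          rw [sum_union (by
            rw [disjoint_left]
            intro r hr hr'
            rw [mem_Ico] at hr hr'
            omega)]
          refine add_le_add ?_ ?_
          · calc ∑ r ∈ Ico (K + 1 - b) (R - b + 1), s b * kk r * pL a (L - b - r)
                ≤ ∑ r ∈ Ico (K + 1 - b) (R - b + 1), s b * kk r * B := by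
                  refine sum_le_sum fun r hr => ?_
                  rw [mem_Ico] at hr
                  exact mul_le_mul_of_nonneg_left (h _ (by omega) (by omega)) (mul_nonneg (hs0 b) (kk_nonneg r))
              _ = s b * (∑ r ∈ Ico (K + 1 - b) (R - b + 1), kk r) * B := by
                  rw [mul_sum, sum_mul]
              _ ≤ s b * KK' (K + 1 - b) * B := by
                  refine mul_le_mul_of_nonneg_right (mul_le_mul_of_nonneg_left ?_ (hs0 b)) hB
                  have e2 : K + 1 - b = K - b + 1 := by omega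
                  rw [e2]
                  exact kk_Ico _ _
          · calc ∑ r ∈ Ico (R - b + 1) (L - b + 1), s b * kk r * pL a (L - b - r)
                ≤ ∑ r ∈ Ico (R - b + 1) (L - b + 1), uu b * kk r := by
                  refine sum_le_sum fun r _ => ?_
                  calc s b * kk r * pL a (L - b - r) ≤ s b * kk r * 1 :=
                        mul_le_mul_of_nonneg_left (pL_bd ha0 hau _).2 (mul_nonneg (hs0 b) (kk_nonneg r))
                    _ ≤ uu b * kk r := by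
                        rw [mul_one]
                        exact mul_le_mul_of_nonneg_right (hsu b) (kk_nonneg r)
              _ = uu b * ∑ r ∈ Ico (R - b + 1) (L - b + 1), kk r := (mul_sum _ _ _).symm
              _ ≤ uu b * KK' (R + 1 - b) := by
                  refine mul_le_mul_of_nonneg_left ?_ (uu_pos b).le
                  have e2 : R + 1 - b = R - b + 1 := by omega
                  rw [e2]
                  exact kk_Ico _ _
      _ = (∑ b ∈ range (K + 1), s b * KK' (K + 1 - b)) * B + ∑ b ∈ range (K + 1), uu b * KK' (R + 1 - b) := by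
          rw [sum_add_distrib, sum_mul]
      _ ≤ _ := add_le_add (mul_le_mul_of_nonneg_right hc hB) (jumpL hR)
  linarith

include ha0 hau hs0 hsu hrec in
lemma pL_iter {c : ℝ} (hc0 : 0 ≤ c) (hc1 : c ≤ 1)
    (hc : ∑ b ∈ range (K + 1), s b * KK' (K + 1 - b) ≤ 1 - c) {R : ℕ} (hR : K ≤ R) (M : ℕ) :
    ∀ L, M * R ≤ L → pL a L ≤ (1 - c) ^ M + M * (2 * (UU K / UU (R - K))) := by
  have hd : 0 ≤ UU K / UU (R - K) := div_nonneg (Num2Aux.UU_pos _).le (Num2Aux.UU_pos _).le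
  induction M with
  | zero =>
    intro L _
    have := (pL_bd ha0 hau L).2
    simpa using this
  | succ M ih =>
    intro L hL
    have hB : 0 ≤ (1 - c) ^ M + M * (2 * (UU K / UU (R - K))) := by
      have : 0 ≤ (1 - c) ^ M := pow_nonneg (by linarith) _
      positivity
    have h1 := pL_step ha0 hau hs0 hsu hrec hc hR hB (L := L) (by nlinarith) (fun L' _ h2 => ih L' (by
      have : (M + 1) * R = M * R + R := by ring
      omega))
    refine h1.trans ?_
    have h2 : (1 - c) * ((M : ℝ) * (2 * (UU K / UU (R - K)))) ≤ 1 * ((M : ℝ) * (2 * (UU K / UU (R - K)))) :=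
      mul_le_mul_of_nonneg_right (by linarith) (by positivity)
    rw [pow_succ]
    push_cast
    linarith

end Num

/-- one step: the piece that jumps over the level l -/
lemma cover {n l : ℕ} (h : l < n) {W W1 W2 : Set (List Bool)}
    (hW : ∀ A P U, A ∈ BU → P ∈ IU → U ∈ BU → A ++ (P ++ U) ∈ W → A ∈ W1 ∧ U ∈ W2) :
    gf {Z | Z ∈ Brd n ∧ Z ∈ W} ≤ ∑ b ∈ range (l + 1), ∑ r ∈ Ico (l + 1 - b) (n - b + 1),
      gf {A | A ∈ Brd b ∧ A ∈ W1} * (kap' r * gf {U | U ∈ Brd (n - b - r) ∧ U ∈ W2}) := by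
  have hc : {Z | Z ∈ Brd n ∧ Z ∈ W} ⊆ ⋃ b ∈ range (l + 1), ⋃ r ∈ Ico (l + 1 - b) (n - b + 1),
      {Z | ∃ A ∈ {A | A ∈ Brd b ∧ A ∈ W1}, ∃ V ∈ {V | ∃ P ∈ Irr r, ∃ U ∈ {U | U ∈ Brd (n - b - r) ∧ U ∈ W2}, V = P ++ U},
        Z = A ++ V} := by
    rintro Z ⟨hZ, hZW⟩
    obtain ⟨j, r, A, P, U, h1, h2, h3, hA, hP, hU, he⟩ := jump_dec h hZ
    rw [List.append_assoc] at he
    have h4 := hW A P U ⟨j, hA⟩ ⟨r, hP⟩ ⟨_, hU⟩ (he ▸ hZW)
    rw [Set.mem_iUnion₂]
    refine ⟨j, mem_range.2 (by omega), ?_⟩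
    rw [Set.mem_iUnion₂]
    exact ⟨r, mem_Ico.2 ⟨by omega, by omega⟩, A, ⟨hA, h4.1⟩, P ++ U, ⟨P, hP, U, ⟨hU, h4.2⟩, rfl⟩, he⟩
  refine (gf_mono hc).trans ((GgJumpAux.gf_biUnion_le _ _).trans (sum_le_sum fun b _ => ?_))
  refine (GgJumpAux.gf_biUnion_le _ _).trans (sum_le_sum fun r _ => ?_)
  refine (gf_le_mul (fun t ht => ht)).trans ?_
  exact mul_le_mul' le_rfl (gf_le_mul (fun t ht => ht))

lemma BT_uu (T : ℕ) : gf (Brd T) = ENNReal.ofReal (uu T) := by
  rw [gf_Brd]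
  exact BT_eq_uu T

/-- the real mass of the bridges of height x in W -/
noncomputable def gW (W : Set (List Bool)) (x : ℕ) : ℝ := (gf {Z | Z ∈ Brd x ∧ Z ∈ W}).toReal

lemma gW_nt (W : Set (List Bool)) (x : ℕ) : gf {Z | Z ∈ Brd x ∧ Z ∈ W} ≠ ∞ := by
  refine ne_top_of_le_ne_top ?_ (gf_mono (Q := Brd x) fun Z hZ => hZ.1)
  rw [BT_uu]
  exact ENNReal.ofReal_ne_top

lemma gW_eq (W : Set (List Bool)) (x : ℕ) : gf {Z | Z ∈ Brd x ∧ Z ∈ W} = ENNReal.ofReal (gW W x) :=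
  (ENNReal.ofReal_toReal (gW_nt W x)).symm

lemma gW_nn (W : Set (List Bool)) (x : ℕ) : 0 ≤ gW W x := ENNReal.toReal_nonneg

lemma gW_le (W : Set (List Bool)) (x : ℕ) : gW W x ≤ uu x := by
  unfold gW
  refine ENNReal.toReal_le_of_le_ofReal (uu_pos x).le ?_
  rw [← BT_uu]
  exact gf_mono fun Z hZ => hZ.1

lemma cover_real {n l : ℕ} (h : l < n) {W W1 W2 : Set (List Bool)}
    (hW : ∀ A P U, A ∈ BU → P ∈ IU → U ∈ BU → A ++ (P ++ U) ∈ W → A ∈ W1 ∧ U ∈ W2) :
    gW W n ≤ ∑ b ∈ range (l + 1), ∑ r ∈ Ico (l + 1 - b) (n - b + 1), gW W1 b * kk r * gW W2 (n - b - r) := by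
  have h1 := cover h hW
  have hnn : ∀ b r, 0 ≤ gW W1 b * kk r * gW W2 (n - b - r) := fun b r =>
    mul_nonneg (mul_nonneg (gW_nn _ _) (kk_nonneg r)) (gW_nn _ _)
  refine ENNReal.toReal_le_of_le_ofReal (sum_nonneg fun b _ => sum_nonneg fun r _ => hnn b r) (h1.trans (le_of_eq ?_))
  rw [ENNReal.ofReal_sum_of_nonneg fun b _ => sum_nonneg fun r _ => hnn b r]
  refine sum_congr rfl fun b _ => ?_
  rw [ENNReal.ofReal_sum_of_nonneg fun r _ => hnn b r]
  refine sum_congr rfl fun r _ => ?_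
  rw [gW_eq, gW_eq, kap'_eq, ← ENNReal.ofReal_mul (kk_nonneg r), ← ENNReal.ofReal_mul (gW_nn _ _), mul_assoc]

lemma BU_append {A B : List Bool} (hA : A ∈ BU) (hB : B ∈ BU) : A ++ B ∈ BU := by
  obtain ⟨a, ha⟩ := hA
  obtain ⟨b, hb⟩ := hB
  exact ⟨a + b, Brd_append ha hb⟩

lemma IU_BU {P : List Bool} (hP : P ∈ IU) : P ∈ BU := by
  obtain ⟨r, hr⟩ := hP
  exact ⟨r, hr.1⟩

/-- large steps are rare -/
lemma ratio {ε : ℝ} (hε : 0 < ε) : ∃ Λ : ℕ, 3 ≤ Λ ∧ ∀ ρ : ℕ, 1 ≤ ρ → UU (3 * ρ) / UU (Λ * ρ - 3 * ρ) ≤ ε := by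
  have hC := CW0
  obtain ⟨θ, hθ⟩ : ∃ θ : ℝ, θ = 1 / (6 + CW) := ⟨_, rfl⟩
  have hθ0 : 0 < θ := by rw [hθ]; positivity
  obtain ⟨x, hx1, hx⟩ := ((Filter.eventually_ge_atTop (1 : ℝ)).and
    ((tendsto_rpow_atTop hθ0).eventually_ge_atTop (2 / ε))).exists
  obtain ⟨n, hn⟩ := exists_nat_ge x
  have hn1 : 1 ≤ n := by
    have : (1 : ℝ) ≤ n := hx1.trans hn
    exact_mod_cast this
  refine ⟨3 + 3 * n, by omega, fun ρ hρ => ?_⟩
  have e1 : (3 + 3 * n) * ρ - 3 * ρ = n * (3 * ρ) := by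
    have : (3 + 3 * n) * ρ = 3 * ρ + n * (3 * ρ) := by ring
    omega
  rw [e1]
  have h1 := UU_growth (s := 3 * ρ) (T := n * (3 * ρ)) (by omega) (Nat.le_mul_of_pos_left _ hn1)
  have hρ0 : (0 : ℝ) < ((3 * ρ : ℕ) : ℝ) := by
    have : 0 < 3 * ρ := by omega
    exact_mod_cast this
  have e2 : ((n * (3 * ρ) : ℕ) : ℝ) / ((3 * ρ : ℕ) : ℝ) = n := by
    rw [Nat.cast_mul, mul_div_assoc, div_self hρ0.ne', mul_one]
  rw [e2, ← hθ] at h1
  have h2 : 2 / ε ≤ (n : ℝ) ^ θ := hx.trans (Real.rpow_le_rpow (by linarith) hn hθ0.le)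
  have hU := Num2Aux.UU_pos (n * (3 * ρ))
  have hU' := Num2Aux.UU_pos (3 * ρ)
  rw [div_le_iff₀ hU]
  have h3 : UU (3 * ρ) * (2 / ε) ≤ 2 * UU (n * (3 * ρ)) := (mul_le_mul_of_nonneg_left h2 hU'.le).trans h1
  have h4 : UU (3 * ρ) * (2 / ε) = 2 * (UU (3 * ρ) / ε) := by ring
  rw [h4] at h3
  have h5 : UU (3 * ρ) / ε ≤ UU (n * (3 * ρ)) := by linarith
  rw [div_le_iff₀ hε] at h5
  linarith

end RareA

open RareA

/-- **bridges without a piece of S between two cuts are rare**, if S has a positive fraction of the bridges of every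
height in [2 ρ, 3 ρ] -/
theorem rare {c ε : ℝ} (hc : 0 < c) (hε : 0 < ε) : ∃ C : ℕ, 1 ≤ C ∧ ∀ (ρ : ℕ) (S : Set (List Bool)), 1 ≤ ρ →
    (∀ t, 2 * ρ ≤ t → t ≤ 3 * ρ → ENNReal.ofReal (c * uu t) ≤ gf {G | G ∈ Brd t ∧ G ∈ S}) →
    ∀ h, C * ρ ≤ h → gf {Z | Z ∈ Brd h ∧ Z ∉ HasP S} ≤ ENNReal.ofReal (ε * uu h) := by
  have hC := CW0
  obtain ⟨c1, hc1, htr⟩ := trial
  -- the probability of success
  obtain ⟨q, hq⟩ : ∃ q : ℝ, q = min c 1 * min c1 1 := ⟨_, rfl⟩
  have hm1 : 0 < min c 1 := lt_min hc one_pos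
  have hm2 : 0 < min c1 1 := lt_min hc1 one_pos
  have hq0 : 0 < q := by rw [hq]; positivity
  have hq1 : q ≤ 1 := by
    rw [hq]
    have h1 : min c 1 ≤ 1 := min_le_right _ _
    have h2 : min c1 1 ≤ 1 := min_le_right _ _
    nlinarith
  obtain ⟨ε1, hε1⟩ : ∃ ε1 : ℝ, ε1 = ε / (4 * (6 + CW)) := ⟨_, rfl⟩
  have hε10 : 0 < ε1 := by rw [hε1]; positivity
  obtain ⟨M, hM⟩ := exists_pow_lt_of_lt_one hε10 (by linarith : 1 - q < 1)
  obtain ⟨Λ, hΛ, hrat⟩ := ratio (ε := ε1 / (2 * (M + 1))) (by positivity)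
  refine ⟨2 * M * Λ + 2, by omega, fun ρ S hρ hS h hh => ?_⟩
  obtain ⟨a, ha⟩ : ∃ a : ℕ → ℝ, a = gW (HasP S)ᶜ := ⟨_, rfl⟩
  obtain ⟨s, hs⟩ : ∃ s : ℕ → ℝ, s = gW Sᶜ := ⟨_, rfl⟩
  have ha0 : ∀ x, 0 ≤ a x := fun x => by rw [ha]; exact gW_nn _ _
  have hau : ∀ x, a x ≤ uu x := fun x => by rw [ha]; exact gW_le _ _
  have hs0 : ∀ x, 0 ≤ s x := fun x => by rw [hs]; exact gW_nn _ _
  have hsu : ∀ x, s x ≤ uu x := fun x => by rw [hs]; exact gW_le _ _
  have hdec : ∀ A P U, A ∈ BU → P ∈ IU → U ∈ BU → A ++ (P ++ U) ∈ (HasP S)ᶜ → A ∈ Sᶜ ∧ U ∈ (HasP S)ᶜ := by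
    intro A P U hA hP hU hW
    refine ⟨fun hAS => hW ⟨[], A, P ++ U, ⟨0, nil_mem_Brd⟩, hAS, BU_append (IU_BU hP) hU, rfl⟩, ?_⟩
    rintro ⟨A', G, B, hA', hG, hB, rfl⟩
    exact hW ⟨A ++ (P ++ A'), G, B, BU_append hA (BU_append (IU_BU hP) hA'), hG, hB, by simp only [List.append_assoc]⟩
  have hrec : ∀ x, 3 * ρ < x → a x ≤ ∑ b ∈ range (3 * ρ + 1), ∑ r ∈ Ico (3 * ρ + 1 - b) (x - b + 1),
      s b * kk r * a (x - b - r) := by
    intro x hx
    rw [ha, hs]
    exact cover_real hx hdec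
  -- the trials
  have hsc : ∀ b, 2 * ρ ≤ b → b ≤ 3 * ρ → s b ≤ uu b - min c 1 * uu b := by
    intro b hb1 hb2
    have h1 : gf {G | G ∈ Brd b ∧ G ∈ S} + gf {G | G ∈ Brd b ∧ G ∈ Sᶜ} ≤ gf (Brd b) := by
      rw [← gf_union (by
        rw [Set.disjoint_left]
        rintro G ⟨_, g1⟩ ⟨_, g2⟩
        exact g2 g1)]
      refine gf_mono ?_
      rintro G (g | g)
      · exact g.1
      · exact g.1
    rw [gW_eq Sᶜ, BT_uu] at h1
    have h2 := (add_le_add_left (hS b hb1 hb2) (ENNReal.ofReal (gW Sᶜ b))).trans h1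
    rw [← ENNReal.ofReal_add (mul_nonneg hc.le (uu_pos b).le) (gW_nn _ _),
      ENNReal.ofReal_le_ofReal_iff (uu_pos b).le] at h2
    rw [hs]
    have h3 : min c 1 * uu b ≤ c * uu b := mul_le_mul_of_nonneg_right (min_le_left _ _) (uu_pos b).le
    linarith
  have hcs : ∑ b ∈ range (3 * ρ + 1), s b * KK' (3 * ρ + 1 - b) ≤ 1 - q := by
    have h1 : ∑ b ∈ range (3 * ρ + 1), s b * KK' (3 * ρ + 1 - b) ≤ ∑ b ∈ range (3 * ρ + 1),
        (uu b * KK' (3 * ρ + 1 - b) - if 2 * ρ ≤ b then min c 1 * (uu b * KK' (3 * ρ + 1 - b)) else 0) := by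
      refine sum_le_sum fun b hb => ?_
      rw [mem_range] at hb
      have hK := KK_nonneg (3 * ρ + 1 - b)
      split_ifs with h2
      · have h3 := mul_le_mul_of_nonneg_right (hsc b h2 (by omega)) hK
        linarith
      · have h3 := mul_le_mul_of_nonneg_right (hsu b) hK
        linarith
    refine h1.trans ?_
    rw [sum_sub_distrib, KK_renewal, ← sum_filter, ← mul_sum]
    have e : (range (3 * ρ + 1)).filter (fun b => 2 * ρ ≤ b) = Icc (2 * ρ) (3 * ρ) := by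
      ext b
      rw [mem_filter, mem_range, mem_Icc]
      omega
    rw [e]
    have h2 := htr ρ hρ
    have h3 : q ≤ min c 1 * ∑ b ∈ Icc (2 * ρ) (3 * ρ), uu b * KK' (3 * ρ + 1 - b) := by
      rw [hq]
      exact mul_le_mul_of_nonneg_left ((min_le_left _ _).trans h2) hm1.le
    linarith
  have hΛρ : 3 * ρ ≤ Λ * ρ := Nat.mul_le_mul_right _ hΛ
  have hit := pL_iter ha0 hau hs0 hsu hrec hq0.le hq1 hcs hΛρ M
  -- the half of the bridge
  obtain ⟨l, hl⟩ : ∃ l : ℕ, l = h / 2 := ⟨_, rfl⟩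
  have hl1 : M * (Λ * ρ) ≤ l := by
    have : (2 * M * Λ + 2) * ρ = 2 * (M * (Λ * ρ)) + 2 * ρ := by ring
    omega
  have hl2 : l < h := by
    have : (2 * M * Λ + 2) * ρ = 2 * (M * (Λ * ρ)) + 2 * ρ := by ring
    omega
  have hp : pL a l ≤ 2 * ε1 := by
    refine (hit l hl1).trans ?_
    have h1 := hrat ρ hρ
    have h2 : (M : ℝ) * (2 * (UU (3 * ρ) / UU (Λ * ρ - 3 * ρ))) ≤ M * (2 * (ε1 / (2 * (M + 1)))) := by gcongr
    have h3 : (M : ℝ) * (2 * (ε1 / (2 * (M + 1)))) ≤ ε1 := by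
      have : (M : ℝ) * (2 * (ε1 / (2 * (M + 1)))) = ε1 * (M / (M + 1)) := by field_simp
      rw [this]
      have h4 : (M : ℝ) / (M + 1) ≤ 1 := by
        rw [div_le_one (by positivity)]
        linarith
      nlinarith
    linarith [hM.le]
  have hfin : gW (HasP S)ᶜ h ≤ uu (h - l) * pL a l := by
    have h1 := cover (W := (HasP S)ᶜ) (W1 := (HasP S)ᶜ) (W2 := Set.univ) hl2 (by
      intro A P U hA hP hU hW
      refine ⟨?_, Set.mem_univ _⟩
      rintro ⟨A', G, B, hA', hG, hB, rfl⟩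
      exact hW ⟨A', G, B ++ (P ++ U), hA', hG, BU_append hB (BU_append (IU_BU hP) hU), by simp only [List.append_assoc]⟩)
    refine ENNReal.toReal_le_of_le_ofReal (mul_nonneg (uu_pos _).le (pL_bd ha0 hau _).1) (h1.trans ?_)
    unfold pL
    rw [mul_sum, ENNReal.ofReal_sum_of_nonneg fun x _ => mul_nonneg (uu_pos _).le (mul_nonneg (ha0 _) (KK_nonneg _))]
    refine sum_le_sum fun b hb => ?_
    rw [mem_range] at hb
    rw [← mul_sum, gW_eq, ← ha]
    have h2 := sum_kap_u (l - b) (h - b)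
    have h3 : ∑ r ∈ Ico (l + 1 - b) (h - b + 1), kap' r * gf {U | U ∈ Brd (h - b - r) ∧ U ∈ Set.univ} ≤
        ENNReal.ofReal (KK' (l + 1 - b) * uu (h - b)) := by
      have e : l - b + 1 = l + 1 - b := by omega
      rw [e] at h2
      refine le_trans (sum_le_sum fun r _ => mul_le_mul' le_rfl ?_) h2
      rw [← gf_Brd]
      exact gf_mono fun U hU => hU.1
    refine (mul_le_mul' le_rfl h3).trans ?_
    rw [← ENNReal.ofReal_mul (ha0 b)]
    apply ENNReal.ofReal_le_ofReal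
    have h4 : uu (h - b) ≤ uu (h - l) := uu_anti (by omega)
    calc a b * (KK' (l + 1 - b) * uu (h - b)) ≤ a b * (KK' (l + 1 - b) * uu (h - l)) :=
          mul_le_mul_of_nonneg_left (mul_le_mul_of_nonneg_left h4 (KK_nonneg _)) (ha0 b)
      _ = _ := by ring
  have hlast : gW (HasP S)ᶜ h ≤ ε * uu h := by
    have h1 := uu_double (T := h - l) (by omega)
    have h2 : uu (2 * (h - l)) ≤ uu h := uu_anti (by omega)
    have h3 : uu (h - l) ≤ 2 * (6 + CW) * uu h := h1.trans (mul_le_mul_of_nonneg_left h2 (by positivity))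
    calc gW (HasP S)ᶜ h ≤ uu (h - l) * pL a l := hfin
      _ ≤ (2 * (6 + CW) * uu h) * (2 * ε1) :=
          mul_le_mul h3 hp (pL_bd ha0 hau _).1 (mul_nonneg (by positivity) (uu_pos h).le)
      _ = ε * uu h := by
          rw [hε1]
          field_simp
          ring
  have h5 : gf {Z | Z ∈ Brd h ∧ Z ∉ HasP S} = ENNReal.ofReal (gW (HasP S)ᶜ h) := gW_eq _ _
  rw [h5]
  exact ENNReal.ofReal_le_ofReal hlast

end SIM

end HexObs
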