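import Pool.Agent.SIM.LawS

/-!
# SIM/EveryN: the curve of a self-avoiding walk is injective; near double points for every n (helper62)

* **`curve_inj`** : the curve of every self-avoiding walk with n >= 1 steps is injective;
* **`sim_every`** : LawSim for every n >= 1.
-/

set_option autoImplicit false

namespace HexObs

namespace SIM

open MeasureTheory Set Metric Filter Topology

open Pool.Agent.NTS.Res

open NTSF (pos_succ pos_zero mem_saw curve_eq size_pos law_le saw_card_pos)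

open NTF (JJ JJ_add JJ_neg JJ_inj JJ_re JJ_im JJ_de Ed de)

open scoped ENNReal Classical

/-- the lattice points of the walk -/
def vtx {n : ℕ} (s : Fin n → Fin 3) : ℕ → Pt
  | 0 => (0, 0)
  | k + 1 => if h : k < n then vtx s k + de k (s ⟨k, h⟩) else vtx s k

lemma pos_vtx {n : ℕ} (s : Fin n → Fin 3) : ∀ k : ℕ, k ≤ n → Pool.Agent.NTS.Res.pos s k = JJ (vtx s k) := by
  intro k
  induction k with
  | zero =>
    intro _
    rw [pos_zero]
    apply Complex.ext
    · rw [JJ_re]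
      simp [vtx]
    · rw [JJ_im]
      simp [vtx]
  | succ k ih =>
    intro hk
    have h1 : vtx s (k + 1) = vtx s k + de k (s ⟨k, by omega⟩) := by
      conv_lhs => unfold vtx
      rw [dif_pos (by omega)]
    rw [pos_succ s k (by omega), ih (by omega), h1, JJ_add, JJ_de]
    rfl

/-- the even end and the odd end of the step i -/
def ev (i : ℕ) : ℕ := if Even i then i else i + 1

/-- the odd end of the step i -/
def od (i : ℕ) : ℕ := if Even i then i + 1 else i

lemma vtx_step {n : ℕ} (s : Fin n → Fin 3) {i : ℕ} (hi : i < n) :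
    vtx s (od i) = vtx s (ev i) + Ed (s ⟨i, hi⟩) := by
  have h1 : vtx s (i + 1) = vtx s i + de i (s ⟨i, hi⟩) := by
    conv_lhs => unfold vtx
    rw [dif_pos hi]
  unfold ev od
  unfold de at h1
  split_ifs at h1 ⊢ with h
  · exact h1
  · rw [h1, neg_add_cancel_right]

lemma ed_cases (a : Fin 3) : Ed a = (0, 1) ∨ Ed a = (-1, 0) ∨ Ed a = (1, -1) := by
  fin_cases a
  · left
    rfl
  · right
    left
    rfl
  · right
    right
    rfl

lemma vtx_mod {n : ℕ} (s : Fin n → Fin 3) : ∀ k : ℕ, k ≤ n →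
    ∃ z : ℤ, (vtx s k).1 - (vtx s k).2 = 3 * z - (if Even k then 0 else 1) := by
  intro k
  induction k with
  | zero =>
    intro _
    exact ⟨0, by simp [vtx]⟩
  | succ k ih =>
    intro hk
    obtain ⟨z, hz⟩ := ih (by omega)
    have h1 : vtx s (k + 1) = vtx s k + de k (s ⟨k, by omega⟩) := by
      conv_lhs => unfold vtx
      rw [dif_pos (by omega)]
    rw [h1]
    unfold de
    have h2 : Even (k + 1) ↔ ¬ Even k := Nat.even_add_one
    by_cases h : Even k
    · rw [if_pos h] at hz ⊢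
      rw [if_neg (by rw [h2]; exact fun h' => h' h)]
      rcases ed_cases (s ⟨k, by omega⟩) with e | e | e <;> rw [e]
      · exact ⟨z, by simp only [Prod.fst_add, Prod.snd_add]; omega⟩
      · exact ⟨z, by simp only [Prod.fst_add, Prod.snd_add]; omega⟩
      · exact ⟨z + 1, by simp only [Prod.fst_add, Prod.snd_add]; omega⟩
    · rw [if_neg h] at hz ⊢
      rw [if_pos (h2.2 h)]
      rcases ed_cases (s ⟨k, by omega⟩) with e | e | e <;> rw [e]
      · exact ⟨z, by simp only [Prod.fst_add, Prod.snd_add, Prod.neg_mk]; omega⟩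
      · exact ⟨z, by simp only [Prod.fst_add, Prod.snd_add, Prod.neg_mk]; omega⟩
      · exact ⟨z - 1, by simp only [Prod.fst_add, Prod.snd_add, Prod.neg_mk]; omega⟩

/-- two edges of the lattice meet only in a common end -/
lemma edges_meet {P Q : Pt} {a b : Fin 3} {t r : ℝ} (t0 : 0 ≤ t) (t1 : t ≤ 1) (r0 : 0 ≤ r) (r1 : r ≤ 1)
    (hP : ∃ z : ℤ, P.1 - P.2 = 3 * z) (hQ : ∃ z : ℤ, Q.1 - Q.2 = 3 * z)
    (hx : (P.1 : ℝ) + t * ((Ed a).1 : ℤ) = Q.1 + r * ((Ed b).1 : ℤ))
    (hy : (P.2 : ℝ) + t * ((Ed a).2 : ℤ) = Q.2 + r * ((Ed b).2 : ℤ)) :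
    t = r ∧ ((P = Q ∧ (P + Ed a = Q + Ed b ∨ t = 0)) ∨ (t = 1 ∧ P + Ed a = Q + Ed b)) := by
  obtain ⟨z, hz⟩ := hP
  obtain ⟨w, hw⟩ := hQ
  obtain ⟨p1, p2⟩ := P
  obtain ⟨q1, q2⟩ := Q
  simp only at hz hw hx hy ⊢
  obtain ⟨X, hX⟩ : ∃ X : ℤ, X = p1 - q1 := ⟨_, rfl⟩
  obtain ⟨Y, hY⟩ : ∃ Y : ℤ, Y = p2 - q2 := ⟨_, rfl⟩
  have hX' : (X : ℝ) = p1 - q1 := by
    rw [hX]
    push_cast
    ring
  have hY' : (Y : ℝ) = p2 - q2 := by
    rw [hY]
    push_cast
    ring
  have hXY : X - Y = 3 * (z - w) := by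
    rw [hX, hY]
    linarith
  have lo : ∀ (x : ℤ) (c : ℤ), (c : ℝ) ≤ x → c ≤ x := fun x c h => by exact_mod_cast h
  have up' : ∀ (x : ℤ) (c : ℤ), (x : ℝ) ≤ c → x ≤ c := fun x c h => by exact_mod_cast h
  rcases ed_cases a with ea | ea | ea <;> rcases ed_cases b with eb | eb | eb <;> rw [ea, eb] at hx hy ⊢ <;>
    push_cast at hx hy
  · -- (0,1), (0,1)
    have h1 : (-1 : ℤ) ≤ Y := lo _ _ (by push_cast; linarith)
    have h2 : Y ≤ 1 := up' _ _ (by push_cast; linarith)
    have h3 : X ≤ 0 := up' _ _ (by push_cast; linarith)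
    have h4 : 0 ≤ X := lo _ _ (by push_cast; linarith)
    have h5 : Y = 0 := by omega
    have h6 : X = 0 := by omega
    rw [h5] at hY'
    push_cast at hY'
    refine ⟨by linarith, Or.inl ⟨?_, Or.inl ?_⟩⟩
    · rw [Prod.mk.injEq]
      constructor <;> omega
    · rw [Prod.mk_add_mk, Prod.mk_add_mk, Prod.mk.injEq]
      constructor <;> omega
  · -- (0,1), (-1,0)
    have h1 : (-1 : ℤ) ≤ Y := lo _ _ (by push_cast; linarith)
    have h2 : Y ≤ 0 := up' _ _ (by push_cast; linarith)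
    have h3 : X ≤ 0 := up' _ _ (by push_cast; linarith)
    have h4 : -1 ≤ X := lo _ _ (by push_cast; linarith)
    have h5 : X = Y := by omega
    rcases (by omega : Y = 0 ∨ Y = -1) with h6 | h6
    · rw [h6] at h5 hY'
      rw [h5] at hX'
      push_cast at hX' hY'
      refine ⟨by linarith, Or.inl ⟨?_, Or.inr (by linarith)⟩⟩
      rw [Prod.mk.injEq]
      constructor <;> omega
    · rw [h6] at h5 hY'
      rw [h5] at hX'
      push_cast at hX' hY'
      refine ⟨by linarith, Or.inr ⟨by linarith, ?_⟩⟩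
      rw [Prod.mk_add_mk, Prod.mk_add_mk, Prod.mk.injEq]
      constructor <;> omega
  · -- (0,1), (1,-1): X = r, Y = - r - t
    have h1 : (-2 : ℤ) ≤ Y := lo _ _ (by push_cast; linarith)
    have h2 : Y ≤ 0 := up' _ _ (by push_cast; linarith)
    have h3 : X ≤ 1 := up' _ _ (by push_cast; linarith)
    have h4 : 0 ≤ X := lo _ _ (by push_cast; linarith)
    rcases (by omega : (X = 0 ∧ Y = 0) ∨ (X = 1 ∧ Y = -2)) with ⟨h5, h6⟩ | ⟨h5, h6⟩
    · rw [h6] at hY'
      rw [h5] at hX'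
      push_cast at hX' hY'
      refine ⟨by linarith, Or.inl ⟨?_, Or.inr (by linarith)⟩⟩
      rw [Prod.mk.injEq]
      constructor <;> omega
    · rw [h6] at hY'
      rw [h5] at hX'
      push_cast at hX' hY'
      refine ⟨by linarith, Or.inr ⟨by linarith, ?_⟩⟩
      rw [Prod.mk_add_mk, Prod.mk_add_mk, Prod.mk.injEq]
      constructor <;> omega
  · -- (-1,0), (0,1): X = t, Y = r
    have h1 : (0 : ℤ) ≤ Y := lo _ _ (by push_cast; linarith)
    have h2 : Y ≤ 1 := up' _ _ (by push_cast; linarith)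
    have h3 : X ≤ 1 := up' _ _ (by push_cast; linarith)
    have h4 : 0 ≤ X := lo _ _ (by push_cast; linarith)
    rcases (by omega : (X = 0 ∧ Y = 0) ∨ (X = 1 ∧ Y = 1)) with ⟨h5, h6⟩ | ⟨h5, h6⟩
    · rw [h6] at hY'
      rw [h5] at hX'
      push_cast at hX' hY'
      refine ⟨by linarith, Or.inl ⟨?_, Or.inr (by linarith)⟩⟩
      rw [Prod.mk.injEq]
      constructor <;> omega
    · rw [h6] at hY'
      rw [h5] at hX'
      push_cast at hX' hY'
      refine ⟨by linarith, Or.inr ⟨by linarith, ?_⟩⟩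
      rw [Prod.mk_add_mk, Prod.mk_add_mk, Prod.mk.injEq]
      constructor <;> omega
  · -- (-1,0), (-1,0)
    have h1 : (-1 : ℤ) ≤ X := lo _ _ (by push_cast; linarith)
    have h2 : X ≤ 1 := up' _ _ (by push_cast; linarith)
    have h3 : Y ≤ 0 := up' _ _ (by push_cast; linarith)
    have h4 : 0 ≤ Y := lo _ _ (by push_cast; linarith)
    have h5 : Y = 0 := by omega
    have h6 : X = 0 := by omega
    rw [h6] at hX'
    push_cast at hX'
    refine ⟨by linarith, Or.inl ⟨?_, Or.inl ?_⟩⟩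
    · rw [Prod.mk.injEq]
      constructor <;> omega
    · rw [Prod.mk_add_mk, Prod.mk_add_mk, Prod.mk.injEq]
      constructor <;> omega
  · -- (-1,0), (1,-1): X = r + t, Y = - r
    have h1 : (-1 : ℤ) ≤ Y := lo _ _ (by push_cast; linarith)
    have h2 : Y ≤ 0 := up' _ _ (by push_cast; linarith)
    have h3 : X ≤ 2 := up' _ _ (by push_cast; linarith)
    have h4 : 0 ≤ X := lo _ _ (by push_cast; linarith)
    rcases (by omega : (X = 0 ∧ Y = 0) ∨ (X = 2 ∧ Y = -1)) with ⟨h5, h6⟩ | ⟨h5, h6⟩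
    · rw [h6] at hY'
      rw [h5] at hX'
      push_cast at hX' hY'
      refine ⟨by linarith, Or.inl ⟨?_, Or.inr (by linarith)⟩⟩
      rw [Prod.mk.injEq]
      constructor <;> omega
    · rw [h6] at hY'
      rw [h5] at hX'
      push_cast at hX' hY'
      refine ⟨by linarith, Or.inr ⟨by linarith, ?_⟩⟩
      rw [Prod.mk_add_mk, Prod.mk_add_mk, Prod.mk.injEq]
      constructor <;> omega
  · -- (1,-1), (0,1): X = - t, Y = r + t
    have h1 : (0 : ℤ) ≤ Y := lo _ _ (by push_cast; linarith)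
    have h2 : Y ≤ 2 := up' _ _ (by push_cast; linarith)
    have h3 : X ≤ 0 := up' _ _ (by push_cast; linarith)
    have h4 : -1 ≤ X := lo _ _ (by push_cast; linarith)
    rcases (by omega : (X = 0 ∧ Y = 0) ∨ (X = -1 ∧ Y = 2)) with ⟨h5, h6⟩ | ⟨h5, h6⟩
    · rw [h6] at hY'
      rw [h5] at hX'
      push_cast at hX' hY'
      refine ⟨by linarith, Or.inl ⟨?_, Or.inr (by linarith)⟩⟩
      rw [Prod.mk.injEq]
      constructor <;> omega
    · rw [h6] at hY'
      rw [h5] at hX'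
      push_cast at hX' hY'
      refine ⟨by linarith, Or.inr ⟨by linarith, ?_⟩⟩
      rw [Prod.mk_add_mk, Prod.mk_add_mk, Prod.mk.injEq]
      constructor <;> omega
  · -- (1,-1), (-1,0): X = - r - t, Y = t
    have h1 : (0 : ℤ) ≤ Y := lo _ _ (by push_cast; linarith)
    have h2 : Y ≤ 1 := up' _ _ (by push_cast; linarith)
    have h3 : X ≤ 0 := up' _ _ (by push_cast; linarith)
    have h4 : -2 ≤ X := lo _ _ (by push_cast; linarith)
    rcases (by omega : (X = 0 ∧ Y = 0) ∨ (X = -2 ∧ Y = 1)) with ⟨h5, h6⟩ | ⟨h5, h6⟩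
    · rw [h6] at hY'
      rw [h5] at hX'
      push_cast at hX' hY'
      refine ⟨by linarith, Or.inl ⟨?_, Or.inr (by linarith)⟩⟩
      rw [Prod.mk.injEq]
      constructor <;> omega
    · rw [h6] at hY'
      rw [h5] at hX'
      push_cast at hX' hY'
      refine ⟨by linarith, Or.inr ⟨by linarith, ?_⟩⟩
      rw [Prod.mk_add_mk, Prod.mk_add_mk, Prod.mk.injEq]
      constructor <;> omega
  · -- (1,-1), (1,-1)
    have h1 : (-1 : ℤ) ≤ X := lo _ _ (by push_cast; linarith)
    have h2 : X ≤ 1 := up' _ _ (by push_cast; linarith)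
    have h3 : X + Y ≤ 0 := up' _ _ (by push_cast; linarith)
    have h4 : 0 ≤ X + Y := lo _ _ (by push_cast; linarith)
    have h5 : X = 0 := by omega
    have h6 : Y = 0 := by omega
    rw [h5] at hX'
    push_cast at hX'
    refine ⟨by linarith, Or.inl ⟨?_, Or.inl ?_⟩⟩
    · rw [Prod.mk.injEq]
      constructor <;> omega
    · rw [Prod.mk_add_mk, Prod.mk_add_mk, Prod.mk.injEq]
      constructor <;> omega

lemma JJ_coords {P Q R S : Pt} {t r : ℝ} (h : JJ P + (t : ℂ) * JJ R = JJ Q + (r : ℂ) * JJ S) :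
    (P.1 : ℝ) + t * (R.1 : ℤ) = Q.1 + r * (S.1 : ℤ) ∧ (P.2 : ℝ) + t * (R.2 : ℤ) = Q.2 + r * (S.2 : ℤ) := by
  have h1 := congrArg Complex.re h
  have h2 := congrArg Complex.im h
  rw [Complex.add_re, Complex.add_re, Complex.re_ofReal_mul, Complex.re_ofReal_mul, JJ_re, JJ_re, JJ_re, JJ_re] at h1
  rw [Complex.add_im, Complex.add_im, Complex.im_ofReal_mul, Complex.im_ofReal_mul, JJ_im, JJ_im, JJ_im, JJ_im] at h2
  have h3 : (0 : ℝ) < Real.sqrt 3 := Real.sqrt_pos.2 (by norm_num)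
  have h4 : (P.1 : ℝ) + t * (R.1 : ℤ) = Q.1 + r * (S.1 : ℤ) := by
    have : Real.sqrt 3 * ((P.1 : ℝ) + t * (R.1 : ℤ)) = Real.sqrt 3 * (Q.1 + r * (S.1 : ℤ)) := by linarith
    exact mul_left_cancel₀ h3.ne' this
  exact ⟨h4, by linarith⟩

/-- a point of the curve: even end, direction, distance from the even end -/
lemma curve_pt {n : ℕ} (hn : 1 ≤ n) (s : Fin n → Fin 3) (u : unitInterval) : ∃ (i : ℕ) (hi : i < n) (t : ℝ),
    0 ≤ t ∧ t ≤ 1 ∧ (u : ℝ) * n = (ev i : ℝ) + ((od i : ℝ) - ev i) * t ∧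
    curve s u = (JJ (vtx s (ev i)) + (t : ℂ) * JJ (Ed (s ⟨i, hi⟩))) / size n := by
  obtain ⟨i, hi, h1, h2⟩ := Tight.th2_idx hn u
  have e := vtx_step s hi
  have e' : JJ (vtx s (od i)) = JJ (vtx s (ev i)) + JJ (Ed (s ⟨i, hi⟩)) := by rw [e, JJ_add]
  have hc : curve s u = (JJ (vtx s i) + (((u : ℝ) * n - i : ℝ) : ℂ) * (JJ (vtx s (i + 1)) - JJ (vtx s i))) / size n := by
    rw [curve_eq, Tight.poly_apply hi h1 h2, pos_vtx s i hi.le, pos_vtx s (i + 1) hi]
    ring
  by_cases h : Even i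
  · have h3 : ev i = i := if_pos h
    have h4 : od i = i + 1 := if_pos h
    rw [h3, h4] at e'
    refine ⟨i, hi, u * n - i, by linarith, by linarith, ?_, ?_⟩
    · rw [h3, h4]
      push_cast
      ring
    · rw [hc, h3, e']
      ring
  · have h3 : ev i = i + 1 := if_neg h
    have h4 : od i = i := if_neg h
    rw [h3, h4] at e'
    refine ⟨i, hi, 1 - (u * n - i), by linarith, by linarith, ?_, ?_⟩
    · rw [h3, h4]
      push_cast
      ring
    · rw [hc, h3, e']
      push_cast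
      ring

lemma ev_even (i : ℕ) : Even (ev i) := by
  unfold ev
  split_ifs with h
  · exact h
  · exact Nat.even_add_one.2 h

lemma ev_le {n i : ℕ} (hi : i < n) : ev i ≤ n := by
  unfold ev
  split_ifs <;> omega

lemma od_le {n i : ℕ} (hi : i < n) : od i ≤ n := by
  unfold od
  split_ifs <;> omega

/-- **the curve of a self-avoiding walk is injective** -/
theorem curve_inj {n : ℕ} (hn : 1 ≤ n) {s : Fin n → Fin 3} (hs : s ∈ saw n) : Function.Injective (curve s) := by
  intro u v huv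
  obtain ⟨i, hi, t, t0, t1, hu, eu⟩ := curve_pt hn s u
  obtain ⟨j, hj, r, r0, r1, hv, evv⟩ := curve_pt hn s v
  have hsz : (size n : ℂ) ≠ 0 := by exact_mod_cast (size_pos hn).ne'
  rw [eu, evv] at huv
  have h1 := div_left_inj' hsz |>.1 huv
  obtain ⟨hx, hy⟩ := JJ_coords h1
  have hm : ∀ i', i' < n → ∃ z : ℤ, (vtx s (ev i')).1 - (vtx s (ev i')).2 = 3 * z := by
    intro i' hi'
    obtain ⟨z, hz⟩ := vtx_mod s (ev i') (ev_le hi')
    rw [if_pos (ev_even i'), sub_zero] at hz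
    exact ⟨z, hz⟩
  obtain ⟨htr, h2⟩ := edges_meet t0 t1 r0 r1 (hm i hi) (hm j hj) hx hy
  rw [← vtx_step s hi, ← vtx_step s hj] at h2
  have inj : ∀ a b : ℕ, a ≤ n → b ≤ n → vtx s a = vtx s b → a = b := by
    intro a b ha hb hab
    refine mem_saw.1 hs a b ha hb ?_
    rw [pos_vtx s a ha, pos_vtx s b hb, hab]
  have hn0 : (n : ℝ) ≠ 0 := by
    have : (1 : ℝ) ≤ n := by exact_mod_cast hn
    linarith
  have key : (u : ℝ) * n = v * n := by
    rw [hu, hv]
    rcases h2 with ⟨h3, h4 | h4⟩ | ⟨h3, h4⟩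
    · rw [inj _ _ (ev_le hi) (ev_le hj) h3, inj _ _ (od_le hi) (od_le hj) h4, htr]
    · rw [inj _ _ (ev_le hi) (ev_le hj) h3, ← htr, h4]
      ring
    · rw [inj _ _ (od_le hi) (od_le hj) h4, ← htr, h3]
      ring
  exact Subtype.ext (mul_right_cancel₀ hn0 key)

/-- an injective curve has no near double points below some distance -/
lemma pinch_none {γ : C(unitInterval, ℂ)} (h : Function.Injective γ) {η : ℝ} (hη : 0 < η) :
    ∃ δ : ℝ, 0 < δ ∧ γ ∉ Pinch η δ := by
  obtain ⟨K, hK⟩ : ∃ K : Set (unitInterval × unitInterval × unitInterval), K =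
    {p | p.1 ≤ p.2.1 ∧ p.2.1 ≤ p.2.2 ∧ η ≤ dist (γ p.2.1) (γ p.1)} := ⟨_, rfl⟩
  have hKc : IsCompact K := by
    apply IsClosed.isCompact
    rw [hK]
    have c1 : Continuous fun p : unitInterval × unitInterval × unitInterval => p.1 := continuous_fst
    have c2 : Continuous fun p : unitInterval × unitInterval × unitInterval => p.2.1 := continuous_fst.comp continuous_snd
    have c3 : Continuous fun p : unitInterval × unitInterval × unitInterval => p.2.2 := continuous_snd.comp continuous_snd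
    exact (isClosed_le c1 c2).inter ((isClosed_le c2 c3).inter
      (isClosed_le continuous_const ((γ.continuous.comp c2).dist (γ.continuous.comp c1))))
  rcases K.eq_empty_or_nonempty with he | hne
  · refine ⟨1, one_pos, ?_⟩
    rintro ⟨u, w, v, huw, hwv, h1, -⟩
    have : (u, w, v) ∈ K := by
      rw [hK]
      exact ⟨huw, hwv, h1.le⟩
    rw [he] at this
    exact this
  · obtain ⟨p, hp, hmin⟩ := hKc.exists_isMinOn hne (f := fun p => dist (γ p.2.2) (γ p.1)) (by fun_prop)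
    have hpos : 0 < dist (γ p.2.2) (γ p.1) := by
      rw [hK] at hp
      obtain ⟨a, b, c⟩ := hp
      rw [dist_pos]
      intro hcon
      have h3 := h hcon
      have h4 : p.2.1 = p.1 := le_antisymm (b.trans h3.le) a
      rw [h4, dist_self] at c
      linarith
    refine ⟨_, hpos, ?_⟩
    rintro ⟨u, w, v, huw, hwv, h1, h2⟩
    have : (u, w, v) ∈ K := by
      rw [hK]
      exact ⟨huw, hwv, h1.le⟩
    have h5 : dist (γ p.2.2) (γ p.1) ≤ dist (γ v) (γ u) := hmin this
    linarith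

/-- the law of one n -/
lemma law_none {n : ℕ} (hn : 1 ≤ n) {η : ℝ} (hη : 0 < η) : ∃ δ : ℝ, 0 < δ ∧ law n (Pinch η δ) = 0 := by
  have h1 : ∀ s : Fin n → Fin 3, ∃ δ : ℝ, 0 < δ ∧ (s ∈ saw n → curve s ∉ Pinch η δ) := by
    intro s
    by_cases hs : s ∈ saw n
    · obtain ⟨δ, h1, h2⟩ := pinch_none (curve_inj hn hs) hη
      exact ⟨δ, h1, fun _ => h2⟩
    · exact ⟨1, one_pos, fun h => absurd h hs⟩
  choose d hd0 hd using h1
  obtain ⟨δ, hδ, hle⟩ : ∃ δ : ℝ, 0 < δ ∧ ∀ s : Fin n → Fin 3, δ ≤ d s := by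
    obtain ⟨s0, -, h2⟩ := Finset.exists_min_image Finset.univ d Finset.univ_nonempty
    exact ⟨d s0, hd0 s0, fun s => h2 s (Finset.mem_univ s)⟩
  refine ⟨δ, hδ, ?_⟩
  unfold law
  rw [Measure.finsetSum_apply]
  apply Finset.sum_eq_zero
  intro s hs
  have h3 : curve s ∉ Pinch η δ := fun h => hd s hs (pinch_mono (hle s) h)
  rw [Measure.smul_apply, Measure.dirac_apply' _ (pinch_open η δ).measurableSet, indicator_of_notMem h3, smul_zero]

/-- **near double points for every n** -/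
theorem sim_every (h : LawSim) (η ε : ℝ) (hη : 0 < η) (hε : 0 < ε) : ∃ δ : ℝ, 0 < δ ∧ ∀ n : ℕ, 1 ≤ n →
    law n (Pinch η δ) ≤ ENNReal.ofReal ε := by
  obtain ⟨δ, n0, hδ, h1⟩ := h η ε hη hε
  have h2 : ∀ N : ℕ, ∃ δ' : ℝ, 0 < δ' ∧ ∀ n : ℕ, 1 ≤ n → n < N → law n (Pinch η δ') = 0 := by
    intro N
    induction N with
    | zero => exact ⟨1, one_pos, fun n _ h => absurd h (by omega)⟩
    | succ N ih =>
      obtain ⟨a, ha, h3⟩ := ih
      rcases Nat.eq_zero_or_pos N with h4 | h4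
      · exact ⟨1, one_pos, fun n h5 h6 => absurd h6 (by omega)⟩
      · obtain ⟨b, hb, h5⟩ := law_none h4 hη
        refine ⟨min a b, lt_min ha hb, fun n hn hN => ?_⟩
        rcases Nat.lt_succ_iff_lt_or_eq.1 hN with h6 | h6
        · exact le_antisymm ((measure_mono (pinch_mono (min_le_left a b))).trans (h3 n hn h6).le) bot_le
        · rw [h6]
          exact le_antisymm ((measure_mono (pinch_mono (min_le_right a b))).trans h5.le) bot_le
  obtain ⟨a, ha, h3⟩ := h2 n0
  refine ⟨min δ a, lt_min hδ ha, fun n hn => ?_⟩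
  rcases lt_or_ge n n0 with h4 | h4
  · rw [le_antisymm ((measure_mono (pinch_mono (min_le_right δ a))).trans (h3 n hn h4).le) bot_le]
    exact bot_le
  · exact (measure_mono (pinch_mono (min_le_left δ a))).trans (h1 n h4)

end SIM

end HexObs
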