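import Pool.Agent.SIM.TopGeo
import Pool.Agent.NTW.QDefs

/-!
SIM (the weak limits are simple curves): a far excursion i < x < j in the direction false contains a fold, and the leaf below
this fold is cut at four places near its top: three nested bridges between the times i and j.
-/

set_option autoImplicit false

namespace HexObs

namespace SIM

open Finset TS SDN NTW

/-- the top fold between i and j -/
theorem top_fold {b m u : ℕ} {t : List Bool} {e : ℕ → ℕ} (hF : Fd b t m u e) {i x j s : ℕ} (hix : i ≤ x) (hxj : x ≤ j)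
    (hj : j ≤ t.length) (h1 : RR b ≤ Tight.sg s (lev t x) - Tight.sg s (lev t i))
    (h2 : RR b ≤ Tight.sg s (lev t x) - Tight.sg s (lev t j)) :
    ∃ l, l < m ∧ (∀ y : ℤ, Tight.sg (u + l) y = Tight.sg s y) ∧ i ≤ e (l + 1) ∧ e (l + 1) ≤ j ∧
      Tight.sg s (lev t x) ≤ Tight.sg s (lev t (e (l + 1))) := by
  obtain ⟨hm, hG, hbig, hsm, hst, hfin⟩ := hF
  have hcases : ∀ (a : ℕ) (y : ℤ), Tight.sg a y = y ∨ Tight.sg a y = -y := by
    intro a y
    unfold Tight.sg
    split_ifs
    · exact Or.inr rfl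
    · exact Or.inl rfl
  -- x is not in the two ends
  have hx0 : e 0 < x := by
    by_contra hn
    have a1 := hst x i (by omega) (by omega)
    have a2 := hst i x (by omega) (by omega)
    unfold Tight.sg at h1
    split_ifs at h1 <;> omega
  have hx1 : x < e m := by
    by_contra hn
    have a1 := hfin x j (by omega) (by omega) (by omega) hj
    have a2 := hfin j x (by omega) hj (by omega) (by omega)
    unfold Tight.sg at h2
    split_ifs at h2 <;> omega
  -- the piece of x
  obtain ⟨q, q1, q2, q3⟩ : ∃ q, q < m ∧ e q ≤ x ∧ x < e (q + 1) := by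
    by_contra hn
    have : ∀ q, q ≤ m → e q ≤ x := by
      intro q
      induction q with
      | zero => intro _; exact hx0.le
      | succ q ih =>
        intro hq
        have h3 := ih (by omega)
        by_contra h4
        exact hn ⟨q, by omega, h3, by omega⟩
    have := this m le_rfl
    omega
  have hmono : ∀ a c, a ≤ c → c ≤ m → e a ≤ e c := by
    intro a c hac
    induction c, hac using Nat.le_induction with
    | base => intro _; exact le_rfl
    | succ c _ ih =>
      intro hc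
      have h3 := ih (by omega)
      have h4 := hG.lt c (by omega)
      omega
  have hhi := hG.hi q q1 x q2 q3.le
  have hle : e m ≤ t.length := hG.le
  by_cases hpar : Even (u + q) ↔ Even s
  · have hsg : ∀ y : ℤ, Tight.sg (u + q) y = Tight.sg s y := by
      intro y
      unfold Tight.sg
      simp only [hpar]
    refine ⟨q, q1, hsg, by omega, ?_, ?_⟩
    · by_contra hn
      have h3 := hsm q q1 x j q2 hxj (by omega)
      rw [hsg, hsg] at h3
      omega
    · rw [hsg, hsg] at hhi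
      exact hhi
  · have hsg : ∀ y : ℤ, Tight.sg (u + q) y = -Tight.sg s y := by
      intro y
      unfold Tight.sg
      by_cases ha : Even (u + q)
      · by_cases hb : Even s
        · exact absurd ⟨fun _ => hb, fun _ => ha⟩ hpar
        · rw [if_pos ha, if_neg hb]
      · by_cases hb : Even s
        · rw [if_neg ha, if_pos hb, neg_neg]
        · exact absurd ⟨fun h => absurd h ha, fun h => absurd h hb⟩ hpar
    have hlo : Tight.sg s (lev t x) ≤ Tight.sg s (lev t (e q)) := by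
      rcases Nat.lt_or_ge (e q) x with h3 | h3
      · rcases Nat.eq_zero_or_pos q with hq0 | hq0
        · subst hq0
          have h4 := hG.lo0 x q2 (by simpa using q3.le)
          have h5 : ∀ y : ℤ, Tight.sg u y = -Tight.sg s y := by
            intro y
            have := hsg y
            simpa using this
          rw [h5, h5] at h4
          omega
        · have h4 := hG.lo q hq0 q1 x h3 q3.le
          rw [hsg, hsg] at h4
          omega
      · have : x = e q := by omega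
        rw [this]
    have hi' : i ≤ e q := by
      by_contra hn
      have h3 := hsm q q1 i x (by omega) hix q3.le
      rw [hsg, hsg] at h3
      omega
    rcases Nat.eq_zero_or_pos q with hq0 | hq0
    · exfalso
      subst hq0
      have a1 := hst (e 0) i le_rfl hi'
      have a2 := hst i (e 0) hi' le_rfl
      unfold Tight.sg at h1 hlo
      split_ifs at h1 hlo <;> omega
    · obtain ⟨l, rfl⟩ : ∃ l, q = l + 1 := ⟨q - 1, by omega⟩
      refine ⟨l, by omega, ?_, hi', by omega, hlo⟩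
      intro y
      have h3 := hsg y
      have h4 : Tight.sg (u + (l + 1)) y = -Tight.sg (u + l) y := by
        rw [← add_assoc, Tight.sg_succ]
      rw [h4] at h3
      omega

/-- **three nested bridges near the top of the leaf below the fold**: L-part ends at a fold, R-part starts with a leaf,
and they separate the times i and j -/
theorem top_cut {kc J : ℕ} {c r : ℕ → ℕ} (hcr : ∀ k, k < 3 → c k + r k + 1 ≤ c (k + 1)) (hc3 : c 3 + r 3 ≤ kc + 3)
    {S : Set (List Bool)} (hS : ∀ k, k < 4 → NoCut (c k) (r k) ⊆ S)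
    {t : List Bool} (ht : t ∈ WL (kc + J)) (hE : t ∉ EQ2 kc J S) {Y : ℤ} (hY : RR (kc + 5) ≤ Y) {i x j s : ℕ} (hix : i ≤ x)
    (hxj : x ≤ j) (hj : j ≤ t.length) (h1 : Y ≤ Tight.sg s (lev t x) - Tight.sg s (lev t i))
    (h2 : Y ≤ Tight.sg s (lev t x) - Tight.sg s (lev t j)) :
    ∃ (X0 H1 H2 H3 X1 : List Bool) (n1 n2 n3 : ℕ), t = X0 ++ (H1 ++ (H2 ++ (H3 ++ X1))) ∧
      H1 ∈ Brd n1 ∧ H2 ∈ Brd n2 ∧ H3 ∈ Brd n3 ∧
      (2 ^ (c 0 + r 0) ≤ n1 ∧ 2 ^ (c 0 + r 0) ≤ n2 ∧ 2 ^ (c 0 + r 0) ≤ n3) ∧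
      (n1 ≤ 2 ^ (c 3 + r 3) ∧ n2 ≤ 2 ^ (c 3 + r 3) ∧ n3 ≤ 2 ^ (c 3 + r 3)) ∧
      (∀ A B, A ∈ BU → B ∈ BU → H1 = A ++ B → X0 ++ A ∈ TopE (kc + 3) (kc + J)) ∧
      (∀ A B, A ∈ BU → B ∈ BU → H3 = A ++ B → B ++ X1 ∈ BotS (c 0) (kc + J + 1)) ∧
      i ≤ X0.length ∧ (X0 ++ (H1 ++ (H2 ++ H3))).length ≤ j ∧
      Y - 3 * 2 ^ (kc + 3) - 2 ≤ Tight.sg s (lev t X0.length) - Tight.sg s (lev t i) ∧
      Y - 3 * 2 ^ (kc + 3) - 2 ≤ Tight.sg s (lev t (X0 ++ (H1 ++ (H2 ++ H3))).length) - Tight.sg s (lev t j) := by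
  have hp0 : (0 : ℤ) < 2 ^ (kc + 3) := by positivity
  have w0 := hcr 0 (by norm_num)
  have w1 := hcr 1 (by norm_num)
  have w2 := hcr 2 (by norm_num)
  simp only [Nat.zero_add, Nat.reduceAdd] at w0 w1 w2
  have hmo : ∀ k, k < 4 → c k + r k ≤ kc + 3 := by
    intro k hk
    rcases (by omega : k = 0 ∨ k = 1 ∨ k = 2 ∨ k = 3) with rfl | rfl | rfl | rfl <;> omega
  have hRRb : RR (kc + 5) = 12 * 2 ^ (kc + 3) - 2 := by
    unfold RR
    rw [show kc + 5 = kc + 3 + 2 by ring, pow_add]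
    ring
  -- the folds
  obtain ⟨m, u, e, hF⟩ : ∃ m u e, Fd (kc + 5) t m u e := by
    rcases fd_exists (b := kc + 5) (by omega) ht.1 with h | h
    · exfalso
      have a1 := h x i (by omega) (by omega)
      have a2 := h i x (by omega) (by omega)
      unfold Tight.sg at h1
      split_ifs at h1 <;> omega
    · exact h
  obtain ⟨l, hl, hsg, f1, f2, f3⟩ := top_fold (s := s) hF hix hxj hj (hY.trans h1) (hY.trans h2)
  -- the good leaf
  obtain ⟨g, hpos, hgB, hgS⟩ : ∃ g, PosL t u e l g ∧ g ∈ BrR (2 ^ (kc + 4)) (2 ^ (kc + J + 2)) ∧ g ∉ S := by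
    by_contra hn
    push Not at hn
    exact hE ⟨ht, m, u, e, hF, l, hl, hn⟩
  obtain ⟨hh, hD1, hD2, hgh⟩ := hgB
  obtain ⟨v, v1, v2, v3, v4, v5⟩ := hpos
  obtain ⟨D, hD⟩ : ∃ D, D = dD false (u + l) := ⟨_, rfl⟩
  have hDm : D ∈ dirs := by rw [hD]; exact dD_mem _ _
  have hxD : ∀ k, xD D t k = Tight.sg s (lev t k) := by
    intro k
    rw [hD, xD_lev, hsg]
  have hxD' : ∀ k, xD D t k = Tight.sg (u + l) (lev t k) := by
    intro k
    rw [hD, xD_lev]
  have hlen : e (l + 1) ≤ t.length := by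
    have hmono : ∀ c, l + 1 ≤ c → c ≤ m → e (l + 1) ≤ e c := by
      intro c hac
      induction c, hac using Nat.le_induction with
      | base => intro _; exact le_rfl
      | succ c _ ih =>
        intro hc
        have h3 := ih (by omega)
        have h4 := hF.2.1.lt c (by omega)
        omega
    exact (hmono m (by omega) le_rfl).trans hF.2.1.le
  obtain ⟨z, hz⟩ : ∃ z, z = v + g.length := ⟨_, rfl⟩
  have hzl : z ≤ t.length := by omega
  have hlev : ∀ k, 1 ≤ k → k ≤ g.length → lev g k - lev g 1 = xD D t (v + k) - xD D t (v + 1) := by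
    intro k k1 k2
    rw [v5 k k1 k2, hxD', hxD']
    unfold Tight.sg
    split_ifs <;> ring
  have hztop : xD D t (e (l + 1)) ≤ xD D t z + 2 := by
    rcases Nat.lt_or_ge z (e (l + 1)) with h3 | h3
    · have h4 : e (l + 1) = z + 1 := by omega
      rw [h4]
      exact xD_step_le hDm t z
    · have h4 : e (l + 1) = z := by omega
      rw [h4]
      omega
  have hgn : ∀ k, k < 4 → ∃ A B : List Bool, A ∈ BU ∧ B ∈ BU ∧ g = A ++ B ∧ 2 ^ c k ≤ hgt B ∧
      hgt B ≤ 2 ^ (c k + r k) := by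
    intro k hk
    by_contra hn
    push Not at hn
    apply hgS
    apply hS k hk
    intro A B hA hB hg
    rcases Nat.lt_or_ge (hgt B) (2 ^ c k) with h3 | h3
    · exact Or.inl h3
    · exact Or.inr (hn A B hA hB hg h3)
  have hpk : 2 ^ (kc + 4) = 2 * 2 ^ (kc + 3) := by ring
  -- a cut from a window
  have hcut : ∀ k, k < 4 → ∃ p H : ℕ, CutAt D t (v + 1) z p ∧ xD D t z - xD D t p = 3 * H ∧
      2 ^ c k ≤ H ∧ H ≤ 2 ^ (c k + r k) ∧
      3 * 2 ^ (kc + 3) - 2 ≤ xD D t p - xD D t (v + 1) := by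
    intro k hk
    obtain ⟨A, B, hA, hB, hg, w1, w2⟩ := hgn k hk
    have hw3 : 2 ^ (c k + r k) ≤ 2 ^ (kc + 3) := by
      apply Nat.pow_le_pow_right (by norm_num)
      exact hmo k hk
    have hadd : hgt A + hgt B = hh := by
      obtain ⟨a, ha⟩ := hA
      obtain ⟨b, hb⟩ := hB
      rw [hgt_eq ha, hgt_eq hb]
      rw [hg] at hgh
      exact Brd_height (Brd_append ha hb) hgh
    have hB0 : B ≠ [] := by
      rintro rfl
      have h3 : hgt ([] : List Bool) = 0 := hgt_eq nil_mem_Brd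
      have h4 : 0 < 2 ^ c k := by positivity
      omega
    have hA0 : A ≠ [] := by
      rintro rfl
      have h3 : hgt ([] : List Bool) = 0 := hgt_eq nil_mem_Brd
      have h4 : 0 < 2 ^ (kc + 3) := by positivity
      omega
    rw [hg] at hlev
    obtain ⟨c1, c2, c3⟩ := cut_of_split hDm hA hB hA0 hB0 hlev
    rw [← hg, ← hz] at c1 c2
    refine ⟨v + A.length, hgt B, c1, c2, w1, w2, ?_⟩
    rw [c3]
    have h5 : 2 ^ (kc + 3) ≤ hgt A := by omega
    have h6 : ((2 ^ (kc + 3) : ℕ) : ℤ) ≤ (hgt A : ℤ) := by exact_mod_cast h5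
    push_cast at h6
    omega
  obtain ⟨p1, G1, a1, a2, a3, a4, a5⟩ := hcut 0 (by norm_num)
  obtain ⟨p2, G2, b1, b2, b3, b4, b5⟩ := hcut 1 (by norm_num)
  obtain ⟨p3, G3, c1, c2, c3, c4, c5⟩ := hcut 2 (by norm_num)
  obtain ⟨p4, G4, d1, d2, d3, d4, d5⟩ := hcut 3 (by norm_num)
  -- the heights
  have k1 : 2 * 2 ^ (c 0 + r 0) ≤ 2 ^ c 1 := by
    rw [← pow_succ']
    exact Nat.pow_le_pow_right (by norm_num) w0
  have k2 : 2 * 2 ^ (c 1 + r 1) ≤ 2 ^ c 2 := by
    rw [← pow_succ']
    exact Nat.pow_le_pow_right (by norm_num) w1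
  have k3 : 2 * 2 ^ (c 2 + r 2) ≤ 2 ^ c 3 := by
    rw [← pow_succ']
    exact Nat.pow_le_pow_right (by norm_num) w2
  have k6 : 2 ^ (c 0 + r 0) ≤ 2 ^ (c 1 + r 1) := Nat.pow_le_pow_right (by norm_num) (by omega)
  have k7 : 2 ^ (c 0 + r 0) ≤ 2 ^ (c 2 + r 2) := Nat.pow_le_pow_right (by norm_num) (by omega)
  have k8 : 2 ^ (c 3 + r 3) ≤ 2 ^ (kc + 3) := Nat.pow_le_pow_right (by norm_num) hc3
  have k10 : 0 < 2 ^ (c 0 + r 0) := by positivity
  have q12 : p2 < p1 := cut_lt b1 a1 (by omega)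
  have q23 : p3 < p2 := cut_lt c1 b1 (by omega)
  have q34 : p4 < p3 := cut_lt d1 c1 (by omega)
  have hpz : p1 < z := a1.2.1
  obtain ⟨n1, m1, m1'⟩ := cut_mid ht.1 hzl d1 c1 q34.le
  obtain ⟨n2, m2, m2'⟩ := cut_mid ht.1 hzl c1 b1 q23.le
  obtain ⟨n3, m3, m3'⟩ := cut_mid ht.1 hzl b1 a1 q12.le
  have l0 : (t.take p4).length = p4 := by rw [List.length_take]; omega
  have l1 : ((t.drop p4).take (p3 - p4)).length = p3 - p4 := by
    rw [List.length_take, List.length_drop]; omega
  have l2 : ((t.drop p3).take (p2 - p3)).length = p2 - p3 := by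
    rw [List.length_take, List.length_drop]; omega
  have l3 : ((t.drop p2).take (p1 - p2)).length = p1 - p2 := by
    rw [List.length_take, List.length_drop]; omega
  have ltot : (t.take p4 ++ ((t.drop p4).take (p3 - p4) ++ ((t.drop p3).take (p2 - p3) ++
      (t.drop p2).take (p1 - p2)))).length = p1 := by
    rw [List.length_append, List.length_append, List.length_append, l0, l1, l2, l3]
    omega
  have hRR3 : RR (kc + 3) = 3 * 2 ^ (kc + 3) - 2 := rfl
  have hn4 : (3 : ℤ) * G4 ≤ 3 * 2 ^ (kc + 3) := by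
    have h3 : (G4 : ℤ) ≤ ((2 ^ (kc + 3) : ℕ) : ℤ) := by exact_mod_cast d4.trans k8
    push_cast at h3
    omega
  have hn1 : (G1 : ℤ) ≤ G4 := by
    have : G1 ≤ G4 := by omega
    exact_mod_cast this
  rw [← hxD, ← hxD] at f3
  have hi4 : i ≤ p4 := by
    by_contra hn
    rw [← hxD, ← hxD] at h1
    rcases Nat.lt_or_ge z i with h3 | h3
    · have h4 : i = e (l + 1) := by omega
      rw [h4] at h1
      omega
    · have h4 := d1.2.2.2.2 i (by omega) h3
      omega
  refine ⟨t.take p4, (t.drop p4).take (p3 - p4), (t.drop p3).take (p2 - p3), (t.drop p2).take (p1 - p2), t.drop p1,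
    n1, n2, n3, ?_, m1, m2, m3, ⟨by omega, by omega, by omega⟩, ⟨by omega, by omega, by omega⟩, ?_, ?_, ?_, ?_, ?_, ?_⟩
  · have e3 : (t.drop p2).take (p1 - p2) ++ t.drop p1 = t.drop p2 := by
      have := List.take_append_drop (p1 - p2) (t.drop p2)
      rwa [List.drop_drop, Nat.add_sub_cancel' q12.le] at this
    have e2 : (t.drop p3).take (p2 - p3) ++ t.drop p2 = t.drop p3 := by
      have := List.take_append_drop (p2 - p3) (t.drop p3)
      rwa [List.drop_drop, Nat.add_sub_cancel' q23.le] at this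
    have e1 : (t.drop p4).take (p3 - p4) ++ t.drop p3 = t.drop p4 := by
      have := List.take_append_drop (p3 - p4) (t.drop p4)
      rwa [List.drop_drop, Nat.add_sub_cancel' q34.le] at this
    rw [e3, e2, e1, List.take_append_drop]
  · intro A B hA hB hH
    obtain ⟨w1, w2, w3, w4, w5⟩ := cut_inner hzl d1 c1 q34.le hA hB hH
    rw [← w4]
    rw [hD] at w1
    refine top_mem ht (by omega) hzl w1 ?_
    rw [hRR3, ← hD]
    have := d5
    omega
  · intro A B hA hB hH
    obtain ⟨w1, w2, w3, w4, w5⟩ := cut_inner hzl b1 a1 q12.le hA hB hH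
    rw [← w5]
    have h3 := a1.2.2.2.1 (p2 + A.length) w1.1 w2
    rw [hD] at w1
    refine bot_mem ht hzl w1 ?_
    rw [← hD]
    unfold RR
    have h4 : ((2 ^ c 0 : ℕ) : ℤ) ≤ (G1 : ℤ) := by exact_mod_cast a3
    push_cast at h4
    omega
  · rw [l0]
    exact hi4
  · rw [ltot]
    omega
  · rw [l0, ← hxD, ← hxD]
    rw [← hxD, ← hxD] at h1
    omega
  · rw [ltot, ← hxD, ← hxD]
    rw [← hxD, ← hxD] at h2
    omega

end SIM

end HexObs
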