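import Pool.Agent.SIM.NoCutEv
import Pool.Agent.SIM.TopCut

/-!
SIM: the event of nocut_ev together with the three nested bridges of top_cut.
-/

set_option autoImplicit false

namespace HexObs

namespace SIM

open Finset TS SDN NTW NTA

open scoped ENNReal

/-- **THREE NESTED BRIDGES OFF A SMALL EVENT** -/
theorem cut_ev : ∀ J, 6 ≤ J → ∀ ε : ℝ, 0 < ε → ∃ D D' k0 : ℕ, D < D' ∧ D' ≤ k0 ∧ ∀ kc, k0 ≤ kc →
    ∃ S : Set (List Bool), gf (EQ2 kc J S) ≤ ENNReal.ofReal (ε * Ub (kc + J)) * Xb (kc + J) ^ 2 ∧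
    ∀ t ∈ WL (kc + J), t ∉ EQ2 kc J S → ∀ (Y : ℤ) (i x j s : ℕ), RR (kc + 5) ≤ Y → i ≤ x → x ≤ j → j ≤ t.length →
      Y ≤ Tight.sg s (lev t x) - Tight.sg s (lev t i) → Y ≤ Tight.sg s (lev t x) - Tight.sg s (lev t j) →
    ∃ (X0 H1 H2 H3 X1 : List Bool) (n1 n2 n3 : ℕ), t = X0 ++ (H1 ++ (H2 ++ (H3 ++ X1))) ∧
      H1 ∈ Brd n1 ∧ H2 ∈ Brd n2 ∧ H3 ∈ Brd n3 ∧
      (2 ^ (kc - D) ≤ n1 ∧ 2 ^ (kc - D) ≤ n2 ∧ 2 ^ (kc - D) ≤ n3) ∧ (n1 ≤ 2 ^ kc ∧ n2 ≤ 2 ^ kc ∧ n3 ≤ 2 ^ kc) ∧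
      (∀ A B, A ∈ BU → B ∈ BU → H1 = A ++ B → X0 ++ A ∈ TopE (kc + 3) (kc + J)) ∧
      (∀ A B, A ∈ BU → B ∈ BU → H3 = A ++ B → B ++ X1 ∈ BotS (kc - D') (kc + J + 1)) ∧
      i ≤ X0.length ∧ (X0 ++ (H1 ++ (H2 ++ H3))).length ≤ j ∧
      Y - 3 * 2 ^ (kc + 3) - 2 ≤ Tight.sg s (lev t X0.length) - Tight.sg s (lev t i) ∧
      Y - 3 * 2 ^ (kc + 3) - 2 ≤ Tight.sg s (lev t (X0 ++ (H1 ++ (H2 ++ H3))).length) - Tight.sg s (lev t j) := by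
  intro J hJ ε hε
  obtain ⟨d, k0, h0, hd, hdM, hev⟩ := nocut_ev 4 (by norm_num) J hJ ε hε
  have d0 := hd 0
  have d1 := hd 1
  have d2 := hd 2
  have d3 := hd 3
  simp only [Nat.zero_add, Nat.reduceAdd] at d0 d1 d2 d3
  refine ⟨d 3 + 1, d 4, k0, by omega, hdM, fun kc hk => ⟨_, hev kc hk, ?_⟩⟩
  intro t ht hE Y i x j s hY hix hxj hj h1 h2
  have hk4 : d 4 ≤ kc := hdM.trans hk
  have key := top_cut (kc := kc) (J := J) (c := fun k => kc - d (4 - k)) (r := fun k => d (4 - k) - d (3 - k) - 1)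
    (S := {g | ∃ i, i < 4 ∧ g ∈ NoCut (kc - d (i + 1)) (d (i + 1) - d i - 1)})
    (fun k hk => by
      rcases (by omega : k = 0 ∨ k = 1 ∨ k = 2) with rfl | rfl | rfl
      · simp only [Nat.sub_zero, Nat.zero_add, Nat.reduceSub]
        omega
      · simp only [Nat.reduceAdd, Nat.reduceSub]
        omega
      · simp only [Nat.reduceAdd, Nat.reduceSub]
        omega)
    (by
      simp only [Nat.reduceSub]
      omega)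
    (fun k hk g hg => by
      refine ⟨3 - k, by omega, ?_⟩
      rw [show 3 - k + 1 = 4 - k by omega]
      exact hg)
    ht hE hY hix hxj hj h1 h2
  obtain ⟨X0, H1, H2, H3, X1, n1, n2, n3, e1, e2, e3, e4, e5, e6, e7, e8, e9, e10, e11, e12⟩ := key
  simp only [Nat.sub_zero, Nat.reduceSub] at e5 e6 e8
  rw [show kc - d 4 + (d 4 - d 3 - 1) = kc - (d 3 + 1) by omega] at e5
  have e6' : kc - d 1 + (d 1 - d 0 - 1) ≤ kc := by omega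
  have e6'' : 2 ^ (kc - d 1 + (d 1 - d 0 - 1)) ≤ 2 ^ kc := Nat.pow_le_pow_right (by norm_num) e6'
  exact ⟨X0, H1, H2, H3, X1, n1, n2, n3, e1, e2, e3, e4, e5,
    ⟨e6.1.trans e6'', e6.2.1.trans e6'', e6.2.2.trans e6''⟩, e7, e8, e9, e10, e11, e12⟩

end SIM

end HexObs
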