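import Pool.Agent.TightN.SNum
import Pool.Agent.TightS.SBasic

/-!
SIM: a walk with three nested bridges at a top; sum over the pieces (helper59).

Every t of E is X0 ++ (H1 ++ (H2 ++ (H3 ++ X1))) with bridges H1, H2, H3 of heights between n and N. The sum over the
pieces P of H1 and P2 of H3, weighted by their heights, gives n ^ 2 gf E ≤ the sum over (L, P, Z, P2, R).
-/

set_option autoImplicit false

namespace HexObs

namespace SIM

open Finset TS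

open scoped ENNReal Classical

/-- t contains three nested bridges H1, H2, H3 of heights between n and N; what is before H1 and a part of H1 is in LL,
what is behind H3 and a part of H3 is in RR; Q n1 n2 t = the marked pair of t is before n1 and behind n2 -/
def Cut3 (Q : ℕ → ℕ → List Bool → Prop) (LL RR : Set (List Bool)) (n N : ℕ) (t : List Bool) : Prop :=
  ∃ (X0 H1 H2 H3 X1 : List Bool) (h1 h2 h3 : ℕ), t = X0 ++ (H1 ++ (H2 ++ (H3 ++ X1))) ∧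
    H1 ∈ Brd h1 ∧ H2 ∈ Brd h2 ∧ H3 ∈ Brd h3 ∧ n ≤ h1 ∧ n ≤ h2 ∧ n ≤ h3 ∧ h1 ≤ N ∧ h2 ≤ N ∧ h3 ≤ N ∧
    (∀ A B, A ∈ BU → B ∈ BU → H1 = A ++ B → X0 ++ A ∈ LL) ∧ (∀ A B, A ∈ BU → B ∈ BU → H3 = A ++ B → B ++ X1 ∈ RR) ∧
    Q X0.length (X0.length + H1.length + H2.length + H3.length) t

/-- the clause Q is inherited -/
def MonQ (Q : ℕ → ℕ → List Bool → Prop) : Prop :=
  ∀ (t : List Bool) (n1 n2 n1' n2' : ℕ), n1 ≤ n1' → n2' ≤ n2 → Q n1 n2 t → Q n1' n2' t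

namespace CS

lemma app {s t : List Bool} (hs : s ∈ BU) (ht : t ∈ BU) : s ++ t ∈ BU := by
  obtain ⟨n, hn⟩ := hs
  obtain ⟨m, hm⟩ := ht
  exact ⟨_, Brd_append hn hm⟩

lemma happ {s t : List Bool} (hs : s ∈ BU) (ht : t ∈ BU) : hgt (s ++ t) = hgt s + hgt t := by
  obtain ⟨n, hn⟩ := hs
  obtain ⟨m, hm⟩ := ht
  rw [hgt_eq hn, hgt_eq hm, hgt_eq (Brd_append hn hm)]

lemma IUB {s : List Bool} (h : s ∈ IU) : s ∈ BU := by
  obtain ⟨r, hr⟩ := h
  exact ⟨r, hr.1⟩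

lemma nilB : ([] : List Bool) ∈ BU := ⟨0, nil_mem_Brd⟩

/-- the sum of the heights of the pieces of a bridge -/
lemma hsum : ∀ (h : ℕ) (H : List Bool), H ∈ Brd h → (h : ℝ≥0∞) ≤ ∑' A : List Bool, ∑' P : List Bool, ∑' B : List Bool,
    (if A ∈ BU ∧ P ∈ IU ∧ B ∈ BU ∧ H = A ++ (P ++ B) then (hgt P : ℝ≥0∞) else 0) := by
  intro h
  induction h using Nat.strong_induction_on with
  | _ h ih =>
    intro H hH
    rcases Nat.eq_zero_or_pos h with h0 | h0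
    · rw [h0, Nat.cast_zero]
      exact zero_le
    obtain ⟨r, s, u, hr1, hr2, hs, hu, he⟩ := Brd_first hH h0
    have hih := ih (h - r) (by omega) u hu
    have hsB : s ∈ BU := ⟨r, hs.1⟩
    have huB : u ∈ BU := ⟨h - r, hu⟩
    obtain ⟨F, hF⟩ : ∃ F : List Bool → ℝ≥0∞, F = fun A => ∑' P : List Bool, ∑' B : List Bool,
      (if A ∈ BU ∧ P ∈ IU ∧ B ∈ BU ∧ H = A ++ (P ++ B) then (hgt P : ℝ≥0∞) else 0) := ⟨_, rfl⟩
    have hnil : (r : ℝ≥0∞) ≤ F [] := by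
      have e1 : (r : ℝ≥0∞) ≤ (if ([] : List Bool) ∈ BU ∧ s ∈ IU ∧ u ∈ BU ∧ H = [] ++ (s ++ u) then (hgt s : ℝ≥0∞) else 0) := by
        rw [if_pos ⟨nilB, ⟨r, hs⟩, huB, by rw [List.nil_append]; exact he⟩, hgt_eq hs.1]
      have e2 : (if ([] : List Bool) ∈ BU ∧ s ∈ IU ∧ u ∈ BU ∧ H = [] ++ (s ++ u) then (hgt s : ℝ≥0∞) else 0) ≤
          ∑' B : List Bool, (if ([] : List Bool) ∈ BU ∧ s ∈ IU ∧ B ∈ BU ∧ H = [] ++ (s ++ B) then (hgt s : ℝ≥0∞)
            else 0) := ENNReal.le_tsum u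
      have e3 : (∑' B : List Bool, (if ([] : List Bool) ∈ BU ∧ s ∈ IU ∧ B ∈ BU ∧ H = [] ++ (s ++ B) then
            (hgt s : ℝ≥0∞) else 0)) ≤ F [] := by
        rw [hF]
        exact ENNReal.le_tsum (f := fun P : List Bool => ∑' B : List Bool, (if ([] : List Bool) ∈ BU ∧ P ∈ IU ∧
          B ∈ BU ∧ H = [] ++ (P ++ B) then (hgt P : ℝ≥0∞) else 0)) s
      exact e1.trans (e2.trans e3)
    have hcons : ∀ A : List Bool, (∑' P : List Bool, ∑' B : List Bool,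
        (if A ∈ BU ∧ P ∈ IU ∧ B ∈ BU ∧ u = A ++ (P ++ B) then (hgt P : ℝ≥0∞) else 0)) ≤ F (s ++ A) := by
      intro A
      rw [hF]
      refine ENNReal.tsum_le_tsum fun P => ENNReal.tsum_le_tsum fun B => ?_
      by_cases hc : A ∈ BU ∧ P ∈ IU ∧ B ∈ BU ∧ u = A ++ (P ++ B)
      · rw [if_pos hc, if_pos ⟨app hsB hc.1, hc.2.1, hc.2.2.1, by rw [he, hc.2.2.2, List.append_assoc]⟩]
      · rw [if_neg hc]
        exact zero_le
    have h2 : F [] + ∑' A : List Bool, F (s ++ A) ≤ ∑' A : List Bool, F A := by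
      have hinj : Function.Injective (fun A : List Bool => s ++ A) := fun a b hab => List.append_cancel_left hab
      have h6 : ∑' A : List Bool, F (s ++ A) = ∑' A : Set.range (fun A : List Bool => s ++ A), F A.1 :=
        (Equiv.ofInjective _ hinj).tsum_eq (fun A : Set.range (fun A : List Bool => s ++ A) => F A.1)
      have h7 : F [] = ∑' A : ({[]} : Set (List Bool)), F A.1 := (tsum_singleton ([] : List Bool) F).symm
      rw [h6, h7, ← ENNReal.summable.tsum_union_disjoint ?_ ENNReal.summable]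
      · exact ENNReal.tsum_comp_le_tsum_of_injective Subtype.val_injective F
      · rw [Set.disjoint_singleton_left]
        rintro ⟨A, hA⟩
        exact hs.2.1 (List.append_eq_nil_iff.1 hA).1
    have h3 : (h : ℝ≥0∞) = (r : ℝ≥0∞) + ((h - r : ℕ) : ℝ≥0∞) := by
      rw [← Nat.cast_add]
      congr 1
      omega
    rw [h3]
    refine (add_le_add hnil (hih.trans (ENNReal.tsum_le_tsum hcons))).trans (h2.trans ?_)
    rw [hF]

/-- only A and P -/
lemma hsumL {h : ℕ} {H : List Bool} (hH : H ∈ Brd h) : (h : ℝ≥0∞) ≤ ∑' A : List Bool, ∑' P : List Bool,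
    (if A ∈ BU ∧ P ∈ IU ∧ ∃ B ∈ BU, H = A ++ (P ++ B) then (hgt P : ℝ≥0∞) else 0) := by
  refine (hsum h H hH).trans (ENNReal.tsum_le_tsum fun A => ENNReal.tsum_le_tsum fun P => ?_)
  by_cases hc : A ∈ BU ∧ P ∈ IU ∧ ∃ B ∈ BU, H = A ++ (P ++ B)
  · rw [if_pos hc]
    obtain ⟨hA, hP, B0, hB0, he⟩ := hc
    rw [tsum_eq_single B0]
    · split_ifs
      · exact le_rfl
      · exact zero_le
    · intro B hB
      rw [if_neg]
      rintro ⟨-, -, -, h2⟩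
      rw [he] at h2
      exact hB (List.append_cancel_left (List.append_cancel_left h2)).symm
  · rw [if_neg hc]
    refine le_of_eq (ENNReal.tsum_eq_zero.2 fun B => if_neg ?_)
    rintro ⟨h1, h2, h3, h4⟩
    exact hc ⟨h1, h2, B, h3, h4⟩

/-- only P and B -/
lemma hsumR {h : ℕ} {H : List Bool} (hH : H ∈ Brd h) : (h : ℝ≥0∞) ≤ ∑' P : List Bool, ∑' B : List Bool,
    (if P ∈ IU ∧ B ∈ BU ∧ ∃ A ∈ BU, H = A ++ (P ++ B) then (hgt P : ℝ≥0∞) else 0) := by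
  refine (hsum h H hH).trans ?_
  rw [ENNReal.tsum_comm]
  refine ENNReal.tsum_le_tsum fun P => ?_
  rw [ENNReal.tsum_comm]
  refine ENNReal.tsum_le_tsum fun B => ?_
  by_cases hc : P ∈ IU ∧ B ∈ BU ∧ ∃ A ∈ BU, H = A ++ (P ++ B)
  · rw [if_pos hc]
    obtain ⟨hP, hB, A0, hA0, he⟩ := hc
    rw [tsum_eq_single A0]
    · split_ifs
      · exact le_rfl
      · exact zero_le
    · intro A hA
      rw [if_neg]
      rintro ⟨-, -, -, h2⟩
      rw [he] at h2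
      exact hA (List.append_cancel_right h2).symm
  · rw [if_neg hc]
    refine le_of_eq (ENNReal.tsum_eq_zero.2 fun A => if_neg ?_)
    rintro ⟨h1, h2, h3, h4⟩
    exact hc ⟨h2, h3, A, h1, h4⟩

/-- the conditions on the five parts -/
def Q5 (Q : ℕ → ℕ → List Bool → Prop) (LL RR : Set (List Bool)) (n N : ℕ) (L P P2 R Z : List Bool) : Prop :=
  (L ∈ LL ∧ R ∈ RR) ∧ (P ∈ IU ∧ hgt P ≤ N) ∧ (P2 ∈ IU ∧ hgt P2 ≤ N) ∧ (Z ∈ BU ∧ n ≤ hgt Z ∧ hgt Z ≤ 3 * N) ∧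
    Q (L ++ P).length ((L ++ P).length + Z.length) (L ++ (P ++ (Z ++ (P2 ++ R))))

/-- one word -/
lemma point {Q : ℕ → ℕ → List Bool → Prop} (hQ : MonQ Q) {LL RR : Set (List Bool)} {n N : ℕ} {t : List Bool}
    (h : Cut3 Q LL RR n N t) :
    (n : ℝ≥0∞) ^ 2 ≤ ∑' L : List Bool, ∑' P : List Bool, ∑' P2 : List Bool, ∑' R : List Bool, ∑' Z : List Bool,
      (if Q5 Q LL RR n N L P P2 R Z ∧ L ++ (P ++ (Z ++ (P2 ++ R))) = t then (hgt P : ℝ≥0∞) * (hgt P2 : ℝ≥0∞) else 0) := by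
  obtain ⟨X0, H1, H2, H3, X1, h1, h2, h3, he, hH1, hH2, hH3, n1, n2, n3, N1, N2, N3, hL, hR, hq⟩ := h
  obtain ⟨G, hG⟩ : ∃ G : List Bool → List Bool → List Bool → List Bool → ℝ≥0∞, G = fun L P P2 R =>
      ∑' Z : List Bool, (if Q5 Q LL RR n N L P P2 R Z ∧ L ++ (P ++ (Z ++ (P2 ++ R))) = t then
        (hgt P : ℝ≥0∞) * (hgt P2 : ℝ≥0∞) else 0) := ⟨_, rfl⟩
  obtain ⟨f, hf⟩ : ∃ f : List Bool → List Bool → ℝ≥0∞, f = fun A P =>
      (if A ∈ BU ∧ P ∈ IU ∧ ∃ B ∈ BU, H1 = A ++ (P ++ B) then (hgt P : ℝ≥0∞) else 0) := ⟨_, rfl⟩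
  obtain ⟨g, hg⟩ : ∃ g : List Bool → List Bool → ℝ≥0∞, g = fun P B =>
      (if P ∈ IU ∧ B ∈ BU ∧ ∃ A ∈ BU, H3 = A ++ (P ++ B) then (hgt P : ℝ≥0∞) else 0) := ⟨_, rfl⟩
  have key : ∀ A P P2 B, f A P * g P2 B ≤ G (X0 ++ A) P P2 (B ++ X1) := by
    intro A P P2 B
    rw [hf, hg]
    simp only
    split_ifs with c1 c2
    · obtain ⟨hA, hP, B1, hB1, e1⟩ := c1
      obtain ⟨hP2, hB, A1, hA1, e2⟩ := c2
      have b1 := hgt_eq hH1
      rw [e1, happ hA (app (IUB hP) hB1), happ (IUB hP) hB1] at b1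
      have b3 := hgt_eq hH3
      rw [e2, happ hA1 (app (IUB hP2) hB), happ (IUB hP2) hB] at b3
      have hH2B : H2 ∈ BU := ⟨h2, hH2⟩
      have hZ : B1 ++ (H2 ++ A1) ∈ BU := app hB1 (app hH2B hA1)
      have hZh : hgt (B1 ++ (H2 ++ A1)) = hgt B1 + (h2 + hgt A1) := by
        rw [happ hB1 (app hH2B hA1), happ hH2B hA1, hgt_eq hH2]
      rw [hG]
      refine le_trans ?_ (ENNReal.le_tsum (B1 ++ (H2 ++ A1)))
      rw [if_pos]
      refine ⟨⟨⟨hL A (P ++ B1) hA (app (IUB hP) hB1) e1, hR (A1 ++ P2) B (app hA1 (IUB hP2)) hB ?_⟩,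
        ⟨hP, by omega⟩, ⟨hP2, by omega⟩, ⟨hZ, by omega, by omega⟩, ?_⟩, ?_⟩
      · rw [e2, List.append_assoc]
      · have e3 : X0 ++ A ++ (P ++ (B1 ++ (H2 ++ A1) ++ (P2 ++ (B ++ X1)))) = t := by
          rw [he, e1, e2]
          simp only [List.append_assoc]
        rw [e3]
        have e4 : H1.length = A.length + P.length + B1.length := by
          rw [e1]
          simp only [List.length_append]
          omega
        have e5 : H3.length = A1.length + P2.length + B.length := by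
          rw [e2]
          simp only [List.length_append]
          omega
        refine hQ t _ _ _ _ ?_ ?_ hq
        · simp only [List.length_append]
          omega
        · simp only [List.length_append]
          omega
      · rw [he, e1, e2]
        simp only [List.append_assoc]
    · rw [mul_zero]
      exact zero_le
    · rw [zero_mul]
      exact zero_le
    · rw [zero_mul]
      exact zero_le
  calc (n : ℝ≥0∞) ^ 2 ≤ (h1 : ℝ≥0∞) * (h3 : ℝ≥0∞) := by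
        rw [pow_two]
        exact mul_le_mul' (by exact_mod_cast n1) (by exact_mod_cast n3)
    _ ≤ (∑' A : List Bool, ∑' P : List Bool, f A P) * ∑' P2 : List Bool, ∑' B : List Bool, g P2 B := by
        rw [hf, hg]
        exact mul_le_mul' (hsumL hH1) (hsumR hH3)
    _ = ∑' A : List Bool, ∑' P : List Bool, ∑' P2 : List Bool, ∑' B : List Bool, f A P * g P2 B := by
        rw [← ENNReal.tsum_mul_right]
        refine tsum_congr fun A => ?_
        rw [← ENNReal.tsum_mul_right]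
        refine tsum_congr fun P => ?_
        rw [← ENNReal.tsum_mul_left]
        refine tsum_congr fun P2 => ?_
        rw [← ENNReal.tsum_mul_left]
    _ ≤ ∑' A : List Bool, ∑' P : List Bool, ∑' P2 : List Bool, ∑' B : List Bool, G (X0 ++ A) P P2 (B ++ X1) :=
        ENNReal.tsum_le_tsum fun A => ENNReal.tsum_le_tsum fun P => ENNReal.tsum_le_tsum fun P2 =>
          ENNReal.tsum_le_tsum fun B => key A P P2 B
    _ ≤ ∑' A : List Bool, ∑' P : List Bool, ∑' P2 : List Bool, ∑' R : List Bool, G (X0 ++ A) P P2 R :=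
        ENNReal.tsum_le_tsum fun A => ENNReal.tsum_le_tsum fun P => ENNReal.tsum_le_tsum fun P2 =>
          ENNReal.tsum_comp_le_tsum_of_injective (fun a b hab => List.append_cancel_right hab)
            (fun R => G (X0 ++ A) P P2 R)
    _ ≤ ∑' L : List Bool, ∑' P : List Bool, ∑' P2 : List Bool, ∑' R : List Bool, G L P P2 R :=
        ENNReal.tsum_comp_le_tsum_of_injective (fun a b hab => List.append_cancel_left hab)
          (fun L => ∑' P : List Bool, ∑' P2 : List Bool, ∑' R : List Bool, G L P P2 R)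
    _ = _ := by rw [hG]

end CS

open CS

/-- **the sum over the five parts** -/
theorem cut3_master {Q : ℕ → ℕ → List Bool → Prop} (hQ : MonQ Q) {LL RR E : Set (List Bool)} {n N : ℕ}
    (hE : ∀ t ∈ E, Cut3 Q LL RR n N t) :
    (n : ℝ≥0∞) ^ 2 * gf E ≤ ∑' L : List Bool, ∑' P : List Bool, ∑' P2 : List Bool, ∑' R : List Bool, ∑' Z : List Bool,
      (if Q5 Q LL RR n N L P P2 R Z ∧ L ++ (P ++ (Z ++ (P2 ++ R))) ∈ E then
        wE L * wE P * wE P2 * wE R * wE Z * ((hgt P : ℝ≥0∞) * (hgt P2 : ℝ≥0∞)) else 0) := by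
  have h1 : (n : ℝ≥0∞) ^ 2 * gf E = ∑' t : E, wE t.1 * (n : ℝ≥0∞) ^ 2 := by
    unfold gf
    rw [ENNReal.tsum_mul_right, mul_comm]
  rw [h1]
  refine (ENNReal.tsum_le_tsum fun t => mul_le_mul' le_rfl (point hQ (hE t.1 t.2))).trans ?_
  simp only [← ENNReal.tsum_mul_left]
  rw [ENNReal.tsum_comm]
  refine ENNReal.tsum_le_tsum fun L => ?_
  rw [ENNReal.tsum_comm]
  refine ENNReal.tsum_le_tsum fun P => ?_
  rw [ENNReal.tsum_comm]
  refine ENNReal.tsum_le_tsum fun P2 => ?_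
  rw [ENNReal.tsum_comm]
  refine ENNReal.tsum_le_tsum fun R => ?_
  rw [ENNReal.tsum_comm]
  refine ENNReal.tsum_le_tsum fun Z => ?_
  by_cases hc : Q5 Q LL RR n N L P P2 R Z ∧ L ++ (P ++ (Z ++ (P2 ++ R))) ∈ E
  · rw [if_pos hc, tsum_eq_single (⟨_, hc.2⟩ : E)]
    · rw [if_pos ⟨hc.1, rfl⟩]
      simp only [wE_append]
      refine le_of_eq ?_
      ring
    · intro t ht
      rw [if_neg, mul_zero]
      rintro ⟨-, h3⟩
      exact ht (Subtype.ext h3.symm)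
  · rw [if_neg hc]
    refine le_of_eq (ENNReal.tsum_eq_zero.2 fun t => ?_)
    rw [if_neg, mul_zero]
    rintro ⟨h2, h3⟩
    exact hc ⟨h2, by rw [h3]; exact t.2⟩

/-- the mass of the pieces lower than 2 ^ b, weighted by the height -/
theorem piece_mass : ∃ K : ℝ, 1 ≤ K ∧ ∀ b : ℕ, ∑' P : List Bool, (if P ∈ IU ∧ hgt P ≤ 2 ^ b then
    wE P * (hgt P : ℝ≥0∞) else 0) ≤ ENNReal.ofReal (K * 2 ^ b / Ub b) := by
  obtain ⟨K, hK, h⟩ := avg_mass
  refine ⟨K, hK, fun b => ?_⟩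
  have hU := Ub_pos b
  have h1 : ∀ P : List Bool, (if P ∈ IU ∧ hgt P ≤ 2 ^ b then wE P * (hgt P : ℝ≥0∞) else 0) ≤
      2 ^ b * ∑' r : ℕ, min 1 ((r : ℝ≥0∞) / 2 ^ b) * (if P ∈ Irr r then wE P else 0) := by
    intro P
    split_ifs with hc
    · obtain ⟨⟨r, hr⟩, h2⟩ := hc
      rw [hgt_eq hr.1] at h2
      refine le_trans ?_ (mul_le_mul' le_rfl (ENNReal.le_tsum r))
      rw [if_pos hr, hgt_eq hr.1]
      have h3 : ((r : ℝ≥0∞) / 2 ^ b) ≤ 1 := by
        refine ENNReal.div_le_of_le_mul ?_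
        rw [one_mul]
        exact_mod_cast h2
      rw [min_eq_right h3, ← mul_assoc, mul_comm (wE P)]
      refine mul_le_mul' (le_of_eq ?_) le_rfl
      rw [ENNReal.mul_div_cancel (by positivity) (by finiteness)]
    · exact zero_le
  refine (ENNReal.tsum_le_tsum h1).trans ?_
  rw [ENNReal.tsum_mul_left, ENNReal.tsum_comm]
  have h2 : ∀ r : ℕ, ∑' P : List Bool, min 1 ((r : ℝ≥0∞) / 2 ^ b) * (if P ∈ Irr r then wE P else 0) =
      min 1 ((r : ℝ≥0∞) / 2 ^ b) * kap' r := by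
    intro r
    rw [ENNReal.tsum_mul_left]
    congr 1
    unfold kap' gf
    rw [_root_.tsum_subtype (Irr r) (fun t => wE t)]
    exact tsum_congr fun t => by rw [Set.indicator_apply]
  simp only [h2]
  refine (mul_le_mul' le_rfl (h b)).trans (le_of_eq ?_)
  rw [show (2 : ℝ≥0∞) ^ b = ENNReal.ofReal (2 ^ b) by
    rw [ENNReal.ofReal_pow (by norm_num), ENNReal.ofReal_ofNat], ← ENNReal.ofReal_mul (by positivity)]
  congr 1
  ring

/-- **the sum over the bridge Z between two rigid parts** -/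
theorem cut3_sum : ∃ C : ℝ, 1 ≤ C ∧ ∀ (Q : ℕ → ℕ → List Bool → Prop) (LL RR E : Set (List Bool)) (n b : ℕ)
    (x : ℝ≥0∞), MonQ Q → 1 ≤ n → (∀ t ∈ E, Cut3 Q LL RR n (2 ^ b) t) →
    (∀ A B : List Bool, gf {Z | (Z ∈ BU ∧ n ≤ hgt Z ∧ hgt Z ≤ 3 * 2 ^ b) ∧ A ++ (Z ++ B) ∈ E ∧
      Q A.length (A.length + Z.length) (A ++ (Z ++ B))} ≤ x) →
    gf E ≤ ENNReal.ofReal (C * (2 ^ b / (n * Ub b)) ^ 2) * (gf LL * gf RR * x) := by
  obtain ⟨K, hK, hP⟩ := piece_mass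
  refine ⟨K ^ 2, one_le_pow₀ hK, fun Q LL RR E n b x hQ hn hE hx => ?_⟩
  have hU := Ub_pos b
  have hn0 : (0 : ℝ) < n := by exact_mod_cast hn
  obtain ⟨p, hp⟩ : ∃ p : List Bool → ℝ≥0∞, p = fun P => if P ∈ IU ∧ hgt P ≤ 2 ^ b then wE P * (hgt P : ℝ≥0∞) else 0 :=
    ⟨_, rfl⟩
  obtain ⟨l, hl⟩ : ∃ l : List Bool → ℝ≥0∞, l = fun L => if L ∈ LL then wE L else 0 := ⟨_, rfl⟩
  obtain ⟨r, hr⟩ : ∃ r : List Bool → ℝ≥0∞, r = fun R => if R ∈ RR then wE R else 0 := ⟨_, rfl⟩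
  have hsl : ∑' L, l L = gf LL := by
    unfold gf
    rw [hl, _root_.tsum_subtype LL (fun t => wE t)]
    exact tsum_congr fun t => by rw [Set.indicator_apply]
  have hsr : ∑' L, r L = gf RR := by
    unfold gf
    rw [hr, _root_.tsum_subtype RR (fun t => wE t)]
    exact tsum_congr fun t => by rw [Set.indicator_apply]
  have h1 : (n : ℝ≥0∞) ^ 2 * gf E ≤ ∑' L : List Bool, ∑' P : List Bool, ∑' P2 : List Bool, ∑' R : List Bool,
      l L * (p P * (p P2 * (r R * x))) := by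
    refine (cut3_master hQ hE).trans ?_
    refine ENNReal.tsum_le_tsum fun L => ENNReal.tsum_le_tsum fun P => ENNReal.tsum_le_tsum fun P2 =>
      ENNReal.tsum_le_tsum fun R => ?_
    by_cases hc : (L ∈ LL ∧ R ∈ RR) ∧ (P ∈ IU ∧ hgt P ≤ 2 ^ b) ∧ (P2 ∈ IU ∧ hgt P2 ≤ 2 ^ b)
    · have e1 : l L = wE L := by rw [hl]; exact if_pos hc.1.1
      have e2 : r R = wE R := by rw [hr]; exact if_pos hc.1.2
      have e3 : p P = wE P * (hgt P : ℝ≥0∞) := by rw [hp]; exact if_pos hc.2.1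
      have e4 : p P2 = wE P2 * (hgt P2 : ℝ≥0∞) := by rw [hp]; exact if_pos hc.2.2
      have h2 := hx (L ++ P) (P2 ++ R)
      have h3 : gf {Z | (Z ∈ BU ∧ n ≤ hgt Z ∧ hgt Z ≤ 3 * 2 ^ b) ∧ (L ++ P) ++ (Z ++ (P2 ++ R)) ∈ E ∧
          Q (L ++ P).length ((L ++ P).length + Z.length) ((L ++ P) ++ (Z ++ (P2 ++ R)))} =
          ∑' Z : List Bool, (if (Z ∈ BU ∧ n ≤ hgt Z ∧ hgt Z ≤ 3 * 2 ^ b) ∧ (L ++ P) ++ (Z ++ (P2 ++ R)) ∈ E ∧
          Q (L ++ P).length ((L ++ P).length + Z.length) ((L ++ P) ++ (Z ++ (P2 ++ R))) then wE Z else 0) := by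
        unfold gf
        rw [_root_.tsum_subtype _ (fun t => wE t)]
        exact tsum_congr fun t => by rw [Set.indicator_apply]; rfl
      rw [h3] at h2
      rw [e1, e2, e3, e4]
      calc (∑' Z : List Bool, (if Q5 Q LL RR n (2 ^ b) L P P2 R Z ∧ L ++ (P ++ (Z ++ (P2 ++ R))) ∈ E then
            wE L * wE P * wE P2 * wE R * wE Z * ((hgt P : ℝ≥0∞) * (hgt P2 : ℝ≥0∞)) else 0))
          ≤ ∑' Z : List Bool, wE L * (wE P * (hgt P : ℝ≥0∞)) * (wE P2 * (hgt P2 : ℝ≥0∞)) * wE R *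
            (if (Z ∈ BU ∧ n ≤ hgt Z ∧ hgt Z ≤ 3 * 2 ^ b) ∧ (L ++ P) ++ (Z ++ (P2 ++ R)) ∈ E ∧
              Q (L ++ P).length ((L ++ P).length + Z.length) ((L ++ P) ++ (Z ++ (P2 ++ R))) then wE Z else 0) := by
            refine ENNReal.tsum_le_tsum fun Z => ?_
            by_cases hd : Q5 Q LL RR n (2 ^ b) L P P2 R Z ∧ L ++ (P ++ (Z ++ (P2 ++ R))) ∈ E
            · rw [if_pos hd, List.append_assoc, if_pos ⟨hd.1.2.2.2.1, hd.2, hd.1.2.2.2.2⟩]
              refine le_of_eq ?_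
              ring
            · rw [if_neg hd]
              exact zero_le
        _ ≤ wE L * (wE P * (hgt P : ℝ≥0∞)) * (wE P2 * (hgt P2 : ℝ≥0∞)) * wE R * x := by
            rw [ENNReal.tsum_mul_left]
            exact mul_le_mul' le_rfl h2
        _ = _ := by ring
    · refine le_trans (le_of_eq (ENNReal.tsum_eq_zero.2 fun Z => if_neg ?_)) zero_le
      rintro ⟨h2, -⟩
      exact hc ⟨h2.1, h2.2.1, h2.2.2.1⟩
  have h2 : ∑' L : List Bool, ∑' P : List Bool, ∑' P2 : List Bool, ∑' R : List Bool,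
      l L * (p P * (p P2 * (r R * x))) = gf LL * ((∑' P, p P) * ((∑' P, p P) * (gf RR * x))) := by
    simp only [ENNReal.tsum_mul_left, ENNReal.tsum_mul_right, hsl, hsr]
  have h3 : ∑' P, p P ≤ ENNReal.ofReal (K * 2 ^ b / Ub b) := by
    rw [hp]
    exact hP b
  have hn1 : ((n : ℝ≥0∞) ^ 2) ≠ 0 := by
    have : (n : ℝ≥0∞) ≠ 0 := by exact_mod_cast (by omega : n ≠ 0)
    exact pow_ne_zero _ this
  have hn2 : ((n : ℝ≥0∞) ^ 2) ≠ ⊤ := ENNReal.pow_ne_top (ENNReal.natCast_ne_top n)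
  rw [h2] at h1
  have h4 : gf E ≤ ((n : ℝ≥0∞) ^ 2)⁻¹ * (gf LL * (ENNReal.ofReal (K * 2 ^ b / Ub b) *
      (ENNReal.ofReal (K * 2 ^ b / Ub b) * (gf RR * x)))) := by
    calc gf E = ((n : ℝ≥0∞) ^ 2)⁻¹ * ((n : ℝ≥0∞) ^ 2 * gf E) := by
          rw [← mul_assoc, ENNReal.inv_mul_cancel hn1 hn2, one_mul]
      _ ≤ _ := mul_le_mul' le_rfl (h1.trans (mul_le_mul' le_rfl (mul_le_mul' h3 (mul_le_mul' h3 le_rfl))))
  refine h4.trans (le_of_eq ?_)
  have h5 : ((n : ℝ≥0∞) ^ 2)⁻¹ = ENNReal.ofReal (((n : ℝ) ^ 2)⁻¹) := by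
    rw [ENNReal.ofReal_inv_of_pos (by positivity), ENNReal.ofReal_pow hn0.le, ENNReal.ofReal_natCast]
  have h6 : ENNReal.ofReal (K ^ 2 * (2 ^ b / (n * Ub b)) ^ 2) = ((n : ℝ≥0∞) ^ 2)⁻¹ *
      (ENNReal.ofReal (K * 2 ^ b / Ub b) * ENNReal.ofReal (K * 2 ^ b / Ub b)) := by
    rw [h5, ← ENNReal.ofReal_mul (by positivity), ← ENNReal.ofReal_mul (by positivity)]
    congr 1
    field_simp
  rw [h6]
  ring

end SIM

end HexObs
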