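import Pool.Agent.SIM.LimS
import Pool.Agent.NTS.ResultX
import Pool.Agent.SDN.Crowd

/-!
# SIM/Dens: near touches, from the cumulative mass to a set of step numbers of density 1 - ε (helper5)

* `PinW η δ k n` : the words with `n` letters and a near touch at the scale `k`;
* `SimC m` : the near touches have little mass, summed over the `n` of one scale;
* **`dens_of`** : for every `ε` there is a set `A` of step numbers with `SimA A`, the complement of density `≤ ε`.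
-/

set_option autoImplicit false

namespace HexObs

namespace SIM

open MeasureTheory Finset Filter Topology

open HexObs.TS HexObs.SDN HexObs.NTW

open Pool.Agent.NTS.Res

open NTSF (ScaleX nuX_le prop_le pos_sw norm_rot lvl_le_norm scaleX_exists normX_of factsQ_of)

open NTF (JJ sw)

open scoped ENNReal Classical


/-- a near touch of the scale `S` -/
def Pin (η δ S : ℝ) (t : List Bool) : Prop := ∃ i l j : ℕ, i ≤ l ∧ l ≤ j ∧ j ≤ t.length ∧
    (∃ dir : Bool, η * S ≤ |((lvl dir (vx oo up t l) - lvl dir (vx oo up t i) : ℤ) : ℝ)|) ∧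
    ∀ dir : Bool, |((lvl dir (vx oo up t j) - lvl dir (vx oo up t i) : ℤ) : ℝ)| ≤ δ * S

lemma Pin.mono {η η' δ δ' S : ℝ} (hS : 0 ≤ S) {t : List Bool} (hη : η' ≤ η) (hδ : δ ≤ δ') (h : Pin η δ S t) :
    Pin η' δ' S t := by
  obtain ⟨i, l, j, h1, h2, h3, ⟨dir, h4⟩, h5⟩ := h
  exact ⟨i, l, j, h1, h2, h3, ⟨dir, (mul_le_mul_of_nonneg_right hη hS).trans h4⟩,
    fun dir => (h5 dir).trans (mul_le_mul_of_nonneg_right hδ hS)⟩

/-- the cumulative statement -/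
def SimC (m : ℕ → ℝ) : Prop := ∀ η e : ℝ, 0 < η → 0 < e → ∃ (δ : ℝ) (k0 : ℕ), 0 < δ ∧ ∀ k : ℕ, k0 ≤ k →
  gf {t | t ∈ SA ∧ m k ≤ t.length ∧ (t.length : ℝ) < m (k + 1) ∧ Pin η δ (2 ^ k) t} ≤
    ENNReal.ofReal e * (ENNReal.ofReal (Ub k) * NTA.Xb k ^ 2)

lemma mass_nuX {m : ℕ → ℝ} (hm : ∀ k, 0 < m k) (k : ℕ) :
    ENNReal.ofReal (Ub k) * NTA.Xb k ^ 2 = ENNReal.ofReal (m k) * nuX m k := by
  unfold nuX
  rw [← mul_assoc, ← ENNReal.ofReal_mul (hm k).le]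
  congr 3
  field_simp [(hm k).ne']

lemma nuX_ne_zero {m : ℕ → ℝ} (hm : ∀ k, 0 < m k) (k : ℕ) : nuX m k ≠ 0 := by
  unfold nuX
  refine mul_ne_zero ?_ (pow_ne_zero 2 (NTA.Xb_ne_zero k))
  rw [Ne, ENNReal.ofReal_eq_zero, not_le]
  exact div_pos (TS.Ub_pos k) (hm k)

lemma nuX_ne_top {m : ℕ → ℝ} (k : ℕ) : nuX m k ≠ ⊤ :=
  ENNReal.mul_ne_top ENNReal.ofReal_ne_top (ENNReal.pow_ne_top (NTA.Xb_ne_top k))

lemma gf_sum_le (F : Finset ℕ) (E : ℕ → Set (List Bool)) {G : Set (List Bool)} (hd : ∀ i j : ℕ, i ≠ j → Disjoint (E i) (E j))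
    (h : ∀ n ∈ F, E n ⊆ G) : ∑ n ∈ F, gf (E n) ≤ gf G := by
  classical
  induction F using Finset.induction_on generalizing G with
  | empty => simp
  | insert a F ha ih =>
    rw [Finset.sum_insert ha]
    have h1 := ih (G := {t | t ∈ G ∧ t ∉ E a}) (fun n hn t ht =>
      ⟨h n (Finset.mem_insert_of_mem hn) ht, fun h2 => Set.disjoint_left.1 (hd n a (fun h3 => ha (h3 ▸ hn))) ht h2⟩)
    calc gf (E a) + ∑ n ∈ F, gf (E n) ≤ gf (E a) + gf {t | t ∈ G ∧ t ∉ E a} := by gcongr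
      _ = gf (E a ∪ {t | t ∈ G ∧ t ∉ E a}) := by
          rw [gf_union]
          rw [Set.disjoint_left]
          rintro t h2 ⟨-, h3⟩
          exact h3 h2
      _ ≤ gf G := by
          apply gf_mono
          rintro t (h2 | h2)
          · exact h a (Finset.mem_insert_self _ _) h2
          · exact h2.1

/-- **few bad step numbers in one scale** -/
lemma bad_card {m : ℕ → ℝ} (hm : ∀ k, 0 < m k) {η δ e e' : ℝ} (he : 0 ≤ e) (he' : 0 < e') {k : ℕ}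
    (h : gf {t | t ∈ SA ∧ m k ≤ t.length ∧ (t.length : ℝ) < m (k + 1) ∧ Pin η δ (2 ^ k) t} ≤
      ENNReal.ofReal e * (ENNReal.ofReal (Ub k) * NTA.Xb k ^ 2)) {F : Finset ℕ}
    (hF : ∀ n ∈ F, m k ≤ n ∧ (n : ℝ) < m (k + 1) ∧
      ENNReal.ofReal e' * nuX m k < gf {t | t ∈ SawN n ∧ Pin η δ (2 ^ k) t}) : (F.card : ℝ) ≤ e / e' * m k := by
  have h1 : ∑ n ∈ F, gf {t | t ∈ SawN n ∧ Pin η δ (2 ^ k) t} ≤
      gf {t | t ∈ SA ∧ m k ≤ t.length ∧ (t.length : ℝ) < m (k + 1) ∧ Pin η δ (2 ^ k) t} := by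
    refine gf_sum_le F _ (fun i j hij => ?_) fun n hn t ht => ?_
    · rw [Set.disjoint_left]
      rintro t ⟨⟨h2, -⟩, -⟩ ⟨⟨h3, -⟩, -⟩
      exact hij (h2 ▸ h3)
    · obtain ⟨a, b, -⟩ := hF n hn
      obtain ⟨⟨h2, h3⟩, h4⟩ := ht
      refine ⟨h3, ?_, ?_, h4⟩
      · rw [h2]
        exact a
      · rw [h2]
        exact b
  have h2 : (F.card : ℝ≥0∞) * (ENNReal.ofReal e' * nuX m k) ≤ ∑ n ∈ F, gf {t | t ∈ SawN n ∧ Pin η δ (2 ^ k) t} := by
    rw [← nsmul_eq_mul, ← Finset.sum_const]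
    exact Finset.sum_le_sum fun n hn => (hF n hn).2.2.le
  have h3 := h2.trans (h1.trans h)
  rw [mass_nuX hm, ← mul_assoc, ← mul_assoc] at h3
  have h4 := (ENNReal.mul_le_mul_iff_left (nuX_ne_zero hm k) (nuX_ne_top k)).1 h3
  rw [← ENNReal.ofReal_natCast, ← ENNReal.ofReal_mul (Nat.cast_nonneg _), ← ENNReal.ofReal_mul he,
    ENNReal.ofReal_le_ofReal_iff (mul_nonneg he (hm k).le)] at h4
  rw [div_mul_eq_mul_div, le_div_iff₀ he']
  exact h4

/-! ### The set of step numbers -/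

lemma geo_sum (K : ℕ) : ∑ k ∈ range (K + 1), (2 : ℝ) ^ (4 / 3 * (k : ℝ)) ≤ 2 * (2 : ℝ) ^ (4 / 3 * (K : ℝ)) := by
  induction K with
  | zero => norm_num
  | succ K ih =>
    rw [Finset.sum_range_succ]
    have h1 : 2 * (2 : ℝ) ^ (4 / 3 * (K : ℝ)) ≤ (2 : ℝ) ^ (4 / 3 * ((K + 1 : ℕ) : ℝ)) := by
      have e : (2 : ℝ) ^ (4 / 3 * ((K + 1 : ℕ) : ℝ)) = (2 : ℝ) ^ (4 / 3 : ℝ) * (2 : ℝ) ^ (4 / 3 * (K : ℝ)) := by
        rw [← Real.rpow_add (by norm_num)]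
        congr 1
        push_cast
        ring
      rw [e]
      have h2 : (2 : ℝ) ≤ (2 : ℝ) ^ (4 / 3 : ℝ) := by
        calc (2 : ℝ) = (2 : ℝ) ^ (1 : ℝ) := (Real.rpow_one 2).symm
          _ ≤ _ := Real.rpow_le_rpow_of_exponent_le (by norm_num) (by norm_num)
      gcongr
    linarith

/-- few numbers in each scale: few numbers -/
lemma few_of_scales {m : ℕ → ℝ} {κ : ℕ → ℕ} {c C : ℝ} (hc : 0 < c) (hC : 0 < C)
    (hlo : ∀ k : ℕ, c * (2 : ℝ) ^ (4 / 3 * (k : ℝ)) ≤ m k) (hup : ∀ k : ℕ, m k ≤ C * (2 : ℝ) ^ (4 / 3 * (k : ℝ)))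
    {n1 : ℕ} (hsc : ∀ n : ℕ, n1 ≤ n → m (κ n) ≤ n ∧ (n : ℝ) < m (κ n + 1)) {A : Set ℕ} {ε : ℝ} (hε : 0 < ε)
    (h : ∀ (k : ℕ) (F : Finset ℕ), (∀ n ∈ F, n ∉ A ∧ κ n = k ∧ m k ≤ n ∧ (n : ℝ) < m (k + 1)) →
      (F.card : ℝ) ≤ ε * c / (4 * C) * m k) :
    ∃ N0 : ℕ, ∀ N : ℕ, N0 ≤ N → (((range N).filter fun n => n ∉ A).card : ℝ) ≤ ε * N := by
  obtain ⟨N0, hN0⟩ := exists_nat_ge (2 * n1 / ε)
  refine ⟨N0, fun N hN => ?_⟩
  obtain ⟨G, hG⟩ : ∃ G, G = (range N).filter fun n => n ∉ A ∧ n1 ≤ n := ⟨_, rfl⟩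
  have hGm : ∀ n, n ∈ G ↔ n < N ∧ n ∉ A ∧ n1 ≤ n := fun n => by
    rw [hG, Finset.mem_filter, Finset.mem_range]
  have h1 : (((range N).filter fun n => n ∉ A).card : ℝ) ≤ n1 + G.card := by
    have h2 : (range N).filter (fun n => n ∉ A) ⊆ range n1 ∪ G := by
      intro n hn
      rw [Finset.mem_filter, Finset.mem_range] at hn
      rw [Finset.mem_union, Finset.mem_range, hGm]
      rcases lt_or_ge n n1 with h3 | h3
      · exact Or.inl h3
      · exact Or.inr ⟨hn.1, hn.2, h3⟩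
    have h3 := (Finset.card_le_card h2).trans (Finset.card_union_le _ _)
    rw [Finset.card_range] at h3
    exact_mod_cast h3
  have hn1 : (n1 : ℝ) ≤ ε / 2 * N := by
    have h3 : 2 * n1 / ε ≤ N := hN0.trans (by exact_mod_cast hN)
    rw [div_le_iff₀ hε] at h3
    linarith
  have h2 : (G.card : ℝ) ≤ ε / 2 * N := by
    rcases G.eq_empty_or_nonempty with h3 | h3
    · rw [h3, Finset.card_empty, Nat.cast_zero]
      positivity
    obtain ⟨K, hK⟩ : ∃ K, K = (G.image κ).max' (h3.image κ) := ⟨_, rfl⟩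
    have hKm : K ∈ G.image κ := hK ▸ Finset.max'_mem _ _
    have hKle : ∀ n ∈ G, κ n ≤ K := fun n hn => hK ▸ Finset.le_max' _ _ (Finset.mem_image_of_mem κ hn)
    obtain ⟨nK, hnK, hnK2⟩ := Finset.mem_image.1 hKm
    have hx : ∀ k : ℕ, (0 : ℝ) < (2 : ℝ) ^ (4 / 3 * (k : ℝ)) := fun k => Real.rpow_pos_of_pos (by norm_num) _
    have hKN : c * (2 : ℝ) ^ (4 / 3 * (K : ℝ)) ≤ N := by
      refine (hlo K).trans ?_
      have h4 := ((hGm nK).1 hnK)
      have h5 := (hsc nK h4.2.2).1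
      rw [hnK2] at h5
      refine h5.trans ?_
      exact_mod_cast h4.1.le
    have h4 : G ⊆ (range (K + 1)).biUnion fun k => G.filter fun n => κ n = k := by
      intro n hn
      rw [Finset.mem_biUnion]
      exact ⟨κ n, Finset.mem_range.2 (by have := hKle n hn; omega), Finset.mem_filter.2 ⟨hn, rfl⟩⟩
    have h5 : (G.card : ℝ) ≤ ∑ k ∈ range (K + 1), ((G.filter fun n => κ n = k).card : ℝ) := by
      have := (Finset.card_le_card h4).trans Finset.card_biUnion_le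
      exact_mod_cast this
    refine h5.trans ?_
    have h6 : ∀ k ∈ range (K + 1), ((G.filter fun n => κ n = k).card : ℝ) ≤
        ε * c / (4 * C) * (C * (2 : ℝ) ^ (4 / 3 * (k : ℝ))) := by
      intro k _
      refine (h k _ fun n hn => ?_).trans (mul_le_mul_of_nonneg_left (hup k) (by positivity))
      rw [Finset.mem_filter, hGm] at hn
      obtain ⟨⟨-, h7, h8⟩, h9⟩ := hn
      have h10 := hsc n h8
      rw [h9] at h10
      exact ⟨h7, h9, h10⟩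
    refine (Finset.sum_le_sum h6).trans ?_
    rw [← Finset.mul_sum, ← Finset.mul_sum]
    have h7 := geo_sum K
    calc ε * c / (4 * C) * (C * ∑ k ∈ range (K + 1), (2 : ℝ) ^ (4 / 3 * (k : ℝ))) ≤
        ε * c / (4 * C) * (C * (2 * (2 : ℝ) ^ (4 / 3 * (K : ℝ)))) := by gcongr
      _ = ε / 2 * (c * (2 : ℝ) ^ (4 / 3 * (K : ℝ))) := by
          field_simp
          ring
      _ ≤ ε / 2 * N := mul_le_mul_of_nonneg_left hKN (by positivity)
  calc (((range N).filter fun n => n ∉ A).card : ℝ) ≤ n1 + G.card := h1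
    _ ≤ ε / 2 * N + ε / 2 * N := add_le_add hn1 h2
    _ = ε * N := by ring

/-- **the pick: countably many bad classes, the class i with a part ε' / 2 ^ (i + 1) of every scale** -/
lemma pick_scale {m : ℕ → ℝ} {ε' : ℝ} (hε' : 0 ≤ ε') {k : ℕ} (hm : 0 ≤ m k) {F : Finset ℕ} {bad : ℕ → Set ℕ}
    (hF : ∀ n ∈ F, ∃ i, n ∈ bad i)
    (hb : ∀ (i : ℕ) (F' : Finset ℕ), F' ⊆ F → (∀ n ∈ F', n ∈ bad i) → (F'.card : ℝ) ≤ ε' / 2 ^ (i + 1) * m k) :
    (F.card : ℝ) ≤ ε' * m k := by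
  choose! f hf using hF
  have h1 : F ⊆ (F.image f).biUnion fun i => F.filter fun n => f n = i := by
    intro n hn
    rw [Finset.mem_biUnion]
    exact ⟨f n, Finset.mem_image_of_mem f hn, Finset.mem_filter.2 ⟨hn, rfl⟩⟩
  have h2 : (F.card : ℝ) ≤ ∑ i ∈ F.image f, ((F.filter fun n => f n = i).card : ℝ) := by
    have := (Finset.card_le_card h1).trans Finset.card_biUnion_le
    exact_mod_cast this
  refine h2.trans ?_
  have h3 : ∀ i ∈ F.image f, ((F.filter fun n => f n = i).card : ℝ) ≤ ε' * m k * (1 / 2 ^ (i + 1)) := by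
    intro i _
    refine (hb i _ (Finset.filter_subset _ _) fun n hn => ?_).trans (le_of_eq ?_)
    · rw [Finset.mem_filter] at hn
      have := hf n hn.1
      rwa [hn.2] at this
    · ring
  refine (Finset.sum_le_sum h3).trans ?_
  rw [← Finset.mul_sum]
  have h4 : ∑ i ∈ F.image f, (1 : ℝ) / 2 ^ (i + 1) ≤ 1 := by
    have hs : HasSum (fun i : ℕ => (1 : ℝ) / 2 ^ (i + 1)) 1 := by
      have h5 := hasSum_geometric_two.mul_left (1 / 2 : ℝ)
      have e : (fun i : ℕ => (1 / 2 : ℝ) * (1 / 2) ^ i) = fun i : ℕ => (1 : ℝ) / 2 ^ (i + 1) := by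
        funext i
        rw [one_div_pow, pow_succ]
        field_simp
      rw [e] at h5
      norm_num at h5
      simpa using h5
    exact sum_le_hasSum _ (fun i _ => by positivity) hs
  have h5 : 0 ≤ ε' * m k := mul_nonneg hε' hm
  nlinarith

/-- **near touches: a set of step numbers of density at least 1 - ε** -/
theorem dens_of {m : ℕ → ℝ} (hlo : ∃ c : ℝ, 0 < c ∧ ∀ k : ℕ, c * (2 : ℝ) ^ (4 / 3 * (k : ℝ)) ≤ m k)
    (hup : ∃ C : ℝ, ∀ k : ℕ, m k ≤ C * (2 : ℝ) ^ (4 / 3 * (k : ℝ))) (hF : FactsX m) (hC : SimC m) {ε : ℝ} (hε : 0 < ε) :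
    ∃ A : Set ℕ, (∃ N0 : ℕ, ∀ N : ℕ, N0 ≤ N → (((range N).filter fun n => n ∉ A).card : ℝ) ≤ ε * N) ∧ SimA A ∧
      DIM.LawSim A := by
  obtain ⟨R, κ, hS⟩ := scaleX_exists hlo hup
  have hpos : ∀ k : ℕ, (0 : ℝ) < (2 : ℝ) ^ (4 / 3 * (k : ℝ)) := fun k => Real.rpow_pos_of_pos (by norm_num) _
  have hm : ∀ k, 0 < m k := fun k => by
    obtain ⟨c, hc, h⟩ := hlo
    exact lt_of_lt_of_le (mul_pos hc (hpos k)) (h k)
  obtain ⟨c, hc, hlo'⟩ := hlo
  obtain ⟨C', hup'⟩ := hup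
  obtain ⟨C, hCdef⟩ : ∃ C : ℝ, C = max C' 1 := ⟨_, rfl⟩
  have hC0 : 0 < C := by
    rw [hCdef]
    exact lt_max_of_lt_right one_pos
  have hupC : ∀ k : ℕ, m k ≤ C * (2 : ℝ) ^ (4 / 3 * (k : ℝ)) := fun k => (hup' k).trans (by
    rw [hCdef]
    exact mul_le_mul_of_nonneg_right (le_max_left _ _) (hpos k).le)
  have hd : ∃ D : ℝ, 1 ≤ D ∧ ∀ k, m (k + 1) ≤ D * m k := by
    refine ⟨max 1 (C * (2 : ℝ) ^ (4 / 3 : ℝ) / c), le_max_left _ _, fun k => ?_⟩
    have h1 : (2 : ℝ) ^ (4 / 3 * ((k + 1 : ℕ) : ℝ)) = (2 : ℝ) ^ (4 / 3 : ℝ) * (2 : ℝ) ^ (4 / 3 * (k : ℝ)) := by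
      rw [← Real.rpow_add (by norm_num)]
      congr 1
      push_cast
      ring
    calc m (k + 1) ≤ C * (2 : ℝ) ^ (4 / 3 * ((k + 1 : ℕ) : ℝ)) := hupC (k + 1)
      _ = C * (2 : ℝ) ^ (4 / 3 : ℝ) / c * (c * (2 : ℝ) ^ (4 / 3 * (k : ℝ))) := by
          rw [h1]
          field_simp
      _ ≤ C * (2 : ℝ) ^ (4 / 3 : ℝ) / c * m k := mul_le_mul_of_nonneg_left (hlo' k) (by positivity)
      _ ≤ _ := mul_le_mul_of_nonneg_right (le_max_right _ _) (hm k).le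
  have hR1 : ∀ n, 1 ≤ R n := fun n => by
    rw [hS.R2]
    exact one_le_pow₀ (by norm_num)
  obtain ⟨-, ⟨cd, nd, hcd, hdown⟩, Cu, nu, hCu, hupR⟩ := factsQ_of hR1 (normX_of hS hF hd)
  obtain ⟨c0, n0, hc0, hnu⟩ := nuX_le hS hF
  obtain ⟨n1, hsc⟩ := hS.sc
  -- the countable list of the statements
  obtain ⟨η, hη⟩ : ∃ η : ℕ → ℝ, ∀ i, η i = 1 / ((i.unpair.1 : ℝ) + 1) := ⟨fun i => 1 / ((i.unpair.1 : ℝ) + 1), fun _ => rfl⟩
  obtain ⟨e', he'⟩ : ∃ e' : ℕ → ℝ, ∀ i, e' i = 1 / ((i.unpair.2 : ℝ) + 1) := ⟨fun i => 1 / ((i.unpair.2 : ℝ) + 1), fun _ => rfl⟩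
  have hη0 : ∀ i, 0 < η i := fun i => by
    rw [hη]
    positivity
  have he'0 : ∀ i, 0 < e' i := fun i => by
    rw [he']
    positivity
  obtain ⟨ε', hε'⟩ : ∃ ε' : ℝ, ε' = ε * c / (4 * C) := ⟨_, rfl⟩
  have hε'0 : 0 < ε' := by
    rw [hε']
    positivity
  choose δ k0 hδ hk0 using fun i => hC (η i) (e' i * (ε' / 2 ^ (i + 1))) (hη0 i)
    (mul_pos (he'0 i) (by positivity))
  obtain ⟨A, hA⟩ : ∃ A : Set ℕ, A = {n | ∀ i, k0 i ≤ κ n → gf {t | t ∈ SawN n ∧ Pin (η i) (δ i) (2 ^ κ n) t} ≤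
    ENNReal.ofReal (e' i) * nuX m (κ n)} := ⟨_, rfl⟩
  have hAm : ∀ n, n ∈ A ↔ ∀ i, k0 i ≤ κ n → gf {t | t ∈ SawN n ∧ Pin (η i) (δ i) (2 ^ κ n) t} ≤
    ENNReal.ofReal (e' i) * nuX m (κ n) := fun n => by
    rw [hA]
    exact Iff.rfl
  have hsim : SimA A := by
    intro r ε₁ hr hε₁
    obtain ⟨p, hp⟩ := exists_nat_one_div_lt (show 0 < r * cd by positivity)
    obtain ⟨q, hq⟩ := exists_nat_one_div_lt (show 0 < ε₁ / c0 by positivity)
    obtain ⟨i, hi⟩ : ∃ i, i = Nat.pair p q := ⟨_, rfl⟩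
    have hi1 : η i = 1 / ((p : ℝ) + 1) := by
      rw [hη, hi, Nat.unpair_pair]
    have hi2 : e' i = 1 / ((q : ℝ) + 1) := by
      rw [he', hi, Nat.unpair_pair]
    obtain ⟨n2, hn2⟩ := hS.top (k0 i)
    refine ⟨δ i / (2 * Cu), max (max (max n0 n2) (max nd nu)) 1, by
      have := hδ i
      positivity, fun n hnA hn => ?_⟩
    have b0 : n0 ≤ n := (le_max_left _ _).trans ((le_max_left _ _).trans ((le_max_left _ _).trans hn))
    have b2 : n2 ≤ n := (le_max_right _ _).trans ((le_max_left _ _).trans ((le_max_left _ _).trans hn))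
    have b3 : nd ≤ n := (le_max_left _ _).trans ((le_max_right _ _).trans ((le_max_left _ _).trans hn))
    have b4 : nu ≤ n := (le_max_right _ _).trans ((le_max_right _ _).trans ((le_max_left _ _).trans hn))
    have b1 : 1 ≤ n := (le_max_right _ _).trans hn
    have hg := ((hAm n).1 hnA) i (hn2 n b2)
    have hg2 : gf {t | t ∈ SawN n ∧ Pin (η i) (δ i) (2 ^ κ n) t} ≤ ENNReal.ofReal ε₁ * gf (SawN n) := by
      refine hg.trans ((mul_le_mul_right (hnu n b0) _).trans ?_)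
      rw [← mul_assoc, ← ENNReal.ofReal_mul (he'0 i).le]
      refine mul_le_mul_left (ENNReal.ofReal_le_ofReal ?_) _
      rw [hi2]
      calc 1 / ((q : ℝ) + 1) * c0 ≤ ε₁ / c0 * c0 := mul_le_mul_of_nonneg_right hq.le hc0.le
        _ = ε₁ := div_mul_cancel₀ _ hc0.ne'
    refine prop_le b1 _ (fun s => by simp only [NearP, norm_rot]) hε₁.le ?_ hg2
    rintro t ht ⟨a, l, j, hal, hlj, hj, h1, h2⟩
    have hlen : t.length = n := ht.1
    rw [pos_sw n t l (hlj.trans hj), pos_sw n t a (hal.trans (hlj.trans hj)), ← NTF.JJ_sub] at h1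
    rw [pos_sw n t j hj, pos_sw n t a (hal.trans (hlj.trans hj)), ← NTF.JJ_sub] at h2
    have hRn := hR1 n
    have hdn := hdown n b3
    have hun := hupR n b4
    rw [hS.R2 n] at hRn hdn hun
    refine ⟨ht, a, l, j, hal, hlj, by rw [hlen]; exact hj, ?_, fun dir => ?_⟩
    · have h4 : η i * 2 ^ κ n ≤ ‖JJ (vx oo up t l - vx oo up t a)‖ := by
        refine le_trans ?_ h1
        calc η i * 2 ^ κ n ≤ r * cd * 2 ^ κ n := by
              apply mul_le_mul_of_nonneg_right _ (by positivity)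
              rw [hi1]
              exact hp.le
          _ = r * (cd * 2 ^ κ n) := by ring
          _ ≤ r * size n := mul_le_mul_of_nonneg_left hdn hr.le
      obtain ⟨dir, h5⟩ := NTF.exists_dir (mul_nonneg (hη0 i).le (by positivity)) h4
      rw [NTF.lvl_sub] at h5
      exact ⟨dir, h5⟩
    · have h5 := lvl_le_norm dir (vx oo up t j - vx oo up t a)
      rw [NTF.lvl_sub] at h5
      refine h5.trans ?_
      have h6 : ‖JJ (vx oo up t j - vx oo up t a)‖ ≤ δ i / (2 * Cu) * (Cu * 2 ^ κ n) :=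
        h2.trans (mul_le_mul_of_nonneg_left hun (by
          have := hδ i
          positivity))
      calc 2 * ‖JJ (vx oo up t j - vx oo up t a)‖ ≤ 2 * (δ i / (2 * Cu) * (Cu * 2 ^ κ n)) := by linarith
        _ = δ i * 2 ^ κ n := by field_simp
  have htop : Tendsto size atTop atTop := by
    rw [tendsto_atTop]
    intro b
    obtain ⟨k, hk⟩ := pow_unbounded_of_one_lt (b / cd) (show (1 : ℝ) < 2 by norm_num)
    obtain ⟨n2, hn2⟩ := hS.top k
    filter_upwards [eventually_ge_atTop (max n2 nd)] with n hn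
    have h1 := hdown n (le_of_max_le_right hn)
    have h2 := hn2 n (le_of_max_le_left hn)
    rw [hS.R2 n] at h1
    rw [div_lt_iff₀ hcd] at hk
    have h3 : (2 : ℝ) ^ k ≤ 2 ^ κ n := pow_le_pow_right₀ (by norm_num) h2
    nlinarith
  refine ⟨A, ?_, hsim, lawSimA_of hsim htop⟩
  refine few_of_scales hc hC0 hlo' hupC hsc hε fun k F hFk => ?_
  rw [← hε']
  refine pick_scale hε'0.le (hm k).le (bad := fun i => {n | k0 i ≤ κ n ∧ ENNReal.ofReal (e' i) * nuX m (κ n) <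
    gf {t | t ∈ SawN n ∧ Pin (η i) (δ i) (2 ^ κ n) t}}) (fun n hn => ?_) fun i F' hF' hb => ?_
  · obtain ⟨h1, -⟩ := hFk n hn
    have h2 : ¬ n ∈ A := h1
    rw [hAm] at h2
    push Not at h2
    obtain ⟨i, h3, h4⟩ := h2
    exact ⟨i, h3, h4⟩
  · rcases F'.eq_empty_or_nonempty with h0 | ⟨n', hn'⟩
    · rw [h0, Finset.card_empty, Nat.cast_zero]
      exact mul_nonneg (by positivity) (hm k).le
    have hk : k0 i ≤ k := by
      have h1 := (hb n' hn').1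
      rwa [(hFk n' (hF' hn')).2.1] at h1
    have h1 := bad_card hm (e := e' i * (ε' / 2 ^ (i + 1))) (e' := e' i) (by
      have := he'0 i
      positivity) (he'0 i) (hk0 i k hk) (F := F') (fun n hn => by
        obtain ⟨-, h2, h3, h4⟩ := hFk n (hF' hn)
        have h5 := (hb n hn).2
        rw [h2] at h5
        exact ⟨h3, h4, h5⟩)
    rwa [mul_div_cancel_left₀ _ (he'0 i).ne'] at h1

end SIM

end HexObs
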