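import Pool.Agent.SIM.RegDefs

/-!
SIM: in a regular walk a large displacement in either direction gives a large displacement in the direction false
(shape beta of the direction true).
-/

set_option autoImplicit false

namespace HexObs

namespace SIM

open SDN NTW NTA

lemma lp_false (t : List Bool) (i : ℕ) : lp false t i = lev t i := rfl

/-- the levels of the direction false from the level and the cross coordinate of the direction true -/
lemma lev_true (t : List Bool) (i : ℕ) : 2 * lev t i = -(lp true t i) - 3 * lq true t i := by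
  have h1 : lev t i = (vx oo up t i).1 + 2 * (vx oo up t i).2 := by
    show ip (vx oo up t i) up = _
    simp only [ip, up]
    ring
  have h2 : lp true t i = -2 * (vx oo up t i).1 - (vx oo up t i).2 := by
    show ip (vx oo up t i) (hd true) = _
    simp only [ip, hd, if_true]
    ring
  have h3 : lq true t i = -(vx oo up t i).2 := by
    show cross (hd true) (vx oo up t i) = _
    simp only [cross, hd, if_true]
    ring
  rw [h1, h2, h3]
  ring

/-- **a large displacement in the direction true contains a large displacement in the direction false** -/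
theorem hump_ab {A : ℤ} {r n : ℕ} {t : List Bool} (ht : ¬ Irg A 8 r n t) {i l : ℕ} (hil : i ≤ l)
    (hl : l ≤ t.length) (h : 3 * ((n : ℤ) * 2 ^ r) ≤ |lp true t l - lp true t i|) :
    ∃ a b, i ≤ a ∧ a ≤ b ∧ b ≤ l ∧ 10 * 2 ^ r ≤ |lev t b - lev t a| := by
  have h1 : ¬ ∀ a b, i ≤ a → b ≤ l → ¬ Be 8 (2 ^ r) (lp true t) (lq true t) a b := fun h2 =>
    ht ⟨true, i, l, hil, hl, h, Or.inr h2⟩
  push Not at h1
  obtain ⟨a, b, ha, hb, hab, hc, hp⟩ := h1
  refine ⟨a, b, ha, hab, hb, ?_⟩
  have e1 := lev_true t a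
  have e2 := lev_true t b
  have e3 := hp b a hab le_rfl le_rfl hab
  have h0 : (0 : ℤ) < 2 ^ r := by positivity
  generalize (2 : ℤ) ^ r = x at *
  rcases abs_cases (lq true t b - lq true t a) with ⟨f1, _⟩ | ⟨f1, _⟩ <;>
  rcases abs_cases (lp true t b - lp true t a) with ⟨f2, _⟩ | ⟨f2, _⟩ <;>
  rcases abs_cases (lev t b - lev t a) with ⟨f3, _⟩ | ⟨f3, _⟩ <;> rw [f1] at hc <;> rw [f2] at e3 <;> rw [f3] <;> omega

/-- **the direction false suffices**: every large displacement contains a time with a large displacement of the level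
in the direction false -/
theorem hump_false {A : ℤ} {r n : ℕ} {t : List Bool} (ht : ¬ Irg A 8 r n t) {i l : ℕ} (hil : i ≤ l)
    (hl : l ≤ t.length) (h : ∃ dir, 3 * ((n : ℤ) * 2 ^ r) ≤ |lp dir t l - lp dir t i|)
    (hn : 5 * 2 ^ r ≤ 3 * ((n : ℤ) * 2 ^ r)) :
    ∃ l', i ≤ l' ∧ l' ≤ l ∧ 5 * 2 ^ r ≤ |lev t l' - lev t i| := by
  obtain ⟨dir, h⟩ := h
  cases dir with
  | false => exact ⟨l, hil, le_rfl, hn.trans h⟩
  | true =>
    obtain ⟨a, b, ha, hab, hb, h1⟩ := hump_ab ht hil hl h
    by_contra hcon
    push Not at hcon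
    have h2 := hcon a ha (hab.trans hb)
    have h3 := hcon b (ha.trans hab) hb
    have h4 : |lev t b - lev t a| ≤ |lev t b - lev t i| + |lev t a - lev t i| := by
      have := abs_sub (lev t b - lev t i) (lev t a - lev t i)
      simpa using this
    linarith

/-- the same with a piece that ends at i: a time before i -/
theorem hump_false' {A : ℤ} {r n : ℕ} {t : List Bool} (ht : ¬ Irg A 8 r n t) {i l : ℕ} (hil : i ≤ l)
    (hl : l ≤ t.length) (h : ∃ dir, 3 * ((n : ℤ) * 2 ^ r) ≤ |lp dir t l - lp dir t i|)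
    (hn : 5 * 2 ^ r ≤ 3 * ((n : ℤ) * 2 ^ r)) :
    ∃ l', i ≤ l' ∧ l' ≤ l ∧ 5 * 2 ^ r ≤ |lev t l' - lev t l| := by
  obtain ⟨dir, h⟩ := h
  cases dir with
  | false =>
    refine ⟨i, le_rfl, hil, hn.trans ?_⟩
    rw [abs_sub_comm]
    exact h
  | true =>
    obtain ⟨a, b, ha, hab, hb, h1⟩ := hump_ab ht hil hl h
    by_contra hcon
    push Not at hcon
    have h2 := hcon a ha (hab.trans hb)
    have h3 := hcon b (ha.trans hab) hb
    have h4 : |lev t b - lev t a| ≤ |lev t b - lev t l| + |lev t a - lev t l| := by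
      have := abs_sub (lev t b - lev t l) (lev t a - lev t l)
      simpa using this
    linarith

end SIM

end HexObs
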