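import Pool.Agent.SIM.FinA
import Pool.Agent.SIM.CutEv
import Pool.Agent.SIM.CutSum
import Pool.Agent.SIM.HalfW
import Pool.Agent.SIM.FirstL
import Pool.Agent.SIM.TopFd
import Pool.Agent.SIM.Hump
import Pool.Agent.SIM.Dens
import Pool.Agent.NTA.XDbl
import Pool.Agent.SDN.DimLaw
import Pool.Agent.EN.SpTail

/-!
# SIM (no double points): the cumulative assembly, part B (helper69)

* `near_small`: the near touches in the box of radius `2 ^ (k + I)` have little mass;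
* **`simC_of`**: `SimC m` for every sequence with `ASm m`.
-/

set_option autoImplicit false

namespace HexObs

namespace SIM

open Finset TS SDN NTW NTA

open scoped ENNReal

/-- the radii decrease -/
lemma rad_le {K : ℕ} {J n : ℕ → ℕ} (hJ : ∀ s, J s < J (s + 1)) (hn : ∀ s, 107 ≤ n s)
    (h : ∀ s, 240 * n (s + 1) ≤ 2 ^ (J (s + 1) - J s)) : ∀ s, J s ≤ K →
    3 * n s * 2 ^ (K - J s) ≤ 3 * n 0 * 2 ^ (K - J 0) ∧ (1 ≤ s → 80 * (3 * n s * 2 ^ (K - J s)) ≤ 2 ^ (K - J (s - 1))) := by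
  intro s
  induction s with
  | zero => exact fun _ => ⟨le_rfl, fun h => absurd h (by norm_num)⟩
  | succ s ih =>
    intro hs
    have h1 := hJ s
    obtain ⟨ih1, -⟩ := ih (by omega)
    have h2 : 80 * (3 * n (s + 1) * 2 ^ (K - J (s + 1))) ≤ 2 ^ (K - J s) := by
      calc 80 * (3 * n (s + 1) * 2 ^ (K - J (s + 1))) = (240 * n (s + 1)) * 2 ^ (K - J (s + 1)) := by ring
        _ ≤ 2 ^ (J (s + 1) - J s) * 2 ^ (K - J (s + 1)) := Nat.mul_le_mul_right _ (h s)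
        _ = 2 ^ (K - J s) := by rw [← pow_add]; congr 1; omega
    refine ⟨?_, fun _ => h2⟩
    have h3 : 2 ^ (K - J s) ≤ 3 * n s * 2 ^ (K - J s) := Nat.le_mul_of_pos_left _ (by have := hn s; omega)
    omega

/-- the mass of the words with three nested bridges and a near pair -/
theorem mass_E : ∀ J D D' : ℕ, D < D' → ∃ (A : ℝ) (k0 : ℕ), 1 ≤ A ∧ ∀ (kc : ℕ) (S d : ℕ) (ρ R : ℕ → ℕ) (E : Set (List Bool)),
    k0 ≤ kc → E ⊆ WL (kc + J) →
    (∀ s, s < S → 64 ≤ ρ s ∧ 320 * ρ s ≤ R s ∧ d ≤ R s ∧ R s ≤ 2 ^ (kc + J + 4)) →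
    (∀ s, s + 1 < S → 80 * R (s + 1) ≤ ρ s) → 0 < ∑ s ∈ range S, (ρ s : ℝ) / R s →
    (∀ t ∈ E, Cut3 (NearQ S d ρ R) (TopE (kc + 3) (kc + J)) (BotS (kc - D') (kc + J + 1)) (2 ^ (kc - D)) (2 ^ kc) t) →
    6 ≤ J →
    gf E ≤ ENNReal.ofReal (A / (∑ s ∈ range S, (ρ s : ℝ) / R s) * Ub (kc + J)) * Xb (kc + J) ^ 2 := by
  intro J D D' hDD
  obtain ⟨C1, hC1, hx⟩ := xbound
  obtain ⟨C3, hC3, hcut⟩ := cut3_sum
  obtain ⟨C4, k4, hC4, hlast⟩ := half_last
  obtain ⟨C5, k5, hC5, hfirst⟩ := half_first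
  obtain ⟨Cx, hCx, hX⟩ := xDbl
  obtain ⟨A, hA⟩ : ∃ A : ℝ, A = C3 * 4 ^ D * 4 ^ J * C4 ^ (J + 2) * C5 ^ (J + D' + 6) * 2 * Cx * C1 * 4 ^ (J + D) :=
    ⟨_, rfl⟩
  have hA0 : 0 < A := by rw [hA]; positivity
  refine ⟨max A 1, k4 + k5 + D' + 7, le_max_right _ _, fun kc S d ρ R E hkc hE hS hR hsum hcutE hJ => ?_⟩
  obtain ⟨Sg, hSg⟩ : ∃ Sg : ℝ, Sg = ∑ s ∈ range S, (ρ s : ℝ) / R s := ⟨_, rfl⟩
  rw [← hSg] at hsum ⊢
  have hU := TS.Ub_pos (kc + J)
  have hUc := TS.Ub_pos kc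
  obtain ⟨n, hn⟩ : ∃ n : ℕ, n = 2 ^ (kc - D) := ⟨_, rfl⟩
  have hn1 : 1 ≤ n := by rw [hn]; exact Nat.one_le_two_pow
  have h1 := hcut (NearQ S d ρ R) (TopE (kc + 3) (kc + J)) (BotS (kc - D') (kc + J + 1)) E n kc
    (ENNReal.ofReal (C1 * 4 ^ (kc + J) * (UU n / n ^ 2) / Sg))
    (fun t n1 n2 n1' n2' a1 a2 a3 => NearQ_mono t n1 n2 n1' n2' a1 a2 a3) hn1 (by rw [hn]; exact hcutE) ?_
  swap
  · intro P Q
    rw [hSg]
    refine (gf_mono ?_).trans (hx P Q n (kc + J) S d ρ R hn1 hS hR (by rw [← hSg]; exact hsum))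
    rintro Z ⟨⟨z1, z2, -⟩, z3, z4⟩
    exact ⟨z1, z2, hE z3, z4⟩
  -- the two ends
  have hT : gf (TopE (kc + 3) (kc + J)) ≤ ENNReal.ofReal (C4 ^ (J + 2) * Ub (kc + J)) * Xb (kc + J) := by
    have h2 := hlast (kc - 2) (J + 2) (by omega) (by omega)
    rw [show kc - 2 + 5 = kc + 3 by omega, show kc - 2 + (J + 2) = kc + J by omega] at h2
    exact (gf_mono (topE_sub (by omega))).trans h2
  have hB : gf (BotS (kc - D') (kc + J + 1)) ≤
      ENNReal.ofReal (C5 ^ (J + D' + 6) * (2 * Ub (kc + J)) * Cx) * Xb (kc + J) := by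
    have h2 := hfirst (kc - D' - 5) (J + D' + 6) (by omega) (by omega)
    rw [show kc - D' - 5 + 5 = kc - D' by omega, show kc - D' - 5 + (J + D' + 6) = kc + J + 1 by omega] at h2
    refine (gf_mono (botS_sub (by omega))).trans (h2.trans ?_)
    calc ENNReal.ofReal (C5 ^ (J + D' + 6) * Ub (kc + J + 1)) * Xb (kc + J + 1)
        ≤ ENNReal.ofReal (C5 ^ (J + D' + 6) * (2 * Ub (kc + J))) * (ENNReal.ofReal Cx * Xb (kc + J)) := by
          refine mul_le_mul' (ENNReal.ofReal_le_ofReal ?_) (hX _)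
          exact mul_le_mul_of_nonneg_left (TS.Ub_succ _) (by positivity)
      _ = _ := by
          rw [← mul_assoc, ← ENNReal.ofReal_mul (by positivity)]
  refine h1.trans ((mul_le_mul' le_rfl (mul_le_mul' (mul_le_mul' hT hB) le_rfl)).trans ?_)
  obtain ⟨X, hXX⟩ : ∃ X, X = Xb (kc + J) := ⟨_, rfl⟩
  rw [← hXX]
  have e1 : ENNReal.ofReal (C3 * (2 ^ kc / (n * Ub kc)) ^ 2) *
      (ENNReal.ofReal (C4 ^ (J + 2) * Ub (kc + J)) * X * (ENNReal.ofReal (C5 ^ (J + D' + 6) * (2 * Ub (kc + J)) * Cx) * X) *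
        ENNReal.ofReal (C1 * 4 ^ (kc + J) * (UU n / n ^ 2) / Sg)) =
      ENNReal.ofReal ((C3 * (2 ^ kc / (n * Ub kc)) ^ 2) * (C4 ^ (J + 2) * Ub (kc + J)) *
        (C5 ^ (J + D' + 6) * (2 * Ub (kc + J)) * Cx) * (C1 * 4 ^ (kc + J) * (UU n / n ^ 2) / Sg)) * X ^ 2 := by
    have hUn := Num2Aux.UU_pos n
    have key : ∀ x y z w : ℝ, 0 ≤ x → 0 ≤ y → 0 ≤ z → ENNReal.ofReal x * (ENNReal.ofReal y * X * (ENNReal.ofReal z * X) *
        ENNReal.ofReal w) = ENNReal.ofReal (x * y * z * w) * X ^ 2 := by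
      intro x y z w hx0 hy0 hz0
      rw [ENNReal.ofReal_mul (mul_nonneg (mul_nonneg hx0 hy0) hz0), ENNReal.ofReal_mul (mul_nonneg hx0 hy0),
        ENNReal.ofReal_mul hx0]
      ring
    exact key _ _ _ _ (by positivity) (by positivity) (by positivity)
  rw [e1]
  refine mul_le_mul_left (ENNReal.ofReal_le_ofReal ?_) _
  -- the numbers
  have hnr : (n : ℝ) = 2 ^ (kc - D) := by rw [hn]; push_cast; rfl
  have hn2 : (2 : ℝ) ^ kc = n * 2 ^ D := by
    rw [hnr, ← pow_add]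
    congr 1
    omega
  have hn4 : (4 : ℝ) ^ (kc + J) = n ^ 2 * 4 ^ (J + D) := by
    have h2 : (4 : ℝ) ^ (kc + J) = ((2 : ℝ) ^ kc) ^ 2 * 4 ^ J := by
      rw [pow_add, ← pow_mul, mul_comm kc 2, pow_mul]
      norm_num
    rw [h2, hn2, mul_pow, ← pow_mul, mul_comm D 2, pow_mul, pow_add]
    norm_num
    ring
  have hn0 : (0 : ℝ) < n := by exact_mod_cast hn1
  have hUn : UU n ≤ Ub (kc + J) := by
    rw [hn]
    exact Num2Aux.UU_mono (Nat.pow_le_pow_right (by norm_num) (by omega))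
  have hUn0 := Num2Aux.UU_pos n
  have hUr : Ub (kc + J) ≤ 2 ^ J * Ub kc := DL.Ub_add kc J
  have f1 : (2 ^ kc / (n * Ub kc) : ℝ) ^ 2 ≤ 4 ^ D * 4 ^ J / Ub (kc + J) ^ 2 := by
    have h2 : (2 ^ kc / (n * Ub kc) : ℝ) = 2 ^ D / Ub kc := by
      rw [hn2]
      field_simp
    rw [h2, div_pow, div_le_div_iff₀ (by positivity) (by positivity)]
    have h3 : Ub (kc + J) ^ 2 ≤ (2 ^ J * Ub kc) ^ 2 := pow_le_pow_left₀ hU.le hUr 2
    have h4 : ((2 : ℝ) ^ D) ^ 2 = 4 ^ D := by rw [← pow_mul, mul_comm D 2, pow_mul]; norm_num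
    have h5 : ((2 : ℝ) ^ J) ^ 2 = 4 ^ J := by rw [← pow_mul, mul_comm J 2, pow_mul]; norm_num
    rw [mul_pow, h5] at h3
    rw [h4]
    calc (4 : ℝ) ^ D * Ub (kc + J) ^ 2 ≤ 4 ^ D * (4 ^ J * Ub kc ^ 2) := mul_le_mul_of_nonneg_left h3 (by positivity)
      _ = _ := by ring
  have f2 : C1 * 4 ^ (kc + J) * (UU n / n ^ 2) / Sg ≤ C1 * 4 ^ (J + D) * Ub (kc + J) / Sg := by
    rw [hn4]
    refine div_le_div_of_nonneg_right ?_ hsum.le
    calc C1 * (n ^ 2 * 4 ^ (J + D)) * (UU n / n ^ 2) = C1 * 4 ^ (J + D) * UU n := by field_simp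
      _ ≤ _ := mul_le_mul_of_nonneg_left hUn (by positivity)
  calc (C3 * (2 ^ kc / (n * Ub kc)) ^ 2) * (C4 ^ (J + 2) * Ub (kc + J)) *
        (C5 ^ (J + D' + 6) * (2 * Ub (kc + J)) * Cx) * (C1 * 4 ^ (kc + J) * (UU n / n ^ 2) / Sg)
      ≤ (C3 * (4 ^ D * 4 ^ J / Ub (kc + J) ^ 2)) * (C4 ^ (J + 2) * Ub (kc + J)) *
        (C5 ^ (J + D' + 6) * (2 * Ub (kc + J)) * Cx) * (C1 * 4 ^ (J + D) * Ub (kc + J) / Sg) := by
        have g1 : C3 * (2 ^ kc / (n * Ub kc)) ^ 2 ≤ C3 * (4 ^ D * 4 ^ J / Ub (kc + J) ^ 2) :=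
          mul_le_mul_of_nonneg_left f1 (by positivity)
        have g2 : 0 ≤ C4 ^ (J + 2) * Ub (kc + J) := by positivity
        have g3 : 0 ≤ C5 ^ (J + D' + 6) * (2 * Ub (kc + J)) * Cx := by positivity
        have g4 : 0 ≤ C1 * 4 ^ (kc + J) * (UU n / n ^ 2) / Sg := by positivity
        have g5 : 0 ≤ C3 * (4 ^ D * 4 ^ J / Ub (kc + J) ^ 2) := by positivity
        exact mul_le_mul (mul_le_mul_of_nonneg_right (mul_le_mul_of_nonneg_right g1 g2) g3) f2 g4 (by positivity)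
    _ = A / Sg * Ub (kc + J) := by
        rw [hA]
        field_simp
    _ ≤ max A 1 / Sg * Ub (kc + J) := by
        refine mul_le_mul_of_nonneg_right ?_ hU.le
        exact div_le_div_of_nonneg_right (le_max_left _ _) hsum.le

lemma sg_abs (s : ℕ) (x y : ℤ) : |Tight.sg s x - Tight.sg s y| = |x - y| := by
  unfold Tight.sg
  split_ifs
  · rw [show -x - -y = -(x - y) by ring, abs_neg]
  · rfl

lemma sg_exists (x y : ℤ) : ∃ s, |x - y| = Tight.sg s x - Tight.sg s y := by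
  rcases le_total 0 (x - y) with h | h
  · exact ⟨1, by unfold Tight.sg; rw [if_neg (by decide), if_neg (by decide), abs_of_nonneg h]⟩
  · exact ⟨0, by unfold Tight.sg; rw [if_pos (by decide), if_pos (by decide), abs_of_nonpos h]; ring⟩

/-- **the near touches in a box have little mass** -/
theorem near_small (I : ℕ) {η e : ℝ} (hη : 0 < η) (he : 0 < e) : ∃ (δ : ℝ) (k0 : ℕ), 0 < δ ∧ ∀ k : ℕ, k0 ≤ k →
    gf {t | t ∈ WL (k + I) ∧ Pin η δ (2 ^ k) t} ≤ ENNReal.ofReal (4 * e * Ub (k + I)) * Xb (k + I) ^ 2 := by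
  -- the hump scale
  obtain ⟨e1, he1⟩ : ∃ e1 : ℝ, e1 = min e (η / 2 ^ I) := ⟨_, rfl⟩
  have he1p : 0 < e1 := by rw [he1]; exact lt_min he (by positivity)
  have he1e : e1 ≤ e := by rw [he1]; exact min_le_left _ _
  have he1η : e1 ≤ η / 2 ^ I := by rw [he1]; exact min_le_right _ _
  obtain ⟨S1, J1, n1, K1, hS1, hJ1a, hn1, hJ1, -, hr1, -, hK1, hoff1⟩ := reg_off (e := e1) (M := 0) he1p 1
  obtain ⟨a, ha⟩ : ∃ a, a = J1 0 := ⟨_, rfl⟩
  obtain ⟨ν, hν⟩ : ∃ ν, ν = n1 0 := ⟨_, rfl⟩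
  have hν1 : 107 ≤ ν := by rw [hν]; exact hn1 0
  have ha1 : 1 ≤ a := by rw [ha]; exact hJ1a 0
  rw [← ha, ← hν] at hr1
  -- the event without cuts
  obtain ⟨D, D', k2, hDD, hDk, hcutev⟩ := cut_ev (a + 5) (by omega) e he
  obtain ⟨A, kE, hA, hmass⟩ := mass_E (a + 5) D D' hDD
  -- the scales
  obtain ⟨e2, he2⟩ : ∃ e2 : ℝ, e2 = min e (1 / 2 ^ (a + 2)) := ⟨_, rfl⟩
  have he2p : 0 < e2 := by rw [he2]; exact lt_min he (by positivity)
  have he2e : e2 ≤ e := by rw [he2]; exact min_le_left _ _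
  have he2a : e2 ≤ 1 / 2 ^ (a + 2) := by rw [he2]; exact min_le_right _ _
  obtain ⟨S2, J2, n2, K2, hS2, hJ2a, hn2, hJ2, h240, hr2, hM2, hK2, hoff2⟩ := reg_off (e := e2) (M := A / e) he2p a
  have hJmono : ∀ s, s ≤ S2 → J2 s ≤ J2 S2 := fun s hs => (strictMono_nat_of_lt_succ hJ2).monotone hs
  refine ⟨1 / 2 ^ J2 S2, K1 + K2 + k2 + kE + a + D' + 20, by positivity, fun k hk => ?_⟩
  obtain ⟨K, hK⟩ : ∃ K, K = k + I := ⟨_, rfl⟩
  obtain ⟨kc, hkc⟩ : ∃ kc, kc = K - a - 5 := ⟨_, rfl⟩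
  have hkcK : kc + (a + 5) = K := by omega
  obtain ⟨Sv, hgfS, hgeo⟩ := hcutev kc (by omega)
  rw [hkcK] at hgfS hgeo
  rw [← hK]
  have hU := TS.Ub_pos K
  obtain ⟨ρ, hρ⟩ : ∃ ρ : ℕ → ℕ, ρ = fun s => 2 ^ (K - J2 s) := ⟨_, rfl⟩
  obtain ⟨R, hR⟩ : ∃ R : ℕ → ℕ, R = fun s => 3 * n2 s * 2 ^ (K - J2 s) := ⟨_, rfl⟩
  obtain ⟨E, hE⟩ : ∃ E : Set (List Bool), E = {t | t ∈ WL K ∧ Pin η (1 / 2 ^ J2 S2) (2 ^ k) t ∧ t ∉ OffR S1 J1 n1 K ∧
      t ∉ EQ2 kc (a + 5) Sv ∧ t ∉ OffR S2 J2 n2 K} := ⟨_, rfl⟩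
  -- the first radius
  have hJK : ∀ s, s ≤ S2 → J2 s + 6 ≤ K := fun s hs => by have := hJmono s hs; omega
  have hR0 : 3 * n2 0 * 2 ^ (K - J2 0) * 2 ^ (a + 2) ≤ 2 ^ K := by
    have h1 : 3 * (n2 0 : ℝ) ≤ 1 / 2 ^ (a + 2) * 2 ^ J2 0 := hr2.trans (mul_le_mul_of_nonneg_right he2a (by positivity))
    have h2 : 3 * n2 0 * 2 ^ (a + 2) ≤ 2 ^ J2 0 := by
      have h3 : 3 * (n2 0 : ℝ) * 2 ^ (a + 2) ≤ 2 ^ J2 0 := by
        calc 3 * (n2 0 : ℝ) * 2 ^ (a + 2) ≤ (1 / 2 ^ (a + 2) * 2 ^ J2 0) * 2 ^ (a + 2) :=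
              mul_le_mul_of_nonneg_right h1 (by positivity)
          _ = 2 ^ J2 0 := by field_simp
      exact_mod_cast h3
    calc 3 * n2 0 * 2 ^ (K - J2 0) * 2 ^ (a + 2) = (3 * n2 0 * 2 ^ (a + 2)) * 2 ^ (K - J2 0) := by ring
      _ ≤ 2 ^ J2 0 * 2 ^ (K - J2 0) := Nat.mul_le_mul_right _ h2
      _ = 2 ^ K := by
        rw [← pow_add]
        congr 1
        have := hJK 0 (Nat.zero_le _)
        omega
  have hRs : ∀ s, s < S2 → R s * 2 ^ (a + 2) ≤ 2 ^ K := by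
    intro s hs
    have h1 := (rad_le (K := K) hJ2 hn2 h240 s (by have := hJK s hs.le; omega)).1
    rw [hR]
    exact (Nat.mul_le_mul_right _ h1).trans hR0
  have hgE : gf E ≤ ENNReal.ofReal (e * Ub K) * Xb K ^ 2 := by
    have hsumeq : ∑ s ∈ range S2, (ρ s : ℝ) / R s = ∑ s ∈ range S2, 1 / (3 * (n2 s : ℝ)) := by
      refine Finset.sum_congr rfl fun s _ => ?_
      have h1 : (0 : ℝ) < n2 s := by
        have := hn2 s
        exact_mod_cast (by omega : 0 < n2 s)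
      rw [hρ, hR]
      push_cast
      field_simp
    have hA0 : 0 < A := by linarith
    have hsum0 : A / e ≤ ∑ s ∈ range S2, (ρ s : ℝ) / R s := by
      rw [hsumeq]
      exact hM2
    have hsum : 0 < ∑ s ∈ range S2, (ρ s : ℝ) / R s := lt_of_lt_of_le (by positivity) hsum0
    have h1 := hmass kc S2 (2 ^ (K - J2 S2)) ρ R E (by omega) (by rw [hkcK, hE]; exact fun t ht => ht.1) ?_ ?_ hsum ?_
      (by omega)
    · rw [hkcK] at h1
      refine h1.trans (mul_le_mul_left (ENNReal.ofReal_le_ofReal (mul_le_mul_of_nonneg_right ?_ hU.le)) _)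
      rw [div_le_iff₀ hsum]
      rw [div_le_iff₀ he] at hsum0
      linarith
    · intro s hs
      have h2 := hJK s hs.le
      have h3 := hJmono s hs.le
      have h4 := hRs s hs
      have h5 := hn2 s
      have h6 : 2 ^ 6 ≤ 2 ^ (K - J2 s) := Nat.pow_le_pow_right (by norm_num) (by omega)
      have h7 : 2 ^ (K - J2 S2) ≤ 2 ^ (K - J2 s) := Nat.pow_le_pow_right (by norm_num) (by omega)
      have h8 : R s = 3 * n2 s * 2 ^ (K - J2 s) := by rw [hR]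
      have h9 : ρ s = 2 ^ (K - J2 s) := by rw [hρ]
      have h10 : 321 * 2 ^ (K - J2 s) ≤ R s := by
        rw [h8]
        exact Nat.mul_le_mul_right _ (by omega)
      have h11 : R s ≤ R s * 2 ^ (a + 2) := Nat.le_mul_of_pos_right _ (by positivity)
      have h12 : 2 ^ K ≤ 2 ^ (kc + (a + 5) + 4) := Nat.pow_le_pow_right (by norm_num) (by omega)
      rw [h9]
      refine ⟨by omega, by omega, by omega, by omega⟩
    · intro s hs
      have h2 := (rad_le (K := K) hJ2 hn2 h240 (s + 1) (by have := hJK (s + 1) hs.le; omega)).2 (by omega)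
      rw [hR, hρ]
      exact h2
    · intro t ht
      rw [hE] at ht
      obtain ⟨t1, ⟨i, l, j, hil, hlj, hj, ⟨dir, hdir⟩, hnear⟩, t3, t4, t5⟩ := ht
      obtain ⟨r, hr⟩ : ∃ r, r = K - a := ⟨_, rfl⟩
      have hr5 : kc + 5 = r := by omega
      have hnot : ¬ Irg 6 8 r ν t := fun hI => t3 ⟨t1, 0, hS1, by rw [← ha, ← hν, ← hr]; exact hI⟩
      have hKr : (2 : ℝ) ^ K = 2 ^ a * 2 ^ r := by rw [← pow_add]; congr 1; omega
      have hKk : (2 : ℝ) ^ K = 2 ^ k * 2 ^ I := by rw [← pow_add]; congr 1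
      have hbig : 3 * ((ν : ℤ) * 2 ^ r) ≤ |lp dir t l - lp dir t i| := by
        have h2 : (3 * ((ν : ℝ) * 2 ^ r)) ≤ η * 2 ^ k := by
          calc 3 * ((ν : ℝ) * 2 ^ r) = (3 * (ν : ℝ)) * 2 ^ r := by ring
            _ ≤ (e1 * 2 ^ a) * 2 ^ r := mul_le_mul_of_nonneg_right hr1 (by positivity)
            _ = e1 * (2 ^ k * 2 ^ I) := by rw [← hKk, hKr]; ring
            _ ≤ (η / 2 ^ I) * (2 ^ k * 2 ^ I) := mul_le_mul_of_nonneg_right he1η (by positivity)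
            _ = η * 2 ^ k := by field_simp
        have h3 := h2.trans hdir
        have h4 : ((3 * ((ν : ℤ) * 2 ^ r) : ℤ) : ℝ) ≤ ((|lp dir t l - lp dir t i| : ℤ) : ℝ) := by
          push_cast
          push_cast at h3
          exact h3
        exact_mod_cast h4
      have hd : ∀ dir, |lvl dir (vx oo up t j) - lvl dir (vx oo up t i)| ≤ ((2 ^ (K - J2 S2) : ℕ) : ℤ) := by
        intro dir'
        have h2 := hnear dir'
        have h3 : (1 / 2 ^ J2 S2 : ℝ) * 2 ^ k ≤ 2 ^ (K - J2 S2) := by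
          have h4 : (2 : ℝ) ^ K = 2 ^ J2 S2 * 2 ^ (K - J2 S2) := by
            rw [← pow_add]
            congr 1
            have := hJK S2 le_rfl
            omega
          have h5 : (2 : ℝ) ^ k ≤ 2 ^ K := pow_le_pow_right₀ (by norm_num) (by omega)
          rw [h4] at h5
          rw [div_mul_eq_mul_div, one_mul, div_le_iff₀ (by positivity)]
          linarith
        have h4 : ((|lvl dir' (vx oo up t j) - lvl dir' (vx oo up t i)| : ℤ) : ℝ) ≤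
            (((2 ^ (K - J2 S2) : ℕ) : ℤ) : ℝ) := by
          push_cast
          push_cast at h2
          exact h2.trans h3
        exact_mod_cast h4
      have hr3 : (16 : ℤ) ≤ 2 ^ r := by
        calc (16 : ℤ) = 2 ^ 4 := by norm_num
          _ ≤ 2 ^ r := pow_le_pow_right₀ (by norm_num) (by omega)
      have hnr : (5 : ℤ) * 2 ^ r ≤ 3 * ((ν : ℤ) * 2 ^ r) := by
        have : (107 : ℤ) ≤ ν := by exact_mod_cast hν1
        nlinarith
      obtain ⟨l', hil', hll', hhump⟩ := hump_false hnot hil (hlj.trans hj) ⟨dir, hbig⟩ hnr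
      obtain ⟨s, hs⟩ := sg_exists (lev t l') (lev t i)
      rw [hs] at hhump
      have hdr : ((2 ^ (K - J2 S2) : ℕ) : ℤ) ≤ 2 ^ r := by
        push_cast
        refine pow_le_pow_right₀ (by norm_num) ?_
        have := hJ2a S2
        omega
      have hji : |Tight.sg s (lev t j) - Tight.sg s (lev t i)| ≤ 2 ^ r := by
        rw [sg_abs]
        exact (hd false).trans hdr
      have hji2 := (abs_le.1 hji)
      have hRRb : RR (kc + 5) ≤ 4 * 2 ^ r := by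
        unfold RR
        rw [hr5]
        linarith
      obtain ⟨X0, H1, H2, H3, X1, m1, m2, m3, c1, c2, c3, c4, ⟨c5, c6, c7⟩, ⟨c8, c9, c10⟩, c11, c12, c13, c14, c15, c16⟩ :=
        hgeo t t1 t4 (4 * 2 ^ r) i l' j s hRRb hil' (hll'.trans hlj) hj (by linarith) (by linarith [hji2.1, hji2.2])
      rw [hkcK]
      refine ⟨X0, H1, H2, H3, X1, m1, m2, m3, c1, c2, c3, c4, c5, c6, c7, c8, c9, c10, c11, c12, ?_⟩
      have hk3 : (3 : ℤ) * 2 ^ (kc + 3) + 2 ≤ 2 ^ r := by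
        have h2 : (2 : ℤ) ^ r = 4 * 2 ^ (kc + 3) := by
          rw [← hr5, show kc + 5 = (kc + 3) + 2 by ring, pow_add]
          ring
        omega
      have hRr : ∀ q, q < S2 → 3 * ((3 * n2 q * 2 ^ (K - J2 q) : ℕ) : ℤ) < 3 * 2 ^ r := by
        intro q hq
        have h2 := hRs q hq
        have h3 : R q = 3 * n2 q * 2 ^ (K - J2 q) := by rw [hR]
        have h4 : (2 : ℕ) ^ K = 2 ^ (a + 2) * 2 ^ (r - 2) := by
          rw [← pow_add]
          congr 1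
          omega
        rw [h4, mul_comm (R q)] at h2
        have h5 : R q ≤ 2 ^ (r - 2) := Nat.le_of_mul_le_mul_left h2 (by positivity)
        have h6 : (2 : ℕ) ^ (r - 2) < 2 ^ r := Nat.pow_lt_pow_right (by norm_num) (by omega)
        rw [← h3]
        have h7 : ((R q : ℕ) : ℤ) < 2 ^ r := by exact_mod_cast lt_of_le_of_lt h5 h6
        linarith
      have hlen : (X0 ++ (H1 ++ (H2 ++ H3))).length = X0.length + H1.length + H2.length + H3.length := by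
        simp only [List.length_append]
        ring
      have hX0t : X0.length ≤ t.length := by
        rw [c1, List.length_append]
        omega
      rw [hρ, hR]
      refine nearQ_of (S := S2) (K := K) (J := J2) (n := n2) (i := i) (x := X0.length)
        (e := (X0 ++ (H1 ++ (H2 ++ H3))).length) (j := j) t1 t5 (fun q hq => hJK q hq.le) hn2 c13 le_rfl
        (by rw [hlen]) c14 hj hX0t hd (fun q hq => ?_) (fun q hq => ?_)
      · refine lt_of_lt_of_le (hRr q hq) ?_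
        show 3 * 2 ^ r ≤ |lev t X0.length - lev t i|
        rw [← sg_abs s]
        refine le_trans ?_ (le_abs_self _)
        linarith
      · refine lt_of_lt_of_le (hRr q hq) ?_
        show 3 * 2 ^ r ≤ |lev t (X0 ++ (H1 ++ (H2 ++ H3))).length - lev t j|
        rw [← sg_abs s]
        refine le_trans ?_ (le_abs_self _)
        linarith
  have hsub : {t | t ∈ WL K ∧ Pin η (1 / 2 ^ J2 S2) (2 ^ k) t} ⊆
      ((E ∪ OffR S1 J1 n1 K) ∪ (EQ2 kc (a + 5) Sv ∪ OffR S2 J2 n2 K)) := by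
    rintro t ⟨ht, hp⟩
    by_cases h1 : t ∈ OffR S1 J1 n1 K
    · exact Or.inl (Or.inr h1)
    by_cases h2 : t ∈ EQ2 kc (a + 5) Sv
    · exact Or.inr (Or.inl h2)
    by_cases h3 : t ∈ OffR S2 J2 n2 K
    · exact Or.inr (Or.inr h3)
    refine Or.inl (Or.inl ?_)
    rw [hE]
    exact ⟨ht, hp, h1, h2, h3⟩
  have hle : ∀ x, x ≤ e → ENNReal.ofReal (x * Ub K) * Xb K ^ 2 ≤ ENNReal.ofReal (e * Ub K) * Xb K ^ 2 := fun x hx =>
    mul_le_mul_left (ENNReal.ofReal_le_ofReal (mul_le_mul_of_nonneg_right hx hU.le)) _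
  have g1 := (hoff1 K (by omega)).trans (hle _ he1e)
  have g2 := (hoff2 K (by omega)).trans (hle _ he2e)
  refine (gf_mono hsub).trans ((gf_union_le _ _).trans ((add_le_add ((gf_union_le _ _).trans (add_le_add hgE g1))
    ((gf_union_le _ _).trans (add_le_add hgfS g2))).trans ?_))
  obtain ⟨y, hy⟩ : ∃ y, y = e * Ub K := ⟨_, rfl⟩
  have hy0 : 0 ≤ y := by rw [hy]; positivity
  rw [mul_assoc, ← hy, show (4 : ℝ) * y = y + y + (y + y) by ring, ENNReal.ofReal_add (by positivity) (by positivity),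
    ENNReal.ofReal_add hy0 hy0]
  ring_nf
  exact le_rfl

/-- **the cumulative statement** -/
theorem simC_of {m : ℕ → ℝ} (hA : EN.ASm m) : SimC m := by
  obtain ⟨A, hA1, htail⟩ := EN.sp_tail hA 1
  obtain ⟨Cx, hCx, hX⟩ := xDbl
  intro η e hη he
  -- the box
  obtain ⟨I, hI⟩ : ∃ I : ℕ, A * (1 / 2) ^ I ≤ e / 2 := by
    obtain ⟨I, hI⟩ := exists_pow_lt_of_lt_one (show 0 < e / (2 * A) by positivity) (show (1 / 2 : ℝ) < 1 by norm_num)
    refine ⟨I, ?_⟩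
    have hA0 : 0 < A := by linarith
    calc A * (1 / 2) ^ I ≤ A * (e / (2 * A)) := mul_le_mul_of_nonneg_left hI.le hA0.le
      _ = e / 2 := by field_simp
  have hCx0 : 0 < Cx := by linarith
  have hXI : ∀ k i : ℕ, Xb (k + i) ≤ ENNReal.ofReal (Cx ^ i) * Xb k := by
    intro k i
    induction i with
    | zero => simp
    | succ i ih =>
      calc Xb (k + (i + 1)) ≤ ENNReal.ofReal Cx * Xb (k + i) := hX (k + i)
        _ ≤ ENNReal.ofReal Cx * (ENNReal.ofReal (Cx ^ i) * Xb k) := mul_le_mul_right ih _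
        _ = _ := by rw [← mul_assoc, ← ENNReal.ofReal_mul hCx0.le, pow_succ' Cx i]
  obtain ⟨e', he'⟩ : ∃ e' : ℝ, e' = e / (8 * 2 ^ I * Cx ^ I * Cx ^ I) := ⟨_, rfl⟩
  have he'0 : 0 < e' := by rw [he']; positivity
  obtain ⟨δ, k0, hδ, hnear⟩ := near_small I hη he'0
  refine ⟨δ, k0 + 1, hδ, fun k hk => ?_⟩
  have hU := TS.Ub_pos k
  have hsub : {t | t ∈ SA ∧ m k ≤ t.length ∧ (t.length : ℝ) < m (k + 1) ∧ Pin η δ (2 ^ k) t} ⊆
      {t | t ∈ WL (k + I) ∧ Pin η δ (2 ^ k) t} ∪ {t | t ∈ SAL ⌊m (k + 1)⌋₊ ∧ t ∉ WL (k + I)} := by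
    rintro t ⟨h1, h2, h3, h4⟩
    by_cases h5 : t ∈ WL (k + I)
    · exact Or.inl ⟨h5, h4⟩
    · exact Or.inr ⟨⟨h1, Nat.le_floor h3.le⟩, h5⟩
  rcases lt_or_ge (m (k + 1)) 0 with h0 | h0
  · have hemp : {t | t ∈ SA ∧ m k ≤ t.length ∧ (t.length : ℝ) < m (k + 1) ∧ Pin η δ (2 ^ k) t} = ∅ := by
      refine Set.eq_empty_of_forall_notMem fun t ht => ?_
      have h1 : (t.length : ℝ) < m (k + 1) := ht.2.2.1
      have h2 : (0 : ℝ) ≤ t.length := Nat.cast_nonneg _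
      linarith
    rw [hemp]
    simp [gf]
  refine (gf_mono hsub).trans ((gf_union_le _ _).trans ?_)
  have g1 : gf {t | t ∈ WL (k + I) ∧ Pin η δ (2 ^ k) t} ≤ ENNReal.ofReal (e / 2 * Ub k) * Xb k ^ 2 := by
    refine (hnear k (by omega)).trans ?_
    calc ENNReal.ofReal (4 * e' * Ub (k + I)) * Xb (k + I) ^ 2
        ≤ ENNReal.ofReal (4 * e' * (2 ^ I * Ub k)) * (ENNReal.ofReal (Cx ^ I) * Xb k) ^ 2 := by
          refine mul_le_mul' (ENNReal.ofReal_le_ofReal ?_) (pow_le_pow_left' (hXI k I) 2)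
          exact mul_le_mul_of_nonneg_left (DL.Ub_add k I) (by positivity)
      _ = ENNReal.ofReal (4 * e' * (2 ^ I * Ub k) * (Cx ^ I * Cx ^ I)) * Xb k ^ 2 := by
          rw [ENNReal.ofReal_mul (show 0 ≤ 4 * e' * (2 ^ I * Ub k) by positivity),
            ENNReal.ofReal_mul (show 0 ≤ Cx ^ I by positivity)]
          ring
      _ = ENNReal.ofReal (e / 2 * Ub k) * Xb k ^ 2 := by
          congr 2
          rw [he']
          field_simp
          ring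
  have g2 : gf {t | t ∈ SAL ⌊m (k + 1)⌋₊ ∧ t ∉ WL (k + I)} ≤ ENNReal.ofReal (e / 2 * Ub k) * Xb k ^ 2 := by
    refine (htail k I _ (Nat.floor_le h0) (by omega)).trans ?_
    refine mul_le_mul_left (ENNReal.ofReal_le_ofReal (mul_le_mul_of_nonneg_right ?_ hU.le)) _
    rw [one_mul]
    exact hI
  refine (add_le_add g1 g2).trans ?_
  rw [← add_mul, ← ENNReal.ofReal_add (by positivity) (by positivity), ← mul_assoc, ← ENNReal.ofReal_mul he.le]
  refine mul_le_mul_left (ENNReal.ofReal_le_ofReal ?_) _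
  linarith

end SIM

end HexObs
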