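import Pool.Agent.EN.Count

/-!
SIM, exactly n letters: alternating moves in the times 0, ..., i and the numbers of the folds up to the time i.
-/

set_option autoImplicit false

namespace HexObs

namespace SIM

open Finset TS SDN NTW NTA

lemma hyst_mono {f : ℕ → ℤ} {n : ℕ} {R : ℤ} {m u : ℕ} {e : ℕ → ℕ} (h : Hyst f n R m u e) : ∀ a b, a ≤ b → b ≤ m → e a ≤ e b := by
  intro a b hab
  induction b, hab using Nat.le_induction with
  | base => intro _; exact le_rfl
  | succ b hb ih => intro hbm; exact (ih (by omega)).trans (h.lt b (by omega)).le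

/-- **many moves in the times 0, ..., i: the first folds are in these times** -/
theorem alt_folds {f : ℕ → ℤ} {n : ℕ} {R R' : ℤ} {m u : ℕ} {e : ℕ → ℕ} (h : Hyst f n R m u e) (hR : R ≤ R') {i : ℕ}
    (hi : i ≤ n) {M : ℕ} (hA : EN.Alt f i M R') : M / 2 ≤ m + 1 ∧ ∀ p, p < M / 2 → e p ≤ i := by
  obtain ⟨τ, s, hs, h1, h2, h3⟩ := hA
  have hex : ∀ j, j + 2 ≤ M → ∃ q, q ≤ m ∧ τ j < e q ∧ e q < τ (j + 2) := by
    intro j hj
    by_contra hc
    have hc' : ∀ q, q ≤ m → ¬ (τ j < e q ∧ e q < τ (j + 2)) := fun q hq hh => hc ⟨q, hq, hh.1, hh.2⟩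
    have h6 := h2 (j + 2) hj
    rcases EN.cell_of hc' with h4 | h4 | ⟨q, hq, h4, h5⟩
    · refine EN.no_two hs h3 h1 hj (Or.inl rfl) fun x y hx hxy hy => ?_
      have := h.start x y (by omega) (by omega)
      linarith
    · refine EN.no_two hs h3 h1 hj (Or.inl rfl) fun x y hx hxy hy => ?_
      have := h.fin x y (by omega) (by omega) (by omega) (by omega)
      linarith
    · rcases Nat.even_or_odd (u + q) with h6 | h6
      · refine EN.no_two hs h3 h1 hj (Or.inr rfl) fun x y hx hxy hy => ?_
        have h7 := h.small q hq x y (by omega) hxy (by omega)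
        rw [Tight.sg_even h6, Tight.sg_even h6] at h7
        linarith
      · refine EN.no_two hs h3 h1 hj (Or.inl rfl) fun x y hx hxy hy => ?_
        have h7 := h.small q hq x y (by omega) hxy (by omega)
        rw [Tight.sg_odd (Nat.not_even_iff_odd.2 h6), Tight.sg_odd (Nat.not_even_iff_odd.2 h6)] at h7
        linarith
  have key : ∀ p, p < M / 2 → ∃ q, p ≤ q ∧ q ≤ m ∧ e q < τ (2 * p + 2) := by
    intro p
    induction p with
    | zero =>
      intro hp
      obtain ⟨q, q1, q2, q3⟩ := hex 0 (by omega)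
      exact ⟨q, Nat.zero_le _, q1, q3⟩
    | succ p ih =>
      intro hp
      obtain ⟨q, q1, q2, q3⟩ := ih (by omega)
      obtain ⟨r, r1, r2, r3⟩ := hex (2 * (p + 1)) (by omega)
      refine ⟨r, ?_, r1, r3⟩
      have h4 : e q < e r := by
        have : 2 * p + 2 = 2 * (p + 1) := by ring
        rw [this] at q3
        exact q3.trans r2
      by_contra hc
      have := hyst_mono h r q (by omega) q2
      omega
  refine ⟨?_, fun p hp => ?_⟩
  · rcases Nat.eq_zero_or_pos (M / 2) with h0 | h0
    · omega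
    · obtain ⟨q, q1, q2, -⟩ := key (M / 2 - 1) (by omega)
      omega
  · obtain ⟨q, q1, q2, q3⟩ := key p hp
    have h4 := hyst_mono h p q q1 q2
    have h5 := h2 (2 * p + 2) (by omega)
    omega

end SIM

end HexObs
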