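import Pool.Agent.SDN.Dim1Defs
import Pool.Agent.PHW.Mirror
import Pool.Agent.NTW.EventDefs
import Pool.Agent.NTA.RunDir
import Pool.Agent.NTA.TailDefs

/-!
SIM (simple limit curves), regularity: shapes alpha and beta, walks with an irregular piece, runs of bad leaves.
-/

set_option autoImplicit false

namespace HexObs

namespace SIM

open Finset TS SDN NTW NTA

open scoped ENNReal

/-- the cross coordinate in the direction dir -/
def crs (dir : Bool) (v : Pt) : ℤ := cross (hd dir) v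

/-- shape alpha: a piece [a, b] of height at least 2 r rows (p = levels) and of cross extent at most A r (q = cross) -/
def Al (A r : ℤ) (p q : ℕ → ℤ) (a b : ℕ) : Prop := a ≤ b ∧ 6 * r ≤ |p b - p a| ∧
  ∀ i j, a ≤ i → i ≤ b → a ≤ j → j ≤ b → |q i - q j| ≤ A * r

/-- shape beta: a piece [a, b] of cross displacement at least B r and of height at most r rows -/
def Be (B r : ℤ) (p q : ℕ → ℤ) (a b : ℕ) : Prop := a ≤ b ∧ B * r ≤ |q b - q a| ∧
  ∀ i j, a ≤ i → i ≤ b → a ≤ j → j ≤ b → |p i - p j| ≤ 3 * r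

/-- words without the shape alpha of the size 2 ^ r -/
def PA (A : ℤ) (r : ℕ) : Set (List Bool) := {g | ∀ a b, b ≤ g.length → ¬ Al A (2 ^ r) (lev g) (lat g) a b}

/-- words without the shape beta of the size 2 ^ r -/
def PB (B : ℤ) (r : ℕ) : Set (List Bool) := {g | ∀ a b, b ≤ g.length → ¬ Be B (2 ^ r) (lev g) (lat g) a b}

/-- levels of the walk t in the direction dir -/
def lp (dir : Bool) (t : List Bool) (i : ℕ) : ℤ := lvl dir (vx oo up t i)

/-- cross coordinates of the walk t in the direction dir -/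
def lq (dir : Bool) (t : List Bool) (i : ℕ) : ℤ := crs dir (vx oo up t i)

/-- irregular walks: some piece [i, z] with a displacement of at least n 2 ^ r rows in the direction dir has no shape
alpha or no shape beta of the size 2 ^ r in the direction dir -/
def Irg (A B : ℤ) (r n : ℕ) (t : List Bool) : Prop := ∃ (dir : Bool) (i z : ℕ), i ≤ z ∧ z ≤ t.length ∧
  3 * ((n : ℤ) * 2 ^ r) ≤ |lp dir t z - lp dir t i| ∧
  ((∀ a b, i ≤ a → b ≤ z → ¬ Al A (2 ^ r) (lp dir t) (lq dir t) a b) ∨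
    ∀ a b, i ≤ a → b ≤ z → ¬ Be B (2 ^ r) (lp dir t) (lq dir t) a b)

/-- runs of leaves of S without backtracks with a large sum of heights (in units 2 ^ (k + s)) -/
def RunB (k s : ℕ) (S : Set (List Bool)) (V : ℕ) : Set (List (List Bool)) :=
  {gs | gs ≠ [] ∧ (∀ g ∈ gs, g ∈ S ∧ g ∈ CL (k + 5) ∧ g ∈ HB (2 ^ (k + 4))) ∧
    V ≤ (gs.map fun g => hgt g / 2 ^ (k + s) + 1).sum}

/-- one tall leaf -/
def RunT (k s V : ℕ) : Set (List (List Bool)) := {gs | ∃ g, gs = [g] ∧ g ∈ CL (k + 5) ∧ g ∈ HB (2 ^ (k + 4)) ∧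
  V * 2 ^ (k + s) ≤ hgt g}

/-- (A) the norm of the runs of bad leaves -/
def RunBad (Dm : ℕ → ℝ≥0∞ → (List Bool → ℝ≥0∞) → Prop) : Prop := ∃ (s J0 : ℕ) (e0 : ℝ), 0 < e0 ∧
  ∀ (k : ℕ) (S : Set (List Bool)), SmD Dm k {g | g ∈ BrR (2 ^ (k + 4)) (2 ^ (k + J0)) ∧ g ∈ S} e0 →
    ∀ V : ℕ, SmR Dm k (RunB k s S V) (1 / 2 ^ V)

/-- (A) the norm of one tall leaf -/
def RunTall (Dm : ℕ → ℝ≥0∞ → (List Bool → ℝ≥0∞) → Prop) : Prop := ∃ (s : ℕ) (K : ℝ), 1 ≤ K ∧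
  ∀ k V : ℕ, SmR Dm k (RunT k s V) (K / 4 ^ V)

/-- (B) the norm of the bad leaves of bounded height -/
def BadNorm (A B : ℤ) (Dm : ℕ → ℝ≥0∞ → (List Bool → ℝ≥0∞) → Prop) : Prop := ∀ (J : ℕ) (ε : ℝ), 0 < ε →
  ∃ c k0 : ℕ, c ≤ k0 ∧ ∀ k : ℕ, k0 ≤ k →
    SmD Dm k {g | g ∈ BrR (2 ^ (k + 4)) (2 ^ (k + J)) ∧ g ∈ PA A (k - c) ∪ PB B (k - c)} ε

/-- (C) the free bridges without the shape alpha or without the shape beta have a small weight -/
def FreeSmall (A B : ℤ) : Prop := ∀ ε : ℝ, 0 < ε → ∃ c r0 : ℕ, ∀ r h : ℕ, r0 ≤ r → 2 ^ (r + c) ≤ h →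
  gf {Z | Z ∈ Brd h ∧ Z ∈ PA A r ∪ PB B r} ≤ ENNReal.ofReal (ε * uu h)

/-- (D) from an irregular piece to runs of leaves, both directions; the cost of the event theorem is in (E) -/
def GeoIrg (A B : ℤ) : Prop := ∀ s c : ℕ, ∃ M : ℕ, 1 ≤ M ∧ ∀ (k K V : ℕ) (t : List Bool), c ≤ k → k + 6 ≤ K →
  t ∈ WL K → Irg A B (k - c) (M * (V + 1)) t →
  (∃ dir : Bool, t ∈ ERL dir k K (RunB k s (PA A (k - c)) V)) ∨ (∃ dir : Bool, t ∈ ERL dir k K (RunB k s (PB B (k - c)) V)) ∨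
    ∃ (dir : Bool) (m u : ℕ) (e : ℕ → ℕ), Lf dir (k + 5) t m u e ∧ ∃ j, j < m ∧
      3 * ((V : ℤ) * 2 ^ (k + s)) ≤ |lp dir t (e (j + 1)) - lp dir t (e j)|

/-- the walks with a tall leaf (ends included), both directions -/
def TallEv : Prop := ∃ (s k0 : ℕ) (C : ℝ), 1 ≤ C ∧ ∀ k J V : ℕ, k0 ≤ k → 6 ≤ J → 1 ≤ V →
  gf {t | t ∈ WL (k + J) ∧ ∃ (dir : Bool) (m u : ℕ) (e : ℕ → ℕ), Lf dir (k + 5) t m u e ∧ ∃ j, j < m ∧
    3 * ((V : ℤ) * 2 ^ (k + s)) ≤ |lp dir t (e (j + 1)) - lp dir t (e j)|} ≤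
    ENNReal.ofReal (C ^ J / 2 ^ V * Ub (k + J)) * Xb (k + J) ^ 2

/-- (5) REGULARITY -/
def Reg (A B : ℤ) : Prop := ∃ (C c : ℝ) (k0 J0 n0 : ℕ), 1 ≤ C ∧ 0 < c ∧ ∀ r J n : ℕ, k0 ≤ r → J0 ≤ J → n0 ≤ n →
  gf {t | t ∈ WL (r + J) ∧ Irg A B r n t} ≤
    ENNReal.ofReal (C ^ J * (2 : ℝ) ^ (-(c * n)) * Ub (r + J)) * Xb (r + J) ^ 2

/-! ### the classes are closed under infixes behind a bridge -/

/-- a shape of the middle part is a shape of the whole word -/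
lemma Al.shift {A r : ℤ} {p q p' q' : ℕ → ℤ} {a b n : ℕ} {x y : ℤ} (h : Al A r p q a b)
    (hp : ∀ i, i ≤ b → p' (n + i) = x + p i) (hq : ∀ i, i ≤ b → q' (n + i) = y + q i) : Al A r p' q' (n + a) (n + b) := by
  obtain ⟨h1, h2, h3⟩ := h
  refine ⟨by omega, ?_, fun i j h4 h5 h6 h7 => ?_⟩
  · rw [hp a h1, hp b le_rfl]
    simpa using h2
  · obtain ⟨i', rfl⟩ : ∃ i', i = n + i' := ⟨i - n, by omega⟩
    obtain ⟨j', rfl⟩ : ∃ j', j = n + j' := ⟨j - n, by omega⟩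
    rw [hq i' (by omega), hq j' (by omega)]
    have := h3 i' j' (by omega) (by omega) (by omega) (by omega)
    simpa using this

lemma Be.shift {B r : ℤ} {p q p' q' : ℕ → ℤ} {a b n : ℕ} {x y : ℤ} (h : Be B r p q a b)
    (hp : ∀ i, i ≤ b → p' (n + i) = x + p i) (hq : ∀ i, i ≤ b → q' (n + i) = y + q i) : Be B r p' q' (n + a) (n + b) := by
  obtain ⟨h1, h2, h3⟩ := h
  refine ⟨by omega, ?_, fun i j h4 h5 h6 h7 => ?_⟩
  · rw [hq a h1, hq b le_rfl]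
    simpa using h2
  · obtain ⟨i', rfl⟩ : ∃ i', i = n + i' := ⟨i - n, by omega⟩
    obtain ⟨j', rfl⟩ : ∃ j', j = n + j' := ⟨j - n, by omega⟩
    rw [hp i' (by omega), hp j' (by omega)]
    have := h3 i' j' (by omega) (by omega) (by omega) (by omega)
    simpa using this

lemma coord_mid {a Z b : List Bool} (ha : dx up a a.length = up) {i : ℕ} (hi : i ≤ Z.length) :
    lev (a ++ (Z ++ b)) (a.length + i) = lev a a.length + lev Z i ∧
      lat (a ++ (Z ++ b)) (a.length + i) = latE a + lat Z i := by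
  rw [lev_cat ha, lat_cat ha, lev_append (by omega), lat_append (by omega)]
  exact ⟨rfl, rfl⟩

/-- **infixes behind a bridge** -/
theorem mid_PA {A : ℤ} {r : ℕ} {a Z b : List Bool} (ha : a ∈ BU) (h : a ++ (Z ++ b) ∈ PA A r) : Z ∈ PA A r := by
  obtain ⟨n, hn⟩ := ha
  have hd := (mem_Brd.1 hn).2.2.1
  intro i j hj hal
  refine h (a.length + i) (a.length + j) ?_ (hal.shift (fun l hl => (coord_mid hd (by omega)).1)
    fun l hl => (coord_mid hd (by omega)).2)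
  simp only [List.length_append]
  omega

/-- **infixes behind a bridge** -/
theorem mid_PB {B : ℤ} {r : ℕ} {a Z b : List Bool} (ha : a ∈ BU) (h : a ++ (Z ++ b) ∈ PB B r) : Z ∈ PB B r := by
  obtain ⟨n, hn⟩ := ha
  have hd := (mem_Brd.1 hn).2.2.1
  intro i j hj hal
  refine h (a.length + i) (a.length + j) ?_ (hal.shift (fun l hl => (coord_mid hd (by omega)).1)
    fun l hl => (coord_mid hd (by omega)).2)
  simp only [List.length_append]
  omega

end SIM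

end HexObs
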