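import Pool.Agent.EN.EmoDefs
import Pool.Agent.EN.Third
import Pool.Agent.SIM.RegDefs

/-!
SIM, exactly n letters: the literal statements of the rows of SimB.
-/

set_option autoImplicit false

namespace HexObs

namespace SIM

open Finset TS SDN NTW NTA

open scoped ENNReal

/-- many leaves in both directions in the times 0, ..., i -/
def Many (t : List Bool) (i M : ℕ) (R : ℤ) : Prop := ∀ dir : Bool, EN.Alt (fun a => lvl dir (vx oo up t a)) i M R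

/-- near double points behind many leaves in both directions, exactly n letters -/
def HumpX (m : ℕ → ℝ) : Prop := ∃ M : ℕ, ∀ (J J' : ℕ) (η e : ℝ), 0 < η → 0 < e → ∃ (δ : ℝ) (k0 : ℕ), 0 < δ ∧
  ∀ k n : ℕ, k0 ≤ k → gf {t | (t.length = n ∧ t ∈ WL (k + J)) ∧ ∃ i l j : ℕ, i ≤ l ∧ l ≤ j ∧ j ≤ t.length ∧
    Many t i M (RR (k - J')) ∧
    (∃ dir : Bool, η * 2 ^ k ≤ |((lvl dir (vx oo up t l) - lvl dir (vx oo up t i) : ℤ) : ℝ)|) ∧
    ∀ dir : Bool, |((lvl dir (vx oo up t j) - lvl dir (vx oo up t i) : ℤ) : ℝ)| ≤ δ * 2 ^ k} ≤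
      ENNReal.ofReal (e * (Ub (k + J) / m (k + J))) * Xb (k + J) ^ 2

/-- few leaves in two of the three directions in the times 0, ..., i, where i is a positive part of n, exactly n letters -/
def FewX (m : ℕ → ℝ) : Prop := ∀ (M J : ℕ) (ρ e : ℝ), 0 < ρ → 0 < e → ∃ J' k0 : ℕ, ∀ k n : ℕ, k0 ≤ k → m k ≤ n →
  gf {t | (t.length = n ∧ t ∈ WL (k + J)) ∧ ∃ i : ℕ, ρ * n ≤ i ∧ i ≤ t.length ∧ ∃ p q : Fin 3, p ≠ q ∧
    ∀ d, d = p ∨ d = q → ¬ EN.Alt (fun a => EN.lv3 d (vx oo up t a)) i M (RR (k - J'))} ≤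
      ENNReal.ofReal (e * (Ub (k + J) / m (k + J))) * Xb (k + J) ^ 2

/-- regularity at one scale for the words with many leaves in both directions, exactly nn letters -/
def RegX (A B : ℤ) (m : ℕ → ℝ) : Prop := ∃ (C c : ℝ) (k0 J0 n0 M s : ℕ), 1 ≤ C ∧ 0 < c ∧ ∀ r J n nn : ℕ, k0 ≤ r →
  J0 ≤ J → n0 ≤ n → gf {t | (t.length = nn ∧ t ∈ WL (r + J)) ∧ Many t t.length M (RR (r + s)) ∧ Irg A B r n t} ≤
    ENNReal.ofReal (C ^ J * (2 : ℝ) ^ (-(c * n)) * (Ub (r + J) / m (r + J))) * Xb (r + J) ^ 2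

lemma Many.mono {t : List Bool} {i i' M M' : ℕ} {R R' : ℤ} (h : Many t i M R) (hi : i ≤ i') (hM : M' ≤ M) (hR : R' ≤ R) :
    Many t i' M' R' := by
  intro dir
  obtain ⟨τ, s, hs, h1, h2, h3⟩ := h dir
  exact ⟨τ, s, hs, fun j hj => h1 j (by omega), fun j hj => (h2 j (by omega)).trans hi,
    fun j hj => hR.trans (h3 j (by omega))⟩

end SIM

end HexObs
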