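import Pool.Agent.SIM.CutSum

/-!
SIM: a walk with one bridge H; sum over the pieces of H, first over the word before the piece (helper59).
-/

set_option autoImplicit false

namespace HexObs

namespace SIM

open Finset TS

open scoped ENNReal Classical

/-- t contains a bridge H of height between n and N; what is before a piece of H is in LL, what is behind it in RR -/
def Cut1 (LL RR : Set (List Bool)) (n N : ℕ) (t : List Bool) : Prop :=
  ∃ (X0 H X1 : List Bool) (h : ℕ), t = X0 ++ (H ++ X1) ∧ H ∈ Brd h ∧ n ≤ h ∧ h ≤ N ∧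
    (∀ A B, A ∈ BU → B ∈ BU → H = A ++ B → X0 ++ A ∈ LL) ∧ (∀ A B, A ∈ BU → B ∈ BU → H = A ++ B → B ++ X1 ∈ RR)

namespace CS

/-- one word -/
lemma point1 {LL RR : Set (List Bool)} {n N : ℕ} {t : List Bool} (h : Cut1 LL RR n N t) :
    (n : ℝ≥0∞) ≤ ∑' L : List Bool, ∑' P : List Bool, ∑' R : List Bool,
      (if (L ∈ LL ∧ R ∈ RR ∧ P ∈ IU ∧ hgt P ≤ N) ∧ L ++ (P ++ R) = t then (hgt P : ℝ≥0∞) else 0) := by
  obtain ⟨X0, H, X1, h1, he, hH, n1, N1, hL, hR⟩ := h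
  calc (n : ℝ≥0∞) ≤ (h1 : ℝ≥0∞) := by exact_mod_cast n1
    _ ≤ ∑' A : List Bool, ∑' P : List Bool, ∑' B : List Bool,
        (if A ∈ BU ∧ P ∈ IU ∧ B ∈ BU ∧ H = A ++ (P ++ B) then (hgt P : ℝ≥0∞) else 0) := hsum h1 H hH
    _ ≤ ∑' A : List Bool, ∑' P : List Bool, ∑' B : List Bool,
        (if ((X0 ++ A) ∈ LL ∧ (B ++ X1) ∈ RR ∧ P ∈ IU ∧ hgt P ≤ N) ∧ (X0 ++ A) ++ (P ++ (B ++ X1)) = t then
          (hgt P : ℝ≥0∞) else 0) := by
        refine ENNReal.tsum_le_tsum fun A => ENNReal.tsum_le_tsum fun P => ENNReal.tsum_le_tsum fun B => ?_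
        by_cases hc : A ∈ BU ∧ P ∈ IU ∧ B ∈ BU ∧ H = A ++ (P ++ B)
        · obtain ⟨hA, hP, hB, e1⟩ := hc
          have b1 := hgt_eq hH
          rw [e1, happ hA (app (IUB hP) hB), happ (IUB hP) hB] at b1
          rw [if_pos ⟨hA, hP, hB, e1⟩, if_pos]
          refine ⟨⟨hL A (P ++ B) hA (app (IUB hP) hB) e1, hR (A ++ P) B (app hA (IUB hP)) hB ?_, hP, by omega⟩, ?_⟩
          · rw [e1, List.append_assoc]
          · rw [he, e1]
            simp only [List.append_assoc]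
        · rw [if_neg hc]
          exact zero_le
    _ ≤ ∑' A : List Bool, ∑' P : List Bool, ∑' R : List Bool,
        (if ((X0 ++ A) ∈ LL ∧ R ∈ RR ∧ P ∈ IU ∧ hgt P ≤ N) ∧ (X0 ++ A) ++ (P ++ R) = t then
          (hgt P : ℝ≥0∞) else 0) :=
        ENNReal.tsum_le_tsum fun A => ENNReal.tsum_le_tsum fun P =>
          ENNReal.tsum_comp_le_tsum_of_injective (f := fun B : List Bool => B ++ X1)
            (fun a b hab => List.append_cancel_right hab)
            (fun R : List Bool => (if ((X0 ++ A) ∈ LL ∧ R ∈ RR ∧ P ∈ IU ∧ hgt P ≤ N) ∧ (X0 ++ A) ++ (P ++ R) = t then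
              (hgt P : ℝ≥0∞) else 0))
    _ ≤ _ :=
        ENNReal.tsum_comp_le_tsum_of_injective (f := fun A : List Bool => X0 ++ A)
          (fun a b hab => List.append_cancel_left hab)
          (fun L : List Bool => ∑' P : List Bool, ∑' R : List Bool,
            (if (L ∈ LL ∧ R ∈ RR ∧ P ∈ IU ∧ hgt P ≤ N) ∧ L ++ (P ++ R) = t then (hgt P : ℝ≥0∞) else 0))

end CS

open CS

/-- **the sum over the three parts** -/
theorem cut1_master {LL RR E : Set (List Bool)} {n N : ℕ} (hE : ∀ t ∈ E, Cut1 LL RR n N t) :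
    (n : ℝ≥0∞) * gf E ≤ ∑' P : List Bool, ∑' R : List Bool, ∑' L : List Bool,
      (if (L ∈ LL ∧ R ∈ RR ∧ P ∈ IU ∧ hgt P ≤ N) ∧ L ++ (P ++ R) ∈ E then
        wE L * wE P * wE R * (hgt P : ℝ≥0∞) else 0) := by
  have h1 : (n : ℝ≥0∞) * gf E = ∑' t : E, wE t.1 * (n : ℝ≥0∞) := by
    unfold gf
    rw [ENNReal.tsum_mul_right, mul_comm]
  have h0 : ∀ f : List Bool → List Bool → List Bool → ℝ≥0∞, ∑' P : List Bool, ∑' R : List Bool, ∑' L : List Bool,
      f L P R = ∑' L : List Bool, ∑' P : List Bool, ∑' R : List Bool, f L P R := by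
    intro f
    rw [show (∑' P : List Bool, ∑' R : List Bool, ∑' L : List Bool, f L P R) =
      ∑' P : List Bool, ∑' L : List Bool, ∑' R : List Bool, f L P R from tsum_congr fun P => ENNReal.tsum_comm]
    exact ENNReal.tsum_comm
  rw [h1, h0 (fun L P R => (if (L ∈ LL ∧ R ∈ RR ∧ P ∈ IU ∧ hgt P ≤ N) ∧ L ++ (P ++ R) ∈ E then
        wE L * wE P * wE R * (hgt P : ℝ≥0∞) else 0))]
  refine (ENNReal.tsum_le_tsum fun t => mul_le_mul' le_rfl (point1 (hE t.1 t.2))).trans ?_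
  simp only [← ENNReal.tsum_mul_left]
  rw [ENNReal.tsum_comm]
  refine ENNReal.tsum_le_tsum fun L => ?_
  rw [ENNReal.tsum_comm]
  refine ENNReal.tsum_le_tsum fun P => ?_
  rw [ENNReal.tsum_comm]
  refine ENNReal.tsum_le_tsum fun R => ?_
  by_cases hc : (L ∈ LL ∧ R ∈ RR ∧ P ∈ IU ∧ hgt P ≤ N) ∧ L ++ (P ++ R) ∈ E
  · rw [if_pos hc, tsum_eq_single (⟨_, hc.2⟩ : E)]
    · rw [if_pos ⟨hc.1, rfl⟩]
      simp only [wE_append]
      refine le_of_eq ?_
      ring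
    · intro t ht
      rw [if_neg, mul_zero]
      rintro ⟨-, h3⟩
      exact ht (Subtype.ext h3.symm)
  · rw [if_neg hc]
    refine le_of_eq (ENNReal.tsum_eq_zero.2 fun t => ?_)
    rw [if_neg, mul_zero]
    rintro ⟨h2, h3⟩
    exact hc ⟨h2, by rw [h3]; exact t.2⟩

/-- **one cut**: the words before the piece first -/
theorem cut1_sum : ∃ C : ℝ, 1 ≤ C ∧ ∀ (LL RR E : Set (List Bool)) (n b : ℕ) (x : ℝ≥0∞), 1 ≤ n →
    (∀ t ∈ E, Cut1 LL RR n (2 ^ b) t) → (∀ B : List Bool, gf {L | L ∈ LL ∧ L ++ B ∈ E} ≤ x) →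
    gf E ≤ ENNReal.ofReal (C * (2 ^ b / (n * Ub b))) * (x * gf RR) := by
  obtain ⟨K, hK, hP⟩ := piece_mass
  refine ⟨K, hK, fun LL RR E n b x hn hE hx => ?_⟩
  have hU := Ub_pos b
  have hn0 : (0 : ℝ) < n := by exact_mod_cast hn
  obtain ⟨p, hp⟩ : ∃ p : List Bool → ℝ≥0∞, p = fun P => if P ∈ IU ∧ hgt P ≤ 2 ^ b then wE P * (hgt P : ℝ≥0∞) else 0 :=
    ⟨_, rfl⟩
  obtain ⟨r, hr⟩ : ∃ r : List Bool → ℝ≥0∞, r = fun R => if R ∈ RR then wE R else 0 := ⟨_, rfl⟩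
  have hsr : ∑' R, r R = gf RR := by
    unfold gf
    rw [hr, _root_.tsum_subtype RR (fun t => wE t)]
    exact tsum_congr fun t => by rw [Set.indicator_apply]
  have h1 : (n : ℝ≥0∞) * gf E ≤ ∑' P : List Bool, ∑' R : List Bool, p P * (r R * x) := by
    refine (cut1_master hE).trans ?_
    refine ENNReal.tsum_le_tsum fun P => ENNReal.tsum_le_tsum fun R => ?_
    by_cases hc : R ∈ RR ∧ P ∈ IU ∧ hgt P ≤ 2 ^ b
    · have e2 : r R = wE R := by rw [hr]; exact if_pos hc.1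
      have e3 : p P = wE P * (hgt P : ℝ≥0∞) := by rw [hp]; exact if_pos hc.2
      have h2 := hx (P ++ R)
      have h3 : gf {L | L ∈ LL ∧ L ++ (P ++ R) ∈ E} =
          ∑' L : List Bool, (if L ∈ LL ∧ L ++ (P ++ R) ∈ E then wE L else 0) := by
        unfold gf
        rw [_root_.tsum_subtype _ (fun t => wE t)]
        exact tsum_congr fun t => by rw [Set.indicator_apply]; rfl
      rw [h3] at h2
      rw [e2, e3]
      calc (∑' L : List Bool, (if (L ∈ LL ∧ R ∈ RR ∧ P ∈ IU ∧ hgt P ≤ 2 ^ b) ∧ L ++ (P ++ R) ∈ E then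
            wE L * wE P * wE R * (hgt P : ℝ≥0∞) else 0))
          ≤ ∑' L : List Bool, (wE P * (hgt P : ℝ≥0∞)) * wE R * (if L ∈ LL ∧ L ++ (P ++ R) ∈ E then wE L else 0) := by
            refine ENNReal.tsum_le_tsum fun L => ?_
            by_cases hd : (L ∈ LL ∧ R ∈ RR ∧ P ∈ IU ∧ hgt P ≤ 2 ^ b) ∧ L ++ (P ++ R) ∈ E
            · rw [if_pos hd, if_pos ⟨hd.1.1, hd.2⟩]
              refine le_of_eq ?_
              ring
            · rw [if_neg hd]
              exact zero_le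
        _ ≤ (wE P * (hgt P : ℝ≥0∞)) * wE R * x := by
            rw [ENNReal.tsum_mul_left]
            exact mul_le_mul' le_rfl h2
        _ = _ := by ring
    · refine le_trans (le_of_eq (ENNReal.tsum_eq_zero.2 fun L => if_neg ?_)) zero_le
      rintro ⟨h2, -⟩
      exact hc ⟨h2.2.1, h2.2.2.1, h2.2.2.2⟩
  have h2 : ∑' P : List Bool, ∑' R : List Bool, p P * (r R * x) = (∑' P, p P) * (gf RR * x) := by
    simp only [ENNReal.tsum_mul_left, ENNReal.tsum_mul_right, hsr]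
  have h3 : ∑' P, p P ≤ ENNReal.ofReal (K * 2 ^ b / Ub b) := by
    rw [hp]
    exact hP b
  have hn1 : (n : ℝ≥0∞) ≠ 0 := by exact_mod_cast (by omega : n ≠ 0)
  have hn2 : (n : ℝ≥0∞) ≠ ⊤ := ENNReal.natCast_ne_top n
  rw [h2] at h1
  have h4 : gf E ≤ (n : ℝ≥0∞)⁻¹ * (ENNReal.ofReal (K * 2 ^ b / Ub b) * (gf RR * x)) := by
    calc gf E = (n : ℝ≥0∞)⁻¹ * ((n : ℝ≥0∞) * gf E) := by
          rw [← mul_assoc, ENNReal.inv_mul_cancel hn1 hn2, one_mul]
      _ ≤ _ := mul_le_mul' le_rfl (h1.trans (mul_le_mul' h3 le_rfl))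
  refine h4.trans (le_of_eq ?_)
  have h5 : (n : ℝ≥0∞)⁻¹ = ENNReal.ofReal ((n : ℝ)⁻¹) := by
    rw [ENNReal.ofReal_inv_of_pos hn0, ENNReal.ofReal_natCast]
  have h6 : ENNReal.ofReal (K * (2 ^ b / (n * Ub b))) = (n : ℝ≥0∞)⁻¹ * ENNReal.ofReal (K * 2 ^ b / Ub b) := by
    rw [h5, ← ENNReal.ofReal_mul (by positivity)]
    congr 1
    field_simp
  rw [h6]
  ring

/-- one cut, walks with exactly nl letters -/
theorem cut1_exact : ∃ C : ℝ, 1 ≤ C ∧ ∀ (LL RR E : Set (List Bool)) (n b nl : ℕ) (x : ℝ≥0∞), 1 ≤ n →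
    (∀ t ∈ E, Cut1 LL RR n (2 ^ b) t ∧ t.length = nl) → (∀ l : ℕ, gf {L | L.length = l ∧ L ∈ LL} ≤ x) →
    gf E ≤ ENNReal.ofReal (C * (2 ^ b / (n * Ub b))) * (x * gf RR) := by
  obtain ⟨C, hC, h⟩ := cut1_sum
  refine ⟨C, hC, fun LL RR E n b nl x hn hE hx => h LL RR E n b x hn (fun t ht => (hE t ht).1) fun B => ?_⟩
  refine (gf_mono fun L hL => ?_).trans (hx (nl - B.length))
  obtain ⟨h1, h2⟩ := hL
  have h3 := (hE _ h2).2
  rw [List.length_append] at h3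
  exact ⟨by omega, h1⟩

end SIM

end HexObs
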