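import Pool.Agent.SIM.HitP
import Pool.Agent.SIM.RegDefs

/-!
SIM: a walk without irregular pieces is good at every vertex from which it escapes (75's Irg, 69's GoodPt).
-/

set_option autoImplicit false

namespace HexObs

namespace SIM

open Finset TS SDN HexObs.Planar

/-- the vertices of a word are a path -/
lemma Pth_word (t : List Bool) (N : ℕ) : Pth (vx oo up t) N := by
  intro k _
  have h0 : cl (oo : Pt) = 0 := by decide
  have hu : cl up = 2 := by decide
  have hm : up ∈ dirs := by decide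
  rw [vx_succ]
  by_cases hk : Even k
  · left
    refine ⟨?_, ?_, ?_⟩
    · rw [cl_vx, if_pos hk, h0]
    · rw [add_sub_cancel_left]
      exact dx_mem hm t k
    · rw [add_sub_cancel_left, cl_dx, if_pos hk, hu]
  · right
    refine ⟨?_, ?_, ?_⟩
    · rw [cl_add, cl_vx, if_neg hk, cl_dx, if_neg hk, h0]
      ring
    · rw [show vx oo up t k - (vx oo up t k + dx up t k) = -(dx up t k) by abel]
      exact neg_mem_dirs (dx_mem hm t k)
    · rw [show vx oo up t k - (vx oo up t k + dx up t k) = -(dx up t k) by abel, cl_neg, cl_dx, if_neg hk, hu]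
      decide

/-- only the first n vertices matter -/
lemma GoodPt.congr {a a' : ℕ → Pt} {n : ℕ} {p : Pt} {ρ R : ℕ} (h : GoodPt a n p ρ R) (he : ∀ k, k ≤ n → a k = a' k) :
    GoodPt a' n p ρ R := by
  obtain ⟨c, h1, h2⟩ := h
  refine ⟨c, h1, fun g m hg hk => ?_⟩
  obtain ⟨cg, e1, t, e2⟩ := h2 g m hg hk
  refine ⟨cg, e1, t, fun u hu hu' => ?_⟩
  obtain ⟨k, hk, k', hk', h3⟩ := e2 u hu hu'
  exact ⟨k, hk, k', hk', by rw [h3, he k' hk']⟩

lemma lq_eq (dir : Bool) (t : List Bool) (i : ℕ) : lq dir t i = -Xc dir (vx oo up t i) := by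
  have h2 : (up : Pt) = (0, 1) := by decide
  cases dir
  · simp only [lq, crs, Xc, hd, cross, h2]
    simp
  · simp only [lq, crs, Xc, hd, cross]
    simp

lemma lp_eq (dir : Bool) (t : List Bool) (i : ℕ) : lp dir t i = Yc dir (vx oo up t i) := rfl

/-- outside of a ball one of the two levels is large -/
lemma exists_dir {p q : Pt} {R : ℕ} (h : q ∉ Bl p R) : ∃ dir : Bool, (R : ℤ) + 1 ≤ |Yc dir q - Yc dir p| := by
  by_contra hcon
  push Not at hcon
  have h1 := hcon true
  have h2 := hcon false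
  simp only [Yc_eq, Bool.false_eq_true, if_false, if_true] at h1 h2
  apply h
  rw [abs_lt] at h1 h2
  show |q.1 - p.1| ≤ R ∧ |q.2 - p.2| ≤ R
  rw [abs_le, abs_le]
  omega

/-- **GOOD POINTS from regularity**: t has no irregular piece of the scale (r, n); the vertex i of t, from which t
escapes to distance R before the time N; the path a = the vertices of t from i0 on. -/
theorem good_inf {t : List Bool} {r n R i0 i z N : ℕ} (hr : 6 ≤ r) (hn : 3 * n * 2 ^ r ≤ R) (hR : 8 * 2 ^ r ≤ R)
    (hI : ¬ Irg 6 8 r n t) (hi0 : i0 ≤ i) (hiz : i ≤ z) (hex : vx oo up t z ∉ Bl (vx oo up t i) R) (hzN : z ≤ N)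
    (hN : N ≤ t.length) : GoodPt (fun k => vx oo up t (i0 + k)) (N - i0) (vx oo up t i) (2 ^ r) R := by
  obtain ⟨τ, h1, h2, -, h4⟩ := first_exit (g := fun k => vx oo up t (i + k)) (L := N - i)
    (Pth_le (Pth_tail (Pth_word t N) (by omega : i ≤ N)) le_rfl) (r := R) (k0 := z - i) (by omega)
    (by
      show vx oo up t (i + (z - i)) ∉ Bl (vx oo up t (i + 0)) R
      rw [show i + (z - i) = z by omega, Nat.add_zero]
      exact hex)
  simp only [Nat.add_zero] at h2 h4
  obtain ⟨dir, hdir⟩ := exists_dir h2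
  have hreg : (∃ a b, i ≤ a ∧ b ≤ i + τ ∧ Al 6 (2 ^ r) (lp dir t) (lq dir t) a b) ∧
      ∃ a b, i ≤ a ∧ b ≤ i + τ ∧ Be 8 (2 ^ r) (lp dir t) (lq dir t) a b := by
    by_contra hcon
    apply hI
    refine ⟨dir, i, i + τ, by omega, by omega, ?_, ?_⟩
    · have e1 : 3 * ((n : ℤ) * 2 ^ r) ≤ R := by
        have : ((3 * n * 2 ^ r : ℕ) : ℤ) ≤ R := by exact_mod_cast hn
        push_cast at this
        linarith
      rw [lp_eq, lp_eq]
      linarith
    · by_cases hA : ∃ a b, i ≤ a ∧ b ≤ i + τ ∧ Al 6 (2 ^ r) (lp dir t) (lq dir t) a b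
      · right
        intro a b ha hb hB
        exact hcon ⟨hA, a, b, ha, hb, hB⟩
      · left
        push Not at hA
        exact hA
  obtain ⟨⟨a, b, ha, hb, hA1, hA2, hA3⟩, a', b', ha', hb', hB1, hB2, hB3⟩ := hreg
  have h64 : 64 ≤ 2 ^ r := le_trans (by norm_num) (Nat.pow_le_pow_right (by norm_num : 0 < 2) hr)
  have hpos : (0 : ℤ) < 2 ^ r := by positivity
  have hab : a < b := by
    rcases Nat.lt_or_ge a b with h | h
    · exact h
    · exfalso
      have : a = b := le_antisymm hA1 h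
      rw [this, sub_self, abs_zero] at hA2
      linarith
  have hab' : a' < b' := by
    rcases Nat.lt_or_ge a' b' with h | h
    · exact h
    · exfalso
      have : a' = b' := le_antisymm hB1 h
      rw [this, sub_self, abs_zero] at hB2
      linarith
  refine good_pt dir (i1 := a - i0) (i2 := b - i0) (i3 := a' - i0) (i4 := b' - i0) h64 hR
    (Pth_tail (Pth_word t N) (by omega : i0 ≤ N)) (by omega) (by omega) (by omega) (by omega) ?_ ?_ ?_ ?_ ?_ ?_
  · rw [lp_eq, lp_eq] at hA2
    push_cast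
    rw [show i0 + (b - i0) = b by omega, show i0 + (a - i0) = a by omega]
    exact hA2
  · intro k k' e1 e2 e3 e4
    have h := hA3 (i0 + k') (i0 + k) (by omega) (by omega) (by omega) (by omega)
    rw [lq_eq, lq_eq] at h
    have h' := (abs_le.1 h).2
    push_cast
    linarith
  · rw [lq_eq, lq_eq] at hB2
    push_cast
    rw [show i0 + (b' - i0) = b' by omega, show i0 + (a' - i0) = a' by omega]
    refine hB2.trans (le_of_eq ?_)
    rw [show -Xc dir (vx oo up t b') - -Xc dir (vx oo up t a') =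
      -(Xc dir (vx oo up t b') - Xc dir (vx oo up t a')) by ring, abs_neg]
  · intro k k' e1 e2 e3 e4
    have h := (abs_le.1 (hB3 (i0 + k) (i0 + k') (by omega) (by omega) (by omega) (by omega))).2
    rw [lp_eq, lp_eq] at h
    push_cast
    exact h
  · have := h4 (a - i) (by omega)
    rw [show i + (a - i) = a by omega] at this
    show vx oo up t (i0 + (a - i0)) ∈ _
    rwa [show i0 + (a - i0) = a by omega]
  · have := h4 (a' - i) (by omega)
    rw [show i + (a' - i) = a' by omega] at this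
    show vx oo up t (i0 + (a' - i0)) ∈ _
    rwa [show i0 + (a' - i0) = a' by omega]

/-- the case i0 = 0 -/
theorem good_of_irg {t : List Bool} {r n R i z N : ℕ} (hr : 6 ≤ r) (hn : 3 * n * 2 ^ r ≤ R) (hR : 8 * 2 ^ r ≤ R)
    (hI : ¬ Irg 6 8 r n t) (hiz : i ≤ z) (hex : vx oo up t z ∉ Bl (vx oo up t i) R) (hzN : z ≤ N)
    (hN : N ≤ t.length) : GoodPt (vx oo up t) N (vx oo up t i) (2 ^ r) R := by
  have h := good_inf hr hn hR hI (Nat.zero_le i) hiz hex hzN hN
  rw [Nat.sub_zero] at h
  exact h.congr fun k _ => by rw [Nat.zero_add]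

/-- **GOOD POINTS for a prefix**: the walk t = A ++ B; the escape from the vertex i happens in A. -/
theorem good_pre {A B : List Bool} {r n R i z : ℕ} (hr : 6 ≤ r) (hn : 3 * n * 2 ^ r ≤ R) (hR : 8 * 2 ^ r ≤ R)
    (hI : ¬ Irg 6 8 r n (A ++ B)) (hiz : i ≤ z) (hz : z ≤ A.length)
    (hex : vx oo up A z ∉ Bl (vx oo up A i) R) :
    GoodPt (vx oo up A) A.length (vx oo up A i) (2 ^ r) R := by
  have e : ∀ k, k ≤ A.length → vx oo up (A ++ B) k = vx oo up A k := fun k hk => vx_append (by omega)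
  have h := good_of_irg (N := A.length) hr hn hR hI hiz (by rwa [e z hz, e i (by omega)]) hz
    (by rw [List.length_append]; omega)
  rw [e i (by omega)] at h
  exact h.congr e

end SIM

end HexObs
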