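import Pool.Agent.SIM.TopFd
import Pool.Agent.SIM.CutSum
import Pool.Agent.SIM.VWord
import Pool.Agent.SIM.GoodW

/-!
SIM (the weak limits are simple curves), row (1), final form: **near_cut3**: a near touch (i, j) with a hump between the two
times has, off the event of the leaves without cuts and at regular scales, the decomposition Cut3 with the clause NearQ.
-/

set_option autoImplicit false

namespace HexObs

namespace SIM

open Finset TS SDN NTW

lemma lev_sub_ball {t : List Bool} {i j R : ℕ} (h : vx oo up t i ∈ Bl (vx oo up t j) R) :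
    |lev t i - lev t j| ≤ 3 * R := by
  obtain ⟨h1, h2⟩ := h
  have e : ∀ k, lev t k = (vx oo up t k).1 + 2 * (vx oo up t k).2 := by
    intro k
    show ip (vx oo up t k) up = _
    simp only [ip, up]
    ring
  rw [e, e]
  rw [abs_le] at h1 h2 ⊢
  constructor <;> omega

/-- **(T): from a near touch to the decomposition with three nested bridges** -/
theorem near_cut3 {kc J N d : ℕ} {c r q n R : ℕ → ℕ} (hcr : ∀ k, k < 3 → c k + r k + 1 ≤ c (k + 1))
    (hc3 : c 3 + r 3 ≤ kc + 3) (hc0 : 1 ≤ c 0) {S : Set (List Bool)} (hS : ∀ k, k < 4 → NoCut (c k) (r k) ⊆ S)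
    {t : List Bool} (ht : t ∈ WL (kc + J)) (hE : t ∉ EQ2 kc J S)
    (hq : ∀ s, s < N → 6 ≤ q s ∧ 3 * n s * 2 ^ q s ≤ R s ∧ 8 * 2 ^ q s ≤ R s ∧ R s ≤ 2 ^ (kc + 4) ∧
      ¬ Irg 6 8 (q s) (n s) t)
    {i x j : ℕ} (hix : i ≤ x) (hxj : x ≤ j) (hj : j ≤ t.length) (hnear : vx oo up t i ∈ Bl (vx oo up t j) d)
    (hx : RR (kc + 5) + 3 * d ≤ |lev t x - lev t i|) :
    Cut3 (NearQ N d (fun s => 2 ^ q s) R) {t | t ∈ WL (kc + J) ∧ ∃ m u e, Fd (kc + 3) t m u e ∧ e m = t.length}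
      {t | t ∈ WL (kc + J + 1) ∧ ∃ m u e, Fd (c 0) t m u e ∧ e 0 = 0} (2 ^ (c 0 + r 0)) (2 ^ (c 3 + r 3)) t := by
  have hd := lev_sub_ball hnear
  -- the sign
  obtain ⟨s, hs1, hs2⟩ : ∃ s : ℕ, RR (kc + 5) ≤ Tight.sg s (lev t x) - Tight.sg s (lev t i) ∧
      RR (kc + 5) ≤ Tight.sg s (lev t x) - Tight.sg s (lev t j) := by
    rw [abs_le] at hd
    rcases abs_cases (lev t x - lev t i) with ⟨h1, h2⟩ | ⟨h1, h2⟩
    · refine ⟨1, ?_, ?_⟩
      · rw [Tight.sg_one, Tight.sg_one]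
        omega
      · rw [Tight.sg_one, Tight.sg_one]
        omega
    · have h0 : ∀ y : ℤ, Tight.sg 0 y = -y := fun y => by
        unfold Tight.sg
        rw [if_pos (by decide)]
      refine ⟨0, ?_, ?_⟩
      · rw [h0, h0]
        omega
      · rw [h0, h0]
        omega
  obtain ⟨X0, H1, H2, H3, X1, n1, n2, n3, he, b1, b2, b3, ⟨m1, m2, m3⟩, ⟨M1, M2, M3⟩, hL, hRt, hi, hj', hd1, hd2⟩ :=
    top_cut hcr hc3 hS ht hE (Y := RR (kc + 5)) le_rfl hix hxj hj hs1 hs2
  have hp0 : (0 : ℤ) < 2 ^ (kc + 3) := by positivity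
  have hp1 : (8 : ℤ) ≤ 2 ^ (kc + 3) := by
    have : (2 : ℤ) ^ 3 ≤ 2 ^ (kc + 3) := pow_le_pow_right₀ (by norm_num) (by omega)
    omega
  have hRRb : RR (kc + 5) = 12 * 2 ^ (kc + 3) - 2 := by
    unfold RR
    rw [show kc + 5 = kc + 3 + 2 by ring, pow_add]
    ring
  have hout : ∀ (a b' : ℕ), RR (kc + 5) - 3 * 2 ^ (kc + 3) - 2 ≤ Tight.sg s (lev t a) - Tight.sg s (lev t b') →
      ∀ l, l < N → vx oo up t a ∉ Bl (vx oo up t b') (R l) := by
    intro a b' hab l hl hmem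
    have h1 := lev_sub_ball hmem
    have h2 : ((R l : ℕ) : ℤ) ≤ ((2 ^ (kc + 4) : ℕ) : ℤ) := by exact_mod_cast (hq l hl).2.2.2.1
    push_cast at h2
    rw [show kc + 4 = kc + 3 + 1 by ring, pow_succ] at h2
    rw [abs_le] at h1
    unfold Tight.sg at hab
    split_ifs at hab <;> omega
  have hlen3 : (X0 ++ (H1 ++ (H2 ++ H3))).length = X0.length + H1.length + H2.length + H3.length := by
    simp only [List.length_append]
    omega
  have hX0 : X0.length ≤ t.length := by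
    have := congrArg List.length he
    simp only [List.length_append] at this
    omega
  refine ⟨X0, H1, H2, H3, X1, n1, n2, n3, he, b1, b2, b3, m1, m2, m3, M1, M2, M3,
    fun A B hA hB hH => topE_sub (by omega) (hL A B hA hB hH), fun A B hA hB hH => botS_sub hc0 (hRt A B hA hB hH),
    i, X0.length, (X0 ++ (H1 ++ (H2 ++ H3))).length, j, hi, le_rfl, by omega, hj', hj, hnear, hout _ _ hd1,
    hout _ _ hd2, ?_⟩
  intro l hl
  obtain ⟨q1, q2, q3, q4, q5⟩ := hq l hl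
  exact good_of_irg q1 q2 q3 q5 hi (hout _ _ hd1 l hl) le_rfl hX0

end SIM

end HexObs
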