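import Pool.Agent.SIM.MidW
import Pool.Agent.SIM.NearCut
import Pool.Agent.SIM.Cut1Sum
import Pool.Agent.SIM.FirstL
import Pool.Agent.NTA.StepA
import Pool.Agent.EN.EspA

/-!
SIM (the weak limits are simple curves), exact number of letters: **near_cut1**: a near touch (i, j) with a hump between the two
times, behind the interior leaf number l0 which has cuts near its top: Cut1 at this leaf, and the rest behind the cut is in
Cut3 with the clause NearQ.
-/

set_option autoImplicit false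

namespace HexObs

namespace SIM

open Finset TS SDN NTW NTA EN

/-- the words of the interior leaves of Lf, off the event of S -/
lemma leaf_int {k : ℕ} {S : Set (List Bool)} {t : List Bool} (ht : t ∈ SA) {m u : ℕ} {e : ℕ → ℕ}
    (hL : Lf false (k + 7) t m u e) (hE : ¬ HasRun false (k + 2) (One S) t) {l : ℕ} (h2 : 2 ≤ l) (hm : l + 2 ≤ m) :
    ∃ (g : List Bool) (hh : ℕ), PosL t u e l g ∧ g ∈ Brd hh ∧ 2 ^ (k + 2 + 4) ≤ hh ∧ g ∉ S := by
  obtain ⟨hh, b1, b2, -⟩ := lw_brd ht (by omega) hL (j := l) (by omega) hm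
  refine ⟨lw t (e l) (e (l + 1)), hh, posL_lw ht (by omega) hL (by omega) hm, b1, ?_, ?_⟩
  · have h1 : 2 ^ (k + 7) = 2 * 2 ^ (k + 2 + 4) := by ring
    have h3 : 1 ≤ 2 ^ (k + 2 + 4) := Nat.one_le_two_pow
    omega
  · intro hS
    refine hE ⟨m, u, e, hL, l, 1, h2, le_rfl, by omega, ?_⟩
    rw [lws_one]
    exact ⟨_, hS, rfl⟩

/-- prefix of a walk up to a cut of the leaf number l0: the last leaves -/
theorem last_take {k J J1 l0 : ℕ} {t : List Bool} (ht : t ∈ WL (k + J)) {m u : ℕ} {e : ℕ → ℕ}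
    (hH : HW (lev t) t.length (RR (k + 7)) m u e) (hl0 : l0 + 1 ≤ m) (hJ1 : J1 ≤ l0 + 1) (hJ : 1 ≤ J1) {v z p : ℕ}
    (hv : e l0 ≤ v + 1) (hz : z ≤ e (l0 + 1)) (hc : CutAt (dD false (u + l0)) t (v + 1) z p)
    (hR : 3 * 2 ^ (k + 5) - 2 ≤ xD (dD false (u + l0)) t p - xD (dD false (u + l0)) t (v + 1)) :
    t.take p ∈ LastR k J (RJ k (2 ^ (k + J + 2)) J1) := by
  have hle : e (l0 + 1) ≤ t.length := (hH.mono hl0 le_rfl).trans hH.le
  have hzl : z ≤ t.length := by omega
  have hpz : p < z := hc.2.1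
  have htop : t.take p ∈ TopE (k + 5) (k + J) := top_mem ht (by omega) hzl hc hR
  obtain ⟨m', u', e', hF⟩ := fd_topE (by omega) htop
  have hend := last_of_topE htop hF
  have hlen : (t.take p).length = p := by
    rw [List.length_take]
    omega
  have hpv : v + 1 ≤ p := hc.1
  have hlv : ∀ i, i ≤ p → lev (t.take p) i = lev t i := by
    intro i hi
    have := lev_append (s := t.take p) (t := t.drop p) (i := i) (by omega)
    rw [List.take_append_drop] at this
    exact this.symm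
  have hel : ∀ a, a ≤ l0 → e a ≤ p := fun a ha => (hH.mono ha (by omega)).trans (by omega)
  have hRR : RR (k + 5) ≤ RR (k + 7) := by
    unfold RR
    have : (2 : ℤ) ^ (k + 5) ≤ 2 ^ (k + 7) := pow_le_pow_right₀ (by norm_num) (by omega)
    omega
  have hJm : l0 + 1 ≤ m' := by
    refine (HW.of_fd hF).alt_le hF.1 (k := l0 + 1) (v := u) (i := fun a => if a ≤ l0 then e a else p) ?_ ?_ ?_
    · intro a ha
      show (if a ≤ l0 then e a else p) < (if a + 1 ≤ l0 then e (a + 1) else p)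
      rw [if_pos (by omega)]
      rcases Nat.lt_or_ge a l0 with h1 | h1
      · rw [if_pos (by omega)]
        exact hH.lt a (by omega)
      · rw [if_neg (by omega)]
        have h2 : a = l0 := by omega
        rw [h2]
        have h3 : e l0 ≠ p := by
          intro h4
          have h5 : e l0 = v + 1 := by omega
          have h6 : p = v + 1 := by omega
          rw [h6] at hR
          have h7 : (1 : ℤ) ≤ 2 ^ (k + 5) := one_le_pow₀ (by norm_num)
          omega
        have := hel l0 le_rfl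
        omega
    · show (if l0 + 1 ≤ l0 then e (l0 + 1) else p) ≤ (t.take p).length
      rw [if_neg (by omega), hlen]
    · intro a ha
      show RR (k + 5) ≤ Tight.sg (u + a) (lev (t.take p) (if a + 1 ≤ l0 then e (a + 1) else p)) -
        Tight.sg (u + a) (lev (t.take p) (if a ≤ l0 then e a else p))
      rw [if_pos (show a ≤ l0 by omega), hlv _ (hel a (by omega))]
      rcases Nat.lt_or_ge a l0 with h1 | h1
      · rw [if_pos (by omega), hlv _ (hel (a + 1) (by omega))]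
        exact hRR.trans (hH.big a (by omega))
      · rw [if_neg (by omega), hlv p le_rfl]
        have h2 : a = l0 := by omega
        rw [h2, ← xD_lev, ← xD_lev]
        have h3 := hH.lo l0 (by omega) (v + 1) hv (by omega)
        rw [← xD_lev, ← xD_lev] at h3
        have h4 : RR (k + 5) = 3 * 2 ^ (k + 5) - 2 := rfl
        omega
  refine ⟨take_WL ht (by omega), m', u', e', hF, hend, m' - J1, J1, hJ, by omega, ?_⟩
  intro ms hms _ _ _ hB
  exact ⟨hms, hB⟩

/-- **(T) at exactly n letters** -/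
theorem near_cut1 {k J N d J1 l0 : ℕ} {c r q n R : ℕ → ℕ} (hcr : ∀ i, i < 3 → c i + r i + 1 ≤ c (i + 1))
    (hc3 : c 3 + r 3 ≤ k + 5) (hc0 : 1 ≤ c 0) {S : Set (List Bool)} (hS : ∀ i, i < 4 → NoCut (c i) (r i) ⊆ S)
    {t : List Bool} (ht : t ∈ WL (k + J)) {m u : ℕ} {e : ℕ → ℕ} (hL : Lf false (k + 7) t m u e)
    (hE : ¬ HasRun false (k + 2) (One S) t)
    (hq : ∀ s, s < N → 6 ≤ q s ∧ 3 * n s * 2 ^ q s ≤ R s ∧ 8 * 2 ^ q s ≤ R s ∧ R s ≤ 2 ^ (k + 6) ∧
      ¬ Irg 6 8 (q s) (n s) t)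
    (hl2 : 2 ≤ l0) (hl0 : l0 + 1 ≤ m) (hJ1 : J1 ≤ l0 + 1) (hJ : 1 ≤ J1)
    {i x j : ℕ} (hli : e (l0 + 1) ≤ i) (hix : i ≤ x) (hxj : x ≤ j) (hj : j ≤ t.length)
    (hnear : vx oo up t i ∈ Bl (vx oo up t j) d) (hx : RR (k + 7) + 3 * d ≤ |lev t x - lev t i|) :
    Cut1 (LastR k J (RJ k (2 ^ (k + J + 2)) J1))
      {s | s ∈ WL (k + J + 1) ∧ Cut3 (NearQ N d (fun s => 2 ^ q s) R)
        {X | X ∈ WL (k + J + 1) ∧ ∃ (m u : ℕ) (e : ℕ → ℕ), Fd (c 0) X m u e ∧ e 0 = 0 ∧ e m = X.length}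
        (FirstF (c 0) (k + J + 1)) (2 ^ (c 0 + r 0)) (2 ^ (c 3 + r 3)) s}
      (2 ^ (c 0 + r 0)) (2 ^ (c 3 + r 3)) t := by
  have hH := HW.of_lf hL
  have hd := lev_sub_ball hnear
  -- the sign
  obtain ⟨s, hs1, hs2⟩ : ∃ s : ℕ, RR (k + 7) ≤ Tight.sg s (lev t x) - Tight.sg s (lev t i) ∧
      RR (k + 7) ≤ Tight.sg s (lev t x) - Tight.sg s (lev t j) := by
    rw [abs_le] at hd
    rcases abs_cases (lev t x - lev t i) with ⟨h1, h2⟩ | ⟨h1, h2⟩
    · refine ⟨1, ?_, ?_⟩
      · rw [Tight.sg_one, Tight.sg_one]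
        omega
      · rw [Tight.sg_one, Tight.sg_one]
        omega
    · refine ⟨0, ?_, ?_⟩
      · rw [Tight.sg_zero, Tight.sg_zero]
        omega
      · rw [Tight.sg_zero, Tight.sg_zero]
        omega
  obtain ⟨l, hlm, hsg, f1, f2, f3⟩ := hH.top hix hxj hj hs1 hs2
  have hp0 : (0 : ℤ) < 2 ^ (k + 5) := by positivity
  have hp1 : (8 : ℤ) ≤ 2 ^ (k + 5) := by
    have : (2 : ℤ) ^ 3 ≤ 2 ^ (k + 5) := pow_le_pow_right₀ (by norm_num) (by omega)
    omega
  have hRRb : RR (k + 7) = 12 * 2 ^ (k + 5) - 2 := by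
    unfold RR
    rw [show k + 7 = k + 5 + 2 by ring, pow_add]
    ring
  have hll : l0 < l := by
    by_contra hn
    have h1 := hH.mono (j := l + 1) (k := l0 + 1) (by omega) hl0
    have h2 : i = e (l + 1) := by omega
    rw [h2] at hs1
    omega
  have hle1 : e (l + 1) ≤ t.length := (hH.mono (by omega) le_rfl).trans hH.le
  have hle0 : e (l0 + 1) ≤ t.length := (hH.mono (by omega) le_rfl).trans hH.le
  have hle2 : e (l0 + 1) ≤ e l := hH.mono (by omega) (by omega)
  -- the windows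
  have w0 := hcr 0 (by norm_num)
  have w1 := hcr 1 (by norm_num)
  have w2 := hcr 2 (by norm_num)
  simp only [Nat.zero_add, Nat.reduceAdd] at w0 w1 w2
  have k1 : 2 * 2 ^ (c 0 + r 0) ≤ 2 ^ c 1 := by
    rw [← pow_succ']
    exact Nat.pow_le_pow_right (by norm_num) w0
  have k2 : 2 * 2 ^ (c 1 + r 1) ≤ 2 ^ c 2 := by
    rw [← pow_succ']
    exact Nat.pow_le_pow_right (by norm_num) w1
  have k3 : 2 * 2 ^ (c 2 + r 2) ≤ 2 ^ c 3 := by
    rw [← pow_succ']
    exact Nat.pow_le_pow_right (by norm_num) w2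
  have k6 : 2 ^ (c 0 + r 0) ≤ 2 ^ (c 1 + r 1) := Nat.pow_le_pow_right (by norm_num) (by omega)
  have k7 : 2 ^ (c 0 + r 0) ≤ 2 ^ (c 2 + r 2) := Nat.pow_le_pow_right (by norm_num) (by omega)
  have k8 : 2 ^ (c 3 + r 3) ≤ 2 ^ (k + 5) := Nat.pow_le_pow_right (by norm_num) hc3
  have k9 : 2 ^ (c 1 + r 1) ≤ 2 ^ (c 3 + r 3) := Nat.pow_le_pow_right (by norm_num) (by omega)
  have k10 : 0 < 2 ^ (c 0 + r 0) := by positivity
  have hRc : RR (c 0) = 3 * 2 ^ (c 0) - 2 := rfl
  have e53 : (2 : ℤ) ^ (k + 2 + 3) = 2 ^ (k + 5) := rfl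
  -- the leaf l0
  obtain ⟨g0, hh0, g01, g02, g03, g04⟩ := leaf_int ht.1 hL hE hl2 (by omega)
  obtain ⟨v0, z0, v01, v02, v03, v04, -, v06⟩ := leaf_cut g01 g02 g03
  obtain ⟨pa, Ha, a1, a2, a3, a4, a5⟩ := v06 (c 0) (r 0) (by omega) (fun h => g04 (hS 0 (by norm_num) h))
  obtain ⟨pb, Hb, b1, b2, b3, b4, b5⟩ := v06 (c 1) (r 1) (by omega) (fun h => g04 (hS 1 (by norm_num) h))
  obtain ⟨D0, hD0⟩ : ∃ D0, D0 = dD false (u + l0) := ⟨_, rfl⟩
  rw [← hD0] at a1 a2 a5 b1 b2 b5
  have hz0 : z0 ≤ t.length := by omega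
  have hba : pb < pa := cut_lt b1 a1 (by omega)
  have hpa : pa < z0 := a1.2.1
  obtain ⟨n0, m0, m0'⟩ := cut_mid ht.1 hz0 b1 a1 hba.le
  -- the leaf l
  obtain ⟨g1, hh1, g11, g12, g13, g14⟩ := leaf_int ht.1 hL hE (l := l) (by omega) hlm
  obtain ⟨v, z, v11, v12, v13, v14, v15, v16⟩ := leaf_cut g11 g12 g13
  obtain ⟨p1, G1, q1, q2, q3, q4, q5⟩ := v16 (c 0) (r 0) (by omega) (fun h => g14 (hS 0 (by norm_num) h))
  obtain ⟨p2, G2, r1, r2, r3, r4, r5⟩ := v16 (c 1) (r 1) (by omega) (fun h => g14 (hS 1 (by norm_num) h))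
  obtain ⟨p3, G3, s1, s2, s3, s4, s5⟩ := v16 (c 2) (r 2) (by omega) (fun h => g14 (hS 2 (by norm_num) h))
  obtain ⟨p4, G4, y1, y2, y3, y4, y5⟩ := v16 (c 3) (r 3) (by omega) (fun h => g14 (hS 3 (by norm_num) h))
  obtain ⟨D, hD⟩ : ∃ D, D = dD false (u + l) := ⟨_, rfl⟩
  rw [← hD] at v15 q1 q2 q5 r1 r2 r5 s1 s2 s5 y1 y2 y5
  have hxD : ∀ k, xD D t k = Tight.sg s (lev t k) := by
    intro k
    rw [hD, xD_lev, hsg]
  have hzl : z ≤ t.length := by omega
  have q12 : p2 < p1 := cut_lt r1 q1 (by omega)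
  have q23 : p3 < p2 := cut_lt s1 r1 (by omega)
  have q34 : p4 < p3 := cut_lt y1 s1 (by omega)
  have hpz : p1 < z := q1.2.1
  obtain ⟨n1, m1, m1'⟩ := cut_mid ht.1 hzl y1 s1 q34.le
  obtain ⟨n2, m2, m2'⟩ := cut_mid ht.1 hzl s1 r1 q23.le
  obtain ⟨n3, m3, m3'⟩ := cut_mid ht.1 hzl r1 q1 q12.le
  have l1 : ((t.drop p4).take (p3 - p4)).length = p3 - p4 := by
    rw [List.length_take, List.length_drop]; omega
  have l2 : ((t.drop p3).take (p2 - p3)).length = p2 - p3 := by
    rw [List.length_take, List.length_drop]; omega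
  have l3 : ((t.drop p2).take (p1 - p2)).length = p1 - p2 := by
    rw [List.length_take, List.length_drop]; omega
  have hn4 : (3 : ℤ) * G4 ≤ 3 * 2 ^ (k + 5) := by
    have h3 : (G4 : ℤ) ≤ ((2 ^ (k + 5) : ℕ) : ℤ) := by exact_mod_cast y4.trans k8
    push_cast at h3
    omega
  have hn1 : (G1 : ℤ) ≤ G4 := by
    have : G1 ≤ G4 := by omega
    exact_mod_cast this
  rw [← hxD, ← hxD] at f3 hs1 hs2
  have hi4 : i ≤ p4 := by
    by_contra hn
    rcases Nat.lt_or_ge z i with h3 | h3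
    · have h4 : i = e (l + 1) := by omega
      rw [h4] at hs1
      omega
    · have h4 := y1.2.2.2.2 i (by omega) h3
      omega
  have hout : ∀ (a b' : ℕ), RR (k + 7) - 3 * 2 ^ (k + 5) - 2 ≤ xD D t a - xD D t b' →
      ∀ w, w < N → vx oo up t a ∉ Bl (vx oo up t b') (R w) := by
    intro a b' hab w hw hmem
    have h1 := lev_sub_ball hmem
    have h2 : ((R w : ℕ) : ℤ) ≤ ((2 ^ (k + 6) : ℕ) : ℤ) := by exact_mod_cast (hq w hw).2.2.2.1
    push_cast at h2
    rw [show k + 6 = k + 5 + 1 by ring, pow_succ] at h2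
    rw [abs_le] at h1
    rw [hxD, hxD] at hab
    unfold Tight.sg at hab
    split_ifs at hab <;> omega
  have hd1 : RR (k + 7) - 3 * 2 ^ (k + 5) - 2 ≤ xD D t p4 - xD D t i := by omega
  have hd2 : RR (k + 7) - 3 * 2 ^ (k + 5) - 2 ≤ xD D t p1 - xD D t j := by omega
  have heq : t = t.take p4 ++ ((t.drop p4).take (p3 - p4) ++ ((t.drop p3).take (p2 - p3) ++
      ((t.drop p2).take (p1 - p2) ++ t.drop p1))) := by
    have e3 : (t.drop p2).take (p1 - p2) ++ t.drop p1 = t.drop p2 := by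
      have := List.take_append_drop (p1 - p2) (t.drop p2)
      rwa [List.drop_drop, Nat.add_sub_cancel' q12.le] at this
    have e2 : (t.drop p3).take (p2 - p3) ++ t.drop p2 = t.drop p3 := by
      have := List.take_append_drop (p2 - p3) (t.drop p3)
      rwa [List.drop_drop, Nat.add_sub_cancel' q23.le] at this
    have e1 : (t.drop p4).take (p3 - p4) ++ t.drop p3 = t.drop p4 := by
      have := List.take_append_drop (p3 - p4) (t.drop p4)
      rwa [List.drop_drop, Nat.add_sub_cancel' q34.le] at this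
    rw [e3, e2, e1, List.take_append_drop]
  -- the two sides of a cut w of the leaf l0
  have hleft : ∀ w, CutAt D0 t (v0 + 1) z0 w → pb ≤ w → t.take w ∈ LastR k J (RJ k (2 ^ (k + J + 2)) J1) := by
    intro w hw hbw
    have h1 := hw.2.2.2.1 pb b1.1 hbw
    rw [hD0] at hw h1 b5
    refine last_take ht hH hl0 hJ1 hJ v01 v03 hw ?_
    omega
  have hright : ∀ w, CutAt D0 t (v0 + 1) z0 w → w ≤ pa → t.drop w ∈
      {s | s ∈ WL (k + J + 1) ∧ Cut3 (NearQ N d (fun s => 2 ^ q s) R)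
        {X | X ∈ WL (k + J + 1) ∧ ∃ (m u : ℕ) (e : ℕ → ℕ), Fd (c 0) X m u e ∧ e 0 = 0 ∧ e m = X.length}
        (FirstF (c 0) (k + J + 1)) (2 ^ (c 0 + r 0)) (2 ^ (c 3 + r 3)) s} := by
    intro w hw hwa
    have h1 := a1.2.2.2.1 w hw.1 hwa
    have hwz : w < z0 := hw.2.1
    have hdx : dx up t w = dD false (u + l0) := by rw [← hD0]; exact hw.2.2.1
    have hwR : RR (c 0) ≤ xD (dD false (u + l0)) t z0 - xD (dD false (u + l0)) t w := by
      rw [← hD0, hRc]
      have h4 : ((2 ^ c 0 : ℕ) : ℤ) ≤ (Ha : ℤ) := by exact_mod_cast a3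
      push_cast at h4
      omega
    have hw4 : w ≤ p4 := by omega
    have l0' : ((t.take p4).drop w).length = p4 - w := by
      rw [List.length_drop, List.length_take]; omega
    have l4 : (t.take p4).length = p4 := by rw [List.length_take]; omega
    refine ⟨drop_WL ht (by omega) hdx, (t.take p4).drop w, (t.drop p4).take (p3 - p4), (t.drop p3).take (p2 - p3),
      (t.drop p2).take (p1 - p2), t.drop p1, n1, n2, n3, ?_, m1, m2, m3, by omega, by omega, by omega, by omega, by omega,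
      by omega, ?_, ?_, ?_⟩
    · conv_lhs => rw [heq]
      rw [List.drop_append_of_le_length (by omega)]
    · intro A B hA hB hAB
      obtain ⟨e1, e2, e3, e4, e5⟩ := cut_inner hzl y1 s1 q34.le hA hB hAB
      have e6 : (t.take p4).drop w ++ A = (t.take (p4 + A.length)).drop w := by
        rw [e4, List.drop_append_of_le_length (by omega)]
      rw [e6]
      have h5 : (t.take (p4 + A.length)).drop w ∈ TopE (k + 5) (k + J + 1) := by
        rw [hD] at e1
        refine mid_top ht (by omega) hzl e1 ?_ (by omega) hdx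
        have h6 : RR (k + 5) = 3 * 2 ^ (k + 5) - 2 := rfl
        rw [← hD, h6]
        omega
      have h6 : (t.take (p4 + A.length)).drop w ∈ BotS (c 0) (k + J + 1) := by
        rw [hD0] at hw
        exact mid_bot ht hw hwR (by omega) (by omega)
      exact ⟨h5.1, topE_botS hc0 (topE_mono (by omega) le_rfl h5) h6⟩
    · intro A B hA hB hAB
      obtain ⟨e1, e2, e3, e4, e5⟩ := cut_inner hzl r1 q1 q12.le hA hB hAB
      rw [← e5]
      have h3 := q1.2.2.2.1 (p2 + A.length) e1.1 e2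
      rw [hD] at e1
      refine botS_sub hc0 (bot_mem ht hzl e1 ?_)
      rw [← hD, hRc]
      have h4 : ((2 ^ c 0 : ℕ) : ℤ) ≤ (G1 : ℤ) := by exact_mod_cast q3
      push_cast at h4
      omega
    · have hlen : (t.drop w).length = t.length - w := List.length_drop
      have ea : ∀ y, w ≤ y → w + (y - w) = y := fun y hy => by omega
      refine ⟨i - w, p4 - w, p1 - w, j - w, by omega, by omega, by omega, by omega, by omega, ?_, ?_, ?_, ?_⟩
      · rw [ball_drop hdx, ea i (by omega), ea j (by omega)]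
        exact hnear
      · intro w' hw'
        rw [ball_drop hdx, ea p4 (by omega), ea i (by omega)]
        exact hout _ _ hd1 w' hw'
      · intro w' hw'
        rw [ball_drop hdx, ea p1 (by omega), ea j (by omega)]
        exact hout _ _ hd2 w' hw'
      · intro w' hw'
        obtain ⟨c1, c2, c3, c4, c5⟩ := hq w' hw'
        refine good_of_irg c1 c2 c3 (fun hI => c5 (irg_drop (by omega) hdx hI)) (z := p4 - w) (by omega) ?_ le_rfl
          (by omega)
        rw [ball_drop hdx, ea p4 (by omega), ea i (by omega)]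
        exact hout _ _ hd1 w' hw'
  refine ⟨t.take pb, (t.drop pb).take (pa - pb), t.drop pa, n0, ?_, m0, by omega, by omega, ?_, ?_⟩
  · have e1 : (t.drop pb).take (pa - pb) ++ t.drop pa = t.drop pb := by
      have := List.take_append_drop (pa - pb) (t.drop pb)
      rwa [List.drop_drop, Nat.add_sub_cancel' hba.le] at this
    rw [e1, List.take_append_drop]
  · intro A B hA hB hAB
    obtain ⟨e1, e2, e3, e4, e5⟩ := cut_inner hz0 b1 a1 hba.le hA hB hAB
    rw [← e4]
    exact hleft _ e1 (by omega)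
  · intro A B hA hB hAB
    obtain ⟨e1, e2, e3, e4, e5⟩ := cut_inner hz0 b1 a1 hba.le hA hB hAB
    rw [← e5]
    exact hright _ e1 e2

end SIM

end HexObs
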