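import Pool.Agent.SIM.EvXDefs
import Pool.Agent.SIM.RegDefs

/-!
SIM, exactly n letters: a marked run inside a word with many interior leaves has J1 leaves before or behind it.
-/

set_option autoImplicit false

namespace HexObs

namespace SIM

open Finset TS SDN NTW NTA

open scoped ENNReal

variable {d : Fin 3} {kc K J1 m u l c : ℕ} {R : Set (List (List Bool))} {t : List Bool} {e : ℕ → ℕ}

lemma lws_add (t : List Bool) (e : ℕ → ℕ) (l a b : ℕ) : lws t e l (a + b) = lws t e l a ++ lws t e (l + a) b := by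
  unfold lws
  rw [List.range_add, List.map_append, List.map_map]
  congr 1
  refine List.map_congr_left fun i _ => ?_
  simp only [Function.comp_apply]
  rw [show l + (a + i) = l + a + i by ring]

lemma lws_ne {a : ℕ} (ha : 1 ≤ a) : lws t e l a ≠ [] := by
  intro h
  have := congrArg List.length h
  rw [PE.lws_length, List.length_nil] at this
  omega

/-- the interior leaves of a word of the box -/
lemma lws_RJ {a : ℕ} (ht : t ∈ WL K) (hK : kc + 2 ≤ K) (hF : Lf (EN.dr d) (kc + 5) (EN.wd d t) m u e) (hl : 1 ≤ l)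
    (hm : l + a + 1 ≤ m) : lws (EN.wd d t) e l a ∈ EN.RJ kc (2 ^ (K + 3)) a := by
  have hb := EN.Bx_wd (bx_all ht) d
  obtain ⟨μ, rfl⟩ : ∃ μ, K = kc + 2 + μ := ⟨K - (kc + 2), by omega⟩
  rw [show kc + 2 + μ + 2 + 1 = kc + 5 + μ by ring] at hb
  have hle : e m ≤ (EN.wd d t).length := by
    have h := hF
    unfold Lf at h
    exact h.le
  have hle2 : e (l + a) ≤ t.length := by
    rw [EN.wd_length] at hle
    exact (lf_mono hF (by omega) (by omega)).trans hle
  refine ⟨PE.lws_length _ _ _ _, fun g hg => ?_⟩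
  have := run_box (EN.wd_SA d ht.1) hF hb (Nat.zero_le _) hle2 hl hm g hg
  rwa [show kc + 2 + μ + 3 = kc + 5 + μ by ring]

/-- **a run with J1 leaves before or behind it** -/
theorem hr_adj (ht : t ∈ WL K) (hK : kc + 2 ≤ K) (hJ : 1 ≤ J1) (hF : Lf (EN.dr d) (kc + 5) (EN.wd d t) m u e)
    (hl : 2 ≤ l) (hc : 1 ≤ c) (hm : l + c + 1 ≤ m) (hR : lws (EN.wd d t) e l c ∈ R)
    (hbig : J1 + 2 ≤ l ∨ l + c + J1 + 1 ≤ m) : EN.HR d kc (Adj kc (2 ^ (K + 3)) J1 R) t := by
  rcases hbig with h | h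
  · refine ⟨m, u, e, hF, l - J1, J1 + c, by omega, by omega, by omega, Or.inl ⟨_, lws_RJ ht hK hF (l := l - J1) (a := J1)
      (by omega) (by omega), _, hR, lws_ne hJ, lws_ne hc, ?_⟩⟩
    rw [lws_add, show l - J1 + J1 = l by omega]
  · refine ⟨m, u, e, hF, l, c + J1, hl, by omega, by omega, Or.inr ⟨_, hR, _, lws_RJ ht hK hF (l := l + c) (a := J1)
      (by omega) (by omega), lws_ne hc, lws_ne hJ, ?_⟩⟩
    rw [lws_add]

/-- a short run in a word with many leaves -/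
theorem hr_adj_short (ht : t ∈ WL K) (hK : kc + 2 ≤ K) (hJ : 1 ≤ J1) (hF : Lf (EN.dr d) (kc + 5) (EN.wd d t) m u e)
    (hl : 2 ≤ l) (hc : 1 ≤ c) (hm : l + c + 1 ≤ m) (hR : lws (EN.wd d t) e l c ∈ R) (hbig : c + 2 * J1 + 3 ≤ m) :
    EN.HR d kc (Adj kc (2 ^ (K + 3)) J1 R) t :=
  hr_adj ht hK hJ hF hl hc hm hR (by omega)

lemma runB_half {k s V : ℕ} {S : Set (List Bool)} {a b : List (List Bool)} (ha : a ≠ []) (hb : b ≠ [])
    (h : a ++ b ∈ RunB k s S V) : a ∈ RunB k s S (V / 2) ∨ b ∈ RunB k s S (V / 2) := by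
  obtain ⟨h1, h2, h3⟩ := h
  rw [List.map_append, List.sum_append] at h3
  rcases le_total ((b.map fun g => hgt g / 2 ^ (k + s) + 1).sum) ((a.map fun g => hgt g / 2 ^ (k + s) + 1).sum) with h4 | h4
  · exact Or.inl ⟨ha, fun g hg => h2 g (List.mem_append_left _ hg), by omega⟩
  · exact Or.inr ⟨hb, fun g hg => h2 g (List.mem_append_right _ hg), by omega⟩

lemma runB_le {k s V V' : ℕ} {S : Set (List Bool)} (h : V ≤ V') : RunB k s S V' ⊆ RunB k s S V :=
  fun _ hgs => ⟨hgs.1, hgs.2.1, h.trans hgs.2.2⟩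

/-- **a run of bad leaves in a word with many leaves** -/
theorem hr_adj_runB {s V : ℕ} {S : Set (List Bool)} (ht : t ∈ WL K) (hK : kc + 2 ≤ K) (hJ : 1 ≤ J1)
    (hF : Lf (EN.dr d) (kc + 5) (EN.wd d t) m u e) (hl : 2 ≤ l) (hc : 1 ≤ c) (hm : l + c + 1 ≤ m)
    (hR : lws (EN.wd d t) e l c ∈ RunB kc s S V) (hbig : 4 * J1 + 3 ≤ m) :
    EN.HR d kc (Adj kc (2 ^ (K + 3)) J1 (RunB kc s S (V / 2))) t := by
  rcases Nat.lt_or_ge c (2 * J1) with h | h
  · exact hr_adj_short ht hK hJ hF hl hc hm (runB_le (Nat.div_le_self _ _) hR) (by omega)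
  · obtain ⟨b, rfl⟩ : ∃ b, c = J1 + b := ⟨c - J1, by omega⟩
    rw [lws_add] at hR
    rcases runB_half (lws_ne hJ) (lws_ne (by omega)) hR with h1 | h1
    · exact hr_adj ht hK hJ hF hl hJ (by omega) h1 (Or.inr (by omega))
    · exact hr_adj ht hK hJ hF (by omega) (by omega) (by omega) h1 (Or.inl (by omega))

end SIM

end HexObs
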