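import Pool.Agent.SIM.EvXDefs
import Pool.Agent.EN.EspB
import Pool.Agent.EN.ExDir
import Pool.Agent.EN.GBM

/-!
SIM, exactly n letters: the event theorem for the runs with J1 leaves before or behind them.
-/

set_option autoImplicit false

namespace HexObs

namespace SIM

open Finset TS SDN NTW NTA

open scoped ENNReal

lemma inH_RJ {kc N J : ℕ} : EN.InH (2 ^ (kc + 4)) (EN.RJ kc N J) := fun _ hgs g hg => EN.inH_box (hgs.2 g hg)

/-- the exact norm of the runs with J0 + 2 leaves before or behind them -/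
lemma smRX_adj {m : ℕ → ℝ} {J0 k0 : ℕ} {C : ℝ} (hm : ∀ k, 0 < m k) (hC : 1 ≤ C) (hG : ∀ k, k0 ≤ k → ∀ mu : ℕ,
    EN.GB DmJ k (BrR (2 ^ (k + 4)) (2 ^ (k + mu + 2))) J0 (C ^ (mu + 1) / m k)) {K : ℝ} (hK : 1 ≤ K)
    (hbox : ∀ kc mu : ℕ, SmD DmJ kc (BrR (2 ^ (kc + 4)) (2 ^ (kc + mu + 2))) (K * 2 ^ mu)) {kc mu : ℕ}
    {R : Set (List (List Bool))} {δ : ℝ} (hk : k0 ≤ kc) (hδ : 0 ≤ δ) (hR : EN.InH (2 ^ (kc + 4)) R)
    (hS : SmR DmJ kc R δ) :
    EN.SmRX DmJ kc (Adj kc (2 ^ (kc + mu + 2)) (J0 + 2) R)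
      (2 * ((4 * (K * 2 ^ mu)) ^ (J0 + 2) * (C ^ (mu + 1) / m kc) * δ)) := by
  have hmk := hm kc
  have hC0 : 0 < C := by linarith
  have hK0 : 0 < K := by linarith
  have hX := (EN.smRX_RJ hG hK hbox (s := kc) (mu := mu) (n := 0) (H := 0) (ε := K * 2 ^ mu) hk (by positivity)
    (QF.SmD_mono (fun g hg => hg.1) (hbox kc mu))).1
  have h0 : 0 ≤ (4 * (K * 2 ^ mu)) ^ (J0 + 2) * (C ^ (mu + 1) / m kc) := by positivity
  have h1 := EN.smRX_right dmP inH_RJ hR h0 hδ hX hS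
  have h2 := EN.smRX_left dmP hR inH_RJ hδ h0 hS hX
  exact (EN.smRX_union (by positivity) (by positivity) h1 h2).le (by linarith)

theorem evAX_of {m : ℕ → ℝ} (hm : ∀ k, 0 < m k) (hG : EN.GBU m) : EvAX m := by
  obtain ⟨J0, C, k0, hC, hG⟩ := hG
  obtain ⟨K, hK, hbox⟩ := EN.smD_box
  obtain ⟨C1, k1, hC1, hrun⟩ := EN.runXn
  obtain ⟨D, hD, hDX⟩ := Xb_pow
  have hC0 : 0 < C := by linarith
  have hC10 : 0 < C1 := by linarith
  have hK0 : 0 < K := by linarith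
  have hD0 : 0 < D := by linarith
  obtain ⟨E, hE⟩ : ∃ E : ℝ, E = C1 ^ 2 * (2 * ((8 * K) ^ (J0 + 2) * C ^ 2)) * 4 * D ^ 4 := ⟨_, rfl⟩
  have hE1 : 1 ≤ E := by
    have h1 : 1 ≤ C1 ^ 2 := one_le_pow₀ hC1
    have h2 : 1 ≤ D ^ 4 := one_le_pow₀ hD
    have h3 : 1 ≤ C ^ 2 := one_le_pow₀ hC
    have h4 : 1 ≤ (8 * K) ^ (J0 + 2) := one_le_pow₀ (by linarith)
    rw [hE]
    have h5 : 1 ≤ (8 * K) ^ (J0 + 2) * C ^ 2 := one_le_mul_of_one_le_of_one_le h4 h3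
    have h6 : 1 ≤ 2 * ((8 * K) ^ (J0 + 2) * C ^ 2) := by linarith
    have h7 : 1 ≤ C1 ^ 2 * (2 * ((8 * K) ^ (J0 + 2) * C ^ 2)) := one_le_mul_of_one_le_of_one_le h1 h6
    exact one_le_mul_of_one_le_of_one_le (by linarith) h2
  obtain ⟨Y, hY⟩ : ∃ Y : ℝ, Y = C1 * 2 ^ (J0 + 2) * C := ⟨_, rfl⟩
  have hY1 : 1 ≤ Y := by
    rw [hY]
    exact one_le_mul_of_one_le_of_one_le (one_le_mul_of_one_le_of_one_le hC1 (one_le_pow₀ (by norm_num))) hC
  refine ⟨E * Y, max k0 k1, J0 + 2, one_le_mul_of_one_le_of_one_le hE1 hY1, by omega,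
    fun d kc J n R δ hk hJ hδ hR hS => ?_⟩
  have hmk := hm kc
  have hU := Ub_pos (kc + J)
  have hN := smRX_adj hm hC hG hK hbox (kc := kc) (mu := J + 1) (le_trans (le_max_left _ _) hk) hδ.le hR hS
  rw [show kc + (J + 1) + 2 = kc + J + 3 by ring] at hN
  obtain ⟨d', hd'⟩ : ∃ d' : ℝ, d' = 2 * ((4 * (K * 2 ^ (J + 1))) ^ (J0 + 2) * (C ^ (J + 1 + 1) / m kc) * δ) := ⟨_, rfl⟩
  rw [← hd'] at hN
  have hd'0 : 0 < d' := by
    rw [hd']
    positivity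
  have h1 := hrun (EN.dr d) kc (J + 2) n _ d' (le_trans (le_max_right _ _) hk) (by omega) hd'0 hN
  have h2 := EN.gf_HR d kc (kc + J) (Adj kc (2 ^ (kc + J + 3)) (J0 + 2) R) (fun l => l = n)
  have h3 : gf {t | t.length = n ∧ t ∈ WL (kc + J) ∧ EN.HR d kc (Adj kc (2 ^ (kc + J + 3)) (J0 + 2) R) t} ≤
      gf {t | t.length = n ∧ t ∈ ERL (EN.dr d) kc (kc + (J + 2)) (Adj kc (2 ^ (kc + J + 3)) (J0 + 2) R)} := by
    refine h2.trans (gf_mono ?_)
    rintro t ⟨h3, h4, h5⟩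
    exact ⟨h3, h4, h5⟩
  have hUb : Ub (kc + (J + 2)) ≤ 4 * Ub (kc + J) := by
    have := Sc.Ub_shift (kc + J) 2
    rw [show kc + (J + 2) = kc + J + 2 by ring]
    have h4 : ((2 : ℝ) ^ 2) = 4 := by norm_num
    rwa [h4] at this
  refine (h3.trans h1).trans ?_
  calc ENNReal.ofReal (C1 ^ (J + 2) * d' * Ub (kc + (J + 2))) * Xb (kc + (J + 2)) ^ 2
      ≤ ENNReal.ofReal (C1 ^ (J + 2) * d' * (4 * Ub (kc + J))) * (ENNReal.ofReal (D ^ 2) * Xb (kc + J)) ^ 2 := by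
        refine mul_le_mul' (ENNReal.ofReal_le_ofReal ?_) (pow_le_pow_left' ?_ 2)
        · exact mul_le_mul_of_nonneg_left hUb (by positivity)
        · have := hDX (kc + J) 2
          rwa [show kc + J + 2 = kc + (J + 2) by ring] at this
    _ = ENNReal.ofReal (E * Y ^ J * δ * (Ub (kc + J) / m kc)) * Xb (kc + J) ^ 2 := by
        rw [mul_pow, ← ENNReal.ofReal_pow (by positivity), ← mul_assoc, ← ENNReal.ofReal_mul (by positivity)]
        congr 2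
        rw [hd', hE, hY, show 4 * (K * (2 : ℝ) ^ (J + 1)) = 8 * K * 2 ^ J by ring, mul_pow (8 * K), ← pow_mul,
          mul_pow (C1 * 2 ^ (J0 + 2)), mul_pow C1, ← pow_mul 2 (J0 + 2) J, mul_comm (J0 + 2) J]
        ring
    _ ≤ _ := by
        refine mul_le_mul_left (ENNReal.ofReal_le_ofReal ?_) _
        have e1 : E ≤ E ^ J := by
          calc E = E ^ 1 := by rw [pow_one]
            _ ≤ E ^ J := pow_le_pow_right₀ hE1 (by omega)
        rw [mul_pow]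
        have hq : 0 ≤ Ub (kc + J) / m kc := by positivity
        have hYJ : 0 ≤ Y ^ J := by positivity
        gcongr

/-- **the event theorem at exactly n letters for the classes Adj, the scale of mZ** -/
theorem evAX : EvAX (fun k => PW.mZ (2 ^ k)) := evAX_of (fun _ => PW.mZ_pos Nat.one_le_two_pow) EN.gbu_M

end SIM

end HexObs
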