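import Pool.Agent.SIM.NoCutEv
import Pool.Agent.SIM.EvX
import Pool.Agent.SIM.AdjG

/-!
SIM, exactly n letters: the leaves without a cut in one of M windows below the top.
-/

set_option autoImplicit false

namespace HexObs

namespace SIM

open Finset TS SDN NTW NTA

open scoped ENNReal

/-- the leaves of the box without a cut in one of the M windows -/
def NcS (kc J M : ℕ) (d : ℕ → ℕ) : Set (List Bool) :=
  {g | g ∈ BrR (2 ^ (kc + 4)) (2 ^ (kc + J + 3)) ∧ ∃ i, i < M ∧ g ∈ NoCut (kc - d (i + 1)) (d (i + 1) - d i - 1)}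

/-- **the norm of the class without a cut in one of the M windows** -/
theorem nocut_norm (M : ℕ) (hM : 1 ≤ M) (J : ℕ) {ε : ℝ} (hε : 0 < ε) : ∃ (d : ℕ → ℕ) (k0 : ℕ), d 0 = 0 ∧
    (∀ i, d i + 4 ≤ d (i + 1)) ∧ d M ≤ k0 ∧ ∀ kc, k0 ≤ kc → SmD DmJ kc (NcS kc J M d) ε := by
  obtain ⟨K, c, hK, hc, hW⟩ := tail_win
  have hMr : (0 : ℝ) < M := by exact_mod_cast hM
  obtain ⟨δ, hδd⟩ : ∃ δ : ℝ, δ = ε / M := ⟨_, rfl⟩
  have hδ : 0 < δ := by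
    rw [hδd]
    positivity
  obtain ⟨d, h0, hd⟩ := depth_exists (X := K * (1 + 2 ^ (J + 3)) ^ 2) hc hδ
  have hmon : ∀ i j, i ≤ j → d i ≤ d j := by
    intro i j hij
    induction j, hij using Nat.le_induction with
    | base => exact le_rfl
    | succ j _ ih =>
      have := (hd j).1
      omega
  refine ⟨d, d M, h0, fun i => (hd i).1, le_rfl, fun kc hk => ?_⟩
  have hUk := Ub_pos kc
  have hUN : UU (2 ^ (kc + J + 3)) / Ub kc ≤ 2 ^ (J + 3) := by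
    rw [div_le_iff₀ hUk, show kc + J + 3 = kc + (J + 3) by omega]
    exact Ub_add kc (J + 3)
  have hUN0 : 0 ≤ UU (2 ^ (kc + J + 3)) / Ub kc := div_nonneg (Num2Aux.UU_pos _).le hUk.le
  have hone : ∀ i, i < M → SmD DmJ kc
      {g | g ∈ BrR (2 ^ (kc + 4)) (2 ^ (kc + J + 3)) ∧ g ∈ NoCut (kc - d (i + 1)) (d (i + 1) - d i - 1)} δ := by
    intro i hi
    have h1 := (hd i).1
    have h2 := hmon (i + 1) M hi
    have h3 : kc - d (i + 1) + (d (i + 1) - d i - 1) = kc - d i - 1 := by omega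
    refine LQ.SmD_le ?_ (QF.SmD_mono ?_ (hW kc (2 ^ (kc + J + 3)) (kc - d (i + 1)) (d (i + 1) - d i - 1)
      (by omega) (by omega)))
    · rw [h3, show kc - (kc - d i - 1) = d i + 1 by omega]
      refine le_trans ?_ (hd i).2
      gcongr
    · rintro g ⟨hg, hn⟩
      exact ⟨hg, Or.inl (noCut_sub hn)⟩
  have hall := LQ.SmD_sum M (fun i => {g | g ∈ BrR (2 ^ (kc + 4)) (2 ^ (kc + J + 3)) ∧
    g ∈ NoCut (kc - d (i + 1)) (d (i + 1) - d i - 1)}) (fun _ => δ) (fun i _ => hδ.le) hone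
  rw [Finset.sum_const, Finset.card_range, nsmul_eq_mul] at hall
  refine LQ.SmD_le (le_of_eq ?_) (QF.SmD_mono ?_ hall)
  · rw [hδd]
    field_simp
  · rintro g ⟨hg, i, hi, hn⟩
    exact ⟨i, hi, hg, hn⟩

/-- **exactly n letters: leaves of a small class next to J1 leaves** -/
theorem oneX_of {m : ℕ → ℝ} (hE : EvAX m) : ∃ (C : ℝ) (k0 J1 : ℕ), 1 ≤ C ∧ 1 ≤ J1 ∧
    ∀ (d : Fin 3) (kc J n : ℕ) (S : Set (List Bool)) (δ : ℝ), k0 ≤ kc → 6 ≤ J → 0 < δ → S ⊆ HB (2 ^ (kc + 4)) →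
      SmD DmJ kc S δ → gf {t | t.length = n ∧ t ∈ WL (kc + J) ∧ EN.HR d kc (Adj kc (2 ^ (kc + J + 3)) J1 (EN.One S)) t} ≤
        ENNReal.ofReal (C ^ J * δ * (Ub (kc + J) / m kc)) * Xb (kc + J) ^ 2 := by
  obtain ⟨C, k0, J1, hC, hJ1, h⟩ := hE
  refine ⟨C, k0, J1, hC, hJ1, fun d kc J n S δ hk hJ hδ hS hn => h d kc J n _ δ hk hJ hδ ?_ (smR_single hn)⟩
  rintro gs ⟨g, hg, rfl⟩ g' hg'
  rw [List.mem_singleton] at hg'
  rw [hg']
  exact hS hg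

/-- **exactly n letters: the leaves without a cut in one of the M windows, next to J1 leaves** -/
theorem nocut_evX {m : ℕ → ℝ} (hE : EvAX m) : ∃ J1 : ℕ, 1 ≤ J1 ∧ ∀ M, 1 ≤ M → ∀ J, 6 ≤ J → ∀ ε : ℝ, 0 < ε →
    ∃ (d : ℕ → ℕ) (k0 : ℕ), d 0 = 0 ∧ (∀ i, d i + 4 ≤ d (i + 1)) ∧ d M ≤ k0 ∧ ∀ (r : Fin 3) (kc n : ℕ), k0 ≤ kc →
    gf {t | t.length = n ∧ t ∈ WL (kc + J) ∧
      EN.HR r kc (Adj kc (2 ^ (kc + J + 3)) J1 (EN.One (NcS kc J M d))) t} ≤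
      ENNReal.ofReal (ε * (Ub (kc + J) / m kc)) * Xb (kc + J) ^ 2 := by
  obtain ⟨C, k1, J1, hC, hJ1, h⟩ := oneX_of hE
  have hC0 : 0 < C := by linarith
  refine ⟨J1, hJ1, fun M hM J hJ ε hε => ?_⟩
  have hδ : 0 < ε / C ^ J := by positivity
  obtain ⟨d, k0, h0, hd, hdM, hn⟩ := nocut_norm M hM J hδ
  refine ⟨d, max k0 k1, h0, hd, hdM.trans (le_max_left _ _), fun r kc n hk => ?_⟩
  refine (h r kc J n (NcS kc J M d) (ε / C ^ J) ((le_max_right _ _).trans hk) hJ hδ ?_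
    (hn kc ((le_max_left _ _).trans hk))).trans (le_of_eq ?_)
  · rintro g ⟨⟨hh, h1, -, h2⟩, -⟩
    exact ⟨hh, h1, h2⟩
  · congr 3
    field_simp

end SIM

end HexObs
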