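import Pool.Agent.SIM.AdjG
import Pool.Agent.SIM.NoCutX
import Pool.Agent.SIM.AltFolds
import Pool.Agent.SIM.HumpDefs
import Pool.Agent.SIM.Hump
import Pool.Agent.SIM.NearCut1
import Pool.Agent.SIM.MidM

/-!
SIM, exactly n letters: off the events every interior leaf has its cuts.
-/

set_option autoImplicit false

namespace HexObs

namespace SIM

open Finset TS SDN NTW NTA

open scoped ENNReal

variable {kc J J1 M i : ℕ} {d : ℕ → ℕ} {t : List Bool}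

/-- the folds of the scale kc + 5 in the times 0, ..., i -/
lemma many_folds (hA : Many t i M (RR (kc + 5))) (hi : i ≤ t.length) {dir : Bool} {m u : ℕ} {e : ℕ → ℕ}
    (hF : Lf dir (kc + 5) t m u e) : M / 2 ≤ m + 1 ∧ ∀ p, p < M / 2 → e p ≤ i := alt_folds hF le_rfl hi (hA dir)

/-- **every interior leaf has its cuts** -/
theorem no_one (ht : t ∈ WL (kc + J)) (hJ : 2 ≤ J) (hJ1 : 1 ≤ J1) (hA : Many t i M (RR (kc + 5))) (hi : i ≤ t.length)
    (hM : 4 * J1 + 10 ≤ M) (hE : ¬ EN.HR 0 kc (Adj kc (2 ^ (kc + J + 3)) J1 (EN.One (NcS kc J 4 d))) t) :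
    ¬ HasRun false kc (EN.One {g | ∃ a, a < 4 ∧ g ∈ NoCut (kc - d (a + 1)) (d (a + 1) - d a - 1)}) t := by
  rintro ⟨m, u, e, hF, l, c, h1, h2, h3, g, hg, hgs⟩
  have hc : c = 1 := by
    have := congrArg List.length hgs
    rwa [PE.lws_length, List.length_singleton] at this
  subst hc
  have hm := (many_folds hA hi hF).1
  have hF' : Lf (EN.dr 0) (kc + 5) (EN.wd 0 t) m u e := hF
  have h4 := lws_RJ ht (by omega) hF' (l := l) (a := 1) (by omega) (by omega)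
  have h5 : g ∈ BrR (2 ^ (kc + 4)) (2 ^ (kc + J + 3)) := by
    refine h4.2 g ?_
    have h6 : lws (EN.wd 0 t) e l 1 = [g] := hgs
    rw [h6]
    exact List.mem_singleton.2 rfl
  exact hE (hr_adj_short ht (by omega) hJ1 hF' h1 le_rfl h3 ⟨g, ⟨h5, hg⟩, hgs⟩ (by omega))

/-- a hump in the direction false, from a displacement in any direction -/
theorem hump_ex {t : List Bool} {r0 n0 k dd i l j : ℕ} (hr : ¬ Irg 6 8 r0 n0 t)
    (hr0 : RR (k + 7) + 3 * dd ≤ 5 * 2 ^ r0) (hn0 : 5 * 2 ^ r0 ≤ 3 * ((n0 : ℤ) * 2 ^ r0)) (hil : i ≤ l) (hlj : l ≤ j)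
    (hj : j ≤ t.length) (h : ∃ dir, 3 * ((n0 : ℤ) * 2 ^ r0) ≤ |lp dir t l - lp dir t i|) :
    ∃ x, i ≤ x ∧ x ≤ j ∧ RR (k + 7) + 3 * dd ≤ |lev t x - lev t i| := by
  obtain ⟨x, h1, h2, h3⟩ := hump_false hr hil (hlj.trans hj) h hn0
  exact ⟨x, h1, h2.trans hlj, hr0.trans h3⟩

/-- **the geometric half of HumpX** -/
theorem hump_cut1 {k J N dd J1 Ja M i j : ℕ} {d q n R : ℕ → ℕ} {t : List Bool} (hd0 : d 0 = 0)
    (hd : ∀ a, d a + 4 ≤ d (a + 1)) (hd4 : d 4 ≤ k + 1) (ht : t ∈ WL (k + 2 + J)) (hJ : 2 ≤ J)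
    (hA : Many t i M (RR (k + 7))) (hJa : 1 ≤ Ja) (hMa : 4 * Ja + 10 ≤ M) (hJ1 : 1 ≤ J1) (hM1 : 2 * J1 + 10 ≤ M)
    (hE : ¬ EN.HR 0 (k + 2) (Adj (k + 2) (2 ^ (k + 2 + J + 3)) Ja (EN.One (NcS (k + 2) J 4 d))) t)
    (hq : ∀ s, s < N → 6 ≤ q s ∧ 3 * n s * 2 ^ q s ≤ R s ∧ 8 * 2 ^ q s ≤ R s ∧ R s ≤ 2 ^ (k + 6) ∧
      ¬ Irg 6 8 (q s) (n s) t) (hij : i ≤ j) (hj : j ≤ t.length) (hnear : vx oo up t i ∈ Bl (vx oo up t j) dd)
    (hx : ∃ x, i ≤ x ∧ x ≤ j ∧ RR (k + 7) + 3 * dd ≤ |lev t x - lev t i|) :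
    Cut1 (LastR k (J + 2) (EN.RJ k (2 ^ (k + J + 4)) J1)) {s | s ∈ WL (k + J + 3) ∧
      Cut3 (NearQ N dd (fun s => 2 ^ q s) R) (TwoF (k + 2 - d 4) (k + J + 3)) (FirstF (k + 2 - d 4) (k + J + 3))
        (2 ^ (k + 1 - d 3)) (2 ^ (k + 1)) s} (2 ^ (k + 1 - d 3)) (2 ^ (k + 1)) t := by
  have hi : i ≤ t.length := hij.trans hj
  have hA' : Many t i M (RR (k + 2 + 5)) := hA
  have h1 := no_one ht hJ hJa hA' hi hMa hE
  obtain ⟨m, u, e, hF⟩ := lf_exists false (k + 2 + 5) t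
  obtain ⟨f1, f2⟩ := many_folds hA' hi hF
  obtain ⟨x, x1, x2, x3⟩ := hx
  have d0 := hd 0
  have d1 := hd 1
  have d2 := hd 2
  have d3 := hd 3
  simp only [Nat.zero_add, Nat.reduceAdd] at d0 d1 d2 d3
  have key := near_cut1 (k := k) (J := J + 2) (N := N) (d := dd) (J1 := J1) (l0 := M / 2 - 2)
    (c := fun a => k + 2 - d (4 - a)) (r := fun a => d (4 - a) - d (3 - a) - 1) (q := q) (n := n) (R := R)
    (fun a ha => by
      rcases (by omega : a = 0 ∨ a = 1 ∨ a = 2) with rfl | rfl | rfl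
      · simp only [Nat.sub_zero, Nat.zero_add, Nat.reduceSub]
        omega
      · simp only [Nat.reduceAdd, Nat.reduceSub]
        omega
      · simp only [Nat.reduceAdd, Nat.reduceSub]
        omega)
    (by
      simp only [Nat.reduceSub]
      omega)
    (by
      simp only [Nat.sub_zero]
      omega)
    (S := {g | ∃ a, a < 4 ∧ g ∈ NoCut (k + 2 - d (a + 1)) (d (a + 1) - d a - 1)})
    (fun a ha g hg => by
      refine ⟨3 - a, by omega, ?_⟩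
      rw [show 3 - a + 1 = 4 - a by omega]
      exact hg)
    (t := t) (by rwa [show k + (J + 2) = k + 2 + J by ring]) hF h1 hq (by omega) (by omega) (by omega) hJ1
    (f2 _ (by omega)) x1 x2 hj hnear x3
  simp only [Nat.sub_zero, Nat.reduceSub] at key
  rw [show k + 2 - d 4 + (d 4 - d 3 - 1) = k + 1 - d 3 by omega, show k + 2 - d 1 + (d 1 - d 0 - 1) = k + 1 by omega,
    show k + (J + 2) + 2 = k + J + 4 by ring, show k + (J + 2) + 1 = k + J + 3 by ring] at key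
  exact key

end SIM

end HexObs
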