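import Pool.Agent.SIM.RareW
import Pool.Agent.SIM.RegDefs

/-!
SIM (5)(C): free bridges without the shape alpha or without the shape beta are rare.
-/

set_option autoImplicit false

namespace HexObs

namespace SIM

open Finset TS RP

open scoped ENNReal

namespace FreeSA

lemma lev_bd {t : ℕ} {G : List Bool} (hG : G ∈ Brd t) {i : ℕ} (hi : i ≤ G.length) : 0 ≤ lev G i ∧ lev G i ≤ 3 * t := by
  rcases Nat.eq_zero_or_pos i with rfl | h
  · rw [lev_zero]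
    exact ⟨le_rfl, by positivity⟩
  · have h1 := (mem_Brd.1 hG).1 i h hi
    exact ⟨by omega, h1.2⟩

lemma tub_PA {A : ℤ} (hA : 0 < A) {r : ℕ} (hr : 2 ≤ r) {G : List Bool} (hG : G ∈ Tub 0 (1 / 12) (2 ^ r)) : G ∉ PA A r := by
  obtain ⟨t, h1, h2, hB, h3, h4, h5⟩ := hG
  intro h
  refine h 0 G.length le_rfl ⟨Nat.zero_le _, ?_, ?_⟩
  · rw [lev_zero, (mem_Brd.1 hB).2.2.2, sub_zero, abs_of_nonneg (by positivity)]
    have : ((2 * 2 ^ r : ℕ) : ℤ) ≤ t := by exact_mod_cast h1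
    push_cast at this
    linarith
  · intro i j _ hi _ hj
    have hi' := h5 i hi
    have hj' := h5 j hj
    have hρ : (4 : ℝ) ≤ 2 ^ r := by
      calc (4 : ℝ) = 2 ^ 2 := by norm_num
        _ ≤ 2 ^ r := pow_le_pow_right₀ (by norm_num) hr
    have ht : (t : ℝ) ≤ 3 * 2 ^ r := by exact_mod_cast h2
    have hE : 4 * (latE G : ℝ) ≤ 2 ^ r + 4 := by
      have h6 : 4 * latE G ≤ (2 ^ r : ℤ) + 4 := by
        push_cast at h4
        linarith
      exact_mod_cast h6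
    have hA' : (1 : ℝ) ≤ A := by exact_mod_cast hA
    have h7 : (2 : ℝ) ^ r ≤ A * 2 ^ r := by nlinarith
    have h8 : |(lat G i : ℝ) - lat G j| ≤ A * 2 ^ r := by
      rw [abs_le]
      constructor <;> linarith [hi'.1, hi'.2, hj'.1, hj'.2]
    exact_mod_cast h8

lemma tub_PB {B : ℤ} {r : ℕ} (hr : 3 ≤ r) {G : List Bool} (hG : G ∈ Tub (4 * B.natAbs) 1 (2 ^ r / 3)) : G ∉ PB B r := by
  obtain ⟨t, h1, h2, hB, h3, -, -⟩ := hG
  intro h
  have h8 : 2 ^ 3 ≤ 2 ^ r := Nat.pow_le_pow_right (by norm_num) hr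
  obtain ⟨x, hx⟩ : ∃ x : ℕ, x = 2 ^ r := ⟨_, rfl⟩
  have hxz : (2 : ℤ) ^ r = (x : ℤ) := by
    rw [hx]
    push_cast
    rfl
  rw [← hx] at h1 h2 h3 h8
  refine h 0 G.length le_rfl ⟨Nat.zero_le _, ?_, ?_⟩
  · have h0 : lat G 0 = 0 := by
      show -(cross up oo) = 0
      simp [oo, cross]
    rw [h0, sub_zero]
    have hE : lat G G.length = latE G := rfl
    rw [hE, hxz]
    have h9 : (x : ℤ) ≤ 4 * ((x / 3 : ℕ) : ℤ) := by omega
    have h10 : B * x ≤ (B.natAbs : ℤ) * x := mul_le_mul_of_nonneg_right Int.le_natAbs (by positivity)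
    have h11 : (B.natAbs : ℤ) * x ≤ (B.natAbs : ℤ) * (4 * ((x / 3 : ℕ) : ℤ)) := mul_le_mul_of_nonneg_left h9 (by positivity)
    have h12 : (B.natAbs : ℤ) * (4 * ((x / 3 : ℕ) : ℤ)) = (((4 * B.natAbs : ℕ) : ℤ) * ((x / 3 : ℕ) : ℤ)) := by
      push_cast
      ring
    exact (h10.trans (h11.trans (h12 ▸ h3))).trans (le_abs_self _)
  · intro i j _ hi _ hj
    have hi' := lev_bd hB hi
    have hj' := lev_bd hB hj
    rw [hxz, abs_le]
    omega

end FreeSA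

open FreeSA

/-- **(C)** -/
theorem freeSmall {A B : ℤ} (hA : 0 < A) : FreeSmall A B := by
  intro ε hε
  obtain ⟨C1, ρ1, -, -, h1⟩ := rare_tub 0 (η := 1 / 12) (ε := ε / 2) (by norm_num) (by linarith)
  obtain ⟨C2, ρ2, -, -, h2⟩ := rare_tub (4 * B.natAbs) (η := 1) (ε := ε / 2) one_pos (by linarith)
  refine ⟨C1 + C2, 3 * (ρ1 + ρ2) + 5, fun r h hr hh => ?_⟩
  have hr2 : r < 2 ^ r := Nat.lt_two_pow_self
  have hc2 : C1 + C2 < 2 ^ (C1 + C2) := Nat.lt_two_pow_self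
  have hC : (C1 + C2) * 2 ^ r ≤ h := by
    refine le_trans ?_ hh
    rw [pow_add, mul_comm]
    exact Nat.mul_le_mul_left _ hc2.le
  have g1 := h1 (2 ^ r) h (by omega) (le_trans (Nat.mul_le_mul_right _ (Nat.le_add_right _ _)) hC)
  have g2 := h2 (2 ^ r / 3) h (by omega) (by
    refine le_trans ?_ hC
    exact Nat.mul_le_mul (Nat.le_add_left _ _) (Nat.div_le_self _ _))
  have hsub : {Z | Z ∈ Brd h ∧ Z ∈ PA A r ∪ PB B r} ⊆ {Z | Z ∈ Brd h ∧ Z ∉ HasP (Tub 0 (1 / 12) (2 ^ r))} ∪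
      {Z | Z ∈ Brd h ∧ Z ∉ HasP (Tub (4 * B.natAbs) 1 (2 ^ r / 3))} := by
    rintro Z ⟨hZ, hW | hW⟩
    · refine Or.inl ⟨hZ, ?_⟩
      rintro ⟨a, G, b, ha, hG, _, rfl⟩
      exact tub_PA hA (by omega) hG (mid_PA ha hW)
    · refine Or.inr ⟨hZ, ?_⟩
      rintro ⟨a, G, b, ha, hG, _, rfl⟩
      exact tub_PB (by omega) hG (mid_PB ha hW)
  refine (gf_mono hsub).trans ((gf_union_le _ _).trans ((add_le_add g1 g2).trans (le_of_eq ?_)))
  have hu := uu_pos h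
  rw [← ENNReal.ofReal_add (by positivity) (by positivity)]
  congr 1
  ring

end SIM

end HexObs
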