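import Pool.Agent.SIM.RegDefs
import Pool.Agent.NTA.RunX

/-!
SIM: regularity of all points at one scale, from the norms of the runs of bad leaves and the geometry.
-/

set_option autoImplicit false

namespace HexObs

namespace SIM

open Finset TS SDN NTW NTA

open scoped ENNReal

lemma RunB_mono {k s s' V : ℕ} {S : Set (List Bool)} (h : s ≤ s') : RunB k s' S V ⊆ RunB k s S V := by
  rintro gs ⟨h1, h2, h3⟩
  refine ⟨h1, h2, h3.trans ?_⟩
  refine List.sum_le_sum fun g _ => ?_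
  have : hgt g / 2 ^ (k + s') ≤ hgt g / 2 ^ (k + s) :=
    Nat.div_le_div_left (Nat.pow_le_pow_right (by norm_num) (by omega)) (by positivity)
  omega

lemma runF_mono {R R' : Set (List (List Bool))} (h : R ⊆ R') (Φ : List Bool → ℝ≥0∞) (g : List Bool) :
    runF R Φ g ≤ runF R' Φ g := by
  classical
  unfold runF
  refine ENNReal.tsum_le_tsum fun ms => ?_
  by_cases h1 : (g :: ms) ∈ R ∧ (g :: ms).IsChain LFold
  · rw [if_pos h1, if_pos ⟨h h1.1, h1.2⟩]
  · rw [if_neg h1]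
    exact zero_le

lemma SmR_mono {Dm : ℕ → ℝ≥0∞ → (List Bool → ℝ≥0∞) → Prop} {kc : ℕ} {R R' : Set (List (List Bool))} {δ : ℝ}
    (h : R ⊆ R') (hR : SmR Dm kc R' δ) : SmR Dm kc R δ := by
  refine ⟨fun x Φ hΦ => le_trans ?_ (hR.near x Φ hΦ), fun y x Ψ Φ hΨ hf hΦ => le_trans ?_ (hR.free y x Ψ Φ hΨ hf hΦ)⟩
  · refine xT_mono fun t => ?_
    unfold vA
    exact Rec8.sw_mono (fun g hg => hg) fun g _ => runF_mono h Φ g
  · exact Rec8.sw_mono (fun g hg => hg) fun g _ => mul_le_mul_right (runF_mono h Φ g) _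

lemma SmD_mono {Dm : ℕ → ℝ≥0∞ → (List Bool → ℝ≥0∞) → Prop} {kc : ℕ} {S S' : Set (List Bool)} {δ : ℝ}
    (h : S ⊆ S') (hS : SmD Dm kc S' δ) : SmD Dm kc S δ := by
  refine ⟨fun x Φ hΦ => le_trans ?_ (hS.near x Φ hΦ), fun y x Ψ Φ hΨ hf hΦ => le_trans ?_ (hS.free y x Ψ Φ hΨ hf hΦ)⟩
  · refine xT_mono fun t => ?_
    unfold vA
    exact Rec8.sw_mono (fun g hg => ⟨h hg.1, hg.2⟩) fun g _ => le_rfl
  · exact Rec8.sw_mono h fun g _ => le_rfl

lemma Irg_mono {A B : ℤ} {r n n' : ℕ} {t : List Bool} (h : n ≤ n') (hI : Irg A B r n' t) : Irg A B r n t := by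
  obtain ⟨dir, i, z, h1, h2, h3, h4⟩ := hI
  refine ⟨dir, i, z, h1, h2, le_trans ?_ h3, h4⟩
  have : (n : ℤ) ≤ n' := by exact_mod_cast h
  have h5 : (0 : ℤ) < 2 ^ r := by positivity
  nlinarith

/-- **regularity of all points at one scale** -/
theorem reg_of {A B : ℤ} (hA : RunBad DmJ) (hB : BadNorm A B DmJ) (hG : GeoIrg A B) (hT : TallEv) : Reg A B := by
  classical
  obtain ⟨s1, J1, e0, he0, hrun⟩ := hA
  obtain ⟨s2, kT, CT, hCT, htall⟩ := hT
  obtain ⟨C1, kX, hC1, hX⟩ := runX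
  obtain ⟨c, kB, hckB, hbad⟩ := hB J1 e0 he0
  obtain ⟨s, hs⟩ : ∃ s, s = s1 + s2 := ⟨_, rfl⟩
  obtain ⟨M, hM, hgeo⟩ := hG s c
  have hMr : (1 : ℝ) ≤ M := by exact_mod_cast hM
  refine ⟨16 * (C1 + CT), 1 / M, kT + kX + kB, c + 6, 2 * M, by linarith, by positivity, fun r J n hr hJ hn => ?_⟩
  obtain ⟨k, hk⟩ : ∃ k, k = r + c := ⟨_, rfl⟩
  obtain ⟨J', hJ'⟩ : ∃ J', J' = J - c := ⟨_, rfl⟩
  obtain ⟨V, hV⟩ : ∃ V, V = n / M - 1 := ⟨_, rfl⟩
  have hkr : k - c = r := by omega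
  have hkJ : k + J' = r + J := by omega
  have hnM : 2 ≤ n / M := (Nat.le_div_iff_mul_le (by omega)).2 hn
  have hV1 : M * (V + 1) ≤ n := by
    rw [hV, show n / M - 1 + 1 = n / M by omega]
    exact Nat.mul_div_le n M
  have hVr : (n : ℝ) / M ≤ V + 2 := by
    have h1 : n < M * (n / M + 1) := by
      have := Nat.lt_mul_div_succ n (show 0 < M by omega)
      simpa using this
    have h2 : n / M + 1 = V + 2 := by omega
    rw [h2] at h1
    have h3 : (n : ℝ) < M * (V + 2) := by exact_mod_cast h1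
    rw [div_le_iff₀ (by linarith)]
    linarith
  have hU := Ub_pos (r + J)
  -- the norms
  have hSA : SmR DmJ k (RunB k s (PA A r) V) (1 / 2 ^ V) := by
    refine SmR_mono (RunB_mono (by omega)) (hrun k (PA A r) (SmD_mono ?_ (hbad k (by omega))) V)
    rintro g ⟨h1, h2⟩
    rw [hkr]
    exact ⟨h1, Or.inl h2⟩
  have hSB : SmR DmJ k (RunB k s (PB B r) V) (1 / 2 ^ V) := by
    refine SmR_mono (RunB_mono (by omega)) (hrun k (PB B r) (SmD_mono ?_ (hbad k (by omega))) V)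
    rintro g ⟨h1, h2⟩
    rw [hkr]
    exact ⟨h1, Or.inr h2⟩
  obtain ⟨TE, hTE⟩ : ∃ TE : Set (List Bool), TE = {t | t ∈ WL (k + J') ∧ ∃ (dir : Bool) (m u : ℕ) (e : ℕ → ℕ),
      Lf dir (k + 5) t m u e ∧ ∃ j, j < m ∧
      3 * ((V : ℤ) * 2 ^ (k + s2)) ≤ |lp dir t (e (j + 1)) - lp dir t (e j)|} := ⟨_, rfl⟩
  -- the cover
  have hcov : {t | t ∈ WL (r + J) ∧ Irg A B r n t} ⊆
      (((ERL false k (k + J') (RunB k s (PA A r) V) ∪ ERL true k (k + J') (RunB k s (PA A r) V)) ∪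
      (ERL false k (k + J') (RunB k s (PB B r) V) ∪ ERL true k (k + J') (RunB k s (PB B r) V))) ∪ TE) := by
    rintro t ⟨h1, h2⟩
    have h3 := hgeo k (k + J') V t (by omega) (by omega) (by rw [hkJ]; exact h1) (by
      rw [hkr]
      exact Irg_mono hV1 h2)
    rw [hkr] at h3
    rcases h3 with ⟨dir, h4⟩ | ⟨dir, h4⟩ | h4
    · left
      left
      cases dir
      · exact Or.inl h4
      · exact Or.inr h4
    · left
      right
      cases dir
      · exact Or.inl h4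
      · exact Or.inr h4
    · right
      rw [hTE]
      refine ⟨by rw [hkJ]; exact h1, ?_⟩
      obtain ⟨dir, m, u, e, h5, j, h6, h7⟩ := h4
      refine ⟨dir, m, u, e, h5, j, h6, le_trans ?_ h7⟩
      have e1 : (2 : ℤ) ^ (k + s2) ≤ 2 ^ (k + s) := pow_le_pow_right₀ (by norm_num) (by omega)
      have e2 : (0 : ℤ) ≤ V := by positivity
      nlinarith
  obtain ⟨W, hW⟩ : ∃ W, W = ENNReal.ofReal (C1 ^ J' * (1 / 2 ^ V) * Ub (r + J)) * Xb (r + J) ^ 2 := ⟨_, rfl⟩
  have hrunX : ∀ (dir : Bool) (R : Set (List (List Bool))), SmR DmJ k R (1 / 2 ^ V) →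
      gf (ERL dir k (k + J') R) ≤ W := by
    intro dir R hR
    rw [hW, ← hkJ]
    exact hX dir k J' R (1 / 2 ^ V) (by omega) (by omega) (by positivity) hR
  have hTE' : gf TE ≤ ENNReal.ofReal (CT ^ J' / 2 ^ V * Ub (r + J)) * Xb (r + J) ^ 2 := by
    rw [hTE, ← hkJ]
    exact htall k J' V (by omega) (by omega) (by omega)
  have hun : ∀ S T : Set (List Bool), gf (S ∪ T) ≤ gf S + gf T := fun S T => gf_union_le S T
  calc gf {t | t ∈ WL (r + J) ∧ Irg A B r n t} ≤ _ := gf_mono hcov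
    _ ≤ ((W + W) + (W + W)) + ENNReal.ofReal (CT ^ J' / 2 ^ V * Ub (r + J)) * Xb (r + J) ^ 2 := by
        refine (hun _ _).trans (add_le_add ((hun _ _).trans (add_le_add ((hun _ _).trans ?_) ((hun _ _).trans ?_))) hTE')
        · exact add_le_add (hrunX _ _ hSA) (hrunX _ _ hSA)
        · exact add_le_add (hrunX _ _ hSB) (hrunX _ _ hSB)
    _ = ENNReal.ofReal ((4 * C1 ^ J' + CT ^ J') / 2 ^ V * Ub (r + J)) * Xb (r + J) ^ 2 := by
        rw [hW, ← add_mul, ← add_mul, ← add_mul, ← ENNReal.ofReal_add (by positivity) (by positivity),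
          ← ENNReal.ofReal_add (by positivity) (by positivity), ← ENNReal.ofReal_add (by positivity) (by positivity)]
        congr 2
        ring
    _ ≤ _ := by
        refine mul_le_mul_left (ENNReal.ofReal_le_ofReal (mul_le_mul_of_nonneg_right ?_ hU.le)) _
        have h1 : C1 ^ J' ≤ (C1 + CT) ^ J := by
          calc C1 ^ J' ≤ (C1 + CT) ^ J' := pow_le_pow_left₀ (by linarith) (by linarith) _
            _ ≤ _ := pow_le_pow_right₀ (by linarith) (by omega)
        have h2 : CT ^ J' ≤ (C1 + CT) ^ J := by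
          calc CT ^ J' ≤ (C1 + CT) ^ J' := pow_le_pow_left₀ (by linarith) (by linarith) _
            _ ≤ _ := pow_le_pow_right₀ (by linarith) (by omega)
        have h3 : (1 : ℝ) / 2 ^ V ≤ 4 * (2 : ℝ) ^ (-(1 / M * n) : ℝ) := by
          have e1 : (4 : ℝ) * (2 : ℝ) ^ (-(1 / M * n) : ℝ) = (2 : ℝ) ^ (2 - 1 / M * n : ℝ) := by
            rw [sub_eq_add_neg, Real.rpow_add two_pos]
            norm_num
          rw [e1, one_div, ← Real.rpow_natCast, ← Real.rpow_neg (by norm_num)]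
          refine Real.rpow_le_rpow_of_exponent_le (by norm_num) ?_
          have e2 : (1 : ℝ) / M * n = n / M := by ring
          rw [e2]
          linarith
        have h4 : (16 : ℝ) ≤ 16 ^ J := by
          calc (16 : ℝ) = 16 ^ 1 := by norm_num
            _ ≤ _ := pow_le_pow_right₀ (by norm_num) (by omega)
        have h5 : 0 < (C1 + CT) ^ J := by positivity
        have h6 : 0 < (2 : ℝ) ^ (-(1 / M * n) : ℝ) := Real.rpow_pos_of_pos two_pos _
        calc (4 * C1 ^ J' + CT ^ J') / 2 ^ V ≤ (5 * (C1 + CT) ^ J) / 2 ^ V := by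
              gcongr
              linarith
          _ = 5 * (C1 + CT) ^ J * (1 / 2 ^ V) := by ring
          _ ≤ 5 * (C1 + CT) ^ J * (4 * (2 : ℝ) ^ (-(1 / M * n) : ℝ)) := by gcongr
          _ = 20 * ((C1 + CT) ^ J * (2 : ℝ) ^ (-(1 / M * n) : ℝ)) := by ring
          _ ≤ (16 ^ J) * ((C1 + CT) ^ J * (2 : ℝ) ^ (-(1 / M * n) : ℝ)) := by
              have h7 : (20 : ℝ) ≤ 16 ^ J := by
                calc (20 : ℝ) ≤ 16 ^ 2 := by norm_num
                  _ ≤ _ := pow_le_pow_right₀ (by norm_num) (by omega)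
              gcongr
          _ = _ := by
              rw [mul_pow]
              ring

end SIM

end HexObs
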