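import Pool.Agent.SIM.RunB
import Pool.Agent.SIM.Reg
import Pool.Agent.NTW.FoldCl
import Pool.Agent.NTW.FoldEx

/-!
SIM: the walks with a tall leaf have a small weight, the leaves at the ends included, both directions.
-/

set_option autoImplicit false

namespace HexObs

namespace SIM

open Finset TS SDN NTW NTA

open scoped ENNReal

namespace TL

variable {f F : ℕ → ℤ} {n m u q b : ℕ} {R D : ℤ} {e : ℕ → ℕ} {t : List Bool}

/-- a long piece without backtracks -/
def Lo (f : ℕ → ℤ) (n : ℕ) (R D : ℤ) : Prop := ∃ (σ : ℤ) (a b : ℕ), (σ = 1 ∨ σ = -1) ∧ a ≤ b ∧ b ≤ n ∧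
  D ≤ σ * (f b - f a) ∧ ∀ i i', a ≤ i → i ≤ i' → i' ≤ b → σ * (f i - f i') < R

lemma sg_mul (k : ℕ) : ∃ σ : ℤ, (σ = 1 ∨ σ = -1) ∧ ∀ x : ℤ, Tight.sg k x = σ * x := by
  by_cases h : Even k
  · refine ⟨-1, Or.inr rfl, fun x => ?_⟩
    unfold Tight.sg
    rw [if_pos h]
    ring
  · refine ⟨1, Or.inl rfl, fun x => ?_⟩
    unfold Tight.sg
    rw [if_neg h]
    ring

lemma lo_of_hyst (h : Hyst f n R m u e) {j : ℕ} (hj : j < m) (hR : 0 < R) (hD : D ≤ |f (e (j + 1)) - f (e j)|) : Lo f n R D := by
  obtain ⟨σ, hσ, hs⟩ := sg_mul (u + j)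
  have hmon : e (j + 1) ≤ n := (h.monoA (show j + 1 ≤ m by omega) le_rfl).trans h.le
  refine ⟨σ, e j, e (j + 1), hσ, (h.lt j hj).le, hmon, ?_, fun i i' h1 h2 h3 => ?_⟩
  · have hb := h.big j hj
    rw [hs, hs, ← mul_sub] at hb
    rcases hσ with rfl | rfl
    · rw [abs_of_nonneg (by linarith)] at hD
      linarith
    · rw [abs_of_nonpos (by linarith)] at hD
      linarith
  · have := h.small j hj i i' h1 h2 h3
    rw [hs, hs] at this
    linarith

lemma lo_drop {c s : ℤ} (hs : s = 1 ∨ s = -1) (hF : ∀ j, F (q + j) = c + s * f j) (hos : ∀ i, i ≤ q → |F i - F q| ≤ 2)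
    (hq : q ≤ n) (hD : 4 < D) (h : Lo F n R D) : Lo f (n - q) R (D - 2) := by
  obtain ⟨σ, a, b, hσ, hab, hb, h1, h2⟩ := h
  have hqb : q ≤ b := by
    by_contra hc
    have b1 := abs_le.1 (hos a (by omega))
    have b2 := abs_le.1 (hos b (by omega))
    rcases hσ with rfl | rfl <;> linarith [b1.1, b1.2, b2.1, b2.2]
  refine ⟨σ * s, a - q, b - q, ?_, by omega, by omega, ?_, fun i i' h3 h4 h5 => ?_⟩
  · rcases hσ with rfl | rfl <;> rcases hs with rfl | rfl <;> simp
  · have e1 := hF (b - q)
    have e2 := hF (a - q)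
    rw [show q + (b - q) = b by omega] at e1
    rcases Nat.lt_or_ge a q with h3 | h3
    · rw [show a - q = 0 by omega] at e2 ⊢
      simp only [add_zero] at e2
      have b1 := abs_le.1 (hos a h3.le)
      have e3 : s * (f (b - q) - f 0) = F b - F q := by
        rw [e1, e2]
        ring
      rw [mul_assoc, e3]
      rcases hσ with rfl | rfl <;> linarith [b1.1, b1.2]
    · rw [show q + (a - q) = a by omega] at e2
      have e3 : s * (f (b - q) - f (a - q)) = F b - F a := by
        rw [e1, e2]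
        ring
      rw [mul_assoc, e3]
      linarith
  · have h6 := h2 (q + i) (q + i') (by omega) (by omega) (by omega)
    rw [hF, hF] at h6
    have e3 : σ * s * (f i - f i') = σ * (c + s * f i - (c + s * f i')) := by ring
    rw [e3]
    exact h6

/-- a long piece is in a leaf -/
theorem long_leaf (h : Fd b t m u e) (hL : Lo (lev t) t.length (RR b) D) (hD : RR b ≤ D) :
    ∃ l, l < m ∧ D ≤ |lev t (e (l + 1)) - lev t (e l)| := by
  classical
  obtain ⟨hm, hG, hbig, hsm, hst, hfn⟩ := h
  obtain ⟨σ, x, y, hσ, hxy, hy, h1, h2⟩ := hL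
  have hmon : ∀ i j, i ≤ j → j ≤ m → e i ≤ e j := by
    intro i j hij hj
    induction j, hij using Nat.le_induction with
    | base => exact le_rfl
    | succ c hic ih => exact (ih (by omega)).trans (hG.lt c (by omega)).le
  -- the sign of the leaf number j with respect to σ
  have hsg : ∀ j, (∀ x : ℤ, Tight.sg (u + j) x = σ * x) ∨ ∀ x : ℤ, Tight.sg (u + j) x = -(σ * x) := by
    intro j
    obtain ⟨s, hs, hs'⟩ := sg_mul (u + j)
    rcases hσ with rfl | rfl <;> rcases hs with rfl | rfl
    · left; intro x; rw [hs' x]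
    · right; intro x; rw [hs' x]; ring
    · right; intro x; rw [hs' x]; ring
    · left; intro x; rw [hs' x]
  have halt : ∀ j, (∀ x : ℤ, Tight.sg (u + (j + 1)) x = -(σ * x)) ↔ (∀ x : ℤ, Tight.sg (u + j) x = σ * x) := by
    intro j
    have h3 : ∀ x : ℤ, Tight.sg (u + (j + 1)) x = -Tight.sg (u + j) x := by
      intro x
      unfold Tight.sg
      by_cases he : Even (u + j)
      · rw [if_pos he, if_neg (by rw [show u + (j + 1) = u + j + 1 by omega, Nat.even_add_one]; simpa using he)]
        ring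
      · rw [if_neg he, if_pos (by rw [show u + (j + 1) = u + j + 1 by omega, Nat.even_add_one]; exact he)]
    constructor
    · intro h4 x
      have := h4 x
      rw [h3] at this
      linarith
    · intro h4 x
      rw [h3, h4]
  -- an up leaf that contains the end y and is not left before it
  have key : ∀ l, l < m → (∀ x : ℤ, Tight.sg (u + l) x = σ * x) → σ * lev t y ≤ σ * lev t (e (l + 1)) → e l ≤ y →
      x ≤ e (l + 1) → ∃ l, l < m ∧ D ≤ |lev t (e (l + 1)) - lev t (e l)| := by
    intro l hl hs hy1 hly hxl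
    refine ⟨l, hl, ?_⟩
    have hx : σ * lev t (e l) ≤ σ * lev t x := by
      rcases Nat.lt_or_ge x (e l) with h3 | h3
      · rcases Nat.eq_zero_or_pos l with rfl | h4
        · have := hG.beg x h3
          have hs0 := hs
          simp only [add_zero] at hs0
          rw [hs0, hs0] at this
          exact this.le
        · obtain ⟨j, rfl⟩ : ∃ j, l = j + 1 := ⟨l - 1, by omega⟩
          have hj : ∀ x : ℤ, Tight.sg (u + j) x = -(σ * x) := by
            rcases hsg j with h5 | h5
            · have := (halt j).2 h5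
              intro x
              have e1 := this x
              have e2 := hs x
              rw [e2] at e1
              have e3 : σ * x = 0 := by linarith
              rw [h5, e3]
              simp
            · exact h5
          rcases Nat.lt_or_ge (e j) x with h6 | h6
          · have := hG.hi j (by omega) x h6.le (by omega)
            rw [hj, hj] at this
            linarith
          · exfalso
            have h7 := h2 (e j) (e (j + 1)) h6 (hG.lt j (by omega)).le hly
            have h8 := hbig j (by omega)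
            rw [hj, hj] at h8
            have : σ * (lev t (e j) - lev t (e (j + 1))) = -(σ * lev t (e (j + 1))) + σ * lev t (e j) := by ring
            linarith
      · rcases Nat.eq_zero_or_pos l with rfl | h4
        · have := hG.lo0 x h3 hxl
          have hs0 := hs
          simp only [add_zero] at hs0
          rw [hs0, hs0] at this
          exact this
        · rcases Nat.eq_or_lt_of_le h3 with h5 | h5
          · rw [h5]
          · have := hG.lo l h4 hl x h5 hxl
            rw [hs, hs] at this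
            exact this.le
    have h5 : D ≤ σ * (lev t (e (l + 1)) - lev t (e l)) := by
      have e1 : σ * (lev t y - lev t x) = σ * lev t y - σ * lev t x := by ring
      have e2 : σ * (lev t (e (l + 1)) - lev t (e l)) = σ * lev t (e (l + 1)) - σ * lev t (e l) := by ring
      linarith
    rcases hσ with rfl | rfl
    · exact h5.trans ((le_of_eq (one_mul _)).trans (le_abs_self _))
    · exact h5.trans (by rw [neg_one_mul]; exact neg_le_abs _)
  -- the last fold not behind y
  by_cases hy0 : y < e 0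
  · exfalso
    have b1 := hst y x hy0.le (by omega)
    have b2 := hst x y (by omega) hy0.le
    rcases hσ with rfl | rfl <;> linarith
  · push Not at hy0
    obtain ⟨j, hj, hjy, hmax⟩ : ∃ j, j ≤ m ∧ e j ≤ y ∧ ∀ j', j' ≤ m → e j' ≤ y → j' ≤ j := by
      have hne : ∃ j, j ≤ m ∧ e (m - j) ≤ y := ⟨m, le_rfl, by rw [Nat.sub_self]; exact hy0⟩
      refine ⟨m - Nat.find hne, by omega, (Nat.find_spec hne).2, fun j' h3 h4 => ?_⟩
      have := Nat.find_min' hne (m := m - j') ⟨by omega, by rw [show m - (m - j') = j' by omega]; exact h4⟩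
      omega
    rcases Nat.lt_or_ge j m with hjm | hjm
    · have hyj : y < e (j + 1) := by
        by_contra hc
        have := hmax (j + 1) (by omega) (by omega)
        omega
      rcases hsg j with hs | hs
      · -- an up leaf
        refine key j hjm hs ?_ hjy (by omega)
        have := hG.hi j hjm y hjy hyj.le
        rw [hs, hs] at this
        exact this
      · -- a down leaf
        rcases Nat.lt_or_ge x (e j) with hx | hx
        · rcases Nat.eq_zero_or_pos j with rfl | h4
          · exfalso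
            have b1 := hst (e 0) x le_rfl hx.le
            have b2 := hst x (e 0) hx.le le_rfl
            have b3 := hG.lo0 y hjy hyj.le
            have hs0 := hs
            simp only [add_zero] at hs0
            rw [hs0, hs0] at b3
            rcases hσ with rfl | rfl <;> linarith
          · obtain ⟨i, rfl⟩ : ∃ i, j = i + 1 := ⟨j - 1, by omega⟩
            refine key i (by omega) ((halt i).1 hs) ?_ (le_trans (hmon i (i + 1) (by omega) hj) hjy) hx.le
            rcases Nat.eq_or_lt_of_le hjy with h5 | h5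
            · rw [← h5]
            · have := hG.lo (i + 1) (by omega) hjm y h5 hyj.le
              rw [hs, hs] at this
              linarith
        · exfalso
          have := hsm j hjm x y hx hxy hyj.le
          rw [hs, hs] at this
          have e1 : σ * (lev t y - lev t x) = σ * lev t y - σ * lev t x := by ring
          linarith
    · obtain rfl : j = m := by omega
      obtain ⟨i, rfl⟩ : ∃ i, j = i + 1 := ⟨j - 1, by omega⟩
      rcases hsg i with hs | hs
      · rcases Nat.lt_or_ge (e (i + 1)) x with hx | hx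
        · exfalso
          have b1 := hfn y x hjy hy hx.le (by omega)
          have b2 := hfn x y hx.le (by omega) hjy hy
          rcases hσ with rfl | rfl <;> linarith
        · refine key i (by omega) hs ?_ (le_trans (hmon i (i + 1) (by omega) hj) hjy) hx
          rcases Nat.eq_or_lt_of_le hjy with h5 | h5
          · rw [← h5]
          · have := hG.fin y h5 hy
            rw [show u + (i + 1 - 1) = u + i by omega, hs, hs] at this
            exact this.le
      · exfalso
        rcases Nat.lt_or_ge (e i) x with hx | hx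
        · have hx2 : σ * lev t (e (i + 1)) ≤ σ * lev t x := by
            rcases Nat.lt_or_ge (e (i + 1)) x with h3 | h3
            · have := hG.fin x h3 (by omega)
              rw [show u + (i + 1 - 1) = u + i by omega, hs, hs] at this
              linarith
            · have := hG.hi i (by omega) x hx.le h3
              rw [hs, hs] at this
              linarith
          have b1 := hfn y (e (i + 1)) hjy hy le_rfl (by omega)
          have b2 := hfn (e (i + 1)) y le_rfl (by omega) hjy hy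
          rcases hσ with rfl | rfl <;> linarith
        · have h7 := h2 (e i) (e (i + 1)) hx (hG.lt i (by omega)).le hjy
          have h8 := hbig i (by omega)
          rw [hs, hs] at h8
          have : σ * (lev t (e i) - lev t (e (i + 1))) = -(σ * lev t (e (i + 1))) + σ * lev t (e i) := by ring
          linarith

/-- the event theorem for runs, any length, direction false, leaves at the ends allowed -/
theorem evER : ∃ (C : ℝ) (k0 : ℕ), 1 ≤ C ∧ ∀ (kc J : ℕ) (R : Set (List (List Bool))) (δ : ℝ), k0 ≤ kc → 6 ≤ J → 0 < δ →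
    SmR DmJ kc R δ → gf (ER kc J R) ≤ ENNReal.ofReal (C ^ J * δ * Ub (kc + J)) * Xb (kc + J) ^ 2 := by
  obtain ⟨Ci, δi, hI⟩ := inp_exists
  obtain ⟨C0, k0, hC0, h0⟩ := eventRJ (ssA hI)
  obtain ⟨D, hD, hDX⟩ := Xb_pow
  have hC0' : 0 ≤ C0 := by linarith
  have hD0 : 0 ≤ D := by linarith
  refine ⟨C0 * D ^ 16, k0, ?_, fun kc J R δ hk hJ hδ hS => ?_⟩
  · have : 1 ≤ D ^ 16 := one_le_pow₀ hD
    nlinarith
  · have hUp := Ub_pos (kc + J)
    obtain ⟨lam', hQ⟩ := QL_exists (kc + J + 8)
    have h1 : gf {t | t ∈ SA ∧ t ∈ ER kc J R} ≤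
        ENNReal.ofReal (C0 ^ J * δ * Ub (kc + J)) * (Xb (kc + J + 8)) ^ 2 := by
      refine gf_SA_le fun lam => (h0 kc J lam lam' R δ hk hJ hδ hQ hS).trans ?_
      exact mul_le_mul_right (pow_le_pow_left' (bl_le_Xb _ _) 2) _
    refine (gf_mono fun t ht => ?_).trans (h1.trans ?_)
    · exact ⟨ht.1.1, ht⟩
    · calc ENNReal.ofReal (C0 ^ J * δ * Ub (kc + J)) * (Xb (kc + J + 8)) ^ 2
          ≤ ENNReal.ofReal (C0 ^ J * δ * Ub (kc + J)) * (ENNReal.ofReal (D ^ 8) * Xb (kc + J)) ^ 2 := by
            exact mul_le_mul_right (pow_le_pow_left' (hDX (kc + J) 8) 2) _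
        _ = ENNReal.ofReal (C0 ^ J * D ^ 16 * δ * Ub (kc + J)) * Xb (kc + J) ^ 2 := by
            rw [mul_pow, ← ENNReal.ofReal_pow (by positivity), ← mul_assoc, ← ENNReal.ofReal_mul (by positivity)]
            congr 2
            ring
        _ ≤ _ := by
            refine mul_le_mul_left (ENNReal.ofReal_le_ofReal ?_) _
            have e1 : D ^ 16 ≤ (D ^ 16) ^ J := by
              calc D ^ 16 = (D ^ 16) ^ 1 := by rw [pow_one]
                _ ≤ (D ^ 16) ^ J := pow_le_pow_right₀ (one_le_pow₀ hD) (by omega)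
            rw [mul_pow]
            gcongr

/-- a long piece: the walk has a run with one tall leaf -/
lemma mem_tall {k J s V : ℕ} (hV : 1 ≤ V) (hs : 5 ≤ s) (ht : t ∈ WL (k + J))
    (hL : Lo (lev t) t.length (RR (k + 5)) (3 * ((V : ℤ) * 2 ^ (k + s + 1)) - 2)) : t ∈ ER k J (RunT k s V) := by
  have hp : (32 : ℤ) ≤ 2 ^ (k + 5) := by
    calc (32 : ℤ) = 2 ^ 5 := by norm_num
      _ ≤ _ := pow_le_pow_right₀ (by norm_num) (by omega)
  have hp2 : (2 : ℤ) ^ (k + 5) ≤ 2 ^ (k + s) := pow_le_pow_right₀ (by norm_num) (by omega)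
  have hVz : (1 : ℤ) ≤ V := by exact_mod_cast hV
  have hV2 : (2 : ℤ) ^ (k + s) ≤ V * 2 ^ (k + s) := le_mul_of_one_le_left (by positivity) hVz
  have hRR : RR (k + 5) = 3 * 2 ^ (k + 5) - 2 := rfl
  have e1 : (V : ℤ) * 2 ^ (k + s + 1) = 2 * (V * 2 ^ (k + s)) := by
    rw [pow_succ]
    ring
  have hD : RR (k + 5) ≤ 3 * ((V : ℤ) * 2 ^ (k + s + 1)) - 2 := by
    rw [hRR, e1]
    linarith
  rcases fd_exists (b := k + 5) (by omega) ht.1 with h | ⟨m, u, e, h⟩
  · exfalso
    obtain ⟨σ, a, b, hσ, hab, hb, h1, -⟩ := hL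
    have b1 := h b a hb (by omega)
    have b2 := h a b (by omega) hb
    rcases hσ with rfl | rfl <;> linarith
  · obtain ⟨l, hl, hl2⟩ := long_leaf h hL hD
    refine ⟨ht, m, u, e, h, l, 1, le_rfl, by omega, fun ms hlen hpos _ _ hbox => ?_⟩
    obtain ⟨g, rfl⟩ : ∃ g, ms = [g] := List.length_eq_one_iff.1 hlen
    have hg := hpos 0 (by simp)
    simp only [List.getElem_cons_zero, add_zero] at hg
    obtain ⟨h', h1, h2, h3⟩ := hbox g (by simp)
    obtain ⟨c1, c2, c3⟩ := fd_cl h hl hg h3
    refine ⟨g, rfl, c1, ⟨h', h1, h3⟩, ?_⟩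
    rw [hgt_eq h3]
    have h4 := (abs_le.1 c3).1
    have h5 : (V : ℤ) * 2 ^ (k + s) ≤ h' := by
      rw [e1] at hl2
      linarith
    exact_mod_cast h5

/-- the reduction of the direction true to the direction false -/
theorem gf_lo {K : ℕ} {R D : ℤ} (hD : 4 < D) :
    gf {t | t ∈ WL K ∧ Lo (fun i => lvl true (vx oo up t i)) t.length R D} ≤
      ENNReal.ofReal DirA.CD * gf {t | t ∈ WL (K + 3) ∧ Lo (lev t) t.length R (D - 2)} := by
  classical
  refine (gf_mono ?_).trans (DirA.gf_zz _)
  rintro t ⟨hW, hL⟩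
  have hex : ∃ q, q ≤ t.length ∧ DirA.vert (dx up t q) := by
    by_contra hc
    push Not at hc
    have h1 : ∀ i, i < t.length → ¬ DirA.vert (dx up t i) := fun i hi => hc i hi.le
    obtain ⟨σ, a, b, hσ, hab, hb, h2, -⟩ := hL
    have h3 := DirA.zz_lvl h1 a (by omega)
    have h4 := DirA.zz_lvl h1 b hb
    simp only [h3, h4] at h2
    rcases hσ with rfl | rfl <;> split_ifs at h2 <;> omega
  obtain ⟨hq, hv⟩ := Nat.find_spec hex
  have hmin : ∀ i, i < Nat.find hex → ¬ DirA.vert (dx up t i) := fun i hi h => Nat.find_min hex hi ⟨by omega, h⟩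
  set q := Nat.find hex
  have hWd := RD.drop_WL hW hq hv
  obtain ⟨σ, hσ, h1, h2, h3⟩ := RD.drop_dir hq hv
  refine ⟨q, t.drop q, ?_, by rw [← DirA.take_eq hq hmin hv, List.take_append_drop]⟩
  refine ⟨hWd, ?_⟩
  rw [List.length_drop]
  exact lo_drop hσ h1 (fun i hi => by
    have b1 := DirA.zz_lvl hmin i hi
    have b2 := DirA.zz_lvl hmin q le_rfl
    show |lvl true (vx oo up t i) - lvl true (vx oo up t q)| ≤ 2
    rw [b1, b2, abs_le]
    split_ifs <;> constructor <;> omega) hq hD hL

end TL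

open TL in
/-- **the walks with a tall leaf** -/
theorem tallEv : TallEv := by
  classical
  obtain ⟨s0, K, hK, hT⟩ := runTall
  obtain ⟨C, k0, hC, hE⟩ := evER
  obtain ⟨s, hs⟩ : ∃ s, s = s0 + 5 := ⟨_, rfl⟩
  obtain ⟨D, hD, hDX⟩ := Xb_pow
  have hCD := DirA.CD_ge
  obtain ⟨c0, hc0⟩ : ∃ c0, c0 = C ^ 3 * K * 8 * D ^ 6 * DirA.CD := ⟨_, rfl⟩
  have hC0 : 0 < C := by linarith
  have hD0 : 0 < D := by linarith
  have hK0 : 0 < K := by linarith
  have hCD0 : 0 < DirA.CD := by linarith
  have hc1 : K ≤ c0 := by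
    have h1 : 1 ≤ C ^ 3 := one_le_pow₀ hC
    have h2 : 1 ≤ D ^ 6 := one_le_pow₀ hD
    rw [hc0]
    calc K = 1 * K * 1 * 1 * 1 := by ring
      _ ≤ C ^ 3 * K * 8 * D ^ 6 * DirA.CD := by
          gcongr
          norm_num
  have hc01 : 1 ≤ c0 := hK.trans hc1
  refine ⟨s + 1, k0, C * (2 * c0), by nlinarith, fun k J V hk hJ hV => ?_⟩
  have hU := Ub_pos (k + J)
  have hU3 : Ub (k + (J + 3)) ≤ 8 * Ub (k + J) := by
    have := Ub_add (k + J) 3
    rw [show k + (J + 3) = k + J + 3 by omega]
    linarith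
  have hV4 : (0 : ℝ) < K / 4 ^ V := by positivity
  have hR : SmR DmJ k (RunT k s V) (K / 4 ^ V) := by
    refine SmR_mono ?_ (hT k V)
    rintro gs ⟨g, h1, h2, h3, h4⟩
    refine ⟨g, h1, h2, h3, le_trans ?_ h4⟩
    exact Nat.mul_le_mul_left _ (Nat.pow_le_pow_right (by norm_num) (by omega))
  obtain ⟨Dz, hDz⟩ : ∃ Dz : ℤ, Dz = 3 * ((V : ℤ) * 2 ^ (k + s + 1)) := ⟨_, rfl⟩
  have hDz4 : 4 < Dz := by
    have e1 : (64 : ℤ) ≤ 2 ^ (k + s + 1) := by
      calc (64 : ℤ) = 2 ^ 6 := by norm_num
        _ ≤ _ := pow_le_pow_right₀ (by norm_num) (by omega)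
    have hVz : (1 : ℤ) ≤ V := by exact_mod_cast hV
    have e2 : (2 : ℤ) ^ (k + s + 1) ≤ V * 2 ^ (k + s + 1) := le_mul_of_one_le_left (by positivity) hVz
    rw [hDz]
    linarith
  have hRR : 0 < RR (k + 5) := by
    have hp : (32 : ℤ) ≤ 2 ^ (k + 5) := by
      calc (32 : ℤ) = 2 ^ 5 := by norm_num
        _ ≤ _ := pow_le_pow_right₀ (by norm_num) (by omega)
    unfold RR
    linarith
  have hsub : {t | t ∈ WL (k + J) ∧ ∃ (dir : Bool) (m u : ℕ) (e : ℕ → ℕ), Lf dir (k + 5) t m u e ∧ ∃ j, j < m ∧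
      3 * ((V : ℤ) * 2 ^ (k + (s + 1))) ≤ |lp dir t (e (j + 1)) - lp dir t (e j)|} ⊆
      {t | t ∈ WL (k + J) ∧ Lo (lev t) t.length (RR (k + 5)) Dz} ∪
      {t | t ∈ WL (k + J) ∧ Lo (fun i => lvl true (vx oo up t i)) t.length (RR (k + 5)) Dz} := by
    rintro t ⟨ht, dir, m, u, e, hL, j, hj, hh⟩
    rw [show k + (s + 1) = k + s + 1 by omega, ← hDz] at hh
    cases dir
    · exact Or.inl ⟨ht, lo_of_hyst (f := lev t) hL hj hRR hh⟩
    · exact Or.inr ⟨ht, lo_of_hyst (f := fun i => lvl true (vx oo up t i)) hL hj hRR hh⟩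
  have hfalse : ∀ J', 6 ≤ J' → gf {t | t ∈ WL (k + J') ∧ Lo (lev t) t.length (RR (k + 5)) (Dz - 2)} ≤
      ENNReal.ofReal (C ^ J' * (K / 4 ^ V) * Ub (k + J')) * Xb (k + J') ^ 2 := by
    intro J' hJ'
    refine (gf_mono ?_).trans (hE k J' _ _ hk hJ' hV4 hR)
    rintro t ⟨h1, h2⟩
    exact mem_tall hV (by omega) h1 (by rw [← hDz]; exact h2)
  have h1 : gf {t | t ∈ WL (k + J) ∧ Lo (lev t) t.length (RR (k + 5)) Dz} ≤
      ENNReal.ofReal (C ^ J * (K / 4 ^ V) * Ub (k + J)) * Xb (k + J) ^ 2 := by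
    refine (gf_mono ?_).trans (hfalse J hJ)
    rintro t ⟨h1, σ, a, b, h2, h3, h4, h5, h6⟩
    exact ⟨h1, σ, a, b, h2, h3, h4, by linarith, h6⟩
  have h2 : gf {t | t ∈ WL (k + J) ∧ Lo (fun i => lvl true (vx oo up t i)) t.length (RR (k + 5)) Dz} ≤
      ENNReal.ofReal (C ^ J * (c0 / 4 ^ V) * Ub (k + J)) * Xb (k + J) ^ 2 := by
    refine (gf_lo hDz4).trans ?_
    have h3 := hfalse (J + 3) (by omega)
    have h4 := hDX (k + J) 3
    rw [show k + J + 3 = k + (J + 3) by omega] at h4 ⊢
    refine (mul_le_mul_right h3 _).trans ?_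
    calc ENNReal.ofReal DirA.CD * (ENNReal.ofReal (C ^ (J + 3) * (K / 4 ^ V) * Ub (k + (J + 3))) * Xb (k + (J + 3)) ^ 2)
        ≤ ENNReal.ofReal DirA.CD * (ENNReal.ofReal (C ^ (J + 3) * (K / 4 ^ V) * (8 * Ub (k + J))) *
          (ENNReal.ofReal (D ^ 3) * Xb (k + J)) ^ 2) := by
          refine mul_le_mul_right (mul_le_mul' (ENNReal.ofReal_le_ofReal ?_) (pow_le_pow_left' h4 2)) _
          gcongr
      _ = ENNReal.ofReal (DirA.CD * (C ^ (J + 3) * (K / 4 ^ V) * (8 * Ub (k + J)) * (D ^ 3) ^ 2)) * Xb (k + J) ^ 2 := by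
          rw [mul_pow, ← ENNReal.ofReal_pow (by positivity), ← mul_assoc, ← mul_assoc, ← ENNReal.ofReal_mul (by linarith),
            ← ENNReal.ofReal_mul (by positivity)]
          congr 2
          ring
      _ ≤ _ := by
          refine mul_le_mul_left (ENNReal.ofReal_le_ofReal (le_of_eq ?_)) _
          rw [hc0, pow_add]
          ring
  refine (gf_mono hsub).trans ((gf_union_le _ _).trans ((add_le_add h1 h2).trans ?_))
  rw [← add_mul, ← ENNReal.ofReal_add (by positivity) (by positivity)]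
  refine mul_le_mul_left (ENNReal.ofReal_le_ofReal ?_) _
  rw [← add_mul]
  refine mul_le_mul_of_nonneg_right ?_ hU.le
  have e1 : (1 : ℝ) / 4 ^ V ≤ 1 / 2 ^ V := by
    apply one_div_le_one_div_of_le (by positivity)
    exact pow_le_pow_left₀ (by norm_num) (by norm_num) V
  have e2 : 2 * c0 ≤ (2 * c0) ^ J := by
    calc 2 * c0 = (2 * c0) ^ 1 := by rw [pow_one]
      _ ≤ _ := pow_le_pow_right₀ (by linarith) (by omega)
  calc C ^ J * (K / 4 ^ V) + C ^ J * (c0 / 4 ^ V) = C ^ J * (K + c0) * (1 / 4 ^ V) := by ring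
    _ ≤ C ^ J * (2 * c0) ^ J * (1 / 2 ^ V) := by
        gcongr
        linarith
    _ = _ := by
        rw [mul_pow]
        ring

end SIM

end HexObs
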