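import Pool.Agent.SIM.LeafN
import Pool.Agent.SIM.FreeS
import Pool.Agent.SIM.GeoIrg
import Pool.Agent.SIM.Tall

/-!
SIM: (5) regularity, no hypothesis.
-/

set_option autoImplicit false

namespace HexObs

namespace SIM

open Finset TS SDN NTW NTA

open scoped ENNReal

/-- (B) the norm of the bad leaves -/
theorem badNorm {A B : ℤ} (hA : 0 < A) : BadNorm A B DmJ := by
  intro J ε hε
  obtain ⟨c, k0, h⟩ := leaf_norm (P := fun r => PA A r ∪ PB B r)
    (fun r a Z b ha h => h.elim (fun h => Or.inl (mid_PA ha h)) fun h => Or.inr (mid_PB ha h))
    (fun ε hε => freeSmall (B := B) hA ε hε) ε J hε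
  exact ⟨c, k0 + c, by omega, fun k hk => h k (by omega)⟩

/-- **(5) REGULARITY: at every scale, with an exception of small weight, every piece of the walk with a displacement of at
least n 2 ^ r rows in one of the two directions has the shape alpha and the shape beta of the size 2 ^ r in this direction** -/
theorem reg {A : ℤ} (hA : 0 < A) (B : ℤ) : Reg A B := reg_of runBad (badNorm hA) (geoIrg A B) tallEv

end SIM

end HexObs
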