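import Pool.Agent.SIM.Tall
import Pool.Agent.SIM.EvX
import Pool.Agent.SIM.HumpDefs
import Pool.Agent.EN.Count

/-!
SIM, exactly n letters: the walks with enough leaves in a direction and a tall leaf of this direction, the leaves at the
ends included.
-/

set_option autoImplicit false

namespace HexObs

namespace SIM

open Finset TS SDN NTW NTA

open scoped ENNReal

/-- the walks with exactly n letters, at least J1 leaves in the direction d and a tall one among them (ends included) -/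
def TallX (m : ℕ → ℝ) : Prop := ∃ (s k0 J1 : ℕ) (C : ℝ), 1 ≤ C ∧ ∀ (d : Fin 3) (k J n V : ℕ), k0 ≤ k → 6 ≤ J → 1 ≤ V →
  gf {t | t.length = n ∧ t ∈ WL (k + J) ∧ ∃ (a u : ℕ) (e : ℕ → ℕ), Lf (EN.dr d) (k + 5) (EN.wd d t) a u e ∧ J1 ≤ a ∧
    ∃ j, j < a ∧ 3 * ((V : ℤ) * 2 ^ (k + s)) ≤
      |lp (EN.dr d) (EN.wd d t) (e (j + 1)) - lp (EN.dr d) (EN.wd d t) (e j)|} ≤
    ENNReal.ofReal (C ^ J / 2 ^ V * (Ub (k + J) / m k)) * Xb (k + J) ^ 2

/-- the event theorem for runs, exactly n letters, direction false, leaves at the ends allowed -/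
theorem evERX : ∃ (C : ℝ) (k0 : ℕ), 1 ≤ C ∧ ∀ (kc J n : ℕ) (R : Set (List (List Bool))) (δ : ℝ), k0 ≤ kc → 6 ≤ J →
    0 < δ → EN.SmRX DmJ kc R δ →
    gf {t | t.length = n ∧ t ∈ ER kc J R} ≤ ENNReal.ofReal (C ^ J * δ * Ub (kc + J)) * Xb (kc + J) ^ 2 := by
  obtain ⟨Ci, δi, hI⟩ := inp_exists
  obtain ⟨C0, k0, hC0, h0⟩ := EN.eventRXJ (ssA hI)
  obtain ⟨D, hD, hDX⟩ := Xb_pow
  have hC0' : 0 ≤ C0 := by linarith
  have hD0 : 0 ≤ D := by linarith
  refine ⟨C0 * D ^ 16, k0, ?_, fun kc J n R δ hk hJ hδ hS => ?_⟩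
  · have : 1 ≤ D ^ 16 := one_le_pow₀ hD
    nlinarith
  · have hUp := Ub_pos (kc + J)
    obtain ⟨lam', hQ⟩ := QL_exists (kc + J + 8)
    have h1 : gf {t | t.length = n ∧ t ∈ ER kc J R} ≤
        ENNReal.ofReal (C0 ^ J * δ * Ub (kc + J)) * (Xb (kc + J + 8)) ^ 2 := by
      refine (gf_mono fun t ht => ?_).trans ((h0 kc J n lam' n R δ hk hJ hδ hQ hS).trans ?_)
      · exact ⟨ht.1, ⟨ht.2.1.1, ht.1.le⟩, ht.2⟩
      · exact mul_le_mul_right (pow_le_pow_left' (bl_le_Xb _ _) 2) _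
    refine h1.trans ?_
    calc ENNReal.ofReal (C0 ^ J * δ * Ub (kc + J)) * (Xb (kc + J + 8)) ^ 2
        ≤ ENNReal.ofReal (C0 ^ J * δ * Ub (kc + J)) * (ENNReal.ofReal (D ^ 8) * Xb (kc + J)) ^ 2 := by
          exact mul_le_mul_right (pow_le_pow_left' (hDX (kc + J) 8) 2) _
      _ = ENNReal.ofReal (C0 ^ J * D ^ 16 * δ * Ub (kc + J)) * Xb (kc + J) ^ 2 := by
          rw [mul_pow, ← ENNReal.ofReal_pow (by positivity), ← mul_assoc, ← ENNReal.ofReal_mul (by positivity)]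
          congr 2
          ring
      _ ≤ _ := by
          refine mul_le_mul_left (ENNReal.ofReal_le_ofReal ?_) _
          have e1 : D ^ 16 ≤ (D ^ 16) ^ J := by
            calc D ^ 16 = (D ^ 16) ^ 1 := by rw [pow_one]
              _ ≤ (D ^ 16) ^ J := pow_le_pow_right₀ (one_le_pow₀ hD) (by omega)
          rw [mul_pow]
          gcongr

namespace TL

variable {t : List Bool} {k K J J1 s V a u : ℕ} {e : ℕ → ℕ}

lemma two32 (k : ℕ) : (32 : ℤ) ≤ 2 ^ (k + 5) := by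
  calc (32 : ℤ) = 2 ^ 5 := by norm_num
    _ ≤ _ := pow_le_pow_right₀ (by norm_num) (by omega)

/-- the word of a tall leaf -/
lemma run_tall {e' : ℕ → ℕ} (h : Fd (k + 5) t a u e') {l : ℕ} (hl : l < a)
    (hl2 : 3 * ((V : ℤ) * 2 ^ (k + s + 1)) - 2 ≤ |lev t (e' (l + 1)) - lev t (e' l)|) (hV : 1 ≤ V) (hs : 5 ≤ s)
    {g : List Bool} (hg : PosL t u e' l g) {N : ℕ} (hbox : g ∈ BrR (2 ^ (k + 4)) N) : [g] ∈ RunT k s V := by
  obtain ⟨h', h1, h2, h3⟩ := hbox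
  obtain ⟨c1, c2, c3⟩ := fd_cl h hl hg h3
  refine ⟨g, rfl, c1, ⟨h', h1, h3⟩, ?_⟩
  rw [hgt_eq h3]
  have h4 := (abs_le.1 c3).1
  have hVz : (1 : ℤ) ≤ V := by exact_mod_cast hV
  have hp : (32 : ℤ) ≤ 2 ^ (k + s) := (two32 k).trans (pow_le_pow_right₀ (by norm_num) (by omega))
  have hV2 : (2 : ℤ) ^ (k + s) ≤ V * 2 ^ (k + s) := le_mul_of_one_le_left (by positivity) hVz
  have e1 : (V : ℤ) * 2 ^ (k + s + 1) = 2 * (V * 2 ^ (k + s)) := by
    rw [pow_succ]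
    ring
  have h5 : (V : ℤ) * 2 ^ (k + s) ≤ h' := by
    rw [e1] at hl2
    linarith
  exact_mod_cast h5

/-- a long piece and many leaves: the walk has a tall leaf with J1 leaves before or behind it -/
lemma mem_tallX (hV : 1 ≤ V) (hs : 5 ≤ s) (hJ1 : 1 ≤ J1) (ht : t ∈ WL (k + J)) (hF : Lf false (k + 5) t a u e)
    (ha : 2 * J1 ≤ a) (hL : Lo (lev t) t.length (RR (k + 5)) (3 * ((V : ℤ) * 2 ^ (k + s + 1)) - 2)) :
    t ∈ ER k J (Adj k (2 ^ (k + J + 2)) J1 (RunT k s V)) := by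
  have hp := two32 k
  have hp2 : (2 : ℤ) ^ (k + 5) ≤ 2 ^ (k + s) := pow_le_pow_right₀ (by norm_num) (by omega)
  have hVz : (1 : ℤ) ≤ V := by exact_mod_cast hV
  have hV2 : (2 : ℤ) ^ (k + s) ≤ V * 2 ^ (k + s) := le_mul_of_one_le_left (by positivity) hVz
  have hRR : RR (k + 5) = 3 * 2 ^ (k + 5) - 2 := rfl
  have e1 : (V : ℤ) * 2 ^ (k + s + 1) = 2 * (V * 2 ^ (k + s)) := by
    rw [pow_succ]
    ring
  have hD : RR (k + 5) ≤ 3 * ((V : ℤ) * 2 ^ (k + s + 1)) - 2 := by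
    rw [hRR, e1]
    linarith
  obtain ⟨e', h, -⟩ := RD.fd_of_lf (show 1 ≤ k + 5 by omega) (by omega) hF
  obtain ⟨l, hl, hl2⟩ := long_leaf h hL hD
  rcases Nat.lt_or_ge l J1 with h3 | h3
  · refine ⟨ht, a, u, e', h, l, 1 + J1, by omega, by omega, fun ms hlen hpos _ _ hbox => ?_⟩
    obtain ⟨g, as, rfl⟩ : ∃ g as, ms = g :: as := by
      rcases ms with _ | ⟨g, as⟩
      · simp at hlen
        omega
      · exact ⟨g, as, rfl⟩
    have hg := hpos 0 (by simp)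
    simp only [List.getElem_cons_zero, add_zero] at hg
    have hla : as.length = J1 := by
      rw [List.length_cons] at hlen
      omega
    refine Or.inr ⟨[g], run_tall h hl hl2 hV hs hg (hbox g (by simp)), as, ⟨hla, fun x hx => hbox x (by simp [hx])⟩, by simp,
      fun h0 => ?_, rfl⟩
    rw [h0] at hla
    simp at hla
    omega
  · refine ⟨ht, a, u, e', h, l - J1, J1 + 1, by omega, by omega, fun ms hlen hpos _ _ hbox => ?_⟩
    obtain ⟨as, g, rfl⟩ : ∃ as g, ms = as ++ [g] := by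
      rcases List.eq_nil_or_concat' ms with h0 | ⟨as, g, h0⟩
      · rw [h0] at hlen
        simp at hlen
      · exact ⟨as, g, h0⟩
    have hla : as.length = J1 := by
      rw [List.length_append] at hlen
      simpa using hlen
    have hg := hpos J1 (by simp [hla])
    rw [show l - J1 + J1 = l by omega] at hg
    have hgg : (as ++ [g])[J1]'(by simp [hla]) = g := by
      rw [List.getElem_append_right (by omega)]
      simp [hla]
    rw [hgg] at hg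
    refine Or.inl ⟨as, ⟨hla, fun x hx => hbox x (by simp [hx])⟩, [g], run_tall h hl hl2 hV hs hg (hbox g (by simp)), ?_,
      by simp, rfl⟩
    rintro rfl
    simp at hla
    omega

/-- the reduction of the direction true to the direction false, exactly n letters, the number of leaves kept -/
theorem gf_loX {K b : ℕ} {D : ℤ} (hb : 5 ≤ b) (hD : 4 < D) {A n : ℕ} {B : ℝ≥0∞}
    (h : ∀ n', gf {s | (s ∈ WL (K + 3) ∧ Lo (lev s) s.length (RR b) (D - 2) ∧ ∃ (a u : ℕ) (e : ℕ → ℕ),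
      Lf false b s a u e ∧ A ≤ a) ∧ s.length = n'} ≤ B) :
    gf {t | t.length = n ∧ t ∈ WL K ∧ Lo (fun i => lvl true (vx oo up t i)) t.length (RR b) D ∧
      ∃ (a u : ℕ) (e : ℕ → ℕ), Lf true b t a u e ∧ A + 1 ≤ a} ≤ ENNReal.ofReal DirA.CD * B := by
  classical
  refine (gf_mono ?_).trans (EN.EX.gf_zzX (E := {s | s ∈ WL (K + 3) ∧ Lo (lev s) s.length (RR b) (D - 2) ∧
    ∃ (a u : ℕ) (e : ℕ → ℕ), Lf false b s a u e ∧ A ≤ a}) (n := n) h)
  rintro t ⟨hn, hW, hL, a, u, e, hF, ha⟩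
  have hRR : (4 : ℤ) < RR b := by
    unfold RR
    have h1 : (2 : ℤ) ^ 5 ≤ 2 ^ b := pow_le_pow_right₀ (by norm_num) hb
    norm_num at h1
    omega
  have hex : ∃ q, q ≤ t.length ∧ DirA.vert (dx up t q) := by
    by_contra hc
    push Not at hc
    have h1 : ∀ i, i < t.length → ¬ DirA.vert (dx up t i) := fun i hi => hc i hi.le
    obtain ⟨σ, a, b, hσ, hab, hb, h2, -⟩ := hL
    have h3 := DirA.zz_lvl h1 a (by omega)
    have h4 := DirA.zz_lvl h1 b hb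
    simp only [h3, h4] at h2
    rcases hσ with rfl | rfl <;> split_ifs at h2 <;> omega
  obtain ⟨hq, hv⟩ := Nat.find_spec hex
  have hmin : ∀ i, i < Nat.find hex → ¬ DirA.vert (dx up t i) := fun i hi h => Nat.find_min hex hi ⟨by omega, h⟩
  set q := Nat.find hex
  have hWd := RD.drop_WL hW hq hv
  obtain ⟨σ, hσ, h1, h2, h3⟩ := RD.drop_dir hq hv
  have hos : ∀ i, i ≤ q → |lvl true (vx oo up t i) - lvl true (vx oo up t q)| ≤ 2 := fun i hi => by
    have b1 := DirA.zz_lvl hmin i hi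
    have b2 := DirA.zz_lvl hmin q le_rfl
    rw [b1, b2, abs_le]
    split_ifs <;> constructor <;> omega
  obtain ⟨a', rfl⟩ : ∃ a', a = a' + 1 := ⟨a - 1, by omega⟩
  obtain ⟨c, e', hc, hH, he⟩ := RD.hyst_tail (q := q) hRR hos hF
  obtain ⟨u', hH'⟩ := RD.hyst_sgn (f := fun i => lvl false (vx oo up (t.drop q) i)) (c := lvl true (vx oo up t q)) hσ
    (fun i _ => h1 i) hH
  rw [← List.length_drop] at hH'
  refine ⟨hn, q, t.drop q, ⟨hWd, ?_, a' + 1 - c, u', e', hH', by omega⟩, by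
    rw [← DirA.take_eq hq hmin hv, List.take_append_drop]⟩
  rw [List.length_drop]
  exact lo_drop hσ h1 hos hq hD hL

end TL

/-- the two frames of the three directions -/
theorem gf_wd (d : Fin 3) (K : ℕ) (p : ℕ → Prop) (Q : List Bool → Prop) :
    gf {t | p t.length ∧ t ∈ WL K ∧ Q (EN.wd d t)} ≤ gf {t | p t.length ∧ t ∈ WL (K + 2) ∧ Q t} := by
  by_cases hd : d = 2
  · refine EN.gf_mw_le ?_
    rintro t ⟨h1, h2, h3⟩
    unfold EN.wd at h3
    rw [if_pos hd] at h3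
    exact ⟨by rwa [EN.mw_length], EN.mw_WL h2, h3⟩
  · refine gf_mono ?_
    rintro t ⟨h1, h2, h3⟩
    have h4 := EN.wd_WL d h2
    unfold EN.wd at h3 h4
    rw [if_neg hd] at h3 h4
    exact ⟨h1, h4, h3⟩

open TL in
/-- **the walks with enough leaves and a tall leaf, exactly n letters, three directions, ends included** -/
theorem tallX_of {m : ℕ → ℝ} (hm : ∀ k, 0 < m k) (hG : EN.GBU m) : TallX m := by
  classical
  obtain ⟨J0, C1, k1, hC1, hG⟩ := hG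
  obtain ⟨Kb, hKb, hbox⟩ := EN.smD_box
  obtain ⟨s0, K, hK, hT⟩ := runTall
  obtain ⟨C, k0, hC, hE⟩ := evERX
  obtain ⟨s, hs⟩ : ∃ s, s = s0 + 5 := ⟨_, rfl⟩
  obtain ⟨D, hD, hDX⟩ := Xb_pow
  have hCD := DirA.CD_ge
  have hC0 : 0 < C := by linarith
  have hC10 : 0 < C1 := by linarith
  have hD0 : 0 < D := by linarith
  have hK0 : 0 < K := by linarith
  have hKb0 : 0 < Kb := by linarith
  have hCD0 : 0 < DirA.CD := by linarith
  obtain ⟨E, hEd⟩ : ∃ E : ℝ, E = C ^ 5 * (2 * ((4 * Kb * 2 ^ 5) ^ (J0 + 2) * C1 ^ 6 * K)) * 32 * D ^ 10 * DirA.CD :=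
    ⟨_, rfl⟩
  obtain ⟨Y, hY⟩ : ∃ Y : ℝ, Y = C * 2 ^ (J0 + 2) * C1 := ⟨_, rfl⟩
  have hY1 : 1 ≤ Y := by
    rw [hY]
    exact one_le_mul_of_one_le_of_one_le (one_le_mul_of_one_le_of_one_le hC (one_le_pow₀ (by norm_num))) hC1
  have hE1 : 1 ≤ E := by
    rw [hEd]
    have a1 : 1 ≤ C ^ 5 := one_le_pow₀ hC
    have a2 : 1 ≤ (4 * Kb * 2 ^ 5) ^ (J0 + 2) := one_le_pow₀ (by linarith)
    have a3 : 1 ≤ C1 ^ 6 := one_le_pow₀ hC1
    have a4 : 1 ≤ D ^ 10 := one_le_pow₀ hD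
    have a5 : 1 ≤ (4 * Kb * 2 ^ 5) ^ (J0 + 2) * C1 ^ 6 * K :=
      one_le_mul_of_one_le_of_one_le (one_le_mul_of_one_le_of_one_le a2 a3) hK
    have a6 : 1 ≤ 2 * ((4 * Kb * 2 ^ 5) ^ (J0 + 2) * C1 ^ 6 * K) := by linarith
    have a7 : 1 ≤ C ^ 5 * (2 * ((4 * Kb * 2 ^ 5) ^ (J0 + 2) * C1 ^ 6 * K)) := one_le_mul_of_one_le_of_one_le a1 a6
    have a8 : 1 ≤ C ^ 5 * (2 * ((4 * Kb * 2 ^ 5) ^ (J0 + 2) * C1 ^ 6 * K)) * 32 := by linarith
    exact one_le_mul_of_one_le_of_one_le (one_le_mul_of_one_le_of_one_le a8 a4) hCD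
  refine ⟨s + 1, max k0 k1, 2 * (J0 + 2) + 1, E * Y, one_le_mul_of_one_le_of_one_le hE1 hY1,
    fun d k J n V hk hJ hV => ?_⟩
  have hmk := hm k
  have hU := Ub_pos (k + J)
  have hU5 : Ub (k + (J + 5)) ≤ 32 * Ub (k + J) := by
    have := Ub_add (k + J) 5
    rw [show k + (J + 5) = k + J + 5 by omega]
    linarith
  obtain ⟨Dz, hDz⟩ : ∃ Dz : ℤ, Dz = 3 * ((V : ℤ) * 2 ^ (k + s + 1)) := ⟨_, rfl⟩
  have hDz4 : 4 < Dz := by
    have e1 : (64 : ℤ) ≤ 2 ^ (k + s + 1) := by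
      calc (64 : ℤ) = 2 ^ 6 := by norm_num
        _ ≤ _ := pow_le_pow_right₀ (by norm_num) (by omega)
    have hVz : (1 : ℤ) ≤ V := by exact_mod_cast hV
    have e2 : (2 : ℤ) ^ (k + s + 1) ≤ V * 2 ^ (k + s + 1) := le_mul_of_one_le_left (by positivity) hVz
    rw [hDz]
    linarith
  have hRR : 0 < RR (k + 5) := by
    have hp := two32 k
    unfold RR
    linarith
  have hR : SmR DmJ k (RunT k s V) (K / 4 ^ V) := by
    refine SmR_mono ?_ (hT k V)
    rintro gs ⟨g, h1, h2, h3, h4⟩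
    refine ⟨g, h1, h2, h3, le_trans ?_ h4⟩
    exact Nat.mul_le_mul_left _ (Nat.pow_le_pow_right (by norm_num) (by omega))
  have hRH : EN.InH (2 ^ (k + 4)) (RunT k s V) := by
    rintro gs ⟨g, rfl, h2, h3, h4⟩ x hx
    rw [List.mem_singleton] at hx
    rw [hx]
    exact h3
  -- the bound for the direction false
  obtain ⟨dl, hdl⟩ : ∃ dl : ℝ, dl = 2 * ((4 * (Kb * 2 ^ (J + 5))) ^ (J0 + 2) * (C1 ^ (J + 5 + 1) / m k) * (K / 4 ^ V)) :=
    ⟨_, rfl⟩
  have hdl0 : 0 < dl := by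
    rw [hdl]
    positivity
  have hN := smRX_adj hm hC1 hG hKb hbox (kc := k) (mu := J + 5) (le_trans (le_max_right _ _) hk) (by positivity) hRH hR
  rw [← hdl] at hN
  have hF : ∀ n', gf {t | (t ∈ WL (k + (J + 5)) ∧ Lo (lev t) t.length (RR (k + 5)) (Dz - 2) ∧
      ∃ (a u : ℕ) (e : ℕ → ℕ), Lf false (k + 5) t a u e ∧ 2 * (J0 + 2) ≤ a) ∧ t.length = n'} ≤
      ENNReal.ofReal (C ^ (J + 5) * dl * Ub (k + (J + 5))) * Xb (k + (J + 5)) ^ 2 := by
    intro n'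
    refine (gf_mono ?_).trans (hE k (J + 5) n' _ dl (le_trans (le_max_left _ _) hk) (by omega) hdl0 hN)
    rintro t ⟨⟨h1, h2, a, u, e, h3, h4⟩, h5⟩
    refine ⟨h5, ?_⟩
    exact mem_tallX hV (by omega) (by omega) h1 h3 h4 (by rw [← hDz]; exact h2)
  have hmain : gf {t | t.length = n ∧ t ∈ WL (k + J) ∧ ∃ (a u : ℕ) (e : ℕ → ℕ), Lf (EN.dr d) (k + 5) (EN.wd d t) a u e ∧
      2 * (J0 + 2) + 1 ≤ a ∧ ∃ j, j < a ∧ 3 * ((V : ℤ) * 2 ^ (k + (s + 1))) ≤
        |lp (EN.dr d) (EN.wd d t) (e (j + 1)) - lp (EN.dr d) (EN.wd d t) (e j)|} ≤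
      ENNReal.ofReal DirA.CD * (ENNReal.ofReal (C ^ (J + 5) * dl * Ub (k + (J + 5))) * Xb (k + (J + 5)) ^ 2) := by
    refine (gf_wd d (k + J) (fun l => l = n) (fun t => ∃ (a u : ℕ) (e : ℕ → ℕ), Lf (EN.dr d) (k + 5) t a u e ∧
      2 * (J0 + 2) + 1 ≤ a ∧ ∃ j, j < a ∧ 3 * ((V : ℤ) * 2 ^ (k + (s + 1))) ≤
        |lp (EN.dr d) t (e (j + 1)) - lp (EN.dr d) t (e j)|)).trans ?_
    rw [show k + (s + 1) = k + s + 1 by omega, ← hDz]
    generalize EN.dr d = dir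
    cases dir
    · have h1 : (1 : ℝ≥0∞) ≤ ENNReal.ofReal DirA.CD := by
        rw [← ENNReal.ofReal_one]
        exact ENNReal.ofReal_le_ofReal hCD
      refine le_trans (le_trans (gf_mono ?_) (hF n)) (le_mul_of_one_le_left' h1)
      rintro t ⟨h2, h3, a, u, e, h4, h5, j, hj, hh⟩
      obtain ⟨σ, x, y, b1, b2, b3, b4, b5⟩ := lo_of_hyst (f := lev t) h4 hj hRR hh
      refine ⟨⟨⟨h3.1, fun i hi dir => (h3.2 i hi dir).trans (pow_le_pow_right₀ (by norm_num) (by omega))⟩,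
        ⟨σ, x, y, b1, b2, b3, by linarith, b5⟩, a, u, e, h4, by omega⟩, h2⟩
    · rw [show k + (J + 5) = k + J + 2 + 3 by omega] at hF ⊢
      refine le_trans (gf_mono ?_) (gf_loX (K := k + J + 2) (b := k + 5) (D := Dz) (by omega) hDz4 (n := n) hF)
      rintro t ⟨h2, h3, a, u, e, h4, h5, j, hj, hh⟩
      exact ⟨h2, h3, lo_of_hyst (f := fun i => lvl true (vx oo up t i)) h4 hj hRR hh, a, u, e, h4, h5⟩
  refine hmain.trans ?_
  have h4 := hDX (k + J) 5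
  rw [show k + J + 5 = k + (J + 5) by omega] at h4
  calc ENNReal.ofReal DirA.CD * (ENNReal.ofReal (C ^ (J + 5) * dl * Ub (k + (J + 5))) * Xb (k + (J + 5)) ^ 2)
      ≤ ENNReal.ofReal DirA.CD * (ENNReal.ofReal (C ^ (J + 5) * dl * (32 * Ub (k + J))) *
        (ENNReal.ofReal (D ^ 5) * Xb (k + J)) ^ 2) := by
        refine mul_le_mul_right (mul_le_mul' (ENNReal.ofReal_le_ofReal ?_) (pow_le_pow_left' h4 2)) _
        exact mul_le_mul_of_nonneg_left hU5 (by positivity)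
    _ = ENNReal.ofReal (DirA.CD * (C ^ (J + 5) * dl * (32 * Ub (k + J)) * (D ^ 5) ^ 2)) * Xb (k + J) ^ 2 := by
        rw [mul_pow, ← ENNReal.ofReal_pow (by positivity), ← mul_assoc, ← mul_assoc, ← ENNReal.ofReal_mul (by linarith),
          ← ENNReal.ofReal_mul (by positivity)]
        congr 2
        ring
    _ = ENNReal.ofReal (E * Y ^ J / 4 ^ V * (Ub (k + J) / m k)) * Xb (k + J) ^ 2 := by
        congr 2
        rw [hdl, hEd, hY, show 4 * (Kb * (2 : ℝ) ^ (J + 5)) = 4 * Kb * 2 ^ 5 * 2 ^ J by ring, mul_pow (4 * Kb * 2 ^ 5),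
          ← pow_mul 2 J, mul_pow (C * 2 ^ (J0 + 2)), mul_pow C, ← pow_mul 2 (J0 + 2) J, mul_comm (J0 + 2) J]
        ring
    _ ≤ _ := by
        refine mul_le_mul_left (ENNReal.ofReal_le_ofReal ?_) _
        have e1 : E ≤ E ^ J := by
          calc E = E ^ 1 := by rw [pow_one]
            _ ≤ E ^ J := pow_le_pow_right₀ hE1 (by omega)
        have e2 : (2 : ℝ) ^ V ≤ 4 ^ V := pow_le_pow_left₀ (by norm_num) (by norm_num) V
        have hq : 0 ≤ Ub (k + J) / m k := by positivity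
        have hYJ : 0 ≤ Y ^ J := by positivity
        rw [mul_pow]
        gcongr

/-- the form of RegX: direction true or false, the scale m (k + J) -/
theorem tallXb {m : ℕ → ℝ} (hm : ∀ k, 0 < m k) (hu : MUp m) (hT : TallX m) : ∃ (s k0 J1 : ℕ) (C : ℝ), 1 ≤ C ∧
    ∀ (dir : Bool) (k J n V : ℕ), k0 ≤ k → 6 ≤ J → 1 ≤ V →
    gf {t | (t.length = n ∧ t ∈ WL (k + J)) ∧ ∃ (a u : ℕ) (e : ℕ → ℕ), Lf dir (k + 5) t a u e ∧ J1 ≤ a ∧
      ∃ j, j < a ∧ 3 * ((V : ℤ) * 2 ^ (k + s)) ≤ |lp dir t (e (j + 1)) - lp dir t (e j)|} ≤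
      ENNReal.ofReal (C ^ J / 2 ^ V * (Ub (k + J) / m (k + J))) * Xb (k + J) ^ 2 := by
  obtain ⟨Cu, hCu, hmu⟩ := hu
  obtain ⟨s, k0, J1, C, hC, h⟩ := hT
  have hpow : ∀ k j, m (k + j) ≤ Cu ^ j * m k := by
    intro k j
    induction j with
    | zero => simp
    | succ j ih =>
      calc m (k + (j + 1)) ≤ Cu * m (k + j) := hmu (k + j)
        _ ≤ Cu * (Cu ^ j * m k) := by
          have : 0 ≤ Cu := by linarith
          gcongr
        _ = Cu ^ (j + 1) * m k := by ring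
  refine ⟨s, k0, J1, C * Cu, one_le_mul_of_one_le_of_one_le hC hCu, fun dir k J n V hk hJ hV => ?_⟩
  have hd : ∃ d : Fin 3, EN.dr d = dir ∧ ∀ t, EN.wd d t = t := by
    cases dir
    · exact ⟨0, by decide, fun t => by
        unfold EN.wd
        rw [if_neg (by decide)]⟩
    · exact ⟨1, by decide, fun t => by
        unfold EN.wd
        rw [if_neg (by decide)]⟩
  obtain ⟨d, hd, hw⟩ := hd
  have h1 := h d k J n V hk hJ hV
  simp only [hd, hw] at h1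
  have hU := Ub_pos (k + J)
  have hmk := hm k
  have hmJ := hm (k + J)
  have hC0 : 0 < C := by linarith
  have hCu0 : 0 < Cu := by linarith
  refine (gf_mono ?_).trans (h1.trans ?_)
  · rintro t ⟨⟨h2, h3⟩, h4⟩
    exact ⟨h2, h3, h4⟩
  refine mul_le_mul_left (ENNReal.ofReal_le_ofReal ?_) _
  have h2 : Ub (k + J) / m k ≤ Cu ^ J * (Ub (k + J) / m (k + J)) := by
    rw [div_le_iff₀ hmk, mul_assoc, div_mul_eq_mul_div, mul_div_assoc', le_div_iff₀ hmJ]
    nlinarith [hpow k J]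
  rw [mul_pow]
  calc C ^ J / 2 ^ V * (Ub (k + J) / m k) ≤ C ^ J / 2 ^ V * (Cu ^ J * (Ub (k + J) / m (k + J))) := by gcongr
    _ = _ := by ring

/-- many moves: many folds with hysteresis -/
theorem count_hyst {f : ℕ → ℤ} {n m u M : ℕ} {R R' : ℤ} {e : ℕ → ℕ} (h : Hyst f n R m u e) (hR : R ≤ R')
    (hA : EN.Alt f n M R') : M ≤ 2 * m + 3 := by
  obtain ⟨τ, s, hs, h1, h2, h3⟩ := hA
  have hex : ∀ j, j + 2 ≤ M → ∃ i, i ≤ m ∧ τ j < e i ∧ e i < τ (j + 2) := by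
    intro j hj
    by_contra hc
    have hc' : ∀ i, i ≤ m → ¬ (τ j < e i ∧ e i < τ (j + 2)) := fun i hi hh => hc ⟨i, hi, hh.1, hh.2⟩
    rcases EN.cell_of hc' with h4 | h4 | ⟨i, hi, h4, h5⟩
    · refine EN.no_two hs h3 h1 hj (Or.inl rfl) fun x y hx hxy hy => ?_
      have := h.start x y (by omega) (by omega)
      linarith
    · refine EN.no_two hs h3 h1 hj (Or.inl rfl) fun x y hx hxy hy => ?_
      have h6 := h2 (j + 2) hj
      have := h.fin x y (by omega) (by omega) (by omega) (by omega)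
      linarith
    · rcases Nat.even_or_odd (u + i) with h6 | h6
      · refine EN.no_two hs h3 h1 hj (Or.inr rfl) fun x y hx hxy hy => ?_
        have h7 := h.small i hi x y (by omega) hxy (by omega)
        rw [Tight.sg_even h6, Tight.sg_even h6] at h7
        linarith
      · refine EN.no_two hs h3 h1 hj (Or.inl rfl) fun x y hx hxy hy => ?_
        have h7 := h.small i hi x y (by omega) hxy (by omega)
        rw [Tight.sg_odd (Nat.not_even_iff_odd.2 h6), Tight.sg_odd (Nat.not_even_iff_odd.2 h6)] at h7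
        linarith
  have hmono : ∀ i j, i ≤ j → j ≤ M → τ i ≤ τ j := by
    intro i j hij
    induction j, hij using Nat.le_induction with
    | base => intro _; exact le_rfl
    | succ j hj ih => intro hjM; exact (ih (by omega)).trans (h1 j (by omega))
  have hch : ∀ j : ℕ, ∃ i : ℕ, j < M / 2 → (i ≤ m ∧ τ (2 * j) < e i ∧ e i < τ (2 * j + 2)) := by
    intro j
    by_cases hj : j < M / 2
    · obtain ⟨i, hi⟩ := hex (2 * j) (by omega)
      exact ⟨i, fun _ => hi⟩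
    · exact ⟨0, fun h => absurd h hj⟩
  choose g hg using hch
  have hcard : (range (M / 2)).card ≤ (range (m + 1)).card := by
    refine Finset.card_le_card_of_injOn g (fun j hj => ?_) ?_
    · have hj' : j < M / 2 := mem_range.1 (Finset.mem_coe.1 hj)
      have := (hg j hj').1
      exact Finset.mem_coe.2 (mem_range.2 (by omega))
    · intro j hj j' hj' hgg
      have hj1 : j < M / 2 := mem_range.1 (Finset.mem_coe.1 hj)
      have hj2 : j' < M / 2 := mem_range.1 (Finset.mem_coe.1 hj')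
      obtain ⟨_, a1, a2⟩ := hg j hj1
      obtain ⟨_, b1, b2⟩ := hg j' hj2
      rw [hgg] at a1 a2
      by_contra hne
      rcases Nat.lt_or_gt_of_ne hne with hlt | hlt
      · have := hmono (2 * j + 2) (2 * j') (by omega) (by omega)
        omega
      · have := hmono (2 * j' + 2) (2 * j) (by omega) (by omega)
        omega
  rw [card_range, card_range] at hcard
  omega

/-- the form with many moves, the scale m k -/
theorem tallXM {m : ℕ → ℝ} (hm : ∀ k, 0 < m k) (hT : TallX m) : ∃ (C : ℝ) (s k0 M0 : ℕ), 1 ≤ C ∧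
    ∀ k J n V : ℕ, k0 ≤ k → 6 ≤ J → 1 ≤ V →
    gf {t | t.length = n ∧ t ∈ WL (k + J) ∧ Many t t.length M0 (RR (k + 5)) ∧
      ∃ (dir : Bool) (a u : ℕ) (e : ℕ → ℕ), Lf dir (k + 5) t a u e ∧
      ∃ j, j < a ∧ 3 * ((V : ℤ) * 2 ^ (k + s)) ≤ |lp dir t (e (j + 1)) - lp dir t (e j)|} ≤
      ENNReal.ofReal (C ^ J / 2 ^ V * (Ub (k + J) / m k)) * Xb (k + J) ^ 2 := by
  obtain ⟨s, k0, J1, C, hC, h⟩ := hT
  refine ⟨2 * C, s, k0, 2 * J1 + 3, by linarith, fun k J n V hk hJ hV => ?_⟩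
  have hw : ∀ d : Fin 3, d ≠ 2 → ∀ t, EN.wd d t = t := fun d hd t => by
    unfold EN.wd
    rw [if_neg hd]
  have e0 : EN.dr 0 = false := by decide
  have e1 : EN.dr 1 = true := by decide
  have h0 := h 0 k J n V hk hJ hV
  have h1 := h 1 k J n V hk hJ hV
  simp only [e0, hw 0 (by decide)] at h0
  simp only [e1, hw 1 (by decide)] at h1
  have hU := Ub_pos (k + J)
  have hmk := hm k
  have hC0 : 0 < C := by linarith
  have hsub : {t | t.length = n ∧ t ∈ WL (k + J) ∧ Many t t.length (2 * J1 + 3) (RR (k + 5)) ∧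
      ∃ (dir : Bool) (a u : ℕ) (e : ℕ → ℕ), Lf dir (k + 5) t a u e ∧
      ∃ j, j < a ∧ 3 * ((V : ℤ) * 2 ^ (k + s)) ≤ |lp dir t (e (j + 1)) - lp dir t (e j)|} ⊆
      {t | t.length = n ∧ t ∈ WL (k + J) ∧ ∃ (a u : ℕ) (e : ℕ → ℕ), Lf false (k + 5) t a u e ∧ J1 ≤ a ∧
        ∃ j, j < a ∧ 3 * ((V : ℤ) * 2 ^ (k + s)) ≤ |lp false t (e (j + 1)) - lp false t (e j)|} ∪
      {t | t.length = n ∧ t ∈ WL (k + J) ∧ ∃ (a u : ℕ) (e : ℕ → ℕ), Lf true (k + 5) t a u e ∧ J1 ≤ a ∧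
        ∃ j, j < a ∧ 3 * ((V : ℤ) * 2 ^ (k + s)) ≤ |lp true t (e (j + 1)) - lp true t (e j)|} := by
    rintro t ⟨h2, h3, h4, dir, a, u, e, h5, h6⟩
    have h7 := count_hyst h5 le_rfl (h4 dir)
    cases dir
    · exact Or.inl ⟨h2, h3, a, u, e, h5, by omega, h6⟩
    · exact Or.inr ⟨h2, h3, a, u, e, h5, by omega, h6⟩
  refine (gf_mono hsub).trans ((gf_union_le _ _).trans ((add_le_add h0 h1).trans ?_))
  rw [← add_mul, ← ENNReal.ofReal_add (by positivity) (by positivity)]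
  refine mul_le_mul_left (ENNReal.ofReal_le_ofReal ?_) _
  have e2 : (2 : ℝ) ≤ 2 ^ J := by
    calc (2 : ℝ) = 2 ^ 1 := by norm_num
      _ ≤ 2 ^ J := pow_le_pow_right₀ (by norm_num) (by omega)
  have hq : 0 ≤ C ^ J / 2 ^ V * (Ub (k + J) / m k) := by positivity
  rw [mul_pow]
  calc C ^ J / 2 ^ V * (Ub (k + J) / m k) + C ^ J / 2 ^ V * (Ub (k + J) / m k) =
      2 * (C ^ J / 2 ^ V * (Ub (k + J) / m k)) := by ring
    _ ≤ 2 ^ J * (C ^ J / 2 ^ V * (Ub (k + J) / m k)) := by gcongr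
    _ = _ := by ring

/-- **TallX at the scale of mZ** -/
theorem tallX : TallX (fun k => PW.mZ (2 ^ k)) := tallX_of (fun _ => PW.mZ_pos Nat.one_le_two_pow) EN.gbu_M

end SIM

end HexObs
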