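import Pool.Agent.SIM.HumpDefs
import Pool.Agent.SIM.AdjG
import Pool.Agent.SIM.EvX
import Pool.Agent.SIM.RegAll
import Pool.Agent.SIM.TallX
import Pool.Agent.EN.EmoM

/-!
SIM, exactly n letters: regularity of all points at one scale for the words with many leaves in both directions.
-/

set_option autoImplicit false

namespace HexObs

namespace SIM

open Finset TS SDN NTW NTA

open scoped ENNReal

/-- the number of the direction dir -/
def dd (dir : Bool) : Fin 3 := if dir then 1 else 0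

lemma dr_dd (dir : Bool) : EN.dr (dd dir) = dir := by
  cases dir <;> decide

lemma wd_dd (dir : Bool) (t : List Bool) : EN.wd (dd dir) t = t := by
  unfold EN.wd
  rw [if_neg]
  cases dir <;> decide

/-- a run of bad leaves in a word with many leaves -/
lemma adj_erl {dir : Bool} {k K J1 s V M : ℕ} {S : Set (List Bool)} {t : List Bool} {R : ℤ} (hK : k + 2 ≤ K)
    (hJ : 1 ≤ J1) (hM : 8 * J1 + 8 ≤ M) (hR : RR (k + 5) ≤ R) (hMany : Many t t.length M R)
    (h : t ∈ ERL dir k K (RunB k s S V)) :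
    EN.HR (dd dir) k (Adj k (2 ^ (K + 3)) J1 (RunB k s S (V / 2))) t := by
  obtain ⟨ht, m, u, e, hF, l, d, hl, hd, hm, hr⟩ := h
  have h1 : M ≤ 2 * m + 3 := by
    have h2 := hF
    unfold Lf at h2
    exact count_hyst h2 hR (hMany dir)
  have hF' : Lf (EN.dr (dd dir)) (k + 5) (EN.wd (dd dir) t) m u e := by
    rw [dr_dd, wd_dd]
    exact hF
  refine hr_adj_runB ht hK hJ hF' hl hd hm ?_ (by omega)
  rw [wd_dd]
  exact hr

lemma inH_RunB {k s V : ℕ} {S : Set (List Bool)} : EN.InH (2 ^ (k + 4)) (RunB k s S V) :=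
  fun _ hgs g hg => (hgs.2.1 g hg).2.2

private lemma RR_mono {a b : ℕ} (h : a ≤ b) : RR a ≤ RR b := by
  unfold RR
  have : (2 : ℤ) ^ a ≤ 2 ^ b := pow_le_pow_right₀ (by norm_num) h
  linarith

/-- **regularity of all points at one scale, exactly n letters** -/
theorem regX_of {A B : ℤ} {m : ℕ → ℝ} (hm : ∀ k, 0 < m k) (hMG : EN.MG m) (hEv : EvAX m) (hA : RunBad DmJ)
    (hB : BadNorm A B DmJ) (hG : GeoIrg A B) (hT : TallX m) : RegX A B m := by
  classical
  obtain ⟨s1, J0, e0, he0, hrun⟩ := hA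
  obtain ⟨CT, s2, kT, MT, hCT, htall⟩ := tallXM hm hT
  obtain ⟨C1, kX, J1, hC1, hJ1, hX⟩ := hEv
  obtain ⟨Cm, hCm, hmg⟩ := hMG
  obtain ⟨c, kB, hckB, hbad⟩ := hB J0 e0 he0
  obtain ⟨s, hs⟩ : ∃ s, s = s1 + s2 := ⟨_, rfl⟩
  obtain ⟨M, hM, hgeo⟩ := hG s c
  have hMr : (1 : ℝ) ≤ M := by exact_mod_cast hM
  have hC0 : 1 ≤ C1 + CT := by linarith
  have hCC : 1 ≤ 20 * Cm * (4 * (C1 + CT)) := by
    have h1 : 1 ≤ 20 * Cm := by linarith
    have h2 : 1 ≤ 4 * (C1 + CT) := by linarith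
    exact one_le_mul_of_one_le_of_one_le h1 h2
  refine ⟨20 * Cm * (4 * (C1 + CT)), 1 / (2 * M), kT + kX + kB, c + 6, 2 * M, 8 * J1 + 8 + MT, c + 5, hCC, by positivity,
    fun r J n nn hr hJ hn => ?_⟩
  obtain ⟨k, hk⟩ : ∃ k, k = r + c := ⟨_, rfl⟩
  obtain ⟨J', hJ'⟩ : ∃ J', J' = J - c := ⟨_, rfl⟩
  obtain ⟨V, hV⟩ : ∃ V, V = n / M - 1 := ⟨_, rfl⟩
  have hkr : k - c = r := by omega
  have hkJ : k + J' = r + J := by omega
  have hnM : 2 ≤ n / M := (Nat.le_div_iff_mul_le (by omega)).2 hn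
  have hV1 : M * (V + 1) ≤ n := by
    rw [hV, show n / M - 1 + 1 = n / M by omega]
    exact Nat.mul_div_le n M
  have hVr : (n : ℝ) / M ≤ V + 2 := by
    have h1 : n < M * (n / M + 1) := by
      have := Nat.lt_mul_div_succ n (show 0 < M by omega)
      simpa using this
    have h2 : n / M + 1 = V + 2 := by omega
    rw [h2] at h1
    have h3 : (n : ℝ) < M * (V + 2) := by exact_mod_cast h1
    rw [div_le_iff₀ (by linarith)]
    linarith
  have hU := Ub_pos (r + J)
  have hmk := hm k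
  have hmrJ := hm (r + J)
  -- the norms
  have hS : ∀ S : Set (List Bool), S = PA A r ∨ S = PB B r → SmR DmJ k (RunB k s S (V / 2)) (1 / 2 ^ (V / 2)) := by
    intro S hS
    refine SmR_mono (RunB_mono (by omega)) (hrun k S (SmD_mono ?_ (hbad k (by omega))) (V / 2))
    rintro g ⟨h1, h2⟩
    rw [hkr]
    rcases hS with rfl | rfl
    · exact ⟨h1, Or.inl h2⟩
    · exact ⟨h1, Or.inr h2⟩
  obtain ⟨E, hE⟩ : ∃ E : Bool → Set (List Bool) → Set (List Bool), E = fun dir S => {t | t.length = nn ∧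
      t ∈ WL (k + J') ∧ EN.HR (dd dir) k (Adj k (2 ^ (k + J' + 3)) J1 (RunB k s S (V / 2))) t} := ⟨_, rfl⟩
  obtain ⟨TE, hTE⟩ : ∃ TE : Set (List Bool), TE = {t | t.length = nn ∧ t ∈ WL (k + J') ∧
      Many t t.length MT (RR (k + 5)) ∧ ∃ (dir : Bool) (m u : ℕ) (e : ℕ → ℕ),
      Lf dir (k + 5) t m u e ∧ ∃ j, j < m ∧
      3 * ((V : ℤ) * 2 ^ (k + s2)) ≤ |lp dir t (e (j + 1)) - lp dir t (e j)|} := ⟨_, rfl⟩
  -- the cover
  have hcov : {t | (t.length = nn ∧ t ∈ WL (r + J)) ∧ Many t t.length (8 * J1 + 8 + MT) (RR (r + (c + 5))) ∧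
      Irg A B r n t} ⊆ (((E false (PA A r) ∪ E true (PA A r)) ∪ (E false (PB B r) ∪ E true (PB B r))) ∪ TE) := by
    rintro t ⟨⟨h0, h1⟩, hMany, h2⟩
    have hRR : RR (k + 5) ≤ RR (r + (c + 5)) := RR_mono (by omega)
    have h3 := hgeo k (k + J') V t (by omega) (by omega) (by rw [hkJ]; exact h1) (by
      rw [hkr]
      exact Irg_mono hV1 h2)
    rw [hkr] at h3
    have hadj : ∀ (dir : Bool) (S : Set (List Bool)), t ∈ ERL dir k (k + J') (RunB k s S V) → t ∈ E dir S := by
      intro dir S h4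
      rw [hE]
      exact ⟨h0, h4.1, adj_erl (by omega) hJ1 (Nat.le_add_right _ _) hRR hMany h4⟩
    rcases h3 with ⟨dir, h4⟩ | ⟨dir, h4⟩ | h4
    · left
      left
      cases dir
      · exact Or.inl (hadj _ _ h4)
      · exact Or.inr (hadj _ _ h4)
    · left
      right
      cases dir
      · exact Or.inl (hadj _ _ h4)
      · exact Or.inr (hadj _ _ h4)
    · right
      rw [hTE]
      refine ⟨h0, by rw [hkJ]; exact h1, hMany.mono le_rfl (by omega) hRR, ?_⟩
      obtain ⟨dir, m, u, e, h5, j, h6, h7⟩ := h4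
      refine ⟨dir, m, u, e, h5, j, h6, le_trans ?_ h7⟩
      have e1 : (2 : ℤ) ^ (k + s2) ≤ 2 ^ (k + s) := pow_le_pow_right₀ (by norm_num) (by omega)
      have e2 : (0 : ℤ) ≤ V := by positivity
      nlinarith
  obtain ⟨W, hW⟩ : ∃ W, W = ENNReal.ofReal (C1 ^ J' * (1 / 2 ^ (V / 2)) * (Ub (r + J) / m k)) * Xb (r + J) ^ 2 :=
    ⟨_, rfl⟩
  have hrunX : ∀ (dir : Bool) (S : Set (List Bool)), S = PA A r ∨ S = PB B r → gf (E dir S) ≤ W := by
    intro dir S hS1
    rw [hW, hE, ← hkJ]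
    exact hX (dd dir) k J' nn _ (1 / 2 ^ (V / 2)) (by omega) (by omega) (by positivity) inH_RunB (hS S hS1)
  have hTE' : gf TE ≤ ENNReal.ofReal (CT ^ J' / 2 ^ V * (Ub (r + J) / m k)) * Xb (r + J) ^ 2 := by
    rw [hTE, ← hkJ]
    exact htall k J' nn V (by omega) (by omega) (by omega)
  have hun : ∀ S T : Set (List Bool), gf (S ∪ T) ≤ gf S + gf T := fun S T => gf_union_le S T
  have hq : 0 ≤ Ub (r + J) / m k := by positivity
  calc gf {t | (t.length = nn ∧ t ∈ WL (r + J)) ∧ Many t t.length (8 * J1 + 8 + MT) (RR (r + (c + 5))) ∧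
        Irg A B r n t} ≤ _ := gf_mono hcov
    _ ≤ ((W + W) + (W + W)) + ENNReal.ofReal (CT ^ J' / 2 ^ V * (Ub (r + J) / m k)) * Xb (r + J) ^ 2 := by
        refine (hun _ _).trans (add_le_add ((hun _ _).trans (add_le_add ((hun _ _).trans ?_) ((hun _ _).trans ?_))) hTE')
        · exact add_le_add (hrunX _ _ (Or.inl rfl)) (hrunX _ _ (Or.inl rfl))
        · exact add_le_add (hrunX _ _ (Or.inr rfl)) (hrunX _ _ (Or.inr rfl))
    _ = ENNReal.ofReal ((4 * (C1 ^ J' * (1 / 2 ^ (V / 2))) + CT ^ J' / 2 ^ V) * (Ub (r + J) / m k)) *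
          Xb (r + J) ^ 2 := by
        rw [hW, ← add_mul, ← add_mul, ← add_mul, ← ENNReal.ofReal_add (by positivity) (by positivity),
          ← ENNReal.ofReal_add (by positivity) (by positivity), ← ENNReal.ofReal_add (by positivity) (by positivity)]
        congr 2
        ring
    _ ≤ _ := by
        refine mul_le_mul_left (ENNReal.ofReal_le_ofReal ?_) _
        have h1 : C1 ^ J' ≤ (C1 + CT) ^ J := by
          calc C1 ^ J' ≤ (C1 + CT) ^ J' := pow_le_pow_left₀ (by linarith) (by linarith) _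
            _ ≤ _ := pow_le_pow_right₀ (by linarith) (by omega)
        have h2 : CT ^ J' ≤ (C1 + CT) ^ J := by
          calc CT ^ J' ≤ (C1 + CT) ^ J' := pow_le_pow_left₀ (by linarith) (by linarith) _
            _ ≤ _ := pow_le_pow_right₀ (by linarith) (by omega)
        have h3 : (1 : ℝ) / 2 ^ (V / 2) ≤ 4 * (2 : ℝ) ^ (-(1 / (2 * M) * n) : ℝ) := by
          have e1 : (4 : ℝ) * (2 : ℝ) ^ (-(1 / (2 * M) * n) : ℝ) = (2 : ℝ) ^ (2 - 1 / (2 * M) * n : ℝ) := by
            rw [sub_eq_add_neg, Real.rpow_add two_pos]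
            norm_num
          rw [e1, one_div, ← Real.rpow_natCast, ← Real.rpow_neg (by norm_num)]
          refine Real.rpow_le_rpow_of_exponent_le (by norm_num) ?_
          have e2 : (1 : ℝ) / (2 * M) * n = n / M / 2 := by
            field_simp
          have e3 : (V : ℝ) ≤ 2 * ((V / 2 : ℕ) : ℝ) + 1 := by
            have : V ≤ 2 * (V / 2) + 1 := by omega
            exact_mod_cast this
          rw [e2]
          linarith
        have h4 : (1 : ℝ) / 2 ^ V ≤ 1 / 2 ^ (V / 2) := by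
          apply one_div_le_one_div_of_le (by positivity)
          exact pow_le_pow_right₀ (by norm_num) (Nat.div_le_self _ _)
        have h5 : 1 / m k ≤ Cm * 4 ^ J / m (r + J) := by
          rw [div_le_div_iff₀ hmk hmrJ, one_mul]
          have e1 := hmg k J'
          rw [hkJ] at e1
          refine e1.trans ?_
          have e2 : (2 : ℝ) ^ (3 / 2 * (J' : ℝ)) ≤ 4 ^ J := by
            calc (2 : ℝ) ^ (3 / 2 * (J' : ℝ)) ≤ (2 : ℝ) ^ (2 * (J : ℝ)) := by
                  apply Real.rpow_le_rpow_of_exponent_le (by norm_num)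
                  have : (J' : ℝ) ≤ J := by exact_mod_cast (show J' ≤ J by omega)
                  have h0 : (0 : ℝ) ≤ J' := Nat.cast_nonneg _
                  linarith
              _ = 4 ^ J := by
                  rw [Real.rpow_mul (by norm_num), Real.rpow_natCast]
                  norm_num
          gcongr
        have h6 : 0 < (2 : ℝ) ^ (-(1 / (2 * M) * n) : ℝ) := Real.rpow_pos_of_pos two_pos _
        obtain ⟨q, hqq⟩ : ∃ q : ℝ, q = (2 : ℝ) ^ (-(1 / (2 * M) * n) : ℝ) := ⟨_, rfl⟩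
        rw [← hqq] at h3 h6 ⊢
        have h7 : 4 * (C1 ^ J' * (1 / 2 ^ (V / 2))) + CT ^ J' / 2 ^ V ≤ 20 * ((C1 + CT) ^ J * q) := by
          calc 4 * (C1 ^ J' * (1 / 2 ^ (V / 2))) + CT ^ J' / 2 ^ V
              = 4 * (C1 ^ J' * (1 / 2 ^ (V / 2))) + CT ^ J' * (1 / 2 ^ V) := by ring
            _ ≤ 4 * ((C1 + CT) ^ J * (4 * q)) + (C1 + CT) ^ J * (4 * q) := by
                refine add_le_add ?_ ?_
                · gcongr
                · exact mul_le_mul h2 (h4.trans h3) (by positivity) (by positivity)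
            _ = _ := by ring
        have h8 : Ub (r + J) / m k ≤ Ub (r + J) * (Cm * 4 ^ J / m (r + J)) := by
          rw [div_eq_mul_one_div]
          gcongr
        calc (4 * (C1 ^ J' * (1 / 2 ^ (V / 2))) + CT ^ J' / 2 ^ V) * (Ub (r + J) / m k)
            ≤ 20 * ((C1 + CT) ^ J * q) * (Ub (r + J) * (Cm * 4 ^ J / m (r + J))) := by gcongr
          _ = (20 * Cm) * ((4 * (C1 + CT)) ^ J * q * (Ub (r + J) / m (r + J))) := by
              rw [mul_pow]
              ring
          _ ≤ (20 * Cm) ^ J * ((4 * (C1 + CT)) ^ J * q * (Ub (r + J) / m (r + J))) := by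
              have e1 : 20 * Cm ≤ (20 * Cm) ^ J := by
                calc 20 * Cm = (20 * Cm) ^ 1 := by rw [pow_one]
                  _ ≤ _ := pow_le_pow_right₀ (by linarith) (by omega)
              gcongr
          _ = _ := by
              rw [mul_pow (20 * Cm)]
              ring

/-- **regularity of all points at one scale, exactly n letters, the scale of mZ** -/
theorem regX {A : ℤ} (hA : 0 < A) (B : ℤ) : RegX A B (fun k => PW.mZ (2 ^ k)) :=
  regX_of (fun _ => PW.mZ_pos Nat.one_le_two_pow) EN.mg_M evAX runBad (badNorm hA) (geoIrg A B) tallX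

end SIM

end HexObs
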