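import Pool.Agent.SIM.FinX
import Pool.Agent.SIM.FinC
import Pool.Agent.SIM.NoCutX

import Pool.Agent.SIM.HumpG
import Pool.Agent.SIM.RegX
import Pool.Agent.NTA.MeanM

/-!
# SIM (no double points), exactly n letters: the final assembly (helper69)

* **`humpX_of`**: `HumpX m`: near double points behind many leaves have little mass, exactly n letters;
* **`humpX_M`**: the same for the scale of the walks, no hypothesis.
-/

set_option autoImplicit false

namespace HexObs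

namespace SIM

open Finset TS SDN NTW NTA

open scoped ENNReal

/-- **near double points behind many leaves, exactly n letters** -/
theorem humpX_of {m : ℕ → ℝ} (hm : ∀ k, 0 < m k) (hMU : MUp m) (hG : EN.GBU m) (hEv : EvAX m) (hR : RegX 6 8 m) :
    HumpX m := by
  obtain ⟨Mx, sx, hreg⟩ := regX_off hm hR
  obtain ⟨Jn, hJn, hnc⟩ := nocut_evX hEv
  obtain ⟨JM, hJM, hmass⟩ := mass_X hm hMU hG
  obtain ⟨Cm, hCm, hMU⟩ := hMU
  obtain ⟨M, hM⟩ : ∃ M : ℕ, M = Mx + 2 * JM + 4 * Jn + 20 := ⟨_, rfl⟩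
  refine ⟨M, fun J J' η e hη he => ?_⟩
  obtain ⟨e', he'⟩ : ∃ e' : ℝ, e' = e / 4 := ⟨_, rfl⟩
  have he'0 : 0 < e' := by rw [he']; positivity
  -- the hump scale
  obtain ⟨e1, he1⟩ : ∃ e1 : ℝ, e1 = min e' (η / 2 ^ J) := ⟨_, rfl⟩
  have he1p : 0 < e1 := by rw [he1]; exact lt_min he'0 (by positivity)
  have he1e : e1 ≤ e' := by rw [he1]; exact min_le_left _ _
  have he1η : e1 ≤ η / 2 ^ J := by rw [he1]; exact min_le_right _ _
  obtain ⟨S1, J1, n1, K1, hS1, hJ1a, hn1, hJ1, -, hr1, -, hK1, hoff1⟩ := hreg (e := e1) (M := 0) he1p (J + J' + sx + 1)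
  obtain ⟨a, ha⟩ : ∃ a, a = J1 0 := ⟨_, rfl⟩
  obtain ⟨ν, hν⟩ : ∃ ν, ν = n1 0 := ⟨_, rfl⟩
  have hν1 : 107 ≤ ν := by rw [hν]; exact hn1 0
  have ha1 : J + J' + sx + 1 ≤ a := by rw [ha]; exact hJ1a 0
  rw [← ha, ← hν] at hr1
  rw [← ha] at hoff1
  -- the event without cuts
  have hCm0 : 0 < Cm := by linarith
  obtain ⟨dw, kN, hd0, hdw, hdN, hnoc⟩ := hnc 4 (by norm_num) (a + 5) (by omega) (e' / Cm ^ (a + 5)) (by positivity)
  have hd34 : dw 3 < dw 4 := by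
    have := hdw 3
    simp only [Nat.reduceAdd] at this
    omega
  obtain ⟨A, kE, hA, hmass⟩ := hmass (a + 5) (dw 3) (dw 4) (by omega) hd34
  -- the scales
  obtain ⟨e2, he2⟩ : ∃ e2 : ℝ, e2 = min e' (1 / 2 ^ (a + 2)) := ⟨_, rfl⟩
  have he2p : 0 < e2 := by rw [he2]; exact lt_min he'0 (by positivity)
  have he2e : e2 ≤ e' := by rw [he2]; exact min_le_left _ _
  have he2a : e2 ≤ 1 / 2 ^ (a + 2) := by rw [he2]; exact min_le_right _ _
  obtain ⟨S2, J2, n2, K2, hS2, hJ2a, hn2, hJ2, h240, hr2, hM2, hK2, hoff2⟩ := hreg (e := e2) (M := A / e') he2p a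
  have hJmono : ∀ s, s ≤ S2 → J2 s ≤ J2 S2 := fun s hs => (strictMono_nat_of_lt_succ hJ2).monotone hs
  refine ⟨1 / 2 ^ J2 S2, K1 + K2 + kN + kE + a + dw 4 + J' + 20, by positivity, fun k nn hk => ?_⟩
  obtain ⟨K, hK⟩ : ∃ K, K = k + J := ⟨_, rfl⟩
  obtain ⟨k0, hk0⟩ : ∃ k0, k0 = K - a - 7 := ⟨_, rfl⟩
  have hkcK : k0 + 2 + (a + 5) = K := by omega
  have hgfS := hnoc 0 (k0 + 2) nn (by omega)
  rw [hkcK] at hgfS
  rw [← hK]
  have hU := TS.Ub_pos K
  have hmK := hm K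
  obtain ⟨V, hV⟩ : ∃ V : ℝ, V = Ub K / m K := ⟨_, rfl⟩
  have hV0 : 0 < V := by rw [hV]; positivity
  rw [← hV]
  obtain ⟨ρ, hρ⟩ : ∃ ρ : ℕ → ℕ, ρ = fun s => 2 ^ (K - J2 s) := ⟨_, rfl⟩
  obtain ⟨R, hR⟩ : ∃ R : ℕ → ℕ, R = fun s => 3 * n2 s * 2 ^ (K - J2 s) := ⟨_, rfl⟩
  obtain ⟨P, hP⟩ : ∃ P : List Bool → Prop, P = fun t => ∃ i l j : ℕ, i ≤ l ∧ l ≤ j ∧ j ≤ t.length ∧
    Many t i M (RR (k - J')) ∧
    (∃ dir : Bool, η * 2 ^ k ≤ |((lvl dir (vx oo up t l) - lvl dir (vx oo up t i) : ℤ) : ℝ)|) ∧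
    ∀ dir : Bool, |((lvl dir (vx oo up t j) - lvl dir (vx oo up t i) : ℤ) : ℝ)| ≤ 1 / 2 ^ J2 S2 * 2 ^ k := ⟨_, rfl⟩
  obtain ⟨B1, hB1⟩ : ∃ B1 : Set (List Bool), B1 = {t | t.length = nn ∧ Many t t.length Mx (RR (K - a + sx)) ∧
    t ∈ OffR S1 J1 n1 K} := ⟨_, rfl⟩
  obtain ⟨B2, hB2⟩ : ∃ B2 : Set (List Bool), B2 = {t | t.length = nn ∧ Many t t.length Mx (RR (K - J2 0 + sx)) ∧
    t ∈ OffR S2 J2 n2 K} := ⟨_, rfl⟩
  obtain ⟨B3, hB3⟩ : ∃ B3 : Set (List Bool), B3 = {t | t.length = nn ∧ t ∈ WL K ∧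
    EN.HR 0 (k0 + 2) (Adj (k0 + 2) (2 ^ (K + 3)) Jn (EN.One (NcS (k0 + 2) (a + 5) 4 dw))) t} := ⟨_, rfl⟩
  obtain ⟨E, hE⟩ : ∃ E : Set (List Bool), E = {t | (t.length = nn ∧ t ∈ WL K) ∧ P t ∧ t ∉ B1 ∧ t ∉ B2 ∧ t ∉ B3} :=
    ⟨_, rfl⟩
  -- the first radius
  have hJK : ∀ s, s ≤ S2 → J2 s + 6 ≤ K := fun s hs => by have := hJmono s hs; omega
  have hR0 : 3 * n2 0 * 2 ^ (K - J2 0) * 2 ^ (a + 2) ≤ 2 ^ K := by
    have h1 : 3 * (n2 0 : ℝ) ≤ 1 / 2 ^ (a + 2) * 2 ^ J2 0 := hr2.trans (mul_le_mul_of_nonneg_right he2a (by positivity))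
    have h2 : 3 * n2 0 * 2 ^ (a + 2) ≤ 2 ^ J2 0 := by
      have h3 : 3 * (n2 0 : ℝ) * 2 ^ (a + 2) ≤ 2 ^ J2 0 := by
        calc 3 * (n2 0 : ℝ) * 2 ^ (a + 2) ≤ (1 / 2 ^ (a + 2) * 2 ^ J2 0) * 2 ^ (a + 2) :=
              mul_le_mul_of_nonneg_right h1 (by positivity)
          _ = 2 ^ J2 0 := by field_simp
      exact_mod_cast h3
    calc 3 * n2 0 * 2 ^ (K - J2 0) * 2 ^ (a + 2) = (3 * n2 0 * 2 ^ (a + 2)) * 2 ^ (K - J2 0) := by ring
      _ ≤ 2 ^ J2 0 * 2 ^ (K - J2 0) := Nat.mul_le_mul_right _ h2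
      _ = 2 ^ K := by
        rw [← pow_add]
        congr 1
        have := hJK 0 (Nat.zero_le _)
        omega
  have hRs : ∀ s, s < S2 → R s * 2 ^ (a + 2) ≤ 2 ^ K := by
    intro s hs
    have h1 := (rad_le (K := K) hJ2 hn2 h240 s (by have := hJK s hs.le; omega)).1
    rw [hR]
    exact (Nat.mul_le_mul_right _ h1).trans hR0
  have hRr : ∀ s, s < S2 → R s ≤ 2 ^ (K - a - 2) := by
    intro s hs
    have h1 := hRs s hs
    have h4 : (2 : ℕ) ^ K = 2 ^ (a + 2) * 2 ^ (K - a - 2) := by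
      rw [← pow_add]
      congr 1
      omega
    rw [h4, mul_comm (R s)] at h1
    exact Nat.le_of_mul_le_mul_left h1 (by positivity)
  have hgE : gf E ≤ ENNReal.ofReal (e' * V) * Xb K ^ 2 := by
    have hsumeq : ∑ s ∈ range S2, (ρ s : ℝ) / R s = ∑ s ∈ range S2, 1 / (3 * (n2 s : ℝ)) := by
      refine Finset.sum_congr rfl fun s _ => ?_
      have h1 : (0 : ℝ) < n2 s := by
        have := hn2 s
        exact_mod_cast (by omega : 0 < n2 s)
      rw [hρ, hR]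
      push_cast
      field_simp
    have hA0 : 0 < A := by linarith
    have hsum0 : A / e' ≤ ∑ s ∈ range S2, (ρ s : ℝ) / R s := by
      rw [hsumeq]
      exact hM2
    have hsum : 0 < ∑ s ∈ range S2, (ρ s : ℝ) / R s := lt_of_lt_of_le (by positivity) hsum0
    have h1 := hmass k0 S2 (2 ^ (K - J2 S2)) nn ρ R E (by omega) ?_ ?_ hsum ?_
    · rw [show k0 + (a + 5) + 2 = K by omega, ← hV] at h1
      refine h1.trans (mul_le_mul_left (ENNReal.ofReal_le_ofReal (mul_le_mul_of_nonneg_right ?_ hV0.le)) _)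
      rw [div_le_iff₀ hsum]
      rw [div_le_iff₀ he'0] at hsum0
      linarith
    · intro s hs
      have h2 := hJK s hs.le
      have h3 := hJmono s hs.le
      have h4 := hRr s hs
      have h5 := hn2 s
      have h6 : 2 ^ 6 ≤ 2 ^ (K - J2 s) := Nat.pow_le_pow_right (by norm_num) (by omega)
      have h7 : 2 ^ (K - J2 S2) ≤ 2 ^ (K - J2 s) := Nat.pow_le_pow_right (by norm_num) (by omega)
      have h8 : R s = 3 * n2 s * 2 ^ (K - J2 s) := by rw [hR]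
      have h9 : ρ s = 2 ^ (K - J2 s) := by rw [hρ]
      have h10 : 321 * 2 ^ (K - J2 s) ≤ R s := by
        rw [h8]
        exact Nat.mul_le_mul_right _ (by omega)
      have h12 : 2 ^ (K - a - 2) ≤ 2 ^ (k0 + (a + 5) + 3 + 4) := Nat.pow_le_pow_right (by norm_num) (by omega)
      rw [h9]
      refine ⟨by omega, by omega, by omega, by omega⟩
    · intro s hs
      have h2 := (rad_le (K := K) hJ2 hn2 h240 (s + 1) (by have := hJK (s + 1) hs.le; omega)).2 (by omega)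
      rw [hR, hρ]
      exact h2
    · intro t ht
      rw [hE] at ht
      obtain ⟨⟨tl, t1⟩, hPt, t3, t4, t5⟩ := ht
      rw [hP] at hPt
      obtain ⟨i, l, j, hil, hlj, hj, hMany, ⟨dir, hdir⟩, hnear⟩ := hPt
      refine ⟨?_, tl⟩
      obtain ⟨r, hr⟩ : ∃ r, r = K - a := ⟨_, rfl⟩
      have hr7 : k0 + 7 = r := by omega
      have hMi : ∀ R' : ℤ, R' ≤ RR (k - J') → Many t t.length Mx R' := fun R' hR' =>
        hMany.mono (hil.trans (hlj.trans hj)) (by omega) hR'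
      have hoff : t ∉ OffR S1 J1 n1 K := by
        intro hcon
        refine t3 ?_
        rw [hB1]
        exact ⟨tl, hMi _ (RR_mono_x (by omega)), hcon⟩
      have hoffb : t ∉ OffR S2 J2 n2 K := by
        intro hcon
        refine t4 ?_
        rw [hB2]
        refine ⟨tl, hMi _ (RR_mono_x ?_), hcon⟩
        have := hJ2a 0
        have := hJK 0 (Nat.zero_le _)
        omega
      have hnot : ¬ Irg 6 8 r ν t := fun hI => hoff ⟨t1, 0, hS1, by rw [← ha, ← hν, ← hr]; exact hI⟩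
      have hKr : (2 : ℝ) ^ K = 2 ^ a * 2 ^ r := by rw [← pow_add]; congr 1; omega
      have hKk : (2 : ℝ) ^ K = 2 ^ k * 2 ^ J := by rw [← pow_add]; congr 1
      have hbig : 3 * ((ν : ℤ) * 2 ^ r) ≤ |lp dir t l - lp dir t i| := by
        have h2 : (3 * ((ν : ℝ) * 2 ^ r)) ≤ η * 2 ^ k := by
          calc 3 * ((ν : ℝ) * 2 ^ r) = (3 * (ν : ℝ)) * 2 ^ r := by ring
            _ ≤ (e1 * 2 ^ a) * 2 ^ r := mul_le_mul_of_nonneg_right hr1 (by positivity)
            _ = e1 * (2 ^ k * 2 ^ J) := by rw [← hKk, hKr]; ring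
            _ ≤ (η / 2 ^ J) * (2 ^ k * 2 ^ J) := mul_le_mul_of_nonneg_right he1η (by positivity)
            _ = η * 2 ^ k := by field_simp
        have h3 := h2.trans hdir
        have h4 : ((3 * ((ν : ℤ) * 2 ^ r) : ℤ) : ℝ) ≤ ((|lp dir t l - lp dir t i| : ℤ) : ℝ) := by
          push_cast
          push_cast at h3
          exact h3
        exact_mod_cast h4
      have hd : ∀ dir, |lvl dir (vx oo up t j) - lvl dir (vx oo up t i)| ≤ ((2 ^ (K - J2 S2) : ℕ) : ℤ) := by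
        intro dir'
        have h2 := hnear dir'
        have h3 : (1 / 2 ^ J2 S2 : ℝ) * 2 ^ k ≤ 2 ^ (K - J2 S2) := by
          have h4 : (2 : ℝ) ^ K = 2 ^ J2 S2 * 2 ^ (K - J2 S2) := by
            rw [← pow_add]
            congr 1
            have := hJK S2 le_rfl
            omega
          have h5 : (2 : ℝ) ^ k ≤ 2 ^ K := pow_le_pow_right₀ (by norm_num) (by omega)
          rw [h4] at h5
          rw [div_mul_eq_mul_div, one_mul, div_le_iff₀ (by positivity)]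
          linarith
        have h4 : ((|lvl dir' (vx oo up t j) - lvl dir' (vx oo up t i)| : ℤ) : ℝ) ≤
            (((2 ^ (K - J2 S2) : ℕ) : ℤ) : ℝ) := by
          push_cast
          push_cast at h2
          exact h2.trans h3
        exact_mod_cast h4
      have hr3 : (16 : ℤ) ≤ 2 ^ r := by
        calc (16 : ℤ) = 2 ^ 4 := by norm_num
          _ ≤ 2 ^ r := pow_le_pow_right₀ (by norm_num) (by omega)
      have hnr : (5 : ℤ) * 2 ^ r ≤ 3 * ((ν : ℤ) * 2 ^ r) := by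
        have : (107 : ℤ) ≤ ν := by exact_mod_cast hν1
        nlinarith
      obtain ⟨l', hil', hll', hhump⟩ := hump_false hnot hil (hlj.trans hj) ⟨dir, hbig⟩ hnr
      have hdr : 2 * ((2 ^ (K - J2 S2) : ℕ) : ℤ) ≤ 2 ^ r := by
        have h1 : K - J2 S2 + 1 ≤ r := by
          have h2 := hJ2a 0
          have h3 : J2 0 < J2 S2 := strictMono_nat_of_lt_succ hJ2 hS2
          have := hJK S2 le_rfl
          omega
        calc 2 * ((2 ^ (K - J2 S2) : ℕ) : ℤ) = 2 ^ (K - J2 S2 + 1) := by push_cast; ring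
          _ ≤ 2 ^ r := pow_le_pow_right₀ (by norm_num) h1
      have hRRb : RR (k0 + 7) + 3 * ((2 ^ (K - J2 S2) : ℕ) : ℤ) ≤ 5 * 2 ^ r := by
        unfold RR
        rw [hr7]
        linarith
      have hq : ∀ s, s < S2 → 6 ≤ K - J2 s ∧ 3 * n2 s * 2 ^ (K - J2 s) ≤ R s ∧ 8 * 2 ^ (K - J2 s) ≤ R s ∧
          R s ≤ 2 ^ (k0 + 6) ∧ ¬ Irg 6 8 (K - J2 s) (n2 s) t := by
        intro s hs
        have h1 := hJK s hs.le
        have h2 := hn2 s
        have h3 : R s = 3 * n2 s * 2 ^ (K - J2 s) := by rw [hR]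
        refine ⟨by omega, h3.ge, ?_, (hRr s hs).trans (Nat.pow_le_pow_right (by norm_num) (by omega)),
          fun hI => hoffb ⟨t1, s, hs, hI⟩⟩
        rw [h3]
        exact Nat.mul_le_mul_right _ (by omega)
      have hnoE : ¬ EN.HR 0 (k0 + 2) (Adj (k0 + 2) (2 ^ (k0 + 2 + (a + 5) + 3)) Jn
          (EN.One (NcS (k0 + 2) (a + 5) 4 dw))) t := by
        intro hcon
        rw [hkcK] at hcon
        refine t5 ?_
        rw [hB3]
        exact ⟨tl, t1, hcon⟩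
      have ht2 : t ∈ WL (k0 + 2 + (a + 5)) := by
        rw [hkcK]
        exact t1
      have hMk : Many t i M (RR (k0 + 7)) := hMany.mono le_rfl le_rfl (RR_mono_x (by omega))
      have := hump_cut1 (k := k0) (J := a + 5) (N := S2) (dd := 2 ^ (K - J2 S2)) (J1 := JM) (Ja := Jn) (M := M) (d := dw)
        (q := fun s => K - J2 s) (n := n2) (R := R) hd0 hdw (by omega) ht2 (by omega) hMk hJn (by omega) hJM (by omega)
        hnoE hq (hil.trans hlj) hj (mem_Bl_of_lvl hd) ⟨l', hil', hll'.trans hlj, hRRb.trans hhump⟩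
      rw [hρ]
      exact this
  have hsub : {t | (t.length = nn ∧ t ∈ WL K) ∧ P t} ⊆ ((E ∪ B1) ∪ (B3 ∪ B2)) := by
    rintro t ⟨ht, hp⟩
    by_cases h1 : t ∈ B1
    · exact Or.inl (Or.inr h1)
    by_cases h2 : t ∈ B2
    · exact Or.inr (Or.inr h2)
    by_cases h3 : t ∈ B3
    · exact Or.inr (Or.inl h3)
    refine Or.inl (Or.inl ?_)
    rw [hE]
    exact ⟨ht, hp, h1, h2, h3⟩
  rw [hP] at hsub
  have hle : ∀ x, x ≤ e' → ENNReal.ofReal (x * V) * Xb K ^ 2 ≤ ENNReal.ofReal (e' * V) * Xb K ^ 2 := fun x hx =>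
    mul_le_mul_left (ENNReal.ofReal_le_ofReal (mul_le_mul_of_nonneg_right hx hV0.le)) _
  have g1 : gf B1 ≤ ENNReal.ofReal (e' * V) * Xb K ^ 2 := by
    rw [hB1]
    have := hoff1 K nn (by omega)
    rw [← hV] at this
    exact this.trans (hle _ he1e)
  have g2 : gf B2 ≤ ENNReal.ofReal (e' * V) * Xb K ^ 2 := by
    rw [hB2]
    have := hoff2 K nn (by omega)
    rw [← hV] at this
    exact this.trans (hle _ he2e)
  have g3 : gf B3 ≤ ENNReal.ofReal (e' * V) * Xb K ^ 2 := by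
    rw [hB3]
    refine hgfS.trans (mul_le_mul_left (ENNReal.ofReal_le_ofReal ?_) _)
    have hmk := hm (k0 + 2)
    have h1 := mUp_pow hCm hMU (k0 + 2) (a + 5)
    rw [hkcK] at h1
    rw [hV]
    have h2 : Ub K / m (k0 + 2) ≤ Cm ^ (a + 5) * (Ub K / m K) := by
      rw [← mul_div_assoc, div_le_div_iff₀ hmk hmK]
      calc Ub K * m K ≤ Ub K * (Cm ^ (a + 5) * m (k0 + 2)) := mul_le_mul_of_nonneg_left h1 hU.le
        _ = _ := by ring
    calc e' / Cm ^ (a + 5) * (Ub K / m (k0 + 2)) ≤ e' / Cm ^ (a + 5) * (Cm ^ (a + 5) * (Ub K / m K)) :=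
          mul_le_mul_of_nonneg_left h2 (by positivity)
      _ = e' * (Ub K / m K) := by field_simp
  refine (gf_mono hsub).trans ((gf_union_le _ _).trans ((add_le_add ((gf_union_le _ _).trans (add_le_add hgE g1))
    ((gf_union_le _ _).trans (add_le_add g3 g2))).trans ?_))
  obtain ⟨y, hy⟩ : ∃ y, y = e' * V := ⟨_, rfl⟩
  have hy0 : 0 ≤ y := by rw [hy]; positivity
  have hy4 : e * V = y + y + (y + y) := by
    rw [hy, he']
    ring
  rw [← hy, hy4, ENNReal.ofReal_add (by positivity) (by positivity), ENNReal.ofReal_add hy0 hy0]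
  ring_nf
  exact le_rfl

/-- **near double points behind many leaves, exactly n letters, the scale of the walks** -/
theorem humpX_M : HumpX (fun k => PW.mZ (2 ^ k)) :=
  humpX_of (fun _ => PW.mZ_pos Nat.one_le_two_pow) mup_M EN.gbu_M evAX (regX (A := 6) (by norm_num) 8)

end SIM

end HexObs
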