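import Pool.Agent.DIM.Glue
import Pool.Agent.NTS.ResultX

/-!
# SIM/LawS: near double points of the curves X_n, law side, and the weak limits (helper83)

* `Pinch η δ` : the curves with `u ≤ w ≤ v`, `γ w` at distance `> η` from `γ u`, `γ v` at distance `< δ` from `γ u` (open);
* `LawSim` : for every `η, ε` some `δ` such that for all large `n` the law of `X_n` gives at most `ε` to `Pinch η δ`;
* **`inj_lim`** : a weak limit without constant arcs is almost surely injective;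
* `SimX m` : the statement on the words with `n` letters; **`lawSim_of`**.
-/

set_option autoImplicit false

namespace HexObs

namespace SIM

open MeasureTheory Set Metric Filter Topology

open HexObs.TS HexObs.SDN HexObs.NTW

open Pool.Agent.NTS.Res

open NTSF (curve_eq law_le prop_le rot pos_rot om om_norm)

open NTF (JJ)

open DIM (crv crv_of LowC NatC)

open scoped ENNReal Classical

/-- the curves that come back near a point after an excursion -/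
def Pinch (η δ : ℝ) : Set C(unitInterval, ℂ) :=
  {γ | ∃ u w v : unitInterval, u ≤ w ∧ w ≤ v ∧ η < dist (γ w) (γ u) ∧ dist (γ v) (γ u) < δ}

lemma pinch_open (η δ : ℝ) : IsOpen (Pinch η δ) := by
  rw [isOpen_iff_mem_nhds]
  rintro γ ⟨u, w, v, huw, hwv, h1, h2⟩
  have c1 : Continuous fun γ' : C(unitInterval, ℂ) => dist (γ' w) (γ' u) :=
    (NTF.cont_eval w).dist (NTF.cont_eval u)
  have c2 : Continuous fun γ' : C(unitInterval, ℂ) => dist (γ' v) (γ' u) :=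
    (NTF.cont_eval v).dist (NTF.cont_eval u)
  filter_upwards [c1.continuousAt.eventually (lt_mem_nhds h1), c2.continuousAt.eventually (gt_mem_nhds h2)] with γ' a b
  exact ⟨u, w, v, huw, hwv, a, b⟩

lemma pinch_mono {η δ δ' : ℝ} (h : δ ≤ δ') : Pinch η δ ⊆ Pinch η δ' := by
  rintro γ ⟨u, w, v, huw, hwv, h1, h2⟩
  exact ⟨u, w, v, huw, hwv, h1, h2.trans_le h⟩

/-- the statement for the laws -/
def LawSim : Prop := ∀ η ε : ℝ, 0 < η → 0 < ε → ∃ (δ : ℝ) (n0 : ℕ), 0 < δ ∧ ∀ n : ℕ, n0 ≤ n →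
  law n (Pinch η δ) ≤ ENNReal.ofReal ε

/-- **the weak limits do not come back to a point after an excursion** -/
theorem pinch_lim (h : LawSim) {φ : ℕ → ℕ} {ν : Measure C(unitInterval, ℂ)} (hφ : Tendsto φ atTop atTop)
    (hν : IsProbabilityMeasure ν) (hlim : LawTo φ ν) :
    ∀ᵐ γ : C(unitInterval, ℂ) ∂ν, ∀ u w v : unitInterval, u ≤ w → w ≤ v → γ v = γ u → γ w = γ u := by
  have hlim2 := (NTSF.lawTo_iff ⟨ν, hν⟩).1 hlim
  have hge : ∀ n0 : ℕ, ∀ᶠ k in atTop, n0 ≤ φ k := fun n0 => hφ.eventually_ge_atTop n0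
  have key : ∀ j : ℕ, ∀ᵐ γ : C(unitInterval, ℂ) ∂ν,
      ¬ ∃ u w v : unitInterval, u ≤ w ∧ w ≤ v ∧ 1 / ((j : ℝ) + 1) < dist (γ w) (γ u) ∧ γ v = γ u := by
    intro j
    rw [ae_iff]
    refine le_antisymm (ENNReal.le_of_forall_pos_le_add ?_) zero_le
    intro ε hε _
    rw [zero_add]
    obtain ⟨δ, n0, hδ, h1⟩ := h (1 / ((j : ℝ) + 1)) ε (by positivity) (by exact_mod_cast hε)
    have h4 := NTF.open_le hlim2 (pinch_open (1 / ((j : ℝ) + 1)) δ) (ε := ENNReal.ofReal ε) (by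
      filter_upwards [hge n0] with i hi
      exact h1 _ hi)
    rw [ENNReal.ofReal_coe_nnreal] at h4
    refine le_trans (measure_mono ?_) h4
    intro γ hγ
    rw [mem_ofPred_eq, not_not] at hγ
    obtain ⟨u, w, v, huw, hwv, h5, h6⟩ := hγ
    exact ⟨u, w, v, huw, hwv, h5, by rwa [h6, dist_self]⟩
  filter_upwards [ae_all_iff.2 key] with γ hγ u w v huw hwv heq
  by_contra hne
  have hd : 0 < dist (γ w) (γ u) := dist_pos.2 hne
  obtain ⟨j, hj⟩ := exists_nat_one_div_lt hd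
  exact hγ j ⟨u, w, v, huw, hwv, hj, heq⟩

/-- no arc is constant -/
lemma no_const {γ : C(unitInterval, ℂ)} {a c : ℝ} (hc : 0 < c) (ha : 0 < a) (h : LowC (crv γ) a c) {u v : unitInterval}
    (huv : u < v) : ∃ w : unitInterval, u ≤ w ∧ w ≤ v ∧ γ w ≠ γ u := by
  by_contra hcon
  push Not at hcon
  have huv' : (0 : ℝ) < v - u := sub_pos.2 (by exact_mod_cast huv)
  have h1 : ∀ r : ℝ, 0 < r → r ≤ 1 → c * ((v : ℝ) - u) * r ^ (-a) ≤ 1 := by
    intro r hr hr1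
    have h2 := h u v u.2.1 huv.le v.2.2 r hr hr1 {γ u} ?_
    · simpa using h2
    · rw [DIM.crv_image]
      rintro _ ⟨w, hw, rfl⟩
      rw [hcon w hw.1 hw.2]
      simp [hr.le]
  obtain ⟨K, hK⟩ : ∃ K : ℝ, K = c * ((v : ℝ) - u) := ⟨_, rfl⟩
  have hK0 : 0 < K := by
    rw [hK]
    positivity
  obtain ⟨r, hr⟩ : ∃ r : ℝ, r = min 1 ((K / 2) ^ (1 / a)) := ⟨_, rfl⟩
  have hr0 : 0 < r := by
    rw [hr]
    exact lt_min one_pos (Real.rpow_pos_of_pos (by positivity) _)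
  have hr1 : r ≤ 1 := by
    rw [hr]
    exact min_le_left _ _
  have h3 := h1 r hr0 hr1
  rw [← hK, Real.rpow_neg hr0.le, ← div_eq_mul_inv, div_le_one (Real.rpow_pos_of_pos hr0 _)] at h3
  have h4 : r ^ a ≤ K / 2 := by
    calc r ^ a ≤ ((K / 2) ^ (1 / a)) ^ a := Real.rpow_le_rpow hr0.le (by rw [hr]; exact min_le_right _ _) ha.le
      _ = K / 2 := by
          rw [← Real.rpow_mul (by positivity), one_div_mul_cancel ha.ne', Real.rpow_one]
  linarith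

/-- **the weak limits are simple curves** -/
theorem inj_lim (h : LawSim) {φ : ℕ → ℕ} {ν : Measure C(unitInterval, ℂ)} (hφ : Tendsto φ atTop atTop)
    (hν : IsProbabilityMeasure ν) (hlim : LawTo φ ν)
    (hN : ∀ᵐ γ : C(unitInterval, ℂ) ∂ν, NatC (crv γ) (4 / 3)) :
    ∀ᵐ γ : C(unitInterval, ℂ) ∂ν, Function.Injective γ := by
  filter_upwards [pinch_lim h hφ hν hlim, hN] with γ h1 h2
  obtain ⟨c, hc, h3, -⟩ := h2 1 one_pos
  have key : ∀ u v : unitInterval, u < v → γ v ≠ γ u := by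
    intro u v huv heq
    obtain ⟨w, hw1, hw2, hw3⟩ := no_const hc (by norm_num) h3 huv
    exact hw3 (h1 u w v hw1 hw2 heq)
  intro u v heq
  rcases lt_trichotomy u v with h4 | h4 | h4
  · exact absurd heq.symm (key u v h4)
  · exact h4
  · exact absurd heq (key v u h4)

/-! ### The words -/

/-- near double points of the walks with n letters, every n -/
def SimX (m : ℕ → ℝ) : Prop := ∀ η e : ℝ, 0 < η → 0 < e → ∃ (δ : ℝ) (k0 : ℕ), 0 < δ ∧ ∀ k n : ℕ, k0 ≤ k → m k ≤ n →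
  n < m (k + 1) → gf {t | t ∈ SawN n ∧ ∃ i l j : ℕ, i ≤ l ∧ l ≤ j ∧ j ≤ n ∧
    (∃ dir : Bool, η * 2 ^ k ≤ |((lvl dir (vx oo up t l) - lvl dir (vx oo up t i) : ℤ) : ℝ)|) ∧
    ∀ dir : Bool, |((lvl dir (vx oo up t j) - lvl dir (vx oo up t i) : ℤ) : ℝ)| ≤ δ * 2 ^ k} ≤
      ENNReal.ofReal e * nuX m k

lemma step_norm (i : ℕ) (a : Fin 3) : ‖step i a‖ = 1 := by
  have e : (2 * (Real.pi : ℂ) * Complex.I * ((a : ℕ) : ℂ) / 3) = ((2 * Real.pi * ((a : ℕ) : ℝ) / 3 : ℝ) : ℂ) * Complex.I := by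
    push_cast
    ring
  unfold Pool.Agent.NTS.Res.step
  rw [norm_mul, norm_pow, norm_neg, norm_one, one_pow, one_mul, e, Complex.norm_exp_ofReal_mul_I]

/-- a point of the curve is near a vertex -/
lemma crv_near {n : ℕ} (hn : 1 ≤ n) (s : Fin n → Fin 3) (u : unitInterval) :
    ‖curve s u - Pool.Agent.NTS.Res.pos s ⌊(u : ℝ) * n⌋₊ / size n‖ ≤ 1 / size n := by
  have hn0 : (0 : ℝ) < n := by exact_mod_cast hn
  have hs := NTSF.size_pos hn
  obtain ⟨i, a, hi, ha0, ha1, h1, h2, h3⟩ := NTSF.curve_apply hn s u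
  have hst : ‖Pool.Agent.NTS.Res.pos s (i + 1) - Pool.Agent.NTS.Res.pos s i‖ = 1 := by
    rw [NTSF.pos_succ s i hi, add_sub_cancel_left, step_norm]
  have hsc : (size n : ℂ) ≠ 0 := by exact_mod_cast hs.ne'
  rw [h3, ← sub_div, norm_div, Complex.norm_real, Real.norm_of_nonneg hs.le]
  apply div_le_div_of_nonneg_right _ hs.le
  rcases h2.lt_or_eq with h4 | h4
  · have hf : ⌊(u : ℝ) * n⌋₊ = i := (Nat.floor_eq_iff ((Nat.cast_nonneg i).trans h1)).2 ⟨h1, h4⟩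
    rw [hf]
    have e1 : ((1 - a : ℝ) : ℂ) * Pool.Agent.NTS.Res.pos s i + (a : ℂ) * Pool.Agent.NTS.Res.pos s (i + 1) -
        Pool.Agent.NTS.Res.pos s i = (a : ℂ) * (Pool.Agent.NTS.Res.pos s (i + 1) - Pool.Agent.NTS.Res.pos s i) := by
      push_cast
      ring
    rw [e1, norm_mul, hst, mul_one, Complex.norm_real, Real.norm_of_nonneg ha0]
    exact ha1
  · have hf : ⌊(u : ℝ) * n⌋₊ = i + 1 := by
      rw [h4]
      exact_mod_cast Nat.floor_natCast (R := ℝ) (i + 1)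
    rw [hf]
    have e1 : ((1 - a : ℝ) : ℂ) * Pool.Agent.NTS.Res.pos s i + (a : ℂ) * Pool.Agent.NTS.Res.pos s (i + 1) -
        Pool.Agent.NTS.Res.pos s (i + 1) =
        -(((1 - a : ℝ) : ℂ) * (Pool.Agent.NTS.Res.pos s (i + 1) - Pool.Agent.NTS.Res.pos s i)) := by
      push_cast
      ring
    rw [e1, norm_neg, norm_mul, hst, mul_one, Complex.norm_real, Real.norm_of_nonneg (by linarith)]
    linarith

lemma dist_near {n : ℕ} (hn : 1 ≤ n) (s : Fin n → Fin 3) (u v : unitInterval) :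
    |dist (curve s v) (curve s u) * size n -
      ‖Pool.Agent.NTS.Res.pos s ⌊(v : ℝ) * n⌋₊ - Pool.Agent.NTS.Res.pos s ⌊(u : ℝ) * n⌋₊‖| ≤ 2 := by
  have hs := NTSF.size_pos hn
  have hsc : (size n : ℂ) ≠ 0 := by exact_mod_cast hs.ne'
  have h1 := crv_near hn s u
  have h2 := crv_near hn s v
  have e1 : ‖Pool.Agent.NTS.Res.pos s ⌊(v : ℝ) * n⌋₊ - Pool.Agent.NTS.Res.pos s ⌊(u : ℝ) * n⌋₊‖ =
      ‖Pool.Agent.NTS.Res.pos s ⌊(v : ℝ) * n⌋₊ / size n - Pool.Agent.NTS.Res.pos s ⌊(u : ℝ) * n⌋₊ / size n‖ * size n := by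
    rw [← sub_div, norm_div, Complex.norm_real, Real.norm_of_nonneg hs.le, div_mul_cancel₀ _ hs.ne']
  have h3 : |dist (curve s v) (curve s u) -
      ‖Pool.Agent.NTS.Res.pos s ⌊(v : ℝ) * n⌋₊ / size n - Pool.Agent.NTS.Res.pos s ⌊(u : ℝ) * n⌋₊ / size n‖| ≤
      2 * (1 / size n) := by
    rw [dist_eq_norm]
    refine (abs_norm_sub_norm_le _ _).trans ?_
    calc ‖(curve s v - curve s u) -
          (Pool.Agent.NTS.Res.pos s ⌊(v : ℝ) * n⌋₊ / size n - Pool.Agent.NTS.Res.pos s ⌊(u : ℝ) * n⌋₊ / size n)‖ =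
        ‖(curve s v - Pool.Agent.NTS.Res.pos s ⌊(v : ℝ) * n⌋₊ / size n) -
          (curve s u - Pool.Agent.NTS.Res.pos s ⌊(u : ℝ) * n⌋₊ / size n)‖ := by
          congr 1
          ring
      _ ≤ _ := norm_sub_le _ _
      _ ≤ _ := by linarith
  rw [e1, ← sub_mul, abs_mul, abs_of_pos hs]
  calc _ ≤ 2 * (1 / size n) * size n := mul_le_mul_of_nonneg_right h3 hs.le
    _ = 2 := by field_simp

lemma pinch_rot {n : ℕ} (s : Fin n → Fin 3) {η δ : ℝ} : curve (rot s) ∈ Pinch η δ ↔ curve s ∈ Pinch η δ := by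
  have e : ∀ u : unitInterval, curve (rot s) u = om * curve s u := by
    intro u
    show ∑ k ∈ Finset.range n, _ = om * ∑ k ∈ Finset.range n, _
    rw [Finset.mul_sum]
    refine Finset.sum_congr rfl fun k _ => ?_
    rw [pos_rot, pos_rot]
    ring
  have hd : ∀ u v : unitInterval, dist (curve (rot s) u) (curve (rot s) v) = dist (curve s u) (curve s v) := by
    intro u v
    rw [dist_eq_norm, dist_eq_norm, e, e, ← mul_sub, norm_mul, om_norm, one_mul]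
  unfold Pinch
  rw [mem_ofPred_eq, mem_ofPred_eq]
  simp only [hd]

/-- **from the words to the laws** -/
theorem lawSim_core {m : ℕ → ℝ} {R : ℕ → ℝ} {κ : ℕ → ℕ} (hS : NTSF.ScaleX m R κ) {c0 : ℝ} {n0 : ℕ} (hc0 : 0 < c0)
    (hnu : ∀ n : ℕ, n0 ≤ n → nuX m (κ n) ≤ ENNReal.ofReal c0 * gf (SawN n)) {cd Cu : ℝ} {nd nu : ℕ} (hcd : 0 < cd)
    (hdown : ∀ n : ℕ, nd ≤ n → cd * R n ≤ size n) (hCu : 0 < Cu) (hup : ∀ n : ℕ, nu ≤ n → size n ≤ Cu * R n)
    (hN : SimX m) : LawSim := by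
  intro η ε hη hε
  obtain ⟨δ1, k0, hδ1, hN⟩ := hN (η / 2 * cd) (ε / c0) (by positivity) (by positivity)
  obtain ⟨n1, h1⟩ := NTSF.event_le hS hnu (k0 := k0) (e := ε / c0) (by positivity)
    (E := fun n => {t | t ∈ SawN n ∧ ∃ i l j : ℕ, i ≤ l ∧ l ≤ j ∧ j ≤ n ∧
      (∃ dir : Bool, η / 2 * cd * 2 ^ κ n ≤ |((lvl dir (vx oo up t l) - lvl dir (vx oo up t i) : ℤ) : ℝ)|) ∧
      ∀ dir : Bool, |((lvl dir (vx oo up t j) - lvl dir (vx oo up t i) : ℤ) : ℝ)| ≤ δ1 * 2 ^ κ n}) (by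
      intro k n hk a1 a2 hkn
      refine (gf_mono ?_).trans (hN k n hk a1 a2)
      rintro t ⟨ht, i, l, j, hil, hlj, hj, ⟨dir, h3⟩, h4⟩
      rw [hkn] at h3
      refine ⟨ht, i, l, j, hil, hlj, hj, ⟨dir, h3⟩, fun dir => ?_⟩
      have := h4 dir
      rwa [hkn] at this)
  rw [div_mul_cancel₀ _ hc0.ne'] at h1
  obtain ⟨δ, hδ⟩ : ∃ δ : ℝ, δ = δ1 / (4 * Cu) := ⟨_, rfl⟩
  have hδ0 : 0 < δ := by
    rw [hδ]
    positivity
  -- the size is large
  obtain ⟨k1, hk1⟩ := pow_unbounded_of_one_lt ((4 / η + 2 / δ) / cd) (one_lt_two (α := ℝ))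
  obtain ⟨n2, h2⟩ := hS.top k1
  refine ⟨δ, max (max n1 n2) (max nd (max nu 1)), hδ0, fun n hn => ?_⟩
  have b1 : n1 ≤ n := (le_max_left _ _).trans (le_of_max_le_left hn)
  have b2 : n2 ≤ n := (le_max_right _ _).trans (le_of_max_le_left hn)
  have b3 : nd ≤ n := (le_max_left _ _).trans (le_of_max_le_right hn)
  have b4 : nu ≤ n := (le_max_left _ _).trans ((le_max_right _ _).trans (le_of_max_le_right hn))
  have b5 : 1 ≤ n := (le_max_right _ _).trans ((le_max_right _ _).trans (le_of_max_le_right hn))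
  have hs := NTSF.size_pos b5
  have hn0 : (0 : ℝ) < n := by exact_mod_cast b5
  have hbig : 4 / η + 2 / δ ≤ size n := by
    have e1 := hdown n b3
    rw [hS.R2] at e1
    refine le_trans ?_ e1
    rw [div_lt_iff₀ hcd] at hk1
    have e2 : (2 : ℝ) ^ k1 ≤ 2 ^ κ n := pow_le_pow_right₀ (by norm_num) (h2 n b2)
    nlinarith
  have hb1 : 4 ≤ η * size n := by
    have : 4 / η ≤ size n := le_trans (by
      have : 0 < 2 / δ := by positivity
      linarith) hbig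
    rwa [div_le_iff₀ hη, mul_comm] at this
  have hb2 : 2 ≤ δ * size n := by
    have : 2 / δ ≤ size n := le_trans (by
      have : 0 < 4 / η := by positivity
      linarith) hbig
    rwa [div_le_iff₀ hδ0, mul_comm] at this
  have h6 := prop_le (n := n) b5 (fun s => curve s ∈ Pinch η δ) (fun s => pinch_rot s) hε.le ?_ (h1 n b1)
  · apply law_le hε.le
    convert h6
  rintro t ht ⟨u, w, v, huw, hwv, h7, h8⟩
  have hmono : ∀ a b : unitInterval, a ≤ b → ⌊(a : ℝ) * n⌋₊ ≤ ⌊(b : ℝ) * n⌋₊ := by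
    intro a b hab
    apply Nat.floor_le_floor
    have : (a : ℝ) ≤ b := hab
    gcongr
  have hle : ∀ a : unitInterval, ⌊(a : ℝ) * n⌋₊ ≤ n := by
    intro a
    have e1 : (a : ℝ) * n ≤ n := by
      have := a.2.2
      nlinarith
    calc ⌊(a : ℝ) * n⌋₊ ≤ ⌊(n : ℝ)⌋₊ := Nat.floor_le_floor e1
      _ = n := Nat.floor_natCast n
  refine ⟨ht, ⌊(u : ℝ) * n⌋₊, ⌊(w : ℝ) * n⌋₊, ⌊(v : ℝ) * n⌋₊, hmono u w huw, hmono w v hwv, hle v, ?_, ?_⟩
  · have e1 := dist_near b5 (NTF.sw n t) u w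
    rw [NTSF.pos_sw n t _ (hle w), NTSF.pos_sw n t _ (hle u), ← NTF.JJ_sub] at e1
    have e2 := (abs_le.1 e1).2
    have e3 : η * size n < dist (curve (NTF.sw n t) w) (curve (NTF.sw n t) u) * size n :=
      mul_lt_mul_of_pos_right h7 hs
    have e4 : η / 2 * cd * 2 ^ κ n ≤ ‖JJ (vx oo up t ⌊(w : ℝ) * n⌋₊ - vx oo up t ⌊(u : ℝ) * n⌋₊)‖ := by
      have e5 := hdown n b3
      rw [hS.R2] at e5
      have e6 : η / 2 * cd * 2 ^ κ n ≤ η / 2 * size n := by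
        rw [mul_assoc]
        exact mul_le_mul_of_nonneg_left e5 (by positivity)
      linarith
    obtain ⟨dir, e5⟩ := NTF.exists_dir (by positivity) e4
    rw [NTF.lvl_sub] at e5
    exact ⟨dir, e5⟩
  · intro dir
    have e1 := dist_near b5 (NTF.sw n t) u v
    rw [NTSF.pos_sw n t _ (hle v), NTSF.pos_sw n t _ (hle u), ← NTF.JJ_sub] at e1
    have e2 := (abs_le.1 e1).1
    have e3 : dist (curve (NTF.sw n t) v) (curve (NTF.sw n t) u) * size n < δ * size n :=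
      mul_lt_mul_of_pos_right h8 hs
    have e4 := NTSF.lvl_le_norm dir (vx oo up t ⌊(v : ℝ) * n⌋₊ - vx oo up t ⌊(u : ℝ) * n⌋₊)
    rw [NTF.lvl_sub] at e4
    have e5 := hup n b4
    rw [hS.R2] at e5
    have e6 : 4 * δ * size n ≤ δ1 * 2 ^ κ n := by
      calc 4 * δ * size n ≤ 4 * δ * (Cu * 2 ^ κ n) := mul_le_mul_of_nonneg_left e5 (by positivity)
        _ = δ1 * 2 ^ κ n := by
            rw [hδ]
            field_simp
    linarith

lemma m_step {m : ℕ → ℝ} (hlo : ∃ c : ℝ, 0 < c ∧ ∀ k : ℕ, c * (2 : ℝ) ^ (4 / 3 * (k : ℝ)) ≤ m k)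
    (hup : ∃ C : ℝ, ∀ k : ℕ, m k ≤ C * (2 : ℝ) ^ (4 / 3 * (k : ℝ))) : ∃ C : ℝ, 1 ≤ C ∧ ∀ k, m (k + 1) ≤ C * m k := by
  have hpos : ∀ k : ℕ, (0 : ℝ) < (2 : ℝ) ^ (4 / 3 * (k : ℝ)) := fun k => Real.rpow_pos_of_pos (by norm_num) _
  obtain ⟨c, hc, h⟩ := hlo
  have hm : ∀ k, 0 < m k := fun k => lt_of_lt_of_le (mul_pos hc (hpos k)) (h k)
  obtain ⟨C, h'⟩ := hup
  have hC : 0 < C := by
    have h1 := (h 0).trans (h' 0)
    have h2 := hpos 0
    by_contra hcon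
    push Not at hcon
    nlinarith
  refine ⟨max 1 (C * (2 : ℝ) ^ (4 / 3 : ℝ) / c), le_max_left _ _, fun k => ?_⟩
  have h1 : (2 : ℝ) ^ (4 / 3 * ((k + 1 : ℕ) : ℝ)) = (2 : ℝ) ^ (4 / 3 : ℝ) * (2 : ℝ) ^ (4 / 3 * (k : ℝ)) := by
    rw [← Real.rpow_add (by norm_num)]
    congr 1
    push_cast
    ring
  calc m (k + 1) ≤ C * (2 : ℝ) ^ (4 / 3 * ((k + 1 : ℕ) : ℝ)) := h' (k + 1)
    _ = C * (2 : ℝ) ^ (4 / 3 : ℝ) / c * (c * (2 : ℝ) ^ (4 / 3 * (k : ℝ))) := by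
        rw [h1]
        field_simp
    _ ≤ C * (2 : ℝ) ^ (4 / 3 : ℝ) / c * m k := mul_le_mul_of_nonneg_left (h k) (by positivity)
    _ ≤ _ := mul_le_mul_of_nonneg_right (le_max_right _ _) (hm k).le

/-- **from the words to the laws, scale of lengths of the order 2 ^ (4 k / 3)** -/
theorem lawSim_of {m : ℕ → ℝ} (hlo : ∃ c : ℝ, 0 < c ∧ ∀ k : ℕ, c * (2 : ℝ) ^ (4 / 3 * (k : ℝ)) ≤ m k)
    (hup : ∃ C : ℝ, ∀ k : ℕ, m k ≤ C * (2 : ℝ) ^ (4 / 3 * (k : ℝ))) (hF : FactsX m) (hN : SimX m) : LawSim := by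
  obtain ⟨R, κ, hS⟩ := NTSF.scaleX_exists hlo hup
  have hR1 : ∀ n, 1 ≤ R n := fun n => by
    rw [hS.R2]
    exact one_le_pow₀ (by norm_num)
  obtain ⟨-, ⟨cd, nd, hcd, hdown⟩, Cu, nu, hCu, hupR⟩ := NTSF.factsQ_of hR1 (NTSF.normX_of hS hF (m_step hlo hup))
  obtain ⟨c0, n0, hc0, hnu⟩ := NTSF.nuX_le hS hF
  exact lawSim_core hS hc0 hnu hcd hdown hCu hupR hN

end SIM

end HexObs
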