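import Pool.Agent.SIM.CaseA

/-!
# SIM/Rev: near double points of the curves X_n from the three cases (SIM/EX10) (helper83)

* `SimB m ρ` : near double points with `ρ n ≤ i` (words);
* `rv s` : the reversed walk, `pos_rv`, `rv_mem`;
* **`lawSim_AB`** : `LawSim` from `CaseA m` and `SimB m ρ`, all `ρ > 0` (case (C) by reversal).
-/

set_option autoImplicit false

namespace HexObs

namespace SIM

open MeasureTheory Set Metric Filter Topology

open HexObs.TS HexObs.SDN HexObs.NTW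

open Pool.Agent.NTS.Res

open NTSF (curve_eq law_le prop_le rot pos_rot om om_norm mem_saw)

open NTF (JJ)

open scoped ENNReal Classical

/-- near double points of the walks with n letters, the first point after a positive part of the walk -/
def SimB (m : ℕ → ℝ) (ρ : ℝ) : Prop := ∀ η e : ℝ, 0 < η → 0 < e → ∃ (δ : ℝ) (k0 : ℕ), 0 < δ ∧ ∀ k n : ℕ, k0 ≤ k →
  m k ≤ n → n < m (k + 1) → gf {t | t ∈ SawN n ∧ ∃ i l j : ℕ, ρ * n ≤ i ∧ i ≤ l ∧ l ≤ j ∧ j ≤ n ∧
    (∃ dir : Bool, η * 2 ^ k ≤ |((lvl dir (vx oo up t l) - lvl dir (vx oo up t i) : ℤ) : ℝ)|) ∧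
    ∀ dir : Bool, |((lvl dir (vx oo up t j) - lvl dir (vx oo up t i) : ℤ) : ℝ)| ≤ δ * 2 ^ k} ≤
      ENNReal.ofReal e * nuX m k

/-! ### Reversal -/

/-- the reversed walk -/
def rv {n : ℕ} (s : Fin n → Fin 3) : Fin n → Fin 3 := fun i => s (Fin.rev i)

lemma rv_rv {n : ℕ} (s : Fin n → Fin 3) : rv (rv s) = s := by
  funext i
  show s (Fin.rev (Fin.rev i)) = s i
  rw [Fin.rev_rev]

lemma pos_rv {n : ℕ} (s : Fin n → Fin 3) {k : ℕ} (hk : k ≤ n) :
    Pool.Agent.NTS.Res.pos (rv s) k =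
      (-1) ^ n * (Pool.Agent.NTS.Res.pos s (n - k) - Pool.Agent.NTS.Res.pos s n) := by
  induction k with
  | zero => rw [Nat.sub_zero, sub_self, mul_zero, NTSF.pos_zero]
  | succ k ih =>
    have hk' : k < n := hk
    have h1 := NTSF.pos_succ (rv s) k hk'
    have h2 := NTSF.pos_succ s (n - (k + 1)) (by omega)
    have e1 : n - (k + 1) + 1 = n - k := by omega
    rw [e1] at h2
    have e2 : (rv s) ⟨k, hk'⟩ = s ⟨n - (k + 1), by omega⟩ := by
      show s (Fin.rev ⟨k, hk'⟩) = _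
      congr 1
    rw [h1, ih hk'.le, h2, e2]
    have e3 : ∀ a : Fin 3, step k a = -((-1) ^ n * step (n - (k + 1)) a) := by
      intro a
      unfold Pool.Agent.NTS.Res.step
      have e4 : (-1 : ℂ) ^ n = (-1) ^ (n - (k + 1)) * (-1) ^ (k + 1) := by
        rw [← pow_add]
        congr 1
        omega
      have e5 : ((-1 : ℂ) ^ (n - (k + 1))) * (-1) ^ (n - (k + 1)) = 1 := by
        rw [← mul_pow]
        norm_num
      rw [e4, pow_succ]
      linear_combination (-(-1 : ℂ) ^ k * Complex.exp (2 * (Real.pi : ℂ) * Complex.I * ((a : ℕ) : ℂ) / 3)) * e5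
    rw [e3]
    ring

lemma dist_rv {n : ℕ} (s : Fin n → Fin 3) {i j : ℕ} (hi : i ≤ n) (hj : j ≤ n) :
    ‖Pool.Agent.NTS.Res.pos (rv s) j - Pool.Agent.NTS.Res.pos (rv s) i‖ =
      ‖Pool.Agent.NTS.Res.pos s (n - j) - Pool.Agent.NTS.Res.pos s (n - i)‖ := by
  rw [pos_rv s hi, pos_rv s hj, ← mul_sub, norm_mul, norm_pow, norm_neg, norm_one, one_pow, one_mul]
  congr 1
  ring

lemma rv_mem {n : ℕ} {s : Fin n → Fin 3} (h : s ∈ saw n) : rv s ∈ saw n := by
  rw [mem_saw] at h ⊢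
  intro j k hj hk he
  have h1 := dist_rv s hk hj
  rw [he, sub_self, norm_zero] at h1
  have h2 := h (n - j) (n - k) (Nat.sub_le _ _) (Nat.sub_le _ _) (sub_eq_zero.1 (norm_eq_zero.1 h1.symm))
  omega

lemma card_rv {n : ℕ} (P : (Fin n → Fin 3) → Prop) :
    ((saw n).filter fun s => P (rv s)).card = ((saw n).filter P).card := by
  apply Finset.card_bij (fun s _ => rv s)
  · intro s hs
    rw [Finset.mem_filter] at hs ⊢
    exact ⟨rv_mem hs.1, hs.2⟩
  · intro s _ s' _ h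
    rw [← rv_rv s, h, rv_rv]
  · intro s hs
    rw [Finset.mem_filter] at hs
    exact ⟨rv s, Finset.mem_filter.2 ⟨rv_mem hs.1, by rw [rv_rv]; exact hs.2⟩, rv_rv s⟩

/-! ### The three cases -/

/-- the first and the last part are near -/
def NearA {n : ℕ} (ρ d : ℝ) (s : Fin n → Fin 3) : Prop := ∃ i j : ℕ, i ≤ j ∧ j ≤ n ∧ (i : ℝ) ≤ ρ * n ∧ (1 - ρ) * n ≤ (j : ℝ) ∧
  ‖Pool.Agent.NTS.Res.pos s j - Pool.Agent.NTS.Res.pos s i‖ ≤ d

/-- a near double point after a positive part of the walk -/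
def NearB {n : ℕ} (ρ r d : ℝ) (s : Fin n → Fin 3) : Prop := ∃ i l j : ℕ, ρ * n ≤ i ∧ i ≤ l ∧ l ≤ j ∧ j ≤ n ∧
  r ≤ ‖Pool.Agent.NTS.Res.pos s l - Pool.Agent.NTS.Res.pos s i‖ ∧
  ‖Pool.Agent.NTS.Res.pos s j - Pool.Agent.NTS.Res.pos s i‖ ≤ d

lemma pinch_cases {n : ℕ} (hn : 1 ≤ n) {s : Fin n → Fin 3} {η δ ρ : ℝ} (h1 : 8 ≤ η * size n) (h2 : 2 ≤ δ * size n)
    (h3 : 8 * δ ≤ η) (h : curve s ∈ Pinch η δ) :
    NearA ρ (2 * δ * size n) s ∨ NearB ρ (η / 4 * size n) (2 * δ * size n) s ∨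
      NearB ρ (η / 4 * size n) (2 * δ * size n) (rv s) := by
  obtain ⟨u, w, v, huw, hwv, h7, h8⟩ := h
  have hs := NTSF.size_pos hn
  have hn0 : (0 : ℝ) < n := by exact_mod_cast hn
  have hmono : ∀ a b : unitInterval, a ≤ b → ⌊(a : ℝ) * n⌋₊ ≤ ⌊(b : ℝ) * n⌋₊ := by
    intro a b hab
    apply Nat.floor_le_floor
    have : (a : ℝ) ≤ b := hab
    gcongr
  have hle : ∀ a : unitInterval, ⌊(a : ℝ) * n⌋₊ ≤ n := by
    intro a
    have e1 : (a : ℝ) * n ≤ n := by
      have := a.2.2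
      nlinarith
    calc ⌊(a : ℝ) * n⌋₊ ≤ ⌊(n : ℝ)⌋₊ := Nat.floor_le_floor e1
      _ = n := Nat.floor_natCast n
  obtain ⟨i, hi⟩ : ∃ i, i = ⌊(u : ℝ) * n⌋₊ := ⟨_, rfl⟩
  obtain ⟨l, hl⟩ : ∃ l, l = ⌊(w : ℝ) * n⌋₊ := ⟨_, rfl⟩
  obtain ⟨j, hj⟩ : ∃ j, j = ⌊(v : ℝ) * n⌋₊ := ⟨_, rfl⟩
  have hil : i ≤ l := by rw [hi, hl]; exact hmono u w huw
  have hlj : l ≤ j := by rw [hl, hj]; exact hmono w v hwv
  have hjn : j ≤ n := by rw [hj]; exact hle v
  have d1 := (abs_le.1 (dist_near hn s u w)).2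
  have d2 := (abs_le.1 (dist_near hn s u v)).1
  rw [← hi, ← hl] at d1
  rw [← hi, ← hj] at d2
  have e3 : η * size n < dist (curve s w) (curve s u) * size n := mul_lt_mul_of_pos_right h7 hs
  have e4 : dist (curve s v) (curve s u) * size n < δ * size n := mul_lt_mul_of_pos_right h8 hs
  have f1 : 3 / 4 * (η * size n) ≤ ‖Pool.Agent.NTS.Res.pos s l - Pool.Agent.NTS.Res.pos s i‖ := by linarith
  have f2 : ‖Pool.Agent.NTS.Res.pos s j - Pool.Agent.NTS.Res.pos s i‖ ≤ 2 * δ * size n := by linarith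
  have f3 : 8 * δ * size n ≤ η * size n := mul_le_mul_of_nonneg_right h3 hs.le
  rcases le_total (ρ * n) i with g1 | g1
  · exact Or.inr (Or.inl ⟨i, l, j, g1, hil, hlj, hjn, by linarith, f2⟩)
  · rcases le_total ((1 - ρ) * n) j with g2 | g2
    · exact Or.inl ⟨i, j, hil.trans hlj, hjn, g1, g2, f2⟩
    · refine Or.inr (Or.inr ⟨n - j, n - l, n - i, ?_, by omega, by omega, by omega, ?_, ?_⟩)
      · rw [Nat.cast_sub hjn]
        linarith
      · rw [dist_rv s (by omega) (by omega)]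
        have a1 : n - (n - l) = l := by omega
        have a2 : n - (n - j) = j := by omega
        rw [a1, a2]
        have a3 : ‖Pool.Agent.NTS.Res.pos s l - Pool.Agent.NTS.Res.pos s i‖ ≤
            ‖Pool.Agent.NTS.Res.pos s l - Pool.Agent.NTS.Res.pos s j‖ +
              ‖Pool.Agent.NTS.Res.pos s j - Pool.Agent.NTS.Res.pos s i‖ := by
          calc _ = ‖(Pool.Agent.NTS.Res.pos s l - Pool.Agent.NTS.Res.pos s j) +
                (Pool.Agent.NTS.Res.pos s j - Pool.Agent.NTS.Res.pos s i)‖ := by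
                congr 1
                ring
            _ ≤ _ := norm_add_le _ _
        linarith
      · rw [dist_rv s (by omega) (by omega)]
        have a1 : n - (n - i) = i := by omega
        have a2 : n - (n - j) = j := by omega
        rw [a1, a2, norm_sub_rev]
        exact f2

lemma pa_rot {n : ℕ} (s : Fin n → Fin 3) {ρ d : ℝ} : NearA ρ d (rot s) ↔ NearA ρ d s := by
  unfold NearA
  simp only [NTSF.norm_rot]

lemma pb_rot {n : ℕ} (s : Fin n → Fin 3) {ρ r d : ℝ} : NearB ρ r d (rot s) ↔ NearB ρ r d s := by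
  unfold NearB
  simp only [NTSF.norm_rot]

/-- **from the three cases to the laws** -/
theorem lawSim_AB_core {m : ℕ → ℝ} {R : ℕ → ℝ} {κ : ℕ → ℕ} (hS : NTSF.ScaleX m R κ) {c0 : ℝ} {n0 : ℕ} (hc0 : 0 < c0)
    (hnu : ∀ n : ℕ, n0 ≤ n → nuX m (κ n) ≤ ENNReal.ofReal c0 * gf (SawN n)) {cd Cu : ℝ} {nd nu : ℕ} (hcd : 0 < cd)
    (hdown : ∀ n : ℕ, nd ≤ n → cd * R n ≤ size n) (hCu : 0 < Cu) (hup : ∀ n : ℕ, nu ≤ n → size n ≤ Cu * R n)
    (hA : CaseA m) (hB : ∀ ρ : ℝ, 0 < ρ → SimB m ρ) : LawSim := by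
  intro η ε hη hε
  obtain ⟨ρ, δA, kA, hρ, hδA, hA⟩ := hA (ε / 3 / c0) (by positivity)
  obtain ⟨δB, kB, hδB, hB⟩ := hB ρ hρ (η / 4 * cd) (ε / 3 / c0) (by positivity) (by positivity)
  obtain ⟨nA, hA1⟩ := NTSF.event_le hS hnu (k0 := kA) (e := ε / 3 / c0) (by positivity)
    (E := fun n => {t | t ∈ SawN n ∧ ∃ i j : ℕ, i ≤ j ∧ j ≤ n ∧ (i : ℝ) ≤ ρ * n ∧ (1 - ρ) * n ≤ (j : ℝ) ∧
      ∀ dir : Bool, |((lvl dir (vx oo up t j) - lvl dir (vx oo up t i) : ℤ) : ℝ)| ≤ δA * 2 ^ κ n}) (by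
      intro k n hk a1 a2 hkn
      refine (gf_mono ?_).trans (hA k n hk a1 a2)
      rintro t ⟨ht, i, j, hij, hj, h1, h2, h3⟩
      refine ⟨ht, i, j, hij, hj, h1, h2, fun dir => ?_⟩
      have := h3 dir
      rwa [hkn] at this)
  obtain ⟨nB, hB1⟩ := NTSF.event_le hS hnu (k0 := kB) (e := ε / 3 / c0) (by positivity)
    (E := fun n => {t | t ∈ SawN n ∧ ∃ i l j : ℕ, ρ * n ≤ i ∧ i ≤ l ∧ l ≤ j ∧ j ≤ n ∧
      (∃ dir : Bool, η / 4 * cd * 2 ^ κ n ≤ |((lvl dir (vx oo up t l) - lvl dir (vx oo up t i) : ℤ) : ℝ)|) ∧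
      ∀ dir : Bool, |((lvl dir (vx oo up t j) - lvl dir (vx oo up t i) : ℤ) : ℝ)| ≤ δB * 2 ^ κ n}) (by
      intro k n hk a1 a2 hkn
      refine (gf_mono ?_).trans (hB k n hk a1 a2)
      rintro t ⟨ht, i, l, j, h0, hil, hlj, hj, ⟨dir, h3⟩, h4⟩
      rw [hkn] at h3
      refine ⟨ht, i, l, j, h0, hil, hlj, hj, ⟨dir, h3⟩, fun dir => ?_⟩
      have := h4 dir
      rwa [hkn] at this)
  rw [div_mul_cancel₀ _ hc0.ne'] at hA1 hB1
  obtain ⟨δ, hδ⟩ : ∃ δ : ℝ, δ = min (η / 8) (min (δA / (4 * Cu)) (δB / (4 * Cu))) := ⟨_, rfl⟩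
  have hδ0 : 0 < δ := by
    rw [hδ]
    exact lt_min (by positivity) (lt_min (by positivity) (by positivity))
  have hδη : 8 * δ ≤ η := by
    have : δ ≤ η / 8 := by rw [hδ]; exact min_le_left _ _
    linarith
  have hδ1 : 4 * Cu * δ ≤ δA := by
    have : δ ≤ δA / (4 * Cu) := by rw [hδ]; exact (min_le_right _ _).trans (min_le_left _ _)
    rw [le_div_iff₀ (by positivity)] at this
    linarith
  have hδ2 : 4 * Cu * δ ≤ δB := by
    have : δ ≤ δB / (4 * Cu) := by rw [hδ]; exact (min_le_right _ _).trans (min_le_right _ _)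
    rw [le_div_iff₀ (by positivity)] at this
    linarith
  -- the size is large
  obtain ⟨k1, hk1⟩ := pow_unbounded_of_one_lt ((8 / η + 2 / δ) / cd) (one_lt_two (α := ℝ))
  obtain ⟨n2, h2⟩ := hS.top k1
  refine ⟨δ, max (max nA (max nB n2)) (max nd (max nu 1)), hδ0, fun n hn => ?_⟩
  have bA : nA ≤ n := (le_max_left _ _).trans (le_of_max_le_left hn)
  have bB : nB ≤ n := (le_max_left _ _).trans ((le_max_right _ _).trans (le_of_max_le_left hn))
  have b2 : n2 ≤ n := (le_max_right _ _).trans ((le_max_right _ _).trans (le_of_max_le_left hn))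
  have b3 : nd ≤ n := (le_max_left _ _).trans (le_of_max_le_right hn)
  have b4 : nu ≤ n := (le_max_left _ _).trans ((le_max_right _ _).trans (le_of_max_le_right hn))
  have b5 : 1 ≤ n := (le_max_right _ _).trans ((le_max_right _ _).trans (le_of_max_le_right hn))
  have hs := NTSF.size_pos b5
  have hbig : 8 / η + 2 / δ ≤ size n := by
    have e1 := hdown n b3
    rw [hS.R2] at e1
    refine le_trans ?_ e1
    rw [div_lt_iff₀ hcd] at hk1
    have e2 : (2 : ℝ) ^ k1 ≤ 2 ^ κ n := pow_le_pow_right₀ (by norm_num) (h2 n b2)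
    nlinarith
  have hb1 : 8 ≤ η * size n := by
    have : 8 / η ≤ size n := le_trans (by
      have : 0 < 2 / δ := by positivity
      linarith) hbig
    rwa [div_le_iff₀ hη, mul_comm] at this
  have hb2 : 2 ≤ δ * size n := by
    have : 2 / δ ≤ size n := le_trans (by
      have : 0 < 8 / η := by positivity
      linarith) hbig
    rwa [div_le_iff₀ hδ0, mul_comm] at this
  have hsu : size n ≤ Cu * 2 ^ κ n := by
    rw [← hS.R2]
    exact hup n b4
  have hsd : cd * 2 ^ κ n ≤ size n := by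
    rw [← hS.R2]
    exact hdown n b3
  have hp : (0 : ℝ) < 2 ^ κ n := by positivity
  have hδsz : ∀ D : ℝ, 4 * Cu * δ ≤ D → 2 * (2 * δ * size n) ≤ D * 2 ^ κ n := by
    intro D hD
    calc 2 * (2 * δ * size n) ≤ 2 * (2 * δ * (Cu * 2 ^ κ n)) := by gcongr
      _ = 4 * Cu * δ * 2 ^ κ n := by ring
      _ ≤ _ := mul_le_mul_of_nonneg_right hD hp.le
  have cA := prop_le (n := n) b5 (fun s => NearA ρ (2 * δ * size n) s) (fun s => pa_rot s) (c := ε / 3) (by positivity) (by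
    rintro t ht ⟨i, j, hij, hj, h3, h4, h5⟩
    refine ⟨ht, i, j, hij, hj, h3, h4, fun dir => ?_⟩
    rw [NTSF.pos_sw n t j hj, NTSF.pos_sw n t i (hij.trans hj), ← NTF.JJ_sub] at h5
    have e4 := NTSF.lvl_le_norm dir (vx oo up t j - vx oo up t i)
    rw [NTF.lvl_sub] at e4
    have := hδsz δA hδ1
    linarith) (hA1 n bA)
  have cB := prop_le (n := n) b5 (fun s => NearB ρ (η / 4 * size n) (2 * δ * size n) s) (fun s => pb_rot s) (c := ε / 3)
    (by positivity) (by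
    rintro t ht ⟨i, l, j, h0, hil, hlj, hj, h5, h6⟩
    refine ⟨ht, i, l, j, h0, hil, hlj, hj, ?_, fun dir => ?_⟩
    · rw [NTSF.pos_sw n t l (hlj.trans hj), NTSF.pos_sw n t i (hil.trans (hlj.trans hj)), ← NTF.JJ_sub] at h5
      have e4 : η / 4 * cd * 2 ^ κ n ≤ ‖JJ (vx oo up t l - vx oo up t i)‖ := by
        refine le_trans ?_ h5
        rw [mul_assoc]
        exact mul_le_mul_of_nonneg_left hsd (by positivity)
      obtain ⟨dir, e5⟩ := NTF.exists_dir (by positivity) e4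
      rw [NTF.lvl_sub] at e5
      exact ⟨dir, e5⟩
    · rw [NTSF.pos_sw n t j hj, NTSF.pos_sw n t i (hil.trans (hlj.trans hj)), ← NTF.JJ_sub] at h6
      have e4 := NTSF.lvl_le_norm dir (vx oo up t j - vx oo up t i)
      rw [NTF.lvl_sub] at e4
      have := hδsz δB hδ2
      linarith) (hB1 n bB)
  apply law_le hε.le
  have hsub : ((saw n).filter fun s => curve s ∈ Pinch η δ) ⊆
      ((saw n).filter fun s => NearA ρ (2 * δ * size n) s) ∪
        (((saw n).filter fun s => NearB ρ (η / 4 * size n) (2 * δ * size n) s) ∪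
          ((saw n).filter fun s => NearB ρ (η / 4 * size n) (2 * δ * size n) (rv s))) := by
    intro s hs'
    rw [Finset.mem_filter] at hs'
    rcases pinch_cases (ρ := ρ) b5 hb1 hb2 hδη hs'.2 with h | h | h
    · exact Finset.mem_union_left _ (Finset.mem_filter.2 ⟨hs'.1, h⟩)
    · exact Finset.mem_union_right _ (Finset.mem_union_left _ (Finset.mem_filter.2 ⟨hs'.1, h⟩))
    · exact Finset.mem_union_right _ (Finset.mem_union_right _ (Finset.mem_filter.2 ⟨hs'.1, h⟩))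
  have hcard := (Finset.card_le_card hsub).trans ((Finset.card_union_le _ _).trans
    (Nat.add_le_add_left (Finset.card_union_le _ _) _))
  rw [card_rv (fun s => NearB ρ (η / 4 * size n) (2 * δ * size n) s)] at hcard
  have hcard' : (((saw n).filter fun s => curve s ∈ Pinch η δ).card : ℝ) ≤
      (((saw n).filter fun s => NearA ρ (2 * δ * size n) s).card : ℝ) +
      ((((saw n).filter fun s => NearB ρ (η / 4 * size n) (2 * δ * size n) s).card : ℝ) +
        (((saw n).filter fun s => NearB ρ (η / 4 * size n) (2 * δ * size n) s).card : ℝ)) := by exact_mod_cast hcard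
  have hfin : (((saw n).filter fun s => curve s ∈ Pinch η δ).card : ℝ) ≤ ε * ((saw n).card : ℝ) := by
    refine hcard'.trans ?_
    linarith
  convert hfin

/-- **near double points of the curves X_n, scale of lengths of the order 2 ^ (4 k / 3)** -/
theorem lawSim_AB {m : ℕ → ℝ} (hlo : ∃ c : ℝ, 0 < c ∧ ∀ k : ℕ, c * (2 : ℝ) ^ (4 / 3 * (k : ℝ)) ≤ m k)
    (hup : ∃ C : ℝ, ∀ k : ℕ, m k ≤ C * (2 : ℝ) ^ (4 / 3 * (k : ℝ))) (hF : FactsX m) (hL : LowX m)
    (hB : ∀ ρ : ℝ, 0 < ρ → SimB m ρ) : LawSim := by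
  obtain ⟨R, κ, hS⟩ := NTSF.scaleX_exists hlo hup
  have hR1 : ∀ n, 1 ≤ R n := fun n => by
    rw [hS.R2]
    exact one_le_pow₀ (by norm_num)
  obtain ⟨-, ⟨cd, nd, hcd, hdown⟩, Cu, nu, hCu, hupR⟩ := NTSF.factsQ_of hR1 (NTSF.normX_of hS hF (m_step hlo hup))
  obtain ⟨c0, n0, hc0, hnu⟩ := NTSF.nuX_le hS hF
  exact lawSim_AB_core hS hc0 hnu hcd hdown hCu hupR (caseA_of hL hF (m_step hlo hup)) hB

end SIM

end HexObs
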