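import Pool.Agent.SIM.HumpDefs
import Pool.Agent.SIM.Rev
import Pool.Agent.EN.FactsX
import Pool.Agent.EN.Count

/-!
SIM, exactly n letters: near double points behind a positive part of the walk (SimB) from the core HumpX, the row FewX and
the exact spatial tail. The three frames of the three pairs of directions.
-/

set_option autoImplicit false

namespace HexObs

namespace SIM

open Finset TS SDN NTW NTA

open scoped ENNReal

/-- near double points behind many leaves -/
def HumpS (K M : ℕ) (R : ℤ) (x y : ℝ) : Set (List Bool) := {t | t ∈ WL K ∧ ∃ i l j : ℕ, i ≤ l ∧ l ≤ j ∧ j ≤ t.length ∧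
  Many t i M R ∧ (∃ dir : Bool, x ≤ |((lvl dir (vx oo up t l) - lvl dir (vx oo up t i) : ℤ) : ℝ)|) ∧
  ∀ dir : Bool, |((lvl dir (vx oo up t j) - lvl dir (vx oo up t i) : ℤ) : ℝ)| ≤ y}

namespace SB

lemma alt_shift {f : ℕ → ℤ} {N M q : ℕ} {R : ℤ} (hq : ∀ a b c, a ≤ b → b ≤ c → c < q → R ≤ |f b - f a| → R ≤ |f c - f b| →
    ¬ (0 ≤ (f b - f a) * (f b - f c))) (hR : 0 < R) (hA : EN.Alt f N (M + 2) R) :
    q ≤ N ∧ EN.Alt (fun i => f (q + i)) (N - q) M R := by
  obtain ⟨τ, s, hs, h1, h2, h3⟩ := hA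
  have hq2 : q ≤ τ 2 := by
    by_contra hc
    have a0 := h1 0 (by omega)
    have a1 := h1 1 (by omega)
    have b0 := h3 0 (by omega)
    have b1 := h3 1 (by omega)
    rw [zero_add] at a0 b0
    rw [show 1 + 1 = 2 by rfl] at a1 b1
    rw [pow_zero, mul_one] at b0
    rw [pow_one, mul_neg_one] at b1
    have habs : ∀ x : ℤ, R ≤ s * x → R ≤ |x| := by
      intro x hx
      rcases hs with rfl | rfl
      · rw [one_mul] at hx
        exact hx.trans (le_abs_self _)
      · exact hx.trans (by rw [neg_one_mul]; exact neg_le_abs _)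
    have c0 := habs _ b0
    have c1 : R ≤ |f (τ 2) - f (τ 1)| := by
      rw [← abs_neg]
      refine habs _ ?_
      linarith
    refine hq (τ 0) (τ 1) (τ 2) a0 a1 (by omega) c0 c1 ?_
    have d0 : 0 ≤ s * (f (τ 1) - f (τ 0)) := by linarith
    have d1 : 0 ≤ s * (f (τ 1) - f (τ 2)) := by linarith
    have hss : s * s = 1 := by rcases hs with rfl | rfl <;> norm_num
    have := mul_nonneg d0 d1
    calc 0 ≤ s * (f (τ 1) - f (τ 0)) * (s * (f (τ 1) - f (τ 2))) := this
      _ = s * s * ((f (τ 1) - f (τ 0)) * (f (τ 1) - f (τ 2))) := by ring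
      _ = _ := by rw [hss, one_mul]
  have hmon : ∀ j, 2 ≤ j → j ≤ M + 2 → q ≤ τ j := by
    intro j hj
    induction j, hj using Nat.le_induction with
    | base => intro _; exact hq2
    | succ c hc ih => intro h; exact (ih (by omega)).trans (h1 c (by omega))
  refine ⟨hq2.trans (h2 2 (by omega)), fun j => τ (j + 2) - q, s, hs, fun j hj => ?_, fun j hj => ?_, fun j hj => ?_⟩
  · exact Nat.sub_le_sub_right (h1 (j + 2) (by omega)) q
  · exact Nat.sub_le_sub_right (h2 (j + 2) (by omega)) q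
  · have e1 := hmon (j + 2) (by omega) (by omega)
    have e2 := hmon (j + 2 + 1) (by omega) (by omega)
    have e3 := h3 (j + 2) (by omega)
    show R ≤ s * (-1) ^ j * (f (q + (τ (j + 1 + 2) - q)) - f (q + (τ (j + 2) - q)))
    rw [show j + 1 + 2 = j + 2 + 1 by ring, Nat.add_sub_cancel' e2, Nat.add_sub_cancel' e1]
    rw [pow_add, show ((-1 : ℤ)) ^ 2 = 1 by norm_num, mul_one] at e3
    exact e3

/-- the levels of the zigzag in the third direction decrease -/
lemma zz_third {t : List Bool} {q : ℕ} (h : ∀ i, i < q → ¬ DirA.vert (dx up t i)) :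
    ∀ i, i < q → EN.lv3 2 (vx oo up t (i + 1)) < EN.lv3 2 (vx oo up t i) := by
  intro i hi
  have h1 := DirA.zz_dir h i hi
  have e1 : EN.lv3 2 (vx oo up t (i + 1)) = EN.lv3 2 (vx oo up t i) + EN.lv3 2 (dx up t i) := by
    rw [vx_succ, EN.lv3_two, EN.lv3_two, EN.lv3_two]
    simp only [lvl, ip, hd, up, if_true, Prod.fst_add, Prod.snd_add]
    ring_nf
  rw [e1, h1]
  split_ifs
  · have : EN.lv3 2 up < 0 := by decide
    linarith
  · have : EN.lv3 2 ((-1, 1) : Pt) < 0 := by decide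
    linarith

/-- the part behind a vertical step, in its own frame: the directions 1 and 2 become the directions false and true -/
lemma drop_fr {t : List Bool} {q : ℕ} (hq : q ≤ t.length) (hv : DirA.vert (dx up t q)) :
    ∃ σ : ℤ, (σ = 1 ∨ σ = -1) ∧ (∀ j, EN.lv3 1 (vx oo up t (q + j)) = EN.lv3 1 (vx oo up t q) +
      σ * lvl false (vx oo up (t.drop q) j)) ∧ ∀ j, EN.lv3 2 (vx oo up t (q + j)) = EN.lv3 2 (vx oo up t q) +
      σ * lvl true (vx oo up (t.drop q) j) := by
  obtain ⟨s, hs⟩ : ∃ s, s = t.take q := ⟨_, rfl⟩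
  obtain ⟨r, hr⟩ : ∃ r, r = t.drop q := ⟨_, rfl⟩
  have ht : t = s ++ r := by
    rw [hs, hr, List.take_append_drop]
  have hl : s.length = q := by
    rw [hs, List.length_take]
    omega
  have h1 : ∀ j, vx oo up t (q + j) = vx (vx oo up t q) (dx up t q) r j := by
    intro j
    rw [ht, ← hl]
    unfold vx dx
    rw [vs_shift]
    apply vs_congr
    intro k _
    exact tf_append_right k
  rw [← hr]
  obtain ⟨u, σ, hσ, hu, hip, hip2⟩ : ∃ (u : Pt) (σ : ℤ), (σ = 1 ∨ σ = -1) ∧ mulE u up = dx up t q ∧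
      (∀ p, lvl true (mulE u p) = σ * lvl false p) ∧
      ∀ p, -(lvl false (mulE u p) + lvl true (mulE u p)) = σ * lvl true p := by
    rcases hv with h | h
    · refine ⟨(-1, 1), 1, Or.inl rfl, ?_, ?_, ?_⟩
      · rw [h]
        decide
      · intro p
        simp only [lvl, hd, mulE, ip, up, if_true]
        simp
        ring
      · intro p
        simp only [lvl, hd, mulE, ip, up, if_true]
        simp
        ring
    · refine ⟨(1, -1), -1, Or.inr rfl, ?_, ?_, ?_⟩
      · rw [h]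
        decide
      · intro p
        simp only [lvl, hd, mulE, ip, up, if_true]
        simp
        ring
      · intro p
        simp only [lvl, hd, mulE, ip, up, if_true]
        simp
        ring
  have h2 : ∀ j, vx oo up t (q + j) = vx oo up t q + mulE u (vx oo up r j) := by
    intro j
    rw [h1, ← hu, vx_mulE u oo]
    congr 2
    exact sub_zero _
  refine ⟨σ, hσ, fun j => ?_, fun j => ?_⟩
  · rw [EN.lv3_one, EN.lv3_one, h2, EN.lvl_add, hip]
  · rw [EN.lv3_two, EN.lv3_two, h2, EN.lvl_add, EN.lvl_add, ← hip2]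
    ring

/-- the displacements in the three directions -/
lemma disp3 {v w : Pt} {x : ℝ} (h : ∃ dir : Bool, 2 * x ≤ |((lvl dir v - lvl dir w : ℤ) : ℝ)|) {p q : Fin 3} (hpq : p ≠ q) :
    x ≤ |((EN.lv3 p v - EN.lv3 p w : ℤ) : ℝ)| ∨ x ≤ |((EN.lv3 q v - EN.lv3 q w : ℤ) : ℝ)| := by
  obtain ⟨a, ha⟩ : ∃ a : ℝ, a = ((EN.lv3 0 v - EN.lv3 0 w : ℤ) : ℝ) := ⟨_, rfl⟩
  obtain ⟨b, hb⟩ : ∃ b : ℝ, b = ((EN.lv3 1 v - EN.lv3 1 w : ℤ) : ℝ) := ⟨_, rfl⟩
  obtain ⟨c, hc⟩ : ∃ c : ℝ, c = ((EN.lv3 2 v - EN.lv3 2 w : ℤ) : ℝ) := ⟨_, rfl⟩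
  have hs : a + b + c = 0 := by
    rw [ha, hb, hc]
    have h1 := EN.lv3_sum v
    have h2 := EN.lv3_sum w
    have h3 : (EN.lv3 0 v - EN.lv3 0 w) + (EN.lv3 1 v - EN.lv3 1 w) + (EN.lv3 2 v - EN.lv3 2 w) = 0 := by linarith
    exact_mod_cast h3
  have h1 : 2 * x ≤ |a| ∨ 2 * x ≤ |b| := by
    obtain ⟨dir, hd⟩ := h
    cases dir
    · left
      rw [ha, EN.lv3_zero, EN.lv3_zero]
      exact hd
    · right
      rw [hb, EN.lv3_one, EN.lv3_one]
      exact hd
  have key : ∀ a b c : ℝ, a + b + c = 0 → (2 * x ≤ |a| ∨ 2 * x ≤ |b|) → (x ≤ |a| ∨ x ≤ |b|) ∧ (x ≤ |a| ∨ x ≤ |c|) ∧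
      (x ≤ |b| ∨ x ≤ |c|) := by
    intro a b c h0 h2
    have ea := abs_nonneg a
    have eb := abs_nonneg b
    have t1 : |a| ≤ |b| + |c| := by
      have := abs_add_le (-b) (-c)
      rw [abs_neg, abs_neg] at this
      rwa [show -b + -c = a by linarith] at this
    have t2 : |b| ≤ |a| + |c| := by
      have := abs_add_le (-a) (-c)
      rw [abs_neg, abs_neg] at this
      rwa [show -a + -c = b by linarith] at this
    refine ⟨?_, ?_, ?_⟩ <;> by_contra hcon <;> push Not at hcon <;> rcases h2 with h2 | h2 <;> linarith [hcon.1, hcon.2]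
  obtain ⟨k1, k2, k3⟩ := key a b c hs h1
  rw [ha, hb] at k1
  rw [ha, hc] at k2
  rw [hb, hc] at k3
  have h3 : ∀ e : Fin 3, e = 0 ∨ e = 1 ∨ e = 2 := by decide
  rcases h3 p with rfl | rfl | rfl <;> rcases h3 q with rfl | rfl | rfl <;>
    first | exact absurd rfl hpq | exact k1 | exact k2 | exact k3 | exact k1.symm | exact k2.symm | exact k3.symm

lemma near3 {v w : Pt} {y : ℝ} (h : ∀ dir : Bool, 2 * |((lvl dir v - lvl dir w : ℤ) : ℝ)| ≤ y) (d : Fin 3) :
    |((EN.lv3 d v - EN.lv3 d w : ℤ) : ℝ)| ≤ y := by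
  have h0 := h false
  have h1 := h true
  have e0 := abs_nonneg (((lvl false v - lvl false w : ℤ) : ℝ))
  have e1 := abs_nonneg (((lvl true v - lvl true w : ℤ) : ℝ))
  have h3 : ∀ e : Fin 3, e = 0 ∨ e = 1 ∨ e = 2 := by decide
  rcases h3 d with rfl | rfl | rfl
  · rw [EN.lv3_zero, EN.lv3_zero]
    linarith
  · rw [EN.lv3_one, EN.lv3_one]
    linarith
  · rw [EN.lv3_two, EN.lv3_two]
    have h4 : ((-(lvl false v + lvl true v) - -(lvl false w + lvl true w) : ℤ) : ℝ) =
        -(((lvl false v - lvl false w : ℤ) : ℝ) + ((lvl true v - lvl true w : ℤ) : ℝ)) := by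
      push_cast
      ring
    rw [h4, abs_neg]
    exact (abs_add_le _ _).trans (by linarith)

/-- **the three frames** -/
theorem frames {K : ℕ} {t : List Bool} (ht : t ∈ WL K) {i l j M : ℕ} (hil : i ≤ l) (hlj : l ≤ j) (hj : j ≤ t.length)
    {R : ℤ} (hR : 4 < R) {x y : ℝ}
    (h2 : ∀ p q : Fin 3, p ≠ q → EN.Alt (fun a => EN.lv3 p (vx oo up t a)) i (M + 2) R ∨
      EN.Alt (fun a => EN.lv3 q (vx oo up t a)) i (M + 2) R)
    (hx : ∃ dir : Bool, 2 * x ≤ |((lvl dir (vx oo up t l) - lvl dir (vx oo up t i) : ℤ) : ℝ)|)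
    (hy : ∀ dir : Bool, 2 * |((lvl dir (vx oo up t j) - lvl dir (vx oo up t i) : ℤ) : ℝ)| ≤ y) :
    t ∈ HumpS (K + 3) M R x y ∨ EN.mw t ∈ HumpS (K + 3) M R x y ∨
      ∃ q, ∃ s ∈ HumpS (K + 3) M R x y, t = DirA.Qz q ++ s := by
  have hn := near3 hy
  by_cases h0 : EN.Alt (fun a => EN.lv3 0 (vx oo up t a)) i (M + 2) R
  · rcases h2 1 2 (by decide) with h1 | h1
    · -- the frame t
      left
      refine ⟨WL_mono (by omega) ht, i, l, j, hil, hlj, hj, fun dir => ?_, ?_, fun dir => ?_⟩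
      · cases dir
        · exact EN.alt_mono h0 le_rfl (by omega) le_rfl
        · exact EN.alt_mono h1 le_rfl (by omega) le_rfl
      · rcases disp3 hx (show (0 : Fin 3) ≠ 1 by decide) with h | h
        · exact ⟨false, h⟩
        · exact ⟨true, h⟩
      · cases dir
        · exact hn 0
        · exact hn 1
    · -- the mirror frame
      right
      left
      have hlen : (EN.mw t).length = t.length := EN.mw_length t
      have e0 : ∀ a, a ≤ t.length → lvl false (vx oo up (EN.mw t) a) = EN.lv3 0 (vx oo up t a) := fun a ha =>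
        (EN.lvl_mw t (by omega)).1
      have e1 : ∀ a, a ≤ t.length → lvl true (vx oo up (EN.mw t) a) = EN.lv3 2 (vx oo up t a) := fun a ha =>
        (EN.lvl_mw t (by omega)).2
      refine ⟨WL_mono (by omega) (EN.mw_WL ht), i, l, j, hil, hlj, by omega, fun dir => ?_, ?_, fun dir => ?_⟩
      · cases dir
        · exact EN.alt_congr (EN.alt_mono h0 le_rfl (by omega) le_rfl) fun a ha => (e0 a (by omega)).symm
        · exact EN.alt_congr (EN.alt_mono h1 le_rfl (by omega) le_rfl) fun a ha => (e1 a (by omega)).symm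
      · rcases disp3 hx (show (0 : Fin 3) ≠ 2 by decide) with h | h
        · refine ⟨false, ?_⟩
          rw [e0 l (by omega), e0 i (by omega)]
          exact h
        · refine ⟨true, ?_⟩
          rw [e1 l (by omega), e1 i (by omega)]
          exact h
      · cases dir
        · rw [e0 j hj, e0 i (by omega)]
          exact hn 0
        · rw [e1 j hj, e1 i (by omega)]
          exact hn 2
  · -- the frame behind the zigzag
    right
    right
    have h1 := (h2 0 1 (by decide)).resolve_left h0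
    have h3 := (h2 0 2 (by decide)).resolve_left h0
    have hex : ∃ q, q ≤ t.length ∧ DirA.vert (dx up t q) := by
      by_contra hc
      push Not at hc
      have h4 : ∀ a, a < t.length → ¬ DirA.vert (dx up t a) := fun a ha => hc a ha.le
      obtain ⟨τ, s, hs, k1, k2, k3⟩ := h1
      have b0 := k3 0 (by omega)
      have b1 := k2 0 (by omega)
      have b2 := k2 1 (by omega)
      have c1 := DirA.zz_lvl h4 (τ 0) (by omega)
      have c2 := DirA.zz_lvl h4 (τ (0 + 1)) (by rw [zero_add]; omega)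
      simp only [EN.lv3_one, c1, c2, pow_zero, mul_one] at b0
      rcases hs with rfl | rfl <;> split_ifs at b0 <;> omega
    classical
    obtain ⟨hq, hv⟩ := Nat.find_spec hex
    have hmin : ∀ a, a < Nat.find hex → ¬ DirA.vert (dx up t a) := fun a ha h => Nat.find_min hex ha ⟨by omega, h⟩
    obtain ⟨q, hqd⟩ : ∃ q, q = Nat.find hex := ⟨_, rfl⟩
    rw [← hqd] at hq hv hmin
    obtain ⟨σ, hσ, f1, f2⟩ := drop_fr hq hv
    have hanti : ∀ a b, a ≤ b → b ≤ q → EN.lv3 2 (vx oo up t b) ≤ EN.lv3 2 (vx oo up t a) := by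
      intro a b hab
      induction b, hab using Nat.le_induction with
      | base => intro _; exact le_rfl
      | succ c hc ih => intro h; exact (zz_third hmin c (by omega)).le.trans (ih (by omega))
    obtain ⟨hqi, g1⟩ := alt_shift (q := q) (fun a b c hab hbc hcq r1 _ _ => by
      have c1 := DirA.zz_lvl hmin a (by omega)
      have c2 := DirA.zz_lvl hmin b (by omega)
      simp only [EN.lv3_one, c1, c2] at r1
      split_ifs at r1 <;> norm_num at r1 <;> omega) (by omega) h1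
    obtain ⟨-, g2⟩ := alt_shift (q := q) (fun a b c hab hbc hcq r1 r2 r3 => by
      have c1 := hanti a b hab (by omega)
      have c2 := hanti b c hbc (by omega)
      rw [abs_of_nonpos (by linarith)] at r1 r2
      have c3 : EN.lv3 2 (vx oo up t b) - EN.lv3 2 (vx oo up t a) < 0 := by linarith
      have c4 : 0 < EN.lv3 2 (vx oo up t b) - EN.lv3 2 (vx oo up t c) := by linarith
      exact absurd r3 (not_le.2 (mul_neg_of_neg_of_pos c3 c4))) (by omega) h3
    have hσσ : σ * σ = 1 := by rcases hσ with rfl | rfl <;> norm_num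
    have e1 : ∀ a, lvl false (vx oo up (t.drop q) a) = -(σ * EN.lv3 1 (vx oo up t q)) + σ * EN.lv3 1 (vx oo up t (q + a)) := by
      intro a
      rw [f1 a]
      calc lvl false (vx oo up (t.drop q) a) = σ * σ * lvl false (vx oo up (t.drop q) a) := by rw [hσσ, one_mul]
        _ = _ := by ring
    have e2 : ∀ a, lvl true (vx oo up (t.drop q) a) = -(σ * EN.lv3 2 (vx oo up t q)) + σ * EN.lv3 2 (vx oo up t (q + a)) := by
      intro a
      rw [f2 a]
      calc lvl true (vx oo up (t.drop q) a) = σ * σ * lvl true (vx oo up (t.drop q) a) := by rw [hσσ, one_mul]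
        _ = _ := by ring
    have habs : ∀ z : ℤ, |((σ * z : ℤ) : ℝ)| = |(z : ℝ)| := by
      intro z
      rcases hσ with rfl | rfl
      · rw [one_mul]
      · rw [neg_one_mul, Int.cast_neg, abs_neg]
    have d1 : ∀ a b, q ≤ a → q ≤ b → |((lvl false (vx oo up (t.drop q) (a - q)) -
        lvl false (vx oo up (t.drop q) (b - q)) : ℤ) : ℝ)| =
        |((EN.lv3 1 (vx oo up t a) - EN.lv3 1 (vx oo up t b) : ℤ) : ℝ)| := by
      intro a b ha hb
      rw [e1, e1, Nat.add_sub_cancel' ha, Nat.add_sub_cancel' hb]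
      refine Eq.trans ?_ (habs _)
      congr 2
      ring
    have d2 : ∀ a b, q ≤ a → q ≤ b → |((lvl true (vx oo up (t.drop q) (a - q)) -
        lvl true (vx oo up (t.drop q) (b - q)) : ℤ) : ℝ)| =
        |((EN.lv3 2 (vx oo up t a) - EN.lv3 2 (vx oo up t b) : ℤ) : ℝ)| := by
      intro a b ha hb
      rw [e2, e2, Nat.add_sub_cancel' ha, Nat.add_sub_cancel' hb]
      refine Eq.trans ?_ (habs _)
      congr 2
      ring
    refine ⟨q, t.drop q, ⟨RD.drop_WL ht hq hv, i - q, l - q, j - q, by omega, by omega, ?_, fun dir => ?_, ?_, fun dir => ?_⟩,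
      by rw [← DirA.take_eq hq hmin hv, List.take_append_drop]⟩
    · rw [List.length_drop]
      omega
    · cases dir
      · refine EN.alt_congr (EN.alt_affine g1 (-(σ * EN.lv3 1 (vx oo up t q))) hσ) fun a ha => (e1 a).symm
      · refine EN.alt_congr (EN.alt_affine g2 (-(σ * EN.lv3 2 (vx oo up t q))) hσ) fun a ha => (e2 a).symm
    · rcases disp3 hx (show (1 : Fin 3) ≠ 2 by decide) with h | h
      · refine ⟨false, ?_⟩
        rw [d1 l i (by omega) (by omega)]
        exact h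
      · refine ⟨true, ?_⟩
        rw [d2 l i (by omega) (by omega)]
        exact h
    · cases dir
      · rw [d1 j i (by omega) (by omega)]
        exact hn 1
      · rw [d2 j i (by omega) (by omega)]
        exact hn 2

/-- from the box k + J to nuX -/
lemma conv {m : ℕ → ℝ} (hm : ∀ k, 0 < m k) (hmono : Monotone m) : ∃ Y : ℝ, 1 ≤ Y ∧ ∀ (k J : ℕ) (e : ℝ), 0 ≤ e →
    ENNReal.ofReal (e * (Ub (k + J) / m (k + J))) * Xb (k + J) ^ 2 ≤ ENNReal.ofReal (Y ^ J * e) * nuX m k := by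
  obtain ⟨D, hD, hDX⟩ := Xb_pow
  have hD0 : 0 ≤ D := by linarith
  have hD2 : 1 ≤ D ^ 2 := one_le_pow₀ hD
  refine ⟨2 * D ^ 2, by linarith, fun k J e he => ?_⟩
  have hU := Ub_pos k
  have hmk := hm k
  have h1 : Ub (k + J) / m (k + J) ≤ 2 ^ J * (Ub k / m k) := by
    have e1 := Sc.Ub_shift k J
    have e2 := hmono (Nat.le_add_right k J)
    calc Ub (k + J) / m (k + J) ≤ (2 ^ J * Ub k) / m k := by gcongr
      _ = _ := by ring
  calc ENNReal.ofReal (e * (Ub (k + J) / m (k + J))) * Xb (k + J) ^ 2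
      ≤ ENNReal.ofReal (e * (2 ^ J * (Ub k / m k))) * (ENNReal.ofReal (D ^ J) * Xb k) ^ 2 := by
        refine mul_le_mul' (ENNReal.ofReal_le_ofReal ?_) (pow_le_pow_left' (hDX k J) 2)
        gcongr
    _ = ENNReal.ofReal ((2 * D ^ 2) ^ J * e) * nuX m k := by
        unfold nuX
        rw [mul_pow, ← ENNReal.ofReal_pow (by positivity), ← mul_assoc (ENNReal.ofReal (e * (2 ^ J * (Ub k / m k)))),
          ← ENNReal.ofReal_mul (by positivity), ← mul_assoc (ENNReal.ofReal ((2 * D ^ 2) ^ J * e)),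
          ← ENNReal.ofReal_mul (by positivity)]
        congr 2
        rw [mul_pow, ← pow_mul, ← pow_mul, mul_comm 2 J]
        ring

end SB

open SB in
/-- **near double points behind a positive part of the walk** -/
theorem simB_of {m : ℕ → ℝ} (hm : ∀ k, 0 < m k) (hmono : Monotone m) (hE : EN.ESPw m) (hF : FewX m) (hH : HumpX m)
    {ρ : ℝ} (hρ : 0 < ρ) : SimB m ρ := by
  intro η e hη he
  obtain ⟨Y, hY, hconv⟩ := conv hm hmono
  obtain ⟨A, i0, k1, hA, hout⟩ := EN.tail_out hE 1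
  obtain ⟨J, hJ0, hJ⟩ : ∃ J, i0 ≤ J ∧ A / 2 ^ (1 * J) ≤ e / 2 := by
    obtain ⟨j, hj⟩ := pow_unbounded_of_one_lt (A / (e / 2)) (show (1 : ℝ) < 2 by norm_num)
    refine ⟨i0 + j, by omega, ?_⟩
    rw [div_lt_iff₀ (by positivity)] at hj
    rw [div_le_iff₀ (by positivity), one_mul, pow_add]
    have h1 : (1 : ℝ) ≤ 2 ^ i0 := one_le_pow₀ (by norm_num)
    have h2 : (0 : ℝ) < 2 ^ j := by positivity
    calc A ≤ 2 ^ j * (e / 2) := hj.le
      _ = e / 2 * (1 * 2 ^ j) := by ring
      _ ≤ e / 2 * (2 ^ i0 * 2 ^ j) := by gcongr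
  obtain ⟨M, hM⟩ := hH
  have hCD := DirA.CD_ge
  have hY0 : 0 < Y := by linarith
  have hCD0 : 0 < DirA.CD := by linarith
  obtain ⟨e1, he1⟩ : ∃ e1 : ℝ, e1 = e / 4 / Y ^ J := ⟨_, rfl⟩
  have he10 : 0 < e1 := by
    rw [he1]
    positivity
  obtain ⟨J', k2, hfew⟩ := hF (M + 2) J ρ e1 hρ he10
  obtain ⟨e2, he2⟩ : ∃ e2 : ℝ, e2 = e / 4 / ((2 + DirA.CD) * Y ^ (J + 3)) := ⟨_, rfl⟩
  have he20 : 0 < e2 := by
    rw [he2]
    positivity
  obtain ⟨δ, k3, hδ, hhump⟩ := hM (J + 3) J' (η / 2) e2 (by positivity) he20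
  refine ⟨δ / 2, (k1 + k2) + (k3 + (J' + 2)), by positivity, fun k n hk h1 h2 => ?_⟩
  have hR : 4 < RR (k - J') := by
    unfold RR
    have : (2 : ℤ) ^ 2 ≤ 2 ^ (k - J') := pow_le_pow_right₀ (by norm_num) (by omega)
    norm_num at this
    linarith
  obtain ⟨H, hHd⟩ : ∃ H, H = HumpS (k + J + 3) M (RR (k - J')) (η / 2 * 2 ^ k) (δ * 2 ^ k) := ⟨_, rfl⟩
  obtain ⟨F, hFd⟩ : ∃ F : Set (List Bool), F = {t | (t.length = n ∧ t ∈ WL (k + J)) ∧ ∃ i : ℕ, ρ * n ≤ i ∧ i ≤ t.length ∧
    ∃ p q : Fin 3, p ≠ q ∧ ∀ d, d = p ∨ d = q →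
      ¬ EN.Alt (fun a => EN.lv3 d (vx oo up t a)) i (M + 2) (RR (k - J'))} := ⟨_, rfl⟩
  have hHn : ∀ n', gf {s | s ∈ H ∧ s.length = n'} ≤
      ENNReal.ofReal (e2 * (Ub (k + (J + 3)) / m (k + (J + 3)))) * Xb (k + (J + 3)) ^ 2 := by
    intro n'
    refine (gf_mono fun t ht => ?_).trans (hhump k n' (by omega))
    rw [hHd] at ht
    obtain ⟨⟨a1, a2⟩, a3⟩ := ht
    exact ⟨⟨a3, a1⟩, a2⟩
  obtain ⟨B, hB⟩ : ∃ B, B = ENNReal.ofReal (e2 * (Ub (k + (J + 3)) / m (k + (J + 3)))) * Xb (k + (J + 3)) ^ 2 := ⟨_, rfl⟩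
  rw [← hB] at hHn
  have hsub : {t | t ∈ SawN n ∧ ∃ i l j : ℕ, ρ * n ≤ i ∧ i ≤ l ∧ l ≤ j ∧ j ≤ n ∧
      (∃ dir : Bool, η * 2 ^ k ≤ |((lvl dir (vx oo up t l) - lvl dir (vx oo up t i) : ℤ) : ℝ)|) ∧
      ∀ dir : Bool, |((lvl dir (vx oo up t j) - lvl dir (vx oo up t i) : ℤ) : ℝ)| ≤ δ / 2 * 2 ^ k} ⊆
      {t | t ∈ SA ∧ t.length = n ∧ t ∉ WL (k + J)} ∪ (F ∪ (({t | t ∈ H ∧ t.length = n} ∪
        {t | EN.mw t ∈ {s | s ∈ H ∧ s.length = n}}) ∪ {t | t.length = n ∧ ∃ q, ∃ s ∈ H, t = DirA.Qz q ++ s})) := by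
    rintro t ⟨⟨ht1, ht2⟩, i, l, j, hi, hil, hlj, hj, hx, hy⟩
    by_cases hW : t ∈ WL (k + J)
    · right
      by_cases hFt : t ∈ F
      · exact Or.inl hFt
      · right
        have hal : ∀ p q : Fin 3, p ≠ q → EN.Alt (fun a => EN.lv3 p (vx oo up t a)) i (M + 2) (RR (k - J')) ∨
            EN.Alt (fun a => EN.lv3 q (vx oo up t a)) i (M + 2) (RR (k - J')) := by
          intro p q hpq
          by_contra hc
          push Not at hc
          apply hFt
          rw [hFd]
          refine ⟨⟨ht1, hW⟩, i, hi, by omega, p, q, hpq, ?_⟩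
          rintro d (rfl | rfl)
          · exact hc.1
          · exact hc.2
        rcases frames hW hil hlj (by omega) hR (x := η / 2 * 2 ^ k) (y := δ * 2 ^ k) hal (by
            obtain ⟨dir, hd⟩ := hx
            exact ⟨dir, by linarith⟩) (fun dir => by
            have := hy dir
            linarith) with h | h | ⟨q, s, h, hs⟩
        · left
          left
          rw [← hHd] at h
          exact ⟨h, ht1⟩
        · left
          right
          rw [← hHd] at h
          exact ⟨h, by rw [EN.mw_length]; exact ht1⟩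
        · right
          rw [← hHd] at h
          exact ⟨ht1, q, s, h, hs⟩
    · exact Or.inl ⟨ht2, ht1, hW⟩
  have g1 : gf {t | t ∈ SA ∧ t.length = n ∧ t ∉ WL (k + J)} ≤ ENNReal.ofReal (e / 2) * nuX m k :=
    (hout k J n (by omega) hJ0 h1 h2).trans (mul_le_mul_left (ENNReal.ofReal_le_ofReal hJ) _)
  have g2 : gf F ≤ ENNReal.ofReal (e / 4) * nuX m k := by
    rw [hFd]
    refine (hfew k n (by omega) h1).trans ((hconv k J e1 he10.le).trans (le_of_eq ?_))
    congr 2
    rw [he1]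
    field_simp
  have g3 : gf {t | EN.mw t ∈ {s | s ∈ H ∧ s.length = n}} ≤ B := (EN.gf_mw_le fun t ht => ht).trans (hHn n)
  have g4 : gf {t | t.length = n ∧ ∃ q, ∃ s ∈ H, t = DirA.Qz q ++ s} ≤ ENNReal.ofReal DirA.CD * B := EN.EX.gf_zzX hHn
  have g5 : B + B + ENNReal.ofReal DirA.CD * B ≤ ENNReal.ofReal (e / 4) * nuX m k := by
    have e1 : B + B + ENNReal.ofReal DirA.CD * B = ENNReal.ofReal (2 + DirA.CD) * B := by
      rw [ENNReal.ofReal_add (by norm_num) hCD0.le, add_mul]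
      congr 1
      rw [show ENNReal.ofReal 2 = 2 by norm_num, two_mul]
    rw [e1, hB]
    refine (mul_le_mul_right (hconv k (J + 3) e2 he20.le) _).trans (le_of_eq ?_)
    rw [← mul_assoc, ← ENNReal.ofReal_mul (by positivity)]
    congr 2
    rw [he2]
    field_simp
  refine (gf_mono hsub).trans ((gf_union_le _ _).trans ?_)
  calc _ ≤ ENNReal.ofReal (e / 2) * nuX m k + (ENNReal.ofReal (e / 4) * nuX m k + ENNReal.ofReal (e / 4) * nuX m k) := by
        refine add_le_add g1 ((gf_union_le _ _).trans (add_le_add g2 ?_))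
        refine ((gf_union_le _ _).trans (add_le_add ((gf_union_le _ _).trans (add_le_add (hHn n) g3)) g4)).trans g5
    _ = _ := by
        rw [← add_mul, ← add_mul, ← ENNReal.ofReal_add (by positivity) (by positivity),
          ← ENNReal.ofReal_add (by positivity) (by positivity)]
        congr 2
        ring

end SIM

end HexObs
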