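import Pool.Agent.EN.LowX
import Pool.Agent.EN.LowMod
import Pool.Agent.NTA.FinXAll
import Pool.Agent.NTS.LowLim
import Pool.Agent.SIM.EveryN
import Pool.Agent.SIM.FewX
import Pool.Agent.SIM.HumpXF
import Pool.Agent.SIM.LawS
import Pool.Agent.SIM.Rev
import Pool.Agent.SIM.SimB

/-!
# SIM/FinAllS: no near double points, and simple weak limits, from the core estimate `HumpX` (helper10)

* `lawSim_H` : `LawSim` from `HumpX`;
* `no_const_lim` : a weak limit has no constant arc (lower modulus, no dimension);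
* `simple_of` : the statement of the hand-in LimitSimple, from `HumpX`; **`simple_final`** : no hypothesis.
-/

set_option autoImplicit false

open MeasureTheory Filter Topology HexObs HexObs.NTW HexObs.EN

namespace HexObs

namespace SIM

open Pool.Agent.NTS.Res

open NTSF (MZ)

open scoped ENNReal

lemma mZ_mono2 : Monotone MZ := fun _ _ h => PW.mZ_mono (Nat.pow_le_pow_right (by norm_num) h)

lemma mlowZ : ∃ c : ℝ, 0 < c ∧ ∀ k : ℕ, c * (2 : ℝ) ^ (4 / 3 * (k : ℝ)) ≤ MZ k := VF.mLow VF.sharpZ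

lemma mupZ : ∃ C : ℝ, ∀ k : ℕ, MZ k ≤ C * (2 : ℝ) ^ (4 / 3 * (k : ℝ)) :=
  let ⟨C, _, h⟩ := VF.mUp VF.sharpZ
  ⟨C, h⟩

/-- no near double points in the laws of `X_n`, from the core estimate -/
theorem lawSim_H (hH : HumpX MZ) : LawSim :=
  lawSim_AB mlowZ mupZ factsX_M lowX_M fun _ hρ =>
    simB_of (fun _ => PW.mZ_pos Nat.one_le_two_pow) mZ_mono2 espw_M fewX_M hH hρ

/-- no weak limit has a constant arc -/
theorem no_const_lim {φ : ℕ → ℕ} {ν : Measure C(unitInterval, ℂ)} (hφ : Tendsto φ atTop atTop)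
    (hν : IsProbabilityMeasure ν) (hlim : LawTo φ ν) :
    ∀ᵐ γ : C(unitInterval, ℂ) ∂ν, ∀ u v : unitInterval, u < v → ∃ t : unitInterval, u ≤ t ∧ t ≤ v ∧ γ t ≠ γ u := by
  have hL : ∀ a : ℝ, 3 / 4 < a → LowModX MZ a := fun a ha =>
    lowModX_of mlowZ mupZ extM espw_M ha
  filter_upwards [NTSF.low_ex mlowZ mupZ factsX_M hL hφ hν hlim] with γ hγ u v huv
  obtain ⟨c, hc, h⟩ := hγ 1 (by norm_num)
  obtain ⟨t, h1, h2, h3⟩ := h u v huv.le
  refine ⟨t, h1, h2, fun heq => ?_⟩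
  have huv' : (0 : ℝ) < (v : ℝ) - u := sub_pos.2 (by exact_mod_cast huv)
  rw [heq, sub_self, norm_zero] at h3
  have h4 : 0 < c * ((v : ℝ) - u) ^ (1 : ℝ) := mul_pos hc (Real.rpow_pos_of_pos huv' _)
  linarith

/-- **simple curves** -/
theorem inj_lim' (h : LawSim) {φ : ℕ → ℕ} {ν : Measure C(unitInterval, ℂ)} (hφ : Tendsto φ atTop atTop)
    (hν : IsProbabilityMeasure ν) (hlim : LawTo φ ν) :
    ∀ᵐ γ : C(unitInterval, ℂ) ∂ν, Function.Injective γ := by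
  filter_upwards [pinch_lim h hφ hν hlim, no_const_lim hφ hν hlim] with γ h1 h2
  have key : ∀ u v : unitInterval, u < v → γ v ≠ γ u := by
    intro u v huv heq
    obtain ⟨w, hw1, hw2, hw3⟩ := h2 u v huv
    exact hw3 (h1 u w v hw1 hw2 heq)
  intro u v heq
  rcases lt_trichotomy u v with h4 | h4 | h4
  · exact absurd heq.symm (key u v h4)
  · exact h4
  · exact absurd heq (key v u h4)

/-- **the statement of the hand-in LimitSimple**, from `HumpX` -/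
theorem simple_of (hH : HumpX MZ) :
    (∀ η ε : ℝ, 0 < η → 0 < ε → ∃ δ : ℝ, 0 < δ ∧ ∀ n : ℕ, 1 ≤ n →
      law n {γ : C(unitInterval, ℂ) | ∃ p q r : unitInterval, p ≤ q ∧ q ≤ r ∧
        η < dist (γ q) (γ p) ∧ dist (γ r) (γ p) < δ} ≤ ENNReal.ofReal ε) ∧
    (∀ φ : ℕ → ℕ, StrictMono φ → ∃ ψ : ℕ → ℕ, StrictMono ψ ∧ ∃ ν : Measure C(unitInterval, ℂ),
      IsProbabilityMeasure ν ∧ LawTo (fun k => φ (ψ k)) ν) ∧
    ∀ (φ : ℕ → ℕ) (ν : Measure C(unitInterval, ℂ)), Tendsto φ atTop atTop → IsProbabilityMeasure ν → LawTo φ ν →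
      ∀ᵐ γ : C(unitInterval, ℂ) ∂ν, Function.Injective γ :=
  ⟨sim_every (lawSim_H hH), (NTSF.conclE_false NTSF.finE).2.2.2.2.1,
    fun _ _ hφ hν hlim => inj_lim' (lawSim_H hH) hφ hν hlim⟩

/-- **no macroscopic near double points of `X_n`, and every weak limit is a simple curve** -/
theorem simple_final :
    (∀ η ε : ℝ, 0 < η → 0 < ε → ∃ δ : ℝ, 0 < δ ∧ ∀ n : ℕ, 1 ≤ n →
      law n {γ : C(unitInterval, ℂ) | ∃ p q r : unitInterval, p ≤ q ∧ q ≤ r ∧
        η < dist (γ q) (γ p) ∧ dist (γ r) (γ p) < δ} ≤ ENNReal.ofReal ε) ∧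
    (∀ φ : ℕ → ℕ, StrictMono φ → ∃ ψ : ℕ → ℕ, StrictMono ψ ∧ ∃ ν : Measure C(unitInterval, ℂ),
      IsProbabilityMeasure ν ∧ LawTo (fun k => φ (ψ k)) ν) ∧
    ∀ (φ : ℕ → ℕ) (ν : Measure C(unitInterval, ℂ)), Tendsto φ atTop atTop → IsProbabilityMeasure ν → LawTo φ ν →
      ∀ᵐ γ : C(unitInterval, ℂ) ∂ν, Function.Injective γ :=
  simple_of humpX_M

end SIM

end HexObs
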