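import Pool.Agent.SIM.DCount

/-!
# SIM (no double points): the choice of the scales (helper69)

From the constants `C`, `c` of the regularity: depths `J s` and ratios `n s` (`ρ s = 2 ^ (K - J s)`,
`R s = 3 n s 2 ^ (K - J s)`) with small exceptional masses and a large sum of `1 / (3 n s)`.
-/

set_option autoImplicit false

namespace HexObs

namespace SIM

open Finset

/-- **the scales** -/
theorem scales {C c e M : ℝ} (hC : 1 ≤ C) (hc : 0 < c) (he : 0 < e) (J0 n0 : ℕ) :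
    ∃ (S : ℕ) (J n : ℕ → ℕ), 0 < S ∧ (∀ s, J0 ≤ J s) ∧ (∀ s, n0 ≤ n s ∧ 107 ≤ n s) ∧ (∀ s, J s < J (s + 1)) ∧
      (∀ s, C ^ J s * (2 : ℝ) ^ (-(c * n s)) ≤ e / 2 ^ (s + 1)) ∧ (∀ s, 240 * n (s + 1) ≤ 2 ^ (J (s + 1) - J s)) ∧
      (3 * (n 0 : ℝ) ≤ e * 2 ^ J 0) ∧ M ≤ ∑ s ∈ range S, 1 / (3 * (n s : ℝ)) := by
  -- the ratio q
  obtain ⟨q, hq1, hq⟩ : ∃ q : ℕ, 1 ≤ q ∧ 2 * C ≤ (2 : ℝ) ^ (c * q) := by
    obtain ⟨q, hq⟩ := exists_nat_gt (2 * C / (c * Real.log 2) + 1)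
    have hl : 0 < Real.log 2 := Real.log_pos (by norm_num)
    have h1 : 0 ≤ 2 * C / (c * Real.log 2) := by positivity
    have h2 : (1 : ℝ) ≤ q := by linarith
    refine ⟨q, by exact_mod_cast h2, ?_⟩
    have h3 : 2 * C ≤ (c * Real.log 2) * q := by
      have h4 : 2 * C / (c * Real.log 2) ≤ q := by linarith
      rw [div_le_iff₀ (by positivity)] at h4
      linarith
    have h5 : (2 : ℝ) ^ (c * q) = Real.exp (c * Real.log 2 * q) := by
      rw [Real.rpow_def_of_pos (by norm_num)]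
      congr 1
      ring
    rw [h5]
    linarith [Real.add_one_le_exp (c * Real.log 2 * q)]
  -- the increment c'
  obtain ⟨c', hc1, hc'⟩ : ∃ c' : ℕ, 1 ≤ c' ∧ 480 * q * (2 + c') ≤ 2 ^ c' := by
    have h1 : Filter.Tendsto (fun x : ℕ => ((x : ℝ) ^ 2) / 2 ^ x) Filter.atTop (nhds 0) :=
      tendsto_pow_const_div_const_pow_of_one_lt 2 (by norm_num)
    have h2 : ∀ᶠ x : ℕ in Filter.atTop, ((x : ℝ) ^ 2) / 2 ^ x < 1 / (1440 * q) := by
      apply h1.eventually_lt_const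
      have : (0 : ℝ) < q := by exact_mod_cast hq1
      positivity
    obtain ⟨x, hx, hx1⟩ := (h2.and (Filter.eventually_ge_atTop 2)).exists
    refine ⟨x, by omega, ?_⟩
    have hq0 : (0 : ℝ) < q := by exact_mod_cast hq1
    have hx2 : (2 : ℝ) ≤ x := by exact_mod_cast hx1
    rw [div_lt_div_iff₀ (by positivity) (by positivity)] at hx
    have h3 : (480 * q * (2 + x) : ℝ) ≤ 2 ^ x := by
      have h4 : (2 + x : ℝ) ≤ 3 * x ^ 2 := by nlinarith
      have h5 : (480 * q * (2 + x) : ℝ) ≤ 480 * q * (3 * x ^ 2) := mul_le_mul_of_nonneg_left h4 (by positivity)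
      nlinarith
    exact_mod_cast h3
  -- the first depth
  obtain ⟨A, hA⟩ : ∃ A : ℕ, J0 ≤ A ∧ n0 ≤ A ∧ 107 ≤ A ∧ (2 : ℝ) ^ (-(A : ℝ)) ≤ e / 2 ∧ 3 * (q * A : ℝ) ≤ e * 2 ^ A := by
    have h1 : Filter.Tendsto (fun x : ℕ => ((x : ℝ) ^ 1) / 2 ^ x) Filter.atTop (nhds 0) :=
      tendsto_pow_const_div_const_pow_of_one_lt 1 (by norm_num)
    have hq0 : (0 : ℝ) < q := by exact_mod_cast hq1
    have h2 : ∀ᶠ x : ℕ in Filter.atTop, ((x : ℝ) ^ 1) / 2 ^ x < e / (3 * q) := by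
      apply h1.eventually_lt_const
      positivity
    obtain ⟨x, hx, hx1⟩ := (h2.and (Filter.eventually_ge_atTop (J0 + n0 + 107))).exists
    have hx2 : (107 : ℝ) ≤ x := by
      have : 107 ≤ x := by omega
      exact_mod_cast this
    rw [div_lt_div_iff₀ (by positivity) (by positivity), pow_one] at hx
    refine ⟨x, by omega, by omega, by omega, ?_, by linarith⟩
    rw [Real.rpow_neg (by norm_num), Real.rpow_natCast, inv_eq_one_div, div_le_div_iff₀ (by positivity) (by norm_num)]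
    have h3 : (1 : ℝ) ≤ q := by exact_mod_cast hq1
    nlinarith
  obtain ⟨hA1, hA2, hA3, hA4, hA5⟩ := hA
  obtain ⟨J, hJ⟩ : ∃ J : ℕ → ℕ, J = _root_.SIM.scl A c' := ⟨_, rfl⟩
  have hJ0 : J 0 = A := by rw [hJ, _root_.SIM.scl_zero]
  have hJs : ∀ s, J (s + 1) = J s + Nat.log 2 (J s) + c' := fun s => by rw [hJ, _root_.SIM.scl_succ]
  have hJge : ∀ s, A + s ≤ J s := by
    intro s
    induction s with
    | zero => rw [hJ0]; simp
    | succ s ih =>
      rw [hJs]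
      omega
  obtain ⟨S, hS⟩ := _root_.SIM.sum_scl (A := A) (c := c') (by omega) hc1 (3 * q * M)
  have hS1 := hS (S + 1) (by omega)
  refine ⟨S + 1, J, fun s => q * J s, by omega, fun s => by have := hJge s; omega, fun s => ?_, fun s => ?_, fun s => ?_,
    fun s => ?_, ?_, ?_⟩
  · have h1 := hJge s
    have h2 : J s ≤ q * J s := Nat.le_mul_of_pos_left _ (by omega)
    show n0 ≤ q * J s ∧ 107 ≤ q * J s
    omega
  · rw [hJs]
    omega
  · have h1 := hJge s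
    show C ^ J s * (2 : ℝ) ^ (-(c * ((q * J s : ℕ) : ℝ))) ≤ e / 2 ^ (s + 1)
    have h2 : (2 : ℝ) ^ (-(c * ((q * J s : ℕ) : ℝ))) = (((2 : ℝ) ^ (c * q))⁻¹) ^ J s := by
      rw [← Real.rpow_neg (by norm_num), ← Real.rpow_natCast, ← Real.rpow_mul (by norm_num)]
      congr 1
      push_cast
      ring
    rw [h2, ← mul_pow]
    have hC0 : 0 < C := by linarith
    have h3 : C * ((2 : ℝ) ^ (c * q))⁻¹ ≤ 1 / 2 := by
      rw [← div_eq_mul_inv, div_le_div_iff₀ (by positivity) (by norm_num)]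
      linarith
    calc (C * ((2 : ℝ) ^ (c * q))⁻¹) ^ J s ≤ (1 / 2) ^ J s := pow_le_pow_left₀ (by positivity) h3 _
      _ ≤ (1 / 2) ^ (A + s) := pow_le_pow_of_le_one (by norm_num) (by norm_num) h1
      _ = (2 : ℝ) ^ (-(A : ℝ)) / 2 ^ s := by
        rw [pow_add, Real.rpow_neg (by norm_num), Real.rpow_natCast, one_div, inv_pow, inv_pow, div_eq_mul_inv]
      _ ≤ (e / 2) / 2 ^ s := by gcongr
      _ = e / 2 ^ (s + 1) := by rw [pow_succ]; field_simp
  · show 240 * (q * J (s + 1)) ≤ 2 ^ (J (s + 1) - J s)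
    have h1 := hJge s
    have h2 : J (s + 1) - J s = Nat.log 2 (J s) + c' := by
      rw [hJs]
      omega
    have h3 : J s < 2 ^ (Nat.log 2 (J s) + 1) := Nat.lt_pow_succ_log_self (by norm_num) _
    have h4 : J (s + 1) ≤ (2 + c') * J s := by
      rw [hJs]
      have h5 : Nat.log 2 (J s) ≤ J s := Nat.log_le_self 2 _
      have h6 : c' ≤ c' * J s := Nat.le_mul_of_pos_right _ (by omega)
      nlinarith
    rw [h2, pow_add]
    have h7 : 240 * (q * J (s + 1)) ≤ 240 * q * ((2 + c') * J s) := by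
      have := Nat.mul_le_mul_left (240 * q) h4
      linarith
    have h8 : 2 * (240 * q * ((2 + c') * J s)) ≤ 2 * (2 ^ Nat.log 2 (J s) * 2 ^ c') := by
      calc 2 * (240 * q * ((2 + c') * J s)) = (480 * q * (2 + c')) * J s := by ring
        _ ≤ 2 ^ c' * J s := Nat.mul_le_mul_right _ hc'
        _ ≤ 2 ^ c' * 2 ^ (Nat.log 2 (J s) + 1) := Nat.mul_le_mul_left _ h3.le
        _ = 2 * (2 ^ Nat.log 2 (J s) * 2 ^ c') := by rw [pow_succ]; ring
    omega
  · show 3 * ((q * J 0 : ℕ) : ℝ) ≤ e * 2 ^ J 0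
    rw [hJ0]
    push_cast
    exact hA5
  · have hq0 : (0 : ℝ) < q := by exact_mod_cast hq1
    rw [← hJ] at hS1
    have h1 : ∑ s ∈ range (S + 1), 1 / (3 * ((q * J s : ℕ) : ℝ)) =
        (1 / (3 * q)) * ∑ s ∈ range (S + 1), 1 / (J s : ℝ) := by
      rw [Finset.mul_sum]
      refine Finset.sum_congr rfl fun s _ => ?_
      have h2 : (0 : ℝ) < J s := by
        have := hJge s
        exact_mod_cast (by omega : 0 < J s)
      push_cast
      field_simp
    show M ≤ ∑ s ∈ range (S + 1), 1 / (3 * ((q * J s : ℕ) : ℝ))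
    rw [h1]
    calc M = (1 / (3 * q)) * (3 * q * M) := by field_simp
      _ ≤ _ := mul_le_mul_of_nonneg_left hS1 (by positivity)

end SIM

end HexObs
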