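import Pool.Agent.SIM.RegAll
import Pool.Agent.SIM.GoodW
import Pool.Agent.SIM.Scales
import Pool.Agent.SIM.VWord

/-!
# SIM (no double points): the cumulative assembly, part A (helper69)

* `nearQ_of`: a near pair of a regular word gives `NearQ`;
* `reg_off`: the words that are irregular at one of the chosen scales are rare.
-/

set_option autoImplicit false

namespace HexObs

namespace SIM

open Finset TS SDN NTA

open scoped ENNReal

/-- irregular at one of the scales -/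
def OffR (S : ℕ) (J n : ℕ → ℕ) (K : ℕ) : Set (List Bool) :=
  {t | t ∈ WL K ∧ ∃ s, s < S ∧ Irg 6 8 (K - J s) (n s) t}

lemma lvl_le (p : Pt) : |lvl false p| ≤ 3 * max |p.1| |p.2| := by
  have e1 : lvl false p = p.1 + 2 * p.2 := by
    show ip p up = _
    simp only [ip, up]
    ring
  rw [e1]
  have h1 := le_max_left |p.1| |p.2|
  have h2 := le_max_right |p.1| |p.2|
  calc |p.1 + 2 * p.2| ≤ |p.1| + |2 * p.2| := abs_add_le _ _
    _ = |p.1| + 2 * |p.2| := by rw [abs_mul]; norm_num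
    _ ≤ _ := by linarith

lemma mem_Bl_of_lvl {p q : Pt} {d : ℕ} (h : ∀ dir, |lvl dir q - lvl dir p| ≤ d) : p ∈ Bl q d := by
  have e1 : ∀ p : Pt, lvl false p = p.1 + 2 * p.2 := fun p => by
    show ip p up = _
    simp only [ip, up]
    ring
  have e2 : ∀ p : Pt, lvl true p = -(2 * p.1 + p.2) := fun p => by
    show ip p (-1, 0) = _
    simp only [ip]
    ring
  have h1 := h false
  have h2 := h true
  rw [e1, e1, abs_le] at h1
  rw [e2, e2, abs_le] at h2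
  rw [mem_Bl]
  refine ⟨⟨?_, ?_⟩, ?_, ?_⟩ <;> omega

lemma notMem_Bl_of_lvl {p q : Pt} {R : ℕ} (h : 3 * (R : ℤ) < |lvl false q - lvl false p|) : q ∉ Bl p R := by
  intro hcon
  have e1 : ∀ p : Pt, lvl false p = p.1 + 2 * p.2 := fun p => by
    show ip p up = _
    simp only [ip, up]
    ring
  rw [mem_Bl] at hcon
  rw [e1, e1] at h
  rcases lt_abs.1 h with h | h <;> omega

/-- **a near pair of a regular word** -/
theorem nearQ_of {S K d : ℕ} {J n : ℕ → ℕ} {t : List Bool} (ht : t ∈ WL K) (hr : t ∉ OffR S J n K)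
    (hJ : ∀ s, s < S → J s + 6 ≤ K) (hn : ∀ s, 107 ≤ n s) {i x e j n1 n2 : ℕ} (h1 : i ≤ x) (h2 : x ≤ n1) (h3 : n2 ≤ e)
    (h4 : e ≤ j) (h5 : j ≤ t.length) (hxt : x ≤ t.length) (hd : ∀ dir, |lvl dir (vx oo up t j) - lvl dir (vx oo up t i)| ≤ d)
    (hx : ∀ s, s < S → 3 * ((3 * n s * 2 ^ (K - J s) : ℕ) : ℤ) < |lvl false (vx oo up t x) - lvl false (vx oo up t i)|)
    (he : ∀ s, s < S → 3 * ((3 * n s * 2 ^ (K - J s) : ℕ) : ℤ) < |lvl false (vx oo up t e) - lvl false (vx oo up t j)|) :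
    NearQ S d (fun s => 2 ^ (K - J s)) (fun s => 3 * n s * 2 ^ (K - J s)) n1 n2 t := by
  refine ⟨i, x, e, j, h1, h2, h3, h4, h5, mem_Bl_of_lvl hd, fun s hs => notMem_Bl_of_lvl (hx s hs),
    fun s hs => notMem_Bl_of_lvl (he s hs), fun s hs => ?_⟩
  have hnot : ¬ Irg 6 8 (K - J s) (n s) t := fun hI => hr ⟨ht, s, hs, hI⟩
  have hJs := hJ s hs
  refine good_of_irg (r := K - J s) (n := n s) (R := 3 * n s * 2 ^ (K - J s)) (by omega) le_rfl ?_ hnot h1
    (notMem_Bl_of_lvl (hx s hs)) le_rfl hxt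
  exact Nat.mul_le_mul_right _ (by have := hn s; omega)

/-- **regularity at all the scales** -/
theorem reg_off {e M : ℝ} (he : 0 < e) (J0 : ℕ) : ∃ (S : ℕ) (J n : ℕ → ℕ) (K0 : ℕ), 0 < S ∧ (∀ s, J0 ≤ J s) ∧
    (∀ s, 107 ≤ n s) ∧ (∀ s, J s < J (s + 1)) ∧ (∀ s, 240 * n (s + 1) ≤ 2 ^ (J (s + 1) - J s)) ∧
    (3 * (n 0 : ℝ) ≤ e * 2 ^ J 0) ∧ M ≤ ∑ s ∈ range S, 1 / (3 * (n s : ℝ)) ∧ J S + 6 ≤ K0 ∧
    ∀ K, K0 ≤ K → gf (OffR S J n K) ≤ ENNReal.ofReal (e * Ub K) * Xb K ^ 2 := by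
  obtain ⟨C, c, k0, J1, n0, hC, hc, hreg⟩ := reg (A := 6) (by norm_num) 8
  obtain ⟨S, J, n, hS, h1, h2, h3, h4, h5, h6, h7⟩ := scales (e := e) (M := M) hC hc he (J0 + J1) n0
  have hJmono : ∀ s, s ≤ S → J s ≤ J S := fun s hs => (strictMono_nat_of_lt_succ h3).monotone hs
  refine ⟨S, J, n, J S + 6 + k0, hS, fun s => by have := h1 s; omega, fun s => (h2 s).2, h3, h5, h6, h7, by omega,
    fun K hK => ?_⟩
  have hU : 0 ≤ Ub K := (TS.Ub_pos K).le
  have hsub : OffR S J n K ⊆ ⋃ s ∈ range S, {t | t ∈ WL K ∧ Irg 6 8 (K - J s) (n s) t} := by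
    rintro t ⟨ht, s, hs, hI⟩
    rw [Set.mem_iUnion₂]
    exact ⟨s, Finset.mem_range.2 hs, ht, hI⟩
  refine (gf_mono hsub).trans ((ENNReal.tsum_biUnion_le wE (range S) _).trans ?_)
  have hone : ∀ s ∈ range S, gf {t | t ∈ WL K ∧ Irg 6 8 (K - J s) (n s) t} ≤
      ENNReal.ofReal (e / 2 ^ (s + 1) * Ub K) * Xb K ^ 2 := by
    intro s hs
    rw [Finset.mem_range] at hs
    have a1 := hJmono s hs.le
    have a2 := hreg (K - J s) (J s) (n s) (by omega) (by have := h1 s; omega) (h2 s).1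
    rw [show K - J s + J s = K by omega] at a2
    refine a2.trans (mul_le_mul_left (ENNReal.ofReal_le_ofReal ?_) _)
    exact mul_le_mul_of_nonneg_right (h4 s) hU
  refine (Finset.sum_le_sum hone).trans ?_
  rw [← Finset.sum_mul]
  refine mul_le_mul_left ?_ _
  rw [← ENNReal.ofReal_sum_of_nonneg (fun s _ => by positivity)]
  apply ENNReal.ofReal_le_ofReal
  rw [← Finset.sum_mul]
  refine mul_le_mul_of_nonneg_right ?_ hU
  have hgeo : ∀ S : ℕ, ∑ s ∈ range S, e / 2 ^ (s + 1) = e - e / 2 ^ S := by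
    intro S
    induction S with
    | zero => simp
    | succ S ih =>
      rw [Finset.sum_range_succ, ih, pow_succ]
      field_simp
      ring
  rw [hgeo]
  have : 0 ≤ e / 2 ^ S := by positivity
  linarith

end SIM

end HexObs
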