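import Pool.Agent.NTW.RepDefs

/-!
SIM (the weak limits are simple curves): definitions for the cut near the top of a leaf. Direction false, levels lev.
-/

set_option autoImplicit false

namespace HexObs

namespace SIM

open Finset TS SDN NTW

open scoped ENNReal

/-- words of the box whose end is an extremum: between a time a and the end the level (with the sign s) is above its value
at a and not above its value at the end, and it grows by at least RR b -/
def TopE (b K : ℕ) : Set (List Bool) :=
  {L | L ∈ WL K ∧ ∃ s a : ℕ, a < L.length ∧ RR b ≤ Tight.sg s (lev L L.length) - Tight.sg s (lev L a) ∧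
    (∀ i, a ≤ i → i ≤ L.length → Tight.sg s (lev L i) ≤ Tight.sg s (lev L L.length)) ∧
    (∀ i, a < i → i ≤ L.length → Tight.sg s (lev L a) < Tight.sg s (lev L i))}

/-- words of the box that start with a leaf that goes up by at least RR b -/
def BotS (b K : ℕ) : Set (List Bool) :=
  {R | R ∈ WL K ∧ ∃ a ≤ R.length, RR b ≤ lev R a ∧ ∀ i, 1 ≤ i → i ≤ a → 0 < lev R i}

/-- no cut of the bridge g between 2 ^ e and 2 ^ (e + r) rows below its top -/
def NoCut (e r : ℕ) : Set (List Bool) :=
  {g | ∀ A B : List Bool, A ∈ BU → B ∈ BU → g = A ++ B → hgt B < 2 ^ e ∨ 2 ^ (e + r) < hgt B}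

end SIM

end HexObs
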