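import Pool.Agent.SIM.Rare
import Pool.Agent.RSWP.LocalT

/-!
SIM: the bridges of height t with a lateral displacement in a window of width t / 8, in a narrow tube, have a positive
fraction of the mass.
-/

set_option autoImplicit false

namespace HexObs

namespace SIM

open Finset TS RP

open scoped ENNReal

/-- bridges of height in [2 ρ, 3 ρ] with the lateral displacement in [a ρ, a ρ + ρ / 4 + 1], in a tube of width η t -/
def Tub (a : ℕ) (η : ℝ) (ρ : ℕ) : Set (List Bool) := {G | ∃ t, 2 * ρ ≤ t ∧ t ≤ 3 * ρ ∧ G ∈ Brd t ∧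
  (a * ρ : ℤ) ≤ latE G ∧ 4 * latE G ≤ (4 * (a * ρ) + ρ + 4 : ℤ) ∧
  ∀ i, i ≤ G.length → -(η * t) ≤ (lat G i : ℝ) ∧ (lat G i : ℝ) ≤ latE G + η * t}

theorem tub_mass (a : ℕ) {η : ℝ} (hη : 0 < η) : ∃ (c : ℝ) (ρ0 : ℕ), 0 < c ∧ 1 ≤ ρ0 ∧ ∀ ρ : ℕ, ρ0 ≤ ρ →
    ∀ t, 2 * ρ ≤ t → t ≤ 3 * ρ → ENNReal.ofReal (c * uu t) ≤ gf {G | G ∈ Brd t ∧ G ∈ Tub a η ρ} := by
  obtain ⟨c, t0, hc, h⟩ := localTube (a + 1) hη
  refine ⟨c / 48, t0 + 16, by positivity, by omega, fun ρ hρ t ht1 ht2 => ?_⟩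
  -- the parity
  obtain ⟨δ, hδ1, hδ2⟩ : ∃ δ : ℤ, (δ = 0 ∨ δ = 1) ∧ Even ((a * ρ : ℤ) + δ - t) := by
    rcases Int.even_or_odd ((a * ρ : ℤ) - t) with h1 | h1
    · exact ⟨0, Or.inl rfl, by rwa [add_zero]⟩
    · refine ⟨1, Or.inr rfl, ?_⟩
      have : (a * ρ : ℤ) + 1 - t = ((a * ρ : ℤ) - t) + 1 := by ring
      rw [this]
      exact h1.add_one
  obtain ⟨x, hx⟩ : ∃ x : ℕ → ℤ, x = fun j : ℕ => (a * ρ : ℤ) + δ + 2 * (j : ℤ) := ⟨_, rfl⟩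
  obtain ⟨F, hF⟩ : ∃ F : ℕ → Set (List Bool), F = fun j => {b | b ∈ EndB t (x j) ∧ ∀ i, i ≤ b.length →
      ((min 0 (x j) : ℤ) : ℝ) - η * t ≤ lat b i ∧ (lat b i : ℝ) ≤ ((max 0 (x j) : ℤ) : ℝ) + η * t} := ⟨_, rfl⟩
  have haρ : (0 : ℤ) ≤ a * ρ := by positivity
  have hx0 : ∀ j, 0 ≤ x j := fun j => by
    rw [hx]
    rcases hδ1 with h1 | h1 <;> simp only <;> omega
  have hsub : (⋃ j ∈ range (ρ / 8), F j) ⊆ {G | G ∈ Brd t ∧ G ∈ Tub a η ρ} := by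
    intro G hG
    rw [Set.mem_iUnion₂] at hG
    obtain ⟨j, hj, hG⟩ := hG
    rw [hF] at hG
    obtain ⟨⟨hB, hE⟩, hT⟩ := hG
    rw [mem_range] at hj
    have hxj : x j = (a * ρ : ℤ) + δ + 2 * j := by rw [hx]
    refine ⟨hB, t, ht1, ht2, hB, ?_, ?_, ?_⟩
    · rw [hE, hxj]
      rcases hδ1 with h1 | h1 <;> omega
    · rw [hE, hxj]
      rcases hδ1 with h1 | h1 <;> omega
    · intro i hi
      have h2 := hT i hi
      rw [min_eq_left (hx0 j), max_eq_right (hx0 j)] at h2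
      rw [hE]
      push_cast at h2 ⊢
      exact ⟨by linarith [h2.1], h2.2⟩
  refine le_trans ?_ (gf_mono hsub)
  have hdis : ∀ i ∈ range (ρ / 8), ∀ j ∈ range (ρ / 8), i ≠ j → Disjoint (F i) (F j) := by
    intro i _ j _ hij
    rw [Set.disjoint_left]
    intro G hi hj
    rw [hF] at hi hj
    have h1 := hi.1.2
    have h2 := hj.1.2
    rw [h1] at h2
    rw [hx] at h2
    simp only at h2
    omega
  rw [gf_biUnion _ _ hdis]
  have hterm : ∀ j ∈ range (ρ / 8), ENNReal.ofReal (c * (uu t / t)) ≤ gf (F j) := by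
    intro j hj
    rw [mem_range] at hj
    have hxj : x j = (a * ρ : ℤ) + δ + 2 * j := by rw [hx]
    rw [hF]
    refine h t (x j) (by omega) ?_ ?_
    · rw [hxj]
      have : (a * ρ : ℤ) + δ + 2 * j - t = ((a * ρ : ℤ) + δ - t) + 2 * j := by ring
      rw [this]
      exact hδ2.add (even_two_mul _)
    · rw [abs_of_nonneg (hx0 j), hxj]
      have h1 : ((a + 1 : ℕ) : ℤ) * ρ ≤ ((a + 1 : ℕ) : ℤ) * t := mul_le_mul_of_nonneg_left (by omega) (by positivity)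
      have h2 : ((a + 1 : ℕ) : ℤ) * ρ = a * ρ + ρ := by
        push_cast
        ring
      rcases hδ1 with h3 | h3 <;> omega
  refine le_trans ?_ (sum_le_sum hterm)
  rw [sum_const, card_range, nsmul_eq_mul, ← ENNReal.ofReal_natCast, ← ENNReal.ofReal_mul (Nat.cast_nonneg _)]
  apply ENNReal.ofReal_le_ofReal
  have ht0 : (0 : ℝ) < t := by
    have : 0 < t := by omega
    exact_mod_cast this
  have hu := uu_pos t
  have h1 : (ρ : ℝ) / 16 ≤ ((ρ / 8 : ℕ) : ℝ) := by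
    have : ρ ≤ 16 * (ρ / 8) := by omega
    have h2 : (ρ : ℝ) ≤ 16 * ((ρ / 8 : ℕ) : ℝ) := by exact_mod_cast this
    linarith
  have h2 : (t : ℝ) ≤ 3 * ρ := by exact_mod_cast ht2
  have h3 : c / 48 * uu t ≤ ρ / 16 * (c * (uu t / t)) := by
    have e : (ρ : ℝ) / 16 * (c * (uu t / t)) = c / 48 * uu t * (3 * ρ / t) := by
      field_simp
      ring
    rw [e]
    have h4 : 1 ≤ 3 * (ρ : ℝ) / t := by rwa [le_div_iff₀ ht0, one_mul]
    have h5 : 0 ≤ c / 48 * uu t := by positivity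
    nlinarith
  exact h3.trans (mul_le_mul_of_nonneg_right h1 (by positivity))

/-- bridges without a piece of Tub a η ρ between two cuts are rare -/
theorem rare_tub (a : ℕ) {η ε : ℝ} (hη : 0 < η) (hε : 0 < ε) : ∃ C ρ0 : ℕ, 1 ≤ C ∧ 1 ≤ ρ0 ∧ ∀ ρ h : ℕ, ρ0 ≤ ρ →
    C * ρ ≤ h → gf {Z | Z ∈ Brd h ∧ Z ∉ HasP (Tub a η ρ)} ≤ ENNReal.ofReal (ε * uu h) := by
  obtain ⟨c, ρ0, hc, h0, hm⟩ := tub_mass a hη
  obtain ⟨C, hC, h⟩ := rare hc hε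
  exact ⟨C, ρ0, hC, h0, fun ρ k hρ hk => h ρ (Tub a η ρ) (by omega) (hm ρ hρ) k hk⟩

end SIM

end HexObs
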