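import Pool.Agent.SIM.TailWin
import Pool.Agent.SIM.Tall
import Pool.Agent.SIM.TopDefs

/-!
SIM: off a small event every leaf of the scale kc + 5, the leaves at the ends included, has cuts in M windows below its
top. Window number i: between 2 ^ (kc - d (i + 1)) and 2 ^ (kc - d i - 1) rows below the top.
-/

set_option autoImplicit false

namespace HexObs

namespace SIM

open Finset TS SDN NTW NTA

open scoped ENNReal

/-- walks with a leaf of the scale kc + 5 (any leaf) in the class S -/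
def LeafIn (kc J : ℕ) (S : Set (List Bool)) : Set (List Bool) :=
  {t | t ∈ WL (kc + J) ∧ ∃ (m u : ℕ) (e : ℕ → ℕ), Fd (kc + 5) t m u e ∧ ∃ l, l < m ∧
    ∀ g, PosL t u e l g → g ∈ BrR (2 ^ (kc + 4)) (2 ^ (kc + J + 2)) → g ∈ S}

lemma leafIn_ER {kc J : ℕ} {S : Set (List Bool)} : LeafIn kc J S ⊆
    ER kc J {gs | ∃ g ∈ {g | g ∈ BrR (2 ^ (kc + 4)) (2 ^ (kc + J + 2)) ∧ g ∈ S}, gs = [g]} := by
  rintro t ⟨ht, m, u, e, h, l, hl, hall⟩
  refine ⟨ht, m, u, e, h, l, 1, le_rfl, by omega, fun ms hlen hpos _ _ hbox => ?_⟩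
  obtain ⟨g, rfl⟩ : ∃ g, ms = [g] := List.length_eq_one_iff.1 hlen
  have hg := hpos 0 (by simp)
  simp only [List.getElem_cons_zero, add_zero] at hg
  have hb := hbox g (by simp)
  exact ⟨g, ⟨hb, hall g hg hb⟩, rfl⟩

/-- **a leaf of a small class, the leaves at the ends included** -/
theorem leafIn_le : ∃ (C : ℝ) (k0 : ℕ), 1 ≤ C ∧ ∀ (kc J : ℕ) (S : Set (List Bool)) (δ : ℝ), k0 ≤ kc → 6 ≤ J → 0 < δ →
    SmD DmJ kc {g | g ∈ BrR (2 ^ (kc + 4)) (2 ^ (kc + J + 2)) ∧ g ∈ S} δ →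
    gf (LeafIn kc J S) ≤ ENNReal.ofReal (C ^ J * δ * Ub (kc + J)) * Xb (kc + J) ^ 2 := by
  obtain ⟨C, k0, hC, hE⟩ := TL.evER
  exact ⟨C, k0, hC, fun kc J S δ hk hJ hδ hS =>
    (gf_mono leafIn_ER).trans (hE kc J _ δ hk hJ hδ (smR_single hS))⟩

lemma noCut_sub {e r : ℕ} : NoCut e r ⊆ NoCutT e r := by
  intro g hg B V hB hV h1 h2
  rcases hg B V hB hV h1.symm with h | h
  · omega
  · exact h

/-- the depths of the windows -/
lemma depth_exists {X c δ : ℝ} (hc : 0 < c) (hδ : 0 < δ) : ∃ d : ℕ → ℕ, d 0 = 0 ∧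
    ∀ i, d i + 4 ≤ d (i + 1) ∧ X * (4 ^ (d i + 1) * (2 : ℝ) ^ (-(c * ((d (i + 1) - d i - 1 : ℕ) : ℝ)))) ≤ δ := by
  have key : ∀ x : ℕ, ∃ y : ℕ, x + 4 ≤ y ∧ X * (4 ^ (x + 1) * (2 : ℝ) ^ (-(c * ((y - x - 1 : ℕ) : ℝ)))) ≤ δ := by
    intro x
    have h1 : Filter.Tendsto (fun n : ℕ => X * (4 ^ (x + 1) * (2 : ℝ) ^ (-(c * (n : ℝ))))) Filter.atTop (nhds 0) := by
      have h2 : Filter.Tendsto (fun n : ℕ => ((2 : ℝ) ^ (-c)) ^ n) Filter.atTop (nhds 0) := by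
        apply tendsto_pow_atTop_nhds_zero_of_lt_one (by positivity)
        exact Real.rpow_lt_one_of_one_lt_of_neg (by norm_num) (by linarith)
      have h3 : ∀ n : ℕ, (2 : ℝ) ^ (-(c * (n : ℝ))) = ((2 : ℝ) ^ (-c)) ^ n := by
        intro n
        rw [← Real.rpow_natCast, ← Real.rpow_mul (by norm_num)]
        congr 1
        ring
      simp only [h3]
      have h4 := (h2.const_mul ((4 : ℝ) ^ (x + 1))).const_mul X
      rwa [mul_zero, mul_zero] at h4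
    obtain ⟨n, hn⟩ := (h1.eventually (ge_mem_nhds hδ)).exists_forall_of_atTop
    refine ⟨x + 1 + max n 3, by omega, ?_⟩
    rw [show x + 1 + max n 3 - x - 1 = max n 3 by omega]
    exact hn _ (le_max_left _ _)
  choose f hf using key
  refine ⟨fun i => f^[i] 0, rfl, fun i => ?_⟩
  simp only [Function.iterate_succ', Function.comp_apply]
  exact hf _

/-- **CUTS IN M WINDOWS** -/
theorem nocut_ev (M : ℕ) (hM : 1 ≤ M) : ∀ J, 6 ≤ J → ∀ ε : ℝ, 0 < ε → ∃ (d : ℕ → ℕ) (k0 : ℕ), d 0 = 0 ∧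
    (∀ i, d i + 4 ≤ d (i + 1)) ∧ d M ≤ k0 ∧ ∀ kc, k0 ≤ kc →
    gf (LeafIn kc J {g | ∃ i, i < M ∧ g ∈ NoCut (kc - d (i + 1)) (d (i + 1) - d i - 1)}) ≤
      ENNReal.ofReal (ε * Ub (kc + J)) * Xb (kc + J) ^ 2 := by
  intro J hJ ε hε
  obtain ⟨C, k1, hC, hE⟩ := leafIn_le
  obtain ⟨K, c, hK, hc, hW⟩ := tail_win
  have hC0 : 0 < C := by linarith
  have hMr : (0 : ℝ) < M := by exact_mod_cast hM
  obtain ⟨δ, hδd⟩ : ∃ δ : ℝ, δ = ε / (C ^ J * M) := ⟨_, rfl⟩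
  have hδ : 0 < δ := by
    rw [hδd]
    positivity
  obtain ⟨d, h0, hd⟩ := depth_exists (X := K * (1 + 2 ^ (J + 2)) ^ 2) hc hδ
  have hmon : ∀ i j, i ≤ j → d i ≤ d j := by
    intro i j hij
    induction j, hij using Nat.le_induction with
    | base => exact le_rfl
    | succ j _ ih =>
      have := (hd j).1
      omega
  refine ⟨d, max k1 (d M), h0, fun i => (hd i).1, le_max_right _ _, fun kc hk => ?_⟩
  have hk1 : k1 ≤ kc := le_trans (le_max_left _ _) hk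
  have hkM : d M ≤ kc := le_trans (le_max_right _ _) hk
  have hUk := Ub_pos kc
  have hUN : UU (2 ^ (kc + J + 2)) / Ub kc ≤ 2 ^ (J + 2) := by
    rw [div_le_iff₀ hUk, show kc + J + 2 = kc + (J + 2) by omega]
    exact Ub_add kc (J + 2)
  have hUN0 : 0 ≤ UU (2 ^ (kc + J + 2)) / Ub kc := div_nonneg (Num2Aux.UU_pos _).le hUk.le
  have hone : ∀ i, i < M → SmD DmJ kc
      {g | g ∈ BrR (2 ^ (kc + 4)) (2 ^ (kc + J + 2)) ∧ g ∈ NoCut (kc - d (i + 1)) (d (i + 1) - d i - 1)} δ := by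
    intro i hi
    have h1 := (hd i).1
    have h2 := hmon (i + 1) M hi
    have h3 : kc - d (i + 1) + (d (i + 1) - d i - 1) = kc - d i - 1 := by omega
    refine LQ.SmD_le ?_ (QF.SmD_mono ?_ (hW kc (2 ^ (kc + J + 2)) (kc - d (i + 1)) (d (i + 1) - d i - 1)
      (by omega) (by omega)))
    · rw [h3, show kc - (kc - d i - 1) = d i + 1 by omega]
      refine le_trans ?_ (hd i).2
      gcongr
    · rintro g ⟨hg, hn⟩
      exact ⟨hg, Or.inl (noCut_sub hn)⟩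
  have hall := LQ.SmD_sum M (fun i => {g | g ∈ BrR (2 ^ (kc + 4)) (2 ^ (kc + J + 2)) ∧
    g ∈ NoCut (kc - d (i + 1)) (d (i + 1) - d i - 1)}) (fun _ => δ) (fun i _ => hδ.le) hone
  rw [Finset.sum_const, Finset.card_range, nsmul_eq_mul] at hall
  refine (hE kc J {g | ∃ i, i < M ∧ g ∈ NoCut (kc - d (i + 1)) (d (i + 1) - d i - 1)} (M * δ) hk1 hJ (by positivity)
    (QF.SmD_mono ?_ hall)).trans (le_of_eq ?_)
  · rintro g ⟨hg, i, hi, hn⟩
    exact ⟨i, hi, hg, hn⟩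
  · congr 3
    rw [hδd]
    field_simp

end SIM

end HexObs
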