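import Pool.Agent.SIM.TopDefs
import Pool.Agent.NTW.FoldEx
import Pool.Agent.SDN.LeafW
import Pool.Agent.SDN.Frames
import Pool.Agent.TightS.SBasic

/-!
SIM (the weak limits are simple curves), geometry of the cuts near the top of a leaf: frames, the word between two cuts,
the two rests.
-/

set_option autoImplicit false

namespace HexObs

namespace SIM

open Finset TS SDN NTW

/-- the frame behind the vertex number a, if the walk leaves it in the direction D -/
lemma drop_fr {D : Pt} {t : List Bool} {a : ℕ} (h : dx up t a = D) :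
    ∃ c : Pt, nrm c = 1 ∧ mulE c up = D ∧
      (∀ i, vx oo up t (a + i) = vx oo up t a + mulE c (vx oo up (t.drop a) i)) ∧
      (∀ i, dx up t (a + i) = mulE c (dx up (t.drop a) i)) ∧
      ∀ i, lev (t.drop a) i = xD D t (a + i) - xD D t a := by
  obtain ⟨c, h1, h2, h3⟩ := drop_frame' t a
  have h4 : nrm c = 1 := mem_dirs.1 h1
  have h5 : mulE c up = D := by rw [← h2, h]
  refine ⟨c, h4, h5, h3, ?_, ?_⟩
  · intro i
    rw [dx_drop, h, ← h5, dx_mulE]
  · intro i
    unfold xD
    rw [h3, ip_add_left, ← h5, ip_mulE, h4, one_mul]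
    unfold lev
    ring

/-- the vertices and the directions of a part -/
lemma part_eq (t : List Bool) {a n : ℕ} (h : a + n ≤ t.length) : ((t.drop a).take n).length = n ∧
    (∀ i, i ≤ n → vx oo up ((t.drop a).take n) i = vx oo up (t.drop a) i) ∧
    ∀ i, i ≤ n → dx up ((t.drop a).take n) i = dx up (t.drop a) i := by
  have h1 : ((t.drop a).take n).length = n := by
    rw [List.length_take, List.length_drop]
    omega
  refine ⟨h1, fun i hi => ?_, fun i hi => ?_⟩
  · have := vx_append (v0 := oo) (d0 := up) (t := (t.drop a).take n) (s := (t.drop a).drop n) (i := i) (by omega)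
    rw [List.take_append_drop] at this
    exact this.symm
  · have := dx_append (d0 := up) (t := (t.drop a).take n) (s := (t.drop a).drop n) (i := i) (by omega)
    rw [List.take_append_drop] at this
    exact this.symm

/-- the word between two cuts -/
theorem cut_word {D : Pt} {t : List Bool} (ht : t ∈ SA) {a b : ℕ} (hab : a ≤ b) (hb : b ≤ t.length)
    (ha : dx up t a = D) (hbd : dx up t b = D)
    (h : ∀ i, a < i → i ≤ b → xD D t a < xD D t i ∧ xD D t i ≤ xD D t b) :
    ∃ n : ℕ, (t.drop a).take (b - a) ∈ Brd n ∧ xD D t b - xD D t a = 3 * n := by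
  obtain ⟨c, c1, c2, -, c4, c5⟩ := drop_fr ha
  obtain ⟨p1, p2, p3⟩ := part_eq t (a := a) (n := b - a) (by omega)
  have hd : dx up (t.drop a) (b - a) = up := by
    have h1 := c4 (b - a)
    rw [Nat.add_sub_cancel' hab, hbd, ← c2] at h1
    exact (mulE_inj c1 h1).symm
  have hev : Even (b - a) := by
    by_contra hn
    have h1 := cl_dx up (t.drop a) (b - a)
    rw [hd, if_neg hn] at h1
    exact absurd h1 (by decide)
  have hm := lev_mod (t.drop a) (b - a)
  rw [if_pos hev, sub_zero, c5, Nat.add_sub_cancel' hab] at hm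
  have h0 : 0 ≤ xD D t b - xD D t a := by
    rcases Nat.lt_or_ge a b with h1 | h1
    · have := (h b h1 le_rfl).1
      omega
    · have : a = b := by omega
      rw [this]
      omega
  obtain ⟨n', hn'⟩ := hm
  obtain ⟨n, rfl⟩ : ∃ n : ℕ, n' = n := ⟨n'.toNat, by omega⟩
  refine ⟨n, mem_Brd.2 ⟨?_, ?_, ?_, ?_⟩, hn'⟩
  · intro i i1 i2
    rw [p1] at i2
    have e1 : lev ((t.drop a).take (b - a)) i = xD D t (a + i) - xD D t a := by
      rw [← c5]
      unfold lev
      rw [p2 i i2]
    rw [e1]
    have := h (a + i) (by omega) (by omega)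
    constructor <;> omega
  · intro i k hik hk
    rw [p1] at hk
    rw [p2 i (by omega), p2 k hk]
    exact (SA_drop ht a).inj i k hik (by rw [List.length_drop]; omega)
  · rw [p1, p3 _ le_rfl, hd]
  · rw [p1]
    have e1 : lev ((t.drop a).take (b - a)) (b - a) = xD D t (a + (b - a)) - xD D t a := by
      rw [← c5]
      unfold lev
      rw [p2 _ le_rfl]
    rw [e1, Nat.add_sub_cancel' hab, hn']

/-- the time τ is a cut of the part [a, z] of the walk, which goes up in the direction D -/
def CutAt (D : Pt) (t : List Bool) (a z τ : ℕ) : Prop :=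
  a ≤ τ ∧ τ < z ∧ dx up t τ = D ∧ (∀ i, a ≤ i → i ≤ τ → xD D t i ≤ xD D t τ) ∧
    ∀ i, τ < i → i ≤ z → xD D t τ < xD D t i

lemma dx_of_step {D : Pt} (hD : D ∈ dirs) {t : List Bool} {i : ℕ} (h : xD D t (i + 1) = xD D t i + 2) :
    dx up t i = D := by
  rcases cl_cases hD t i with hc | hc
  · rcases step_pos hD hc with ⟨a1, -⟩ | a2
    · exact a1
    · omega
  · rcases step_neg hD hc with ⟨_, a2⟩ | a2 <;> omega

lemma lev_one (g : List Bool) : lev g 1 = 2 := by
  have h := lev_succ g 0
  rw [lev_zero] at h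
  have h1 : ip (dx up g 0) up = 2 := by
    show ip up up = 2
    decide
  rw [h1] at h
  exact h

lemma lev_BU {g : List Bool} {h : ℕ} (hg : g ∈ Brd h) {i : ℕ} (hi : i ≤ g.length) : lev g i ≤ 3 * h := by
  rcases Nat.eq_zero_or_pos i with h0 | h0
  · rw [h0, lev_zero]
    omega
  · exact ((mem_Brd.1 hg).1 i h0 hi).2

/-- a decomposition of the leaf gives a cut -/
theorem cut_of_split {D : Pt} (hD : D ∈ dirs) {t A B : List Bool} {s : ℕ} (hA : A ∈ BU) (hB : B ∈ BU)
    (hA0 : A ≠ []) (hB0 : B ≠ [])
    (hl : ∀ i, 1 ≤ i → i ≤ (A ++ B).length → lev (A ++ B) i - lev (A ++ B) 1 = xD D t (s + i) - xD D t (s + 1)) :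
    CutAt D t (s + 1) (s + (A ++ B).length) (s + A.length) ∧
      xD D t (s + (A ++ B).length) - xD D t (s + A.length) = 3 * hgt B ∧
      xD D t (s + A.length) - xD D t (s + 1) = 3 * hgt A - 2 := by
  obtain ⟨a, ha⟩ := hA
  obtain ⟨b, hb⟩ := hB
  have hA1 : 1 ≤ A.length := List.length_pos_iff.2 hA0
  have hB1 : 1 ≤ B.length := List.length_pos_iff.2 hB0
  have ha3 := (mem_Brd.1 ha).2.2.1
  have ha4 := (mem_Brd.1 ha).2.2.2
  have hb4 := (mem_Brd.1 hb).2.2.2
  have hlen : (A ++ B).length = A.length + B.length := List.length_append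
  rw [hgt_eq ha, hgt_eq hb]
  rw [lev_one] at hl
  have eA : ∀ i, 1 ≤ i → i ≤ A.length → xD D t (s + i) = xD D t (s + 1) + lev A i - 2 := by
    intro i i1 i2
    have h1 := hl i i1 (by omega)
    rw [lev_append (by omega)] at h1
    omega
  have eB : ∀ i, i ≤ B.length → xD D t (s + (A.length + i)) = xD D t (s + 1) + 3 * a + lev B i - 2 := by
    intro i i2
    have h1 := hl (A.length + i) (by omega) (by omega)
    rw [lev_cat ha3, ha4] at h1
    omega
  have e0 := eB 0 (by omega)
  rw [lev_zero, add_zero] at e0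
  have e1 := eB 1 hB1
  rw [lev_one] at e1
  have e2 := eB B.length le_rfl
  rw [hb4] at e2
  rw [hlen]
  refine ⟨⟨by omega, by omega, ?_, ?_, ?_⟩, by omega, by omega⟩
  · apply dx_of_step hD
    have : s + (A.length + 1) = s + A.length + 1 := by omega
    rw [this] at e1
    omega
  · intro i i1 i2
    obtain ⟨k, rfl⟩ : ∃ k, i = s + k := ⟨i - s, by omega⟩
    have h1 := eA k (by omega) (by omega)
    have h2 := lev_BU ha (i := k) (by omega)
    omega
  · intro i i1 i2
    obtain ⟨k, rfl⟩ : ∃ k, i = s + (A.length + k) := ⟨i - s - A.length, by omega⟩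
    have h1 := eB k (by omega)
    have h2 := ((mem_Brd.1 hb).1 k (by omega) (by omega)).1
    omega

section mid

variable {D : Pt} {t : List Bool} {a z p q : ℕ}

lemma cut_lt (h1 : CutAt D t a z p) (h2 : CutAt D t a z q) (h : xD D t p < xD D t q) : p < q := by
  by_contra hn
  have := h2.2.2.2.1 p
  have h3 := h1.2.2.2.1 q h2.1 (by omega)
  omega

/-- the word between two cuts of a leaf -/
lemma cut_mid (ht : t ∈ SA) (hz : z ≤ t.length) (h1 : CutAt D t a z p) (h2 : CutAt D t a z q) (h12 : p ≤ q) :
    ∃ n : ℕ, (t.drop p).take (q - p) ∈ Brd n ∧ xD D t q - xD D t p = 3 * n := by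
  obtain ⟨a1, a2, a3, a4, a5⟩ := h1
  obtain ⟨b1, b2, b3, b4, b5⟩ := h2
  refine cut_word ht h12 (by omega) a3 b3 fun i i1 i2 => ⟨a5 i i1 (by omega), b4 i (by omega) i2⟩

/-- a decomposition of the word between two cuts -/
theorem cut_inner (hz : z ≤ t.length) (h1 : CutAt D t a z p) (h2 : CutAt D t a z q) (h12 : p ≤ q)
    {A B : List Bool} (hA : A ∈ BU) (hB : B ∈ BU) (hH : (t.drop p).take (q - p) = A ++ B) :
    CutAt D t a z (p + A.length) ∧ p + A.length ≤ q ∧ xD D t (p + A.length) - xD D t p = 3 * hgt A ∧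
      t.take (p + A.length) = t.take p ++ A ∧ t.drop (p + A.length) = B ++ t.drop q := by
  obtain ⟨a1, a2, a3, a4, a5⟩ := h1
  obtain ⟨b1, b2, b3, b4, b5⟩ := h2
  obtain ⟨x, hx⟩ := hA
  obtain ⟨y, hy⟩ := hB
  obtain ⟨c, c1, c2, -, c4, c5⟩ := drop_fr a3
  obtain ⟨p1, p2, p3⟩ := part_eq t (a := p) (n := q - p) (by omega)
  rw [hH] at p1 p2 p3
  have hlen : (A ++ B).length = A.length + B.length := List.length_append
  have hx3 := (mem_Brd.1 hx).2.2.1
  have hx4 := (mem_Brd.1 hx).2.2.2
  have hqp : A.length + B.length = q - p := by omega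
  have hl : ∀ i, i ≤ q - p → lev (A ++ B) i = xD D t (p + i) - xD D t p := by
    intro i hi
    rw [← c5]
    unfold lev
    rw [p2 i hi]
  have eA : ∀ i, i ≤ A.length → xD D t (p + i) = xD D t p + lev A i := by
    intro i hi
    have h3 := hl i (by omega)
    rw [lev_append (by omega)] at h3
    omega
  have eB : ∀ i, i ≤ B.length → xD D t (p + (A.length + i)) = xD D t p + 3 * x + lev B i := by
    intro i hi
    have h3 := hl (A.length + i) (by omega)
    rw [lev_cat hx3, hx4] at h3
    omega
  have e0 := eB 0 (by omega)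
  rw [lev_zero, add_zero] at e0
  rw [hgt_eq hx]
  have e5 : (t.drop p).take A.length = A := by
    have h3 : ((t.drop p).take (q - p)).take A.length = A := by
      rw [hH, List.take_left]
    rw [List.take_take, min_eq_left (by omega)] at h3
    exact h3
  have e6 : (t.drop p).drop A.length = B ++ t.drop q := by
    have h3 : t.drop p = A ++ (B ++ t.drop q) := by
      have h4 := (List.take_append_drop (q - p) (t.drop p)).symm
      rw [hH, List.drop_drop, Nat.add_sub_cancel' h12, List.append_assoc] at h4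
      exact h4
    rw [h3, List.drop_left]
  refine ⟨⟨by omega, by omega, ?_, ?_, ?_⟩, by omega, by omega, ?_, ?_⟩
  · have h3 : dx up (A ++ B) A.length = up := by rw [dx_append le_rfl, hx3]
    rw [c4, ← p3 A.length (by omega), h3, c2]
  · intro i i1 i2
    rcases Nat.lt_or_ge i p with h3 | h3
    · have h4 := a4 i i1 h3.le
      omega
    · obtain ⟨k, rfl⟩ : ∃ k, i = p + k := ⟨i - p, by omega⟩
      have h4 := eA k (by omega)
      have h5 := lev_BU hx (i := k) (by omega)
      omega
  · intro i i1 i2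
    rcases Nat.lt_or_ge q i with h3 | h3
    · have h4 := b5 i h3 i2
      have h5 := b4 (p + A.length) (by omega) (by omega)
      omega
    · obtain ⟨k, rfl⟩ : ∃ k, i = p + (A.length + k) := ⟨i - p - A.length, by omega⟩
      have h4 := eB k (by omega)
      have h5 := ((mem_Brd.1 hy).1 k (by omega) (by omega)).1
      omega
  · rw [List.take_add, e5]
  · rw [← List.drop_drop, e6]

end mid

/-! ### The two rests -/

lemma xD_lev (k : ℕ) (t : List Bool) (i : ℕ) : xD (dD false k) t i = Tight.sg k (lev t i) := xD_dD false k t i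

lemma take_WL {K : ℕ} {t : List Bool} (ht : t ∈ WL K) {n : ℕ} (hn : n ≤ t.length) : t.take n ∈ WL K := by
  refine ⟨SA_take ht.1 n, fun i hi dir => ?_⟩
  rw [List.length_take] at hi
  have h1 : vx oo up (t.take n) i = vx oo up t i := by
    have := vx_append (v0 := oo) (d0 := up) (t := t.take n) (s := t.drop n) (i := i)
      (by rw [List.length_take]; omega)
    rw [List.take_append_drop] at this
    exact this.symm
  rw [h1]
  exact ht.2 i (by omega) dir

lemma lvl_mod (dir : Bool) (t : List Bool) (i : ℕ) : (3 : ℤ) ∣ lvl dir (vx oo up t i) - if Even i then 0 else 2 := by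
  have h3 : cl (vx oo up t i) = if Even i then cl oo else cl oo + cl up := cl_vx oo up t i
  have key : ∀ v : Pt, ((lvl dir v : ℤ) : ZMod 3) = cl v := by
    intro v
    unfold lvl
    rw [ip_mod]
    have : cl (SDN.hd dir) = -1 := by cases dir <;> decide
    rw [this]
    ring
  have h4 := key (vx oo up t i)
  rw [h3] at h4
  by_cases he : Even i
  · rw [if_pos he] at h4 ⊢
    refine (ZMod.intCast_zmod_eq_zero_iff_dvd _ 3).1 ?_
    rw [sub_zero, h4]
    decide
  · rw [if_neg he] at h4 ⊢
    refine (ZMod.intCast_zmod_eq_zero_iff_dvd _ 3).1 ?_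
    push_cast
    rw [h4]
    decide

lemma rot_up : ∀ c ∈ dirs, (mulE c up = SDN.hd false → c = (1, 0)) ∧ (mulE c up = -SDN.hd false → c = (-1, 0)) := by
  decide

/-- the rest behind a cut in its own frame -/
theorem drop_WL {K : ℕ} {t : List Bool} (ht : t ∈ WL K) {n k : ℕ} (hn : n ≤ t.length) (h : dx up t n = dD false k) :
    t.drop n ∈ WL (K + 1) := by
  refine ⟨SA_drop ht.1 n, fun i hi dir => ?_⟩
  rw [List.length_drop] at hi
  obtain ⟨c, c1, c2, c3, -, -⟩ := drop_fr h
  have hb1 := ht.2 n hn dir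
  have hb2 := ht.2 (n + i) (by omega) dir
  have m1 := lvl_mod dir t n
  have m2 := lvl_mod dir t (n + i)
  have m3 := lvl_mod dir (t.drop n) i
  have hcl := cl_dx up t n
  rw [h] at hcl
  have hp : (2 : ℤ) ^ (K + 1) = 2 * 2 ^ K := by rw [pow_succ]; ring
  have hp0 : (0 : ℤ) < 2 ^ K := by positivity
  rw [hp]
  unfold row at hb1 hb2 ⊢
  rw [c3] at hb2
  rw [abs_le] at hb1 hb2 ⊢
  have hc : (c = (1, 0) ∧ Even n) ∨ (c = (-1, 0) ∧ ¬ Even n) := by
    have hcd : c ∈ dirs := mem_dirs.2 c1
    unfold dD at c2 hcl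
    by_cases hk : Even k
    · rw [if_pos hk] at c2 hcl
      right
      constructor
      · exact (rot_up c hcd).2 c2
      · intro he
        rw [if_pos he] at hcl
        exact absurd hcl (by decide)
    · rw [if_neg hk] at c2 hcl
      left
      constructor
      · exact (rot_up c hcd).1 c2
      · by_contra he
        rw [if_neg he] at hcl
        exact absurd hcl (by decide)
  rcases hc with ⟨rfl, he⟩ | ⟨rfl, he⟩
  · have e1 : lvl dir (vx oo up t n + mulE (1, 0) (vx oo up (t.drop n) i)) =
        lvl dir (vx oo up t n) + lvl dir (vx oo up (t.drop n) i) := by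
      unfold lvl
      rw [mulE_one, ip_add_left]
    rw [e1] at hb2
    rw [if_pos he] at m1
    constructor <;> omega
  · have e1 : lvl dir (vx oo up t n + mulE (-1, 0) (vx oo up (t.drop n) i)) =
        lvl dir (vx oo up t n) - lvl dir (vx oo up (t.drop n) i) := by
      unfold lvl ip
      simp only [mulE, Prod.fst_add, Prod.snd_add]
      ring
    rw [e1] at hb2
    rw [if_neg he] at m1
    constructor <;> omega

/-- the part before a cut ends at its fold -/
theorem top_mem {K b k : ℕ} {t : List Bool} (ht : t ∈ WL K) (hb : 1 ≤ b) {a z p : ℕ} (hz : z ≤ t.length)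
    (h : CutAt (dD false k) t a z p) (hR : RR b ≤ xD (dD false k) t p - xD (dD false k) t a) :
    t.take p ∈ TopE b K := by
  obtain ⟨h1, h2, h3, h4, h5⟩ := h
  have hlen : (t.take p).length = p := by
    rw [List.length_take]
    omega
  have hR4 := RR_ge hb
  have hv : ∀ i, i ≤ p → lev (t.take p) i = lev t i := by
    intro i hi
    have := lev_append (s := t.take p) (t := t.drop p) (i := i) (by omega)
    rw [List.take_append_drop] at this
    exact this.symm
  obtain ⟨d, d1, d2, d3⟩ := FoldA.last_max (fun i => - xD (dD false k) t (a + i)) (p - a)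
  have d2' := d2 0 (by omega)
  simp only [add_zero] at d2'
  have hdp : a + d < p := by
    rcases Nat.lt_or_ge (a + d) p with h6 | h6
    · exact h6
    · exfalso
      have : a + d = p := by omega
      rw [this] at d2'
      omega
  refine ⟨take_WL ht (by omega), k, a + d, by omega, ?_, ?_, ?_⟩
  · rw [hlen, hv p le_rfl, hv (a + d) hdp.le, ← xD_lev, ← xD_lev]
    omega
  · intro i i1 i2
    rw [hlen] at i2 ⊢
    rw [hv p le_rfl, hv i i2, ← xD_lev, ← xD_lev]
    exact h4 i (by omega) i2
  · intro i i1 i2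
    rw [hlen] at i2
    rw [hv i i2, hv (a + d) hdp.le, ← xD_lev, ← xD_lev]
    have := d3 (i - a) (by omega) (by omega)
    rw [show a + (i - a) = i by omega] at this
    omega

/-- the part behind a cut starts with a leaf -/
theorem bot_mem {K b k : ℕ} {t : List Bool} (ht : t ∈ WL K) {a z p : ℕ} (hz : z ≤ t.length)
    (h : CutAt (dD false k) t a z p) (hR : RR b ≤ xD (dD false k) t z - xD (dD false k) t p) :
    t.drop p ∈ BotS b (K + 1) := by
  obtain ⟨h1, h2, h3, h4, h5⟩ := h
  obtain ⟨c, -, -, -, -, c5⟩ := drop_fr h3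
  refine ⟨drop_WL ht (by omega) h3, z - p, by rw [List.length_drop]; omega, ?_, ?_⟩
  · rw [c5, show p + (z - p) = z by omega]
    exact hR
  · intro i i1 i2
    rw [c5]
    have := h5 (p + i) (by omega) (by omega)
    omega

end SIM

end HexObs
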