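import Pool.Agent.SIM.RightN

/-!
SIM (no double points), half words: the walks whose first fold of the scale kc + 5 is the start of the walk; the chain.
-/

set_option autoImplicit false

namespace HexObs

namespace SIM

open Finset TS SDN SDN.CN NTm NTW NTA EN

open scoped ENNReal

/-- walks of the box whose first leaf of the scale kc + 5 starts at the start of the walk, the first d leaves are a run
in R -/
def FirstR (kc J : ℕ) (R : Set (List (List Bool))) : Set (List Bool) :=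
  {t | t ∈ WL (kc + J) ∧ ∃ (m u : ℕ) (e : ℕ → ℕ), Fd (kc + 5) t m u e ∧ e 0 = 0 ∧ ∃ d : ℕ, 1 ≤ d ∧ d ≤ m ∧
    ∀ ms : List (List Bool), ms.length = d → (∀ (i : ℕ) (hi : i < ms.length), PosL t u e i ms[i]) →
      (∀ (i : ℕ) (hi : i < ms.length), 1 ≤ i → i + 2 ≤ m → ms[i] = lw t (e i) (e (i + 1))) →
      ms.IsChain LFold → (∀ g ∈ ms, g ∈ BrR (2 ^ (kc + 4)) (2 ^ (kc + J + 2))) → ms ∈ R}

variable {kc J n : ℕ} {W : ℕ → Set (List Bool)} {idx kp : ℕ → ℕ} {R : Set (List (List Bool))}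
  {Φ : ℕ → ℕ → List Bool → ℝ≥0∞} {Ψ : ℕ → List Bool → ℝ≥0∞}

/-- the chain conditions of the cover, the run at the start -/
def ChF (M : ℕ) (R : Set (List (List Bool))) (P : List (List Bool) → List Bool → (ℕ → ℝ≥0∞) → Prop)
    (Ψ : ℕ → List Bool → ℝ≥0∞) (w0 w1 : List (List Bool) → ℕ → ℝ≥0∞) (gs : List (List Bool)) : Prop :=
  gs.length ≤ M ∧ EN.OU.TotA R P Ψ gs (w0 gs) (w1 gs)

lemma fold_ge {t : List Bool} {r u : ℕ} {E : ℕ → ℕ} (h : FoldG t r u E) : ∀ j, j ≤ r → j ≤ E j := by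
  intro j
  induction j with
  | zero => exact fun _ => Nat.zero_le _
  | succ j ih =>
    intro hj
    have h1 := ih (by omega)
    have h2 := h.lt j (by omega)
    omega

lemma first_class (hk1 : 1 ≤ kc) (hidx : ∀ h h' : ℕ, h ≤ h' → idx h ≤ idx h')
    (hmem : ∀ (g : List Bool) (h : ℕ), g ∈ Brd h → 2 ^ (kc + 4) ≤ h → h ≤ 2 ^ (kc + J + 2) → idx h < n ∧ g ∈ W (idx h))
    {t : List Bool} (hL : t ∈ FirstR kc J R) (E0 : ℕ → List Bool → ℝ≥0∞) (E1 : ℕ → ℕ → List Bool → ℝ≥0∞)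
    (h0 : ∀ g ∈ BrR (2 ^ (kc + 4)) (2 ^ (kc + J + 2)), ∀ q, E0 q (rev g) ≤ Ψ q (rev g))
    (h1 : ∀ g ∈ BrR (2 ^ (kc + 4)) (2 ^ (kc + J + 2)), ∀ q, E1 (2 ^ (kc + 5)) q g ≤ Φ 0 q g)
    (h2 : ∀ g ∈ BrR (2 ^ (kc + 4)) (2 ^ (kc + J + 2)), ∀ q, E1 ((3 * hgt g + 8) / 3 + 1) q g ≤ Φ (idx (hgt g)) q g) :
    ∃ (a : Bool) (r u : ℕ) (E : ℕ → ℕ), 1 ≤ r ∧ FoldG t r u E ∧
      (∀ i, i < E 0 → Tight.sg u (lev t i) - Tight.sg u (lev t (E 0)) ≤ 3 * ((fun _ : ℕ => 0) (RG t u E 0).toNat : ℕ)) ∧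
      (∀ i, E r < i → i ≤ t.length → Tight.sg (u + (r - 1)) (lev t (E r)) - Tight.sg (u + (r - 1)) (lev t i) ≤
        3 * (fE kc a (RG t u E (r - 1)).toNat : ℕ)) ∧
      ∀ gs, RepG t r u E gs → ChF (100 * 4 ^ (kc + J)) (RBx kc J R) (EN.OU.PI W n (100 * 4 ^ (kc + J)) Φ) Ψ
        (fun gs c => E0 c (rev (gs.headD [])))
        (fun gs c => E1 (fE kc a (3 * hgt (gs.getLastD []) + 8)) c (gs.getLastD [])) gs := by
  obtain ⟨htW, m, u, e, hF, hem, d', hd', hl, hgS⟩ := hL
  obtain ⟨d, rfl⟩ : ∃ d, d' = d + 1 := ⟨d' - 1, by omega⟩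
  obtain ⟨r, u', p, E, g1, g2, gE, g3, gp, gr, g4, g5, g6, g7, g8⟩ :=
    geoRun (kc + 5) m u t e (by omega) htW.1 hF 0 d (by omega)
  have hp0 : p = 0 := by
    have a1 := gE 0 (by omega)
    rw [add_zero, add_zero, hem] at a1
    have a2 := fold_ge g2 p (by omega)
    omega
  subst hp0
  have hE0 : E 0 = 0 := by
    have a1 := gE 0 (by omega)
    rw [add_zero, hem] at a1
    exact a1
  have hRR0 : 0 < RR (kc + 5) := by
    unfold RR
    have : (1 : ℤ) ≤ 2 ^ (kc + 5) := one_le_pow₀ (by norm_num)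
    omega
  have hrun : ∀ gs, RepG t r u' E gs → (∀ g ∈ gs, g ∈ BrR (2 ^ (kc + 4)) (2 ^ (kc + J + 2))) →
      (gs.drop 0).take (d + 1) ∈ RBx kc J R := by
    intro gs hR hB
    have hlen := hR.len
    rw [List.drop_zero]
    have hml : (gs.take (d + 1)).length = d + 1 := by
      rw [List.length_take]
      omega
    have hget : ∀ (i : ℕ) (hi : i < (gs.take (d + 1)).length), (gs.take (d + 1))[i] = gs[i]'(by omega) := by
      intro i hi
      rw [List.getElem_take]
    have hmB : ∀ g ∈ gs.take (d + 1), g ∈ BrR (2 ^ (kc + 4)) (2 ^ (kc + J + 2)) := fun g hg =>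
      hB g (List.mem_of_mem_take hg)
    refine ⟨hgS _ hml ?_ ?_ ?_ hmB, hmB⟩
    · intro i hi
      rw [hget i hi]
      have a1 := hR.pos (0 + i) (by omega)
      have a2 := g3 i (by omega) _ a1
      simp only [zero_add] at a2
      exact a2
    · intro i hi h1 h2
      rw [hget i hi]
      have h5 : i + 2 ≤ r := by
        by_contra hc
        have h4 := gr (by omega)
        omega
      have a1 := gE i (by omega)
      have a2 := gE (i + 1) (by omega)
      simp only [zero_add] at a1 a2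
      rw [hR.mid i (by omega) h1 h5, a1, a2]
    · exact hR.ch.take (d + 1)
  refine ⟨decide (0 + d + 1 = r), r, u', E, by omega, g2, fun i hi => ?_, fun i hi1 hi2 => ?_, fun gs hR => ?_⟩
  · exfalso
    omega
  · refine (g8 i hi1 hi2).trans ?_
    have h4 := g4 (r - 1) (by omega)
    by_cases hp : 0 + d + 1 = r
    · rw [if_pos hp, decide_eq_true hp]
      unfold fE
      rw [if_pos rfl]
      unfold RR
      push_cast
      omega
    · rw [if_neg hp, decide_eq_false hp]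
      unfold fE
      rw [if_neg (by simp)]
      push_cast
      omega
  · have hlen : gs.length ≤ 100 * 4 ^ (kc + J) := by
      rw [hR.len]
      exact (QF.fold_card g2).trans (WL_length htW)
    have hBr := QF.rep_brr' htW g2 g4 hR
    have hne : gs ≠ [] := by
      intro h0
      have := hR.len
      rw [h0, List.length_nil] at this
      omega
    have hhd : gs.headD [] ∈ gs := by
      obtain ⟨a, gs', rfl⟩ := List.exists_cons_of_ne_nil hne
      simp
    have hla : gs.getLastD [] ∈ gs := by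
      rw [List.getLastD_eq_getLast?, List.getLast?_eq_getLast_of_ne_nil hne, Option.getD_some]
      exact List.getLast_mem hne
    have hc0 : 0 + d + 1 = r → ∀ q, E1 (fE kc (decide (0 + d + 1 = r)) (3 * hgt (gs.getLastD []) + 8)) q
        (gs.getLastD []) ≤ Φ 0 q (gs.getLastD []) := by
      intro hp
      rw [decide_eq_true hp]
      unfold fE
      rw [if_pos rfl]
      exact h1 _ (hBr _ hla)
    have hc1 : 0 + d + 1 < r → ∀ q, E1 (fE kc (decide (0 + d + 1 = r)) (3 * hgt (gs.getLastD []) + 8)) q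
        (gs.getLastD []) ≤ Φ (idx (hgt (gs.getLastD []))) q (gs.getLastD []) := by
      intro hp
      rw [decide_eq_false (by omega)]
      unfold fE
      rw [if_neg (by simp)]
      exact h2 _ (hBr _ hla)
    refine ⟨hlen, ?_⟩
    have h5 := (EN.OU.tot_ofP (P := EN.OU.PI W n (100 * 4 ^ (kc + J)) Φ) (A := Set.univ) (a := fun _ => 0) hidx hmem htW.1
      g2 g1 g5 g6 hR hBr (hrun gs hR hBr) hlen (fun _ _ => zero_le) (fun _ _ => zero_le) hc0 hc1
      (fun rs g h1 h2 _ _ => ⟨h2, h1⟩) (fun _ => Set.mem_univ _)).1 rfl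
    obtain ⟨g, gs', rfl⟩ := List.exists_cons_of_ne_nil hne
    exact ⟨fun c => h0 g (hBr g List.mem_cons_self) c, h5.2⟩

/-- constant end functionals: the graded functional is at most the functional -/
lemma Rg_le_Rx (W : ℕ → Set (List Bool)) (kp : ℕ → ℕ) (n : ℕ) (φ : ℕ → List Bool → ℝ≥0∞) (M : ℕ) : ∀ (i c : ℕ)
    (t : List Bool), EN.EX.Rg W kp n (fun i _ g => φ i g) M i c t ≤ Rx W kp n φ M i t := by
  induction M with
  | zero => exact fun _ _ _ => le_rfl
  | succ M ih =>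
    intro i c t
    refine Finset.sum_le_sum fun i' _ => ?_
    unfold vG
    refine vA_monoF (fun g => sh_le (F := fun c' s => φ i' s + EN.EX.Rg W kp n (fun i _ g => φ i g) M i' c' s)
      (fun m => ?_) c) t
    exact add_le_add le_rfl (ih i' m g)

end SIM

end HexObs
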