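import Pool.Agent.SIM.TvS
import Pool.Agent.SIM.RegDefs

/-!
SIM (no double points): the runs of bad leaves, any number of leaves, and the tall leaves.
-/

set_option autoImplicit false

namespace HexObs

namespace SIM

open Finset TS SDN SDN.CN SDN.CCh NTW NTA

open scoped ENNReal

lemma runF_iUnion {R : ℕ → Set (List (List Bool))} (Φ : List Bool → ℝ≥0∞) (g : List Bool) :
    runF (⋃ i, R i) Φ g ≤ ∑' i, runF (R i) Φ g := by
  classical
  unfold runF
  rw [ENNReal.tsum_comm]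
  refine ENNReal.tsum_le_tsum fun ms => ?_
  by_cases h : (g :: ms) ∈ (⋃ i, R i) ∧ (g :: ms).IsChain LFold
  · rw [if_pos h]
    obtain ⟨i, hi⟩ := Set.mem_iUnion.1 h.1
    refine le_trans ?_ (ENNReal.le_tsum i)
    rw [if_pos ⟨hi, h.2⟩]
  · rw [if_neg h]
    exact zero_le

/-- **countable unions of classes of runs** -/
theorem smR_iUnion {k : ℕ} {R : ℕ → Set (List (List Bool))} {δ : ℕ → ℝ} {Δ : ℝ} (hδ : ∀ i, 0 ≤ δ i)
    (hs : ∑' i, ENNReal.ofReal (δ i) ≤ ENNReal.ofReal Δ) (hΔ : 0 ≤ Δ) (h : ∀ i, SmR DmJ k (R i) (δ i)) :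
    SmR DmJ k (⋃ i, R i) Δ := by
  refine ⟨fun x Φ hΦ => ?_, fun y x Ψ Φ hΨ hf hΦ => ?_⟩
  · have h1 : ∀ t, vA (2 ^ (k + 4)) (HB (2 ^ (k + 4))) (runF (⋃ i, R i) Φ) t ≤
        ∑' i, vA (2 ^ (k + 4)) (HB (2 ^ (k + 4))) (runF (R i) Φ) t := by
      intro t
      unfold vA
      rw [← EN.sw_tsum]
      exact Rec8.sw_mono' fun g _ => runF_iUnion Φ g
    refine (xT_mono h1).trans ((xT_tsum _ _ _).trans ((ENNReal.tsum_le_tsum fun i => (h i).near x Φ hΦ).trans ?_))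
    rw [ENNReal.tsum_mul_right]
    exact mul_le_mul_left hs _
  · have h1 : Rec8.sw (HB (2 ^ (k + 4))) (fun g => Ψ (rev g) * runF (⋃ i, R i) Φ g) ≤
        ∑' i, Rec8.sw (HB (2 ^ (k + 4))) (fun g => Ψ (rev g) * runF (R i) Φ g) := by
      rw [← EN.sw_tsum]
      refine Rec8.sw_mono' fun g _ => ?_
      rw [ENNReal.tsum_mul_left]
      exact mul_le_mul_right (runF_iUnion Φ g) _
    refine h1.trans ((ENNReal.tsum_le_tsum fun i => (h i).free y x Ψ Φ hΨ hf hΦ).trans ?_)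
    rw [ENNReal.tsum_mul_right]
    refine mul_le_mul_left ?_ _
    have h2 : ∀ i, ENNReal.ofReal (δ i * Ub k) = ENNReal.ofReal (δ i) * ENNReal.ofReal (Ub k) := fun i =>
      ENNReal.ofReal_mul (hδ i)
    simp only [h2]
    rw [ENNReal.tsum_mul_right, ENNReal.ofReal_mul hΔ]
    exact mul_le_mul_left hs _

lemma sum_add_one (f : List Bool → ℕ) (gs : List (List Bool)) :
    (gs.map fun g => f g + 1).sum = (gs.map f).sum + gs.length := by
  induction gs with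
  | nil => rfl
  | cons g gs ih =>
    rw [List.map_cons, List.sum_cons, List.map_cons, List.sum_cons, List.length_cons, ih]
    omega

/-- the number of the leaves -/
lemma runB_sub {k s V : ℕ} {S : Set (List Bool)} : RunB k s S V ⊆ ⋃ i, TvS S k s (i + 1) (V - (i + 1)) := by
  rintro gs ⟨h1, h2, h3⟩
  have hl : gs.length ≠ 0 := fun h => h1 (List.length_eq_zero_iff.1 h)
  rw [sum_add_one] at h3
  refine Set.mem_iUnion.2 ⟨gs.length - 1, ⟨⟨by omega, fun g hg => (h2 g hg).2, by omega⟩, fun g hg => (h2 g hg).1⟩⟩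

/-- the sum over the number of the leaves -/
lemma runB_num (V : ℕ) : ∑' i : ℕ, ENNReal.ofReal ((1 / 8 : ℝ) ^ (i + 1) / 2 ^ (V - (i + 1))) ≤
    ENNReal.ofReal (1 / 2 ^ V) := by
  have h1 : ∀ i : ℕ, (1 / 8 : ℝ) ^ (i + 1) / 2 ^ (V - (i + 1)) ≤ 1 / 2 ^ V * (1 / 2 * (1 / 2) ^ i) := by
    intro i
    have h2 : (2 : ℝ) ^ V ≤ 2 ^ (V - (i + 1)) * 2 ^ (i + 1) := by
      rw [← pow_add]
      exact pow_le_pow_right₀ (by norm_num) (by omega)
    rw [div_le_iff₀ (by positivity)]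
    have h3 : (1 / 8 : ℝ) ^ (i + 1) ≤ (1 / 2) ^ (i + 1) * (1 / 2) ^ (i + 1) := by
      rw [← mul_pow]
      exact pow_le_pow_left₀ (by norm_num) (by norm_num) _
    have h4 : (1 / 2 : ℝ) ^ (i + 1) * 2 ^ (i + 1) = 1 := by
      rw [← mul_pow]
      norm_num
    have h5 : (0 : ℝ) < 2 ^ V := by positivity
    have h6 : (1 / 2 : ℝ) ^ (i + 1) ≤ 1 / 2 ^ V * 2 ^ (V - (i + 1)) := by
      rw [one_div_mul_eq_div, le_div_iff₀ h5]
      calc (1 / 2 : ℝ) ^ (i + 1) * 2 ^ V ≤ (1 / 2) ^ (i + 1) * (2 ^ (V - (i + 1)) * 2 ^ (i + 1)) := by gcongr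
        _ = ((1 / 2) ^ (i + 1) * 2 ^ (i + 1)) * 2 ^ (V - (i + 1)) := by ring
        _ = 2 ^ (V - (i + 1)) := by rw [h4, one_mul]
    calc (1 / 8 : ℝ) ^ (i + 1) ≤ (1 / 2) ^ (i + 1) * (1 / 2) ^ (i + 1) := h3
      _ ≤ (1 / 2) ^ (i + 1) * (1 / 2 ^ V * 2 ^ (V - (i + 1))) := by gcongr
      _ = 1 / 2 ^ V * (1 / 2 * (1 / 2) ^ i) * 2 ^ (V - (i + 1)) := by
          rw [pow_succ]
          ring
  refine (ENNReal.tsum_le_tsum fun i => ENNReal.ofReal_le_ofReal (h1 i)).trans ?_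
  have hsm : Summable fun i : ℕ => (1 / 2 : ℝ) ^ i := summable_geometric_of_lt_one (by norm_num) (by norm_num)
  rw [← ENNReal.ofReal_tsum_of_nonneg (fun i => by positivity) ((hsm.mul_left _).mul_left _), tsum_mul_left,
    tsum_mul_left, tsum_geometric_of_lt_one (by norm_num) (by norm_num)]
  apply ENNReal.ofReal_le_ofReal
  norm_num

open Classical in
/-- one leaf -/
lemma runF_single (S : Set (List Bool)) (Φ : List Bool → ℝ≥0∞) (g : List Bool) :
    runF {gs | ∃ g ∈ S, gs = [g]} Φ g ≤ if g ∈ S then Φ g else 0 := by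
  unfold runF
  rw [tsum_eq_single []]
  · by_cases hg : g ∈ S
    · rw [if_pos hg]
      split_ifs
      · simp [SDN.wl]
      · exact zero_le
    · rw [if_neg hg, if_neg]
      rintro ⟨⟨g', hg', h⟩, -⟩
      rw [List.cons.injEq] at h
      exact hg (h.1 ▸ hg')
  · intro ms hms
    rw [if_neg]
    rintro ⟨⟨g', hg', h⟩, -⟩
    rw [List.cons.injEq] at h
    exact hms h.2

/-- **the runs of one leaf** -/
theorem smR_single {k : ℕ} {S : Set (List Bool)} {δ : ℝ} (hS : SmD DmJ k S δ) : SmR DmJ k {gs | ∃ g ∈ S, gs = [g]} δ := by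
  classical
  refine ⟨fun x Φ hΦ => ?_, fun y x Ψ Φ hΨ hf hΦ => ?_⟩
  · refine (xT_mono fun t => ?_).trans (hS.near x Φ hΦ)
    unfold vA
    rw [Rec8.sw_ind, Rec8.sw_ind]
    refine ENNReal.tsum_le_tsum fun g => ?_
    by_cases hg : g ∈ {g' | g' ∈ HB (2 ^ (k + 4)) ∧ RT (2 ^ (k + 4)) LFold t g'}
    · rw [if_pos hg]
      have h1 := runF_single S Φ g
      by_cases h0 : g ∈ S
      · rw [if_pos (show g ∈ {g' | g' ∈ S ∧ RT (2 ^ (k + 4)) LFold t g'} from ⟨h0, hg.2⟩)]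
        rw [if_pos h0] at h1
        exact mul_le_mul_right h1 _
      · rw [if_neg h0, nonpos_iff_eq_zero] at h1
        rw [h1, mul_zero]
        exact zero_le
    · rw [if_neg hg]
      exact zero_le
  · refine le_trans ?_ (hS.free y x Ψ Φ hΨ hf hΦ)
    rw [Rec8.sw_ind, Rec8.sw_ind]
    refine ENNReal.tsum_le_tsum fun g => ?_
    by_cases hg : g ∈ HB (2 ^ (k + 4))
    · rw [if_pos hg]
      have h1 := runF_single S Φ g
      by_cases h0 : g ∈ S
      · rw [if_pos h0]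
        rw [if_pos h0] at h1
        exact mul_le_mul_right (mul_le_mul_right h1 _) _
      · rw [if_neg h0, nonpos_iff_eq_zero] at h1
        rw [h1, mul_zero, mul_zero]
        exact zero_le
    · rw [if_neg hg]
      exact zero_le

open TvSA in
/-- **(A) the runs of bad leaves and the tall leaves are classes of small norm** -/
theorem run_bad : ∃ (s J0 : ℕ) (e0 K : ℝ), 0 < e0 ∧ 1 ≤ K ∧
    (∀ (k : ℕ) (S : Set (List Bool)), SmD DmJ k {g | g ∈ BrR (2 ^ (k + 4)) (2 ^ (k + J0)) ∧ g ∈ S} e0 →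
      ∀ V : ℕ, SmR DmJ k (RunB k s S V) (1 / 2 ^ V)) ∧
    ∀ k V : ℕ, SmR DmJ k (RunT k s V) (K / 4 ^ V) := by
  obtain ⟨K, s, hK, h⟩ := NC.clean_D
  have hK0 : 0 < K := by linarith
  obtain ⟨ε, hε, hsum⟩ := tilt_sum hK (show (0 : ℝ) < 1 / 8 by norm_num)
  obtain ⟨q0, hq0⟩ : ∃ q0 : ℕ, K / ε ≤ 4 ^ q0 := by
    obtain ⟨n, hn⟩ := pow_unbounded_of_one_lt (K / ε) (show (1 : ℝ) < 4 by norm_num)
    exact ⟨n, hn.le⟩
  rw [div_le_iff₀ hε] at hq0
  obtain ⟨q1, hq1⟩ : ∃ q1 : ℕ, q0 ≤ 2 ^ q1 := ⟨q0, Nat.lt_two_pow_self.le⟩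
  refine ⟨s, s + q1, ε, 2 * K, hε, by linarith, fun k S hS V => ?_, fun k V => ?_⟩
  · refine SmR_mono runB_sub (smR_iUnion (fun i => by positivity) (runB_num V) (by positivity) fun i => ?_)
    refine smR_tvS (a := fun j => min ε (K / 4 ^ j)) (by norm_num) (fun n => by positivity) hsum (fun n => ?_) (i + 1) _
      (by omega)
    rcases Nat.lt_or_ge n q0 with hn | hn
    · have h2 : SmD DmJ k (SK S k s n) ε := by
        refine QF.SmD_mono ?_ hS
        rintro g ⟨⟨⟨-, a, -, a2, a3⟩, b, b1, b2⟩, g3⟩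
        have hab : a = b := (hgt_eq a3).symm.trans (hgt_eq b2)
        refine ⟨⟨a, by omega, ?_, a3⟩, g3⟩
        have h4 : (n + 1) * 2 ^ (k + s) ≤ 2 ^ q1 * 2 ^ (k + s) := Nat.mul_le_mul_right _ (by omega)
        rw [← pow_add, show q1 + (k + s) = k + (s + q1) by ring] at h4
        omega
      rcases min_cases ε (K / 4 ^ n) with h1 | h1
      · rw [h1.1]
        exact h2
      · rw [h1.1]
        exact QF.SmD_mono (fun g hg => hg.1) (h k n)
    · have h1 : K / 4 ^ n ≤ ε := by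
        rw [div_le_iff₀ (by positivity)]
        have h2 : (4 : ℝ) ^ q0 ≤ 4 ^ n := pow_le_pow_right₀ (by norm_num) hn
        nlinarith
      rw [min_eq_right h1]
      exact QF.SmD_mono (fun g hg => hg.1) (h k n)
  · have h1 : RunT k s V ⊆ ⋃ i, {gs | ∃ g ∈ CK (k + 5) (k + s) (V + i) ∩ HB (2 ^ (k + 4)), gs = [g]} := by
      rintro gs ⟨g, rfl, g1, ⟨b, b1, b2⟩, g3⟩
      rw [hgt_eq b2] at g3
      have hp : 0 < 2 ^ (k + s) := Nat.two_pow_pos _
      have h3 := Nat.div_add_mod b (2 ^ (k + s))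
      have h4 := Nat.mod_lt b hp
      have h5 : V ≤ b / 2 ^ (k + s) := (Nat.le_div_iff_mul_le hp).2 g3
      refine Set.mem_iUnion.2 ⟨b / 2 ^ (k + s) - V, g, ⟨⟨g1, b, ?_, ?_, b2⟩, b, b1, b2⟩, rfl⟩
      · rw [show V + (b / 2 ^ (k + s) - V) = b / 2 ^ (k + s) by omega, mul_comm]
        omega
      · rw [show V + (b / 2 ^ (k + s) - V) = b / 2 ^ (k + s) by omega, add_mul, one_mul, mul_comm (b / 2 ^ (k + s))]
        omega
    refine SmR_mono h1 (smR_iUnion (δ := fun i => K / 4 ^ (V + i)) (fun i => by positivity) ?_ (by positivity) fun i =>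
      smR_single (h k (V + i)))
    have hsm : Summable fun i : ℕ => (1 / 4 : ℝ) ^ i := summable_geometric_of_lt_one (by norm_num) (by norm_num)
    have e1 : ∀ i : ℕ, K / 4 ^ (V + i) = K / 4 ^ V * (1 / 4) ^ i := by
      intro i
      rw [pow_add, one_div, inv_pow]
      field_simp
    simp only [e1]
    rw [← ENNReal.ofReal_tsum_of_nonneg (fun i => by positivity) (hsm.mul_left _), tsum_mul_left,
      tsum_geometric_of_lt_one (by norm_num) (by norm_num)]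
    apply ENNReal.ofReal_le_ofReal
    rw [mul_div_assoc 2 K]
    have : 0 ≤ K / 4 ^ V := by positivity
    nlinarith

theorem runBad : RunBad DmJ := by
  obtain ⟨s, J0, e0, K, he, hK, h1, h2⟩ := run_bad
  exact ⟨s, J0, e0, he, h1⟩

theorem runTall : RunTall DmJ := by
  obtain ⟨s, J0, e0, K, he, hK, h1, h2⟩ := run_bad
  exact ⟨s, K, hK, h2⟩

end SIM

end HexObs
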