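import Pool.Agent.EN.TallN

/-!
SIM (no double points): a class of words which is closed under infixes and contains a small part of the free bridges gives
a class of leaves of small norm.
-/

set_option autoImplicit false

namespace HexObs

namespace SIM

open Finset TS SDN NTW NTA

open scoped ENNReal

/-- the free middle part of a leaf of the class -/
lemma ez_cls {kc J : ℕ} {P : Set (List Bool)} {ε : ℝ} (hε : 0 ≤ ε)
    (hP : ∀ a Z b : List Bool, a ∈ BU → a ++ (Z ++ b) ∈ P → Z ∈ P)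
    (h : ∀ n : ℕ, 2 ^ kc ≤ n → gf {Z | Z ∈ Brd n ∧ Z ∈ P} ≤ ENNReal.ofReal (ε * uu n)) :
    EZ (2 ^ (kc + 4)) (2 ^ (kc + J)) kc {g | g ∈ BrR (2 ^ (kc + 4)) (2 ^ (kc + J)) ∧ g ∈ P} (ε * UU (2 ^ (kc + J))) := by
  classical
  intro M hM P1 hP1 P2 hP2 Q hQ h1 h2
  have hMP := NTA.LQ.BU_app hM (IU_BU hP1)
  have hPQ := NTA.LQ.BU_app (IU_BU hP2) hQ
  have key : ∀ n : ℕ, gf {Z | Z ∈ Brd n ∧ M ++ (P1 ++ (Z ++ (P2 ++ Q))) ∈ {g | g ∈ BrR (2 ^ (kc + 4)) (2 ^ (kc + J)) ∧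
      g ∈ P} ∧ M ++ (P1 ++ (Z ++ (P2 ++ Q))) ∈ BrR (2 ^ (kc + 4)) (2 ^ (kc + J))} ≤
      if n ∈ range (2 ^ (kc + J) + 1) then ENNReal.ofReal (ε * uu n) else 0 := by
    intro n
    by_cases hne : {Z | Z ∈ Brd n ∧ M ++ (P1 ++ (Z ++ (P2 ++ Q))) ∈ {g | g ∈ BrR (2 ^ (kc + 4)) (2 ^ (kc + J)) ∧
      g ∈ P} ∧ M ++ (P1 ++ (Z ++ (P2 ++ Q))) ∈ BrR (2 ^ (kc + 4)) (2 ^ (kc + J))} = ∅
    · rw [hne]
      have : gf (∅ : Set (List Bool)) = 0 := by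
        unfold gf
        simp
      rw [this]
      exact zero_le
    · obtain ⟨Z0, hZ0, -, a, a1, a2, a3⟩ := Set.nonempty_iff_ne_empty.2 hne
      have h5 : M ++ (P1 ++ (Z0 ++ (P2 ++ Q))) ∈ Brd (hgt M + (hgt P1 + (n + (hgt P2 + hgt Q)))) :=
        Brd_append (NTA.LQ.hgt_mem hM) (Brd_append (NTA.LQ.hgt_mem (IU_BU hP1)) (Brd_append hZ0
          (Brd_append (NTA.LQ.hgt_mem (IU_BU hP2)) (NTA.LQ.hgt_mem hQ))))
      have h6 := Brd_height h5 a3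
      have e1 : 2 ^ (kc + 4) = 16 * 2 ^ kc := by ring
      have e2 : 1 ≤ 2 ^ kc := Nat.one_le_two_pow
      rw [if_pos (Finset.mem_range.2 (by omega))]
      refine (gf_mono ?_).trans (h n (by omega))
      rintro Z ⟨hZ, ⟨-, hz⟩, -⟩
      refine ⟨hZ, hP (M ++ P1) Z (P2 ++ Q) hMP ?_⟩
      rwa [List.append_assoc]
  have hu : ∀ n : ℕ, 0 ≤ uu n := fun n => ENNReal.toReal_nonneg
  refine (ENNReal.tsum_le_tsum key).trans (le_of_eq ?_)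
  rw [tsum_eq_sum (s := range (2 ^ (kc + J) + 1)) (fun n hn => if_neg hn),
    Finset.sum_congr rfl (fun n hn => if_pos hn), ← ENNReal.ofReal_sum_of_nonneg (fun n _ => mul_nonneg hε (hu n)),
    ← Finset.mul_sum]
  rfl

/-- **the norm of the leaves of a small class closed under infixes** -/
theorem leaf_norm {P : ℕ → Set (List Bool)}
    (hP : ∀ (r : ℕ) (a Z b : List Bool), a ∈ BU → a ++ (Z ++ b) ∈ P r → Z ∈ P r)
    (hC : ∀ ε : ℝ, 0 < ε → ∃ c r0 : ℕ, ∀ r h : ℕ, r0 ≤ r → 2 ^ (r + c) ≤ h →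
      gf {Z | Z ∈ Brd h ∧ Z ∈ P r} ≤ ENNReal.ofReal (ε * uu h)) :
    ∀ (e : ℝ) (J : ℕ), 0 < e → ∃ c k0 : ℕ, ∀ kc : ℕ, k0 ≤ kc →
      SmD DmJ kc {g | g ∈ BrR (2 ^ (kc + 4)) (2 ^ (kc + J)) ∧ g ∈ P (kc - c)} e := by
  intro e J he
  obtain ⟨K, c, hK, hc, hwin⟩ := sp_win
  have hK0 : 0 < K := by linarith
  obtain ⟨B, hB⟩ : ∃ B : ℝ, B = K * (1 + 2 ^ J) ^ 2 := ⟨_, rfl⟩
  have hB0 : 0 < B := by
    rw [hB]
    positivity
  obtain ⟨R, hR⟩ : ∃ R : ℕ, B * (2 : ℝ) ^ (-(c * (R : ℝ))) ≤ e / 2 := by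
    have h1 : (2 : ℝ) ^ (-c) < 1 := Real.rpow_lt_one_of_one_lt_of_neg (by norm_num) (by linarith)
    obtain ⟨R, hR⟩ := exists_pow_lt_of_lt_one (show 0 < e / 2 / B by positivity) h1
    refine ⟨R, ?_⟩
    rw [← Real.rpow_natCast, ← Real.rpow_mul (by norm_num)] at hR
    rw [show -(c * (R : ℝ)) = -c * (R : ℝ) by ring]
    calc B * (2 : ℝ) ^ (-c * (R : ℝ)) ≤ B * (e / 2 / B) := mul_le_mul_of_nonneg_left hR.le hB0.le
      _ = e / 2 := by field_simp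
  obtain ⟨ε, hε⟩ : ∃ ε : ℝ, ε = e / 2 / (B * 4 ^ (R + 3) * 2 ^ J) := ⟨_, rfl⟩
  have hε0 : 0 < ε := by
    rw [hε]
    positivity
  obtain ⟨c1, r0, hsm⟩ := hC ε hε0
  refine ⟨c1, r0 + c1 + R + 3, fun kc hkc => ?_⟩
  have hU := Ub_pos kc
  have hUN : UU (2 ^ (kc + J)) ≤ 2 ^ J * Ub kc := UU_ratio_up kc J
  have hUN0 : 0 < UU (2 ^ (kc + J)) := Num2Aux.UU_pos _
  have hez := ez_cls (kc := kc) (J := J) (P := P (kc - c1)) hε0.le (hP _) (fun n hn =>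
    hsm (kc - c1) n (by omega) (by rwa [show kc - c1 + c1 = kc by omega]))
  have h1 := hwin kc (2 ^ (kc + J)) kc (kc - (R + 3)) _ _ (by omega) le_rfl (by positivity) (fun g hg => hg.1) hez
  refine SmD_le ?_ h1
  have hρ : 1 + UU (2 ^ (kc + J)) / Ub kc ≤ 1 + 2 ^ J := by
    have : UU (2 ^ (kc + J)) / Ub kc ≤ 2 ^ J := by
      rw [div_le_iff₀ hU]
      exact hUN
    linarith
  have hρ0 : 0 ≤ 1 + UU (2 ^ (kc + J)) / Ub kc := by positivity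
  have e1 : (2 : ℝ) ^ (-(c * ((kc : ℝ) - ((kc - (R + 3) : ℕ) : ℝ)))) ≤ (2 : ℝ) ^ (-(c * (R : ℝ))) := by
    apply Real.rpow_le_rpow_of_exponent_le (by norm_num)
    rw [Nat.cast_sub (by omega)]
    push_cast
    nlinarith
  have e2 : (4 : ℝ) ^ (kc - kc) = 1 := by rw [Nat.sub_self, pow_zero]
  have e3 : kc - (kc - (R + 3)) = R + 3 := by omega
  have e4 : ε * UU (2 ^ (kc + J)) / Ub kc ≤ ε * 2 ^ J := by
    rw [div_le_iff₀ hU, mul_assoc]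
    exact mul_le_mul_of_nonneg_left hUN hε0.le
  rw [e2, e3, one_mul]
  calc K * (1 + UU (2 ^ (kc + J)) / Ub kc) ^ 2 * ((2 : ℝ) ^ (-(c * ((kc : ℝ) - ((kc - (R + 3) : ℕ) : ℝ)))) +
        4 ^ (R + 3) * (ε * UU (2 ^ (kc + J)) / Ub kc))
      ≤ K * (1 + 2 ^ J) ^ 2 * ((2 : ℝ) ^ (-(c * (R : ℝ))) + 4 ^ (R + 3) * (ε * 2 ^ J)) := by gcongr
    _ = B * (2 : ℝ) ^ (-(c * (R : ℝ))) + B * 4 ^ (R + 3) * 2 ^ J * ε := by
        rw [hB]
        ring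
    _ ≤ e / 2 + e / 2 := by
        refine add_le_add hR (le_of_eq ?_)
        rw [hε]
        field_simp
    _ = e := by ring

end SIM

end HexObs
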