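import Pool.Agent.DIM.Sim
import Pool.Agent.NTS.LawX

/-!
# SIM/LimS: near touches, from the walks to the laws (helper5)

* `Still η κ`, `LawMove A`, **`move_lim`** : no constant arcs in the weak limits;
* `curve_fl`, `curve_two` : the curve and the walk at the integer times;
* `NearP`, `SimA A`, **`lawSimA_of`** : few near touches of the walks `n ∈ A` give `DIM.LawSim A`.
-/

set_option autoImplicit false

namespace HexObs

namespace SIM

open MeasureTheory Set Metric Filter Topology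

open Pool.Agent.NTS.Res

open scoped ENNReal Classical


/-! ### 1. No constant arcs -/

/-- an arc of time length at least `η` that stays closer than `κ` to its first point -/
def Still (η κ : ℝ) : Set C(unitInterval, ℂ) :=
  {γ | ∃ s t : unitInterval, (s : ℝ) + η ≤ t ∧ ∀ u : unitInterval, s ≤ u → u ≤ t → dist (γ s) (γ u) < κ}

lemma still_open (η κ : ℝ) : IsOpen (Still η κ) := by
  rw [Metric.isOpen_iff]
  rintro γ ⟨s, t, hst, h⟩
  by_cases hle : s ≤ t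
  swap
  · exact ⟨1, one_pos, fun γ' _ => ⟨s, t, hst, fun u h1 h2 => absurd (h1.trans h2) hle⟩⟩
  have hK : IsCompact (Icc s t) := isCompact_Icc
  obtain ⟨u0, hu0, hmax⟩ := hK.exists_isMaxOn ⟨s, le_rfl, hle⟩
    (f := fun u => dist (γ s) (γ u)) (continuous_const.dist γ.continuous).continuousOn
  obtain ⟨δ, hδ⟩ : ∃ δ : ℝ, δ = (κ - dist (γ s) (γ u0)) / 2 := ⟨_, rfl⟩
  have h0 := h u0 hu0.1 hu0.2
  refine ⟨δ, by rw [hδ]; linarith, fun γ' hγ' => ⟨s, t, hst, fun u h1 h2 => ?_⟩⟩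
  have h3 : dist (γ s) (γ u) ≤ dist (γ s) (γ u0) := hmax ⟨h1, h2⟩
  have h4 : dist γ' γ < δ := hγ'
  have h5 : dist (γ' s) (γ s) ≤ dist γ' γ := ContinuousMap.dist_apply_le_dist _
  have h6 : dist (γ' u) (γ u) ≤ dist γ' γ := ContinuousMap.dist_apply_le_dist _
  have h7 := dist_triangle4 (γ' s) (γ s) (γ u) (γ' u)
  rw [dist_comm (γ u) (γ' u)] at h7
  rw [hδ] at h4
  linarith

/-- the laws of `X_n`, `n ∈ A`: every arc moves -/
def LawMove (A : Set ℕ) : Prop := ∀ η ε : ℝ, 0 < η → 0 < ε → ∃ (κ : ℝ) (n0 : ℕ), 0 < κ ∧ ∀ n ∈ A, n0 ≤ n →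
  law n (Still η κ) ≤ ENNReal.ofReal ε

/-- **no constant arcs in the weak limits** -/
theorem move_lim {A : Set ℕ} (h : LawMove A) {φ : ℕ → ℕ} {ν : Measure C(unitInterval, ℂ)} (hφ : Tendsto φ atTop atTop)
    (hφA : ∀ k, φ k ∈ A) (hν : IsProbabilityMeasure ν) (hlim : LawTo φ ν) :
    ∀ᵐ γ : C(unitInterval, ℂ) ∂ν, ∀ s t : unitInterval, s < t → ∃ u : unitInterval, s ≤ u ∧ u ≤ t ∧ γ u ≠ γ s := by
  have hlim2 := (NTSF.lawTo_iff ⟨ν, hν⟩).1 hlim
  have key : ∀ m : ℕ, ∀ᵐ γ : C(unitInterval, ℂ) ∂ν, ∃ κ : ℝ, 0 < κ ∧ γ ∉ Still (1 / ((m : ℝ) + 1)) κ := by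
    intro m
    have h0 : ν {γ : C(unitInterval, ℂ) | ¬ ∃ κ : ℝ, 0 < κ ∧ γ ∉ Still (1 / ((m : ℝ) + 1)) κ} = 0 := by
      refine le_antisymm (ENNReal.le_of_forall_pos_le_add ?_) zero_le
      intro ε hε _
      rw [zero_add]
      obtain ⟨κ, n0, hκ, h1⟩ := h (1 / ((m : ℝ) + 1)) ε (by positivity) (by exact_mod_cast hε)
      have h2 : ν (Still (1 / ((m : ℝ) + 1)) κ) ≤ ENNReal.ofReal ε := by
        refine NTF.open_le hlim2 (still_open _ _) ?_
        filter_upwards [hφ.eventually_ge_atTop n0] with k hk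
        exact h1 _ (hφA k) hk
      rw [ENNReal.ofReal_coe_nnreal] at h2
      refine (measure_mono ?_).trans h2
      intro γ hγ
      by_contra hcon
      exact hγ ⟨κ, hκ, hcon⟩
    exact h0
  filter_upwards [ae_all_iff.2 key] with γ hγ s t hst
  have hst' : 0 < (t : ℝ) - s := sub_pos.2 hst
  obtain ⟨m, hm⟩ := exists_nat_one_div_lt hst'
  obtain ⟨κ, hκ, h1⟩ := hγ m
  by_contra hcon
  push Not at hcon
  refine h1 ⟨s, t, by linarith, fun u h2 h3 => ?_⟩
  rw [hcon u h2 h3, dist_self]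
  exact hκ

/-- **no near touches and no constant arcs: the weak limits along `A` are simple curves** -/
theorem simple_lim {A : Set ℕ} (h : DIM.LawSim A) {φ : ℕ → ℕ} {ν : Measure C(unitInterval, ℂ)}
    (hφ : Tendsto φ atTop atTop) (hφA : ∀ k, φ k ∈ A) (hν : IsProbabilityMeasure ν) (hlim : LawTo φ ν)
    (hnc : ∀ᵐ γ : C(unitInterval, ℂ) ∂ν, ∀ s t : unitInterval, s < t → ∃ u : unitInterval, s ≤ u ∧ u ≤ t ∧ γ u ≠ γ s) :
    ∀ᵐ γ : C(unitInterval, ℂ) ∂ν, Function.Injective γ := by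
  filter_upwards [DIM.sim_lim h hφ hφA hν hlim, hnc] with γ h1 h2
  have key : ∀ s t : unitInterval, s < t → γ s ≠ γ t := by
    intro s t hst he
    obtain ⟨u, k1, k2, k3⟩ := h2 s t hst
    exact k3 (h1 s u t k1 k2 he)
  intro s t he
  rcases lt_trichotomy s t with h3 | h3 | h3
  · exact absurd he (key s t h3)
  · exact h3
  · exact absurd he.symm (key t s h3)

/-! ### 2. From the walks to the laws -/

lemma pos_step {n : ℕ} (s : Fin n → Fin 3) {j : ℕ} (hj : j < n) : ‖Pool.Agent.NTS.Res.pos s (j + 1) - Pool.Agent.NTS.Res.pos s j‖ = 1 := by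
  rw [NTSF.pos_succ s j hj, add_sub_cancel_left]
  unfold step
  rw [norm_mul, norm_pow, norm_neg, norm_one, one_pow, one_mul]
  have e : (2 * (Real.pi : ℂ) * Complex.I * (((s ⟨j, hj⟩ : Fin 3) : ℕ) : ℂ) / 3) =
      ((2 * Real.pi * (((s ⟨j, hj⟩ : Fin 3) : ℕ) : ℝ) / 3 : ℝ) : ℂ) * Complex.I := by
    push_cast
    ring
  rw [e, Complex.norm_exp_ofReal_mul_I]

/-- the curve is near the walk at the integer times -/
lemma curve_fl {n : ℕ} (hn : 1 ≤ n) (s : Fin n → Fin 3) (u : unitInterval) :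
    ‖curve s u * size n - Pool.Agent.NTS.Res.pos s ⌊(u : ℝ) * n⌋₊‖ ≤ 1 := by
  have hs := NTSF.size_pos hn
  have hs' : ((size n : ℝ) : ℂ) ≠ 0 := by exact_mod_cast hs.ne'
  obtain ⟨i, a, hi, a0, a1, i1, i2, e⟩ := NTSF.curve_apply hn s u
  have h1 : curve s u * size n = ((1 - a : ℝ) : ℂ) * Pool.Agent.NTS.Res.pos s i + (a : ℂ) * Pool.Agent.NTS.Res.pos s (i + 1) := by
    rw [e, div_mul_cancel₀ _ hs']
  have hst := pos_step s hi
  rw [h1]
  rcases lt_or_ge ((u : ℝ) * n) (i + 1) with h2 | h2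
  · have h3 : ⌊(u : ℝ) * n⌋₊ = i := by
      rw [Nat.floor_eq_iff (le_trans (Nat.cast_nonneg i) i1)]
      exact ⟨i1, h2⟩
    rw [h3]
    have e2 : ((1 - a : ℝ) : ℂ) * Pool.Agent.NTS.Res.pos s i + (a : ℂ) * Pool.Agent.NTS.Res.pos s (i + 1) - Pool.Agent.NTS.Res.pos s i =
        (a : ℂ) * (Pool.Agent.NTS.Res.pos s (i + 1) - Pool.Agent.NTS.Res.pos s i) := by
      push_cast
      ring
    rw [e2, norm_mul, hst, mul_one, Complex.norm_of_nonneg a0]
    exact a1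
  · have h2' : (u : ℝ) * n = i + 1 := le_antisymm i2 h2
    have h3 : ⌊(u : ℝ) * n⌋₊ = i + 1 := by
      rw [h2']
      exact_mod_cast Nat.floor_natCast (i + 1)
    rw [h3]
    have e2 : ((1 - a : ℝ) : ℂ) * Pool.Agent.NTS.Res.pos s i + (a : ℂ) * Pool.Agent.NTS.Res.pos s (i + 1) - Pool.Agent.NTS.Res.pos s (i + 1) =
        -(((1 - a : ℝ) : ℂ) * (Pool.Agent.NTS.Res.pos s (i + 1) - Pool.Agent.NTS.Res.pos s i)) := by
      push_cast
      ring
    rw [e2, norm_neg, norm_mul, hst, mul_one, Complex.norm_of_nonneg (by linarith)]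
    linarith

/-- two points of the curve and of the walk -/
lemma curve_two {n : ℕ} (hn : 1 ≤ n) (s : Fin n → Fin 3) (u v : unitInterval) :
    |dist (curve s u) (curve s v) * size n - ‖Pool.Agent.NTS.Res.pos s ⌊(v : ℝ) * n⌋₊ - Pool.Agent.NTS.Res.pos s ⌊(u : ℝ) * n⌋₊‖| ≤ 2 := by
  have hs := NTSF.size_pos hn
  have h1 := curve_fl hn s u
  have h2 := curve_fl hn s v
  have e : dist (curve s u) (curve s v) * size n = ‖curve s v * size n - curve s u * size n‖ := by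
    rw [← sub_mul, norm_mul, Complex.norm_of_nonneg hs.le, dist_eq_norm, norm_sub_rev]
  rw [e]
  refine (abs_norm_sub_norm_le _ _).trans ?_
  have e2 : curve s v * size n - curve s u * size n - (Pool.Agent.NTS.Res.pos s ⌊(v : ℝ) * n⌋₊ - Pool.Agent.NTS.Res.pos s ⌊(u : ℝ) * n⌋₊) =
      (curve s v * size n - Pool.Agent.NTS.Res.pos s ⌊(v : ℝ) * n⌋₊) - (curve s u * size n - Pool.Agent.NTS.Res.pos s ⌊(u : ℝ) * n⌋₊) := by
    ring
  rw [e2]
  refine (norm_sub_le _ _).trans ?_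
  linarith

/-- the walks with a near touch -/
def NearP {n : ℕ} (R r d : ℝ) (s : Fin n → Fin 3) : Prop := ∃ i l j : ℕ, i ≤ l ∧ l ≤ j ∧ j ≤ n ∧
  r * R ≤ ‖Pool.Agent.NTS.Res.pos s l - Pool.Agent.NTS.Res.pos s i‖ ∧ ‖Pool.Agent.NTS.Res.pos s j - Pool.Agent.NTS.Res.pos s i‖ ≤ d * R

/-- the walks, `n ∈ A`: few near touches -/
def SimA (A : Set ℕ) : Prop := ∀ r ε : ℝ, 0 < r → 0 < ε → ∃ (d : ℝ) (n0 : ℕ), 0 < d ∧ ∀ n ∈ A, n0 ≤ n →
  (((saw n).filter fun s => NearP (size n) r d s).card : ℝ) ≤ ε * ((saw n).card : ℝ)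

lemma fl_le {n : ℕ} (u : unitInterval) : ⌊(u : ℝ) * n⌋₊ ≤ n := by
  have h : (u : ℝ) * n ≤ n := by
    have := u.2.2
    have hn : (0 : ℝ) ≤ n := Nat.cast_nonneg n
    nlinarith
  calc ⌊(u : ℝ) * n⌋₊ ≤ ⌊(n : ℝ)⌋₊ := Nat.floor_le_floor h
    _ = n := Nat.floor_natCast n

lemma fl_mono {n : ℕ} {u v : unitInterval} (h : u ≤ v) : ⌊(u : ℝ) * n⌋₊ ≤ ⌊(v : ℝ) * n⌋₊ := by
  apply Nat.floor_le_floor
  have h1 : (u : ℝ) ≤ v := h
  have hn : (0 : ℝ) ≤ n := Nat.cast_nonneg n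
  nlinarith

/-- **from the walks to the laws** -/
theorem lawSimA_of {A : Set ℕ} (h : SimA A) (hs : Tendsto size atTop atTop) : DIM.LawSim A := by
  intro r ε hr hε
  obtain ⟨d, n0, hd, h1⟩ := h (r / 2) ε (by positivity) hε
  obtain ⟨n1, h2⟩ := eventually_atTop.1 (hs.eventually_ge_atTop (4 / r + 4 / d))
  refine ⟨d / 2, by positivity, max (max n0 n1) 1, fun n hA hn => ?_⟩
  have hn0 : n0 ≤ n := (le_max_left _ _).trans (le_of_max_le_left hn)
  have hn1 : 1 ≤ n := le_of_max_le_right hn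
  have h3 := h2 n ((le_max_right _ _).trans (le_of_max_le_left hn))
  have h4 : 4 ≤ r * size n := by
    have : 4 / r ≤ size n := by
      have : 0 < 4 / d := by positivity
      linarith
    rw [div_le_iff₀ hr] at this
    linarith
  have h5 : 4 ≤ d * size n := by
    have : 4 / d ≤ size n := by
      have : 0 < 4 / r := by positivity
      linarith
    rw [div_le_iff₀ hd] at this
    linarith
  refine NTSF.law_le hε.le (le_trans ?_ (h1 n hA hn0))
  have hsub : ((saw n).filter fun s => curve s ∈ DIM.NearD r (d / 2)) ⊆ (saw n).filter fun s => NearP (size n) (r / 2) d s := by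
    intro s hs
    rw [Finset.mem_filter] at hs ⊢
    refine ⟨hs.1, ?_⟩
    obtain ⟨a, b, c, hab, hbc, g1, g2⟩ := hs.2
    have hsz := NTSF.size_pos hn1
    have k1 := abs_le.1 (curve_two hn1 s a b)
    have k2 := abs_le.1 (curve_two hn1 s a c)
    refine ⟨⌊(a : ℝ) * n⌋₊, ⌊(b : ℝ) * n⌋₊, ⌊(c : ℝ) * n⌋₊, fl_mono hab, fl_mono hbc, fl_le c, ?_, ?_⟩
    · have g3 : r * size n < dist (curve s a) (curve s b) * size n := by
        rw [dist_comm] at g1
        exact mul_lt_mul_of_pos_right g1 hsz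
      linarith [k1.2]
    · have g3 : dist (curve s a) (curve s c) * size n < d / 2 * size n := mul_lt_mul_of_pos_right g2 hsz
      linarith [k2.1]
  exact_mod_cast Finset.card_le_card hsub

end SIM

end HexObs
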