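import Pool.Agent.SIM.LawS

/-!
# SIM/CaseA: near double points at both ends of the walk (SIM/EX10, row X4) (helper83)

* `CaseA m` : few walks with n letters have a time `i ≤ ρ n` and a time `j ≥ (1 - ρ) n` at a small distance;
* **`caseA_of`** : from `LowX` and the modulus of continuity.
-/

set_option autoImplicit false

namespace HexObs

namespace SIM

open HexObs.TS HexObs.SDN HexObs.NTW

open scoped ENNReal

/-- the first and the last part of the walk are not near each other -/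
def CaseA (m : ℕ → ℝ) : Prop := ∀ e : ℝ, 0 < e → ∃ (ρ δ : ℝ) (k0 : ℕ), 0 < ρ ∧ 0 < δ ∧ ∀ k n : ℕ, k0 ≤ k → m k ≤ n →
  n < m (k + 1) → gf {t | t ∈ SawN n ∧ ∃ i j : ℕ, i ≤ j ∧ j ≤ n ∧ (i : ℝ) ≤ ρ * n ∧ (1 - ρ) * n ≤ (j : ℝ) ∧
    ∀ dir : Bool, |((lvl dir (vx oo up t j) - lvl dir (vx oo up t i) : ℤ) : ℝ)| ≤ δ * 2 ^ k} ≤
      ENNReal.ofReal e * nuX m k

/-- **from the end point and the modulus** -/
theorem caseA_of {m : ℕ → ℝ} (hL : LowX m) (hF : FactsX m) (hd : ∃ C : ℝ, 1 ≤ C ∧ ∀ k, m (k + 1) ≤ C * m k) :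
    CaseA m := by
  intro e he
  obtain ⟨κ, k1, hκ, h1⟩ := hL (e / 2) (by positivity)
  obtain ⟨ρ0, k2, hρ0, h2⟩ := hF.modu (κ / 3) (e / 2) (by positivity) (by positivity)
  obtain ⟨C, hC, hd⟩ := hd
  have hC0 : 0 < C := by linarith
  refine ⟨ρ0 / C, κ / 3, max k1 k2, by positivity, by positivity, fun k n hk ha hb => ?_⟩
  have hsub : {t | t ∈ SawN n ∧ ∃ i j : ℕ, i ≤ j ∧ j ≤ n ∧ (i : ℝ) ≤ ρ0 / C * n ∧ (1 - ρ0 / C) * n ≤ (j : ℝ) ∧
      ∀ dir : Bool, |((lvl dir (vx oo up t j) - lvl dir (vx oo up t i) : ℤ) : ℝ)| ≤ κ / 3 * 2 ^ k} ⊆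
      {t | t ∈ SawN n ∧ ∀ dir : Bool, |((lvl dir (vx oo up t n) : ℤ) : ℝ)| ≤ κ * 2 ^ k} ∪
      {t | t ∈ SawN n ∧ ∃ (dir : Bool) (i j : ℕ), i ≤ j ∧ j ≤ n ∧ (j : ℝ) - i ≤ ρ0 * m k ∧
        κ / 3 * 2 ^ k ≤ |((lvl dir (vx oo up t j) - lvl dir (vx oo up t i) : ℤ) : ℝ)|} := by
    rintro t ⟨ht, i, j, hij, hj, hi1, hj1, h3⟩
    by_cases hM : ∃ (dir : Bool) (i j : ℕ), i ≤ j ∧ j ≤ n ∧ (j : ℝ) - i ≤ ρ0 * m k ∧
        κ / 3 * 2 ^ k ≤ |((lvl dir (vx oo up t j) - lvl dir (vx oo up t i) : ℤ) : ℝ)|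
    · exact Or.inr ⟨ht, hM⟩
    · left
      push Not at hM
      refine ⟨ht, fun dir => ?_⟩
      have hn : ρ0 / C * n ≤ ρ0 * m k := by
        have e1 : (n : ℝ) ≤ C * m k := hb.le.trans (hd k)
        rw [div_mul_eq_mul_div, div_le_iff₀ hC0]
        calc ρ0 * (n : ℝ) ≤ ρ0 * (C * m k) := mul_le_mul_of_nonneg_left e1 hρ0.le
          _ = _ := by ring
      have a1 := hM dir 0 i (Nat.zero_le i) (hij.trans hj) (by
        rw [Nat.cast_zero, sub_zero]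
        exact hi1.trans hn)
      have a2 := hM dir j n hj le_rfl (by linarith)
      have a3 := h3 dir
      have e0 : lvl dir (vx oo up t 0) = 0 := by
        cases dir <;> rfl
      rw [e0, sub_zero] at a1
      push_cast at a2 a3 ⊢
      rw [abs_lt] at a1 a2
      rw [abs_le] at a3 ⊢
      constructor <;> linarith [a1.1, a1.2, a2.1, a2.2, a3.1, a3.2]
  refine (gf_mono hsub).trans ((gf_union_le _ _).trans ?_)
  refine (add_le_add (h1 k n (le_of_max_le_left hk) ha hb) (h2 k n (le_of_max_le_right hk) ha hb)).trans (le_of_eq ?_)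
  rw [← add_mul, ← ENNReal.ofReal_add (by positivity) (by positivity), add_halves]

end SIM

end HexObs
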