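import Mathlib

/-!
SIM (no double points): the double counting of the translations. V = translations that nearly touch, T = translations that
meet. If at every scale s every v in V has many points y within distance R s with the ball of radius ρ s around y inside T,
then V is small.
-/

set_option autoImplicit false

namespace HexObs

namespace SIM

open Finset

/-- the ball of the maximum norm -/
def Bl (y : ℤ × ℤ) (r : ℕ) : Set (ℤ × ℤ) := {z | |z.1 - y.1| ≤ r ∧ |z.2 - y.2| ≤ r}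

lemma Bl_mono (y : ℤ × ℤ) {r r' : ℕ} (h : r ≤ r') : Bl y r ⊆ Bl y r' := by
  rintro z ⟨h1, h2⟩
  have : (r : ℤ) ≤ r' := by exact_mod_cast h
  exact ⟨h1.trans this, h2.trans this⟩

lemma Bl_symm {y z : ℤ × ℤ} {r : ℕ} (h : z ∈ Bl y r) : y ∈ Bl z r := by
  obtain ⟨h1, h2⟩ := h
  rw [abs_sub_comm] at h1 h2
  exact ⟨h1, h2⟩

/-- the ball as a finite set -/
noncomputable def bl (y : ℤ × ℤ) (r : ℕ) : Finset (ℤ × ℤ) := Finset.Icc (y.1 - r) (y.1 + r) ×ˢ Finset.Icc (y.2 - r) (y.2 + r)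

lemma mem_bl {y z : ℤ × ℤ} {r : ℕ} : z ∈ bl y r ↔ z ∈ Bl y r := by
  unfold bl Bl
  rw [Finset.mem_product, Finset.mem_Icc, Finset.mem_Icc, Set.mem_ofPred_eq, abs_le, abs_le]
  constructor
  · rintro ⟨⟨a, b⟩, c, d⟩
    exact ⟨⟨by linarith, by linarith⟩, by linarith, by linarith⟩
  · rintro ⟨⟨a, b⟩, c, d⟩
    exact ⟨⟨by linarith, by linarith⟩, by linarith, by linarith⟩

lemma card_bl (y : ℤ × ℤ) (r : ℕ) : (bl y r).card = (2 * r + 1) ^ 2 := by
  unfold bl
  rw [Finset.card_product, Int.card_Icc, Int.card_Icc]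
  have h1 : (y.1 + r + 1 - (y.1 - r)).toNat = 2 * r + 1 := by omega
  have h2 : (y.2 + r + 1 - (y.2 - r)).toNat = 2 * r + 1 := by omega
  rw [h1, h2, sq]

open Classical in
/-- **double counting of the translations** -/
theorem near_count {T : Set (ℤ × ℤ)} {V U : Finset (ℤ × ℤ)} {R ρ : ℕ → ℕ} {a : ℕ → ℕ} {S : ℕ} (hV : ∀ v ∈ V, v ∉ T)
    (hR : ∀ s, s + 1 < S → R (s + 1) ≤ ρ s) (hρ : ∀ s, s < S → ρ s ≤ R s)
    (h : ∀ v ∈ V, ∀ s, s < S → ∃ Y : Finset (ℤ × ℤ), a s ≤ Y.card ∧ ∀ y ∈ Y, y ∈ U ∧ y ∈ Bl v (R s) ∧ Bl y (ρ s) ⊆ T) :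
    (V.card : ℝ) * ∑ s ∈ range S, (a s : ℝ) / (2 * R s + 1) ^ 2 ≤ U.card := by
  obtain ⟨D, hD⟩ : ∃ D : ℕ → Finset (ℤ × ℤ), ∀ s, D s = U.filter (fun y => Bl y (ρ s) ⊆ T ∧ ¬ Bl y (R s) ⊆ T) :=
    ⟨_, fun _ => rfl⟩
  -- one scale
  have h1 : ∀ s, s < S → (V.card : ℝ) * ((a s : ℝ) / (2 * R s + 1) ^ 2) ≤ (D s).card := by
    intro s hs
    have h2 : ∑ v ∈ V, a s ≤ ∑ v ∈ V, ((D s).filter (fun y => y ∈ Bl v (R s))).card := by
      refine Finset.sum_le_sum fun v hv => ?_
      obtain ⟨Y, hY, hY2⟩ := h v hv s hs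
      refine hY.trans (card_le_card fun y hy => ?_)
      obtain ⟨y1, y2, y3⟩ := hY2 y hy
      rw [Finset.mem_filter, hD, Finset.mem_filter]
      exact ⟨⟨y1, y3, fun hcon => hV v hv (hcon (Bl_symm y2))⟩, y2⟩
    have h3 : ∑ v ∈ V, ((D s).filter (fun y => y ∈ Bl v (R s))).card ≤ ∑ y ∈ D s, (2 * R s + 1) ^ 2 := by
      have e1 : ∑ v ∈ V, ((D s).filter (fun y => y ∈ Bl v (R s))).card =
          ∑ y ∈ D s, (V.filter (fun v => y ∈ Bl v (R s))).card := by
        simp only [Finset.card_filter]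
        exact Finset.sum_comm
      rw [e1]
      refine Finset.sum_le_sum fun y _ => ?_
      rw [← card_bl y (R s)]
      refine card_le_card fun v hv => ?_
      rw [Finset.mem_filter] at hv
      exact mem_bl.2 (Bl_symm hv.2)
    rw [Finset.sum_const, smul_eq_mul] at h2
    rw [Finset.sum_const, smul_eq_mul] at h3
    have h4 : (V.card * a s : ℕ) ≤ (D s).card * (2 * R s + 1) ^ 2 := h2.trans h3
    have h5 : (V.card : ℝ) * a s ≤ (D s).card * (2 * R s + 1) ^ 2 := by exact_mod_cast h4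
    rw [← mul_div_assoc, div_le_iff₀ (by positivity)]
    exact h5
  -- the scales are disjoint
  have hRR : ∀ d s, s + d + 1 < S → R (s + d + 1) ≤ ρ s := by
    intro d
    induction d with
    | zero => intro s hs; exact hR s hs
    | succ d ih =>
      intro s hs
      have h2 := hR (s + d + 1) (by omega)
      have h3 := hρ (s + d + 1) (by omega)
      have h4 := ih s (by omega)
      rw [show s + (d + 1) + 1 = s + d + 1 + 1 by ring]
      omega
  have hdis : ∀ s ∈ range S, ∀ s' ∈ range S, s ≠ s' → Disjoint (D s) (D s') := by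
    have key : ∀ s s', s < s' → s' < S → Disjoint (D s) (D s') := by
      intro s s' hss hs'
      rw [Finset.disjoint_left]
      intro y hy hy'
      rw [hD, Finset.mem_filter] at hy hy'
      have h2 := hRR (s' - s - 1) s (by omega)
      rw [show s + (s' - s - 1) + 1 = s' by omega] at h2
      exact hy'.2.2 ((Bl_mono y h2).trans hy.2.1)
    intro s hs s' hs' hne
    rw [Finset.mem_range] at hs hs'
    rcases Nat.lt_or_gt_of_ne hne with h2 | h2
    · exact key s s' h2 hs'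
    · exact (key s' s h2 hs).symm
  have h6 : ∑ s ∈ range S, (D s).card ≤ U.card := by
    rw [← Finset.card_biUnion hdis]
    refine card_le_card fun y hy => ?_
    rw [Finset.mem_biUnion] at hy
    obtain ⟨s, -, hs⟩ := hy
    rw [hD, Finset.mem_filter] at hs
    exact hs.1
  rw [Finset.mul_sum]
  refine (Finset.sum_le_sum fun s hs => h1 s (Finset.mem_range.1 hs)).trans ?_
  exact_mod_cast h6

end SIM

end HexObs
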