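import Pool.Agent.HexObs.Planar

/-!
SIM: planarity. A path of the honeycomb lattice that crosses a rectangle from left to right meets every path that
crosses it from bottom to top.
-/

set_option autoImplicit false

namespace SIM

open Finset HexObs HexObs.Planar

/-- the parity of the vertical edges of the path to the left of r. -/
def KA (a : ℕ → ℤ × ℤ) (n : ℕ) (r : ℤ × ℤ) : ZMod 2 := ∑ i ∈ range n, kap (a i) (a (i + 1)) r

lemma tele (f : ℕ → ZMod 2) (n : ℕ) : ∑ i ∈ range n, (f i + f (i + 1)) = f 0 + f n := by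
  induction n with
  | zero =>
    have h2 : ∀ x : ZMod 2, 0 = x + x := by decide
    simpa using h2 _
  | succ n ih =>
    rw [sum_range_succ, ih]
    have h2 : ∀ x y z : ZMod 2, x + y + (y + z) = x + z := by decide
    exact h2 _ _ _

lemma KA_adj {a : ℕ → ℤ × ℤ} {n : ℕ} (ha : ∀ i, i < n → Adj (a i) (a (i + 1))) {y0 y1 : ℤ}
    (ha0 : (a 0).2 ≤ y0) (han : y1 ≤ (a n).2) {r r' : ℤ × ℤ} (h : EE r r')
    (h0' : y0 < r'.2) (h1 : r.2 < y1)
    (hr : ∀ i, i ≤ n → a i ≠ r) (hr' : ∀ i, i ≤ n → a i ≠ r') : KA a n r = KA a n r' := by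
  obtain ⟨e1, e2, e3⟩ := h
  have hsum : ∀ x y : ZMod 2, x + y = 0 → x = y := by decide
  rcases e3 with ⟨b1, b2⟩ | ⟨b1, b2⟩ | ⟨b1, b2⟩
  · unfold KA
    apply sum_congr rfl
    intro i hi
    rw [mem_range] at hi
    exact kap_vert (ha i hi) e1 b1 b2
  · apply hsum
    unfold KA
    rw [← sum_add_distrib]
    have h1 : ∀ i ∈ range n, kap (a i) (a (i + 1)) r + kap (a i) (a (i + 1)) r' =
        phi 1 r (a i) + phi 1 r (a (i + 1)) := by
      intro i hi
      rw [mem_range] at hi
      exact kap_right (ha i hi) e1 e2 b1 b2 (hr' i (by omega)) (hr' (i + 1) (by omega))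
    rw [sum_congr rfl h1, tele (fun i => phi 1 r (a i)) n]
    have h2 : phi 1 r (a 0) = 0 := by
      unfold phi
      rw [if_neg]
      omega
    have h3 : phi 1 r (a n) = 0 := by
      unfold phi
      rw [if_neg]
      omega
    rw [h2, h3, add_zero]
  · apply hsum
    unfold KA
    rw [← sum_add_distrib]
    have h1 : ∀ i ∈ range n, kap (a i) (a (i + 1)) r + kap (a i) (a (i + 1)) r' =
        phi 0 r (a i) + phi 0 r (a (i + 1)) := by
      intro i hi
      rw [mem_range] at hi
      exact kap_left (ha i hi) e1 e2 b1 b2 (hr i (by omega)) (hr (i + 1) (by omega))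
    rw [sum_congr rfl h1, tele (fun i => phi 0 r (a i)) n]
    have h2 : phi 0 r (a 0) = 0 := by
      unfold phi
      rw [if_neg]
      omega
    have h3 : phi 0 r (a n) = 0 := by
      unfold phi
      rw [if_neg]
      omega
    rw [h2, h3, add_zero]

/-- to the left of the path the parity is 0 -/
lemma KA_left {a : ℕ → ℤ × ℤ} {n : ℕ} {r : ℤ × ℤ} (h : ∀ i, i ≤ n → r.1 < (a i).1) : KA a n r = 0 := by
  unfold KA
  apply sum_eq_zero
  intro i hi
  rw [mem_range] at hi
  unfold kap
  rw [if_neg]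
  have h1 := h i (by omega)
  omega

/-- to the right of the path the parity is 1 -/
lemma KA_right {a : ℕ → ℤ × ℤ} {n : ℕ} (ha : ∀ i, i < n → Adj (a i) (a (i + 1))) {y0 y1 : ℤ}
    (ha0 : (a 0).2 ≤ y0) (han : y1 ≤ (a n).2) {r : ℤ × ℤ} (h0 : y0 < r.2) (h1 : r.2 < y1)
    (hr : r.2 % 3 = 0 ∨ r.2 % 3 = 2) (h : ∀ i, i ≤ n → (a i).1 < r.1) : KA a n r = 1 := by
  have hn : 0 < n := by
    by_contra hcon
    have : n = 0 := by omega
    subst this
    omega
  set L : ℤ := if r.2 % 3 = 0 then r.2 else r.2 - 2 with hL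
  set ψ : ℤ × ℤ → ZMod 2 := fun u => if u.2 ≤ L then 1 else 0 with hψ
  have key : ∀ i ∈ range n, kap (a i) (a (i + 1)) r = ψ (a i) + ψ (a (i + 1)) := by
    intro i hi
    rw [mem_range] at hi
    have h2 := h i (by omega)
    have h3 := ha i hi
    have h11 : (0 : ZMod 2) = 1 + 1 := by decide
    unfold Adj EE at h3
    simp only [hψ]
    unfold kap
    rcases hr with hr | hr
    · have hL' : L = r.2 := by rw [hL, if_pos hr]
      rw [hL']
      split_ifs <;> first | rfl | exact h11 | (exfalso; omega)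
    · have hL' : L = r.2 - 2 := by
        rw [hL, if_neg (by omega)]
      rw [hL']
      split_ifs <;> first | rfl | exact h11 | (exfalso; omega)
  unfold KA
  rw [sum_congr rfl key, tele (fun i => ψ (a i)) n]
  have h2 : ψ (a 0) = 1 := by
    simp only [hψ]
    rw [if_pos]
    have h3 := ha 0 hn
    unfold Adj EE at h3
    rcases hr with hr | hr
    · have hL' : L = r.2 := by rw [hL, if_pos hr]
      omega
    · have hL' : L = r.2 - 2 := by
        rw [hL, if_neg (by omega)]
      omega
  have h3 : ψ (a n) = 0 := by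
    simp only [hψ]
    rw [if_neg]
    rcases hr with hr | hr
    · have hL' : L = r.2 := by rw [hL, if_pos hr]
      omega
    · have hL' : L = r.2 - 2 := by
        rw [hL, if_neg (by omega)]
      omega
  rw [h2, h3, add_zero]

/-- **CROSSING**: a path from bottom to top and a path from left to right of a rectangle meet. -/
theorem cross_rect {a g : ℕ → ℤ × ℤ} {n m : ℕ} (ha : ∀ i, i < n → Adj (a i) (a (i + 1)))
    (hg : ∀ j, j < m → Adj (g j) (g (j + 1))) {x0 x1 y0 y1 : ℤ}
    (ha0 : (a 0).2 ≤ y0) (han : y1 ≤ (a n).2) (hax : ∀ i, i ≤ n → x0 < (a i).1 ∧ (a i).1 < x1)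
    (hg0 : (g 0).1 ≤ x0) (hgm : x1 ≤ (g m).1) (hgy : ∀ j, j ≤ m → y0 < (g j).2 ∧ (g j).2 < y1) :
    ∃ i j, i ≤ n ∧ j ≤ m ∧ a i = g j := by
  by_contra hcon
  push Not at hcon
  have hm : 0 < m := by
    by_contra h
    have h0 : m = 0 := by omega
    subst h0
    have := hax 0 (by omega)
    omega
  have hconst : ∀ j, j ≤ m → KA a n (g j) = KA a n (g 0) := by
    intro j
    induction j with
    | zero => intro _; rfl
    | succ j ih =>
      intro hj
      rw [← ih (by omega)]
      have y1' := hgy j (by omega)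
      have y2' := hgy (j + 1) hj
      rcases hg j (by omega) with h | h
      · exact (KA_adj ha ha0 han h y2'.1 y1'.2 (fun i hi => hcon i j hi (by omega))
          (fun i hi => hcon i (j + 1) hi hj)).symm
      · exact KA_adj ha ha0 han h y1'.1 y2'.2 (fun i hi => hcon i (j + 1) hi hj)
          (fun i hi => hcon i j hi (by omega))
  have h1 := hconst m le_rfl
  rw [KA_left (r := g 0) (fun i hi => by have := hax i hi; omega)] at h1
  have hgm' : (g m).2 % 3 = 0 ∨ (g m).2 % 3 = 2 := by
    have h := hg (m - 1) (by omega)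
    rw [show m - 1 + 1 = m by omega] at h
    unfold Adj EE at h
    omega
  rw [KA_right ha ha0 han (hgy m le_rfl).1 (hgy m le_rfl).2 hgm'
    (fun i hi => by have := hax i hi; omega)] at h1
  exact absurd h1 (by decide)

end SIM
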