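import Pool.Agent.SIM.CutSum
import Pool.Agent.PS.Spread

/-!
SIM: three nested bridges at a top, the displacement of the middle bridge in a set of at most M points (helper59).
-/

set_option autoImplicit false

namespace HexObs

namespace SIM

open Finset TS

open scoped ENNReal

/-- **the displacement of the middle bridge lies in one of M points** -/
theorem cut3_disp : ∃ C : ℝ, 1 ≤ C ∧ ∀ (Q : ℕ → ℕ → List Bool → Prop) (LL RR E : Set (List Bool)) (n b : ℕ)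
    (M : ℝ), MonQ Q → 1 ≤ n → 0 ≤ M → (∀ t ∈ E, Cut3 Q LL RR n (2 ^ b) t) →
    (∀ A B : List Bool, ∃ V : Set Pt, V.Finite ∧ (V.ncard : ℝ) ≤ M ∧ ∀ Z : List Bool, Z ∈ BU → n ≤ hgt Z →
      hgt Z ≤ 3 * 2 ^ b → A ++ (Z ++ B) ∈ E → Q A.length (A.length + Z.length) (A ++ (Z ++ B)) →
      vx oo up Z Z.length ∈ V) →
    gf E ≤ ENNReal.ofReal (C * (2 ^ b / (n * Ub b)) ^ 2 * (uu n / n) * M) * (gf LL * gf RR) := by
  obtain ⟨C1, hC1, h1⟩ := cut3_sum
  obtain ⟨C2, hC2, h2⟩ := PS.spread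
  refine ⟨max 1 (C1 * C2), le_max_left _ _, fun Q LL RR E n b M hQ hn hM hE hV => ?_⟩
  have hU := Ub_pos b
  have hu := uu_pos n
  have hn0 : (0 : ℝ) < n := by exact_mod_cast hn
  refine (h1 Q LL RR E n b (ENNReal.ofReal (C2 * (uu n / n) * M)) hQ hn hE fun A B => ?_).trans ?_
  · obtain ⟨V, hVf, hVc, hVZ⟩ := hV A B
    refine (gf_mono ?_).trans ((h2 n hn V hVf).trans (ENNReal.ofReal_le_ofReal ?_))
    · rintro Z ⟨⟨a1, a2, a3⟩, a4, a5⟩
      exact ⟨a1, a2, hVZ Z a1 a2 a3 a4 a5⟩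
    · exact mul_le_mul_of_nonneg_left hVc (by positivity)
  · rw [mul_comm (gf LL * gf RR), ← mul_assoc, ← ENNReal.ofReal_mul (by positivity)]
    refine mul_le_mul' (ENNReal.ofReal_le_ofReal ?_) le_rfl
    calc C1 * (2 ^ b / (n * Ub b)) ^ 2 * (C2 * (uu n / n) * M) =
        (C1 * C2) * ((2 ^ b / (n * Ub b)) ^ 2 * (uu n / n) * M) := by ring
      _ ≤ max 1 (C1 * C2) * ((2 ^ b / (n * Ub b)) ^ 2 * (uu n / n) * M) :=
        mul_le_mul_of_nonneg_right (le_max_right _ _) (by positivity)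
      _ = _ := by ring

end SIM

end HexObs
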