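import Mathlib

/-!
# Project SIM: the abstract double counting (helper65)

* `dcount`: the number of near translations is small if there are many good scales;
* `card_ball`: the number of points of `ℤ × ℤ` in a ball;
* `sum_scales`: the scales `a (s + 1) = a s + log₂ (a s) + c` have a divergent sum `∑ 1 / a s`.
-/

set_option autoImplicit false

noncomputable section

namespace SIM

open Finset

/-- **double counting over separated scales**: `V` is disjoint from `T`, and near each `v` in `V` and at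
each scale `s` there are at least `c R r` points of `T` deep inside `T` (depth `c r`) at distance at
most `R`; then `#V ∑ r / R ≤ (B / c) #T`. -/
theorem dcount {X ι : Type*} [PseudoMetricSpace X] {T V : Finset X} {S : Finset ι}
    {R r : ι → ℝ} {c B : ℝ} (hc : 0 < c) (hB : 0 ≤ B) (hR : ∀ s ∈ S, 0 < R s)
    (hball : ∀ s ∈ S, ∀ y ∈ T, (((V.filter fun v => dist y v ≤ R s).card : ℕ) : ℝ) ≤ B * R s ^ 2)
    (hVT : ∀ v ∈ V, v ∉ T)
    (hW : ∀ s ∈ S, ∀ v ∈ V, ∃ W : Finset X, W ⊆ T ∧ c * R s * r s ≤ (W.card : ℝ) ∧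
      ∀ y ∈ W, dist y v ≤ R s ∧ ∀ z, dist z y < c * r s → z ∈ T)
    (hsep : ∀ s ∈ S, ∀ s' ∈ S, s ≠ s' → R s < c * r s' ∨ R s' < c * r s) :
    (V.card : ℝ) * ∑ s ∈ S, r s / R s ≤ B / c * (T.card : ℝ) := by
  classical
  set D : ι → Finset X := fun s =>
    T.filter fun y => (∃ v ∈ V, dist y v ≤ R s) ∧ ∀ z, dist z y < c * r s → z ∈ T with hD
  have key : ∀ s ∈ S, (V.card : ℝ) * (r s / R s) ≤ B / c * ((D s).card : ℝ) := by
    intro s hs
    have h1 : (∑ v ∈ V, (((D s).filter fun y => dist y v ≤ R s).card : ℕ)) =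
        ∑ y ∈ D s, ((V.filter fun v => dist y v ≤ R s).card : ℕ) := by
      have := Finset.sum_card_bipartiteAbove_eq_sum_card_bipartiteBelow
        (s := V) (t := D s) (fun v y => dist y v ≤ R s)
      simpa [Finset.bipartiteAbove, Finset.bipartiteBelow] using this
    have h2 : (V.card : ℝ) * (c * R s * r s) ≤
        ((∑ v ∈ V, (((D s).filter fun y => dist y v ≤ R s).card : ℕ) : ℕ) : ℝ) := by
      push_cast
      rw [← nsmul_eq_mul, ← Finset.sum_const]
      refine Finset.sum_le_sum fun v hv => ?_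
      obtain ⟨W, hWT, hWc, hWd⟩ := hW s hs v hv
      refine hWc.trans ?_
      have hsub : W ⊆ (D s).filter fun y => dist y v ≤ R s := by
        intro y hy
        rw [Finset.mem_filter, hD, Finset.mem_filter]
        exact ⟨⟨hWT hy, ⟨v, hv, (hWd y hy).1⟩, (hWd y hy).2⟩, (hWd y hy).1⟩
      exact_mod_cast Finset.card_le_card hsub
    have h3 : ((∑ y ∈ D s, ((V.filter fun v => dist y v ≤ R s).card : ℕ) : ℕ) : ℝ) ≤
        ((D s).card : ℝ) * (B * R s ^ 2) := by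
      push_cast
      rw [← nsmul_eq_mul, ← Finset.sum_const]
      refine Finset.sum_le_sum fun y hy => ?_
      exact hball s hs y (Finset.mem_of_mem_filter y hy)
    have h4 : (V.card : ℝ) * (c * R s * r s) ≤ ((D s).card : ℝ) * (B * R s ^ 2) := by
      rw [h1] at h2
      exact h2.trans h3
    have hRs := hR s hs
    have e1 : (V.card : ℝ) * (c * R s * r s) = (c * R s ^ 2) * ((V.card : ℝ) * (r s / R s)) := by
      field_simp
    have e2 : ((D s).card : ℝ) * (B * R s ^ 2) = (c * R s ^ 2) * (B / c * ((D s).card : ℝ)) := by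
      field_simp
    rw [e1, e2] at h4
    exact le_of_mul_le_mul_left h4 (by positivity)
  have hdis : ∀ s ∈ S, ∀ s' ∈ S, s ≠ s' → Disjoint (D s) (D s') := by
    intro s hs s' hs' hne
    rw [Finset.disjoint_left]
    intro y hy hy'
    rw [hD] at hy hy'
    simp only [Finset.mem_filter] at hy hy'
    obtain ⟨_, ⟨v, hv, hyv⟩, hin⟩ := hy
    obtain ⟨_, ⟨v', hv', hyv'⟩, hin'⟩ := hy'
    rcases hsep s hs s' hs' hne with h | h
    · exact hVT v hv (hin' v (by rw [dist_comm]; exact lt_of_le_of_lt hyv h))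
    · exact hVT v' hv' (hin v' (by rw [dist_comm]; exact lt_of_le_of_lt hyv' h))
  have hsum : (∑ s ∈ S, ((D s).card : ℝ)) ≤ (T.card : ℝ) := by
    have h5 : (S.biUnion D).card = ∑ s ∈ S, (D s).card :=
      Finset.card_biUnion fun s hs s' hs' hne => hdis s hs s' hs' hne
    have h6 : S.biUnion D ⊆ T := by
      intro y hy
      obtain ⟨s, _, hy⟩ := Finset.mem_biUnion.1 hy
      exact Finset.mem_of_mem_filter y hy
    have h7 := Finset.card_le_card h6
    rw [h5] at h7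
    exact_mod_cast h7
  rw [Finset.mul_sum]
  calc ∑ s ∈ S, (V.card : ℝ) * (r s / R s) ≤ ∑ s ∈ S, B / c * ((D s).card : ℝ) :=
        Finset.sum_le_sum key
    _ = B / c * ∑ s ∈ S, ((D s).card : ℝ) := by rw [Finset.mul_sum]
    _ ≤ B / c * (T.card : ℝ) := mul_le_mul_of_nonneg_left hsum (by positivity)

/-- the points of `ℤ × ℤ` (sup distance) in a ball of radius `R ≥ 1`: at most `9 R ^ 2` of them in any
finite set -/
theorem card_ball (V : Finset (ℤ × ℤ)) (y : ℤ × ℤ) {R : ℝ} (hR : 1 ≤ R) :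
    (((V.filter fun v => dist y v ≤ R).card : ℕ) : ℝ) ≤ 9 * R ^ 2 := by
  classical
  have h1 : (V.filter fun v => dist y v ≤ R) ⊆
      (Finset.Icc (y.1 - ⌊R⌋) (y.1 + ⌊R⌋)) ×ˢ (Finset.Icc (y.2 - ⌊R⌋) (y.2 + ⌊R⌋)) := by
    intro v hv
    have h := (Finset.mem_filter.1 hv).2
    rw [Prod.dist_eq] at h
    have ha : |((y.1 - v.1 : ℤ) : ℝ)| ≤ R := by
      have := (le_max_left _ _).trans h
      rw [Int.dist_eq] at this
      push_cast
      exact this
    have hb : |((y.2 - v.2 : ℤ) : ℝ)| ≤ R := by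
      have := (le_max_right _ _).trans h
      rw [Int.dist_eq] at this
      push_cast
      exact this
    have ha' : |y.1 - v.1| ≤ ⌊R⌋ := Int.le_floor.2 (by rw [Int.cast_abs]; exact ha)
    have hb' : |y.2 - v.2| ≤ ⌊R⌋ := Int.le_floor.2 (by rw [Int.cast_abs]; exact hb)
    rw [abs_le] at ha' hb'
    rw [Finset.mem_product, Finset.mem_Icc, Finset.mem_Icc]
    constructor <;> constructor <;> linarith [ha'.1, ha'.2, hb'.1, hb'.2]
  have hf : (0 : ℤ) ≤ ⌊R⌋ := Int.floor_nonneg.2 (by linarith)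
  have h2 := Finset.card_le_card h1
  rw [Finset.card_product, Int.card_Icc, Int.card_Icc] at h2
  have e1 : (y.1 + ⌊R⌋ + 1 - (y.1 - ⌊R⌋)) = 2 * ⌊R⌋ + 1 := by ring
  have e2 : (y.2 + ⌊R⌋ + 1 - (y.2 - ⌊R⌋)) = 2 * ⌊R⌋ + 1 := by ring
  rw [e1, e2] at h2
  have h3 : (((2 * ⌊R⌋ + 1).toNat : ℕ) : ℝ) ≤ 3 * R := by
    have h4 : (((2 * ⌊R⌋ + 1).toNat : ℕ) : ℤ) = 2 * ⌊R⌋ + 1 := Int.toNat_of_nonneg (by linarith)
    have h5 : (((2 * ⌊R⌋ + 1).toNat : ℕ) : ℝ) = ((2 * ⌊R⌋ + 1 : ℤ) : ℝ) := by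
      have h8 := congrArg (fun z : ℤ => (z : ℝ)) h4
      simpa only [Int.cast_natCast] using h8
    rw [h5]
    push_cast
    linarith [Int.floor_le R]
  have h6 : (((V.filter fun v => dist y v ≤ R).card : ℕ) : ℝ) ≤
      (((2 * ⌊R⌋ + 1).toNat : ℕ) : ℝ) * (((2 * ⌊R⌋ + 1).toNat : ℕ) : ℝ) := by
    exact_mod_cast h2
  have h7 : (0 : ℝ) ≤ (((2 * ⌊R⌋ + 1).toNat : ℕ) : ℝ) := Nat.cast_nonneg _
  nlinarith [h6, h3, h7]

/-- the form in `ℤ × ℤ` -/
theorem dcountZ {ι : Type*} {T V : Finset (ℤ × ℤ)} {S : Finset ι} {R r : ι → ℝ} {c : ℝ}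
    (hc : 0 < c) (hR : ∀ s ∈ S, 1 ≤ R s) (hVT : ∀ v ∈ V, v ∉ T)
    (hW : ∀ s ∈ S, ∀ v ∈ V, ∃ W : Finset (ℤ × ℤ), W ⊆ T ∧ c * R s * r s ≤ (W.card : ℝ) ∧
      ∀ y ∈ W, dist y v ≤ R s ∧ ∀ z, dist z y < c * r s → z ∈ T)
    (hsep : ∀ s ∈ S, ∀ s' ∈ S, s ≠ s' → R s < c * r s' ∨ R s' < c * r s) :
    (V.card : ℝ) * ∑ s ∈ S, r s / R s ≤ 9 / c * (T.card : ℝ) :=
  dcount hc (by norm_num) (fun s hs => by linarith [hR s hs])
    (fun s hs y _ => card_ball V y (hR s hs)) hVT hW hsep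

/-! ### the scales -/

/-- one step: `log (log (x + d) + c) - log (log x + c) ≤ 2 / x` if `d ≤ log₂ x + c` -/
theorem step_le {x d c : ℕ} (hx : 1 ≤ x) (hc : 1 ≤ c) (hd : d ≤ Nat.log 2 x + c) :
    Real.log (Real.log ((x + d : ℕ) : ℝ) + c) - Real.log (Real.log (x : ℝ) + c) ≤ 2 / (x : ℝ) := by
  have hx' : (1 : ℝ) ≤ (x : ℝ) := by exact_mod_cast hx
  have hc' : (1 : ℝ) ≤ (c : ℝ) := by exact_mod_cast hc
  have hlx : 0 ≤ Real.log (x : ℝ) := Real.log_nonneg hx'
  have hA : 0 < Real.log (x : ℝ) + c := by linarith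
  have hlog : Real.log ((x + d : ℕ) : ℝ) - Real.log (x : ℝ) ≤ (d : ℝ) / x := by
    push_cast
    rw [← Real.log_div (by positivity) (by positivity)]
    have e : ((x : ℝ) + d) / x = 1 + (d : ℝ) / x := by field_simp
    rw [e]
    have := Real.log_le_sub_one_of_pos (show (0 : ℝ) < 1 + (d : ℝ) / x by positivity)
    linarith
  have hmono : Real.log (x : ℝ) ≤ Real.log ((x + d : ℕ) : ℝ) :=
    Real.log_le_log (by positivity) (by push_cast; linarith [Nat.cast_nonneg (α := ℝ) d])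
  have hB : 0 < Real.log ((x + d : ℕ) : ℝ) + c := by linarith
  have h1 : Real.log (Real.log ((x + d : ℕ) : ℝ) + c) - Real.log (Real.log (x : ℝ) + c) ≤
      (Real.log ((x + d : ℕ) : ℝ) - Real.log (x : ℝ)) / (Real.log (x : ℝ) + c) := by
    rw [← Real.log_div hB.ne' hA.ne']
    have h2 := Real.log_le_sub_one_of_pos (div_pos hB hA)
    refine h2.trans (le_of_eq ?_)
    field_simp
    ring
  refine h1.trans ?_
  rw [div_le_div_iff₀ hA (by positivity)]
  have hd' : (d : ℝ) ≤ 2 * (Real.log (x : ℝ) + c) := by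
    have h3 : (d : ℝ) ≤ (Nat.log 2 x : ℝ) + c := by exact_mod_cast hd
    have h4 : (Nat.log 2 x : ℝ) * Real.log 2 ≤ Real.log (x : ℝ) := by
      rw [← Real.log_pow]
      refine Real.log_le_log (by positivity) ?_
      exact_mod_cast Nat.pow_log_le_self 2 (by omega)
    have h5 : (1 : ℝ) / 2 ≤ Real.log 2 := by linarith [Real.log_two_gt_d9]
    have h6 : (Nat.log 2 x : ℝ) * (1 / 2) ≤ (Nat.log 2 x : ℝ) * Real.log 2 :=
      mul_le_mul_of_nonneg_left h5 (Nat.cast_nonneg _)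
    linarith
  have h7 : (Real.log ((x + d : ℕ) : ℝ) - Real.log (x : ℝ)) * (x : ℝ) ≤ d := by
    have := mul_le_mul_of_nonneg_right hlog (show (0 : ℝ) ≤ (x : ℝ) by positivity)
    rwa [div_mul_cancel₀ _ (by positivity)] at this
  linarith

/-- **the scales**: if `a (s + 1) ≤ a s + log₂ (a s) + c` and `a` is unbounded then
`2 ∑_{s < n} 1 / a s ≥ log (log (a n) + c) - log (log (a 0) + c)` -/
theorem sum_ge {a : ℕ → ℕ} {c : ℕ} (hc : 1 ≤ c) (h0 : ∀ s, 1 ≤ a s) (hmono : ∀ s, a s ≤ a (s + 1))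
    (ha : ∀ s, a (s + 1) ≤ a s + Nat.log 2 (a s) + c) (n : ℕ) :
    Real.log (Real.log (a n : ℝ) + c) - Real.log (Real.log (a 0 : ℝ) + c) ≤
      2 * ∑ s ∈ range n, 1 / (a s : ℝ) := by
  induction n with
  | zero => simp
  | succ n ih =>
    obtain ⟨d, hd⟩ := Nat.exists_eq_add_of_le (hmono n)
    have h1 := step_le (x := a n) (d := d) (h0 n) hc (by have := ha n; omega)
    rw [← hd] at h1
    rw [sum_range_succ]
    have h2 : 2 / (a n : ℝ) = 2 * (1 / (a n : ℝ)) := by ring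
    rw [h2] at h1
    linarith

/-- **the sum over the scales diverges** -/
theorem sum_scales {a : ℕ → ℕ} {c : ℕ} (hc : 1 ≤ c) (h0 : ∀ s, 1 ≤ a s)
    (hmono : ∀ s, a s < a (s + 1)) (ha : ∀ s, a (s + 1) ≤ a s + Nat.log 2 (a s) + c) (M : ℝ) :
    ∃ n0 : ℕ, ∀ n, n0 ≤ n → M ≤ ∑ s ∈ range n, 1 / (a s : ℝ) := by
  have hge : ∀ n, n + 1 ≤ a n := by
    intro n
    induction n with
    | zero => exact h0 0
    | succ n ih => have := hmono n; omega
  have t1 : Filter.Tendsto (fun n : ℕ => Real.log (Real.log (a n : ℝ) + c)) Filter.atTop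
      Filter.atTop := by
    refine Real.tendsto_log_atTop.comp ?_
    refine Filter.tendsto_atTop_add_const_right _ _ ?_
    refine Real.tendsto_log_atTop.comp ?_
    refine tendsto_natCast_atTop_atTop.comp ?_
    exact Filter.tendsto_atTop_mono (fun n => (Nat.le_succ n).trans (hge n)) Filter.tendsto_id
  obtain ⟨n0, hn0⟩ := Filter.eventually_atTop.1
    (t1.eventually_ge_atTop (2 * M + Real.log (Real.log (a 0 : ℝ) + c)))
  refine ⟨n0, fun n hn => ?_⟩
  have h1 := hn0 n hn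
  have h2 := sum_ge hc h0 (fun s => (hmono s).le) ha n
  linarith

/-- the sequence of the scales exists: `a 0 = A`, `a (s + 1) = a s + log₂ (a s) + c` -/
def scl (A c : ℕ) : ℕ → ℕ
  | 0 => A
  | s + 1 => scl A c s + Nat.log 2 (scl A c s) + c

theorem scl_zero (A c : ℕ) : scl A c 0 = A := rfl

theorem scl_succ (A c s : ℕ) : scl A c (s + 1) = scl A c s + Nat.log 2 (scl A c s) + c := rfl

theorem scl_lt {A c : ℕ} (hc : 1 ≤ c) (s : ℕ) : scl A c s < scl A c (s + 1) := by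
  rw [scl_succ]
  omega

theorem scl_ge {A c : ℕ} (s : ℕ) : A ≤ scl A c s := by
  induction s with
  | zero => exact le_rfl
  | succ s ih => rw [scl_succ]; omega

/-- divergence for `scl` -/
theorem sum_scl {A c : ℕ} (hA : 1 ≤ A) (hc : 1 ≤ c) (M : ℝ) :
    ∃ n0 : ℕ, ∀ n, n0 ≤ n → M ≤ ∑ s ∈ range n, 1 / (scl A c s : ℝ) :=
  sum_scales hc (fun s => hA.trans (scl_ge s)) (scl_lt hc) (fun s => (scl_succ A c s).le) M

end SIM

end
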