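import Pool.Agent.EN.EspA

/-!
SIM, exactly n letters: the runs of R with J leaves of a bounded height before or behind them.
-/

set_option autoImplicit false

namespace HexObs

namespace SIM

open Finset TS SDN NTW NTA

open scoped ENNReal

/-- runs of R with J leaves (heights at most N) before or behind them -/
def Adj (kc N J : ℕ) (R : Set (List (List Bool))) : Set (List (List Bool)) :=
  EN.AppR (EN.RJ kc N J) R ∪ EN.AppR R (EN.RJ kc N J)

/-- the event theorem at exactly n letters for the classes Adj, three directions -/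
def EvAX (m : ℕ → ℝ) : Prop := ∃ (C : ℝ) (k0 J1 : ℕ), 1 ≤ C ∧ 1 ≤ J1 ∧
  ∀ (d : Fin 3) (kc J n : ℕ) (R : Set (List (List Bool))) (δ : ℝ), k0 ≤ kc → 6 ≤ J → 0 < δ → EN.InH (2 ^ (kc + 4)) R →
    SmR DmJ kc R δ → gf {t | t.length = n ∧ t ∈ WL (kc + J) ∧ EN.HR d kc (Adj kc (2 ^ (kc + J + 3)) J1 R) t} ≤
      ENNReal.ofReal (C ^ J * δ * (Ub (kc + J) / m kc)) * Xb (kc + J) ^ 2

lemma Adj.mono {kc N J : ℕ} {R R' : Set (List (List Bool))} (h : R ⊆ R') : Adj kc N J R ⊆ Adj kc N J R' := by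
  rintro gs (⟨a, ha, b, hb, h1, h2, rfl⟩ | ⟨a, ha, b, hb, h1, h2, rfl⟩)
  · exact Or.inl ⟨a, ha, b, h hb, h1, h2, rfl⟩
  · exact Or.inr ⟨a, h ha, b, hb, h1, h2, rfl⟩

lemma hr_mono {d : Fin 3} {kc : ℕ} {R R' : Set (List (List Bool))} {t : List Bool} (h : R ⊆ R') (ht : EN.HR d kc R t) :
    EN.HR d kc R' t := by
  obtain ⟨m, u, e, h1, l, c, h2, h3, h4, h5⟩ := ht
  exact ⟨m, u, e, h1, l, c, h2, h3, h4, h h5⟩

end SIM

end HexObs
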