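import Pool.Agent.SIM.FinC
import Pool.Agent.DIM.FinAllX

/-!
# SIM/FinD: for a set of step numbers of density 1 - ε, every weak limit of X_n is a simple curve (helper5)

* `simC_M` : near touches have little mass, cumulative, no hypothesis;
* `dens_M` : near touches are unlikely for the `n` of a set `A` of density at least `1 - ε`;
* **`simple_dens`** : the statement, no hypothesis.
-/

set_option autoImplicit false

open MeasureTheory Filter Topology HexObs HexObs.NTW HexObs.EN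

namespace HexObs

namespace SIM

open Pool.Agent.NTS.Res

open Pool.Agent.DIM.Res (Content)

open scoped ENNReal Classical

theorem simC_M : SimC (fun k => PW.mZ (2 ^ k)) := simC_of asm_M

theorem dens_M {ε : ℝ} (hε : 0 < ε) : ∃ A : Set ℕ,
    (∃ N0 : ℕ, ∀ N : ℕ, N0 ≤ N → (((Finset.range N).filter fun n => n ∉ A).card : ℝ) ≤ ε * N) ∧ SimA A ∧ DIM.LawSim A :=
  dens_of (VF.mLow VF.sharpZ) (let ⟨C, _, h⟩ := VF.mUp VF.sharpZ; ⟨C, h⟩) factsX_M simC_M hε

/-- **simple weak limits, for a set of step numbers of density `1 - ε`** -/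
theorem simple_dens {ε : ℝ} (hε : 0 < ε) : ∃ A : Set ℕ,
    (∃ N0 : ℕ, ∀ N : ℕ, N0 ≤ N → (((Finset.range N).filter fun n => n ∉ A).card : ℝ) ≤ ε * N) ∧
    (∀ φ : ℕ → ℕ, StrictMono φ → ∃ ψ : ℕ → ℕ, StrictMono ψ ∧ ∃ ν : Measure C(unitInterval, ℂ),
      IsProbabilityMeasure ν ∧ LawTo (fun k => φ (ψ k)) ν) ∧
    ∀ (φ : ℕ → ℕ) (ν : Measure C(unitInterval, ℂ)), Tendsto φ atTop atTop → (∀ k, φ k ∈ A) → IsProbabilityMeasure ν →
      LawTo φ ν → ∀ᵐ γ : C(unitInterval, ℂ) ∂ν, Function.Injective γ ∧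
        (∀ e : ℝ, 0 < e → ∃ c : ℝ, 0 < c ∧ ∀ ρ : ℝ, 0 < ρ → Content γ e c ρ) ∧
        ∀ u v : unitInterval, u < v → dimH (γ '' Set.Icc u v) = 4 / 3 := by
  obtain ⟨A, hA, -, hS⟩ := dens_M hε
  obtain ⟨-, h2, h3⟩ := DIM.dim_final
  refine ⟨A, hA, h2, fun φ ν hφ hφA hν hlim => ?_⟩
  filter_upwards [h3 φ ν hφ hν hlim, DIM.sim_lim hS hφ hφA hν hlim] with γ hγ hs
  exact ⟨DIM.injective_of hs hγ.2, hγ⟩

end SIM

end HexObs
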