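import Pool.Agent.DIM.FinN
import Pool.Agent.SIM.LawS

/-!
# SIM/FinS: the statement of LimitSimple from its inputs (helper62)

* **`simple_res`** : no macroscopic near double points of X_n for large n; limits exist along subsequences; every weak limit
  is almost surely a simple curve.
-/

set_option autoImplicit false

namespace HexObs

namespace SIM

open MeasureTheory Set Metric Filter Topology

open Pool.Agent.NTS.Res

open DIM (LawLowN)

open scoped ENNReal Classical

/-- **the statement of the hand-in LimitSimple** -/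
theorem simple_res {b : Prop} (hE : NTSF.ConclE b) (hL : ∀ e : ℝ, 0 < e → e ≤ 4 / 3 → LawLowN (4 / 3 - e))
    (hS : LawSim) :
    (∀ η ε : ℝ, 0 < η → 0 < ε → ∃ (δ : ℝ) (n0 : ℕ), 0 < δ ∧ ∀ n : ℕ, n0 ≤ n →
      law n {γ : C(unitInterval, ℂ) | ∃ u w v : unitInterval, u ≤ w ∧ w ≤ v ∧ η < dist (γ w) (γ u) ∧
        dist (γ v) (γ u) < δ} ≤ ENNReal.ofReal ε) ∧
    (∀ φ : ℕ → ℕ, StrictMono φ → ∃ ψ : ℕ → ℕ, StrictMono ψ ∧ ∃ ν : Measure C(unitInterval, ℂ),
      IsProbabilityMeasure ν ∧ LawTo (fun k => φ (ψ k)) ν) ∧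
    ∀ (φ : ℕ → ℕ) (ν : Measure C(unitInterval, ℂ)), Tendsto φ atTop atTop → IsProbabilityMeasure ν → LawTo φ ν →
      ∀ᵐ γ : C(unitInterval, ℂ) ∂ν, Function.Injective γ := by
  obtain ⟨-, h2, h3⟩ := DIM.dim_result hE hL
  refine ⟨hS, h2, fun φ ν hφ hν hlim => ?_⟩
  filter_upwards [h3 φ ν hφ hν hlim, pinch_lim hS hφ hν hlim] with γ hγ hp
  have key : ∀ s t : unitInterval, s < t → γ s ≠ γ t := by
    intro s t hst heq
    have h1 : γ '' Icc s t ⊆ {γ s} := by
      rintro _ ⟨w, hw, rfl⟩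
      exact hp s w t hw.1 hw.2 heq.symm
    have h4 := dimH_mono h1
    rw [hγ.2 s t hst, dimH_singleton] at h4
    norm_num at h4
  intro s t heq
  rcases lt_trichotomy s t with h1 | h1 | h1
  · exact absurd heq (key s t h1)
  · exact h1
  · exact absurd heq.symm (key t s h1)

end SIM

end HexObs
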