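import Pool.Agent.SIM.VWord
import Pool.Agent.SIM.CutSum
import Pool.Agent.SIM.Cut1Sum
import Pool.Agent.SIM.HalfW
import Pool.Agent.SIM.FirstL
import Pool.Agent.SIM.MidM
import Pool.Agent.EN.EspB
import Pool.Agent.NTA.XDbl
import Pool.Agent.SDN.DimLaw

/-!
# SIM (no double points), exactly n letters: the mass of the words with a cut before a near touch (helper69)

* `last_rj`: half words whose last `J1` leaves are arbitrary, exactly `l` letters;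
* **`mass_X`**: one cut, then three nested bridges with a near pair.
-/

set_option autoImplicit false

namespace HexObs

namespace SIM

open Finset TS SDN NTW NTA

open scoped ENNReal

/-- half words with `J1` leaves at the end, exactly `l` letters -/
theorem last_rj {m : ℕ → ℝ} (hm : ∀ k, 0 < m k) (hG : EN.GBU m) : ∃ (J1 : ℕ) (C : ℝ) (k0 : ℕ), 1 ≤ J1 ∧ 1 ≤ C ∧
    ∀ k J l : ℕ, k0 ≤ k → 6 ≤ J → gf {L | L.length = l ∧ L ∈ LastR k J (EN.RJ k (2 ^ (k + J + 2)) J1)} ≤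
      ENNReal.ofReal (C ^ J * (Ub (k + J) / m k)) * Xb (k + J) := by
  obtain ⟨J0, C, k0, hC, hG⟩ := hG
  obtain ⟨K, hK, hbox⟩ := EN.smD_box
  obtain ⟨C1, k1, hC1, hlx⟩ := half_lx
  have hC0 : 0 < C := by linarith
  have hC10 : 0 < C1 := by linarith
  have hK0 : 0 < K := by linarith
  obtain ⟨E, hE⟩ : ∃ E : ℝ, E = (4 * K) ^ (J0 + 2) * C := ⟨_, rfl⟩
  have hE1 : 1 ≤ E := by
    rw [hE]
    exact one_le_mul_of_one_le_of_one_le (one_le_pow₀ (by linarith)) hC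
  obtain ⟨Y, hY⟩ : ∃ Y : ℝ, Y = C1 * 2 ^ (J0 + 2) * C := ⟨_, rfl⟩
  have hY1 : 1 ≤ Y := by
    rw [hY]
    exact one_le_mul_of_one_le_of_one_le (one_le_mul_of_one_le_of_one_le hC1 (one_le_pow₀ (by norm_num))) hC
  refine ⟨J0 + 2, E * Y, max k0 k1, by omega, one_le_mul_of_one_le_of_one_le hE1 hY1, fun k J l hk hJ => ?_⟩
  have hmk := hm k
  have hU := TS.Ub_pos (k + J)
  have hX := (EN.smRX_RJ hG hK hbox (s := k) (mu := J) (n := 0) (H := 0) (ε := K * 2 ^ J)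
    ((le_max_left _ _).trans hk) (by positivity) (QF.SmD_mono (fun g hg => hg.1) (hbox k J))).1
  obtain ⟨δ, hδ⟩ : ∃ δ : ℝ, δ = (4 * (K * 2 ^ J)) ^ (J0 + 2) * (C ^ (J + 1) / m k) := ⟨_, rfl⟩
  rw [← hδ] at hX
  have hδ0 : 0 < δ := by
    rw [hδ]
    positivity
  refine (hlx k J l _ δ ((le_max_right _ _).trans hk) hJ hδ0 hX).trans ?_
  refine mul_le_mul_left (ENNReal.ofReal_le_ofReal ?_) _
  have e1 : C1 ^ J * δ * Ub (k + J) = E * Y ^ J * (Ub (k + J) / m k) := by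
    rw [hδ, hE, hY, show 4 * (K * (2 : ℝ) ^ J) = 4 * K * 2 ^ J by ring, mul_pow (4 * K), ← pow_mul,
      mul_pow (C1 * 2 ^ (J0 + 2)), mul_pow C1, ← pow_mul 2 (J0 + 2) J, mul_comm (J0 + 2) J]
    ring
  rw [e1]
  refine mul_le_mul_of_nonneg_right ?_ (by positivity)
  rw [mul_pow]
  refine mul_le_mul_of_nonneg_right ?_ (by positivity)
  calc E = E ^ 1 := by rw [pow_one]
    _ ≤ E ^ J := pow_le_pow_right₀ hE1 (by omega)

lemma mUp_pow {m : ℕ → ℝ} {C : ℝ} (hC : 1 ≤ C) (h : ∀ k, m (k + 1) ≤ C * m k) (k i : ℕ) : m (k + i) ≤ C ^ i * m k := by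
  induction i with
  | zero => simp
  | succ i ih =>
    calc m (k + (i + 1)) = m (k + i + 1) := by rw [add_assoc]
      _ ≤ C * m (k + i) := h _
      _ ≤ C * (C ^ i * m k) := mul_le_mul_of_nonneg_left ih (by linarith)
      _ = C ^ (i + 1) * m k := by ring

/-- **one cut, then three nested bridges with a near pair** -/
theorem mass_X {m : ℕ → ℝ} (hm : ∀ k, 0 < m k) (hMU : MUp m) (hG : EN.GBU m) : ∃ J1 : ℕ, 1 ≤ J1 ∧
    ∀ J D D' : ℕ, 6 ≤ J → D < D' → ∃ (A : ℝ) (k0 : ℕ), 1 ≤ A ∧ ∀ (k S d nl : ℕ) (ρ R : ℕ → ℕ) (E : Set (List Bool)),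
      k0 ≤ k → (∀ s, s < S → 64 ≤ ρ s ∧ 320 * ρ s ≤ R s ∧ d ≤ R s ∧ R s ≤ 2 ^ (k + J + 3 + 4)) →
      (∀ s, s + 1 < S → 80 * R (s + 1) ≤ ρ s) → 0 < ∑ s ∈ range S, (ρ s : ℝ) / R s →
      (∀ t ∈ E, Cut1 (LastR k (J + 2) (EN.RJ k (2 ^ (k + J + 4)) J1)) {s | s ∈ WL (k + J + 3) ∧
          Cut3 (NearQ S d ρ R) (TwoF (k + 2 - D') (k + J + 3)) (FirstF (k + 2 - D') (k + J + 3)) (2 ^ (k + 1 - D))
            (2 ^ (k + 1)) s} (2 ^ (k + 1 - D)) (2 ^ (k + 1)) t ∧ t.length = nl) →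
      gf E ≤ ENNReal.ofReal (A / (∑ s ∈ range S, (ρ s : ℝ) / R s) * (Ub (k + J + 2) / m (k + J + 2))) *
        Xb (k + J + 2) ^ 2 := by
  obtain ⟨J1, C2, k2, hJ1, hC2, hlast⟩ := last_rj hm hG
  obtain ⟨Cm, hCm, hMU⟩ := hMU
  refine ⟨J1, hJ1, fun J D D' hJ hDD => ?_⟩
  obtain ⟨C1, hC1, hx⟩ := xbound
  obtain ⟨C3, hC3, hcut⟩ := cut3_sum
  obtain ⟨C4, k4, hC4, hmid⟩ := mid_mass
  obtain ⟨C5, k5, hC5, hfirst⟩ := half_first
  obtain ⟨C6, hC6, hcut1⟩ := cut1_exact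
  obtain ⟨Cx, hCx, hX⟩ := xDbl
  obtain ⟨B, hB⟩ : ∃ B : ℝ, B = (C3 * 4 ^ D * 4 ^ (J + 2)) * C4 ^ (J + D' + 6) * C5 ^ (J + D' + 6) *
    (C1 * 4 ^ (J + D + 2)) := ⟨_, rfl⟩
  have hB0 : 0 < B := by rw [hB]; positivity
  obtain ⟨A, hA⟩ : ∃ A : ℝ, A = C6 * (2 ^ D * 2 ^ (J + 2)) * (C2 ^ (J + 2) * Cm ^ (J + 2)) * Cx * B := ⟨_, rfl⟩
  have hA0 : 0 < A := by rw [hA]; positivity
  refine ⟨max A 1, k2 + k4 + k5 + D' + 7, le_max_right _ _, fun k S d nl ρ R E hk hS hR hsum hE => ?_⟩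
  obtain ⟨Sg, hSg⟩ : ∃ Sg : ℝ, Sg = ∑ s ∈ range S, (ρ s : ℝ) / R s := ⟨_, rfl⟩
  rw [← hSg] at hsum ⊢
  obtain ⟨n, hn⟩ : ∃ n : ℕ, n = 2 ^ (k + 1 - D) := ⟨_, rfl⟩
  have hn1 : 1 ≤ n := by rw [hn]; exact Nat.one_le_two_pow
  have hn0 : (0 : ℝ) < n := by exact_mod_cast hn1
  have hU := TS.Ub_pos (k + J + 3)
  have hU2 := TS.Ub_pos (k + J + 2)
  have hUc := TS.Ub_pos (k + 1)
  have hmk := hm k
  have hmK := hm (k + J + 2)
  have hnr : (n : ℝ) = 2 ^ (k + 1 - D) := by rw [hn]; push_cast; rfl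
  have hn2 : (2 : ℝ) ^ (k + 1) = n * 2 ^ D := by
    rw [hnr, ← pow_add]
    congr 1
    omega
  have hUr : Ub (k + J + 3) ≤ 2 ^ (J + 2) * Ub (k + 1) := by
    have := DL.Ub_add (k + 1) (J + 2)
    rwa [show k + 1 + (J + 2) = k + J + 3 by ring] at this
  have hratio : (2 ^ (k + 1) / (n * Ub (k + 1)) : ℝ) ≤ 2 ^ D * 2 ^ (J + 2) / Ub (k + J + 3) := by
    have h2 : (2 ^ (k + 1) / (n * Ub (k + 1)) : ℝ) = 2 ^ D / Ub (k + 1) := by
      rw [hn2]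
      field_simp
    rw [h2, div_le_div_iff₀ hUc hU]
    calc (2 : ℝ) ^ D * Ub (k + J + 3) ≤ 2 ^ D * (2 ^ (J + 2) * Ub (k + 1)) := mul_le_mul_of_nonneg_left hUr (by positivity)
      _ = _ := by ring
  have hratio0 : (0 : ℝ) ≤ 2 ^ (k + 1) / (n * Ub (k + 1)) := by positivity
  obtain ⟨W, hW⟩ : ∃ W : Set (List Bool), W = {s | s ∈ WL (k + J + 3) ∧
      Cut3 (NearQ S d ρ R) (TwoF (k + 2 - D') (k + J + 3)) (FirstF (k + 2 - D') (k + J + 3)) (2 ^ (k + 1 - D))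
        (2 ^ (k + 1)) s} := ⟨_, rfl⟩
  rw [← hW] at hE
  -- the rests
  have hgW : gf W ≤ ENNReal.ofReal (B / Sg * Ub (k + J + 3)) * Xb (k + J + 3) := by
    have h1 := hcut (NearQ S d ρ R) (TwoF (k + 2 - D') (k + J + 3)) (FirstF (k + 2 - D') (k + J + 3)) W n (k + 1)
      (ENNReal.ofReal (C1 * 4 ^ (k + J + 3) * (UU n / n ^ 2) / Sg))
      (fun t n1 n2 n1' n2' a1 a2 a3 => NearQ_mono t n1 n2 n1' n2' a1 a2 a3) hn1
      (by rw [hn, hW]; exact fun t ht => ht.2) ?_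
    swap
    · intro P Q
      rw [hSg]
      refine (gf_mono ?_).trans (hx P Q n (k + J + 3) S d ρ R hn1 hS hR (by rw [← hSg]; exact hsum))
      rintro Z ⟨⟨z1, z2, -⟩, z3, z4⟩
      rw [hW] at z3
      exact ⟨z1, z2, z3.1, z4⟩
    have hT := hmid (k - D' - 3) (J + D' + 6) (by omega) (by omega)
    rw [show k - D' - 3 + 5 = k + 2 - D' by omega, show k - D' - 3 + (J + D' + 6) = k + J + 3 by omega] at hT
    have hF := hfirst (k - D' - 3) (J + D' + 6) (by omega) (by omega)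
    rw [show k - D' - 3 + 5 = k + 2 - D' by omega, show k - D' - 3 + (J + D' + 6) = k + J + 3 by omega] at hF
    refine h1.trans ((mul_le_mul' le_rfl (mul_le_mul' (mul_le_mul' hT hF) le_rfl)).trans ?_)
    have hUn : UU n ≤ Ub (k + J + 3) := by
      rw [hn]
      exact Num2Aux.UU_mono (Nat.pow_le_pow_right (by norm_num) (by omega))
    have hUn0 := Num2Aux.UU_pos n
    have key : ∀ (x y z w : ℝ) (X : ℝ≥0∞), 0 ≤ x → 0 ≤ y → 0 ≤ z → ENNReal.ofReal x * (ENNReal.ofReal y *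
        (ENNReal.ofReal z * X) * ENNReal.ofReal w) = ENNReal.ofReal (x * y * z * w) * X := by
      intro x y z w X hx0 hy0 hz0
      rw [ENNReal.ofReal_mul (mul_nonneg (mul_nonneg hx0 hy0) hz0), ENNReal.ofReal_mul (mul_nonneg hx0 hy0),
        ENNReal.ofReal_mul hx0]
      ring
    rw [key _ _ _ _ _ (by positivity) (by positivity) (by positivity)]
    refine mul_le_mul_left (ENNReal.ofReal_le_ofReal ?_) _
    have hn4 : (4 : ℝ) ^ (k + J + 3) = n ^ 2 * 4 ^ (J + D + 2) := by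
      have h2 : (4 : ℝ) ^ (k + J + 3) = ((2 : ℝ) ^ (k + 1)) ^ 2 * 4 ^ (J + 2) := by
        rw [← pow_mul, mul_comm (k + 1) 2, pow_mul, show (2 : ℝ) ^ 2 = 4 by norm_num, ← pow_add]
        congr 1
        ring
      have h3 : ((2 : ℝ) ^ D) ^ 2 = 4 ^ D := by rw [← pow_mul, mul_comm D 2, pow_mul]; norm_num
      rw [h2, hn2, mul_pow, h3, show J + D + 2 = D + (J + 2) by ring, pow_add 4 D]
      ring
    have f1 : C3 * (2 ^ (k + 1) / (n * Ub (k + 1))) ^ 2 ≤ C3 * 4 ^ D * 4 ^ (J + 2) / Ub (k + J + 3) ^ 2 := by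
      have h2 := pow_le_pow_left₀ hratio0 hratio 2
      have h3 : ((2 : ℝ) ^ D * 2 ^ (J + 2) / Ub (k + J + 3)) ^ 2 = 4 ^ D * 4 ^ (J + 2) / Ub (k + J + 3) ^ 2 := by
        rw [div_pow, mul_pow, ← pow_mul, ← pow_mul, mul_comm D 2, mul_comm (J + 2) 2, pow_mul, pow_mul]
        norm_num
      rw [h3] at h2
      calc C3 * (2 ^ (k + 1) / (n * Ub (k + 1))) ^ 2 ≤ C3 * (4 ^ D * 4 ^ (J + 2) / Ub (k + J + 3) ^ 2) :=
            mul_le_mul_of_nonneg_left h2 (by positivity)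
        _ = _ := by ring
    have f2 : C1 * 4 ^ (k + J + 3) * (UU n / n ^ 2) / Sg ≤ C1 * 4 ^ (J + D + 2) * Ub (k + J + 3) / Sg := by
      rw [hn4]
      refine div_le_div_of_nonneg_right ?_ hsum.le
      calc C1 * (n ^ 2 * 4 ^ (J + D + 2)) * (UU n / n ^ 2) = C1 * 4 ^ (J + D + 2) * UU n := by field_simp
        _ ≤ _ := mul_le_mul_of_nonneg_left hUn (by positivity)
    calc C3 * (2 ^ (k + 1) / (n * Ub (k + 1))) ^ 2 * (C4 ^ (J + D' + 6) * Ub (k + J + 3)) *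
          (C5 ^ (J + D' + 6) * Ub (k + J + 3)) * (C1 * 4 ^ (k + J + 3) * (UU n / n ^ 2) / Sg)
        ≤ (C3 * 4 ^ D * 4 ^ (J + 2) / Ub (k + J + 3) ^ 2) * (C4 ^ (J + D' + 6) * Ub (k + J + 3)) *
          (C5 ^ (J + D' + 6) * Ub (k + J + 3)) * (C1 * 4 ^ (J + D + 2) * Ub (k + J + 3) / Sg) := by
          have g2 : 0 ≤ C4 ^ (J + D' + 6) * Ub (k + J + 3) := by positivity
          have g3 : 0 ≤ C5 ^ (J + D' + 6) * Ub (k + J + 3) := by positivity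
          have g4 : 0 ≤ C1 * 4 ^ (k + J + 3) * (UU n / n ^ 2) / Sg := by positivity
          exact mul_le_mul (mul_le_mul_of_nonneg_right (mul_le_mul_of_nonneg_right f1 g2) g3) f2 g4 (by positivity)
      _ = B / Sg * Ub (k + J + 3) := by
          rw [hB]
          field_simp
  -- the cut
  have h1 := hcut1 (LastR k (J + 2) (EN.RJ k (2 ^ (k + J + 4)) J1)) W E n (k + 1) nl
    (ENNReal.ofReal (C2 ^ (J + 2) * (Ub (k + J + 2) / m k)) * Xb (k + J + 2)) hn1 (by rw [hn]; exact hE) ?_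
  swap
  · intro l
    have := hlast k (J + 2) l (by omega) (by omega)
    rwa [show k + (J + 2) + 2 = k + J + 4 by ring, show k + (J + 2) = k + J + 2 by ring] at this
  have hX3 : Xb (k + J + 3) ≤ ENNReal.ofReal Cx * Xb (k + J + 2) := hX (k + J + 2)
  refine h1.trans ((mul_le_mul' le_rfl (mul_le_mul' le_rfl (hgW.trans (mul_le_mul' le_rfl hX3)))).trans ?_)
  have key : ∀ (x y z w : ℝ) (X : ℝ≥0∞), 0 ≤ x → 0 ≤ y → 0 ≤ z → ENNReal.ofReal x * (ENNReal.ofReal y * X *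
      (ENNReal.ofReal z * (ENNReal.ofReal w * X))) = ENNReal.ofReal (x * y * z * w) * X ^ 2 := by
    intro x y z w X hx0 hy0 hz0
    rw [ENNReal.ofReal_mul (mul_nonneg (mul_nonneg hx0 hy0) hz0), ENNReal.ofReal_mul (mul_nonneg hx0 hy0),
      ENNReal.ofReal_mul hx0]
    ring
  rw [key _ _ _ _ _ (by positivity) (by positivity) (by positivity)]
  refine mul_le_mul_left (ENNReal.ofReal_le_ofReal ?_) _
  have hmm : 1 / m k ≤ Cm ^ (J + 2) / m (k + J + 2) := by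
    rw [div_le_div_iff₀ hmk hmK, one_mul]
    have := mUp_pow hCm hMU k (J + 2)
    rwa [show k + (J + 2) = k + J + 2 by ring] at this
  calc C6 * (2 ^ (k + 1) / (n * Ub (k + 1))) * (C2 ^ (J + 2) * (Ub (k + J + 2) / m k)) * (B / Sg * Ub (k + J + 3)) * Cx
      = (C6 * (2 ^ (k + 1) / (n * Ub (k + 1)))) * (1 / m k) *
        (C2 ^ (J + 2) * Ub (k + J + 2) * (B / Sg * Ub (k + J + 3)) * Cx) := by ring
    _ ≤ (C6 * (2 ^ D * 2 ^ (J + 2) / Ub (k + J + 3))) * (Cm ^ (J + 2) / m (k + J + 2)) *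
        (C2 ^ (J + 2) * Ub (k + J + 2) * (B / Sg * Ub (k + J + 3)) * Cx) := by
        refine mul_le_mul_of_nonneg_right ?_ (by positivity)
        refine mul_le_mul (mul_le_mul_of_nonneg_left hratio (by positivity)) hmm (by positivity) (by positivity)
    _ = A / Sg * (Ub (k + J + 2) / m (k + J + 2)) := by
        rw [hA]
        field_simp
    _ ≤ max A 1 / Sg * (Ub (k + J + 2) / m (k + J + 2)) := by
        refine mul_le_mul_of_nonneg_right ?_ (by positivity)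
        exact div_le_div_of_nonneg_right (le_max_left _ _) hsum.le

end SIM

end HexObs
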