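import Pool.Agent.SIM.FinA
import Pool.Agent.SIM.MassX
import Pool.Agent.SIM.HumpDefs

/-!
# SIM (no double points), exactly n letters: regularity at all the scales (helper69)
-/

set_option autoImplicit false

namespace HexObs

namespace SIM

open Finset TS SDN NTW NTA

open scoped ENNReal

lemma RR_mono_x {a b : ℕ} (h : a ≤ b) : RR a ≤ RR b := by
  unfold RR
  have : (2 : ℤ) ^ a ≤ 2 ^ b := pow_le_pow_right₀ (by norm_num) h
  linarith

/-- **regularity at all the scales, exactly nn letters** -/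
theorem regX_off {m : ℕ → ℝ} (hm : ∀ k, 0 < m k) (hR : RegX 6 8 m) : ∃ Mx sx : ℕ, ∀ {e M : ℝ}, 0 < e → ∀ J0 : ℕ,
    ∃ (S : ℕ) (J n : ℕ → ℕ) (K0 : ℕ), 0 < S ∧ (∀ s, J0 ≤ J s) ∧
    (∀ s, 107 ≤ n s) ∧ (∀ s, J s < J (s + 1)) ∧ (∀ s, 240 * n (s + 1) ≤ 2 ^ (J (s + 1) - J s)) ∧
    (3 * (n 0 : ℝ) ≤ e * 2 ^ J 0) ∧ M ≤ ∑ s ∈ range S, 1 / (3 * (n s : ℝ)) ∧ J S + 6 ≤ K0 ∧
    ∀ K nn, K0 ≤ K → gf {t | t.length = nn ∧ Many t t.length Mx (RR (K - J 0 + sx)) ∧ t ∈ OffR S J n K} ≤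
      ENNReal.ofReal (e * (Ub K / m K)) * Xb K ^ 2 := by
  obtain ⟨C, c, k0, J1, n0, Mx, sx, hC, hc, hreg⟩ := hR
  refine ⟨Mx, sx, fun {e M} he J0 => ?_⟩
  obtain ⟨S, J, n, hS, h1, h2, h3, h4, h5, h6, h7⟩ := scales (e := e) (M := M) hC hc he (J0 + J1) n0
  have hJmono : ∀ s s', s ≤ s' → J s ≤ J s' := fun s s' hs => (strictMono_nat_of_lt_succ h3).monotone hs
  refine ⟨S, J, n, J S + 6 + k0, hS, fun s => by have := h1 s; omega, fun s => (h2 s).2, h3, h5, h6, h7, by omega,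
    fun K nn hK => ?_⟩
  have hU : 0 ≤ Ub K / m K := div_nonneg (TS.Ub_pos K).le (hm K).le
  have hsub : {t | t.length = nn ∧ Many t t.length Mx (RR (K - J 0 + sx)) ∧ t ∈ OffR S J n K} ⊆
      ⋃ s ∈ range S, {t | (t.length = nn ∧ t ∈ WL K) ∧ Many t t.length Mx (RR (K - J s + sx)) ∧
        Irg 6 8 (K - J s) (n s) t} := by
    rintro t ⟨hl, hM, ht, s, hs, hI⟩
    rw [Set.mem_iUnion₂]
    refine ⟨s, Finset.mem_range.2 hs, ⟨hl, ht⟩, hM.mono le_rfl le_rfl (RR_mono_x ?_), hI⟩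
    have := hJmono 0 s (Nat.zero_le _)
    omega
  refine (gf_mono hsub).trans ((ENNReal.tsum_biUnion_le wE (range S) _).trans ?_)
  have hone : ∀ s ∈ range S, gf {t | (t.length = nn ∧ t ∈ WL K) ∧ Many t t.length Mx (RR (K - J s + sx)) ∧
      Irg 6 8 (K - J s) (n s) t} ≤ ENNReal.ofReal (e / 2 ^ (s + 1) * (Ub K / m K)) * Xb K ^ 2 := by
    intro s hs
    rw [Finset.mem_range] at hs
    have a1 := hJmono s S hs.le
    have a2 := hreg (K - J s) (J s) (n s) nn (by omega) (by have := h1 s; omega) (h2 s).1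
    rw [show K - J s + J s = K by omega] at a2
    refine a2.trans (mul_le_mul_left (ENNReal.ofReal_le_ofReal ?_) _)
    exact mul_le_mul_of_nonneg_right (h4 s) hU
  refine (Finset.sum_le_sum hone).trans ?_
  rw [← Finset.sum_mul]
  refine mul_le_mul_left ?_ _
  rw [← ENNReal.ofReal_sum_of_nonneg (fun s _ => by positivity)]
  apply ENNReal.ofReal_le_ofReal
  rw [← Finset.sum_mul]
  refine mul_le_mul_of_nonneg_right ?_ hU
  have hgeo : ∀ S : ℕ, ∑ s ∈ range S, e / 2 ^ (s + 1) = e - e / 2 ^ S := by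
    intro S
    induction S with
    | zero => simp
    | succ S ih =>
      rw [Finset.sum_range_succ, ih, pow_succ]
      field_simp
      ring
  rw [hgeo]
  have : 0 ≤ e / 2 ^ S := by positivity
  linarith

end SIM

end HexObs
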