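import Pool.Agent.NTA.GeoRun

/-!
SIM: the unimodal chain of a walk with folds: the ranges of the pieces increase up to a largest one and decrease behind it;
the first and the last fold of the walk are kept.
-/

set_option autoImplicit false

namespace HexObs

namespace SIM

open Finset TS SDN SDN.ZZ NTm NTW NTW.GM

/-- the unimodal sequence of segments -/
lemma uni_seqX {y : ℕ → ℤ} {m : ℕ} (hA : Alt y m) (hm : 1 ≤ m) : ∃ (r p : ℕ) (i : ℕ → ℕ), p < r ∧ Hw y 0 m r i ∧
    (∀ q, q < p → rg y (i q) (i (q + 1)) ≤ rg y (i (q + 1)) (i (q + 2))) ∧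
    (∀ q, p ≤ q → q + 1 < r → rg y (i (q + 1)) (i (q + 2)) ≤ rg y (i q) (i (q + 1))) := by
  obtain ⟨b, p1, i1, a1, a2, a3, a4, a5, -, a7, a8, a9⟩ := right_seq hA (a := 0) (by omega)
  obtain ⟨p2, i2, b1, b2, b3⟩ := hw_left hA (l := m) le_rfl (m - b) b (by omega) (fun j j1 j2 => by
    rw [Tight.sg_succ, Tight.sg_succ]
    have := a8 j j1 j2
    omega)
  obtain ⟨i, hi⟩ : ∃ i : ℕ → ℕ, i = fun q => if q ≤ p1 then i1 q else i2 (q - p1) := ⟨_, rfl⟩
  have hi1 : ∀ q, q ≤ p1 → i q = i1 q := fun q hq => by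
    rw [hi]
    exact if_pos hq
  have hi2 : ∀ q, i (p1 + q) = i2 q := by
    intro q
    rcases Nat.eq_zero_or_pos q with h0 | h0
    · subst h0
      rw [add_zero, hi1 p1 le_rfl, a4.last, b1.zero]
    · rw [hi]
      show (if p1 + q ≤ p1 then i1 (p1 + q) else i2 (p1 + q - p1)) = _
      rw [if_neg (by omega), Nat.add_sub_cancel_left]
  obtain ⟨p', rfl⟩ : ∃ p', p1 = p' + 1 := ⟨p1 - 1, by omega⟩
  refine ⟨p' + 1 + p2, p', i, by omega, ⟨?_, ?_, ?_⟩, ?_, ?_⟩
  · rw [hi1 0 (Nat.zero_le _)]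
    exact a4.zero
  · rw [hi2]
    exact b1.last
  · intro q hq
    rcases Nat.lt_or_ge q (p' + 1) with h | h
    · rw [hi1 q h.le, hi1 (q + 1) (by omega)]
      exact a4.seg q h
    · obtain ⟨q', rfl⟩ : ∃ q', q = p' + 1 + q' := ⟨q - (p' + 1), by omega⟩
      rw [add_assoc (p' + 1) q' 1, hi2, hi2]
      exact b1.seg q' (by omega)
  · intro q hq
    rw [hi1 q (by omega), hi1 (q + 1) (by omega), hi1 (q + 2) (by omega)]
    exact a5 q (by omega)
  · intro q q1 q2
    rcases Nat.eq_or_lt_of_le q1 with h | h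
    · subst h
      have h1 : i (p' + 1) = b := by
        have := hi2 0
        rw [add_zero, b1.zero] at this
        exact this
      have h2 : i (p' + 2) = i2 1 := hi2 1
      have h3 : i p' = i1 p' := hi1 p' (by omega)
      have h4 : i2 1 ≤ m := b3 1 (by omega)
      have h5 := (b1.seg 0 (by omega)).lt
      rw [b1.zero, zero_add] at h5
      have h6 := a9 (i2 1) (Nat.zero_le _) h4
      rw [Nat.add_sub_cancel] at h6
      have h7 : Even b ↔ ¬ Even (i1 p') := by
        have := (a4.seg p' (by omega)).par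
        rwa [a4.last] at this
      have h8 : ∀ x, Tight.sg (i1 p' + 1) x = Tight.sg b x := fun x => NTm.sg_par (by
        rw [Nat.even_add_one]
        exact h7.symm) x
      rw [h1, h2, h3]
      unfold rg
      rw [h8, h8, Tight.sg_succ, Tight.sg_succ]
      omega
    · obtain ⟨q', rfl⟩ : ∃ q', q = p' + 1 + q' := ⟨q - (p' + 1), by omega⟩
      rw [show p' + 1 + q' + 1 = p' + 1 + (q' + 1) by ring, show p' + 1 + q' + 2 = p' + 1 + (q' + 2) by ring, hi2, hi2, hi2]
      exact b2 q' (by omega)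

/-- the upper bound and the range of a segment -/
lemma seg_hiX {f : ℕ → ℤ} {n m : ℕ} {e : ℕ → ℕ} {R : ℤ} (H : FG f n m e R) {a c : ℕ}
    (hs : Seg (fun j => f (e j)) a c) (hc : c ≤ m) :
    (∀ x, e a ≤ x → x ≤ e c → Tight.sg (a + 1) (f x) ≤ Tight.sg (a + 1) (f (e c))) ∧
    (∀ x, e a ≤ x → x ≤ e c → Tight.sg (a + 1) (f (e a)) ≤ Tight.sg (a + 1) (f x)) ∧
    R ≤ Tight.sg (a + 1) (f (e c)) - Tight.sg (a + 1) (f (e a)) := by
  have hac := hs.lt
  refine ⟨fun x x1 x2 => ?_, fun x x1 x2 => ?_, ?_⟩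
  · have e2 : ∀ z, Tight.sg (a + 1 + 1) z = - Tight.sg (a + 1) z := fun z => Tight.sg_succ _ _
    have := H.btw hac.le hc x1 x2 (a + 1 + 1) (A := - Tight.sg (a + 1) (f (e c))) (fun j j1 j2 => by
      rw [e2]
      have := hs.hi j j1 j2
      omega)
    rw [e2] at this
    omega
  · refine H.btw hac.le hc x1 x2 (a + 1) (fun j j1 j2 => ?_)
    rcases Nat.eq_or_lt_of_le j1 with h | h
    · rw [← h]
    · exact (hs.lo j h j2).le
  · have b1 := H.big a (by omega)
    have b2 := hs.hi (a + 1) (by omega) (by omega)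
    omega

/-- **the unimodal chain**: the folds E 0 = e 0, ..., E r = e m are folds of the scale b of t (E q = e (ix q)), the ranges
increase up to the piece number p and decrease behind it -/
theorem geoUniX {b m u : ℕ} {t : List Bool} {e : ℕ → ℕ} (hb : 1 ≤ b) (hFd : Fd b t m u e) :
    ∃ (r p : ℕ) (E ix : ℕ → ℕ), p < r ∧ FoldG t r u E ∧ (∀ q, q ≤ r → E q = e (ix q)) ∧ ix 0 = 0 ∧ ix r = m ∧
      (∀ q, q < r → ix q < ix (q + 1)) ∧ E 0 = e 0 ∧ E r = e m ∧
      (∀ q, q < r → RR b ≤ RG t u E q) ∧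
      (∀ q, q < p → RG t u E q ≤ RG t u E (q + 1)) ∧
      (∀ q, p ≤ q → q + 1 < r → RG t u E (q + 1) ≤ RG t u E q) := by
  have H := fg_of hb hFd
  obtain ⟨f, hf⟩ : ∃ f : ℕ → ℤ, f = fun i => Tight.sg u (lev t i) := ⟨_, rfl⟩
  rw [← hf] at H
  have hR := RR_ge hb
  obtain ⟨r, p, i, a1, a2, a3, a4⟩ := uni_seqX H.alt hFd.1
  have hpar : ∀ q, q ≤ r → (Even (i q) ↔ Even q) := by
    intro q hq
    have := hw_par a2 q hq
    rwa [zero_add] at this
  have him : ∀ q, q ≤ r → i q ≤ m := by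
    intro q hq
    have h1 := hw_mono a2 (q := q) (q' := r) hq le_rfl
    rwa [a2.last] at h1
  have hsg : ∀ q, q ≤ r → ∀ x, Tight.sg (u + q) (lev t x) = Tight.sg (i q + 1) (f x) := by
    intro q hq x
    rw [sgu, hf]
    exact NTm.sg_par (by rw [Nat.even_add_one, Nat.even_add_one, hpar q hq]) _
  have hseg : ∀ q, q < r → _ := fun q hq => seg_hiX H (a2.seg q hq) (him (q + 1) (by omega))
  have hm1 := hFd.1
  have hi0 : ∀ q, 1 ≤ q → q ≤ r → 1 ≤ i q := by
    intro q h1 h2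
    have h3 := hw_mono a2 (q := 1) (q' := q) h1 h2
    have h4 := (a2.seg 0 (by omega)).lt
    rw [a2.zero, zero_add] at h4
    omega
  have hrg : ∀ q, q < r → RG t u (fun q => e (i q)) q = rg (fun j => f (e j)) (i q) (i (q + 1)) := by
    intro q hq
    unfold RG rg
    rw [hsg q hq.le, hsg q hq.le]
  refine ⟨r, p, fun q => e (i q), i, a1, ⟨?_, ?_, ?_, ?_, ?_, ?_, ?_, ?_⟩, fun q _ => rfl, a2.zero, a2.last,
    fun q hq => (a2.seg q hq).lt, ?_, ?_, ?_, ?_, ?_⟩
  · intro q hq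
    exact H.smono (a2.seg q hq).lt (him (q + 1) (by omega))
  · show e (i r) ≤ _
    rw [a2.last]
    exact H.le
  · intro x x1 x2
    have h1 := (hseg 0 (by omega)).2.1 x x1 x2
    have h2 := hsg 0 (Nat.zero_le _)
    rw [add_zero] at h2
    show Tight.sg u (lev t (e (i 0))) ≤ Tight.sg u (lev t x)
    rw [h2, h2]
    exact h1
  · intro q q1 q2 x x1 x2
    rw [hsg q q2.le, hsg q q2.le]
    exact (H.seg (a2.seg q q2) (hi0 q q1 q2.le) (him (q + 1) (by omega))).1 x x1 x2
  · intro q q2 x x1 x2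
    rw [hsg q q2.le, hsg q q2.le]
    exact (hseg q q2).1 x x1 x2
  · intro q q2
    rw [hsg q q2.le, hsg q q2.le]
    exact hR.trans (hseg q q2).2.2
  · intro x hx
    have hx' : x < e 0 := by
      have h1 : e (i 0) = e 0 := by rw [a2.zero]
      rw [← h1]
      exact hx
    show Tight.sg u (lev t (e (i 0))) < _
    rw [a2.zero]
    exact hFd.2.1.beg x hx'
  · intro x x1 x2
    have h1 : e (i r) = e m := by rw [a2.last]
    have h2 := hFd.2.1.fin x (by rw [← h1]; exact x1) x2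
    have h3 : ∀ z, Tight.sg (u + (r - 1)) z = Tight.sg (u + (m - 1)) z := by
      intro z
      refine NTm.sg_par ?_ z
      have h4 := hpar r le_rfl
      rw [a2.last] at h4
      obtain ⟨r', rfl⟩ : ∃ r', r = r' + 1 := ⟨r - 1, by omega⟩
      obtain ⟨m', rfl⟩ : ∃ m', m = m' + 1 := ⟨m - 1, by omega⟩
      rw [Nat.even_add_one, Nat.even_add_one] at h4
      rw [Nat.add_sub_cancel, Nat.add_sub_cancel, Nat.even_add, Nat.even_add (n := m')]
      tauto
    show Tight.sg (u + (r - 1)) (lev t x) < Tight.sg (u + (r - 1)) (lev t (e (i r)))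
    rw [h3, h3, h1]
    exact h2
  · show e (i 0) = e 0
    rw [a2.zero]
  · show e (i r) = e m
    rw [a2.last]
  · intro q hq
    unfold RG
    rw [hsg q hq.le, hsg q hq.le]
    exact (hseg q hq).2.2
  · intro q hq
    rw [hrg q (by omega), hrg (q + 1) (by omega)]
    exact a3 q hq
  · intro q q1 q2
    rw [hrg q (by omega), hrg (q + 1) (by omega)]
    exact a4 q q1 q2

end SIM

end HexObs
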