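import Mathlib.Algebra.BigOperators.Intervals
import Mathlib.Tactic.Linarith

/-!
SIM: a path of the square grid that crosses a box from the bottom to the top meets a path that crosses it from the left to
the right.
-/

set_option autoImplicit false

namespace HexObs

namespace SIM

open Finset

/-- neighbours in the grid; the first coordinate is the row -/
def Nb (a b : ℤ × ℤ) : Prop :=
  (a.1 = b.1 ∧ (b.2 = a.2 + 1 ∨ a.2 = b.2 + 1)) ∨ (a.2 = b.2 ∧ (b.1 = a.1 + 1 ∨ a.1 = b.1 + 1))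

/-- signed crossing of the line between the rows k and k + 1 on the left of X -/
def sx (k X : ℤ) (a b : ℤ × ℤ) : ℤ :=
  if a.2 < X then (if a.1 = k ∧ b.1 = k + 1 then 1 else if a.1 = k + 1 ∧ b.1 = k then -1 else 0) else 0

lemma sx_hor {k X : ℤ} {a b : ℤ × ℤ} (h : Nb a b) (ha : a ≠ (k, X)) (hb : b ≠ (k, X)) : sx k (X + 1) a b = sx k X a b := by
  obtain ⟨a1, a2⟩ := a
  obtain ⟨b1, b2⟩ := b
  simp only [Nb, sx, Ne, Prod.mk.injEq] at *
  split_ifs <;> omega

lemma sx_ver {k X : ℤ} {a b : ℤ × ℤ} (h : Nb a b) (ha : a ≠ (k + 1, X)) (hb : b ≠ (k + 1, X)) :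
    sx k X a b - sx (k + 1) X a b = (if b.1 = k + 1 ∧ b.2 < X then 1 else 0) - (if a.1 = k + 1 ∧ a.2 < X then 1 else 0) := by
  obtain ⟨a1, a2⟩ := a
  obtain ⟨b1, b2⟩ := b
  simp only [Nb, sx, Ne, Prod.mk.injEq] at *
  split_ifs <;> omega

lemma sx_all {k X : ℤ} {a b : ℤ × ℤ} (h : Nb a b) (ha : a.2 < X) :
    sx k X a b = (if k + 1 ≤ b.1 then 1 else 0) - (if k + 1 ≤ a.1 then 1 else 0) := by
  obtain ⟨a1, a2⟩ := a
  obtain ⟨b1, b2⟩ := b
  simp only [Nb, sx] at *
  split_ifs <;> omega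

lemma sx_none {k X : ℤ} {a b : ℤ × ℤ} (ha : X ≤ a.2) : sx k X a b = 0 := by
  unfold sx
  rw [if_neg (by omega)]

/-- **the crossing lemma of the grid** -/
theorem grid_cross {P Q : ℕ → ℤ × ℤ} {n m : ℕ} (hP : ∀ i < n, Nb (P i) (P (i + 1))) (hQ : ∀ j < m, Nb (Q j) (Q (j + 1)))
    (hlo : ∀ j ≤ m, (P 0).1 < (Q j).1) (hhi : ∀ j ≤ m, (Q j).1 < (P n).1) (hl : ∀ i ≤ n, (Q 0).2 ≤ (P i).2)
    (hr : ∀ i ≤ n, (P i).2 < (Q m).2) : ∃ i ≤ n, ∃ j ≤ m, P i = Q j := by
  by_contra hcon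
  push Not at hcon
  obtain ⟨F, hF⟩ : ∃ F : ℤ × ℤ → ℤ, F = fun q => ∑ i ∈ range n, sx q.1 q.2 (P i) (P (i + 1)) := ⟨_, rfl⟩
  -- horizontal steps
  have hhor : ∀ k X : ℤ, (∀ i ≤ n, P i ≠ (k, X)) → F (k, X + 1) = F (k, X) := by
    intro k X h
    rw [hF]
    refine Finset.sum_congr rfl fun i hi => ?_
    rw [Finset.mem_range] at hi
    exact sx_hor (hP i hi) (h i (by omega)) (h (i + 1) (by omega))
  -- vertical steps
  have hver : ∀ k X : ℤ, (∀ i ≤ n, P i ≠ (k + 1, X)) → (P 0).1 < k + 1 → k + 1 < (P n).1 → F (k, X) = F (k + 1, X) := by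
    intro k X h h0 h1
    have h2 : F (k, X) - F (k + 1, X) = (if (P n).1 = k + 1 ∧ (P n).2 < X then 1 else 0) -
        (if (P 0).1 = k + 1 ∧ (P 0).2 < X then 1 else 0) := by
      rw [hF]
      show ∑ i ∈ range n, sx k X (P i) (P (i + 1)) - ∑ i ∈ range n, sx (k + 1) X (P i) (P (i + 1)) = _
      rw [← Finset.sum_sub_distrib, ← Finset.sum_range_sub (fun i => if (P i).1 = k + 1 ∧ (P i).2 < X then (1 : ℤ) else 0) n]
      refine Finset.sum_congr rfl fun i hi => ?_
      rw [Finset.mem_range] at hi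
      exact sx_ver (hP i hi) (h i (by omega)) (h (i + 1) (by omega))
    rw [if_neg (by omega), if_neg (by omega)] at h2
    omega
  -- F is constant along Q
  have hconst : ∀ j ≤ m, F (Q j) = F (Q 0) := by
    intro j
    induction j with
    | zero => intro _; rfl
    | succ j ih =>
      intro hj
      rw [← ih (by omega)]
      have hlo1 := hlo j (by omega)
      have hlo2 := hlo (j + 1) hj
      have hhi1 := hhi j (by omega)
      have hhi2 := hhi (j + 1) hj
      have hc1 : ∀ i ≤ n, P i ≠ Q j := fun i hi => hcon i hi j (by omega)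
      have hc2 : ∀ i ≤ n, P i ≠ Q (j + 1) := fun i hi => hcon i hi (j + 1) hj
      have hnb := hQ j (by omega)
      obtain ⟨a, ha⟩ : ∃ a, a = Q j := ⟨_, rfl⟩
      obtain ⟨b, hb⟩ : ∃ b, b = Q (j + 1) := ⟨_, rfl⟩
      rw [← ha] at hc1 hlo1 hhi1 hnb ⊢
      rw [← hb] at hc2 hlo2 hhi2 hnb ⊢
      obtain ⟨a1, a2⟩ := a
      obtain ⟨b1, b2⟩ := b
      simp only [Nb] at hnb hlo1 hlo2 hhi1 hhi2
      rcases hnb with ⟨e, h | h⟩ | ⟨e, h | h⟩
      · subst e h
        exact hhor _ _ hc1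
      · subst e h
        exact (hhor _ _ hc2).symm
      · subst e h
        exact (hver _ _ hc2 hlo2 hhi2).symm
      · subst e h
        exact hver _ _ hc1 hlo1 hhi1
  have h0 : F (Q 0) = 0 := by
    rw [hF]
    refine Finset.sum_eq_zero fun i hi => ?_
    rw [Finset.mem_range] at hi
    exact sx_none (hl i (by omega))
  have h1 : F (Q m) = 1 := by
    have h2 : F (Q m) = (if (Q m).1 + 1 ≤ (P n).1 then 1 else 0) - (if (Q m).1 + 1 ≤ (P 0).1 then 1 else 0) := by
      rw [hF, ← Finset.sum_range_sub (fun i => if (Q m).1 + 1 ≤ (P i).1 then (1 : ℤ) else 0) n]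
      refine Finset.sum_congr rfl fun i hi => ?_
      rw [Finset.mem_range] at hi
      exact sx_all (hP i hi) (hr i (by omega))
    have h3 := hhi m le_rfl
    have h4 := hlo m le_rfl
    rw [if_pos (by omega), if_neg (by omega)] at h2
    omega
  have h2 := hconst m le_rfl
  omega

end SIM

end HexObs
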