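import Pool.Agent.SIM.HalfF

/-!
SIM (no double points), half words (HL): the walks of the class and the sum over the chains.
-/

set_option autoImplicit false

namespace HexObs

namespace SIM

open Finset TS SDN SDN.CN NTm NTW NTA EN

open scoped ENNReal

/-- the number of units of the left end: the leaf of the run is the first piece (true) or not (false) -/
def fE (kc : ℕ) (a : Bool) (r : ℕ) : ℕ := if a then 2 ^ (kc + 5) else r / 3 + 1

lemma fE_mono (kc : ℕ) (a : Bool) : Monotone (fE kc a) := by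
  intro x y hxy
  unfold fE
  cases a
  · exact Nat.add_le_add_right (Nat.div_le_div_right hxy) 1
  · exact le_rfl

/-- the runs of leaves of the box -/
def RBx (kc J : ℕ) (R : Set (List (List Bool))) : Set (List (List Bool)) :=
  {gs | gs ∈ R ∧ ∀ g ∈ gs, g ∈ BrR (2 ^ (kc + 4)) (2 ^ (kc + J + 2))}

variable {kc J n M : ℕ} {W : ℕ → Set (List Bool)} {idx kp : ℕ → ℕ} {R : Set (List (List Bool))}
  {Ψ : ℕ → ℕ → List Bool → ℝ≥0∞} {F : ℕ → List Bool → ℝ≥0∞}

/-- the chain conditions of the cover -/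
def ChC (W : ℕ → Set (List Bool)) (n M : ℕ) (R : Set (List (List Bool))) (Ψ : ℕ → ℕ → List Bool → ℝ≥0∞)
    (F : ℕ → List Bool → ℝ≥0∞) (w0 w1 : List (List Bool) → ℕ → ℝ≥0∞) (gs : List (List Bool)) : Prop :=
  gs.length ≤ M ∧ (EN.OU.TotA R (PN F) (Ψ 0) gs (w0 gs) (w1 gs) ∨
    EN.OU.TotB W n R (PN F) Set.univ Ψ gs (w0 gs) (w1 gs))

lemma half_class (hk1 : 1 ≤ kc) (hidx : ∀ h h' : ℕ, h ≤ h' → idx h ≤ idx h')
    (hmem : ∀ (g : List Bool) (h : ℕ), g ∈ Brd h → 2 ^ (kc + 4) ≤ h → h ≤ 2 ^ (kc + J + 2) → idx h < n ∧ g ∈ W (idx h))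
    {t : List Bool} (hL : t ∈ LastR kc J R) (E0 : ℕ → ℕ → List Bool → ℝ≥0∞) (E1 : ℕ → List Bool → ℝ≥0∞)
    (h0 : ∀ g ∈ BrR (2 ^ (kc + 4)) (2 ^ (kc + J + 2)), ∀ q, E0 (2 ^ (kc + 5)) q (rev g) ≤ Ψ 0 q (rev g))
    (h1 : ∀ g ∈ BrR (2 ^ (kc + 4)) (2 ^ (kc + J + 2)), ∀ q,
      E0 ((3 * hgt g + 8) / 3 + 1) q (rev g) ≤ Ψ (idx (hgt g)) q (rev g))
    (h2 : ∀ g ∈ BrR (2 ^ (kc + 4)) (2 ^ (kc + J + 2)), ∀ q, E1 q g ≤ F q g) :
    ∃ (a : Bool) (r u : ℕ) (E : ℕ → ℕ), 1 ≤ r ∧ FoldG t r u E ∧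
      (∀ i, i < E 0 → Tight.sg u (lev t i) - Tight.sg u (lev t (E 0)) ≤ 3 * (fE kc a (RG t u E 0).toNat : ℕ)) ∧
      (∀ i, E r < i → i ≤ t.length → Tight.sg (u + (r - 1)) (lev t (E r)) - Tight.sg (u + (r - 1)) (lev t i) ≤
        3 * ((fun _ : ℕ => 0) (RG t u E (r - 1)).toNat : ℕ)) ∧
      ∀ gs, RepG t r u E gs → ChC W n (100 * 4 ^ (kc + J)) (RBx kc J R) Ψ F
        (fun gs c => E0 (fE kc a (3 * hgt (gs.headD []) + 8)) c (rev (gs.headD [])))
        (fun gs c => E1 c (gs.getLastD [])) gs := by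
  obtain ⟨htW, m, u, e, hF, hem, l, d', hd', hl, hgS⟩ := hL
  obtain ⟨d, rfl⟩ : ∃ d, d' = d + 1 := ⟨d' - 1, by omega⟩
  obtain ⟨r, u', p, E, g1, g2, gE, g3, gp, gr, g4, g5, g6, g7, g8⟩ :=
    geoRun (kc + 5) m u t e (by omega) htW.1 hF l d (by omega)
  have hEr0 : E (p + (d + 1)) = t.length := by
    rw [gE (d + 1) le_rfl, hl, hem]
  have hr : p + d + 1 = r := by
    by_contra hc
    have a1 : p + (d + 1) < r := by omega
    have a2 := g2.lt (p + (d + 1)) a1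
    have a3 : E (p + (d + 1) + 1) ≤ E r := QF.fold_mono g2 (by omega) le_rfl
    have a4 := g2.le
    omega
  have hRR0 : 0 < RR (kc + 5) := by
    unfold RR
    have : (1 : ℤ) ≤ 2 ^ (kc + 5) := one_le_pow₀ (by norm_num)
    omega
  have hrun : ∀ gs, RepG t r u' E gs → (∀ g ∈ gs, g ∈ BrR (2 ^ (kc + 4)) (2 ^ (kc + J + 2))) →
      gs.drop p ∈ RBx kc J R := by
    intro gs hR hB
    have hlen := hR.len
    have hml : (gs.drop p).length = d + 1 := by
      rw [List.length_drop]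
      omega
    have hget : ∀ (i : ℕ) (hi : i < (gs.drop p).length), (gs.drop p)[i] = gs[p + i]'(by omega) := by
      intro i hi
      rw [List.getElem_drop]
    have hmB : ∀ g ∈ gs.drop p, g ∈ BrR (2 ^ (kc + 4)) (2 ^ (kc + J + 2)) := fun g hg =>
      hB g (List.mem_of_mem_drop hg)
    refine ⟨hgS _ hml ?_ ?_ ?_ hmB, hmB⟩
    · intro i hi
      rw [hget i hi]
      exact g3 i (by omega) _ (hR.pos (p + i) (by omega))
    · intro i hi h1 h2
      rw [hget i hi]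
      have h3 : 1 ≤ p + i := by
        by_contra hc
        have h4 := gp (by omega)
        omega
      have h5 : p + i + 2 ≤ r := by
        by_contra hc
        have h4 := gr (by omega)
        omega
      rw [hR.mid (p + i) (by omega) h3 h5, gE i (by omega), add_assoc p i 1, gE (i + 1) (by omega),
        ← add_assoc l i 1]
    · exact hR.ch.drop p
  refine ⟨decide (p = 0), r, u', E, by omega, g2, fun i hi => ?_, fun i hi1 hi2 => ?_, fun gs hR => ?_⟩
  · refine (g7 i hi).trans ?_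
    have h4 := g4 0 (by omega)
    by_cases hp : p = 0
    · rw [if_pos hp, decide_eq_true hp]
      unfold fE
      rw [if_pos rfl]
      unfold RR
      push_cast
      omega
    · rw [if_neg hp, decide_eq_false hp]
      unfold fE
      rw [if_neg (by simp)]
      push_cast
      omega
  · exfalso
    rw [show r = p + (d + 1) by omega, hEr0] at hi1
    omega
  · have hlen : gs.length ≤ 100 * 4 ^ (kc + J) := by
      rw [hR.len]
      exact (QF.fold_card g2).trans (WL_length htW)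
    have hBr := QF.rep_brr' htW g2 g4 hR
    have hne : gs ≠ [] := by
      intro h0
      have := hR.len
      rw [h0, List.length_nil] at this
      omega
    have hhd : gs.headD [] ∈ gs := by
      obtain ⟨a, gs', rfl⟩ := List.exists_cons_of_ne_nil hne
      simp
    have hla : gs.getLastD [] ∈ gs := by
      rw [List.getLastD_eq_getLast?, List.getLast?_eq_getLast_of_ne_nil hne, Option.getD_some]
      exact List.getLast_mem hne
    have ha0 : p = 0 → ∀ q, E0 (fE kc (decide (p = 0)) (3 * hgt (gs.headD []) + 8)) q (rev (gs.headD [])) ≤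
        Ψ 0 q (rev (gs.headD [])) := by
      intro hp
      rw [decide_eq_true hp]
      unfold fE
      rw [if_pos rfl]
      exact h0 _ (hBr _ hhd)
    have ha1 : 1 ≤ p → ∀ q, E0 (fE kc (decide (p = 0)) (3 * hgt (gs.headD []) + 8)) q (rev (gs.headD [])) ≤
        Ψ (idx (hgt (gs.headD []))) q (rev (gs.headD [])) := by
      intro hp
      rw [decide_eq_false (by omega)]
      unfold fE
      rw [if_neg (by simp)]
      exact h1 _ (hBr _ hhd)
    have h5 := tot_half (Ψ := Ψ) (F := F) hidx hmem htW.1 g2 hr g5 hR hBr (hrun gs hR hBr) ha0 ha1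
      (h2 _ (hBr _ hla))
    refine ⟨hlen, ?_⟩
    rcases Nat.eq_zero_or_pos p with h6 | h6
    · exact Or.inl (h5.1 h6)
    · exact Or.inr (h5.2 h6)

open Classical in
/-- the sum over the chains -/
lemma half_sum (hW : Wnd kc J n W kp) {T : ℝ≥0∞} {J' : ℕ} {w0 w1 : List (List Bool) → ℕ → ℝ≥0∞}
    (h0 : ∀ g gs, w0 (g :: gs) = w0 [g]) {N : ℕ}
    (hT : Rec8.sw (HB (2 ^ (kc + 4))) (fun z => ∑ c ∈ range (N + 1), Ψ 0 c (rev z) *
        sh (runG (RBx kc J' R) F) (N - c) z) + ∑ i ∈ range n, Rec8.sw (W i ∩ Set.univ) (fun z => tot (Ψ i) (rev z) *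
        FL W kp (EN.EX.Gm kc (RBx kc J' R) F) M i z) ≤ T) :
    (∑' gs : List (List Bool), if gs ≠ [] ∧ gs.IsChain LFold ∧ (∀ g ∈ gs, ∃ k : ℕ, 1 ≤ k ∧ g ∈ Brd k) ∧
      ChC W n M (RBx kc J' R) Ψ F w0 w1 gs then
      SDN.wl gs * (∑ c ∈ range (N + 1), w0 gs c * EN.EX.shf (w1 gs) (ll gs) (N - c)) else 0) ≤ T := by
  have hR'H : ∀ gs ∈ RBx kc J' R, ∀ g ∈ gs, g ∈ HB (2 ^ (kc + 4)) := fun gs hgs g hg =>
    (NTW.EX.Brd_HB le_rfl (hgs.2 g hg)).1
  have m1 := EN.OU.massA (M := M) (rb_PN _ F) hR'H (Ψ 0) w0 w1 h0 N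
  have m2 := EN.OU.massB hW (rb_PN _ F) hR'H Set.univ Ψ M w0 w1 h0 N
  refine le_trans ?_ ((add_le_add m1 m2).trans hT)
  rw [← ENNReal.tsum_add]
  refine ENNReal.tsum_le_tsum fun gs => ?_
  by_cases hc : gs ≠ [] ∧ gs.IsChain LFold ∧ (∀ g ∈ gs, ∃ k : ℕ, 1 ≤ k ∧ g ∈ Brd k) ∧
      ChC W n M (RBx kc J' R) Ψ F w0 w1 gs
  · rw [if_pos hc]
    rcases hc.2.2.2.2 with h7 | h7
    · refine le_trans (le_of_eq ?_) le_self_add
      rw [if_pos ⟨hc.2.2.2.1, hc.2.1, h7⟩]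
    · refine le_trans (le_of_eq ?_) le_add_self
      rw [if_pos ⟨hc.2.2.2.1, hc.2.1, h7⟩]
  · rw [if_neg hc]
    exact zero_le

end SIM

end HexObs
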