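import Pool.Agent.EN.OutEvent

/-!
SIM (no double points), half words (HL): the walks whose last leaf of the scale kc + 5 ends at the end of the walk. The
sum over the one sided monotone chains with a marked run at its end.
-/

set_option autoImplicit false

namespace HexObs

namespace SIM

open Finset TS SDN SDN.CN NTm NTW NTA EN

open scoped ENNReal

/-- walks of the box whose last leaf of the scale kc + 5 ends at the end of the walk, the last d leaves are a run in R -/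
def LastR (kc J : ℕ) (R : Set (List (List Bool))) : Set (List Bool) :=
  {t | t ∈ WL (kc + J) ∧ ∃ (m u : ℕ) (e : ℕ → ℕ), Fd (kc + 5) t m u e ∧ e m = t.length ∧ ∃ l d : ℕ, 1 ≤ d ∧ l + d = m ∧
    ∀ ms : List (List Bool), ms.length = d → (∀ (i : ℕ) (hi : i < ms.length), PosL t u e (l + i) ms[i]) →
      (∀ (i : ℕ) (hi : i < ms.length), 1 ≤ l + i → l + i + 2 ≤ m → ms[i] = lw t (e (l + i)) (e (l + i + 1))) →
      ms.IsChain LFold → (∀ g ∈ ms, g ∈ BrR (2 ^ (kc + 4)) (2 ^ (kc + J + 2))) → ms ∈ R}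

/-- nothing behind the run, the end bounded by F -/
def PN (F : ℕ → List Bool → ℝ≥0∞) (rs : List (List Bool)) (g : List Bool) (e : ℕ → ℝ≥0∞) : Prop :=
  rs = [] ∧ ∀ c, e c ≤ F c g

lemma rb_PN (D : ℕ) (F : ℕ → List Bool → ℝ≥0∞) : EN.OU.RB D (PN F) F := by
  classical
  intro g e N _
  rw [tsum_eq_single []]
  · by_cases h : [g].IsChain LFold ∧ PN F [] g (e [])
    · rw [if_pos h, NTm.wl_nil, one_mul]
      have h1 : EN.EX.shf (e []) (ll []) N = e [] N := EN.EX.shf_zero _ _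
      rw [h1]
      exact h.2.2 N
    · rw [if_neg h]
      exact zero_le
  · intro gs hgs
    rw [if_neg]
    rintro ⟨-, h, -⟩
    exact hgs h

/-- **the norms, nothing behind the run** -/
theorem half_fun (hA : SsA) (hD : SsD) :
    ∃ Q : ℝ, 1 ≤ Q ∧ ∀ (kc J n : ℕ) (W : ℕ → Set (List Bool)) (kp : ℕ → ℕ) (R : Set (List (List Bool)))
      (g x : ℝ) (Ψ : ℕ → ℕ → List Bool → ℝ≥0∞) (F : ℕ → List Bool → ℝ≥0∞), Wnd kc J n W kp →
      0 ≤ g → 0 ≤ x → (∀ i, i < n → Dom (kp i) (ENNReal.ofReal x) (tot (Ψ i))) →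
      xT (2 ^ (kc + 4)) kc (EN.EX.Gm kc R F) ≤ ENNReal.ofReal g →
      (∀ N, Rec8.sw (HB (2 ^ (kc + 4))) (fun z => ∑ c ∈ range (N + 1), Ψ 0 c (rev z) * sh (runG R F) (N - c) z) ≤
        ENNReal.ofReal (Ub kc * x * g)) → ∀ M N : ℕ,
    Rec8.sw (HB (2 ^ (kc + 4))) (fun z => ∑ c ∈ range (N + 1), Ψ 0 c (rev z) * sh (runG R F) (N - c) z) +
      ∑ i ∈ range n, Rec8.sw (W i ∩ Set.univ) (fun z => tot (Ψ i) (rev z) *
        FL W kp (EN.EX.Gm kc R F) M i z) ≤ ENNReal.ofReal (Q ^ (n + J + 1) * g * Ub (kc + J) * x) := by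
  obtain ⟨C, δ0, hInp⟩ := inp_exists
  obtain ⟨K, hK1, hK⟩ := two_scale
  obtain ⟨K3, hK3, hT⟩ := two2_of hA hD
  obtain ⟨K4, hK4, hX⟩ := Dom_xT hInp
  obtain ⟨q, hq⟩ : ∃ q : ℝ, q = 128 * K + 1 := ⟨_, rfl⟩
  have hq1 : 1 ≤ q := by linarith
  have hq2 : 2 ≤ q := by linarith
  have hq0 : 0 ≤ q := by linarith
  obtain ⟨A, hAdef⟩ : ∃ A : ℝ, A = 33 * (K3 * K4) := ⟨_, rfl⟩
  have hK34 : 1 ≤ K3 * K4 := one_le_mul_of_one_le_of_one_le hK3 hK4
  have hA1 : 1 ≤ A := by linarith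
  refine ⟨A * q ^ 2, one_le_mul_of_one_le_of_one_le hA1 (one_le_pow₀ hq1), ?_⟩
  intro kc J n W kp R g x Ψ F hW hg0 hx hΨ hG h1 M N
  have hK30 : 0 ≤ K3 := by linarith
  have hK40 : 0 ≤ K4 := by linarith
  have hU := Ub_pos kc
  have hUL := Ub_pos (kc + J)
  have hUU : Ub kc ≤ Ub (kc + J) := Ub_mono (by omega)
  have hqn2 : 1 ≤ q ^ (n + 2) := one_le_pow₀ hq1
  have hpair : ∀ i' i, i' ≤ i → i < n → ∀ F : List Bool → ℝ≥0∞, HerD (2 ^ (kp i' + 4)) F →
      Rec8.sw (W i ∩ Set.univ) (fun z => tot (Ψ i) (rev z) * F z) ≤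
        ENNReal.ofReal (32 * (K3 * K4) * x * Ub (kc + J)) * xT (2 ^ (kp i' + 4)) (kp i') F := by
    intro i' i hi' hi F hF
    have hk1 : kp i' ≤ kp i := hW.mono i' i hi'
    have e0 : 2 ^ (kp i' + 4) ≤ 2 ^ (kp i + 4) := Nat.pow_le_pow_right (by norm_num) (by omega)
    have e2 : 2 ^ (kp i + 4) ≤ 2 ^ (kp i + 5) := Nat.pow_le_pow_right (by norm_num) (by omega)
    refine (Rec8.sw_mono (Set.inter_subset_left.trans (hW.sub i hi)) fun _ _ => le_rfl).trans
      ((hT (kp i) (kp i') _ _ _ _ (tot (Ψ i)) F (hΨ i hi)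
      (hX (2 ^ (kp i' + 4)) (kp i') (kp i') F hF.her le_rfl le_rfl) le_rfl e0 e2).trans ?_)
    have hUp := Num2Aux.UU_pos (2 ^ (kp i + 5))
    calc ENNReal.ofReal (K3 * UU (2 ^ (kp i + 5))) * (ENNReal.ofReal x *
          (ENNReal.ofReal K4 * xT (2 ^ (kp i' + 4)) (kp i') F)) =
          ENNReal.ofReal (K3 * UU (2 ^ (kp i + 5)) * x * K4) * xT (2 ^ (kp i' + 4)) (kp i') F := by
          have e5 : ENNReal.ofReal (K3 * UU (2 ^ (kp i + 5)) * x * K4) = ENNReal.ofReal (K3 * UU (2 ^ (kp i + 5))) *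
              (ENNReal.ofReal x * ENNReal.ofReal K4) := by
            rw [← ENNReal.ofReal_mul hx, ← ENNReal.ofReal_mul (by positivity)]
            congr 1
            ring
          rw [e5]
          ring
      _ ≤ _ := by
          refine mul_le_mul_left (ENNReal.ofReal_le_ofReal ?_) _
          have h3 : UU (2 ^ (kp i + 5)) ≤ 2 ^ 5 * Ub (kp i) := UU_ratio_up (kp i) 5
          have h4 : Ub (kp i) ≤ Ub (kc + J) := Ub_mono (hW.top i hi)
          calc K3 * UU (2 ^ (kp i + 5)) * x * K4 ≤ K3 * (2 ^ 5 * Ub (kc + J)) * x * K4 := by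
                gcongr
                linarith
            _ = _ := by ring
  have h2 := EN.OU.leftO hK1 (le_of_eq hq.symm) hq2 hg0 (show 0 ≤ 32 * (K3 * K4) * x by positivity) hK hW
    (EN.OU.herD_Gm kc R F) hG hpair M
  refine (add_le_add (h1 N) h2).trans ?_
  rw [← ENNReal.ofReal_add (by positivity) (by positivity)]
  apply ENNReal.ofReal_le_ofReal
  have a1 : Ub kc * x * g ≤ (K3 * K4) * Ub (kc + J) * x * g * q ^ (n + 2) := by
    have b1 : Ub kc ≤ (K3 * K4) * Ub (kc + J) * q ^ (n + 2) := by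
      calc Ub kc ≤ Ub (kc + J) := hUU
        _ = 1 * Ub (kc + J) * 1 := by ring
        _ ≤ (K3 * K4) * Ub (kc + J) * q ^ (n + 2) := by gcongr
    calc Ub kc * x * g ≤ ((K3 * K4) * Ub (kc + J) * q ^ (n + 2)) * x * g := by gcongr
      _ = _ := by ring
  have h8 : q ^ (n + 2) ≤ (q ^ 2) ^ (n + J + 1) := by
    rw [← pow_mul]
    exact pow_le_pow_right₀ hq1 (by omega)
  have h9 : A ≤ A ^ (n + J + 1) := by
    calc A = A ^ 1 := (pow_one _).symm
      _ ≤ _ := pow_le_pow_right₀ hA1 (by omega)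
  have hA0 : 0 ≤ A := by linarith
  calc Ub kc * x * g + 32 * (K3 * K4) * x * Ub (kc + J) * g * q ^ (n + 2)
      ≤ (K3 * K4) * Ub (kc + J) * x * g * q ^ (n + 2) + 32 * (K3 * K4) * x * Ub (kc + J) * g * q ^ (n + 2) := by
        linarith
    _ = A * q ^ (n + 2) * (g * Ub (kc + J) * x) := by
        rw [hAdef]
        ring
    _ ≤ A ^ (n + J + 1) * (q ^ 2) ^ (n + J + 1) * (g * Ub (kc + J) * x) := by gcongr
    _ = (A * q ^ 2) ^ (n + J + 1) * g * Ub (kc + J) * x := by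
        rw [← mul_pow]
        ring

variable {kc J n M : ℕ} {W : ℕ → Set (List Bool)} {idx : ℕ → ℕ} {R : Set (List (List Bool))}
  {Ψ : ℕ → ℕ → List Bool → ℝ≥0∞} {F : ℕ → List Bool → ℝ≥0∞}

open EN.OU in
/-- the chain of the pieces of a walk with a decreasing chain of folds before a run at its end -/
lemma tot_half (hidx : ∀ h h' : ℕ, h ≤ h' → idx h ≤ idx h')
    (hmem : ∀ (g : List Bool) (h : ℕ), g ∈ Brd h → 2 ^ (kc + 4) ≤ h → h ≤ 2 ^ (kc + J + 2) → idx h < n ∧ g ∈ W (idx h))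
    {t : List Bool} {r u p d : ℕ} {E : ℕ → ℕ} {gs : List (List Bool)} (ht : t ∈ SA) (hF : FoldG t r u E) (hp : p + d + 1 = r)
    (hdec : ∀ q, q + 1 < p → RG t u E (q + 1) ≤ RG t u E q)
    (hR : RepG t r u E gs) (hB : ∀ g ∈ gs, g ∈ BrR (2 ^ (kc + 4)) (2 ^ (kc + J + 2)))
    (hS : gs.drop p ∈ R) {a c : ℕ → ℝ≥0∞}
    (ha0 : p = 0 → ∀ q, a q ≤ Ψ 0 q (rev (gs.headD [])))
    (ha1 : 1 ≤ p → ∀ q, a q ≤ Ψ (idx (hgt (gs.headD []))) q (rev (gs.headD [])))
    (hc : ∀ q, c q ≤ F q (gs.getLastD [])) :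
    (p = 0 → TotA R (PN F) (Ψ 0) gs a c) ∧ (1 ≤ p → TotB W n R (PN F) Set.univ Ψ gs a c) := by
  have hlen := hR.len
  have cmp : ∀ (q q' : ℕ) (hq : q < gs.length) (hq' : q' < gs.length), 1 ≤ q' → q' + 2 ≤ r → RG t u E q' ≤ RG t u E q →
      hgt gs[q'] ≤ hgt gs[q] := by
    intro q q' hq hq' h1 h2 h3
    obtain ⟨k, hk1, hk⟩ := hR.brd _ (List.getElem_mem hq)
    obtain ⟨k', hk1', hk'⟩ := hR.brd _ (List.getElem_mem hq')
    have h4 := (FoldA.foldG_ht hF (by omega) (hR.pos q hq) hk).2.1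
    have h5 := hR.mid q' hq' h1 h2
    have h6 := QF.mid_hgt ht hF h1 h2 (h5 ▸ hk')
    rw [hgt_eq hk, hgt_eq hk']
    unfold RG at h3
    omega
  obtain ⟨ls, hls⟩ : ∃ ls, ls = gs.take p := ⟨_, rfl⟩
  obtain ⟨run, hrun⟩ : ∃ run, run = gs.drop p := ⟨_, rfl⟩
  rw [← hrun] at hS
  have hrunl : run.length = d + 1 := by
    rw [hrun, List.length_drop]
    omega
  have hsp : gs = ls ++ run := by
    rw [hls, hrun, List.take_append_drop]
  have hlsl : ls.length = p := by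
    rw [hls, List.length_take]
    omega
  have hlsB : ∀ x ∈ ls, x ∈ BrR (2 ^ (kc + 4)) (2 ^ (kc + J + 2)) := fun x hx => hB x (by
    rw [hls] at hx
    exact List.mem_of_mem_take hx)
  have hlsC : ls.IsChain (fun a b => hgt b ≤ hgt a) := by
    rw [List.isChain_iff_getElem]
    intro i hi
    have e1 : ls[i]'(by omega) = gs[i]'(by omega) := by
      subst hls
      exact List.getElem_take
    have e2 : ls[i + 1]'hi = gs[i + 1]'(by omega) := by
      subst hls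
      exact List.getElem_take
    rw [e1, e2]
    exact cmp i (i + 1) _ _ (by omega) (by omega) (hdec i (by omega))
  obtain ⟨g, ms, hgm⟩ : ∃ g ms, run = g :: ms := List.exists_cons_of_ne_nil (by
    intro h0
    rw [h0, List.length_nil] at hrunl
    omega)
  rw [hgm] at hS hsp
  have hlast0 : gs.getLastD [] = (g :: ms).getLastD [] := by
    rw [hsp, QF.last_app]
  have hmid : MidP R (PN F) g ms c := ⟨ms, [], (List.append_nil _).symm, hS, rfl, by rw [← hlast0]; exact hc⟩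
  rcases ls with _ | ⟨x, xs⟩
  · rw [List.nil_append] at hsp
    rw [List.length_nil] at hlsl
    refine ⟨fun _ => ?_, fun h => by omega⟩
    rw [hsp]
    have h2 := ha0 hlsl.symm
    rw [hsp] at h2
    exact ⟨h2, hmid⟩
  · rw [List.cons_append] at hsp
    rw [List.length_cons] at hlsl
    refine ⟨fun h => by omega, fun _ => ?_⟩
    have h2 := ha1 (by omega)
    rw [hsp] at h2 ⊢
    obtain ⟨h, a1, a2, a3⟩ := hlsB x List.mem_cons_self
    obtain ⟨b1, b2⟩ := hmem x h a3 a1 a2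
    rw [← hgt_eq a3] at b1 b2
    refine ⟨idx (hgt x), b1, b2, Set.mem_univ _, h2, dec_ofP hidx hmem hmid xs _
      (fun y hy => hlsB y (List.mem_cons_of_mem _ hy)) hlsC.tail ?_⟩
    intro y hy
    obtain ⟨ls', rfl⟩ : ∃ ls', xs = y :: ls' := by
      rcases xs with _ | ⟨z, ls'⟩
      · simp at hy
      · rw [List.head?_cons, Option.some.injEq] at hy
        exact ⟨ls', by rw [hy]⟩
    rw [List.isChain_cons_cons] at hlsC
    exact Nat.lt_succ_of_le (hidx _ _ hlsC.1)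

end SIM

end HexObs
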