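import Pool.Agent.SIM.HalfS

/-!
SIM (no double points), half words (HL): **the mass of the walks whose last leaf of the scale kc + 5 ends at the end of
the walk** (one factor Xb only), with a marked run of small norm at the end; graded by the number of letters and not.
-/

set_option autoImplicit false

namespace HexObs

namespace SIM

open Finset TS SDN SDN.CN NTm NTW NTA EN

open scoped ENNReal

lemma half_num {Q Kc Kf c δ b U U' : ℝ} {V n J : ℕ} (hQ : 1 ≤ Q) (hKc : 1 ≤ Kc) (hKf : 1 ≤ Kf) (hc : 1 ≤ c)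
    (hδ : 0 ≤ δ) (hb : 0 ≤ b) (hU : 0 ≤ U) (hU' : 0 ≤ U') (hUU : U' ≤ 4 * U) (hn : n = V * (J + 2)) (hJ : 6 ≤ J) :
    2 * (Kc * (Q ^ (n + (J + 2) + 1) * (δ * c) * U' * (Kf * b))) ≤
      (8 * Kc * Kf * c * Q ^ (2 * V + 2)) ^ J * δ * U * b := by
  have hQp : Q ^ (n + (J + 2) + 1) ≤ (Q ^ (2 * V + 2)) ^ J := by
    rw [← pow_mul]
    apply pow_le_pow_right₀ hQ
    have e5 : V * (J + 2) ≤ 2 * V * J := by
      have : V * 2 ≤ V * J := Nat.mul_le_mul_left _ (by omega)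
      calc V * (J + 2) = V * J + V * 2 := by ring
        _ ≤ V * J + V * J := by omega
        _ = _ := by ring
    have e6 : (2 * V + 2) * J = 2 * V * J + 2 * J := by ring
    omega
  have hKK : 1 ≤ 8 * Kc * Kf * c := by
    have a1 : 1 ≤ Kc * Kf := one_le_mul_of_one_le_of_one_le hKc hKf
    have a2 : 1 ≤ Kc * Kf * c := one_le_mul_of_one_le_of_one_le a1 hc
    linarith
  have hKJ : 8 * Kc * Kf * c ≤ (8 * Kc * Kf * c) ^ J := by
    calc 8 * Kc * Kf * c = (8 * Kc * Kf * c) ^ 1 := (pow_one _).symm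
      _ ≤ _ := pow_le_pow_right₀ hKK (by omega)
  have hKc0 : 0 ≤ Kc := by linarith
  have hKf0 : 0 ≤ Kf := by linarith
  have hc0 : 0 ≤ c := by linarith
  have hQ0 : 0 ≤ Q := by linarith
  calc 2 * (Kc * (Q ^ (n + (J + 2) + 1) * (δ * c) * U' * (Kf * b)))
      ≤ 2 * (Kc * ((Q ^ (2 * V + 2)) ^ J * (δ * c) * (4 * U) * (Kf * b))) := by gcongr
    _ = (8 * Kc * Kf * c) * (Q ^ (2 * V + 2)) ^ J * δ * U * b := by ring
    _ ≤ (8 * Kc * Kf * c) ^ J * (Q ^ (2 * V + 2)) ^ J * δ * U * b := by gcongr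
    _ = (8 * Kc * Kf * c * Q ^ (2 * V + 2)) ^ J * δ * U * b := by rw [← mul_pow]

lemma Ub_two (k J : ℕ) : Ub (k + (J + 2)) ≤ 4 * Ub (k + J) := by
  have := UU_ratio_up (k + J) 2
  calc Ub (k + (J + 2)) = UU (2 ^ (k + J + 2)) := rfl
    _ ≤ 2 ^ 2 * Ub (k + J) := this
    _ = _ := by norm_num

/-- two classes -/
lemma gf_two {A : Set (List Bool)} {A' : Bool → Set (List Bool)} {B : ℝ≥0∞} (h : ∀ t ∈ A, ∃ a, t ∈ A' a)
    (h1 : ∀ a, gf (A' a) ≤ B) : gf A ≤ 2 * B := by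
  have h2 : A ⊆ ⋃ a ∈ (Finset.univ : Finset Bool), A' a := fun t ht => by
    obtain ⟨a, ha⟩ := h t ht
    exact Set.mem_iUnion₂.2 ⟨a, Finset.mem_univ _, ha⟩
  refine (gf_mono h2).trans ((BAR.gf_bi_le _ _).trans ((Finset.sum_le_sum fun a _ => h1 a).trans (le_of_eq ?_)))
  simp only [Finset.sum_const, Finset.card_univ, Fintype.card_bool, nsmul_eq_mul]
  push_cast
  rfl

open Classical in
/-- **half words with exactly nn letters** -/
theorem half_lx_of (hA : SsA) (hD : SsD) : ∃ (C : ℝ) (k0 : ℕ), 1 ≤ C ∧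
    ∀ (kc J lam lam' nn : ℕ) (R : Set (List (List Bool))) (δ : ℝ), k0 ≤ kc → 6 ≤ J → 0 < δ →
      QL (kc + J + 8) lam' → SmRX DmJ kc R δ →
      gf {t | t.length = nn ∧ t ∈ SAL lam ∧ t ∈ LastR kc J R} ≤
        ENNReal.ofReal (C ^ J * δ * Ub (kc + J)) * bl (lam + lam' + 50) (kc + J + 8) := by
  obtain ⟨V, Kf, k0, hV, hKf, hset⟩ := setup_exists
  obtain ⟨Q, hQ, hfun⟩ := half_fun hA hD
  obtain ⟨Kc, hKc, hcov⟩ := EN.EX.coverVX rep_two
  obtain ⟨c, hc, hc0⟩ := norm_FE0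
  have hC1 : 1 ≤ 8 * Kc * Kf * c * Q ^ (2 * V + 2) := by
    have a1 : 1 ≤ Kc * Kf := one_le_mul_of_one_le_of_one_le hKc hKf
    have a2 : 1 ≤ Kc * Kf * c := one_le_mul_of_one_le_of_one_le a1 hc
    have a3 : 1 ≤ Q ^ (2 * V + 2) := one_le_pow₀ hQ
    have a4 : 1 ≤ Kc * Kf * c * Q ^ (2 * V + 2) := one_le_mul_of_one_le_of_one_le a2 a3
    linarith
  refine ⟨8 * Kc * Kf * c * Q ^ (2 * V + 2), max k0 1, hC1, ?_⟩
  intro kc J lam lam' nn R δ hkc hJ hδ hQL hS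
  have hk0 : k0 ≤ kc := (le_max_left _ _).trans hkc
  have hk1 : 1 ≤ kc := (le_max_right _ _).trans hkc
  have hUL := Ub_pos (kc + J)
  obtain ⟨B, hB⟩ : ∃ B, B = bl (lam + lam' + 50) (kc + J + 8) := ⟨_, rfl⟩
  obtain ⟨W, kp, idx, hW⟩ := hset kc J lam lam' hk0 hJ hQL
  rw [← hB] at hW ⊢
  by_cases hBt : B = ⊤
  · rw [hBt]
    have h1 : ENNReal.ofReal ((8 * Kc * Kf * c * Q ^ (2 * V + 2)) ^ J * δ * Ub (kc + J)) ≠ 0 := by
      rw [Ne, ENNReal.ofReal_eq_zero, not_le]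
      positivity
    rw [ENNReal.mul_top h1]
    exact le_top
  obtain ⟨b, hb⟩ : ∃ b, b = B.toReal := ⟨_, rfl⟩
  have hb0 : 0 ≤ b := by rw [hb]; exact ENNReal.toReal_nonneg
  have hBb : B = ENNReal.ofReal b := by rw [hb, ENNReal.ofReal_toReal hBt]
  obtain ⟨n, hn⟩ : ∃ n, n = V * (J + 2) := ⟨_, rfl⟩
  rw [← hn] at hW
  have hn1 : 0 < n := by
    rw [hn]
    exact Nat.mul_pos hV (by omega)
  have hX : ENNReal.ofReal Kf * B = ENNReal.ofReal (Kf * b) := by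
    rw [hBb, ENNReal.ofReal_mul (by linarith)]
  rw [hX] at hW
  obtain ⟨Ψ, hΨ⟩ : ∃ Ψ : ℕ → ℕ → List Bool → ℝ≥0∞,
    Ψ = fun i => EN.EX.Pg (2 ^ (kp i + 4)) (2 ^ (kp i + 6)) (lam + 20) := ⟨_, rfl⟩
  obtain ⟨F, hF⟩ : ∃ F : ℕ → List Bool → ℝ≥0∞, F = EN.EX.Pg (2 ^ (kc + 4)) 0 (lam + 20) := ⟨_, rfl⟩
  have hΨt : ∀ i, tot (Ψ i) = FE (2 ^ (kp i + 4)) (2 ^ (kp i + 6)) (lam + 20) := fun i => by
    rw [hΨ]
    exact EN.EX.tot_Pg _ _ _
  have hFt : tot F = FE (2 ^ (kc + 4)) 0 (lam + 20) := by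
    rw [hF]
    exact EN.EX.tot_Pg _ _ _
  have hF1 : EN.GH (2 ^ (kc + 4)) F := by
    rw [hF]
    exact EN.EX.GH_Pg Nat.one_le_two_pow _ _
  have hFD : DmJ kc (ENNReal.ofReal c) (tot F) := by
    rw [hFt]
    exact (hc0 kc (lam + 20)).2.2.1
  have hΨ0 : Ψ 0 = EN.EX.Pg (2 ^ (kc + 4)) (2 ^ (kc + 6)) (lam + 20) := by
    rw [hΨ]
    simp only [hW.wnd.zero]
  have hD0 : DmJ kc (ENNReal.ofReal (Kf * b)) (tot (Ψ 0)) := by
    have h1 := hW.dmi 0 hn1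
    rw [hW.wnd.zero] at h1
    rw [hΨt 0, hW.wnd.zero]
    exact h1
  have hR' : SmRX DmJ kc (RBx kc J R) δ := SmRX.anti hS fun gs h => h.1
  have hg0 : 0 ≤ δ * c := by positivity
  have hKb0 : 0 ≤ Kf * b := by positivity
  have hG : xT (2 ^ (kc + 4)) kc (EN.EX.Gm kc (RBx kc J R) F) ≤ ENNReal.ofReal (δ * c) := by
    rw [ENNReal.ofReal_mul hδ.le]
    exact hR'.near _ F hF1 hFD
  have h1 : ∀ N, Rec8.sw (HB (2 ^ (kc + 4))) (fun z => ∑ c ∈ range (N + 1), Ψ 0 c (rev z) *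
      sh (runG (RBx kc J R) F) (N - c) z) ≤ ENNReal.ofReal (Ub kc * (Kf * b) * (δ * c)) := by
    intro N
    refine (hR'.free _ _ (Ψ 0) F (by rw [hΨ0]; exact EN.EX.GH_Pg Nat.one_le_two_pow _ _)
      (by rw [hΨ0]; exact EN.EX.flp_Pg Nat.one_le_two_pow _ _) hF1 hD0 hFD N).trans (le_of_eq ?_)
    rw [← ENNReal.ofReal_mul hKb0, ← ENNReal.ofReal_mul (by have := Ub_pos kc; positivity)]
    congr 1
    ring
  have hT := hfun kc (J + 2) n W kp (RBx kc J R) (δ * c) (Kf * b) Ψ F hW.wnd hg0 hKb0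
    (fun i hi => by rw [hΨt i]; exact dmP.dom _ _ _ (hW.dmi i hi)) hG h1 (100 * 4 ^ (kc + J))
  obtain ⟨T, hTd⟩ : ∃ T, T = ENNReal.ofReal (Q ^ (n + (J + 2) + 1) * (δ * c) * Ub (kc + (J + 2)) * (Kf * b)) := ⟨_, rfl⟩
  rw [← hTd] at hT
  let A : Bool → Set (List Bool) := fun a => {t | (t.length = nn ∧ t ∈ SAL lam) ∧ ∃ (r u : ℕ) (E : ℕ → ℕ),
    1 ≤ r ∧ FoldG t r u E ∧
      (∀ i, i < E 0 → Tight.sg u (lev t i) - Tight.sg u (lev t (E 0)) ≤ 3 * (fE kc a (RG t u E 0).toNat : ℕ)) ∧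
      (∀ i, E r < i → i ≤ t.length → Tight.sg (u + (r - 1)) (lev t (E r)) - Tight.sg (u + (r - 1)) (lev t i) ≤
        3 * ((fun _ : ℕ => 0) (RG t u E (r - 1)).toNat : ℕ)) ∧
      ∀ gs, RepG t r u E gs → ChC W n (100 * 4 ^ (kc + J)) (RBx kc J R) Ψ F
        (fun gs c => EN.EX.EEg (fE kc a (3 * hgt (gs.headD []) + 8)) lam c (rev (gs.headD [])))
        (fun gs c => EN.EX.EEg 0 lam c (gs.getLastD [])) gs}
  have h2 : gf {t | t.length = nn ∧ t ∈ SAL lam ∧ t ∈ LastR kc J R} ≤ 2 * (ENNReal.ofReal Kc * T) := by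
    refine gf_two (A' := A) ?_ ?_
    · rintro t ⟨ht1, ht2, ht3⟩
      obtain ⟨a, r, u, E, b1, b2, b3, b4, b5⟩ := half_class (Ψ := Ψ) (F := F) hk1 hW.mono hW.mem ht3
        (fun N c g => EN.EX.EEg N lam c g) (fun c g => EN.EX.EEg 0 lam c g)
        (fun g hg q => by
          rw [hΨ0]
          exact ((hW.e0 (rev g) (rev_box hg) (2 ^ (kc + 5)) (Nat.pow_le_pow_right (by norm_num) (by omega))).1 q))
        (fun g hg q => by
          have h3 := (hW.e1 (rev g) (rev_box hg)).1 q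
          rw [hgt_rev' hg] at h3
          rw [hΨ]
          exact h3)
        (fun g hg q => by
          rw [hF]
          exact (hW.e2 g hg).1 q)
      exact ⟨a, ⟨ht1, ht2⟩, r, u, E, b1, b2, b3, b4, b5⟩
    · intro a
      refine hcov (A a) (fE kc a) (fun _ => 0) lam nn (fun gs => ChC W n (100 * 4 ^ (kc + J)) (RBx kc J R) Ψ F
        (fun gs c => EN.EX.EEg (fE kc a (3 * hgt (gs.headD []) + 8)) lam c (rev (gs.headD [])))
        (fun gs c => EN.EX.EEg 0 lam c (gs.getLastD [])) gs) (fE_mono kc a) monotone_const ?_ T ?_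
      · rintro t ⟨⟨ht1, ht2⟩, r, u, E, b1, b2, b3, b4, b5⟩
        exact ⟨ht1, ht2, r, u, E, b1, b2, b3, b4, b5⟩
      · intro N
        exact half_sum (w0 := fun gs c => EN.EX.EEg (fE kc a (3 * hgt (gs.headD []) + 8)) lam c (rev (gs.headD [])))
          (w1 := fun gs c => EN.EX.EEg 0 lam c (gs.getLastD [])) hW.wnd (fun _ _ => rfl) (hT N)
  refine h2.trans ?_
  have e2 : (2 : ℝ≥0∞) = ENNReal.ofReal 2 := by simp
  rw [hTd, e2, hBb, ← ENNReal.ofReal_mul (by linarith), ← ENNReal.ofReal_mul (by norm_num),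
    ← ENNReal.ofReal_mul (by positivity)]
  exact ENNReal.ofReal_le_ofReal (half_num hQ hKc hKf hc hδ.le hb0 hUL.le (Ub_pos _).le (Ub_two kc J) hn hJ)

end SIM

end HexObs
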