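import Pool.Agent.SIM.HalfC

/-!
SIM (no double points), half words (HL): the windows, the end functionals and their norms.
-/

set_option autoImplicit false

namespace HexObs

namespace SIM

open Finset TS SDN SDN.CN NTm NTW NTA EN

open scoped ENNReal

/-- the end functional with the height N -/
noncomputable def FE (D N lam : ℕ) (t : List Bool) : ℝ≥0∞ := 1 + ENl D N lam t

/-- the windows of the scale kc, the end functionals of the windows -/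
structure Setup (kc J n lam : ℕ) (X : ℝ≥0∞) (W : ℕ → Set (List Bool)) (kp idx : ℕ → ℕ) : Prop where
  wnd : Wnd kc (J + 2) n W kp
  mono : ∀ h h' : ℕ, h ≤ h' → idx h ≤ idx h'
  mem : ∀ (g : List Bool) (h : ℕ), g ∈ Brd h → 2 ^ (kc + 4) ≤ h → h ≤ 2 ^ (kc + J + 2) → idx h < n ∧ g ∈ W (idx h)
  dmi : ∀ i, i < n → DmJ (kp i) X (FE (2 ^ (kp i + 4)) (2 ^ (kp i + 6)) (lam + 20))
  e0 : ∀ g ∈ BrR (2 ^ (kc + 4)) (2 ^ (kc + J + 2)), ∀ N ≤ 2 ^ (kc + 6), (∀ q, EN.EX.EEg N lam q g ≤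
    EN.EX.Pg (2 ^ (kc + 4)) (2 ^ (kc + 6)) (lam + 20) q g) ∧ EE0 N lam g ≤ FE (2 ^ (kc + 4)) (2 ^ (kc + 6)) (lam + 20) g
  e1 : ∀ g ∈ BrR (2 ^ (kc + 4)) (2 ^ (kc + J + 2)), (∀ q, EN.EX.EEg ((3 * hgt g + 8) / 3 + 1) lam q g ≤
    EN.EX.Pg (2 ^ (kp (idx (hgt g)) + 4)) (2 ^ (kp (idx (hgt g)) + 6)) (lam + 20) q g) ∧
    EE0 ((3 * hgt g + 8) / 3 + 1) lam g ≤ FE (2 ^ (kp (idx (hgt g)) + 4)) (2 ^ (kp (idx (hgt g)) + 6)) (lam + 20) g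
  e2 : ∀ g ∈ BrR (2 ^ (kc + 4)) (2 ^ (kc + J + 2)), (∀ q, EN.EX.EEg 0 lam q g ≤
    EN.EX.Pg (2 ^ (kc + 4)) 0 (lam + 20) q g) ∧ EE0 0 lam g ≤ FE (2 ^ (kc + 4)) 0 (lam + 20) g

lemma rev_box {a b : ℕ} {g : List Bool} (hg : g ∈ BrR a b) : rev g ∈ BrR a b := by
  obtain ⟨h, a1, a2, a3⟩ := hg
  exact ⟨h, a1, a2, Brd_rev a3⟩

theorem setup_exists : ∃ (V : ℕ) (K : ℝ) (k0 : ℕ), 1 ≤ V ∧ 1 ≤ K ∧ ∀ kc J lam lam' : ℕ, k0 ≤ kc → 6 ≤ J →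
    QL (kc + J + 8) lam' → ∃ (W : ℕ → Set (List Bool)) (kp idx : ℕ → ℕ),
      Setup kc J (V * (J + 2)) lam (ENNReal.ofReal K * bl (lam + lam' + 50) (kc + J + 8)) W kp idx := by
  obtain ⟨V, k0, hV1, hwin⟩ := win_family
  obtain ⟨Kf, hKf, hE⟩ := dmP.fin
  refine ⟨V, Kf, max k0 1, hV1, hKf, ?_⟩
  intro kc J lam lam' hkc hJ hQL
  have hk0 : k0 ≤ kc := (le_max_left _ _).trans hkc
  have hk1 : 1 ≤ kc := (le_max_right _ _).trans hkc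
  obtain ⟨W, kp, idx, hW, hidx, hmem⟩ := hwin kc (J + 2) hk0 (by omega)
  refine ⟨W, kp, idx, hW, hidx, hmem, ?_, ?_, ?_, ?_⟩
  · intro i hi
    have h0 : kc ≤ kp i := by
      rw [← hW.zero]
      exact hW.mono 0 i (Nat.zero_le i)
    have h1 := hW.top i hi
    have := hE (kp i + 4) (2 ^ (kp i + 6)) (lam + 20) lam' (by omega) (Nat.pow_lt_pow_right (by norm_num) (by omega))
      (Nat.pow_le_pow_right (by norm_num) (by omega)) (fun a ha => hQL a (by omega))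
    refine DmJ.mono this (mul_le_mul_right ((bl_mono_lam (by omega) _).trans (bl_mono _ ?_)) _)
    omega
  · intro g hg N hN
    obtain ⟨h1, h2⟩ := NTW.EX.Brd_HB le_rfl hg
    exact ⟨fun q => EN.EX.EEg_le h1 hN, (NTW.EX.EE0_le h1).trans (add_le_add le_rfl (ENl_mono le_rfl hN le_rfl _))⟩
  · rintro g ⟨h, a1, a2, a3⟩
    obtain ⟨b1, b2⟩ := hmem g h a3 a1 a2
    have hh : hgt g = h := hgt_eq a3
    rw [hh]
    obtain ⟨h', c1, c2, c3⟩ := hW.sub _ b1 b2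
    have e1 : h' = h := Brd_height c3 a3
    rw [e1] at c1 c2
    have h5 : (3 * h + 8) / 3 + 1 ≤ 2 ^ (kp (idx h) + 6) := by
      have e2 : 2 ^ (kp (idx h) + 6) = 2 * 2 ^ (kp (idx h) + 5) := by ring
      have e3 : (2 : ℕ) ^ 2 ≤ 2 ^ (kp (idx h) + 5) := Nat.pow_le_pow_right (by norm_num) (by omega)
      omega
    obtain ⟨d1, d2⟩ := NTW.EX.Brd_HB le_rfl (hW.sub _ b1 b2)
    exact ⟨fun q => EN.EX.EEg_le d1 h5, (NTW.EX.EE0_le d1).trans (add_le_add le_rfl (ENl_mono le_rfl h5 le_rfl _))⟩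
  · intro g hg
    obtain ⟨h1, h2⟩ := NTW.EX.Brd_HB le_rfl hg
    exact ⟨fun q => EN.EX.EEg_le h1 le_rfl, NTW.EX.EE0_le h1⟩

lemma hgt_rev' {a b : ℕ} {g : List Bool} (hg : g ∈ BrR a b) : hgt (rev g) = hgt g := by
  obtain ⟨h, -, -, a3⟩ := hg
  rw [hgt_eq a3, hgt_eq (Brd_rev a3)]

/-- the norm of the end functional with height 0 -/
theorem norm_FE0 : ∃ c : ℝ, 1 ≤ c ∧ ∀ kc lam : ℕ, HerD (2 ^ (kc + 4)) (FE (2 ^ (kc + 4)) 0 lam) ∧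
    xT (2 ^ (kc + 4)) kc (FE (2 ^ (kc + 4)) 0 lam) ≤ ENNReal.ofReal c ∧
    DmJ kc (ENNReal.ofReal c) (FE (2 ^ (kc + 4)) 0 lam) ∧ Flp (2 ^ (kc + 4)) (FE (2 ^ (kc + 4)) 0 lam) := by
  have hfin : 2 * (1 + gf (SSt 0)) ≠ ⊤ :=
    ENNReal.mul_ne_top (by norm_num) (ENNReal.add_ne_top.2 ⟨ENNReal.one_ne_top, PLW.gf_SSt_fin _⟩)
  obtain ⟨c, hc⟩ : ∃ c, c = (2 * (1 + gf (SSt 0))).toReal := ⟨_, rfl⟩
  have hcc : 2 * (1 + gf (SSt 0)) = ENNReal.ofReal c := by rw [hc, ENNReal.ofReal_toReal hfin]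
  refine ⟨max 1 c, le_max_left _ _, fun kc lam => ?_⟩
  have e : tot (EN.EX.Pg (2 ^ (kc + 4)) 0 lam) = FE (2 ^ (kc + 4)) 0 lam := EN.EX.tot_Pg _ _ _
  have h1 : HerD (2 ^ (kc + 4)) (FE (2 ^ (kc + 4)) 0 lam) := by
    rw [← e]
    exact herD_tot (EN.EX.GH_Pg Nat.one_le_two_pow _ _)
  have h2 : xT (2 ^ (kc + 4)) kc (FE (2 ^ (kc + 4)) 0 lam) ≤ ENNReal.ofReal (max 1 c) := by
    refine le_trans (xT_mono (Ψ := fun _ => 1 + gf (SSt 0)) fun t => ?_) ((NTW.xT_const _ _ _).trans ?_)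
    · exact add_le_add le_rfl (gf_mono fun W hW => hW.1)
    · rw [hcc]
      exact ENNReal.ofReal_le_ofReal (le_max_right _ _)
  refine ⟨h1, h2, (dmP.dm kc _ h1).mono h2, ?_⟩
  rw [← e]
  exact flp_tot fun c => EN.EX.flp_Pg Nat.one_le_two_pow _ _ _

end SIM

end HexObs
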