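import Pool.Agent.SIM.HalfL

/-!
SIM (no double points), half words (HL): the mass without a condition on the number of letters.
-/

set_option autoImplicit false

namespace HexObs

namespace SIM

open Finset TS SDN SDN.CN NTm NTW NTA EN

open scoped ENNReal

/-- the limit of the sums over the chains with at most N letters -/
lemma sum_lim {P : List (List Bool) → Prop} [DecidablePred P] {a b : List (List Bool) → ℝ≥0∞} {T : ℝ≥0∞}
    (h : ∀ N : ℕ, (∑' gs : List (List Bool), if P gs then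
      SDN.wl gs * (∑ q ∈ range (N + 1), (if q = 0 then a gs else 0) * EN.EX.shf (fun _ => b gs) (ll gs) (N - q)) else 0) ≤
        T) :
    (∑' gs : List (List Bool), if P gs then SDN.wl gs * (a gs * b gs) else 0) ≤ T := by
  rw [ENNReal.tsum_eq_iSup_sum]
  refine iSup_le fun s => ?_
  obtain ⟨N, hN⟩ : ∃ N, ∀ gs ∈ s, ll gs ≤ N := ⟨s.sup ll, fun gs hgs => Finset.le_sup (f := ll) hgs⟩
  refine le_trans ?_ ((ENNReal.sum_le_tsum s).trans (h N))
  refine Finset.sum_le_sum fun gs hgs => ?_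
  by_cases hP : P gs
  · rw [if_pos hP, if_pos hP]
    refine mul_le_mul_right ?_ _
    refine le_trans (le_of_eq ?_) (Finset.single_le_sum (f := fun q => (if q = 0 then a gs else 0) *
      EN.EX.shf (fun _ => b gs) (ll gs) (N - q)) (fun _ _ => zero_le) (Finset.mem_range.2 (Nat.succ_pos N)))
    rw [if_pos rfl, Nat.sub_zero]
    unfold EN.EX.shf
    rw [if_pos (hN gs hgs)]
  · rw [if_neg hP, if_neg hP]

/-- a functional without letters -/
noncomputable def Z0 (f : List Bool → ℝ≥0∞) (c : ℕ) (g : List Bool) : ℝ≥0∞ := if c = 0 then f g else 0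

lemma tot_Z0 (f : List Bool → ℝ≥0∞) : tot (Z0 f) = f := by
  funext t
  unfold tot Z0
  rw [tsum_ite_eq]

lemma sum_Z0 (f : List Bool → ℝ≥0∞) (g : List Bool) (v : ℕ → ℝ≥0∞) (N : ℕ) :
    ∑ c ∈ range (N + 1), Z0 f c g * v (N - c) = f g * v N := by
  rw [Finset.sum_eq_single 0]
  · unfold Z0
    rw [if_pos rfl, Nat.sub_zero]
  · intro c _ hc
    unfold Z0
    rw [if_neg hc, zero_mul]
  · intro h
    exact absurd (Finset.mem_range.2 (Nat.succ_pos N)) h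

open Classical in
/-- **half words, at most lam letters** -/
theorem half_l_of (hA : SsA) (hD : SsD) : ∃ (C : ℝ) (k0 : ℕ), 1 ≤ C ∧
    ∀ (kc J lam lam' : ℕ) (R : Set (List (List Bool))) (δ : ℝ), k0 ≤ kc → 6 ≤ J → 0 < δ →
      QL (kc + J + 8) lam' → SmR DmJ kc R δ →
      gf {t | t ∈ SAL lam ∧ t ∈ LastR kc J R} ≤
        ENNReal.ofReal (C ^ J * δ * Ub (kc + J)) * bl (lam + lam' + 50) (kc + J + 8) := by
  obtain ⟨V, Kf, k0, hV, hKf, hset⟩ := setup_exists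
  obtain ⟨Q, hQ, hfun⟩ := half_fun hA hD
  obtain ⟨Kc, hKc, hcov⟩ := coverVR
  obtain ⟨c, hc, hc0⟩ := norm_FE0
  have hC1 : 1 ≤ 8 * Kc * Kf * c * Q ^ (2 * V + 2) := by
    have a1 : 1 ≤ Kc * Kf := one_le_mul_of_one_le_of_one_le hKc hKf
    have a2 : 1 ≤ Kc * Kf * c := one_le_mul_of_one_le_of_one_le a1 hc
    have a3 : 1 ≤ Q ^ (2 * V + 2) := one_le_pow₀ hQ
    have a4 : 1 ≤ Kc * Kf * c * Q ^ (2 * V + 2) := one_le_mul_of_one_le_of_one_le a2 a3
    linarith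
  refine ⟨8 * Kc * Kf * c * Q ^ (2 * V + 2), max k0 1, hC1, ?_⟩
  intro kc J lam lam' R δ hkc hJ hδ hQL hS
  have hk0 : k0 ≤ kc := (le_max_left _ _).trans hkc
  have hk1 : 1 ≤ kc := (le_max_right _ _).trans hkc
  have hUL := Ub_pos (kc + J)
  obtain ⟨B, hB⟩ : ∃ B, B = bl (lam + lam' + 50) (kc + J + 8) := ⟨_, rfl⟩
  obtain ⟨W, kp, idx, hW⟩ := hset kc J lam lam' hk0 hJ hQL
  rw [← hB] at hW ⊢
  by_cases hBt : B = ⊤
  · rw [hBt]
    have h1 : ENNReal.ofReal ((8 * Kc * Kf * c * Q ^ (2 * V + 2)) ^ J * δ * Ub (kc + J)) ≠ 0 := by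
      rw [Ne, ENNReal.ofReal_eq_zero, not_le]
      positivity
    rw [ENNReal.mul_top h1]
    exact le_top
  obtain ⟨b, hb⟩ : ∃ b, b = B.toReal := ⟨_, rfl⟩
  have hb0 : 0 ≤ b := by rw [hb]; exact ENNReal.toReal_nonneg
  have hBb : B = ENNReal.ofReal b := by rw [hb, ENNReal.ofReal_toReal hBt]
  obtain ⟨n, hn⟩ : ∃ n, n = V * (J + 2) := ⟨_, rfl⟩
  rw [← hn] at hW
  have hn1 : 0 < n := by
    rw [hn]
    exact Nat.mul_pos hV (by omega)
  have hX : ENNReal.ofReal Kf * B = ENNReal.ofReal (Kf * b) := by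
    rw [hBb, ENNReal.ofReal_mul (by linarith)]
  rw [hX] at hW
  obtain ⟨Ψ, hΨ⟩ : ∃ Ψ : ℕ → ℕ → List Bool → ℝ≥0∞,
    Ψ = fun i => Z0 (FE (2 ^ (kp i + 4)) (2 ^ (kp i + 6)) (lam + 20)) := ⟨_, rfl⟩
  obtain ⟨Φ, hΦ⟩ : ∃ Φ : List Bool → ℝ≥0∞, Φ = FE (2 ^ (kc + 4)) 0 (lam + 20) := ⟨_, rfl⟩
  obtain ⟨F, hF⟩ : ∃ F : ℕ → List Bool → ℝ≥0∞, F = fun _ => Φ := ⟨_, rfl⟩
  have hΨt : ∀ i, tot (Ψ i) = FE (2 ^ (kp i + 4)) (2 ^ (kp i + 6)) (lam + 20) := fun i => by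
    rw [hΨ]
    exact tot_Z0 _
  have hΦD : DmJ kc (ENNReal.ofReal c) Φ := by
    rw [hΦ]
    exact (hc0 kc (lam + 20)).2.2.1
  have hΨ0 : Ψ 0 = Z0 (FE (2 ^ (kc + 4)) (2 ^ (kc + 6)) (lam + 20)) := by
    rw [hΨ]
    simp only [hW.wnd.zero]
  have hD0 : DmJ kc (ENNReal.ofReal (Kf * b)) (FE (2 ^ (kc + 4)) (2 ^ (kc + 6)) (lam + 20)) := by
    have h1 := hW.dmi 0 hn1
    rwa [hW.wnd.zero] at h1
  have hR' : SmR DmJ kc (RBx kc J R) δ := SmR_mono (fun gs h => h.1) hS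
  have hg0 : 0 ≤ δ * c := by positivity
  have hKb0 : 0 ≤ Kf * b := by positivity
  have hrF : ∀ N g, sh (runG (RBx kc J R) F) N g ≤ runF (RBx kc J R) Φ g := fun N g =>
    sh_le (fun n => runG_le_runF (fun n t => by rw [hF]) n g) N
  have hG : xT (2 ^ (kc + 4)) kc (EN.EX.Gm kc (RBx kc J R) F) ≤ ENNReal.ofReal (δ * c) := by
    rw [ENNReal.ofReal_mul hδ.le]
    refine le_trans (xT_mono fun t => iSup_le fun N => ?_) (hR'.near _ Φ hΦD)
    exact vA_monoF (fun g => hrF N g) t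
  have hfl : Flp (2 ^ (kc + 4)) (FE (2 ^ (kc + 4)) (2 ^ (kc + 6)) (lam + 20)) := by
    have e : tot (EN.EX.Pg (2 ^ (kc + 4)) (2 ^ (kc + 6)) (lam + 20)) = FE (2 ^ (kc + 4)) (2 ^ (kc + 6)) (lam + 20) :=
      EN.EX.tot_Pg _ _ _
    rw [← e]
    exact flp_tot fun c => EN.EX.flp_Pg Nat.one_le_two_pow _ _ _
  have h1 : ∀ N, Rec8.sw (HB (2 ^ (kc + 4))) (fun z => ∑ c ∈ range (N + 1), Ψ 0 c (rev z) *
      sh (runG (RBx kc J R) F) (N - c) z) ≤ ENNReal.ofReal (Ub kc * (Kf * b) * (δ * c)) := by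
    intro N
    refine le_trans (Rec8.sw_mono' fun z _ => ?_) ((hR'.free _ _ _ Φ hD0 hfl hΦD).trans (le_of_eq ?_))
    · rw [hΨ0, sum_Z0 _ _ (fun m => sh (runG (RBx kc J R) F) m z)]
      exact mul_le_mul_right (hrF N z) _
    · rw [← ENNReal.ofReal_mul hKb0, ← ENNReal.ofReal_mul (by have := Ub_pos kc; positivity)]
      congr 1
      ring
  have hT := hfun kc (J + 2) n W kp (RBx kc J R) (δ * c) (Kf * b) Ψ F hW.wnd hg0 hKb0
    (fun i hi => by rw [hΨt i]; exact dmP.dom _ _ _ (hW.dmi i hi)) hG h1 (100 * 4 ^ (kc + J))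
  obtain ⟨T, hTd⟩ : ∃ T, T = ENNReal.ofReal (Q ^ (n + (J + 2) + 1) * (δ * c) * Ub (kc + (J + 2)) * (Kf * b)) := ⟨_, rfl⟩
  rw [← hTd] at hT
  let A : Bool → Set (List Bool) := fun a => {t | t ∈ SAL lam ∧ ∃ (r u : ℕ) (E : ℕ → ℕ),
    1 ≤ r ∧ FoldG t r u E ∧
      (∀ i, i < E 0 → Tight.sg u (lev t i) - Tight.sg u (lev t (E 0)) ≤ 3 * (fE kc a (RG t u E 0).toNat : ℕ)) ∧
      (∀ i, E r < i → i ≤ t.length → Tight.sg (u + (r - 1)) (lev t (E r)) - Tight.sg (u + (r - 1)) (lev t i) ≤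
        3 * ((fun _ : ℕ => 0) (RG t u E (r - 1)).toNat : ℕ)) ∧
      ∀ gs, RepG t r u E gs → ChC W n (100 * 4 ^ (kc + J)) (RBx kc J R) Ψ F
        (fun gs c => Z0 (EE0 (fE kc a (3 * hgt (gs.headD []) + 8)) lam) c (rev (gs.headD [])))
        (fun gs _ => EE0 0 lam (gs.getLastD [])) gs}
  have h2 : gf {t | t ∈ SAL lam ∧ t ∈ LastR kc J R} ≤ 2 * (ENNReal.ofReal Kc * T) := by
    refine gf_two (A' := A) ?_ ?_
    · rintro t ⟨ht2, ht3⟩
      obtain ⟨a, r, u, E, b1, b2, b3, b4, b5⟩ := half_class (Ψ := Ψ) (F := F) hk1 hW.mono hW.mem ht3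
        (fun N c g => Z0 (EE0 N lam) c g) (fun _ g => EE0 0 lam g)
        (fun g hg q => by
          rw [hΨ0]
          unfold Z0
          split_ifs
          · exact ((hW.e0 (rev g) (rev_box hg) (2 ^ (kc + 5)) (Nat.pow_le_pow_right (by norm_num) (by omega))).2)
          · exact le_rfl)
        (fun g hg q => by
          have h3 := (hW.e1 (rev g) (rev_box hg)).2
          rw [hgt_rev' hg] at h3
          rw [hΨ]
          show Z0 _ q (rev g) ≤ Z0 _ q (rev g)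
          unfold Z0
          split_ifs
          · exact h3
          · exact le_rfl)
        (fun g hg q => by
          rw [hF, hΦ]
          exact (hW.e2 g hg).2)
      exact ⟨a, ht2, r, u, E, b1, b2, b3, b4, b5⟩
    · intro a
      refine (hcov (A a) (fE kc a) (fun _ => 0) lam (fun gs => ChC W n (100 * 4 ^ (kc + J)) (RBx kc J R) Ψ F
        (fun gs c => Z0 (EE0 (fE kc a (3 * hgt (gs.headD []) + 8)) lam) c (rev (gs.headD [])))
        (fun gs _ => EE0 0 lam (gs.getLastD [])) gs) (fE_mono kc a) monotone_const ?_).trans (mul_le_mul_right ?_ _)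
      · rintro t ⟨ht2, r, u, E, b1, b2, b3, b4, b5⟩
        exact ⟨ht2, r, u, E, b1, b2, b3, b4, b5⟩
      · refine sum_lim fun N => ?_
        exact half_sum (w0 := fun gs c => Z0 (EE0 (fE kc a (3 * hgt (gs.headD []) + 8)) lam) c (rev (gs.headD [])))
          (w1 := fun gs _ => EE0 0 lam (gs.getLastD [])) hW.wnd (fun _ _ => rfl) (hT N)
  refine h2.trans ?_
  have e2 : (2 : ℝ≥0∞) = ENNReal.ofReal 2 := by simp
  rw [hTd, e2, hBb, ← ENNReal.ofReal_mul (by linarith), ← ENNReal.ofReal_mul (by norm_num),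
    ← ENNReal.ofReal_mul (by positivity)]
  exact ENNReal.ofReal_le_ofReal (half_num hQ hKc hKf hc hδ.le hb0 hUL.le (Ub_pos _).le (Ub_two kc J) hn hJ)

end SIM

end HexObs
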