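import Pool.Agent.SIM.Cross

/-!
SIM: the robust hit. alpha = a path of height at least ha in a column of width la, beta = a path of lateral
displacement at least lb in a slab of height hb. A path g with displacement at least ex (lateral) or ey (height) has a
piece near its start that meets alpha (or beta) after every translation of a box of radius r around an explicit
translation.
-/

set_option autoImplicit false

namespace SIM

open Finset HexObs HexObs.Planar

lemma adj_symm {p q : ℤ × ℤ} (h : Adj p q) : Adj q p := Or.symm h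

lemma adj_add {p q u : ℤ × ℤ} (h1 : u.2 % 3 = 0) (h2 : (u.1 + u.2) % 2 = 0) (h : Adj p q) : Adj (p + u) (q + u) := by
  unfold Adj EE at *
  simp only [Prod.fst_add, Prod.snd_add]
  omega

lemma adj_le {p q : ℤ × ℤ} (h : Adj p q) : |q.1 - p.1| ≤ 1 ∧ |q.2 - p.2| ≤ 2 := by
  unfold Adj EE at h
  rw [abs_le, abs_le]
  omega

/-- the path from index i to index j, forwards or backwards -/
lemma subpath {g : ℕ → ℤ × ℤ} {m q : ℕ} (hg : ∀ j, j < m → Adj (g j) (g (j + 1))) (hq : q ≤ m) {i j : ℕ}
    (hi : i ≤ q) (hj : j ≤ q) : ∃ (h : ℕ → ℤ × ℤ) (n : ℕ), (∀ k, k < n → Adj (h k) (h (k + 1))) ∧ h 0 = g i ∧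
      h n = g j ∧ ∀ k, k ≤ n → ∃ l, l ≤ q ∧ h k = g l := by
  rcases le_total i j with hij | hij
  · refine ⟨fun k => g (i + k), j - i, fun k hk => hg (i + k) (by omega), rfl, ?_, fun k hk => ⟨i + k, by omega, rfl⟩⟩
    show g (i + (j - i)) = g j
    rw [show i + (j - i) = j by omega]
  · refine ⟨fun k => g (i - k), i - j, fun k hk => ?_, rfl, ?_, fun k hk => ⟨i - k, by omega, rfl⟩⟩
    · have h1 := hg (i - (k + 1)) (by omega)
      rw [show i - (k + 1) + 1 = i - k by omega] at h1
      exact adj_symm h1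
    · show g (i - (i - j)) = g j
      rw [show i - (i - j) = j by omega]

/-- translation of a path -/
lemma cross_tr {g : ℕ → ℤ × ℤ} {m : ℕ} {u : ℤ × ℤ} (h1 : u.2 % 3 = 0) (h2 : (u.1 + u.2) % 2 = 0)
    (hg : ∀ j, j < m → Adj (g j) (g (j + 1))) : ∀ j, j < m → Adj (g j + u) (g (j + 1) + u) :=
  fun j hj => adj_add h1 h2 (hg j hj)

/-- the translations near u make g [0, q] meet the path a -/
def Hits (a : ℕ → ℤ × ℤ) (n : ℕ) (g : ℕ → ℤ × ℤ) (q : ℕ) (u : ℤ × ℤ) (r : ℤ) : Prop :=
  ∀ u' : ℤ × ℤ, u'.2 % 3 = 0 → (u'.1 + u'.2) % 2 = 0 → |u'.1 - u.1| ≤ r → |u'.2 - u.2| ≤ r →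
    ∃ i j, i ≤ n ∧ j ≤ q ∧ a i = g j + u'

/-- the first time at which the lateral extent is ex or the height is ey -/
lemma first_ext {g : ℕ → ℤ × ℤ} {m : ℕ} {ex ey : ℤ} (hx : 0 < ex) (hy : 0 < ey)
    (hg : ∀ j, j < m → Adj (g j) (g (j + 1)))
    (hm : ex ≤ |(g m).1 - (g 0).1| ∨ ey ≤ |(g m).2 - (g 0).2|) :
    ∃ q, q ≤ m ∧ (∀ i j, i ≤ q → j ≤ q → (g j).1 - (g i).1 ≤ ex ∧ (g j).2 - (g i).2 ≤ ey + 1) ∧
      ∃ i j, i ≤ q ∧ j ≤ q ∧ (ex ≤ (g j).1 - (g i).1 ∨ ey ≤ (g j).2 - (g i).2) := by
  classical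
  set P : ℕ → Prop := fun q => ∃ i j, i ≤ q ∧ j ≤ q ∧
    (ex ≤ (g j).1 - (g i).1 ∨ ey ≤ (g j).2 - (g i).2) with hP
  have hPm : P m := by
    rcases hm with h | h
    · rcases le_total 0 ((g m).1 - (g 0).1) with h0 | h0
      · rw [abs_of_nonneg h0] at h
        exact ⟨0, m, by omega, le_rfl, Or.inl h⟩
      · rw [abs_of_nonpos h0] at h
        exact ⟨m, 0, le_rfl, by omega, Or.inl (by linarith)⟩
    · rcases le_total 0 ((g m).2 - (g 0).2) with h0 | h0
      · rw [abs_of_nonneg h0] at h
        exact ⟨0, m, by omega, le_rfl, Or.inr h⟩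
      · rw [abs_of_nonpos h0] at h
        exact ⟨m, 0, le_rfl, by omega, Or.inr (by linarith)⟩
  have hex : ∃ q, P q := ⟨m, hPm⟩
  set q := Nat.find hex with hqd
  have hq : P q := Nat.find_spec hex
  have hqm : q ≤ m := Nat.find_min' hex hPm
  have hq0 : q ≠ 0 := by
    intro h0
    obtain ⟨i, j, hi, hj, h⟩ := hq
    have : i = 0 := by omega
    have : j = 0 := by omega
    subst i
    subst j
    omega
  have hpre : ¬ P (q - 1) := Nat.find_min hex (by omega)
  have hpre' : ∀ i j, i ≤ q - 1 → j ≤ q - 1 → (g j).1 - (g i).1 < ex ∧ (g j).2 - (g i).2 < ey := by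
    intro i j hi hj
    by_contra hcon
    apply hpre
    refine ⟨i, j, hi, hj, ?_⟩
    by_contra h2
    push Not at h2
    exact hcon h2
  have hext : ∀ i j, i ≤ q → j ≤ q → (g j).1 - (g i).1 ≤ ex ∧ (g j).2 - (g i).2 ≤ ey + 1 := by
    have hstep := adj_le (hg (q - 1) (by omega))
    rw [show q - 1 + 1 = q by omega, abs_le, abs_le] at hstep
    intro i j hi hj
    rcases Nat.lt_or_ge i q with h1 | h1 <;> rcases Nat.lt_or_ge j q with h2 | h2
    · have := hpre' i j (by omega) (by omega)
      omega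
    · have h3 : j = q := by omega
      subst h3
      have := hpre' i (q - 1) (by omega) le_rfl
      omega
    · have h3 : i = q := by omega
      subst h3
      have := hpre' (q - 1) j le_rfl (by omega)
      omega
    · have h3 : i = q := by omega
      have h4 : j = q := by omega
      rw [h3, h4]
      omega
  exact ⟨q, hqm, hext, hq⟩

/-- **THE ROBUST HIT** -/
theorem hit_gen {α β : ℕ → ℤ × ℤ} {nα nβ : ℕ} {la ha lb hb ex ey r : ℤ} (hr : 0 ≤ r) (hx : 0 < ex) (hy : 0 < ey)
    (p1 : la + 2 * r + 2 ≤ ex) (p2 : ey + 2 * r + 3 ≤ ha) (p3 : ex + 2 * r + 2 ≤ lb) (p4 : hb + 2 * r + 2 ≤ ey)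
    (hα : ∀ i, i < nα → Adj (α i) (α (i + 1))) (hα1 : ha ≤ |(α nα).2 - (α 0).2|)
    (hα2 : ∀ i j, i ≤ nα → j ≤ nα → (α i).1 - (α j).1 ≤ la)
    (hβ : ∀ i, i < nβ → Adj (β i) (β (i + 1))) (hβ1 : lb ≤ |(β nβ).1 - (β 0).1|)
    (hβ2 : ∀ i j, i ≤ nβ → j ≤ nβ → (β i).2 - (β j).2 ≤ hb) :
    ∃ cα cβ : ℤ × ℤ, |cα.1 - (α 0).1| ≤ la + 1 + r ∧ |cα.2 - (α 0).2| ≤ 1 + r ∧ |cβ.1 - (β 0).1| ≤ 1 + r ∧
      |cβ.2 - (β 0).2| ≤ hb + 1 + r ∧ ∀ (g : ℕ → ℤ × ℤ) (m : ℕ), (∀ j, j < m → Adj (g j) (g (j + 1))) →
        (ex ≤ |(g m).1 - (g 0).1| ∨ ey ≤ |(g m).2 - (g 0).2|) →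
        ∃ q, q ≤ m ∧ (∀ j, j ≤ q → |(g j).1 - (g 0).1| ≤ ex ∧ |(g j).2 - (g 0).2| ≤ ey + 1) ∧
          ∃ cg : ℤ × ℤ, |cg.1 - (g 0).1| ≤ ex ∧ |cg.2 - (g 0).2| ≤ ey + 1 ∧
            (Hits α nα g q (cα - cg) r ∨ Hits β nβ g q (cβ - cg) r) := by
  classical
  obtain ⟨ix, hix, hminα⟩ := Finset.exists_min_image (Finset.range (nα + 1)) (fun j => (α j).1) ⟨0, by simp⟩
  simp only [Finset.mem_range] at hix hminα
  obtain ⟨iy, hiy, hminβ⟩ := Finset.exists_min_image (Finset.range (nβ + 1)) (fun j => (β j).2) ⟨0, by simp⟩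
  simp only [Finset.mem_range] at hiy hminβ
  -- the two centres
  obtain ⟨cα, hcα1, hcα2⟩ : ∃ cα : ℤ × ℤ, cα.1 = (α ix).1 - 1 - r ∧
      ((0 ≤ (α nα).2 - (α 0).2 → cα.2 = (α 0).2 + 1 + r) ∧ ((α nα).2 - (α 0).2 < 0 → cα.2 = (α 0).2 - 1 - r)) := by
    rcases lt_or_ge ((α nα).2 - (α 0).2) 0 with h | h
    · exact ⟨((α ix).1 - 1 - r, (α 0).2 - 1 - r), rfl, fun h' => by omega, fun _ => rfl⟩
    · exact ⟨((α ix).1 - 1 - r, (α 0).2 + 1 + r), rfl, fun _ => rfl, fun h' => by omega⟩
  obtain ⟨cβ, hcβ2, hcβ1⟩ : ∃ cβ : ℤ × ℤ, cβ.2 = (β iy).2 - 1 - r ∧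
      ((0 ≤ (β nβ).1 - (β 0).1 → cβ.1 = (β 0).1 + 1 + r) ∧ ((β nβ).1 - (β 0).1 < 0 → cβ.1 = (β 0).1 - 1 - r)) := by
    rcases lt_or_ge ((β nβ).1 - (β 0).1) 0 with h | h
    · exact ⟨((β 0).1 - 1 - r, (β iy).2 - 1 - r), rfl, fun h' => by omega, fun _ => rfl⟩
    · exact ⟨((β 0).1 + 1 + r, (β iy).2 - 1 - r), rfl, fun _ => rfl, fun h' => by omega⟩
  refine ⟨cα, cβ, ?_, ?_, ?_, ?_, ?_⟩
  · have h1 := hα2 0 ix (by omega) (by omega)
    have h2 := hminα 0 (by omega)
    rw [abs_le]
    omega
  · rw [abs_le]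
    rcases lt_or_ge ((α nα).2 - (α 0).2) 0 with h | h
    · have := hcα2.2 h
      omega
    · have := hcα2.1 h
      omega
  · rw [abs_le]
    rcases lt_or_ge ((β nβ).1 - (β 0).1) 0 with h | h
    · have := hcβ1.2 h
      omega
    · have := hcβ1.1 h
      omega
  · have hβ3 := hβ2 0 iy (by omega) (by omega)
    have hβ4 := hminβ 0 (by omega)
    rw [abs_le]
    omega
  intro g m hg hm
  obtain ⟨q, hqm, hext, i, j, hi, hj, h⟩ := first_ext hx hy hg hm
  refine ⟨q, hqm, ?_, ?_⟩
  · intro j hj
    have h1 := hext 0 j (by omega) hj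
    have h2 := hext j 0 hj (by omega)
    rw [abs_le, abs_le]
    omega
  obtain ⟨h', n', hadj, hh0, hhn, hsub⟩ := subpath hg hqm hi hj
  have h3 := hext 0 i (by omega) hi
  have h4 := hext i 0 hi (by omega)
  rcases h with h | h
  · -- lateral: alpha
    rcases lt_or_ge ((α nα).2 - (α 0).2) 0 with hs | hs
    · -- alpha goes down
      rw [abs_of_neg hs] at hα1
      have hc := hcα2.2 hs
      obtain ⟨jy, hjy, hmaxy⟩ := Finset.exists_max_image (Finset.range (q + 1)) (fun j => (g j).2) ⟨0, by simp⟩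
      simp only [Finset.mem_range] at hjy hmaxy
      have h5 := hext 0 jy (by omega) (by omega)
      have h6 := hext jy 0 (by omega) (by omega)
      refine ⟨((g i).1, (g jy).2), ?_, ?_, Or.inl ?_⟩
      · rw [abs_le]
        simp only
        omega
      · rw [abs_le]
        simp only
        omega
      · intro u' c1 c2 d1 d2
        rw [abs_le] at d1 d2
        simp only [Prod.fst_sub, Prod.snd_sub] at d1 d2
        obtain ⟨b', nb, hb, hb0, hbn, hbsub⟩ := subpath (g := α) (m := nα) (q := nα) hα le_rfl (i := nα) (j := 0)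
          le_rfl (by omega)
        obtain ⟨k, l, hk, hl, hkl⟩ := cross_rect (a := b') (g := fun k => h' k + u') (n := nb) (m := n') hb
          (cross_tr c1 c2 hadj) (x0 := (α ix).1 - 1) (x1 := (α ix).1 + la + 1)
          (y0 := (α nα).2) (y1 := (α 0).2) (by rw [hb0]) (by rw [hbn])
          (fun k hk => by
            obtain ⟨l, hl, hl'⟩ := hbsub k hk
            have h1 := hminα l (by omega)
            have h2 := hα2 l ix hl (by omega)
            rw [hl']
            omega)
          (by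
            simp only [hh0, Prod.fst_add]
            omega)
          (by
            simp only [hhn, Prod.fst_add]
            omega)
          (fun k hk => by
            obtain ⟨l, hl, hl'⟩ := hsub k hk
            have h1 := hmaxy l (by omega)
            have h2 := hext l jy hl (by omega)
            simp only [hl', Prod.snd_add]
            omega)
        obtain ⟨l', hl', hl''⟩ := hsub l hl
        obtain ⟨l1, hl1, hl2⟩ := hbsub k hk
        exact ⟨l1, l', hl1, hl', by rw [← hl2, hkl, hl'']⟩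
    · -- alpha goes up
      rw [abs_of_nonneg hs] at hα1
      have hc := hcα2.1 hs
      obtain ⟨jy, hjy, hminy⟩ := Finset.exists_min_image (Finset.range (q + 1)) (fun j => (g j).2) ⟨0, by simp⟩
      simp only [Finset.mem_range] at hjy hminy
      have h5 := hext 0 jy (by omega) (by omega)
      have h6 := hext jy 0 (by omega) (by omega)
      refine ⟨((g i).1, (g jy).2), ?_, ?_, Or.inl ?_⟩
      · rw [abs_le]
        simp only
        omega
      · rw [abs_le]
        simp only
        omega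
      · intro u' c1 c2 d1 d2
        rw [abs_le] at d1 d2
        simp only [Prod.fst_sub, Prod.snd_sub] at d1 d2
        obtain ⟨k, l, hk, hl, hkl⟩ := cross_rect (a := α) (g := fun k => h' k + u') (n := nα) (m := n') hα
          (cross_tr c1 c2 hadj) (x0 := (α ix).1 - 1) (x1 := (α ix).1 + la + 1)
          (y0 := (α 0).2) (y1 := (α nα).2) le_rfl le_rfl
          (fun k hk => by
            have h1 := hminα k (by omega)
            have h2 := hα2 k ix hk (by omega)
            omega)
          (by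
            simp only [hh0, Prod.fst_add]
            omega)
          (by
            simp only [hhn, Prod.fst_add]
            omega)
          (fun k hk => by
            obtain ⟨l, hl, hl'⟩ := hsub k hk
            have h1 := hminy l (by omega)
            have h2 := hext jy l (by omega) hl
            simp only [hl', Prod.snd_add]
            omega)
        obtain ⟨l', hl', hl''⟩ := hsub l hl
        exact ⟨k, l', hk, hl', by rw [hkl, hl'']⟩
  · -- height: beta
    rcases lt_or_ge ((β nβ).1 - (β 0).1) 0 with hs | hs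
    · -- beta goes to the left
      rw [abs_of_neg hs] at hβ1
      have hc := hcβ1.2 hs
      obtain ⟨jX, hjX, hmaxx⟩ := Finset.exists_max_image (Finset.range (q + 1)) (fun j => (g j).1) ⟨0, by simp⟩
      simp only [Finset.mem_range] at hjX hmaxx
      have h5 := hext 0 jX (by omega) (by omega)
      have h6 := hext jX 0 (by omega) (by omega)
      refine ⟨((g jX).1, (g i).2), ?_, ?_, Or.inr ?_⟩
      · rw [abs_le]
        simp only
        omega
      · rw [abs_le]
        simp only
        omega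
      · intro u' c1 c2 d1 d2
        rw [abs_le] at d1 d2
        simp only [Prod.fst_sub, Prod.snd_sub] at d1 d2
        obtain ⟨b', nb, hb, hb0, hbn, hbsub⟩ := subpath (g := β) (m := nβ) (q := nβ) hβ le_rfl (i := nβ) (j := 0)
          le_rfl (by omega)
        obtain ⟨k, l, hk, hl, hkl⟩ := cross_rect (a := fun k => h' k + u') (g := b') (n := n') (m := nb)
          (cross_tr c1 c2 hadj) hb (x0 := (β nβ).1) (x1 := (β 0).1) (y0 := (β iy).2 - 1)
          (y1 := (β iy).2 - 1 - 2 * r + ey)
          (by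
            simp only [hh0, Prod.snd_add]
            omega)
          (by
            simp only [hhn, Prod.snd_add]
            omega)
          (fun k hk => by
            obtain ⟨l, hl, hl'⟩ := hsub k hk
            have h1 := hmaxx l (by omega)
            have h2 := hext l jX hl (by omega)
            simp only [hl', Prod.fst_add]
            omega)
          (by rw [hb0]) (by rw [hbn])
          (fun k hk => by
            obtain ⟨l, hl, hl'⟩ := hbsub k hk
            have h1 := hminβ l (by omega)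
            have h2 := hβ2 l iy hl (by omega)
            rw [hl']
            omega)
        obtain ⟨l', hl', hl''⟩ := hsub k hk
        obtain ⟨l1, hl1, hl2⟩ := hbsub l hl
        exact ⟨l1, l', hl1, hl', by rw [← hl2, ← hkl, hl'']⟩
    · -- beta goes to the right
      rw [abs_of_nonneg hs] at hβ1
      have hc := hcβ1.1 hs
      obtain ⟨jx, hjx, hminx⟩ := Finset.exists_min_image (Finset.range (q + 1)) (fun j => (g j).1) ⟨0, by simp⟩
      simp only [Finset.mem_range] at hjx hminx
      have h5 := hext 0 jx (by omega) (by omega)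
      have h6 := hext jx 0 (by omega) (by omega)
      refine ⟨((g jx).1, (g i).2), ?_, ?_, Or.inr ?_⟩
      · rw [abs_le]
        simp only
        omega
      · rw [abs_le]
        simp only
        omega
      · intro u' c1 c2 d1 d2
        rw [abs_le] at d1 d2
        simp only [Prod.fst_sub, Prod.snd_sub] at d1 d2
        obtain ⟨k, l, hk, hl, hkl⟩ := cross_rect (a := fun k => h' k + u') (g := β) (n := n') (m := nβ)
          (cross_tr c1 c2 hadj) hβ (x0 := (β 0).1) (x1 := (β nβ).1) (y0 := (β iy).2 - 1)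
          (y1 := (β iy).2 - 1 - 2 * r + ey)
          (by
            simp only [hh0, Prod.snd_add]
            omega)
          (by
            simp only [hhn, Prod.snd_add]
            omega)
          (fun k hk => by
            obtain ⟨l, hl, hl'⟩ := hsub k hk
            have h1 := hminx l (by omega)
            have h2 := hext jx l (by omega) hl
            simp only [hl', Prod.fst_add]
            omega)
          le_rfl le_rfl
          (fun k hk => by
            have h1 := hminβ k (by omega)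
            have h2 := hβ2 k iy hk (by omega)
            omega)
        obtain ⟨l', hl', hl''⟩ := hsub k hk
        exact ⟨l, l', hl, hl', by rw [← hkl, hl'']⟩

end SIM
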