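import Pool.Agent.SIM.Count
import Pool.Agent.HexObs.Planar

/-!
# SIM (no double points): the number of the translations that nearly touch (helper69)

* `AdP`: neighbouring vertices; `Pth g m`: a path with `m` steps;
* `GoodPt a n p ρ R`: near `p` the path `a` contains two pieces such that every path of extent `20 ρ` robustly meets a
  translate of one of them;
* **`vcount`**: if `a` is good at every scale `s < S` around the touching points, the number of the translations `v` in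
  the box of radius `D` such that `b + v` is disjoint from `a` and nearly touches it is at most `C D ^ 2` divided by
  `∑ s < S, ρ s / R s`.
-/

set_option autoImplicit false

namespace HexObs

namespace SIM

open Finset

/-- neighbouring vertices of the honeycomb lattice -/
def AdP (p q : Pt) : Prop := (cl p = 0 ∧ q - p ∈ dirs ∧ cl (q - p) = 2) ∨ (cl q = 0 ∧ p - q ∈ dirs ∧ cl (p - q) = 2)

/-- a path with m steps -/
def Pth (g : ℕ → Pt) (m : ℕ) : Prop := ∀ k, k < m → AdP (g k) (g (k + 1))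

/-- every path of extent `20 ρ` robustly meets a translate of one of two pieces of `a` near `p`: the centre of the
translations is `c t - cg`, where `c t` does not depend on the path -/
def GoodPt (a : ℕ → Pt) (n : ℕ) (p : Pt) (ρ R : ℕ) : Prop :=
  ∃ c : Bool → Pt, (∀ t, c t ∈ Bl p (2 * R)) ∧ ∀ (g : ℕ → Pt) (m : ℕ), Pth g m → (∃ k, k ≤ m ∧ g k ∉ Bl (g 0) (20 * ρ)) →
    ∃ cg ∈ Bl (g 0) (16 * ρ), ∃ t, ∀ u : Pt, cl u = 0 → u ∈ Bl (c t - cg) (ρ / 8) →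
      ∃ k, k ≤ m ∧ ∃ k', k' ≤ n ∧ g k + u = a k'

lemma dirs_le : ∀ d ∈ dirs, |d.1| ≤ 1 ∧ |d.2| ≤ 1 := by decide

lemma AdP_step {p q : Pt} (h : AdP p q) : q ∈ Bl p 1 := by
  rcases h with ⟨-, h, -⟩ | ⟨-, h, -⟩
  · exact dirs_le _ h
  · have := dirs_le _ h
    refine ⟨?_, ?_⟩
    · rw [abs_sub_comm]
      exact this.1
    · rw [abs_sub_comm]
      exact this.2

lemma AdP_symm {p q : Pt} (h : AdP p q) : AdP q p := Or.symm h

lemma Pth_tail {g : ℕ → Pt} {m : ℕ} (h : Pth g m) {j : ℕ} (hj : j ≤ m) : Pth (fun k => g (j + k)) (m - j) :=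
  fun k hk => h (j + k) (by omega)

lemma Pth_le {g : ℕ → Pt} {m m' : ℕ} (h : Pth g m) (hm : m' ≤ m) : Pth g m' := fun k hk => h k (by omega)

lemma Pth_rev {g : ℕ → Pt} {m j : ℕ} (h : Pth g m) (hj : j ≤ m) : Pth (fun k => g (j - k)) j := by
  intro k hk
  have h1 := h (j - k - 1) (by omega)
  rw [show j - k - 1 + 1 = j - k by omega] at h1
  exact AdP_symm h1

/-- a path from b j to b j' -/
lemma exists_sub {b : ℕ → Pt} {m : ℕ} (hb : Pth b m) {j j' : ℕ} (hj : j ≤ m) (hj' : j' ≤ m) :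
    ∃ (g : ℕ → Pt) (L : ℕ), Pth g L ∧ g 0 = b j ∧ g L = b j' ∧ ∀ k, k ≤ L → ∃ i, i ≤ m ∧ g k = b i := by
  rcases le_total j j' with h | h
  · refine ⟨fun k => b (j + k), j' - j, Pth_le (Pth_tail hb hj) (by omega), rfl, ?_, fun k hk => ⟨j + k, by omega, rfl⟩⟩
    show b (j + (j' - j)) = b j'
    rw [show j + (j' - j) = j' by omega]
  · refine ⟨fun k => b (j - k), j - j', Pth_le (Pth_rev hb hj) (by omega), rfl, ?_, fun k hk => ⟨j - k, by omega, rfl⟩⟩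
    show b (j - (j - j')) = b j'
    rw [show j - (j - j') = j' by omega]

/-- the first exit of the ball of radius r -/
lemma first_exit {g : ℕ → Pt} {L : ℕ} (hg : Pth g L) {r : ℕ} {k0 : ℕ} (hk0 : k0 ≤ L) (h : g k0 ∉ Bl (g 0) r) :
    ∃ τ, τ ≤ k0 ∧ g τ ∉ Bl (g 0) r ∧ g τ ∈ Bl (g 0) (r + 1) ∧ ∀ k, k < τ → g k ∈ Bl (g 0) r := by
  classical
  have hex : ∃ k, g k ∉ Bl (g 0) r := ⟨k0, h⟩
  refine ⟨Nat.find hex, Nat.find_min' hex h, Nat.find_spec hex, ?_, fun k hk => not_not.1 (Nat.find_min hex hk)⟩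
  have h0 : Nat.find hex ≠ 0 := by
    intro h0
    have := Nat.find_spec hex
    rw [h0] at this
    exact this ⟨by simp, by simp⟩
  obtain ⟨q, hq⟩ : ∃ q, Nat.find hex = q + 1 := ⟨Nat.find hex - 1, by omega⟩
  have h1 : g q ∈ Bl (g 0) r := not_not.1 (Nat.find_min hex (by omega))
  have h2 : g (q + 1) ∈ Bl (g q) 1 := AdP_step (hg q (by have := Nat.find_min' hex h; omega))
  rw [hq]
  obtain ⟨a1, a2⟩ := h1
  obtain ⟨b1, b2⟩ := h2
  rw [abs_le] at a1 a2 b1 b2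
  refine ⟨?_, ?_⟩ <;> rw [abs_le] <;> push_cast at * <;> constructor <;> linarith [a1.1, a1.2, a2.1, a2.2, b1.1, b1.2, b2.1, b2.2]

lemma mem_Bl {y z : ℤ × ℤ} {r : ℕ} : z ∈ Bl y r ↔ (y.1 - r ≤ z.1 ∧ z.1 ≤ y.1 + r) ∧ (y.2 - r ≤ z.2 ∧ z.2 ≤ y.2 + r) := by
  unfold Bl
  rw [Set.mem_ofPred_eq, abs_le, abs_le]
  constructor <;> rintro ⟨⟨h1, h2⟩, h3, h4⟩ <;> exact ⟨⟨by linarith, by linarith⟩, by linarith, by linarith⟩

/-- the translations of class 0 in the set meet -/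
def Tm (a b : ℕ → Pt) (n m : ℕ) : Set (ℤ × ℤ) := {y | cl y = 0 → ∃ i, i ≤ n ∧ ∃ j, j ≤ m ∧ a i = b j + y}

/-- one touch, one scale: many translations that robustly meet -/
lemma places {a b : ℕ → Pt} {n m ρ R d : ℕ} {v : Pt} (hb : Pth b m) (hρ : 64 ≤ ρ) (hd : d ≤ R)
    {i j j' : ℕ} (hj : j ≤ m) (hj' : j' ≤ m) (htouch : a i ∈ Bl (b j + v) d)
    (hgood : GoodPt a n (a i) ρ R) (hleave : b j' ∉ Bl (b j) R) :
    ∃ Y : Finset (ℤ × ℤ), ((R / (80 * ρ)) / 2) * (2 * (ρ / 16) + 1) ^ 2 ≤ Y.card ∧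
      ∀ y ∈ Y, y ∈ Bl v (5 * R) ∧ Bl y (ρ / 16) ⊆ Tm a b n m := by
  classical
  obtain ⟨g, L, hg, g0, gL, gb⟩ := exists_sub hb hj hj'
  obtain ⟨c, hc, hmeet⟩ := hgood
  have hout : g L ∉ Bl (g 0) R := by
    rw [g0, gL]
    exact hleave
  obtain ⟨P, hP⟩ : ∃ P : ℕ → ℕ, ∀ k, P k = 80 * ρ * k := ⟨_, fun _ => rfl⟩
  have hPs : ∀ k, P (k + 1) = P k + 80 * ρ := fun k => by rw [hP, hP]; ring
  have hPm : ∀ k k', k < k' → P k + 80 * ρ ≤ P k' := by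
    intro k k' h
    rw [← hPs, hP, hP]
    exact Nat.mul_le_mul_left _ h
  obtain ⟨M, hM⟩ : ∃ M, M = R / (80 * ρ) - 1 := ⟨_, rfl⟩
  have hMR : ∀ k, k ≤ M → 1 ≤ k → P k + 80 * ρ ≤ R := by
    intro k hk hk1
    have h1 : (k + 1) ≤ R / (80 * ρ) := by omega
    have h2 := (Nat.le_div_iff_mul_le (by omega : 0 < 80 * ρ)).1 h1
    rw [← hPs, hP]
    linarith [mul_comm (80 * ρ) (k + 1)]
  have key : ∀ k, ∃ (cg : Pt) (t : Bool), 1 ≤ k → k ≤ M → cg ∈ Bl (g 0) (P k + 16 * ρ + 1) ∧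
      cg ∉ Bl (g 0) (P k - 16 * ρ) ∧ ∀ u : Pt, cl u = 0 → u ∈ Bl (c t - cg) (ρ / 8) →
      ∃ q, q ≤ L ∧ ∃ k', k' ≤ n ∧ g q + u = a k' := by
    intro k
    by_cases hk : 1 ≤ k ∧ k ≤ M
    swap
    · exact ⟨0, true, fun h1 h2 => absurd ⟨h1, h2⟩ hk⟩
    obtain ⟨hk1, hk2⟩ := hk
    have hRk := hMR k hk2 hk1
    have o1 : g L ∉ Bl (g 0) (P k) := fun h => hout (Bl_mono _ (by omega) h)
    have o2 : g L ∉ Bl (g 0) (P (k + 1)) := fun h => hout (Bl_mono _ (by rw [hPs]; omega) h)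
    obtain ⟨τ, t1, t2, t3, t4⟩ := first_exit hg le_rfl o1
    obtain ⟨τ', s1, s2, s3, s4⟩ := first_exit hg le_rfl o2
    have hτ : τ ≤ τ' := by
      by_contra hcon
      exact s2 (Bl_mono _ (by rw [hPs]; omega) (t4 τ' (by omega)))
    have hfar : g τ' ∉ Bl (g τ) (20 * ρ) := by
      intro hcon
      apply s2
      rw [mem_Bl] at hcon t3 ⊢
      rw [hPs]
      push_cast at *
      refine ⟨⟨?_, ?_⟩, ?_, ?_⟩ <;> omega
    obtain ⟨cg, hcg, t, ht⟩ := hmeet (fun q => g (τ + q)) (L - τ) (Pth_tail hg t1)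
      ⟨τ' - τ, by omega, by
        show g (τ + (τ' - τ)) ∉ Bl (g τ) (20 * ρ)
        rw [show τ + (τ' - τ) = τ' by omega]
        exact hfar⟩
    have hcg' : cg ∈ Bl (g τ) (16 * ρ) := hcg
    refine ⟨cg, t, fun _ _ => ⟨?_, ?_, ?_⟩⟩
    · rw [mem_Bl] at hcg' t3 ⊢
      push_cast at *
      refine ⟨⟨?_, ?_⟩, ?_, ?_⟩ <;> omega
    · intro hcon
      apply t2
      have hP1 : 80 * ρ ≤ P k := by
        have := hPm 0 k (by omega)
        omega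
      rw [mem_Bl] at hcon hcg' ⊢
      push_cast [Nat.cast_sub (show 16 * ρ ≤ P k by omega)] at *
      refine ⟨⟨?_, ?_⟩, ?_, ?_⟩ <;> omega
    · intro u hu hub
      obtain ⟨q, hq, k', hk', e⟩ := ht u hu hub
      exact ⟨τ + q, by omega, k', hk', e⟩
  choose cg t hk using key
  -- one type
  obtain ⟨K, hK⟩ : ∃ K : Bool → Finset ℕ, ∀ x, K x = (Finset.Icc 1 M).filter (fun k => t k = x) := ⟨_, fun _ => rfl⟩
  have hcard : ∃ x, R / (80 * ρ) / 2 ≤ (K x).card := by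
    have h1 : (K true).card + (K false).card = M := by
      rw [hK, hK]
      have h2 := Finset.card_filter_add_card_filter_not (s := Finset.Icc 1 M) (fun k => t k = true)
      simp only [Bool.not_eq_true] at h2
      rw [h2, Nat.card_Icc]
      omega
    rcases le_total (K true).card (K false).card with h2 | h2
    · exact ⟨false, by omega⟩
    · exact ⟨true, by omega⟩
  obtain ⟨x, hx⟩ := hcard
  have hmem : ∀ k ∈ K x, 1 ≤ k ∧ k ≤ M ∧ t k = x := by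
    intro k hk'
    rw [hK, Finset.mem_filter, Finset.mem_Icc] at hk'
    exact ⟨hk'.1.1, hk'.1.2, hk'.2⟩
  refine ⟨(K x).biUnion (fun k => bl (c x - cg k) (ρ / 16)), ?_, ?_⟩
  · rw [Finset.card_biUnion]
    · simp only [card_bl]
      rw [Finset.sum_const, smul_eq_mul]
      exact Nat.mul_le_mul_right _ hx
    · have main : ∀ k ∈ K x, ∀ k' ∈ K x, k < k' → Disjoint (bl (c x - cg k) (ρ / 16)) (bl (c x - cg k') (ρ / 16)) := by
        intro k hk1 k' hk1' hlt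
        rw [Finset.disjoint_left]
        intro z hz hz'
        obtain ⟨a1, a2, a3⟩ := hmem k hk1
        obtain ⟨b1, b2, b3⟩ := hmem k' hk1'
        obtain ⟨p1, p2, -⟩ := hk k a1 a2
        obtain ⟨q1, q2, -⟩ := hk k' b1 b2
        apply q2
        have hP1 := hPm k k' hlt
        rw [mem_bl, mem_Bl] at hz hz'
        rw [mem_Bl] at p1 ⊢
        simp only [Prod.fst_sub, Prod.snd_sub] at hz hz'
        push_cast [Nat.cast_sub (show 16 * ρ ≤ P k' by omega)] at *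
        refine ⟨⟨?_, ?_⟩, ?_, ?_⟩ <;> omega
      intro k hk1 k' hk1' hne
      rcases Nat.lt_or_gt_of_ne hne with h | h
      · exact main k hk1 k' hk1' h
      · exact (main k' hk1' k hk1 h).symm
  · intro y hy
    rw [Finset.mem_biUnion] at hy
    obtain ⟨k, hk1, hy⟩ := hy
    obtain ⟨a1, a2, a3⟩ := hmem k hk1
    obtain ⟨p1, -, p3⟩ := hk k a1 a2
    rw [mem_bl] at hy
    have hRk := hMR k a2 a1
    refine ⟨?_, ?_⟩
    · have hcx := hc x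
      rw [g0] at p1
      rw [mem_Bl] at hy htouch p1 hcx ⊢
      simp only [Prod.fst_sub, Prod.snd_sub, Prod.fst_add, Prod.snd_add] at hy htouch
      push_cast at *
      refine ⟨⟨?_, ?_⟩, ?_, ?_⟩ <;> omega
    · intro z hz hz0
      have hz2 : z ∈ Bl (c (t k) - cg k) (ρ / 8) := by
        rw [a3]
        rw [mem_Bl] at hz hy ⊢
        refine ⟨⟨?_, ?_⟩, ?_, ?_⟩ <;> omega
      obtain ⟨q, hq, k', hk', e⟩ := p3 z hz0 hz2
      obtain ⟨r, hr, e2⟩ := gb q hq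
      exact ⟨k', hk', r, hr, by rw [← e, e2]⟩

/-- the numbers of one scale -/
lemma scale_le {ρ R : ℕ} (hρ : 64 ≤ ρ) (hR : 320 * ρ ≤ R) :
    (ρ : ℝ) / R ≤ 9912320 * ((((R / (80 * ρ)) / 2) * (2 * (ρ / 16) + 1) ^ 2 : ℕ) / (2 * ((5 * R : ℕ) : ℝ) + 1) ^ 2) := by
  have h0 : (64 : ℝ) ≤ ρ := by exact_mod_cast hρ
  have h1 : 320 * (ρ : ℝ) ≤ R := by exact_mod_cast hR
  have hR0 : (0 : ℝ) < R := by linarith
  have hρ0 : (0 : ℝ) < ρ := by linarith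
  have e1 : (R : ℝ) / (320 * ρ) ≤ ((R / (80 * ρ)) / 2 : ℕ) := by
    have k1 : R < 80 * ρ * (R / (80 * ρ) + 1) := Nat.lt_mul_div_succ R (by omega)
    have k2 : R / (80 * ρ) + 1 ≤ 2 * ((R / (80 * ρ)) / 2) + 2 := by omega
    have k3 : (R : ℝ) ≤ 80 * ρ * (2 * ((R / (80 * ρ)) / 2 : ℕ) + 2) := by
      have k4 : R ≤ 80 * ρ * (2 * ((R / (80 * ρ)) / 2) + 2) := k1.le.trans (Nat.mul_le_mul_left _ k2)
      exact_mod_cast k4
    rw [div_le_iff₀ (by positivity)]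
    nlinarith
  have e2 : (ρ : ℝ) / 16 ≤ ((2 * (ρ / 16) + 1 : ℕ) : ℝ) := by
    have k1 : ρ ≤ 16 * (2 * (ρ / 16) + 1) := by omega
    have k2 : (ρ : ℝ) ≤ 16 * ((2 * (ρ / 16) + 1 : ℕ) : ℝ) := by exact_mod_cast k1
    linarith
  have e3 : (2 * ((5 * R : ℕ) : ℝ) + 1) ^ 2 ≤ 121 * (R : ℝ) ^ 2 := by
    push_cast
    nlinarith
  have e4 : (R : ℝ) / (320 * ρ) * (ρ / 16) ^ 2 ≤ (((R / (80 * ρ)) / 2) * (2 * (ρ / 16) + 1) ^ 2 : ℕ) := by
    push_cast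
    push_cast at e1 e2
    have k1 : ((ρ : ℝ) / 16) ^ 2 ≤ (2 * ((ρ / 16 : ℕ) : ℝ) + 1) ^ 2 := by
      apply pow_le_pow_left₀ (by positivity) 
      push_cast
      exact e2
    push_cast at k1
    exact mul_le_mul e1 k1 (by positivity) (by positivity)
  have e5 : (0 : ℝ) < (2 * ((5 * R : ℕ) : ℝ) + 1) ^ 2 := by positivity
  rw [← mul_div_assoc, div_le_div_iff₀ hR0 e5]
  calc (ρ : ℝ) * (2 * ((5 * R : ℕ) : ℝ) + 1) ^ 2 ≤ ρ * (121 * (R : ℝ) ^ 2) := mul_le_mul_of_nonneg_left e3 hρ0.le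
    _ = 9912320 * ((R : ℝ) / (320 * ρ) * (ρ / 16) ^ 2) * R := by
      field_simp
      ring
    _ ≤ _ := by gcongr

/-- **the translations that nearly touch are few** -/
theorem vcount {a b : ℕ → Pt} {n m S D d : ℕ} {ρ R : ℕ → ℕ} (hb : Pth b m)
    (hS : ∀ s, s < S → 64 ≤ ρ s ∧ 320 * ρ s ≤ R s ∧ d ≤ R s ∧ R s ≤ D) (hR : ∀ s, s + 1 < S → 80 * R (s + 1) ≤ ρ s)
    {V : Finset Pt} (hV : ∀ v ∈ V, v ∈ Bl 0 D ∧ cl v = 0 ∧ (∀ i, i ≤ n → ∀ j, j ≤ m → a i ≠ b j + v) ∧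
      ∃ i, i ≤ n ∧ ∃ j, j ≤ m ∧ a i ∈ Bl (b j + v) d ∧ (∀ s, s < S → GoodPt a n (a i) (ρ s) (R s)) ∧
        ∀ s, s < S → ∃ j', j' ≤ m ∧ b j' ∉ Bl (b j) (R s)) :
    (V.card : ℝ) * ∑ s ∈ range S, (ρ s : ℝ) / R s ≤ 2 * 10 ^ 9 * (D : ℝ) ^ 2 := by
  rcases Nat.eq_zero_or_pos S with h0 | hS0
  · subst h0
    rw [Finset.sum_range_zero, mul_zero]
    positivity
  have h1 := near_count (T := Tm a b n m) (V := V) (U := bl 0 (6 * D)) (R := fun s => 5 * R s)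
    (ρ := fun s => ρ s / 16) (a := fun s => ((R s / (80 * ρ s)) / 2) * (2 * (ρ s / 16) + 1) ^ 2) (S := S) ?_ ?_ ?_ ?_
  · have h2 : ∑ s ∈ range S, (ρ s : ℝ) / R s ≤ 9912320 * ∑ s ∈ range S,
        ((((R s / (80 * ρ s)) / 2) * (2 * (ρ s / 16) + 1) ^ 2 : ℕ) : ℝ) / (2 * ((5 * R s : ℕ) : ℝ) + 1) ^ 2 := by
      rw [Finset.mul_sum]
      refine Finset.sum_le_sum fun s hs => ?_
      obtain ⟨k1, k2, -, -⟩ := hS s (Finset.mem_range.1 hs)
      exact scale_le k1 k2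
    have h3 : ((bl 0 (6 * D)).card : ℝ) ≤ 169 * (D : ℝ) ^ 2 := by
      rw [card_bl]
      have hD : (64 : ℝ) ≤ D := by
        obtain ⟨k1, k2, -, k4⟩ := hS 0 hS0
        have : 64 ≤ D := by omega
        exact_mod_cast this
      push_cast
      nlinarith
    have h4 : (0 : ℝ) ≤ V.card := Nat.cast_nonneg _
    have h5 := mul_le_mul_of_nonneg_left h2 h4
    have hD0 : (0 : ℝ) ≤ (D : ℝ) ^ 2 := by positivity
    calc _ ≤ _ := h5
      _ = 9912320 * ((V.card : ℝ) * ∑ s ∈ range S,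
        ((((R s / (80 * ρ s)) / 2) * (2 * (ρ s / 16) + 1) ^ 2 : ℕ) : ℝ) / (2 * ((5 * R s : ℕ) : ℝ) + 1) ^ 2) := by ring
      _ ≤ 9912320 * (169 * (D : ℝ) ^ 2) := by
        refine mul_le_mul_of_nonneg_left (le_trans ?_ h3) (by norm_num)
        exact h1
      _ ≤ 2 * 10 ^ 9 * (D : ℝ) ^ 2 := by nlinarith
  · intro v hv hT
    obtain ⟨-, k2, k3, -⟩ := hV v hv
    obtain ⟨i, hi, j, hj, e⟩ := hT k2
    exact k3 i hi j hj e
  · intro s hs
    have := hR s hs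
    show 5 * R (s + 1) ≤ ρ s / 16
    omega
  · intro s hs
    obtain ⟨k1, k2, -, -⟩ := hS s hs
    show ρ s / 16 ≤ 5 * R s
    omega
  · intro v hv s hs
    obtain ⟨k1, k2, k3, i, hi, j, hj, k4, k5, k6⟩ := hV v hv
    obtain ⟨l1, l2, l3, l4⟩ := hS s hs
    obtain ⟨j', hj', k7⟩ := k6 s hs
    obtain ⟨Y, y1, y2⟩ := places hb l1 l3 hj hj' k4 (k5 s hs) k7
    refine ⟨Y, y1, fun y hy => ⟨?_, y2 y hy⟩⟩
    have := (y2 y hy).1
    rw [mem_bl]
    rw [mem_Bl] at this k1 ⊢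
    push_cast at *
    refine ⟨⟨?_, ?_⟩, ?_, ?_⟩ <;> simp only [Prod.fst_zero, Prod.snd_zero] at * <;> omega

end SIM

end HexObs
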