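import Pool.Agent.SIM.Hit
import Pool.Agent.SIM.VCount
import Pool.Agent.SDN.Defs

/-!
SIM: the robust hit for paths of the honeycomb lattice, in the coordinates of a direction dir: Yc = lvl dir,
Xc = the coordinate orthogonal to it. Output: VCount.GoodPt.
-/

set_option autoImplicit false

namespace HexObs

namespace SIM

open Finset HexObs.Planar

/-- the coordinate orthogonal to the direction dir -/
def Xc (dir : Bool) (p : Pt) : ℤ := if dir then p.2 else p.1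

/-- the level -/
def Yc (dir : Bool) (p : Pt) : ℤ := SDN.lvl dir p

lemma xy_eq (dir : Bool) (p : Pt) : xy oo (SDN.hd dir) p = (Xc dir p, Yc dir p) := by
  have h1 : (oo : Pt) = (0, 0) := by decide
  have h2 : (up : Pt) = (0, 1) := by decide
  cases dir
  · simp only [xy, Xc, Yc, SDN.lvl, SDN.hd, cross, ip, h1, h2]
    simp
  · simp only [xy, Xc, Yc, SDN.lvl, SDN.hd, cross, ip, h1]
    simp

lemma hd_mem (dir : Bool) : SDN.hd dir ∈ dirs := by cases dir <;> decide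

lemma cl_hd (dir : Bool) : cl (SDN.hd dir) = 2 := by cases dir <;> decide

/-- the coordinates of an edge -/
lemma adj_of (dir : Bool) {p q : Pt} (h : AdP p q) : Adj (Xc dir p, Yc dir p) (Xc dir q, Yc dir q) := by
  rw [← xy_eq, ← xy_eq]
  have h0 : cl (oo : Pt) = 0 := by decide
  rcases h with ⟨h1, h2, h3⟩ | ⟨h1, h2, h3⟩
  · left
    have := xy_edge (v0 := oo) (hd_mem dir) h2 (p := p) (by rw [h1, h0]) (by rw [h3, cl_hd])
    rwa [add_sub_cancel] at this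
  · right
    have := xy_edge (v0 := oo) (hd_mem dir) h2 (p := q) (by rw [h1, h0]) (by rw [h3, cl_hd])
    rwa [add_sub_cancel] at this

lemma Yc_eq (dir : Bool) (p : Pt) : Yc dir p = if dir then -(2 * p.1 + p.2) else 2 * p.2 + p.1 := by
  have h2 : (up : Pt) = (0, 1) := by decide
  cases dir
  · simp [Yc, SDN.lvl, SDN.hd, ip, h2]
  · simp [Yc, SDN.lvl, SDN.hd, ip]
    ring

lemma Xc_sub (dir : Bool) (p q : Pt) : Xc dir (p - q) = Xc dir p - Xc dir q := by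
  cases dir <;> simp [Xc]

lemma Xc_add (dir : Bool) (p q : Pt) : Xc dir (p + q) = Xc dir p + Xc dir q := by
  cases dir <;> simp [Xc]

lemma Yc_sub (dir : Bool) (p q : Pt) : Yc dir (p - q) = Yc dir p - Yc dir q := by
  cases dir <;> simp [Yc_eq] <;> ring

lemma Yc_add (dir : Bool) (p q : Pt) : Yc dir (p + q) = Yc dir p + Yc dir q := by
  cases dir <;> simp [Yc_eq] <;> ring

lemma coord_inj (dir : Bool) {p q : Pt} (h1 : Xc dir p = Xc dir q) (h2 : Yc dir p = Yc dir q) : p = q := by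
  cases dir
  · simp only [Xc, Yc_eq, Bool.false_eq_true, if_false] at h1 h2
    exact Prod.ext (by omega) (by omega)
  · simp only [Xc, Yc_eq, if_true] at h1 h2
    exact Prod.ext (by omega) (by omega)

/-- the coordinates of a translation -/
lemma coord_cl (dir : Bool) {u : Pt} (h : cl u = 0) : Yc dir u % 3 = 0 ∧ (Xc dir u + Yc dir u) % 2 = 0 := by
  have h0 : cl (oo : Pt) = 0 := by decide
  have h1 := xy_level (v0 := oo) (d0 := SDN.hd dir) (p := u) (by rw [h, h0])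
  have h2 := xy_parity oo (SDN.hd dir) u
  rw [xy_eq] at h1 h2
  exact ⟨h1, h2⟩

/-- a point with given coordinates (up to the parity) -/
lemma exists_coord (dir : Bool) (c : ℤ × ℤ) : ∃ p : Pt, Yc dir p = c.2 ∧ c.1 ≤ Xc dir p ∧ Xc dir p ≤ c.1 + 1 := by
  cases dir
  · refine ⟨(c.1 + (c.1 + c.2) % 2, (c.2 - (c.1 + (c.1 + c.2) % 2)) / 2), ?_, ?_, ?_⟩
    · simp only [Yc_eq, Bool.false_eq_true, if_false]
      omega
    · simp only [Xc, Bool.false_eq_true, if_false]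
      omega
    · simp only [Xc, Bool.false_eq_true, if_false]
      omega
  · refine ⟨(-((c.2 + (c.1 + (c.1 + c.2) % 2)) / 2), c.1 + (c.1 + c.2) % 2), ?_, ?_, ?_⟩
    · simp only [Yc_eq, if_true]
      omega
    · simp only [Xc, if_true]
      omega
    · simp only [Xc, if_true]
      omega

/-- the ball from the coordinates -/
lemma Bl_of_coord (dir : Bool) {p q : Pt} {r : ℕ} (h1 : |Xc dir q - Xc dir p| ≤ r) (h2 : |Yc dir q - Yc dir p| ≤ r) :
    q ∈ Bl p r := by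
  rw [abs_le] at h1 h2
  show |q.1 - p.1| ≤ r ∧ |q.2 - p.2| ≤ r
  rw [abs_le, abs_le]
  cases dir
  · simp only [Xc, Yc_eq, Bool.false_eq_true, if_false] at h1 h2
    omega
  · simp only [Xc, Yc_eq, if_true] at h1 h2
    omega

lemma coord_of_Bl (dir : Bool) {p q : Pt} {r : ℕ} (h : q ∈ Bl p r) :
    |Xc dir q - Xc dir p| ≤ r ∧ |Yc dir q - Yc dir p| ≤ 3 * r := by
  obtain ⟨h1, h2⟩ := h
  rw [abs_le] at h1 h2
  rw [abs_le, abs_le]
  cases dir
  · simp only [Xc, Yc_eq, Bool.false_eq_true, if_false]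
    omega
  · simp only [Xc, Yc_eq, if_true]
    omega

/-- **GOOD POINTS**: near p the path a contains a piece of height at least 6 ρ and width at most 6 ρ, and a piece of
width at least 8 ρ and height at most 3 ρ, in the same coordinates. -/
theorem good_pt (dir : Bool) {a : ℕ → Pt} {n i1 i2 i3 i4 ρ R : ℕ} {p : Pt} (hρ : 64 ≤ ρ) (hρR : 8 * ρ ≤ R)
    (ha : Pth a n) (h12 : i1 ≤ i2) (h2n : i2 ≤ n) (h34 : i3 ≤ i4) (h4n : i4 ≤ n)
    (a1 : 6 * (ρ : ℤ) ≤ |Yc dir (a i2) - Yc dir (a i1)|)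
    (a2 : ∀ k k', i1 ≤ k → k ≤ i2 → i1 ≤ k' → k' ≤ i2 → Xc dir (a k) - Xc dir (a k') ≤ 6 * (ρ : ℤ))
    (b1 : 8 * (ρ : ℤ) ≤ |Xc dir (a i4) - Xc dir (a i3)|)
    (b2 : ∀ k k', i3 ≤ k → k ≤ i4 → i3 ≤ k' → k' ≤ i4 → Yc dir (a k) - Yc dir (a k') ≤ 3 * (ρ : ℤ))
    (h1 : a i1 ∈ Bl p R) (h3 : a i3 ∈ Bl p R) : GoodPt a n p ρ R := by
  obtain ⟨r, hr⟩ : ∃ r : ℕ, r = ρ / 8 := ⟨_, rfl⟩
  have hr1 : 8 * r ≤ ρ := by omega
  have hr2 : 8 ≤ r := by omega
  obtain ⟨cα, cβ, q1, q2, q3, q4, hall⟩ := _root_.SIM.hit_gen (α := fun k => (Xc dir (a (i1 + k)), Yc dir (a (i1 + k))))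
    (β := fun k => (Xc dir (a (i3 + k)), Yc dir (a (i3 + k)))) (nα := i2 - i1) (nβ := i4 - i3)
    (la := 6 * (ρ : ℤ)) (ha := 6 * (ρ : ℤ)) (lb := 8 * (ρ : ℤ)) (hb := 3 * (ρ : ℤ)) (ex := 7 * (ρ : ℤ))
    (ey := 4 * (ρ : ℤ)) (r := 3 * (r : ℤ)) (by omega) (by omega) (by omega) (by omega) (by omega) (by omega)
    (by omega) (fun i hi => adj_of dir (ha (i1 + i) (by omega)))
    (by
      show 6 * (ρ : ℤ) ≤ |Yc dir (a (i1 + (i2 - i1))) - Yc dir (a (i1 + 0))|
      rw [show i1 + (i2 - i1) = i2 by omega, show i1 + 0 = i1 by omega]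
      exact a1)
    (fun i j hi hj => a2 _ _ (by omega) (by omega) (by omega) (by omega))
    (fun i hi => adj_of dir (ha (i3 + i) (by omega)))
    (by
      show 8 * (ρ : ℤ) ≤ |Xc dir (a (i3 + (i4 - i3))) - Xc dir (a (i3 + 0))|
      rw [show i3 + (i4 - i3) = i4 by omega, show i3 + 0 = i3 by omega]
      exact b1)
    (fun i j hi hj => b2 _ _ (by omega) (by omega) (by omega) (by omega))
  simp only [Nat.add_zero] at q1 q2 q3 q4
  obtain ⟨cal, ca1, ca2, ca3⟩ := exists_coord dir cα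
  obtain ⟨cbe, cb1, cb2, cb3⟩ := exists_coord dir cβ
  rw [abs_le] at q1 q2 q3 q4
  have hBl2 : ∀ z w : Pt, w ∈ Bl p R → z ∈ Bl w R → z ∈ Bl p (2 * R) := by
    intro z w hw hz
    obtain ⟨e1, e2⟩ := hw
    obtain ⟨e3, e4⟩ := hz
    rw [abs_le] at e1 e2 e3 e4
    show |z.1 - p.1| ≤ ((2 * R : ℕ) : ℤ) ∧ |z.2 - p.2| ≤ ((2 * R : ℕ) : ℤ)
    rw [abs_le, abs_le]
    push_cast
    omega
  refine ⟨fun t => if t then cal else cbe, ?_, ?_⟩
  · intro t
    cases t
    · show cbe ∈ Bl p (2 * R)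
      apply hBl2 _ _ h3
      apply Bl_of_coord dir
      · rw [abs_le]
        omega
      · rw [abs_le]
        omega
    · show cal ∈ Bl p (2 * R)
      apply hBl2 _ _ h1
      apply Bl_of_coord dir
      · rw [abs_le]
        omega
      · rw [abs_le]
        omega
  intro g m hg ⟨k0, hk0, hk0'⟩
  have hfar : 7 * (ρ : ℤ) ≤ |Xc dir (g k0) - Xc dir (g 0)| ∨ 4 * (ρ : ℤ) ≤ |Yc dir (g k0) - Yc dir (g 0)| := by
    by_contra hcon
    push Not at hcon
    apply hk0'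
    apply Bl_of_coord dir
    · exact hcon.1.le.trans (by push_cast; omega)
    · exact hcon.2.le.trans (by push_cast; omega)
  obtain ⟨q, hq, -, cg, e1, e2, e3⟩ := hall (fun k => (Xc dir (g k), Yc dir (g k))) k0
    (fun j hj => adj_of dir (hg j (by omega))) hfar
  simp only at e1 e2
  rw [abs_le] at e1 e2
  obtain ⟨cgp, cg1, cg2, cg3⟩ := exists_coord dir cg
  refine ⟨cgp, ?_, ?_⟩
  · apply Bl_of_coord dir
    · rw [abs_le]
      push_cast
      omega
    · rw [abs_le]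
      push_cast
      omega
  have hin : ∀ c : Pt, ∀ c' : ℤ × ℤ, Yc dir c = c'.2 → c'.1 ≤ Xc dir c → Xc dir c ≤ c'.1 + 1 →
      ∀ u : Pt, u ∈ Bl (c - cgp) (ρ / 8) → |(Xc dir u, Yc dir u).1 - (c' - cg).1| ≤ 3 * (r : ℤ) ∧
        |(Xc dir u, Yc dir u).2 - (c' - cg).2| ≤ 3 * (r : ℤ) := by
    intro c c' f1 f2 f3 u hu
    obtain ⟨k1, k2⟩ := coord_of_Bl dir hu
    rw [Xc_sub, abs_le, ← hr] at k1
    rw [Yc_sub, abs_le, ← hr] at k2
    simp only [Prod.fst_sub, Prod.snd_sub]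
    rw [abs_le, abs_le]
    omega
  rcases e3 with e3 | e3
  · refine ⟨true, fun u hu hu' => ?_⟩
    obtain ⟨c1, c2⟩ := coord_cl dir hu
    obtain ⟨d1, d2⟩ := hin cal cα ca1 ca2 ca3 u hu'
    obtain ⟨i, j, hi, hj, hij⟩ := e3 (Xc dir u, Yc dir u) c1 c2 d1 d2
    refine ⟨j, by omega, i1 + i, by omega, ?_⟩
    apply coord_inj dir
    · rw [Xc_add]
      exact (congrArg Prod.fst hij).symm
    · rw [Yc_add]
      exact (congrArg Prod.snd hij).symm
  · refine ⟨false, fun u hu hu' => ?_⟩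
    obtain ⟨c1, c2⟩ := coord_cl dir hu
    obtain ⟨d1, d2⟩ := hin cbe cβ cb1 cb2 cb3 u hu'
    obtain ⟨i, j, hi, hj, hij⟩ := e3 (Xc dir u, Yc dir u) c1 c2 d1 d2
    refine ⟨j, by omega, i3 + i, by omega, ?_⟩
    apply coord_inj dir
    · rw [Xc_add]
      exact (congrArg Prod.fst hij).symm
    · rw [Yc_add]
      exact (congrArg Prod.snd hij).symm

end SIM

end HexObs
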