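import Pool.Agent.SIM.MidS

/-!
SIM (no double points), the middle words (MID): the norms of the unimodal chains of windows.
-/

set_option autoImplicit false

namespace HexObs

namespace SIM

open Finset TS SDN SDN.CN NTm NTW NTA EN

open scoped ENNReal

open QF in
/-- **the norm of the sum over the unimodal chains** -/
theorem uni_norm : ∃ Q : ℝ, 1 ≤ Q ∧ ∀ (kc J n : ℕ) (W : ℕ → Set (List Bool)) (kp : ℕ → ℕ) (G : List Bool → ℝ≥0∞) (g : ℝ),
    Wnd kc J n W kp → 0 < n → 0 ≤ g → Hered G → xT (2 ^ (kc + 4)) kc G ≤ ENNReal.ofReal g → ∀ M : ℕ,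
    xT (2 ^ (kc + 4)) kc (Rx W kp n (fun i => FL W kp G M i) M 0) ≤ ENNReal.ofReal (Q ^ (n + J + 1) * g) ∧
    xT (2 ^ (kc + 4)) kc (FL W kp G M 0) ≤ ENNReal.ofReal (Q ^ (n + J + 1) * g) := by
  obtain ⟨C, δ, hI⟩ := inp_exists
  obtain ⟨K, hK1, hK⟩ := two_scale
  obtain ⟨Q, hQ, hR⟩ := right_norm
  obtain ⟨Kd, hKd, hdom⟩ := dom_end
  obtain ⟨K4, hK4, hX⟩ := Dom_xT hI
  obtain ⟨q, hq⟩ : ∃ q : ℝ, q = 128 * K + 1 := ⟨_, rfl⟩
  have hq1 : 1 ≤ q := by linarith
  have hq2 : 2 ≤ q := by linarith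
  have hq0 : 0 ≤ q := by linarith
  have hKK : 1 ≤ Kd * K4 := one_le_mul_of_one_le_of_one_le hKd hK4
  have hQKK : 1 ≤ Q * (Kd * K4) := one_le_mul_of_one_le_of_one_le hQ hKK
  refine ⟨Q * (Kd * K4) * q, one_le_mul_of_one_le_of_one_le hQKK hq1, ?_⟩
  intro kc J n W kp G g hW hn hg hGh hG M
  have hL := FB.left (Q := q) hK1 (le_of_eq hq.symm) hg hK hW hGh hG
  have hKd0 : 0 ≤ Kd := by linarith
  have hK40 : 0 ≤ K4 := by linarith
  have hQ0 : 0 ≤ Q := by linarith
  have hqn : 1 ≤ q ^ (n + 1) := one_le_pow₀ hq1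
  obtain ⟨x, hx⟩ : ∃ x, x = Kd * K4 * (q ^ (n + 1) * g) := ⟨_, rfl⟩
  have hx0 : 0 ≤ x := by rw [hx]; positivity
  -- the last pieces
  have hGd : ∀ i i', i ≤ i' → i' < n → xT (2 ^ (kp i + 4)) (kp i) (vA (2 ^ (kp i + 4)) (W i') G) ≤
      ENNReal.ofReal (Kd * (K4 * g) * (Ub (kc + J) / Ub (kp i))) := by
    intro i i' hi hi'
    refine hdom kc J n W kp hW (K4 * g) i i' kc G (by positivity) hi hi' ?_ ?_
    · rw [← hW.zero]
      exact hW.mono 0 i' (Nat.zero_le _)
    · refine (hX (2 ^ (kc + 4)) kc kc G hGh le_rfl le_rfl).mono ?_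
      rw [ENNReal.ofReal_mul hK40]
      exact mul_le_mul_right hG _
  have hr0 : ∀ i, 0 ≤ Ub (kc + J) / Ub (kp i) := fun i => div_nonneg (Ub_pos _).le (Ub_pos _).le
  have hΦ : ∀ i i', i ≤ i' → i' < n → xT (2 ^ (kp i + 4)) (kp i) (vA (2 ^ (kp i + 4)) (W i') (FL W kp G M i')) ≤
      ENNReal.ofReal (x * (Ub (kc + J) / Ub (kp i))) := by
    intro i i' hi hi'
    have hr := hr0 i
    cases M with
    | zero =>
      refine (hGd i i' hi hi').trans (ENNReal.ofReal_le_ofReal ?_)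
      rw [hx]
      calc Kd * (K4 * g) * (Ub (kc + J) / Ub (kp i)) = Kd * K4 * (1 * g) * (Ub (kc + J) / Ub (kp i)) := by ring
        _ ≤ Kd * K4 * (q ^ (n + 1) * g) * (Ub (kc + J) / Ub (kp i)) := by gcongr
    | succ M =>
      have e1 : ∀ t, vA (2 ^ (kp i + 4)) (W i') (FL W kp G (M + 1) i') t = vA (2 ^ (kp i + 4)) (W i') G t +
          ∑ j ∈ range (i' + 1), vA (2 ^ (kp i + 4)) (W i') (vA (2 ^ (kp j + 4)) (W j) (FL W kp G M j)) t := by
        intro t
        have e2 : (FL W kp G (M + 1) i') = fun s => G s + ∑ j ∈ range (i' + 1),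
          vA (2 ^ (kp j + 4)) (W j) (FL W kp G M j) s := rfl
        rw [e2, vA_add]
        congr 1
        unfold vA
        rw [Rec8.sw_sum]
      have e3 : ∀ j ∈ range (i' + 1), xT (2 ^ (kp i + 4)) (kp i)
          (vA (2 ^ (kp i + 4)) (W i') (vA (2 ^ (kp j + 4)) (W j) (FL W kp G M j))) ≤
          ENNReal.ofReal (Kd * (K4 * (q ^ (j + 1) * g)) * (Ub (kc + J) / Ub (kp i))) := by
        intro j hj
        have hj' : j ≤ i' := by
          have := Finset.mem_range.1 hj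
          omega
        refine hdom kc J n W kp hW (K4 * (q ^ (j + 1) * g)) i i' (kp j) _ (by positivity) hi hi' (hW.mono j i' hj') ?_
        refine (hX (2 ^ (kp j + 4)) (kp j) (kp j) _ (CN.hered_vA _ _ _) le_rfl le_rfl).mono ?_
        rw [ENNReal.ofReal_mul hK40]
        exact mul_le_mul_right (hL M j (by omega)) _
      refine (xT_mono fun t => (e1 t).le).trans ((Ch.xT_add _ _ _ _).trans ((add_le_add (hGd i i' hi hi')
        ((NTW.xT_sum _ _ _ _).trans (Finset.sum_le_sum e3))).trans ?_))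
      rw [← ENNReal.ofReal_sum_of_nonneg (fun j _ => by positivity), ← ENNReal.ofReal_add (by positivity)
        (Finset.sum_nonneg fun j _ => by positivity)]
      apply ENNReal.ofReal_le_ofReal
      have h3 := FB.geoL (Q := q) (i' + 1)
      have h4 : ∑ j ∈ range (i' + 1), q ^ (j + 1) ≤ q ^ (i' + 1 + 1) - q := by
        have h5 : 0 ≤ ∑ j ∈ range (i' + 1), q ^ (j + 1) := Finset.sum_nonneg fun _ _ => by positivity
        nlinarith
      have h5 : 1 + ∑ j ∈ range (i' + 1), q ^ (j + 1) ≤ q ^ (n + 1) := by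
        have h6 : q ^ (i' + 1 + 1) ≤ q ^ (n + 1) := pow_le_pow_right₀ hq1 (by omega)
        linarith
      have e4 : Kd * (K4 * g) * (Ub (kc + J) / Ub (kp i)) + ∑ j ∈ range (i' + 1), Kd * (K4 * (q ^ (j + 1) * g)) *
          (Ub (kc + J) / Ub (kp i)) = Kd * K4 * g * (Ub (kc + J) / Ub (kp i)) *
            (1 + ∑ j ∈ range (i' + 1), q ^ (j + 1)) := by
        rw [mul_add, Finset.mul_sum]
        congr 1
        · ring
        · exact Finset.sum_congr rfl fun j _ => by ring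
      rw [e4, hx]
      calc Kd * K4 * g * (Ub (kc + J) / Ub (kp i)) * (1 + ∑ j ∈ range (i' + 1), q ^ (j + 1))
          ≤ Kd * K4 * g * (Ub (kc + J) / Ub (kp i)) * q ^ (n + 1) := by gcongr
        _ = Kd * K4 * (q ^ (n + 1) * g) * (Ub (kc + J) / Ub (kp i)) := by ring
  have hfin : Q ^ (n + J + 1) * x ≤ (Q * (Kd * K4) * q) ^ (n + J + 1) * g := by
    have a1 : Kd * K4 ≤ (Kd * K4) ^ (n + J + 1) := by
      calc Kd * K4 = (Kd * K4) ^ 1 := (pow_one _).symm
        _ ≤ _ := pow_le_pow_right₀ hKK (by omega)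
    have a2 : q ^ (n + 1) ≤ q ^ (n + J + 1) := pow_le_pow_right₀ hq1 (by omega)
    rw [hx]
    calc Q ^ (n + J + 1) * (Kd * K4 * (q ^ (n + 1) * g))
        ≤ Q ^ (n + J + 1) * ((Kd * K4) ^ (n + J + 1) * (q ^ (n + J + 1) * g)) := by gcongr
      _ = (Q * (Kd * K4) * q) ^ (n + J + 1) * g := by
          rw [mul_pow, mul_pow]
          ring
  constructor
  · exact (hR kc J n W kp x _ hW hx0 hΦ M).trans (ENNReal.ofReal_le_ofReal hfin)
  · -- the decreasing chains
    have h0 : xT (2 ^ (kc + 4)) kc (FL W kp G M 0) ≤ ENNReal.ofReal (g + q * g) := by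
      rw [ENNReal.ofReal_add hg (by positivity)]
      cases M with
      | zero => exact hG.trans le_self_add
      | succ M =>
        have e2 : (FL W kp G (M + 1) 0) = fun s => G s + vA (2 ^ (kp 0 + 4)) (W 0) (FL W kp G M 0) s := by
          funext s
          show G s + ∑ j ∈ range (0 + 1), vA (2 ^ (kp j + 4)) (W j) (FL W kp G M j) s = _
          rw [zero_add, Finset.sum_range_one]
        rw [e2]
        refine (Ch.xT_add _ _ _ _).trans (add_le_add hG ?_)
        have h1 := hL M 0 hn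
        rw [hW.zero, zero_add, pow_one] at h1
        rw [hW.zero]
        exact h1
    refine h0.trans (ENNReal.ofReal_le_ofReal (le_trans ?_ hfin))
    have a1 : 1 ≤ Q ^ (n + J + 1) := one_le_pow₀ hQ
    have a2 : q ^ 2 ≤ q ^ (n + 1) := pow_le_pow_right₀ hq1 (by omega)
    have a4 : 1 + q ≤ q ^ 2 := by nlinarith
    have a3 : g + q * g ≤ q ^ (n + 1) * g := by
      calc g + q * g = (1 + q) * g := by ring
        _ ≤ q ^ (n + 1) * g := mul_le_mul_of_nonneg_right (a4.trans a2) hg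
    rw [hx]
    calc g + q * g ≤ q ^ (n + 1) * g := a3
      _ = 1 * (1 * (q ^ (n + 1) * g)) := by ring
      _ ≤ Q ^ (n + J + 1) * (Kd * K4 * (q ^ (n + 1) * g)) := by gcongr

end SIM

end HexObs
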