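import Pool.Agent.SIM.FirstL

/-!
SIM (no double points), the middle words (MID): the sum over the unimodal chains of windows.
-/

set_option autoImplicit false

namespace HexObs

namespace SIM

open Finset TS SDN SDN.CN NTm NTW NTA EN

open scoped ENNReal

/-- decreasing windows, the last leaf arbitrary in B -/
def DecU (W : ℕ → Set (List Bool)) (B : Set (List Bool)) : List (List Bool) → ℕ → Prop
  | [], _ => True
  | x :: xs, i => (xs = [] ∧ x ∈ B) ∨ ∃ i', i' ≤ i ∧ x ∈ W i' ∧ DecU W B xs i'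

/-- increasing, then decreasing windows -/
def UniU (W : ℕ → Set (List Bool)) (n : ℕ) (B : Set (List Bool)) : List (List Bool) → ℕ → Prop
  | [], _ => True
  | x :: xs, i => DecU W B (x :: xs) i ∨ ∃ i', i ≤ i' ∧ i' < n ∧ x ∈ W i' ∧ UniU W n B xs i'

lemma UniU_of {W : ℕ → Set (List Bool)} {n : ℕ} {B : Set (List Bool)} {gs : List (List Bool)} {i : ℕ}
    (h : DecU W B gs i) : UniU W n B gs i := by
  cases gs with
  | nil => trivial
  | cons x xs => exact Or.inl h

/-- one more leaf of B, or nothing -/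
noncomputable def GB1 (kc : ℕ) (B : Set (List Bool)) (g : List Bool) : ℝ≥0∞ :=
  1 + vA (2 ^ (kc + 4)) B (fun _ => 1) g

variable {kc J n : ℕ} {W : ℕ → Set (List Bool)} {kp : ℕ → ℕ} {B : Set (List Bool)}

lemma one_le_FL (kc : ℕ) (B : Set (List Bool)) (W : ℕ → Set (List Bool)) (kp : ℕ → ℕ) (M i : ℕ) (g : List Bool) :
    GB1 kc B g ≤ FL W kp (GB1 kc B) M i g := by
  cases M with
  | zero => exact le_rfl
  | succ M => exact le_self_add

lemma wnd_HB (hW : Wnd kc J n W kp) {i i' : ℕ} {g : List Bool} (hi : i' ≤ i) (h : g ∈ HB (2 ^ (kp i + 4))) :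
    g ∈ HB (2 ^ (kp i' + 4)) := by
  obtain ⟨h, a1, a2⟩ := h
  exact ⟨h, (Nat.pow_le_pow_right (by norm_num) (Nat.add_le_add_right (hW.mono i' i hi) 4)).trans a1, a2⟩

open Classical in
/-- decreasing chains behind the leaf g -/
lemma dec_sum (hW : Wnd kc J n W kp) (M : ℕ) : ∀ (i : ℕ) (g : List Bool), i < n → g ∈ HB (2 ^ (kp i + 4)) →
    (∑' gs : List (List Bool), if gs.length ≤ M ∧ (g :: gs).IsChain LFold ∧ DecU W B gs i then
      SDN.wl gs * 1 else 0) ≤ FL W kp (GB1 kc B) M i g := by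
  induction M with
  | zero =>
    intro i g _ _
    rw [tsum_eq_single []]
    · split_ifs with h
      · rw [NTm.wl_nil, one_mul]
        exact le_self_add
      · exact zero_le
    · intro gs hgs
      rw [if_neg]
      rintro ⟨h, -⟩
      exact hgs (List.length_eq_zero_iff.1 (by omega))
  | succ M ih =>
    intro i g hi hg
    have hg0 : g ∈ HB (2 ^ (kc + 4)) := by
      have := wnd_HB hW (Nat.zero_le i) hg
      rwa [hW.zero] at this
    refine (tsum_list1 _).trans ?_
    have h1 : (if ([] : List (List Bool)).length ≤ M + 1 ∧ [g].IsChain LFold ∧ DecU W B [] i then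
        SDN.wl [] * 1 else 0) ≤ (1 : ℝ≥0∞) := by
      split_ifs with h
      · rw [NTm.wl_nil, one_mul]
      · exact zero_le
    have h2 := QF.sum_consW (range (i + 1 + 1)) (fun j => if j = 0 then
          {g' | g' ∈ B ∧ RT (2 ^ (kc + 4)) LFold g g'} else
          {g' | g' ∈ W (j - 1) ∧ RT (2 ^ (kp (j - 1) + 4)) LFold g g'})
        (fun j => if j = 0 then (fun _ => 1) else FL W kp (GB1 kc B) M (j - 1)) (fun _ => 1)
        (fun gs => gs.length ≤ M + 1 ∧ (g :: gs).IsChain LFold ∧ DecU W B gs i)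
        (fun j g' gs => if j = 0 then gs = [] else
          gs.length ≤ M ∧ (g' :: gs).IsChain LFold ∧ DecU W B gs (j - 1)) (by
        rintro g' gs ⟨h1, h2, h3⟩
        rw [List.isChain_cons_cons] at h2
        rw [List.length_cons] at h1
        rcases h3 with ⟨h4, h5⟩ | ⟨i', h4, h5, h6⟩
        · refine ⟨0, Finset.mem_range.2 (by omega), ?_, ?_⟩
          · rw [if_pos rfl]
            exact ⟨h5, RT_of hg0 h2.1⟩
          · rw [if_pos rfl]
            exact h4
        · refine ⟨i' + 1, Finset.mem_range.2 (by omega), ?_, ?_⟩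
          · rw [if_neg (by omega), Nat.add_sub_cancel]
            exact ⟨h5, RT_of (wnd_HB hW h4 hg) h2.1⟩
          · rw [if_neg (by omega), Nat.add_sub_cancel]
            exact ⟨by omega, h2.2, h6⟩) (by
        rintro j hj g' h5
        rcases Nat.eq_zero_or_pos j with h0 | h0
        · simp only [if_pos h0]
          rw [tsum_eq_single []]
          · rw [if_pos rfl, NTm.wl_nil, one_mul]
          · intro gs hgs
            rw [if_neg hgs]
        · rw [if_neg (by omega)] at h5 ⊢
          simp only [if_neg (show j ≠ 0 by omega)]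
          have hjn : j - 1 < n := by
            have := Finset.mem_range.1 hj
            omega
          obtain ⟨h, a1, a2, a3⟩ := hW.sub (j - 1) hjn h5.1
          exact ih (j - 1) g' hjn ⟨h, a1, a3⟩)
    refine (add_le_add h1 h2).trans ?_
    rw [Finset.sum_range_succ', if_pos rfl, if_pos rfl]
    have e1 : ∑ k ∈ range (i + 1), Rec8.sw (if k + 1 = 0 then {g' | g' ∈ B ∧ RT (2 ^ (kc + 4)) LFold g g'} else
          {g' | g' ∈ W (k + 1 - 1) ∧ RT (2 ^ (kp (k + 1 - 1) + 4)) LFold g g'})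
        (if k + 1 = 0 then (fun _ => 1) else FL W kp (GB1 kc B) M (k + 1 - 1)) =
        ∑ i' ∈ range (i + 1), vA (2 ^ (kp i' + 4)) (W i') (FL W kp (GB1 kc B) M i') g := by
      refine Finset.sum_congr rfl fun k _ => ?_
      rw [if_neg (Nat.succ_ne_zero k), if_neg (Nat.succ_ne_zero k), Nat.add_sub_cancel]
      rfl
    rw [e1, ← add_assoc, add_comm (1 : ℝ≥0∞), add_assoc, add_comm]
    exact le_rfl

open Classical in
/-- unimodal chains behind the leaf g -/
lemma uni_sum (hW : Wnd kc J n W kp) (M0 M : ℕ) : ∀ (i : ℕ) (g : List Bool), M ≤ M0 → i < n → g ∈ HB (2 ^ (kp i + 4)) →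
    (∑' gs : List (List Bool), if gs.length ≤ M ∧ (g :: gs).IsChain LFold ∧ UniU W n B gs i then
      SDN.wl gs * 1 else 0) ≤ FX W kp n (fun i => FL W kp (GB1 kc B) M0 i) M i g := by
  induction M with
  | zero =>
    intro i g _ _ _
    rw [tsum_eq_single []]
    · split_ifs with h
      · rw [NTm.wl_nil, one_mul]
        refine le_trans ?_ ((one_le_FL kc B W kp M0 i g).trans le_self_add)
        exact le_self_add
      · exact zero_le
    · intro gs hgs
      rw [if_neg]
      rintro ⟨h, -⟩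
      exact hgs (List.length_eq_zero_iff.1 (by omega))
  | succ M ih =>
    intro i g hM hi hg
    have h1 := dec_sum (B := B) hW M0 i g hi hg
    obtain ⟨f, hf⟩ : ∃ f : List (List Bool) → ℝ≥0∞, f = fun gs => if gs ≠ [] ∧ gs.length ≤ M + 1 ∧
      (g :: gs).IsChain LFold ∧ UniU W n B gs i ∧ ¬ DecU W B gs i then SDN.wl gs * 1 else 0 := ⟨_, rfl⟩
    have h2 : ∑' gs, f gs ≤ Rx W kp n (fun i => FL W kp (GB1 kc B) M0 i) (M + 1) i g := by
      refine (CCh.tsum_list f ?_).trans ?_
      · rw [hf]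
        simp only
        rw [if_neg]
        exact fun h => h.1 rfl
      · rw [hf]
        refine QF.sum_consW (Ico i n) (fun i' => {g' | g' ∈ W i' ∧ RT (2 ^ (kp i + 4)) LFold g g'})
          (fun i' s => FL W kp (GB1 kc B) M0 i' s + Rx W kp n (fun i => FL W kp (GB1 kc B) M0 i) M i' s) (fun _ => 1)
          (fun gs => gs ≠ [] ∧ gs.length ≤ M + 1 ∧ (g :: gs).IsChain LFold ∧ UniU W n B gs i ∧ ¬ DecU W B gs i)
          (fun i' g' gs => gs.length ≤ M ∧ (g' :: gs).IsChain LFold ∧ UniU W n B gs i') ?_ ?_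
        · rintro g' gs ⟨-, h1, h2, h3, h4⟩
          rw [List.isChain_cons_cons] at h2
          rw [List.length_cons] at h1
          rcases h3 with h3 | ⟨i', c1, c2, c3, c4⟩
          · exact absurd h3 h4
          · exact ⟨i', Finset.mem_Ico.2 ⟨c1, c2⟩, ⟨c3, RT_of hg h2.1⟩, by omega, h2.2, c4⟩
        · rintro i' hi' g' ⟨h5, -⟩
          obtain ⟨h, a1, a2, a3⟩ := hW.sub i' (Finset.mem_Ico.1 hi').2 h5
          exact ih i' g' (by omega) (Finset.mem_Ico.1 hi').2 ⟨h, a1, a3⟩
    refine le_trans ?_ (add_le_add h1 h2)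
    rw [← ENNReal.tsum_add]
    refine ENNReal.tsum_le_tsum fun gs => ?_
    by_cases hc : gs.length ≤ M + 1 ∧ (g :: gs).IsChain LFold ∧ UniU W n B gs i
    · rw [if_pos hc]
      by_cases hd : DecU W B gs i
      · refine le_trans (le_of_eq ?_) le_self_add
        rw [if_pos ⟨hc.1.trans hM, hc.2.1, hd⟩]
      · refine le_trans (le_of_eq ?_) le_add_self
        rw [hf]
        simp only
        rw [if_pos]
        refine ⟨?_, hc.1, hc.2.1, hc.2.2, hd⟩
        rintro rfl
        exact hd trivial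
    · rw [if_neg hc]
      exact zero_le

open Classical in
/-- all chains -/
lemma all_sum (hW : Wnd kc J n W kp) (hn : 0 < n) (hB : B ⊆ HB (2 ^ (kc + 4))) (M : ℕ) :
    (∑' gs : List (List Bool), if gs.length ≤ M ∧ gs.IsChain LFold ∧ (∃ x xs, gs = x :: xs ∧ x ∈ B ∧ UniU W n B xs 0)
      then SDN.wl gs * 1 else 0) ≤ Rec8.sw B (FX W kp n (fun i => FL W kp (GB1 kc B) M i) M 0) := by
  refine (CCh.tsum_list _ ?_).trans ?_
  · rw [if_neg]
    rintro ⟨-, -, x, xs, h, -⟩
    simp at h
  · refine (QF.sum_consW (range 1) (fun _ => B) (fun _ => FX W kp n (fun i => FL W kp (GB1 kc B) M i) M 0) (fun _ => 1)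
      (fun gs => gs.length ≤ M ∧ gs.IsChain LFold ∧ (∃ x xs, gs = x :: xs ∧ x ∈ B ∧ UniU W n B xs 0))
      (fun _ g' gs => gs.length ≤ M ∧ (g' :: gs).IsChain LFold ∧ UniU W n B gs 0) ?_ ?_).trans ?_
    · rintro g' gs ⟨h1, h2, x, xs, h3, h4, h5⟩
      rw [List.cons.injEq] at h3
      obtain ⟨rfl, rfl⟩ := h3
      rw [List.length_cons] at h1
      exact ⟨0, Finset.mem_range.2 (by omega), h4, by omega, h2, h5⟩
    · rintro _ - g' hg'
      exact uni_sum hW M M 0 g' le_rfl hn (by rw [hW.zero]; exact hB hg')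
    · rw [Finset.sum_range_one]

end SIM

end HexObs
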