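import Pool.Agent.SIM.TopHW
import Pool.Agent.SIM.VWord
import Pool.Agent.SIM.RegDefs

/-!
SIM (the weak limits are simple curves): the part of a walk between a cut and a later cut, the ball and the regularity of the
rest behind a cut.
-/

set_option autoImplicit false

namespace HexObs

namespace SIM

open Finset TS SDN NTW

lemma sg_sg_sub (k k' : ℕ) (x y : ℤ) :
    Tight.sg (k + k' + 1) (Tight.sg k' x - Tight.sg k' y) = Tight.sg k x - Tight.sg k y := by
  unfold Tight.sg
  by_cases h1 : Even k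
  · by_cases h2 : Even k'
    · have h3 : ¬ Even (k + k' + 1) := by
        rw [Nat.even_add_one, not_not, Nat.even_add]
        exact ⟨fun _ => h2, fun _ => h1⟩
      rw [if_neg h3, if_pos h2, if_pos h2, if_pos h1, if_pos h1]
    · have h3 : Even (k + k' + 1) := by
        rw [Nat.even_add_one, Nat.even_add]
        exact fun h => h2 (h.1 h1)
      rw [if_pos h3, if_neg h2, if_neg h2, if_pos h1, if_pos h1]
      ring
  · by_cases h2 : Even k'
    · have h3 : Even (k + k' + 1) := by
        rw [Nat.even_add_one, Nat.even_add]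
        exact fun h => h1 (h.2 h2)
      rw [if_pos h3, if_pos h2, if_pos h2, if_neg h1, if_neg h1]
      ring
    · have h3 : ¬ Even (k + k' + 1) := by
        rw [Nat.even_add_one, not_not, Nat.even_add]
        exact ⟨fun h => absurd h h1, fun h => absurd h h2⟩
      rw [if_neg h3, if_neg h2, if_neg h2, if_neg h1, if_neg h1]

/-- TopE is antitone in the scale and monotone in the box -/
lemma topE_mono {b b' K K' : ℕ} (h : b' ≤ b) (hK : K ≤ K') : TopE b K ⊆ TopE b' K' := by
  rintro t ⟨h1, s, a, h2, h3, h4⟩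
  have h5 : RR b' ≤ RR b := by
    unfold RR
    have : (2 : ℤ) ^ b' ≤ 2 ^ b := pow_le_pow_right₀ (by norm_num) h
    omega
  have h6 : (2 : ℤ) ^ K ≤ 2 ^ K' := pow_le_pow_right₀ (by norm_num) hK
  exact ⟨⟨h1.1, fun i hi dir => (h1.2 i hi dir).trans h6⟩, s, a, h2, h5.trans h3, h4⟩

section mid

variable {K b k k' : ℕ} {t : List Bool} {a z p q : ℕ}

lemma mid_lev (hq : q ≤ p) (hp : p ≤ t.length) (hd : dx up t q = dD false k') {i : ℕ} (hi : i ≤ p - q) :
    lev ((t.take p).drop q) i = xD (dD false k') t (q + i) - xD (dD false k') t q := by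
  obtain ⟨c, -, -, -, -, c5⟩ := drop_fr hd
  obtain ⟨p1, p2, p3⟩ := part_eq t (a := q) (n := p - q) (by omega)
  rw [← c5]
  unfold lev
  rw [List.drop_take, p2 i hi]

lemma mid_WL (ht : t ∈ WL K) (hq : q ≤ p) (hp : p ≤ t.length) (hd : dx up t q = dD false k') :
    (t.take p).drop q ∈ WL (K + 1) := by
  rw [List.drop_take]
  exact take_WL (drop_WL ht (by omega) hd) (by rw [List.length_drop]; omega)

/-- the part between q and a cut p behind q ends at its fold -/
theorem mid_top (ht : t ∈ WL K) (hb : 1 ≤ b) (hz : z ≤ t.length) (h : CutAt (dD false k) t a z p)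
    (hR : RR b ≤ xD (dD false k) t p - xD (dD false k) t a) (hq : q ≤ a) (hd : dx up t q = dD false k') :
    (t.take p).drop q ∈ TopE b (K + 1) := by
  obtain ⟨h1, h2, h3, h4, h5⟩ := h
  have hlen : ((t.take p).drop q).length = p - q := by
    rw [List.length_drop, List.length_take]
    omega
  have hR4 := RR_ge hb
  obtain ⟨d, d1, d2, d3⟩ := FoldA.last_max (fun i => - xD (dD false k) t (a + i)) (p - a)
  have d2' := d2 0 (by omega)
  simp only [add_zero] at d2'
  have hdp : a + d < p := by
    rcases Nat.lt_or_ge (a + d) p with h6 | h6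
    · exact h6
    · exfalso
      have : a + d = p := by omega
      rw [this] at d2'
      omega
  have key : ∀ i, i ≤ p - q → Tight.sg (k + k' + 1) (lev ((t.take p).drop q) i) =
      xD (dD false k) t (q + i) - xD (dD false k) t q := by
    intro i hi
    rw [mid_lev (by omega) (by omega) hd hi, xD_lev, xD_lev, xD_lev, xD_lev, sg_sg_sub]
  refine ⟨mid_WL ht (by omega) (by omega) hd, k + k' + 1, a + d - q, by omega, ?_, ?_, ?_⟩
  · rw [hlen, key _ le_rfl, key _ (by omega), show q + (p - q) = p by omega, show q + (a + d - q) = a + d by omega]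
    omega
  · intro i i1 i2
    rw [hlen] at i2 ⊢
    rw [key _ le_rfl, key i i2, show q + (p - q) = p by omega]
    have := h4 (q + i) (by omega) (by omega)
    omega
  · intro i i1 i2
    rw [hlen] at i2
    rw [key i i2, key _ (by omega), show q + (a + d - q) = a + d by omega]
    have := d3 (q + i - a) (by omega) (by omega)
    rw [show a + (q + i - a) = q + i by omega] at this
    omega

/-- the part between a cut q and a later time p starts with a leaf -/
theorem mid_bot (ht : t ∈ WL K) (h : CutAt (dD false k) t a z q) (hR : RR b ≤ xD (dD false k) t z - xD (dD false k) t q)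
    (hz : z ≤ p) (hp : p ≤ t.length) : (t.take p).drop q ∈ BotS b (K + 1) := by
  obtain ⟨h1, h2, h3, h4, h5⟩ := h
  have hlen : ((t.take p).drop q).length = p - q := by
    rw [List.length_drop, List.length_take]
    omega
  refine ⟨mid_WL ht (by omega) hp h3, z - q, by omega, ?_, ?_⟩
  · rw [mid_lev (by omega) hp h3 (by omega), show q + (z - q) = z by omega]
    exact hR
  · intro i i1 i2
    rw [mid_lev (by omega) hp h3 (by omega)]
    have := h5 (q + i) (by omega) (by omega)
    omega

end mid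

/-! ### The rest behind a cut -/

lemma drop_pm {t : List Bool} {q k : ℕ} (h : dx up t q = dD false k) :
    ∃ σ : ℤ, (σ = 1 ∨ σ = -1) ∧ ∀ i, (vx oo up (t.drop q) i).1 = σ * ((vx oo up t (q + i)).1 - (vx oo up t q).1) ∧
      (vx oo up (t.drop q) i).2 = σ * ((vx oo up t (q + i)).2 - (vx oo up t q).2) := by
  obtain ⟨c, c1, c2, c3, -, -⟩ := drop_fr h
  have hcd : c ∈ dirs := mem_dirs.2 c1
  have hc : c = (1, 0) ∨ c = (-1, 0) := by
    unfold dD at c2
    split_ifs at c2
    · exact Or.inr ((rot_up c hcd).2 c2)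
    · exact Or.inl ((rot_up c hcd).1 c2)
  rcases hc with rfl | rfl
  · refine ⟨1, Or.inl rfl, fun i => ?_⟩
    rw [c3 i]
    simp only [mulE, Prod.fst_add, Prod.snd_add]
    constructor <;> ring
  · refine ⟨-1, Or.inr rfl, fun i => ?_⟩
    rw [c3 i]
    simp only [mulE, Prod.fst_add, Prod.snd_add]
    constructor <;> ring

lemma ball_drop {t : List Bool} {q k : ℕ} (h : dx up t q = dD false k) (i j R : ℕ) :
    vx oo up (t.drop q) i ∈ Bl (vx oo up (t.drop q) j) R ↔ vx oo up t (q + i) ∈ Bl (vx oo up t (q + j)) R := by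
  obtain ⟨σ, hσ, hv⟩ := drop_pm h
  obtain ⟨a1, a2⟩ := hv i
  obtain ⟨b1, b2⟩ := hv j
  show |(vx oo up (t.drop q) i).1 - (vx oo up (t.drop q) j).1| ≤ (R : ℤ) ∧
      |(vx oo up (t.drop q) i).2 - (vx oo up (t.drop q) j).2| ≤ (R : ℤ) ↔
    |(vx oo up t (q + i)).1 - (vx oo up t (q + j)).1| ≤ (R : ℤ) ∧
      |(vx oo up t (q + i)).2 - (vx oo up t (q + j)).2| ≤ (R : ℤ)
  rw [a1, a2, b1, b2]
  rcases hσ with rfl | rfl
  · rw [show (1 : ℤ) * ((vx oo up t (q + i)).1 - (vx oo up t q).1) - 1 * ((vx oo up t (q + j)).1 - (vx oo up t q).1) =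
      (vx oo up t (q + i)).1 - (vx oo up t (q + j)).1 by ring,
      show (1 : ℤ) * ((vx oo up t (q + i)).2 - (vx oo up t q).2) - 1 * ((vx oo up t (q + j)).2 - (vx oo up t q).2) =
      (vx oo up t (q + i)).2 - (vx oo up t (q + j)).2 by ring]
  · rw [show (-1 : ℤ) * ((vx oo up t (q + i)).1 - (vx oo up t q).1) - -1 * ((vx oo up t (q + j)).1 - (vx oo up t q).1) =
      -((vx oo up t (q + i)).1 - (vx oo up t (q + j)).1) by ring,
      show (-1 : ℤ) * ((vx oo up t (q + i)).2 - (vx oo up t q).2) - -1 * ((vx oo up t (q + j)).2 - (vx oo up t q).2) =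
      -((vx oo up t (q + i)).2 - (vx oo up t (q + j)).2) by ring, abs_neg, abs_neg]

lemma lp_drop {t : List Bool} {q k : ℕ} (h : dx up t q = dD false k) : ∃ σ : ℤ, (σ = 1 ∨ σ = -1) ∧
    ∀ (dir : Bool) (i : ℕ), lp dir (t.drop q) i = σ * (lp dir t (q + i) - lp dir t q) ∧
      lq dir (t.drop q) i = σ * (lq dir t (q + i) - lq dir t q) := by
  obtain ⟨σ, hσ, hv⟩ := drop_pm h
  refine ⟨σ, hσ, fun dir i => ?_⟩
  obtain ⟨a1, a2⟩ := hv i
  unfold lp lq lvl crs ip cross
  rw [a1, a2]
  constructor <;> ring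

/-- **irregular pieces of the rest are irregular pieces of the walk** -/
theorem irg_drop {A B : ℤ} {r n : ℕ} {t : List Bool} {q k : ℕ} (hq : q ≤ t.length) (h : dx up t q = dD false k)
    (hI : Irg A B r n (t.drop q)) : Irg A B r n t := by
  obtain ⟨σ, hσ, hv⟩ := lp_drop h
  obtain ⟨dir, i, z, h1, h2, h3, h4⟩ := hI
  rw [List.length_drop] at h2
  have habs : ∀ x : ℤ, |σ * x| = |x| := by
    intro x
    rcases hσ with rfl | rfl
    · rw [one_mul]
    · rw [neg_one_mul, abs_neg]
  have hp : ∀ a b, |lp dir (t.drop q) a - lp dir (t.drop q) b| = |lp dir t (q + a) - lp dir t (q + b)| := by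
    intro a b
    rw [(hv dir a).1, (hv dir b).1, ← mul_sub, habs]
    congr 1
    ring
  have hq' : ∀ a b, |lq dir (t.drop q) a - lq dir (t.drop q) b| = |lq dir t (q + a) - lq dir t (q + b)| := by
    intro a b
    rw [(hv dir a).2, (hv dir b).2, ← mul_sub, habs]
    congr 1
    ring
  refine ⟨dir, q + i, q + z, by omega, by omega, ?_, ?_⟩
  · rw [← hp]
    exact h3
  · rcases h4 with h4 | h4
    · left
      rintro a b ha hb ⟨g1, g2, g3⟩
      obtain ⟨a', rfl⟩ : ∃ a', a = q + a' := ⟨a - q, by omega⟩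
      obtain ⟨b', rfl⟩ : ∃ b', b = q + b' := ⟨b - q, by omega⟩
      refine h4 a' b' (by omega) (by omega) ⟨by omega, ?_, ?_⟩
      · rw [hp]
        exact g2
      · intro x y x1 x2 y1 y2
        rw [hq']
        exact g3 _ _ (by omega) (by omega) (by omega) (by omega)
    · right
      rintro a b ha hb ⟨g1, g2, g3⟩
      obtain ⟨a', rfl⟩ : ∃ a', a = q + a' := ⟨a - q, by omega⟩
      obtain ⟨b', rfl⟩ : ∃ b', b = q + b' := ⟨b - q, by omega⟩
      refine h4 a' b' (by omega) (by omega) ⟨by omega, ?_, ?_⟩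
      · rw [hq']
        exact g2
      · intro x y x1 x2 y1 y2
        rw [hp]
        exact g3 _ _ (by omega) (by omega) (by omega) (by omega)

end SIM

end HexObs
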