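import Pool.Agent.NTW.RepU
import Pool.Agent.NTW.RepS
import Pool.Agent.NTW.RepE
import Pool.Agent.NTW.QDefs

/-!
SIM (no double points): the representation of a self-avoiding word by a free end, the first k leaves and the rest of the
word behind them (in its own frame).
-/

set_option autoImplicit false

namespace HexObs

namespace SIM

open Finset TS SDN NTW

open NTW.Rp

/-- gs are the words of the first k leaves of t -/
structure PreG (t : List Bool) (u k : ℕ) (e : ℕ → ℕ) (gs : List (List Bool)) : Prop where
  len : gs.length = k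
  ch : gs.IsChain LFold
  brd : ∀ g ∈ gs, ∃ h : ℕ, 1 ≤ h ∧ g ∈ Brd h
  pos : ∀ (l : ℕ) (hl : l < gs.length), PosL t u e l gs[l]
  mid : ∀ (l : ℕ) (hl : l < gs.length), 1 ≤ l → gs[l] = lw t (e l) (e (l + 1))

/-- the word w, then the fold, then the word s -/
def endP (w s : List Bool) : List Bool := w.dropLast ++ (!lst w) :: (!lst w) :: s

/-- the word with given left end, leaves and rest -/
def asmP (o : Option (List Bool)) (gs : List (List Bool)) (s : List Bool) : List Bool :=
  match o with
  | none => endP (unf gs) s
  | some W => rev W ++ (!(endP (unf gs) s).headD true) :: (!(endP (unf gs) s).headD true) :: (endP (unf gs) s).tail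

lemma endP_append (a : List Bool) {w : List Bool} (hw : w ≠ []) (s : List Bool) : endP (a ++ w) s = a ++ endP w s := by
  have h1 : (a ++ w).dropLast = a ++ w.dropLast := List.dropLast_append_of_ne_nil hw
  have h2 : lst (a ++ w) = lst w := by
    unfold lst
    rw [List.getLastD_eq_getLast?, List.getLastD_eq_getLast?, List.getLast?_append_of_ne_nil a hw]
  unfold endP
  simp only [h1, h2, List.append_assoc]

lemma endP_len {w : List Bool} (hw : w ≠ []) (s : List Bool) : (endP w s).length = w.length + 1 + s.length := by
  unfold endP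
  rw [List.length_append, List.length_dropLast, List.length_cons, List.length_cons]
  have := List.length_pos_iff.2 hw
  omega

variable {t : List Bool} {m u : ℕ} {e : ℕ → ℕ}

/-- the leaves number l, ..., l + d and the rest -/
theorem pre_tail (ht : t ∈ SA) (h : FoldG t m u e) : ∀ (d l s : ℕ) (q : List Bool), l + d + 1 < m → Stt t u e l s q →
    ∃ (g : List Bool) (gs : List (List Bool)), gs.length = d ∧ (g :: gs).IsChain LFold ∧
      (∀ w ∈ g :: gs, ∃ k : ℕ, 1 ≤ k ∧ w ∈ Brd k) ∧
      (∀ (i : ℕ) (hi : i < (g :: gs).length), PosL t u e (l + i) (g :: gs)[i]) ∧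
      (∀ (i : ℕ) (hi : i < (g :: gs).length), 1 ≤ l + i → (g :: gs)[i] = lw t (e (l + i)) (e (l + i + 1))) ∧
      q = endP (unf (g :: gs)) (t.drop (e (l + d + 1) + 1)) ∧
      (∀ r : List Bool, (∀ k, k ≤ r.length → e (l + d + 1) + 1 + k ≤ t.length ∧
        vx oo up r k = vx oo up (t.drop (e (l + d + 1) + 1)) k) → LFold ((g :: gs).getLastD []) r) ∧
      s + g.length ≤ t.length ∧ (∀ i, i ≤ g.length → vx oo up g i = vx oo up q i) := by
  intro d
  induction d with
  | zero =>
    intro l s q hd S
    have hle := e_le h (j := l + 1) (by omega)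
    obtain ⟨g, M, a1, a2, a3, a4, a5, a6, a7, a8⟩ := S.next ht h (by omega)
    refine ⟨g, [], rfl, List.isChain_singleton _, ?_, ?_, ?_, a6, a8, by omega, a4⟩
    · intro w hw
      rw [List.mem_singleton] at hw
      rw [hw]
      exact ⟨M, a1, a2⟩
    · intro i hi
      have hi0 : i = 0 := by
        simp only [List.length_cons, List.length_nil] at hi
        omega
      subst hi0
      show PosL t u e l g
      exact S.posL a4 (by omega) (by omega) hle
    · intro i hi c1
      have hi0 : i = 0 := by
        simp only [List.length_cons, List.length_nil] at hi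
        omega
      subst hi0
      exact a5 c1
  | succ d ih =>
    intro l s q hd S
    have hle := e_le h (j := l + 1) (by omega)
    have hql := S.fr.1
    obtain ⟨g, M, a1, a2, a3, a4, a5, a6, a7, a8⟩ := S.next ht h (by omega)
    obtain ⟨g', gs', b1, b2, b3, b4, b5, b6, b7, b8, b9⟩ :=
      ih (l + 1) (e (l + 1) + 1) (t.drop (e (l + 1) + 1)) (by omega) a7
    rw [show l + 1 + d + 1 = l + (d + 1) + 1 by omega] at b6 b7
    have hne : unf (g' :: gs') ≠ [] := by
      apply unf_ne_nil _ (by simp)
      intro w hw hw0
      obtain ⟨k, k1, k2⟩ := b3 w hw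
      have := Brd_two k2 k1
      rw [hw0] at this
      simp at this
    refine ⟨g, g' :: gs', by rw [List.length_cons, b1], ?_, ?_, ?_, ?_, ?_, b7, by omega, a4⟩
    · rw [List.isChain_cons_cons]
      exact ⟨a8 g' (fun k hk => ⟨by omega, b9 k hk⟩), b2⟩
    · intro w hw
      rcases List.mem_cons.1 hw with hw | hw
      · rw [hw]
        exact ⟨M, a1, a2⟩
      · exact b3 w hw
    · intro i hi
      rcases Nat.eq_zero_or_pos i with hi0 | hi0
      · subst hi0
        show PosL t u e l g
        exact S.posL a4 (by omega) (by omega) hle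
      · obtain ⟨i', rfl⟩ : ∃ i', i = i' + 1 := ⟨i - 1, by omega⟩
        have hi' : i' < (g' :: gs').length := by
          rw [List.length_cons] at hi
          omega
        have := b4 i' hi'
        rw [show l + 1 + i' = l + (i' + 1) by omega] at this
        exact this
    · intro i hi c1
      rcases Nat.eq_zero_or_pos i with hi0 | hi0
      · subst hi0
        exact a5 c1
      · obtain ⟨i', rfl⟩ : ∃ i', i = i' + 1 := ⟨i - 1, by omega⟩
        have hi' : i' < (g' :: gs').length := by
          rw [List.length_cons] at hi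
          omega
        have := b5 i' hi' (by omega)
        rw [show l + 1 + i' = l + (i' + 1) by omega] at this
        exact this
    · show q = endP (g.dropLast ++ (!lst g) :: (!lst g) :: unf (g' :: gs')) _
      have e1 : g.dropLast ++ (!lst g) :: (!lst g) :: unf (g' :: gs') =
          (g.dropLast ++ [!lst g, !lst g]) ++ unf (g' :: gs') := by simp
      rw [e1, endP_append _ hne, ← b6]
      rw [a6]
      simp

/-- **a free end, the first k leaves, the rest** -/
theorem pre_rep (ht : t ∈ SA) (h : FoldG t m u e) {k N0 : ℕ} (hk : 1 ≤ k) (hkm : k < m)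
    (h0 : ∀ i, i < e 0 → Tight.sg u (lev t i) - Tight.sg u (lev t (e 0)) ≤ 3 * N0) :
    ∃ (o : Option (List Bool)) (gs : List (List Bool)), PreG t u k e gs ∧
      (∀ W ∈ o, W ∈ SSt N0 ∧ LFold (rev (gs.headD [])) W) ∧ LFold (gs.getLastD []) (t.drop (e k + 1)) ∧
      t = asmP o gs (t.drop (e k + 1)) ∧
      (o.getD []).length + (unf gs).length + (t.drop (e k + 1)).length + 1 ≤ t.length ∧
      t.length ≤ (o.getD []).length + (unf gs).length + (t.drop (e k + 1)).length + 2 := by
  have h01 : e (0 + 1) = e 1 := rfl
  have hlt := h.lt 0 (by omega)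
  have hle1 := e_le h (j := 0 + 1) (by omega)
  -- the common end of the two cases
  have key : ∀ (s : ℕ) (q : List Bool) (o : Option (List Bool)), Stt t u e 0 s q →
      (∀ W ∈ o, W ∈ SSt N0) →
      (∀ W ∈ o, ∀ (g : List Bool) (k : ℕ), g ∈ Brd k → 1 ≤ k → s + g.length ≤ t.length →
        (∀ i, i ≤ g.length → vx oo up g i = vx oo up q i) → LFold (rev g) W) →
      (o = none → t = q) → (∀ W ∈ o, t = rev W ++ (!q.headD true) :: (!q.headD true) :: q.tail) →
      (o.getD []).length + q.length ≤ t.length → t.length ≤ (o.getD []).length + q.length + 1 →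
      ∃ (o : Option (List Bool)) (gs : List (List Bool)), PreG t u k e gs ∧
        (∀ W ∈ o, W ∈ SSt N0 ∧ LFold (rev (gs.headD [])) W) ∧ LFold (gs.getLastD []) (t.drop (e k + 1)) ∧
        t = asmP o gs (t.drop (e k + 1)) ∧
        (o.getD []).length + (unf gs).length + (t.drop (e k + 1)).length + 1 ≤ t.length ∧
        t.length ≤ (o.getD []).length + (unf gs).length + (t.drop (e k + 1)).length + 2 := by
    intro s q o S k1 k2 k3 k4 k7 k8
    obtain ⟨g, gs, b1, b2, b3, b4, b5, b6, b7, b8, b9⟩ := pre_tail ht h (k - 1) 0 s q (by omega) S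
    rw [show 0 + (k - 1) + 1 = k by omega] at b6 b7
    have hne : unf (g :: gs) ≠ [] := by
      apply unf_ne_nil _ (by simp)
      intro w hw hw0
      obtain ⟨k, k1, k2⟩ := b3 w hw
      have := Brd_two k2 k1
      rw [hw0] at this
      simp at this
    have hlen : q.length = (unf (g :: gs)).length + 1 + (t.drop (e k + 1)).length := by
      conv_lhs => rw [b6]
      exact endP_len hne _
    have hkk : e k + 1 ≤ t.length := by
      have c1 := h.lt k hkm
      have c2 := e_le h (j := k + 1) (by omega)
      omega
    refine ⟨o, g :: gs, ⟨?_, b2, b3, ?_, ?_⟩, ?_, ?_, ?_, by omega, by omega⟩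
    · rw [List.length_cons]
      omega
    · intro l hl
      have := b4 l hl
      rwa [Nat.zero_add] at this
    · intro l hl c1
      have := b5 l hl (by omega)
      rwa [Nat.zero_add] at this
    · intro W hW
      obtain ⟨k, a1, a2⟩ := b3 g (by simp)
      exact ⟨k1 W hW, k2 W hW g k a2 a1 b8 b9⟩
    · refine b7 _ fun j hj => ⟨?_, rfl⟩
      rw [List.length_drop] at hj
      omega
    · cases o with
      | none =>
        show t = endP (unf (g :: gs)) _
        rw [← b6]
        exact k3 rfl
      | some W =>
        show t = rev W ++ (!(endP (unf (g :: gs)) (t.drop (e k + 1))).headD true) ::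
          (!(endP (unf (g :: gs)) (t.drop (e k + 1))).headD true) :: (endP (unf (g :: gs)) (t.drop (e k + 1))).tail
        rw [← b6]
        exact k4 W rfl
  rcases Nat.eq_zero_or_pos (e 0) with he | he
  · have S := stt_zero h (by omega) he
    exact key 0 t none S (by simp) (by simp) (fun _ => rfl) (by simp) (by simp) (by simp)
  · obtain ⟨c0, W0, a1, a2, a3, a4, a5, a6⟩ := start_rep ht (by omega) h h0 he
    have S := stt_pos h (by omega) he a3
    refine key (e 0 - 1) (c0 :: t.drop (e 0)) (some W0) S ?_ ?_ (fun hh => by simp at hh) ?_ ?_ ?_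
    · intro W hW
      rw [Option.mem_some_iff] at hW
      rw [← hW]
      exact a4
    · intro W hW g k g1 g2 g3 g4
      rw [Option.mem_some_iff] at hW
      rw [← hW]
      exact a6 g k g1 g2 g3 g4
    · intro W hW
      rw [Option.mem_some_iff] at hW
      rw [← hW]
      exact a1
    · have := a3.1
      show W0.length + _ ≤ _
      omega
    · have := a3.1
      show _ ≤ W0.length + _ + 1
      omega

end SIM

end HexObs
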