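import Pool.Agent.SIM.HalfW

/-!
SIM (no double points), half words: norms of the right functionals of the increasing chains of windows.
-/

set_option autoImplicit false

namespace HexObs

namespace SIM

open Finset TS SDN SDN.CN NTm NTW NTA EN

open scoped ENNReal

open QF in
/-- **the norm of the sum over the increasing chains, the norms of the last pieces given** -/
theorem right_norm : ∃ Q : ℝ, 1 ≤ Q ∧ ∀ (kc J n : ℕ) (W : ℕ → Set (List Bool)) (kp : ℕ → ℕ) (x : ℝ)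
    (Φ : ℕ → List Bool → ℝ≥0∞), Wnd kc J n W kp → 0 ≤ x →
    (∀ i i', i ≤ i' → i' < n → xT (2 ^ (kp i + 4)) (kp i) (vA (2 ^ (kp i + 4)) (W i') (Φ i')) ≤
      ENNReal.ofReal (x * (Ub (kc + J) / Ub (kp i)))) → ∀ M : ℕ,
    xT (2 ^ (kc + 4)) kc (Rx W kp n Φ M 0) ≤ ENNReal.ofReal (Q ^ (n + J + 1) * x) := by
  obtain ⟨K, hK1, hK⟩ := two_scale
  obtain ⟨q, hq⟩ : ∃ q : ℝ, q = 128 * K + 1 := ⟨_, rfl⟩
  have hq1 : 1 ≤ q := by linarith
  have hq2 : 2 ≤ q := by linarith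
  have hq0 : 0 ≤ q := by linarith
  refine ⟨2 * q ^ 2, by nlinarith, ?_⟩
  intro kc J n W kp x Φ hW hx hΦ M
  have hU := Ub_pos kc
  have hUJ : Ub (kc + J) ≤ 2 ^ J * Ub kc := UU_ratio_up kc J
  have hn0 : (0 : ℝ) ≤ n := Nat.cast_nonneg n
  obtain ⟨r, hr⟩ : ∃ r, r = Ub (kc + J) / Ub kc := ⟨_, rfl⟩
  have hr0 : 0 ≤ r := by rw [hr]; exact div_nonneg (Ub_pos _).le hU.le
  have hrJ : r ≤ 2 ^ J := by
    rw [hr, div_le_iff₀ hU]
    exact hUJ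
  have h1 := EN.OU.rightO (Q := q) hK1 (by linarith) hK hW hx hΦ M 0 (by rw [hW.zero]; omega)
  rw [hW.zero, Nat.sub_zero, ← hr] at h1
  refine h1.trans (ENNReal.ofReal_le_ofReal ?_)
  have h6 : (n : ℝ) ≤ q ^ n := by
    have a1 : n < 2 ^ n := Nat.lt_two_pow_self
    have a2 : (n : ℝ) ≤ 2 ^ n := by exact_mod_cast a1.le
    exact a2.trans (pow_le_pow_left₀ (by norm_num) hq2 n)
  have h7 : r ≤ q ^ J := hrJ.trans (pow_le_pow_left₀ (by norm_num) hq2 J)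
  have h8 : (n : ℝ) * r * q ^ n ≤ (q ^ 2) ^ (n + J + 1) := by
    calc (n : ℝ) * r * q ^ n ≤ q ^ n * q ^ J * q ^ n := by gcongr
      _ = q ^ (n + J + n) := by ring
      _ ≤ q ^ (2 * (n + J + 1)) := pow_le_pow_right₀ hq1 (by omega)
      _ = _ := by rw [pow_mul]
  have h9 : (2 : ℝ) ≤ 2 ^ (n + J + 1) := by
    calc (2 : ℝ) = 2 ^ 1 := (pow_one _).symm
      _ ≤ _ := pow_le_pow_right₀ (by norm_num) (by omega)
  calc 2 * n * x * r * q ^ n = 2 * (n * r * q ^ n) * x := by ring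
    _ ≤ 2 ^ (n + J + 1) * (q ^ 2) ^ (n + J + 1) * x := by gcongr
    _ = (2 * q ^ 2) ^ (n + J + 1) * x := by rw [← mul_pow]

/-- dominated ends -/
theorem dom_end : ∃ K : ℝ, 1 ≤ K ∧ ∀ (kc J n : ℕ) (W : ℕ → Set (List Bool)) (kp : ℕ → ℕ), Wnd kc J n W kp →
    ∀ (x : ℝ) (i i' j : ℕ) (Φ : List Bool → ℝ≥0∞), 0 ≤ x → i ≤ i' → i' < n → j ≤ kp i' → Dom j (ENNReal.ofReal x) Φ →
    xT (2 ^ (kp i + 4)) (kp i) (vA (2 ^ (kp i + 4)) (W i') Φ) ≤ ENNReal.ofReal (K * x * (Ub (kc + J) / Ub (kp i))) := by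
  obtain ⟨C, δ, hI⟩ := inp_exists
  obtain ⟨K, hK, hN⟩ := nextD_of hI (ssA hI) ss3P
  refine ⟨32 * K, by linarith, ?_⟩
  intro kc J n W kp hW x i i' j Φ hx hi hi' hj hΦ
  have e1 : 2 ^ (kp i + 4) ≤ 2 ^ (kp i' + 4) :=
    Nat.pow_le_pow_right (by norm_num) (Nat.add_le_add_right (hW.mono i i' hi) 4)
  have e2 : 2 ^ (j + 4) ≤ 2 ^ (kp i' + 4) := Nat.pow_le_pow_right (by norm_num) (by omega)
  have e3 : 2 ^ (kp i' + 4) ≤ 2 ^ (kp i' + 5) := Nat.pow_le_pow_right (by norm_num) (by omega)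
  have h1 := hN (2 ^ (kp i + 4)) (kp i) j (2 ^ (kp i' + 4)) (2 ^ (kp i' + 5)) _ Φ hΦ le_rfl e1 e2 e3
  refine (xT_mono fun t => ?_).trans (h1.trans ?_)
  · unfold vA
    exact Rec8.sw_mono (fun g hg => ⟨hW.sub i' hi' hg.1, hg.2⟩) fun _ _ => le_rfl
  · have hU := Ub_pos (kp i)
    have hUp := Num2Aux.UU_pos (2 ^ (kp i' + 5))
    rw [← ENNReal.ofReal_mul (by positivity)]
    apply ENNReal.ofReal_le_ofReal
    have h3 : UU (2 ^ (kp i' + 5)) ≤ 2 ^ 5 * Ub (kp i') := UU_ratio_up (kp i') 5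
    have h4 : Ub (kp i') ≤ Ub (kc + J) := Ub_mono (hW.top i' hi')
    have h5 : UU (2 ^ (kp i' + 5)) ≤ 32 * Ub (kc + J) := by linarith
    calc K * (UU (2 ^ (kp i' + 5)) / Ub (kp i)) * x ≤ K * (32 * Ub (kc + J) / Ub (kp i)) * x := by gcongr
      _ = 32 * K * x * (Ub (kc + J) / Ub (kp i)) := by ring

end SIM

end HexObs
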