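import Pool.Agent.SIM.HexCross
import Pool.Agent.SIM.Count

/-!
SIM: robust crossings. A contains near a point a a path of height 6 ρ and lateral extent at most 6 ρ and a path of lateral
displacement 8 ρ and height at most 3 ρ (levels lv, 3 units for a row). Then every path B that goes far crosses one of
them for a whole box of shifts.
-/

set_option autoImplicit false

namespace HexObs

namespace SIM

open Finset

/-- the part of the path B from the time s to the time t, forwards or backwards -/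
def seg (B : ℕ → Pt) (s t : ℕ) (j : ℕ) : Pt := if s ≤ t then B (s + j) else B (s - j)

/-- its number of steps -/
def sl (s t : ℕ) : ℕ := (t - s) + (s - t)

lemma seg_zero (B : ℕ → Pt) (s t : ℕ) : seg B s t 0 = B s := by
  unfold seg
  split_ifs <;> simp

lemma seg_last (B : ℕ → Pt) (s t : ℕ) : seg B s t (sl s t) = B t := by
  unfold seg sl
  split_ifs with h
  · congr 1
    omega
  · congr 1
    omega

lemma seg_step {B : ℕ → Pt} {s t m : ℕ} (hB : ∀ j < m, HN (B j) (B (j + 1))) (hs : s ≤ m) (ht : t ≤ m) :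
    ∀ j < sl s t, HN (seg B s t j) (seg B s t (j + 1)) := by
  intro j hj
  unfold seg
  unfold sl at hj
  split_ifs with h
  · exact hB (s + j) (by omega)
  · have e : s - j = s - (j + 1) + 1 := by omega
    rw [e]
    exact (hB (s - (j + 1)) (by omega)).symm

lemma seg_mem {B : ℕ → Pt} {s t : ℕ} {j : ℕ} (hj : j ≤ sl s t) : ∃ r, min s t ≤ r ∧ r ≤ max s t ∧ seg B s t j = B r := by
  unfold seg
  unfold sl at hj
  split_ifs with h
  · exact ⟨s + j, by omega, by omega, rfl⟩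
  · exact ⟨s - j, by omega, by omega, rfl⟩

lemma lv_add (p q : Pt) : lv (p + q) = lv p + lv q := by
  unfold lv
  simp only [Prod.fst_add, Prod.snd_add]
  ring

lemma HN_add {a b z : Pt} (hz : 3 ∣ lv z) (h : HN a b) : HN (a + z) (b + z) := by
  unfold HN at h ⊢
  rw [lv_add, lv_add, dvd_add_left hz, dvd_add_left hz]
  rcases h with ⟨h1, h2⟩ | ⟨h1, h2⟩
  · left
    refine ⟨h1, ?_⟩
    rcases h2 with rfl | rfl | rfl
    · exact Or.inl (by abel)
    · exact Or.inr (Or.inl (by abel))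
    · exact Or.inr (Or.inr (by abel))
  · right
    refine ⟨h1, ?_⟩
    rcases h2 with rfl | rfl | rfl
    · exact Or.inl (by abel)
    · exact Or.inr (Or.inl (by abel))
    · exact Or.inr (Or.inr (by abel))

lemma HN.step {a b : Pt} (h : HN a b) : |b.1 - a.1| ≤ 1 ∧ |lv b - lv a| ≤ 2 ∧ |b.2 - a.2| ≤ 1 := by
  obtain ⟨a1, a2⟩ := a
  obtain ⟨b1, b2⟩ := b
  simp only [HN, lv, Prod.mk_add_mk, Prod.mk.injEq] at *
  rw [abs_le, abs_le, abs_le]
  omega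

/-- a tall path of A near a -/
def Alp (A : Set Pt) (a : Pt) (R ρ : ℕ) : Prop := ∃ (P : ℕ → Pt) (n : ℕ), 1 ≤ n ∧ (∀ i < n, HN (P i) (P (i + 1))) ∧
  (∀ i ≤ n, P i ∈ A ∧ P i ∈ Bl a R) ∧ lv (P 0) + 6 * ρ ≤ lv (P n) ∧ ∀ i ≤ n, ∀ i' ≤ n, (P i).1 - (P i').1 ≤ 6 * ρ

/-- a long path of A near a -/
def Bet (A : Set Pt) (a : Pt) (R ρ : ℕ) : Prop := ∃ (Q : ℕ → Pt) (m : ℕ), 1 ≤ m ∧ (∀ j < m, HN (Q j) (Q (j + 1))) ∧
  (∀ j ≤ m, Q j ∈ A ∧ Q j ∈ Bl a R) ∧ (Q 0).1 + 8 * ρ ≤ (Q m).1 ∧ ∀ j ≤ m, ∀ j' ≤ m, lv (Q j) - lv (Q j') ≤ 3 * ρ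

/-- the shifts z for which A meets B + z -/
def TT (A : Set Pt) (B : ℕ → Pt) (m : ℕ) : Set (ℤ × ℤ) := {z | 3 ∣ lv z → ∃ a ∈ A, ∃ j ≤ m, a = B j + z}

/-- the first time that a path is wide or high -/
lemma stop_time {B : ℕ → Pt} {p m : ℕ} {ρ : ℕ} (hρ : 1 ≤ ρ) (hB : ∀ j < m, HN (B j) (B (j + 1))) (hpm : p ≤ m)
    (hfar : 7 * (ρ : ℤ) ≤ |(B m).1 - (B p).1| ∨ 4 * (ρ : ℤ) ≤ |lv (B m) - lv (B p)|) :
    ∃ s t : ℕ, p ≤ s ∧ s ≤ t ∧ t ≤ m ∧
      (∀ i j, p ≤ i → i ≤ t → p ≤ j → j ≤ t → |(B i).1 - (B j).1| ≤ 7 * ρ ∧ |lv (B i) - lv (B j)| ≤ 4 * ρ + 1) ∧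
      (7 * (ρ : ℤ) ≤ |(B t).1 - (B s).1| ∨ 4 * (ρ : ℤ) ≤ |lv (B t) - lv (B s)|) := by
  classical
  have hex : ∃ t, p ≤ t ∧ t ≤ m ∧ ∃ s, p ≤ s ∧ s ≤ t ∧
      (7 * (ρ : ℤ) ≤ |(B t).1 - (B s).1| ∨ 4 * (ρ : ℤ) ≤ |lv (B t) - lv (B s)|) :=
    ⟨m, hpm, le_rfl, p, le_rfl, hpm, hfar⟩
  obtain ⟨t, ht⟩ : ∃ t, t = Nat.find hex := ⟨_, rfl⟩
  obtain ⟨h1, h2, s, h3, h4, h5⟩ := Nat.find_spec hex
  have hmin : ∀ t' < t, ∀ s, p ≤ s → s ≤ t' → |(B t').1 - (B s).1| < 7 * ρ ∧ |lv (B t') - lv (B s)| < 4 * ρ := by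
    intro t' ht' s hs hst
    rw [ht] at ht'
    have := Nat.find_min hex ht'
    push Not at this
    exact this (by omega) (by omega) s hs hst
  rw [← ht] at h1 h2 h4 h5
  refine ⟨s, t, h3, h4, h2, ?_, h5⟩
  have hpt : p < t := by
    rcases Nat.eq_or_lt_of_le h1 with h | h
    · exfalso
      have hsp : s = t := by omega
      rw [hsp, sub_self, sub_self, abs_zero] at h5
      have : (1 : ℤ) ≤ ρ := by exact_mod_cast hρ
      omega
    · exact h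
  have hst := (hB (t - 1) (by omega)).step
  rw [Nat.sub_add_cancel (by omega : 1 ≤ t)] at hst
  have key : ∀ i j, p ≤ i → i ≤ j → j ≤ t → |(B i).1 - (B j).1| ≤ 7 * ρ ∧ |lv (B i) - lv (B j)| ≤ 4 * ρ + 1 := by
    intro i j hi hij hj
    rcases Nat.lt_or_ge j t with h | h
    · have := hmin j h i hi hij
      rw [abs_sub_comm, abs_sub_comm (lv (B i))]
      omega
    · have hjt : j = t := by omega
      subst hjt
      rcases Nat.eq_or_lt_of_le hij with h6 | h6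
      · rw [h6, sub_self, sub_self, abs_zero]
        have : (1 : ℤ) ≤ ρ := by exact_mod_cast hρ
        omega
      · have h7 := hmin (j - 1) (by omega) i hi (by omega)
        obtain ⟨g1, g2⟩ := h7
        obtain ⟨g3, g4, -⟩ := hst
        rw [abs_lt] at g1 g2
        rw [abs_le] at g3 g4 ⊢
        rw [abs_le]
        omega
  intro i j hi hit hj hjt
  rcases le_total i j with h | h
  · exact key i j hi h hjt
  · have := key j i hj h hit
    rw [abs_sub_comm, abs_sub_comm (lv (B i))]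
    exact this

lemma exists_min {f : ℕ → ℤ} (n : ℕ) : ∃ i ≤ n, ∀ j ≤ n, f i ≤ f j := by
  obtain ⟨i, hi, h⟩ := Finset.exists_min_image (Finset.range (n + 1)) f ⟨0, by simp⟩
  exact ⟨i, by simpa [Nat.lt_succ_iff] using hi, fun j hj => h j (by simpa [Nat.lt_succ_iff] using hj)⟩

/-- the lateral part crosses the tall path -/
lemma box_alp {A : Set Pt} {P : ℕ → Pt} {n ρ σ : ℕ} (hn : 1 ≤ n) (hP : ∀ i < n, HN (P i) (P (i + 1)))
    (hPA : ∀ i ≤ n, P i ∈ A) (hP1 : lv (P 0) + 6 * ρ ≤ lv (P n)) (hP2 : ∀ i ≤ n, ∀ i' ≤ n, (P i).1 - (P i').1 ≤ 6 * ρ)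
    (hρ : 32 ≤ ρ) (hσ : 16 * σ ≤ ρ) {B : ℕ → Pt} {m p l r : ℕ}
    (hB : ∀ j < m, HN (B j) (B (j + 1))) (hpl : p ≤ l) (hpr : p ≤ r) (hlm : l ≤ m) (hrm : r ≤ m)
    (hbd : ∀ i j, p ≤ i → i ≤ max l r → p ≤ j → j ≤ max l r →
      |(B i).1 - (B j).1| ≤ 7 * ρ ∧ |lv (B i) - lv (B j)| ≤ 4 * ρ + 1)
    (hx : (B l).1 + 7 * (ρ : ℤ) ≤ (B r).1) :
    ∃ y : Pt, y + B p ∈ Bl (P 0) (14 * ρ) ∧ Bl y (2 * σ) ⊆ TT A B m := by
  have hρ0 : (32 : ℤ) ≤ ρ := by exact_mod_cast hρ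
  have hσ0 : 16 * (σ : ℤ) ≤ ρ := by exact_mod_cast hσ
  have hσ1 : (0 : ℤ) ≤ σ := Int.natCast_nonneg _
  obtain ⟨i0, hi0, hmin⟩ := exists_min (f := fun i => (P i).1) n
  obtain ⟨j0, hj0, hmin'⟩ := exists_min (f := fun j => lv (seg B l r j)) (sl l r)
  obtain ⟨r0, hr01, hr02, hr03⟩ := seg_mem (B := B) hj0
  obtain ⟨h0, hh0⟩ : ∃ h0, h0 = lv (seg B l r j0) := ⟨_, rfl⟩
  obtain ⟨xm, hxm⟩ : ∃ xm, xm = (P i0).1 := ⟨_, rfl⟩
  have hbd0 := hbd p l le_rfl (by omega) hpl (by omega)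
  have hbd1 := hbd p r0 le_rfl (by omega) (by omega) hr02
  rw [hr03] at hh0
  have hxm0 := hP2 0 (by omega) i0 hi0
  have hxm1 := hmin 0 (by omega)
  beta_reduce at hmin hmin' hxm1
  refine ⟨(xm - (B l).1 - 2 * σ, (lv (P 0) + 3 - h0 + 6 * σ - (xm - (B l).1 - 2 * σ) + 1) / 2), ?_, ?_⟩
  · obtain ⟨g1, g2⟩ := hbd0
    obtain ⟨g3, g4⟩ := hbd1
    rw [abs_le] at g1 g2 g3 g4
    rw [← hh0] at g4
    have e1 : lv (B p) = 2 * (B p).2 + (B p).1 := rfl
    have e2 : lv (P 0) = 2 * (P 0).2 + (P 0).1 := rfl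
    constructor
    · show |xm - (B l).1 - 2 * σ + (B p).1 - (P 0).1| ≤ ((14 * ρ : ℕ) : ℤ)
      push_cast
      rw [abs_le]
      omega
    · show |(lv (P 0) + 3 - h0 + 6 * σ - (xm - (B l).1 - 2 * σ) + 1) / 2 + (B p).2 - (P 0).2| ≤ ((14 * ρ : ℕ) : ℤ)
      push_cast
      rw [abs_le]
      omega
  · rintro ⟨z1, z2⟩ ⟨hz1, hz2⟩ hz3
    simp only at hz1 hz2
    push_cast at hz1 hz2
    rw [abs_le] at hz1 hz2
    have hlvz : lv (z1, z2) = 2 * z2 + z1 := rfl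
    have hlvz1 : lv (P 0) + 3 - h0 ≤ lv (z1, z2) := by omega
    have hlvz2 : lv (z1, z2) ≤ lv (P 0) + 2 * ρ - 4 - h0 := by omega
    have hm1 : 1 ≤ sl l r := by
      unfold sl
      rcases eq_or_ne l r with h | h
      · rw [h] at hx
        omega
      · omega
    obtain ⟨i, hi, j, hj, hij⟩ := hex_cross (P := P) (Q := fun j => seg B l r j + (z1, z2)) (n := n) (m := sl l r) hP
      (fun j hj => HN_add hz3 (seg_step hB hlm hrm j hj)) hn hm1
      (fun j hj => by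
        have := hmin' j hj
        rw [lv_add]
        rw [hr03, ← hh0] at this
        omega)
      (fun j hj => by
        obtain ⟨q, q1, q2, q3⟩ := seg_mem (B := B) hj
        have := (hbd q r0 (by omega) q2 (by omega) hr02).2
        rw [abs_le, ← hh0] at this
        rw [lv_add, q3]
        omega)
      (fun i hi => by
        have := hmin i hi
        show (seg B l r 0).1 + z1 ≤ (P i).1
        rw [seg_zero]
        omega)
      (fun i hi => by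
        have := hP2 i hi i0 hi0
        show (P i).1 < (seg B l r (sl l r)).1 + z1
        rw [seg_last]
        omega)
    obtain ⟨q, q1, q2, q3⟩ := seg_mem (B := B) hj
    refine ⟨P i, hPA i hi, q, by omega, ?_⟩
    rw [hij, q3]

/-- the high part crosses the long path -/
lemma box_bet {A : Set Pt} {Q : ℕ → Pt} {n ρ σ : ℕ} (hn : 1 ≤ n) (hQ : ∀ i < n, HN (Q i) (Q (i + 1)))
    (hQA : ∀ i ≤ n, Q i ∈ A) (hQ1 : (Q 0).1 + 8 * ρ ≤ (Q n).1) (hQ2 : ∀ i ≤ n, ∀ i' ≤ n, lv (Q i) - lv (Q i') ≤ 3 * ρ)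
    (hρ : 32 ≤ ρ) (hσ : 16 * σ ≤ ρ) {B : ℕ → Pt} {m p l r : ℕ}
    (hB : ∀ j < m, HN (B j) (B (j + 1))) (hpl : p ≤ l) (hpr : p ≤ r) (hlm : l ≤ m) (hrm : r ≤ m)
    (hbd : ∀ i j, p ≤ i → i ≤ max l r → p ≤ j → j ≤ max l r →
      |(B i).1 - (B j).1| ≤ 7 * ρ ∧ |lv (B i) - lv (B j)| ≤ 4 * ρ + 1)
    (hx : lv (B l) + 4 * (ρ : ℤ) ≤ lv (B r)) :
    ∃ y : Pt, y + B p ∈ Bl (Q 0) (14 * ρ) ∧ Bl y (2 * σ) ⊆ TT A B m := by
  have hρ0 : (32 : ℤ) ≤ ρ := by exact_mod_cast hρ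
  have hσ0 : 16 * (σ : ℤ) ≤ ρ := by exact_mod_cast hσ
  have hσ1 : (0 : ℤ) ≤ σ := Int.natCast_nonneg _
  obtain ⟨i0, hi0, hmin⟩ := exists_min (f := fun i => lv (Q i)) n
  obtain ⟨j0, hj0, hmin'⟩ := exists_min (f := fun j => (seg B l r j).1) (sl l r)
  obtain ⟨r0, hr01, hr02, hr03⟩ := seg_mem (B := B) hj0
  obtain ⟨xm, hxm⟩ : ∃ xm, xm = (seg B l r j0).1 := ⟨_, rfl⟩
  obtain ⟨g0, hg0⟩ : ∃ g0, g0 = lv (Q i0) := ⟨_, rfl⟩
  have hbd0 := hbd p l le_rfl (by omega) hpl (by omega)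
  have hbd1 := hbd p r0 le_rfl (by omega) (by omega) hr02
  rw [hr03] at hxm
  have hg1 := hQ2 0 (by omega) i0 hi0
  have hg2 := hmin 0 (by omega)
  beta_reduce at hmin hmin' hg2
  refine ⟨((Q 0).1 - xm + 2 * σ, (g0 - ρ + 3 - lv (B l) + 6 * σ - ((Q 0).1 - xm + 2 * σ) + 1) / 2), ?_, ?_⟩
  · obtain ⟨g1, g2⟩ := hbd0
    obtain ⟨g3, g4⟩ := hbd1
    rw [abs_le] at g1 g2 g3 g4
    rw [← hxm] at g3
    have e1 : lv (B p) = 2 * (B p).2 + (B p).1 := rfl
    have e2 : lv (Q 0) = 2 * (Q 0).2 + (Q 0).1 := rfl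
    constructor
    · show |(Q 0).1 - xm + 2 * σ + (B p).1 - (Q 0).1| ≤ ((14 * ρ : ℕ) : ℤ)
      push_cast
      rw [abs_le]
      omega
    · show |(g0 - ρ + 3 - lv (B l) + 6 * σ - ((Q 0).1 - xm + 2 * σ) + 1) / 2 + (B p).2 - (Q 0).2| ≤ ((14 * ρ : ℕ) : ℤ)
      push_cast
      rw [abs_le]
      omega
  · rintro ⟨z1, z2⟩ ⟨hz1, hz2⟩ hz3
    simp only at hz1 hz2
    push_cast at hz1 hz2
    rw [abs_le] at hz1 hz2
    have hlvz : lv (z1, z2) = 2 * z2 + z1 := rfl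
    have hlvz1 : g0 - ρ + 3 - lv (B l) ≤ lv (z1, z2) := by omega
    have hlvz2 : lv (z1, z2) ≤ g0 - 3 - lv (B l) := by omega
    have hm1 : 1 ≤ sl l r := by
      unfold sl
      rcases eq_or_ne l r with h | h
      · rw [h] at hx
        omega
      · omega
    obtain ⟨i, hi, j, hj, hij⟩ := hex_cross (P := fun j => seg B l r j + (z1, z2)) (Q := Q) (n := sl l r) (m := n)
      (fun j hj => HN_add hz3 (seg_step hB hlm hrm j hj)) hQ hm1 hn
      (fun j hj => by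
        have := hmin j hj
        show lv (seg B l r 0 + (z1, z2)) + 3 ≤ lv (Q j)
        rw [lv_add, seg_zero]
        omega)
      (fun j hj => by
        have := hQ2 j hj i0 hi0
        show lv (Q j) + 3 ≤ lv (seg B l r (sl l r) + (z1, z2))
        rw [lv_add, seg_last]
        omega)
      (fun i hi => by
        have := hmin' i hi
        rw [hr03, ← hxm] at this
        show (Q 0).1 ≤ (seg B l r i).1 + z1
        omega)
      (fun i hi => by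
        obtain ⟨q, q1, q2, q3⟩ := seg_mem (B := B) hi
        have := (hbd q r0 (by omega) q2 (by omega) hr02).1
        rw [abs_le, ← hxm] at this
        show (seg B l r i).1 + z1 < (Q n).1
        rw [q3]
        omega)
    obtain ⟨q, q1, q2, q3⟩ := seg_mem (B := B) hi
    refine ⟨Q j, hQA j hj, q, by omega, ?_⟩
    rw [← hij, q3]

/-- every point of B from which B goes far gives a box of shifts -/
lemma box_pt {A : Set Pt} {P Q : ℕ → Pt} {n n' ρ σ : ℕ} (hn : 1 ≤ n) (hP : ∀ i < n, HN (P i) (P (i + 1)))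
    (hPA : ∀ i ≤ n, P i ∈ A) (hP1 : lv (P 0) + 6 * ρ ≤ lv (P n)) (hP2 : ∀ i ≤ n, ∀ i' ≤ n, (P i).1 - (P i').1 ≤ 6 * ρ)
    (hn' : 1 ≤ n') (hQ : ∀ i < n', HN (Q i) (Q (i + 1)))
    (hQA : ∀ i ≤ n', Q i ∈ A) (hQ1 : (Q 0).1 + 8 * ρ ≤ (Q n').1) (hQ2 : ∀ i ≤ n', ∀ i' ≤ n', lv (Q i) - lv (Q i') ≤ 3 * ρ)
    (hρ : 32 ≤ ρ) (hσ : 16 * σ ≤ ρ) {B : ℕ → Pt} {m p : ℕ} (hB : ∀ j < m, HN (B j) (B (j + 1))) (hpm : p ≤ m)
    (hfar : B m ∉ Bl (B p) (7 * ρ)) :
    ∃ y : Pt, (y + B p ∈ Bl (P 0) (14 * ρ) ∨ y + B p ∈ Bl (Q 0) (14 * ρ)) ∧ Bl y (2 * σ) ⊆ TT A B m := by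
  have hfar' : 7 * (ρ : ℤ) ≤ |(B m).1 - (B p).1| ∨ 4 * (ρ : ℤ) ≤ |lv (B m) - lv (B p)| := by
    by_contra hcon
    push Not at hcon
    obtain ⟨h1, h2⟩ := hcon
    rw [abs_lt] at h1 h2
    have e1 : lv (B p) = 2 * (B p).2 + (B p).1 := rfl
    have e2 : lv (B m) = 2 * (B m).2 + (B m).1 := rfl
    refine hfar ⟨?_, ?_⟩
    · push_cast
      rw [abs_le]
      omega
    · push_cast
      rw [abs_le]
      omega
  obtain ⟨s, t, h1, h2, h3, h4, h5⟩ := stop_time (by omega) hB hpm hfar'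
  rcases h5 with h5 | h5
  · rcases le_abs.1 h5 with h6 | h6
    · obtain ⟨y, hy1, hy2⟩ := box_alp hn hP hPA hP1 hP2 hρ hσ hB (l := s) (r := t) h1 (by omega) (by omega) h3
        (by rw [max_eq_right h2]; exact h4) (by omega)
      exact ⟨y, Or.inl hy1, hy2⟩
    · obtain ⟨y, hy1, hy2⟩ := box_alp hn hP hPA hP1 hP2 hρ hσ hB (l := t) (r := s) (by omega) h1 h3 (by omega)
        (by rw [max_eq_left h2]; exact h4) (by omega)
      exact ⟨y, Or.inl hy1, hy2⟩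
  · rcases le_abs.1 h5 with h6 | h6
    · obtain ⟨y, hy1, hy2⟩ := box_bet hn' hQ hQA hQ1 hQ2 hρ hσ hB (l := s) (r := t) h1 (by omega) (by omega) h3
        (by rw [max_eq_right h2]; exact h4) (by omega)
      exact ⟨y, Or.inr hy1, hy2⟩
    · obtain ⟨y, hy1, hy2⟩ := box_bet hn' hQ hQA hQ1 hQ2 hρ hσ hB (l := t) (r := s) (by omega) h1 h3 (by omega)
        (by rw [max_eq_left h2]; exact h4) (by omega)
      exact ⟨y, Or.inr hy1, hy2⟩

/-- boxes with the same goal are disjoint -/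
lemma cover_card {O : Pt} {I : Finset ℕ} {y b : ℕ → Pt} {ρ σ : ℕ} (hρ : 32 ≤ ρ) (hσ : 16 * σ ≤ ρ)
    (hy : ∀ q ∈ I, y q + b q ∈ Bl O (14 * ρ)) (hb : ∀ q ∈ I, ∀ q' ∈ I, q < q' → b q' ∉ Bl (b q) (30 * ρ - 1)) :
    (I.biUnion (fun q => bl (y q) σ)).card = I.card * (2 * σ + 1) ^ 2 := by
  rw [Finset.card_biUnion]
  · simp only [card_bl]
    rw [Finset.sum_const, smul_eq_mul]
  · have key : ∀ q ∈ I, ∀ q' ∈ I, q < q' → Disjoint (bl (y q) σ) (bl (y q') σ) := by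
      intro q hq q' hq' hlt
      rw [Finset.disjoint_left]
      intro z hz hz'
      refine hb q hq q' hq' hlt ?_
      obtain ⟨g1, g2⟩ := mem_bl.1 hz
      obtain ⟨g3, g4⟩ := mem_bl.1 hz'
      obtain ⟨g5, g6⟩ := hy q hq
      obtain ⟨g7, g8⟩ := hy q' hq'
      rw [abs_le] at g1 g2 g3 g4 g5 g6 g7 g8
      rw [Prod.fst_add] at g5 g7
      rw [Prod.snd_add] at g6 g8
      push_cast at g5 g6 g7 g8
      refine ⟨?_, ?_⟩
      · rw [Nat.cast_sub (by omega)]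
        push_cast
        rw [abs_le]
        omega
      · rw [Nat.cast_sub (by omega)]
        push_cast
        rw [abs_le]
        omega
    intro q hq q' hq' hne
    rcases Nat.lt_or_gt_of_ne hne with h | h
    · exact key q hq q' hq' h
    · exact (key q' hq' q hq h).symm

open Classical in
/-- **a path that goes far crosses for many boxes of shifts** -/
theorem cover_pts {A : Set Pt} {B : ℕ → Pt} {m R ρ σ N : ℕ} {a v : Pt} (hα : Alp A a R ρ) (hβ : Bet A a R ρ) (hρ : 32 ≤ ρ)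
    (hσ : 16 * σ ≤ ρ) (hB : ∀ j < m, HN (B j) (B (j + 1))) (hfar : B m ∉ Bl (B 0) R) (ha : a ∈ Bl (B 0 + v) R)
    (hN : (N + 1) * (30 * ρ) ≤ R) :
    ∃ Y : Finset (ℤ × ℤ), N * (2 * σ + 1) ^ 2 ≤ 2 * Y.card ∧ ∀ y ∈ Y, y ∈ Bl v (4 * R) ∧ Bl y σ ⊆ TT A B m := by
  obtain ⟨P, n, hn, hP, hPA, hP1, hP2⟩ := hα
  obtain ⟨Q, n', hn', hQ, hQA, hQ1, hQ2⟩ := hβ
  -- the exits
  have hex : ∀ q : ℕ, ∃ j, q < N → (j ≤ m ∧ B j ∉ Bl (B 0) ((q + 1) * (30 * ρ)) ∧ B j ∈ Bl (B 0) ((q + 1) * (30 * ρ) + 1)) := by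
    intro q
    rcases Nat.lt_or_ge q N with hq | hq
    · have hle : (q + 1) * (30 * ρ) ≤ R := (Nat.mul_le_mul_right _ (by omega)).trans hN
      have h1 : ∃ j, j ≤ m ∧ B j ∉ Bl (B 0) ((q + 1) * (30 * ρ)) := ⟨m, le_rfl, fun h => hfar (Bl_mono _ hle h)⟩
      obtain ⟨j, hj⟩ : ∃ j, j = Nat.find h1 := ⟨_, rfl⟩
      obtain ⟨h2, h3⟩ := Nat.find_spec h1
      rw [← hj] at h2 h3
      refine ⟨j, fun _ => ⟨h2, h3, ?_⟩⟩
      have hj1 : 1 ≤ j := by
        rcases Nat.eq_zero_or_pos j with h4 | h4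
        · rw [h4] at h3
          exfalso
          refine h3 ⟨?_, ?_⟩
          · rw [sub_self, abs_zero]
            positivity
          · rw [sub_self, abs_zero]
            positivity
        · exact h4
      have h4 : B (j - 1) ∈ Bl (B 0) ((q + 1) * (30 * ρ)) := by
        by_contra hcon
        exact Nat.find_min h1 (m := j - 1) (by omega) ⟨by omega, hcon⟩
      have h5 := (hB (j - 1) (by omega)).step
      rw [Nat.sub_add_cancel hj1] at h5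
      obtain ⟨g1, g2⟩ := h4
      obtain ⟨g3, -, g4⟩ := h5
      rw [abs_le] at g1 g2 g3 g4
      refine ⟨?_, ?_⟩
      · rw [Nat.cast_add, Nat.cast_one, abs_le]
        omega
      · rw [Nat.cast_add, Nat.cast_one, abs_le]
        omega
    · exact ⟨0, fun h => absurd h (by omega)⟩
  choose e he using hex
  have hbox : ∀ q : ℕ, ∃ y : Pt, q < N → ((y + B (e q) ∈ Bl (P 0) (14 * ρ) ∨ y + B (e q) ∈ Bl (Q 0) (14 * ρ)) ∧
      Bl y (2 * σ) ⊆ TT A B m) := by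
    intro q
    rcases Nat.lt_or_ge q N with hq | hq
    · obtain ⟨h1, h2, h3⟩ := he q hq
      obtain ⟨y, hy⟩ := box_pt hn hP (fun i hi => (hPA i hi).1) hP1 hP2 hn' hQ (fun i hi => (hQA i hi).1) hQ1 hQ2 hρ hσ hB h1
        (p := e q) (by
          intro hcon
          refine hfar ?_
          have h4 : (q + 1) * (30 * ρ) + 30 * ρ ≤ R := by
            have : (q + 1) * (30 * ρ) + 30 * ρ = (q + 2) * (30 * ρ) := by ring
            rw [this]
            exact (Nat.mul_le_mul_right _ (by omega)).trans hN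
          obtain ⟨g1, g2⟩ := hcon
          obtain ⟨g3, g4⟩ := h3
          rw [abs_le] at g1 g2 g3 g4
          obtain ⟨K, hK⟩ : ∃ K, K = (q + 1) * (30 * ρ) := ⟨_, rfl⟩
          rw [← hK] at g3 g4 h4
          push_cast at g1 g2 g3 g4
          refine ⟨?_, ?_⟩
          · rw [abs_le]
            omega
          · rw [abs_le]
            omega)
      exact ⟨y, fun _ => hy⟩
    · exact ⟨0, fun h => absurd h (by omega)⟩
  choose y hy using hbox
  have hsep : ∀ q < N, ∀ q' < N, q < q' → B (e q') ∉ Bl (B (e q)) (30 * ρ - 1) := by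
    intro q hq q' hq' hlt hcon
    obtain ⟨-, h1, -⟩ := he q' hq'
    obtain ⟨-, -, h2⟩ := he q hq
    refine h1 ?_
    have h4 : (q + 1) * (30 * ρ) + 30 * ρ ≤ (q' + 1) * (30 * ρ) := by
      have : (q + 1) * (30 * ρ) + 30 * ρ = (q + 2) * (30 * ρ) := by ring
      rw [this]
      exact Nat.mul_le_mul_right _ (by omega)
    obtain ⟨g1, g2⟩ := hcon
    obtain ⟨g3, g4⟩ := h2
    rw [abs_le] at g1 g2 g3 g4
    obtain ⟨K, hK⟩ : ∃ K, K = (q + 1) * (30 * ρ) := ⟨_, rfl⟩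
    obtain ⟨K', hK'⟩ : ∃ K', K' = (q' + 1) * (30 * ρ) := ⟨_, rfl⟩
    rw [← hK] at g3 g4 h4
    rw [← hK'] at h4 ⊢
    rw [Nat.cast_sub (by omega)] at g1 g2
    push_cast at g1 g2 g3 g4
    refine ⟨?_, ?_⟩
    · rw [abs_le]
      omega
    · rw [abs_le]
      omega
  -- pigeonhole
  have hmain : ∀ (O : Pt), O ∈ Bl a R → ∀ I : Finset ℕ, (∀ q ∈ I, q < N ∧ y q + B (e q) ∈ Bl O (14 * ρ)) → N ≤ 2 * I.card →
      ∃ Y : Finset (ℤ × ℤ), N * (2 * σ + 1) ^ 2 ≤ 2 * Y.card ∧ ∀ y ∈ Y, y ∈ Bl v (4 * R) ∧ Bl y σ ⊆ TT A B m := by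
    intro O hO I hI hc
    refine ⟨I.biUnion (fun q => bl (y q) σ), ?_, ?_⟩
    · rw [cover_card hρ hσ (fun q hq => (hI q hq).2) (fun q hq q' hq' hlt => hsep q (hI q hq).1 q' (hI q' hq').1 hlt),
        ← mul_assoc]
      exact Nat.mul_le_mul_right _ hc
    · intro z hz
      rw [Finset.mem_biUnion] at hz
      obtain ⟨q, hq, hz⟩ := hz
      rw [mem_bl] at hz
      obtain ⟨hqN, hq2⟩ := hI q hq
      refine ⟨?_, ?_⟩
      · obtain ⟨-, -, h3⟩ := he q hqN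
        have h4 : (q + 1) * (30 * ρ) + 30 * ρ ≤ R := by
          have : (q + 1) * (30 * ρ) + 30 * ρ = (q + 2) * (30 * ρ) := by ring
          rw [this]
          exact (Nat.mul_le_mul_right _ (by omega)).trans hN
        obtain ⟨K, hK⟩ : ∃ K, K = (q + 1) * (30 * ρ) := ⟨_, rfl⟩
        rw [← hK] at h3 h4
        obtain ⟨g1, g2⟩ := hz
        obtain ⟨g3, g4⟩ := hq2
        obtain ⟨g5, g6⟩ := h3
        obtain ⟨g7, g8⟩ := hO
        obtain ⟨g9, g10⟩ := ha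
        rw [abs_le] at g1 g2 g3 g4 g5 g6 g7 g8 g9 g10
        rw [Prod.fst_add] at g3 g9
        rw [Prod.snd_add] at g4 g10
        push_cast at g3 g4 g5 g6
        refine ⟨?_, ?_⟩
        · push_cast
          rw [abs_le]
          omega
        · push_cast
          rw [abs_le]
          omega
      · intro w hw
        refine (hy q hqN).2 ?_
        obtain ⟨g1, g2⟩ := hz
        obtain ⟨g3, g4⟩ := hw
        rw [abs_le] at g1 g2 g3 g4
        refine ⟨?_, ?_⟩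
        · push_cast
          rw [abs_le]
          omega
        · push_cast
          rw [abs_le]
          omega
  have hc : ((range N).filter (fun q => y q + B (e q) ∈ Bl (P 0) (14 * ρ))).card +
      ((range N).filter (fun q => ¬ y q + B (e q) ∈ Bl (P 0) (14 * ρ))).card = N := by
    rw [Finset.card_filter_add_card_filter_not, card_range]
  rcases Nat.lt_or_ge (2 * ((range N).filter (fun q => y q + B (e q) ∈ Bl (P 0) (14 * ρ))).card) N with h1 | h1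
  · refine hmain (Q 0) (hQA 0 (by omega)).2 ((range N).filter (fun q => ¬ y q + B (e q) ∈ Bl (P 0) (14 * ρ))) ?_ (by omega)
    intro q hq
    rw [Finset.mem_filter, Finset.mem_range] at hq
    refine ⟨hq.1, ?_⟩
    rcases (hy q hq.1).1 with h2 | h2
    · exact absurd h2 hq.2
    · exact h2
  · refine hmain (P 0) (hPA 0 (by omega)).2 ((range N).filter (fun q => y q + B (e q) ∈ Bl (P 0) (14 * ρ))) ?_ h1
    intro q hq
    rw [Finset.mem_filter, Finset.mem_range] at hq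
    exact hq

end SIM

end HexObs
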