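import Pool.Agent.NC.TvRun
import Pool.Agent.EN.Defs
import Pool.Agent.NTW.EqEvent

/-!
SIM (no double points): the runs of leaves of a small class S, without backtracks, of any number and any total height.
-/

set_option autoImplicit false

namespace HexObs

namespace SIM

open Finset TS SDN SDN.CN SDN.CCh NTW NTA

open scoped ENNReal

/-- the runs of m leaves of S without backtracks, the sum of the heights (in units 2 ^ (k + s)) is at least V -/
def TvS (S : Set (List Bool)) (k s m V : ℕ) : Set (List (List Bool)) := {gs | gs ∈ NC.TvR k s m V ∧ ∀ g ∈ gs, g ∈ S}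

namespace TvSA

/-- the leaves of S of the height number n -/
def SK (S : Set (List Bool)) (k s n : ℕ) : Set (List Bool) := CK (k + 5) (k + s) n ∩ HB (2 ^ (k + 4)) ∩ S

/-- the sum over the next n leaves, with the exponential moment, then the functional Φ of the last leaf -/
noncomputable def FG (S : Set (List Bool)) (Φ : List Bool → ℝ≥0∞) (k s : ℕ) : ℕ → List Bool → ℝ≥0∞
  | 0 => Φ
  | n + 1 => fun t => ∑' j : ℕ, 2 ^ j * vA (2 ^ (k + 4)) (SK S k s j) (FG S Φ k s n) t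

lemma FG_her (S : Set (List Bool)) (Φ : List Bool → ℝ≥0∞) (k s n : ℕ) : HerD (2 ^ (k + 4)) (FG S Φ k s (n + 1)) := by
  constructor
  · intro a ha t
    exact ENNReal.tsum_le_tsum fun j => mul_le_mul_right (CN.hered_vA _ _ _ a ha t) _
  · intro a t ht _
    exact ENNReal.tsum_le_tsum fun j => mul_le_mul_right (vA_suf (Nat.one_le_two_pow) _ _ ht) _

lemma Dm_FG {S : Set (List Bool)} {a : ℕ → ℝ} {θ : ℝ} {k s : ℕ} (hθ : 0 ≤ θ)
    (hs : ∑' j : ℕ, (2 : ℝ≥0∞) ^ j * ENNReal.ofReal (a j) ≤ ENNReal.ofReal θ)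
    (h : ∀ n : ℕ, SmD DmJ k (SK S k s n) (a n))
    {x : ℝ≥0∞} {Φ : List Bool → ℝ≥0∞} (hΦ : DmJ k x Φ) (n : ℕ) :
    DmJ k (ENNReal.ofReal (θ ^ n) * x) (FG S Φ k s n) ∧
      xT (2 ^ (k + 4)) k (FG S Φ k s (n + 1)) ≤ ENNReal.ofReal (θ ^ (n + 1)) * x := by
  induction n with
  | zero =>
    have h0 : DmJ k (ENNReal.ofReal (θ ^ 0) * x) (FG S Φ k s 0) := by
      rw [pow_zero, ENNReal.ofReal_one, one_mul]
      exact hΦ
    refine ⟨h0, ?_⟩
    refine (xT_tsum _ _ _).trans ?_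
    refine (ENNReal.tsum_le_tsum fun j => ((SDN.xT_smul _ _ _ _).trans (mul_le_mul_right ((h j).near x Φ hΦ) _))).trans ?_
    simp only [← mul_assoc]
    rw [ENNReal.tsum_mul_right, zero_add, pow_one]
    exact mul_le_mul_left hs _
  | succ n ih =>
    have h0 : DmJ k (ENNReal.ofReal (θ ^ (n + 1)) * x) (FG S Φ k s (n + 1)) :=
      (DmJ_dm k _ (FG_her S Φ k s n)).mono ih.2
    refine ⟨h0, ?_⟩
    refine (xT_tsum _ _ _).trans ?_
    refine (ENNReal.tsum_le_tsum fun j => ((SDN.xT_smul _ _ _ _).trans (mul_le_mul_right ((h j).near _ _ h0) _))).trans ?_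
    simp only [← mul_assoc]
    rw [ENNReal.tsum_mul_right, ENNReal.tsum_mul_right]
    refine (mul_le_mul_left (mul_le_mul_left hs _) _).trans ?_
    rw [← ENNReal.ofReal_mul hθ]
    refine le_of_eq ?_
    congr 2
    rw [pow_succ θ (n + 1)]
    ring

open Classical in
/-- chains behind the leaf g -/
noncomputable def TG (S : Set (List Bool)) (Φ : List Bool → ℝ≥0∞) (k s n : ℕ) (g : List Bool) : ℝ≥0∞ :=
  ∑' gs : List (List Bool), if gs.length = n ∧ (g :: gs).IsChain LFold ∧ (∀ u ∈ gs, u ∈ Sg k ∩ S) then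
    wv k s gs * Φ (gs.getLastD g) else 0

lemma sum_leafS (S : Set (List Bool)) (k s : ℕ) (R : List Bool → Prop) (Φ : List Bool → ℝ≥0∞) (F : ℕ → ℝ≥0∞)
    (hF : ∀ j, Rec8.sw {g | g ∈ SK S k s j ∧ R g} Φ ≤ F j) :
    Rec8.sw {g | g ∈ Sg k ∩ S ∧ R g} (fun g => 2 ^ (hgt g / 2 ^ (k + s)) * Φ g) ≤ ∑' j : ℕ, 2 ^ j * F j := by
  refine le_trans (Rec8.sw_mono ?_ fun _ _ => le_rfl) (sum_leaf k s (fun g => g ∈ S ∧ R g) Φ F fun j => ?_)
  · rintro g ⟨⟨h1, h2⟩, h3⟩
    exact ⟨h1, h2, h3⟩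
  · refine le_trans (Rec8.sw_mono ?_ fun _ _ => le_rfl) (hF j)
    rintro g ⟨h1, h2, h3⟩
    exact ⟨⟨h1, h2⟩, h3⟩

lemma TG_le (S : Set (List Bool)) (Φ : List Bool → ℝ≥0∞) (k s n : ℕ) : ∀ g ∈ HB (2 ^ (k + 4)),
    TG S Φ k s n g ≤ FG S Φ k s n g := by
  classical
  induction n with
  | zero =>
    intro g _
    unfold TG
    rw [tsum_eq_single []]
    · split_ifs
      · simp [wv, FG]
      · exact zero_le
    · intro gs hgs
      rw [if_neg]
      rintro ⟨h, -⟩
      exact hgs (List.length_eq_zero_iff.1 h)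
  | succ n ih =>
    intro g hg
    have h1 : TG S Φ k s (n + 1) g ≤ Rec8.sw {g' | g' ∈ Sg k ∩ S ∧ RT (2 ^ (k + 4)) LFold g g'}
        (fun g' => 2 ^ (hgt g' / 2 ^ (k + s)) * FG S Φ k s n g') := by
      unfold TG
      refine (tsum_list _ ?_).trans ?_
      · rw [if_neg]
        rintro ⟨h, -⟩
        simp at h
      · rw [Rec8.sw_ind]
        refine ENNReal.tsum_le_tsum fun g' => ?_
        by_cases h2 : g' ∈ Sg k ∩ S ∧ LFold g g'
        · have h3 : g' ∈ {g' | g' ∈ Sg k ∩ S ∧ RT (2 ^ (k + 4)) LFold g g'} := ⟨h2.1, RT_of hg h2.2⟩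
          rw [if_pos h3]
          have h4 : wE g' * (2 ^ (hgt g' / 2 ^ (k + s)) * FG S Φ k s n g') = w1 k s g' * FG S Φ k s n g' := by
            unfold w1
            ring
          rw [h4]
          refine le_trans ?_ (mul_le_mul_right (ih g' h2.1.1.2) _)
          unfold TG
          rw [← ENNReal.tsum_mul_left]
          refine ENNReal.tsum_le_tsum fun gs => ?_
          by_cases h5 : (g' :: gs).length = n + 1 ∧ (g :: g' :: gs).IsChain LFold ∧ ∀ u ∈ g' :: gs, u ∈ Sg k ∩ S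
          · rw [if_pos h5, if_pos]
            · unfold wv
              rw [List.map_cons, List.prod_cons, List.getLastD_cons, mul_assoc]
            · refine ⟨?_, ?_, ?_⟩
              · have := h5.1
                rw [List.length_cons] at this
                omega
              · exact (List.isChain_cons_cons.1 h5.2.1).2
              · exact fun u hu => h5.2.2 u (List.mem_cons_of_mem _ hu)
          · rw [if_neg h5]
            exact zero_le
        · have h3 : ∀ gs : List (List Bool), (if (g' :: gs).length = n + 1 ∧ (g :: g' :: gs).IsChain LFold ∧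
              (∀ u ∈ g' :: gs, u ∈ Sg k ∩ S) then wv k s (g' :: gs) * Φ ((g' :: gs).getLastD g) else 0) = 0 := by
            intro gs
            rw [if_neg]
            rintro ⟨-, h4, h5⟩
            exact h2 ⟨h5 g' List.mem_cons_self, (List.isChain_cons_cons.1 h4).1⟩
          rw [tsum_congr h3, tsum_zero]
          exact zero_le
    refine h1.trans ?_
    exact sum_leafS S k s (fun g' => RT (2 ^ (k + 4)) LFold g g') (FG S Φ k s n)
      (fun j => vA (2 ^ (k + 4)) (SK S k s j) (FG S Φ k s n) g) (fun j => le_rfl)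

open Classical in
/-- the run functional -/
lemma runF_le {S : Set (List Bool)} {k s n V : ℕ} (Φ : List Bool → ℝ≥0∞) (g : List Bool) :
    2 ^ V * runF (TvS S k s (n + 1) V) Φ g ≤ if g ∈ Sg k ∩ S then 2 ^ (hgt g / 2 ^ (k + s)) * TG S Φ k s n g else 0 := by
  by_cases hg : g ∈ Sg k ∩ S
  · rw [if_pos hg]
    unfold runF TG
    rw [← ENNReal.tsum_mul_left, ← ENNReal.tsum_mul_left]
    refine ENNReal.tsum_le_tsum fun ms => ?_
    by_cases h1 : (g :: ms) ∈ TvS S k s (n + 1) V ∧ (g :: ms).IsChain LFold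
    · obtain ⟨⟨⟨a1, a2, a3⟩, a5⟩, a4⟩ := h1
      rw [if_pos ⟨⟨⟨a1, a2, a3⟩, a5⟩, a4⟩, if_pos ⟨by rw [List.length_cons] at a1; omega, a4,
        fun u hu => ⟨a2 u (List.mem_cons_of_mem _ hu), a5 u (List.mem_cons_of_mem _ hu)⟩⟩, List.getLastD_cons,
        NC.TvA.wv_eq]
      rw [List.map_cons, List.sum_cons] at a3
      have h2 : (2 : ℝ≥0∞) ^ V ≤ 2 ^ (hgt g / 2 ^ (k + s)) * 2 ^ (ms.map fun g => hgt g / 2 ^ (k + s)).sum := by
        rw [← pow_add]
        exact pow_le_pow_right₀ (by norm_num) a3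
      calc (2 : ℝ≥0∞) ^ V * (SDN.wl ms * Φ (ms.getLastD g))
          ≤ (2 ^ (hgt g / 2 ^ (k + s)) * 2 ^ (ms.map fun g => hgt g / 2 ^ (k + s)).sum) *
            (SDN.wl ms * Φ (ms.getLastD g)) := mul_le_mul_left h2 _
        _ = _ := by ring
    · rw [if_neg h1, mul_zero]
      exact zero_le
  · rw [if_neg hg]
    unfold runF
    refine le_of_eq ?_
    rw [ENNReal.tsum_eq_zero.2, mul_zero]
    intro ms
    rw [if_neg]
    rintro ⟨⟨⟨-, a2, -⟩, a5⟩, -⟩
    exact hg ⟨a2 g List.mem_cons_self, a5 g List.mem_cons_self⟩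

end TvSA

open TvSA in
/-- **the runs of leaves of a small class** -/
theorem smR_tvS {S : Set (List Bool)} {a : ℕ → ℝ} {θ : ℝ} {k s : ℕ} (hθ : 0 ≤ θ) (ha : ∀ n, 0 ≤ a n)
    (hs : ∑' j : ℕ, (2 : ℝ≥0∞) ^ j * ENNReal.ofReal (a j) ≤ ENNReal.ofReal θ)
    (h : ∀ n : ℕ, SmD DmJ k (SK S k s n) (a n)) (m V : ℕ) (hm : 1 ≤ m) : SmR DmJ k (TvS S k s m V) (θ ^ m / 2 ^ V) := by
  classical
  obtain ⟨n, rfl⟩ : ∃ n, m = n + 1 := ⟨m - 1, by omega⟩
  have hUk := (Ub_pos k).le
  obtain ⟨c, hc⟩ : ∃ c : ℝ≥0∞, c = ENNReal.ofReal (1 / 2 ^ V) := ⟨_, rfl⟩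
  have e2 : c * (2 : ℝ≥0∞) ^ V = 1 := by
    have : (2 : ℝ≥0∞) ^ V = ENNReal.ofReal (2 ^ V) := by
      rw [ENNReal.ofReal_pow (by norm_num)]
      congr 1
      norm_num
    rw [this, hc, ← ENNReal.ofReal_mul (by positivity), one_div, inv_mul_cancel₀ (by positivity), ENNReal.ofReal_one]
  have hrun : ∀ (Φ : List Bool → ℝ≥0∞) (g : List Bool), runF (TvS S k s (n + 1) V) Φ g ≤
      c * (if g ∈ Sg k ∩ S then 2 ^ (hgt g / 2 ^ (k + s)) * FG S Φ k s n g else 0) := by
    intro Φ g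
    calc runF (TvS S k s (n + 1) V) Φ g = c * (2 ^ V * runF (TvS S k s (n + 1) V) Φ g) := by
          rw [← mul_assoc, e2, one_mul]
      _ ≤ c * (if g ∈ Sg k ∩ S then 2 ^ (hgt g / 2 ^ (k + s)) * TG S Φ k s n g else 0) := mul_le_mul_right (runF_le Φ g) _
      _ ≤ _ := by
          refine mul_le_mul_right ?_ _
          by_cases hg : g ∈ Sg k ∩ S
          · rw [if_pos hg, if_pos hg]
            exact mul_le_mul_right (TG_le S Φ k s n g hg.1.2) _
          · rw [if_neg hg, if_neg hg]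
  refine ⟨fun x Φ hΦ => ?_, fun y x Ψ Φ hΨ hf hΦ => ?_⟩
  · obtain ⟨-, h1⟩ := Dm_FG hθ hs h hΦ n
    have h4 : ∀ t, vA (2 ^ (k + 4)) (HB (2 ^ (k + 4))) (runF (TvS S k s (n + 1) V) Φ) t ≤ c * FG S Φ k s (n + 1) t := by
      intro t
      have h5 : vA (2 ^ (k + 4)) (HB (2 ^ (k + 4))) (runF (TvS S k s (n + 1) V) Φ) t ≤
          c * Rec8.sw {g | g ∈ Sg k ∩ S ∧ RT (2 ^ (k + 4)) LFold t g}
            (fun g => 2 ^ (hgt g / 2 ^ (k + s)) * FG S Φ k s n g) := by
        unfold vA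
        rw [← Rec8.sw_mul_left, Rec8.sw_ind, Rec8.sw_ind]
        refine ENNReal.tsum_le_tsum fun g => ?_
        by_cases hg : g ∈ {g' | g' ∈ HB (2 ^ (k + 4)) ∧ RT (2 ^ (k + 4)) LFold t g'}
        · rw [if_pos hg]
          have h6 := hrun Φ g
          by_cases h0 : g ∈ Sg k ∩ S
          · rw [if_pos (show g ∈ {g | g ∈ Sg k ∩ S ∧ RT (2 ^ (k + 4)) LFold t g} from ⟨h0, hg.2⟩)]
            rw [if_pos h0] at h6
            exact mul_le_mul_right h6 _
          · rw [if_neg h0, mul_zero, nonpos_iff_eq_zero] at h6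
            rw [h6, mul_zero]
            exact zero_le
        · rw [if_neg hg]
          exact zero_le
      refine h5.trans (mul_le_mul_right ?_ _)
      exact sum_leafS S k s (fun g => RT (2 ^ (k + 4)) LFold t g) (FG S Φ k s n)
        (fun j => vA (2 ^ (k + 4)) (SK S k s j) (FG S Φ k s n) t) (fun j => le_rfl)
    refine (xT_mono h4).trans ((SDN.xT_smul _ _ _ _).trans ((mul_le_mul_right h1 _).trans (le_of_eq ?_)))
    rw [hc, ← mul_assoc, ← ENNReal.ofReal_mul (by positivity)]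
    congr 2
    ring
  · obtain ⟨h1, -⟩ := Dm_FG hθ hs h hΦ n
    have h4 : Rec8.sw (HB (2 ^ (k + 4))) (fun g => Ψ (rev g) * runF (TvS S k s (n + 1) V) Φ g) ≤
        c * Rec8.sw {g | g ∈ Sg k ∩ S ∧ True} (fun g => 2 ^ (hgt g / 2 ^ (k + s)) * (Ψ (rev g) * FG S Φ k s n g)) := by
      rw [← Rec8.sw_mul_left, Rec8.sw_ind, Rec8.sw_ind]
      refine ENNReal.tsum_le_tsum fun g => ?_
      by_cases hg : g ∈ HB (2 ^ (k + 4))
      · rw [if_pos hg]
        have h6 := hrun Φ g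
        by_cases h0 : g ∈ Sg k ∩ S
        · rw [if_pos (show g ∈ {g | g ∈ Sg k ∩ S ∧ True} from ⟨h0, trivial⟩)]
          rw [if_pos h0] at h6
          refine mul_le_mul_right ?_ _
          calc Ψ (rev g) * runF (TvS S k s (n + 1) V) Φ g
              ≤ Ψ (rev g) * (c * (2 ^ (hgt g / 2 ^ (k + s)) * FG S Φ k s n g)) := mul_le_mul_right h6 _
            _ = _ := by ring
        · rw [if_neg h0, mul_zero, nonpos_iff_eq_zero] at h6
          rw [h6, mul_zero, mul_zero]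
          exact zero_le
      · rw [if_neg hg]
        exact zero_le
    refine h4.trans ?_
    have h5 := sum_leafS S k s (fun _ => True) (fun g => Ψ (rev g) * FG S Φ k s n g)
      (fun j => ENNReal.ofReal (a j) * (ENNReal.ofReal (Ub k) * (y * (ENNReal.ofReal (θ ^ n) * x)))) (fun j => by
        refine (Rec8.sw_mono (fun g hg => hg.1) fun _ _ => le_rfl).trans (((h j).free y _ Ψ _ hΨ hf h1).trans
          (le_of_eq ?_))
        rw [ENNReal.ofReal_mul (ha j), mul_assoc])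
    refine (mul_le_mul_right h5 _).trans ?_
    simp only [← mul_assoc]
    rw [ENNReal.tsum_mul_right, ENNReal.tsum_mul_right, ENNReal.tsum_mul_right, ENNReal.tsum_mul_right]
    refine le_trans (b := c * (ENNReal.ofReal θ * ENNReal.ofReal (Ub k) * y * ENNReal.ofReal (θ ^ n) * x)) ?_ (le_of_eq ?_)
    · gcongr
    calc c * (ENNReal.ofReal θ * ENNReal.ofReal (Ub k) * y * ENNReal.ofReal (θ ^ n) * x)
        = (c * (ENNReal.ofReal θ * ENNReal.ofReal (θ ^ n)) * ENNReal.ofReal (Ub k)) * (y * x) := by ring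
      _ = _ := by
          rw [hc, ← ENNReal.ofReal_mul hθ, ← ENNReal.ofReal_mul (by positivity), ← ENNReal.ofReal_mul (by positivity),
            mul_assoc _ y x]
          congr 2
          rw [pow_succ]
          ring

/-- the tilted sum of min (ε, K / 4 ^ n) -/
lemma tilt_sum {K θ : ℝ} (hK : 1 ≤ K) (hθ : 0 < θ) : ∃ ε : ℝ, 0 < ε ∧
    ∑' j : ℕ, (2 : ℝ≥0∞) ^ j * ENNReal.ofReal (min ε (K / 4 ^ j)) ≤ ENNReal.ofReal θ := by
  obtain ⟨N, hN⟩ : ∃ N : ℕ, 4 * K / θ ≤ 2 ^ N := by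
    obtain ⟨n, hn⟩ := pow_unbounded_of_one_lt (4 * K / θ) (one_lt_two (α := ℝ))
    exact ⟨n, hn.le⟩
  refine ⟨θ / (2 * 2 ^ N), by positivity, ?_⟩
  have e1 : ∀ j : ℕ, (2 : ℝ≥0∞) ^ j = ENNReal.ofReal (2 ^ j) := by
    intro j
    rw [ENNReal.ofReal_pow (by norm_num)]
    congr 1
    norm_num
  have h1 : ∀ j : ℕ, (2 : ℝ≥0∞) ^ j * ENNReal.ofReal (min (θ / (2 * 2 ^ N)) (K / 4 ^ j)) ≤
      ENNReal.ofReal (if j < N then θ / (2 * 2 ^ N) * 2 ^ j else 0) +
        ENNReal.ofReal (K / 2 ^ N * (1 / 2) ^ (j - N)) * (if N ≤ j then 1 else 0) := by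
    intro j
    rw [e1, ← ENNReal.ofReal_mul (by positivity)]
    by_cases hj : j < N
    · rw [if_pos hj, if_neg (by omega), mul_zero, add_zero]
      apply ENNReal.ofReal_le_ofReal
      rw [mul_comm]
      exact mul_le_mul_of_nonneg_right (min_le_left _ _) (by positivity)
    · rw [if_neg hj, if_pos (by omega), ENNReal.ofReal_zero, zero_add, mul_one]
      apply ENNReal.ofReal_le_ofReal
      obtain ⟨i, rfl⟩ : ∃ i, j = N + i := ⟨j - N, by omega⟩
      rw [Nat.add_sub_cancel_left]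
      calc 2 ^ (N + i) * min (θ / (2 * 2 ^ N)) (K / 4 ^ (N + i)) ≤ 2 ^ (N + i) * (K / 4 ^ (N + i)) := by
            gcongr
            exact min_le_right _ _
        _ = K / 2 ^ N * (1 / 2) ^ i := by
            rw [show (4 : ℝ) ^ (N + i) = 2 ^ (N + i) * (2 ^ N * 2 ^ i) by
              rw [← pow_add, ← mul_pow]
              norm_num]
            rw [one_div, inv_pow]
            field_simp
  refine (ENNReal.tsum_le_tsum h1).trans ?_
  rw [ENNReal.tsum_add]
  have h2 : ∑' j : ℕ, ENNReal.ofReal (if j < N then θ / (2 * 2 ^ N) * 2 ^ j else 0) ≤ ENNReal.ofReal (θ / 2) := by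
    rw [tsum_eq_sum (s := range N) (fun j hj => by
      rw [Finset.mem_range, not_lt] at hj
      rw [if_neg (by omega), ENNReal.ofReal_zero])]
    rw [← ENNReal.ofReal_sum_of_nonneg (fun j _ => by
      split_ifs
      · positivity
      · exact le_rfl)]
    apply ENNReal.ofReal_le_ofReal
    have h3 : ∑ j ∈ range N, (if j < N then θ / (2 * 2 ^ N) * 2 ^ j else 0) = θ / (2 * 2 ^ N) * ∑ j ∈ range N, (2 : ℝ) ^ j := by
      rw [Finset.mul_sum]
      exact Finset.sum_congr rfl fun j hj => if_pos (Finset.mem_range.1 hj)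
    rw [h3, geom_sum_eq (by norm_num) N]
    have h4 : (0 : ℝ) < 2 ^ N := by positivity
    rw [div_mul_eq_mul_div, div_le_iff₀ (by positivity)]
    nlinarith
  have h3 : ∑' j : ℕ, ENNReal.ofReal (K / 2 ^ N * (1 / 2) ^ (j - N)) * (if N ≤ j then 1 else 0) ≤
      ENNReal.ofReal (θ / 2) := by
    have h4 : ∀ j : ℕ, ENNReal.ofReal (K / 2 ^ N * (1 / 2) ^ (j - N)) * (if N ≤ j then (1 : ℝ≥0∞) else 0) =
        if N ≤ j then ENNReal.ofReal (K / 2 ^ N * (1 / 2) ^ (j - N)) else 0 := by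
      intro j
      split_ifs
      · rw [mul_one]
      · rw [mul_zero]
    simp only [h4]
    rw [EN.tsum_shift (fun c => ENNReal.ofReal (K / 2 ^ N * (1 / 2) ^ c)) N]
    have hsm : Summable fun i : ℕ => (1 / 2 : ℝ) ^ i := summable_geometric_of_lt_one (by norm_num) (by norm_num)
    rw [← ENNReal.ofReal_tsum_of_nonneg (fun i => by positivity) (hsm.mul_left _), tsum_mul_left,
      tsum_geometric_of_lt_one (by norm_num) (by norm_num)]
    apply ENNReal.ofReal_le_ofReal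
    rw [div_le_iff₀ hθ] at hN
    rw [div_mul_eq_mul_div, div_le_iff₀ (by positivity)]
    norm_num
    linarith
  refine (add_le_add h2 h3).trans ?_
  rw [← ENNReal.ofReal_add (by positivity) (by positivity)]
  exact ENNReal.ofReal_le_ofReal (by linarith)

open TvSA in
/-- **runs of leaves of a class of small norm: any number of leaves, any total height** -/
theorem smR_bad : ∃ s : ℕ, ∀ θ : ℝ, 0 < θ → ∃ ε : ℝ, 0 < ε ∧ ∀ (k : ℕ) (S : Set (List Bool)), SmD DmJ k S ε →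
    ∀ m V : ℕ, 1 ≤ m → SmR DmJ k (TvS S k s m V) (θ ^ m / 2 ^ V) := by
  obtain ⟨K, s, hK, h⟩ := NC.clean_D
  refine ⟨s, fun θ hθ => ?_⟩
  obtain ⟨ε, hε, hsum⟩ := tilt_sum hK hθ
  refine ⟨ε, hε, fun k S hS m V hm => smR_tvS (a := fun j => min ε (K / 4 ^ j)) hθ.le (fun n => by positivity) hsum
    (fun n => ?_) m V hm⟩
  rcases min_cases ε (K / 4 ^ n) with h1 | h1
  · rw [h1.1]
    exact QF.SmD_mono (fun g hg => hg.2) hS
  · rw [h1.1]
    exact QF.SmD_mono (fun g hg => hg.1) (h k n)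

end SIM

end HexObs
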